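import Pool.Agent.Lib.MP_8026b0_co.C04

set_option autoImplicit false

/-! Row C05: one activated vertex. -/

namespace Pool.Agent.LG

open Complex

namespace C05

theorem sqnorm (v : ℂ) : ‖v‖ ^ 2 = v.re ^ 2 + v.im ^ 2 := by
  rw [Complex.sq_norm, Complex.normSq_apply]; ring

/-- data at the vertex between `v3` and `v1` -/
theorem zeta {v1 v2 v3 : ℂ} (h : AdmTri v1 v2 v3) :
    ∃ x σ : ℝ, 0 < σ ∧ x ^ 2 + σ ^ 2 = 1 ∧
      ‖v2‖ ^ 2 = ‖v1‖ ^ 2 + ‖v3‖ ^ 2 - 2 * ‖v1‖ * ‖v3‖ * x ∧ ‖v2‖ ≤ 2 * σ ∧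
      u6 v3 = ((x : ℂ) + σ * I) ^ 6 * u6 v1 := by
  have h1 : 0 < ‖v1‖ := lt_of_lt_of_le one_pos h.l1
  have h3 : 0 < ‖v3‖ := lt_of_lt_of_le one_pos h.l3
  have h13 : 0 < ‖v1‖ * ‖v3‖ := mul_pos h1 h3
  have hv3 : v3 = -v1 - v2 := by linear_combination h.sum
  have e1 := sqnorm v1
  have e2 := sqnorm v2
  have e3 := sqnorm v3
  have r3 : v3.re = -v1.re - v2.re := by rw [hv3]; simp
  have i3 : v3.im = -v1.im - v2.im := by rw [hv3]; simp
  refine ⟨-(v1.re * v3.re + v1.im * v3.im) / (‖v1‖ * ‖v3‖), cr v1 v2 / (‖v1‖ * ‖v3‖),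
    div_pos h.ccw h13, ?_, ?_, ?_, ?_⟩
  · rw [div_pow, div_pow, ← add_div, div_eq_one_iff_eq (pow_pos h13 2).ne', mul_pow, e1, e3]
    unfold cr
    rw [r3, i3]
    ring
  · have h4 : 2 * ‖v1‖ * ‖v3‖ * (-(v1.re * v3.re + v1.im * v3.im) / (‖v1‖ * ‖v3‖)) =
        -2 * (v1.re * v3.re + v1.im * v3.im) := by
      field_simp
    rw [h4, e1, e2, e3, r3, i3]
    ring
  · rw [← mul_div_assoc, le_div_iff₀ h13]
    linarith [h.rad]
  · have hζ : (((-(v1.re * v3.re + v1.im * v3.im) / (‖v1‖ * ‖v3‖) : ℝ) : ℂ) +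
        ((cr v1 v2 / (‖v1‖ * ‖v3‖) : ℝ) : ℂ) * I) =
        -(v3 * (starRingEnd ℂ) v1) / ((‖v1‖ : ℂ) * (‖v3‖ : ℂ)) := by
      have h5 : ((‖v1‖ : ℂ) * (‖v3‖ : ℂ)) = ((‖v1‖ * ‖v3‖ : ℝ) : ℂ) := by push_cast; ring
      have hz : -(v3 * (starRingEnd ℂ) v1) =
          ((-(v1.re * v3.re + v1.im * v3.im) : ℝ) : ℂ) + ((cr v1 v2 : ℝ) : ℂ) * I := by
        apply Complex.ext
        · simp
          ring
        · simp [cr, r3, i3]
          ring
      rw [hz, h5, Complex.ofReal_div, Complex.ofReal_div]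
      ring
    have n1 : (‖v1‖ : ℂ) ≠ 0 := by exact_mod_cast h1.ne'
    have n3 : (‖v3‖ : ℂ) ≠ 0 := by exact_mod_cast h3.ne'
    have key : v3 / (‖v3‖ : ℂ) = -((((-(v1.re * v3.re + v1.im * v3.im) / (‖v1‖ * ‖v3‖) : ℝ) : ℂ) +
        ((cr v1 v2 / (‖v1‖ * ‖v3‖) : ℝ) : ℂ) * I) * (v1 / (‖v1‖ : ℂ))) := by
      rw [hζ]
      have h6 : (starRingEnd ℂ) v1 * v1 = (‖v1‖ : ℂ) ^ 2 := Complex.conj_mul' v1
      field_simp
      linear_combination (-v3) * h6
    unfold u6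
    rw [key, ← mul_pow, neg_pow]
    norm_num

theorem cube {x σ : ℝ} (h : x ^ 2 + σ ^ 2 = 1) : ((x : ℂ) + σ * I) ^ 3 =
    ((x * (4 * x ^ 2 - 3) : ℝ) : ℂ) + ((σ * (4 * x ^ 2 - 1) : ℝ) : ℂ) * I := by
  have h' : (x : ℂ) ^ 2 + (σ : ℂ) ^ 2 = 1 := by exact_mod_cast h
  have hI : I ^ 2 = -1 := Complex.I_sq
  push_cast
  linear_combination (-3 * (x : ℂ) - I * σ) * h' + (3 * (x : ℂ) * σ ^ 2 + σ ^ 3 * I) * hI

theorem unit {c s : ℝ} (h : c ^ 2 + s ^ 2 = 1) : ‖(c : ℂ) + s * I‖ = 1 := by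
  have h1 := sqnorm ((c : ℂ) + s * I)
  simp at h1
  rw [h] at h1
  nlinarith [norm_nonneg ((c : ℂ) + s * I)]

theorem unit3 {x σ : ℝ} (h : x ^ 2 + σ ^ 2 = 1) :
    (x * (4 * x ^ 2 - 3)) ^ 2 + (σ * (4 * x ^ 2 - 1)) ^ 2 = 1 := by
  have h1 : σ ^ 2 = 1 - x ^ 2 := by linarith
  rw [mul_pow σ, h1]
  ring

theorem six_sub {c s : ℝ} (h : c ^ 2 + s ^ 2 = 1) :
    ‖((c : ℂ) + s * I) ^ 2 - 1‖ = 2 * |s| := by
  have h' : (c : ℂ) ^ 2 + (s : ℂ) ^ 2 = 1 := by exact_mod_cast h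
  have h1 : ((c : ℂ) + s * I) ^ 2 - 1 = ((2 * s : ℝ) : ℂ) * (I * ((c : ℂ) + s * I)) := by
    push_cast
    linear_combination h' + (-(s : ℂ) ^ 2) * Complex.I_sq
  rw [h1, norm_mul, norm_mul, unit h, Complex.norm_I, mul_one, mul_one, Complex.norm_real,
    Real.norm_eq_abs, abs_mul, abs_of_pos (by norm_num : (0 : ℝ) < 2)]

theorem six_add {c s : ℝ} (h : c ^ 2 + s ^ 2 = 1) :
    ‖((c : ℂ) + s * I) ^ 2 + 1‖ = 2 * |c| := by
  have h' : (c : ℂ) ^ 2 + (s : ℂ) ^ 2 = 1 := by exact_mod_cast h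
  have h1 : ((c : ℂ) + s * I) ^ 2 + 1 = ((2 * c : ℝ) : ℂ) * ((c : ℂ) + s * I) := by
    push_cast
    linear_combination (-1 : ℂ) * h' + ((s : ℂ) ^ 2) * Complex.I_sq
  rw [h1, norm_mul, unit h, mul_one, Complex.norm_real,
    Real.norm_eq_abs, abs_mul, abs_of_pos (by norm_num : (0 : ℝ) < 2)]

theorem pow6 {x σ : ℝ} (h : x ^ 2 + σ ^ 2 = 1) : ((x : ℂ) + σ * I) ^ 6 =
    (((x * (4 * x ^ 2 - 3) : ℝ) : ℂ) + ((σ * (4 * x ^ 2 - 1) : ℝ) : ℂ) * I) ^ 2 := by
  rw [← cube h]; ring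

theorem norm6 {x σ : ℝ} (h : x ^ 2 + σ ^ 2 = 1) {w : ℂ} (hw : ‖w‖ = 1) :
    ‖((x : ℂ) + σ * I) ^ 6 * w‖ = 1 := by
  rw [norm_mul, hw, mul_one, norm_pow, unit h, one_pow]

theorem lip {x σ : ℝ} (h : x ^ 2 + σ ^ 2 = 1) {w : ℂ} (hw : ‖w‖ = 1) :
    Xi (((x : ℂ) + σ * I) ^ 6 * w) - Xi w ≤ kap * (2 * |σ * (4 * x ^ 2 - 1)|) := by
  have h1 := Xi_lip hw (norm6 h hw)
  have h2 : ((x : ℂ) + σ * I) ^ 6 * w - w = (((x : ℂ) + σ * I) ^ 6 - 1) * w := by ring
  rw [h2, norm_mul, hw, mul_one, pow6 h, six_sub (unit3 h)] at h1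
  rw [pow6 h]
  exact (le_abs_self _).trans h1

theorem one {x σ : ℝ} (h : x ^ 2 + σ ^ 2 = 1) {w : ℂ} (hw : ‖w‖ = 1)
    (hc : (x * (4 * x ^ 2 - 3)) * (σ * (4 * x ^ 2 - 1)) ≤ 0) :
    Xi (((x : ℂ) + σ * I) ^ 6 * w) - Xi w ≤ 2 / 3 * chi * (2 * |σ * (4 * x ^ 2 - 1)|) := by
  have hcr : 0 ≤ cr (((x : ℂ) + σ * I) ^ 6 * w) w := by
    have e := sqnorm w
    rw [hw] at e
    have h3 : cr (((x : ℂ) + σ * I) ^ 6 * w) w =
        -(2 * ((x * (4 * x ^ 2 - 3)) * (σ * (4 * x ^ 2 - 1)))) * (w.re ^ 2 + w.im ^ 2) := by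
      rw [pow6 h]
      generalize x * (4 * x ^ 2 - 3) = c
      generalize σ * (4 * x ^ 2 - 1) = s
      unfold cr
      simp [pow_two]
      ring
    rw [h3, ← e]
    linarith
  have h1 := Xi_one_sided hw (norm6 h hw) hcr
  have h2 : ((x : ℂ) + σ * I) ^ 6 * w - w = (((x : ℂ) + σ * I) ^ 6 - 1) * w := by ring
  rw [h2, norm_mul, hw, mul_one, pow6 h, six_sub (unit3 h)] at h1
  rw [pow6 h]
  exact h1

theorem mixed {x σ : ℝ} (h : x ^ 2 + σ ^ 2 = 1) {w : ℂ} (hw : ‖w‖ = 1) :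
    Xi (-(((x : ℂ) + σ * I) ^ 6 * w)) - Xi w ≤ kap * (2 * |x * (4 * x ^ 2 - 3)|) ∧
    Xi (((x : ℂ) + σ * I) ^ 6 * w) - Xi (-w) ≤ kap * (2 * |x * (4 * x ^ 2 - 3)|) := by
  have hw' : ‖-w‖ = 1 := by rw [norm_neg, hw]
  have hz' : ‖-(((x : ℂ) + σ * I) ^ 6 * w)‖ = 1 := by rw [norm_neg, norm6 h hw]
  have h1 := Xi_lip hw hz'
  have h1' := Xi_lip hw' (norm6 h hw)
  have h2 : -(((x : ℂ) + σ * I) ^ 6 * w) - w = -((((x : ℂ) + σ * I) ^ 6 + 1) * w) := by ring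
  have h2' : ((x : ℂ) + σ * I) ^ 6 * w - -w = (((x : ℂ) + σ * I) ^ 6 + 1) * w := by ring
  rw [h2, norm_neg, norm_mul, hw, mul_one, pow6 h, six_add (unit3 h)] at h1
  rw [h2', norm_mul, hw, mul_one, pow6 h, six_add (unit3 h)] at h1'
  rw [pow6 h]
  exact ⟨(le_abs_self _).trans h1, (le_abs_self _).trans h1'⟩

theorem s3 : Real.sqrt 3 ≤ 18 / 10 := by
  rw [Real.sqrt_le_left (by norm_num)]
  norm_num

theorem kap0 : 0 ≤ kap := by unfold kap; positivity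

/-- the vertex at the largest angle -/
theorem apex {D e f b x σ : ℝ} (heb : e ≤ b) (hfb : f ≤ b) (hb1 : 1 ≤ b)
    (hx1 : -(1 / 2) ≤ x) (hx2 : x ≤ 1 / 2) (hσ : 0 < σ) (hxσ : x ^ 2 + σ ^ 2 = 1)
    (h0 : D ≤ 7 / 625)
    (H1 : e < 3 / 2 → f < 3 / 2 → D ≤ kap * (2 * |σ * (4 * x ^ 2 - 1)|))
    (H2 : e < 3 / 2 → f < 3 / 2 → (x * (4 * x ^ 2 - 3)) * (σ * (4 * x ^ 2 - 1)) ≤ 0 →
      D ≤ 2 / 3 * chi * (2 * |σ * (4 * x ^ 2 - 1)|)) : D ≤ pen b x := by
  have hσ1 : σ ≤ 1 := by nlinarith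
  have hx4 : 4 * x ^ 2 - 1 ≤ 0 := by nlinarith
  have habs : |σ * (4 * x ^ 2 - 1)| = σ * (1 - 4 * x ^ 2) := by
    rw [abs_of_nonpos (mul_nonpos_of_nonneg_of_nonpos hσ.le hx4)]; ring
  have hle : σ * (1 - 4 * x ^ 2) ≤ 1 - 4 * x ^ 2 := by nlinarith
  unfold pen
  refine le_min h0 (le_min ?_ ?_)
  · by_cases hE : 7 / 625 ≤ (1 / 2 + x) / 10 + 6 / 100 * (b - 1)
    · exact h0.trans hE
    · have hx3 : x < -(38 / 100) := by linarith [not_le.1 hE]
      have hb : b < 3 / 2 := by linarith [not_le.1 hE]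
      have hc : (x * (4 * x ^ 2 - 3)) * (σ * (4 * x ^ 2 - 1)) ≤ 0 := by
        apply mul_nonpos_of_nonneg_of_nonpos
        · apply mul_nonneg_of_nonpos_of_nonpos <;> linarith
        · exact mul_nonpos_of_nonneg_of_nonpos hσ.le hx4
      have h2 := H2 (by linarith) (by linarith) hc
      rw [habs] at h2
      have h3 : 1 - 4 * x ^ 2 ≤ 4 * (1 / 2 + x) := by
        have h30 : 1 - 4 * x ^ 2 = 2 * (1 + 2 * x) - (1 + 2 * x) ^ 2 := by ring
        linarith [sq_nonneg (1 + 2 * x)]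
      unfold chi at h2
      linarith
  · split_ifs with hb
    · by_cases hE : 7 / 625 ≤ (1 / 2 - x) / 5
      · exact h0.trans hE
      · have h1 := H1 (by linarith) (by linarith)
        rw [habs] at h1
        have h3 : 1 - 4 * x ^ 2 ≤ 4 * (1 / 2 - x) := by
          have h30 : 1 - 4 * x ^ 2 = 2 * (1 - 2 * x) - (1 - 2 * x) ^ 2 := by ring
          linarith [sq_nonneg (1 - 2 * x)]
        have h4 : kap * (2 * (σ * (1 - 4 * x ^ 2))) ≤ kap * (8 * (1 / 2 - x)) :=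
          mul_le_mul_of_nonneg_left (by linarith) kap0
        have h5 : kap * 8 ≤ 1 / 5 := by
          unfold kap
          linarith [s3]
        have h6 : kap * (8 * (1 / 2 - x)) ≤ 1 / 5 * (1 / 2 - x) := by
          rw [← mul_assoc]
          exact mul_le_mul_of_nonneg_right h5 (by linarith)
        linarith
    · exact h0

/-- the inequality for a short and a long side -/
theorem poly {b y : ℝ} (hb : 1 ≤ b) (hb2 : b ≤ 119 / 100) (hy : -(1 / 2) ≤ y)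
    (hy2 : y ≤ -(38 / 100)) :
    4 * b ^ 2 * (1 - y ^ 2) ≤
      (1 + 24 * ((1 / 2 + y) / 10 + 6 / 100 * (b - 1))) * (1 + b ^ 2 - 2 * b * y) := by
  obtain ⟨t, ht⟩ : ∃ t, t = y + 1 / 2 := ⟨_, rfl⟩
  obtain ⟨β, hβ⟩ : ∃ β, β = b - 1 := ⟨_, rfl⟩
  have hy' : y = t - 1 / 2 := by linarith
  have hb' : b = β + 1 := by linarith
  have t0 : 0 ≤ t := by linarith
  have t1 : t ≤ 12 / 100 := by linarith
  have b0 : 0 ≤ β := by linarith
  have b1 : β ≤ 19 / 100 := by linarith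
  subst hy'
  subst hb'
  have h1 : 0 ≤ β * t := mul_nonneg b0 t0
  have h2 : 0 ≤ t * (12 / 10 - 8 / 10 * t) := mul_nonneg t0 (by linarith)
  have h3 : β * t ≤ 19 / 100 * (12 / 100) := by nlinarith
  have h4 : 0 ≤ β * (132 / 100 - 568 / 100 * t - 448 / 100 * (β * t)) :=
    mul_nonneg b0 (by linarith)
  have h5 : 0 ≤ 232 / 100 * β ^ 2 := by positivity
  have h6 : 0 ≤ 32 / 10 * β * t ^ 2 := by positivity
  have h7 : 0 ≤ 144 / 100 * β ^ 3 := by positivity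
  have h8 : 0 ≤ 4 * β ^ 2 * t ^ 2 := by positivity
  have key : (1 + 24 * ((1 / 2 + (t - 1 / 2)) / 10 + 6 / 100 * (β + 1 - 1))) *
      (1 + (β + 1) ^ 2 - 2 * (β + 1) * (t - 1 / 2)) -
      4 * (β + 1) ^ 2 * (1 - (t - 1 / 2) ^ 2) =
      t * (12 / 10 - 8 / 10 * t) + β * (132 / 100 - 568 / 100 * t - 448 / 100 * (β * t)) +
      232 / 100 * β ^ 2 + 32 / 10 * β * t ^ 2 + 144 / 100 * β ^ 3 + 4 * β ^ 2 * t ^ 2 := by
    ring
  linarith

/-- a vertex at a smaller angle: sides `e ≤ d` at the vertex, opposite side `l` -/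
theorem side {D e d l b x σ y : ℝ} (he : 1 ≤ e) (hl : 1 ≤ l) (hed : e ≤ d) (hld : l ≤ d)
    (heb : e ≤ b) (hlb : l ≤ b) (hbm : b = e ∨ b = l) (hσ : 0 < σ) (hxσ : x ^ 2 + σ ^ 2 = 1)
    (hlaw : l ^ 2 = e ^ 2 + d ^ 2 - 2 * e * d * x) (hy : d ^ 2 = e ^ 2 + l ^ 2 - 2 * e * l * y)
    (hr : l ≤ 2 * σ) (h0 : D ≤ 7 / 625)
    (H1 : e < 3 / 2 → d < 3 / 2 → D ≤ kap * (2 * |σ * (4 * x ^ 2 - 1)|))
    (H2 : e < 3 / 2 → d < 3 / 2 → (x * (4 * x ^ 2 - 3)) * (σ * (4 * x ^ 2 - 1)) ≤ 0 →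
      D ≤ 2 / 3 * chi * (2 * |σ * (4 * x ^ 2 - 1)|))
    (H3 : e < 3 / 2 → 3 / 2 ≤ d → D ≤ kap * (2 * |x * (4 * x ^ 2 - 3)|)) : D ≤ pen b y := by
  have e0 : 0 < e := by linarith
  have l0 : 0 < l := by linarith
  have d0 : 0 < d := by linarith
  have hb1 : 1 ≤ b := by linarith
  have hσ1 : σ ≤ 1 := by nlinarith
  have hs2 : 1 / 2 ≤ σ := by linarith
  have hs3 : 1 / 4 ≤ σ ^ 2 := by
    have := pow_le_pow_left₀ (by norm_num) hs2 2
    norm_num at this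
    linarith
  -- law of sines
  have hsin : d ^ 2 * σ ^ 2 = l ^ 2 * (1 - y ^ 2) := by
    have h1 : 2 * e * d * x = e ^ 2 + d ^ 2 - l ^ 2 := by linarith
    have h2 : 2 * e * l * y = e ^ 2 + l ^ 2 - d ^ 2 := by linarith
    have h3 : 4 * e ^ 2 * (d ^ 2 * σ ^ 2) = 4 * e ^ 2 * (l ^ 2 * (1 - y ^ 2)) := by
      have h4 : 4 * e ^ 2 * (d ^ 2 * σ ^ 2) = 4 * e ^ 2 * d ^ 2 - (2 * e * d * x) ^ 2 := by
        have : σ ^ 2 = 1 - x ^ 2 := by linarith
        rw [this]; ring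
      have h5 : 4 * e ^ 2 * (l ^ 2 * (1 - y ^ 2)) = 4 * e ^ 2 * l ^ 2 - (2 * e * l * y) ^ 2 := by
        ring
      rw [h4, h5, h1, h2]
      ring
    exact mul_left_cancel₀ (by positivity) h3
  have hd4 : d ^ 2 ≤ 4 * (1 - y ^ 2) := by
    have h1 : l ^ 2 ≤ 4 * σ ^ 2 := by
      have := pow_le_pow_left₀ l0.le hr 2
      linarith
    have h2 : l ^ 2 * d ^ 2 ≤ l ^ 2 * (4 * (1 - y ^ 2)) := by
      calc l ^ 2 * d ^ 2 ≤ 4 * σ ^ 2 * d ^ 2 := mul_le_mul_of_nonneg_right h1 (by positivity)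
        _ = l ^ 2 * (4 * (1 - y ^ 2)) := by linear_combination 4 * hsin
    exact le_of_mul_le_mul_left h2 (by positivity)
  have el1 : 1 ≤ e * l := one_le_mul_of_one_le_of_one_le he hl
  have hym : -(1 / 2) ≤ y := by
    by_contra hcon
    have h1 := not_le.1 hcon
    have h2 : 3 ≤ d ^ 2 := by
      have h20 : 0 ≤ (e * l - 1) * (-y) := mul_nonneg (by linarith) (by linarith)
      have h21 : d ^ 2 = (e - l) ^ 2 + 2 * (e * l) + 2 * ((e * l - 1) * (-y)) + 2 * (-y) := by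
        rw [hy]; ring
      rw [h21]
      linarith [sq_nonneg (e - l)]
    have h3 := mul_pos_of_neg_of_neg (by linarith : y + 1 / 2 < 0) (by linarith : y - 1 / 2 < 0)
    have h4 : (y + 1 / 2) * (y - 1 / 2) = y ^ 2 - 1 / 4 := by ring
    linarith
  have hyM : y ≤ 1 / 2 := by
    by_contra hcon
    have h1 := not_le.1 hcon
    have h2 : e * l < 2 * e * l * y := by
      have := mul_lt_mul_of_pos_left h1 (by positivity : 0 < 2 * e * l)
      linarith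
    rcases le_total e l with h3 | h3
    · have h4 : l ^ 2 ≤ d ^ 2 := pow_le_pow_left₀ l0.le hld 2
      have h5 : e ^ 2 ≤ e * l := by rw [pow_two]; exact mul_le_mul_of_nonneg_left h3 e0.le
      linarith
    · have h4 : e ^ 2 ≤ d ^ 2 := pow_le_pow_left₀ e0.le hed 2
      have h5 : l ^ 2 ≤ e * l := by rw [pow_two]; exact mul_le_mul_of_nonneg_right h3 l0.le
      linarith
  have hx34 : x ^ 2 ≤ 3 / 4 := by linarith
  unfold pen
  refine le_min h0 (le_min ?_ ?_)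
  · by_cases hE : 7 / 625 ≤ (1 / 2 + y) / 10 + 6 / 100 * (b - 1)
    · exact h0.trans hE
    · have hy3 : y < -(38 / 100) := by linarith [not_le.1 hE]
      have hb : b < 119 / 100 := by linarith [not_le.1 hE]
      have hd : 3 / 2 ≤ d := by
        by_contra hcon
        have h20 : 0 ≤ (e * l - 1) * (-y) := mul_nonneg (by linarith) (by linarith)
        have h21 : d ^ 2 = (e - l) ^ 2 + 2 * (e * l) + 2 * ((e * l - 1) * (-y)) + 2 * (-y) := by
          rw [hy]; ring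
        have h22 := pow_lt_pow_left₀ (not_le.1 hcon) d0.le (two_ne_zero)
        norm_num at h22
        linarith [sq_nonneg (e - l)]
      have h3 := H3 (by linarith) hd
      have hD0 : 1 + b ^ 2 - 2 * b * y ≤ d ^ 2 := by
        rw [hy]
        have he2 : 1 ≤ e ^ 2 := one_le_pow₀ he
        have hl2 : 1 ≤ l ^ 2 := one_le_pow₀ hl
        rcases hbm with h | h
        · rw [h]
          linarith [mul_nonneg (mul_nonneg e0.le (sub_nonneg.2 hl)) (by linarith : 0 ≤ -y)]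
        · rw [h]
          linarith [mul_nonneg (mul_nonneg l0.le (sub_nonneg.2 he)) (by linarith : 0 ≤ -y)]
      have hp := poly hb1 hb.le hym hy3.le
      have hE0 : 0 ≤ (1 / 2 + y) / 10 + 6 / 100 * (b - 1) := by linarith
      have h4 : 4 * b ^ 2 * (1 - y ^ 2) ≤
          (1 + 24 * ((1 / 2 + y) / 10 + 6 / 100 * (b - 1))) * d ^ 2 :=
        hp.trans (mul_le_mul_of_nonneg_left hD0 (by linarith))
      have hlb2 : l ^ 2 ≤ b ^ 2 := pow_le_pow_left₀ l0.le hlb 2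
      have hy21 : 0 ≤ 1 - y ^ 2 := by linarith [sq_nonneg d]
      have h5 : d ^ 2 * (4 * σ ^ 2 - 1) ≤
          d ^ 2 * (24 * ((1 / 2 + y) / 10 + 6 / 100 * (b - 1))) := by
        have h6 : l ^ 2 * (1 - y ^ 2) ≤ b ^ 2 * (1 - y ^ 2) :=
          mul_le_mul_of_nonneg_right hlb2 hy21
        have h7 : d ^ 2 * (4 * σ ^ 2 - 1) = 4 * (l ^ 2 * (1 - y ^ 2)) - d ^ 2 := by
          linear_combination 4 * hsin
        rw [h7]
        linarith
      have h6 : 4 * σ ^ 2 - 1 ≤ 24 * ((1 / 2 + y) / 10 + 6 / 100 * (b - 1)) :=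
        le_of_mul_le_mul_left h5 (by positivity)
      have h7 : kap * (2 * |x * (4 * x ^ 2 - 3)|) ≤ 1 / 24 * (4 * σ ^ 2 - 1) := by
        have h8 : |4 * x ^ 2 - 3| = 4 * σ ^ 2 - 1 := by
          rw [abs_of_nonpos (by linarith)]
          linarith
        have h9 : 0 ≤ 4 * σ ^ 2 - 1 := by linarith
        have h10 : kap * |x| ≤ 1 / 48 := by
          have h11 : (kap * |x|) ^ 2 ≤ (1 / 48) ^ 2 := by
            have h12 : kap ^ 2 = 3 / 5184 := by
              unfold kap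
              rw [div_pow, Real.sq_sqrt (by norm_num)]
              norm_num
            rw [mul_pow, sq_abs, h12]
            linarith
          exact (le_abs_self _).trans (abs_le_of_sq_le_sq h11 (by norm_num))
        rw [abs_mul, h8]
        have h13 := mul_le_mul_of_nonneg_right h10 h9
        linarith
      linarith
  · split_ifs with hb
    · by_cases hE : 7 / 625 ≤ (1 / 2 - y) / 5
      · exact h0.trans hE
      · have hy3 : 44 / 100 < y := by linarith [not_le.1 hE]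
        have hd : d < 3 / 2 := by
          have h1 : e * l ≤ (23 / 20) * (23 / 20) := by
            apply mul_le_mul <;> linarith
          have h2 : (e - l) ^ 2 ≤ (3 / 20) ^ 2 := by
            apply sq_le_sq'
            · linarith
            · linarith
          have h3 : e * l * (1 - y) ≤ (23 / 20) * (23 / 20) * (56 / 100) := by
            apply mul_le_mul h1 (by linarith) (by linarith) (by norm_num)
          have h5 : d ^ 2 = (e - l) ^ 2 + 2 * (e * l * (1 - y)) := by rw [hy]; ring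
          have h4 : d ^ 2 < (3 / 2) ^ 2 := by
            rw [h5]
            norm_num at h2 h3 ⊢
            linarith
          exact lt_of_pow_lt_pow_left₀ 2 (by norm_num) h4
        have hxy : y ≤ x := by
          have h1 : 2 * e * d * l * (x - y) = (d - l) * ((d + l) ^ 2 - e ^ 2) := by
            linear_combination l * hlaw - d * hy
          have h2 : 0 ≤ (d - l) * ((d + l) ^ 2 - e ^ 2) := by
            apply mul_nonneg (by linarith)
            have := pow_le_pow_left₀ e0.le (by linarith : e ≤ d + l) 2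
            linarith
          rw [← h1] at h2
          have h3 : 0 < 2 * e * d * l := by positivity
          have := nonneg_of_mul_nonneg_right h2 h3
          linarith
        have hproj : e = d * x + l * y := by
          have h1 : 2 * e * e = 2 * e * (d * x + l * y) := by
            linear_combination (-1 : ℝ) * hlaw - hy
          exact mul_left_cancel₀ (by positivity) h1
        have hx1 : x < 1 := by
          have h1 : x ^ 2 < 1 ^ 2 := by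
            have := pow_pos hσ 2
            linarith
          exact lt_of_pow_lt_pow_left₀ 2 (by norm_num) h1
        have hxm : x ≤ 1 - 2 * y ^ 2 := by
          have h1 : l * y ≤ d * (1 - x) := by
            rw [mul_sub, mul_one]
            linarith
          have h2 : 0 ≤ l * y := mul_nonneg l0.le (by linarith)
          have h3 : (l * y) ^ 2 ≤ (d * (1 - x)) ^ 2 := pow_le_pow_left₀ h2 h1 2
          have hy21 : 0 ≤ 1 - y ^ 2 := by linarith [sq_nonneg d]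
          have h4 := mul_le_mul_of_nonneg_right h3 hy21
          have h5 : (l * y) ^ 2 * (1 - y ^ 2) = d ^ 2 * (1 - x) * (y ^ 2 * (1 + x)) := by
            have : σ ^ 2 = 1 - x ^ 2 := by linarith
            rw [this] at hsin
            linear_combination (-(y ^ 2)) * hsin
          have h6 : (d * (1 - x)) ^ 2 * (1 - y ^ 2) =
              d ^ 2 * (1 - x) * ((1 - x) * (1 - y ^ 2)) := by ring
          rw [h5, h6] at h4
          have h7 : 0 < d ^ 2 * (1 - x) := mul_pos (by positivity) (by linarith)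
          have h8 := le_of_mul_le_mul_left h4 h7
          nlinarith
        rcases le_total x (1 / 2) with hx2 | hx2
        · have h1 := H1 (by linarith) hd
          have hx4 : 4 * x ^ 2 - 1 ≤ 0 := by
            have h10 := mul_nonneg (by linarith : 0 ≤ 1 - 2 * x) (by linarith : 0 ≤ 1 + 2 * x)
            have h11 : (1 - 2 * x) * (1 + 2 * x) = 1 - 4 * x ^ 2 := by ring
            linarith
          rw [abs_of_nonpos (mul_nonpos_of_nonneg_of_nonpos hσ.le hx4)] at h1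
          have h2 : -(σ * (4 * x ^ 2 - 1)) ≤ 1 - 4 * x ^ 2 := by
            have := mul_nonneg (sub_nonneg.2 hσ1) (neg_nonneg.2 hx4)
            linarith
          have h3 : 1 - 4 * x ^ 2 ≤ 4 * (1 / 2 - y) := by
            have h30 : 1 - 4 * x ^ 2 = 2 * (1 - 2 * x) - (1 - 2 * x) ^ 2 := by ring
            linarith [sq_nonneg (1 - 2 * x)]
          have h4 : kap * (2 * -(σ * (4 * x ^ 2 - 1))) ≤ kap * (8 * (1 / 2 - y)) :=
            mul_le_mul_of_nonneg_left (by linarith) kap0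
          have h5 : kap * 8 ≤ 1 / 5 := by
            unfold kap
            linarith [s3]
          have h6 : kap * (8 * (1 / 2 - y)) ≤ 1 / 5 * (1 / 2 - y) := by
            rw [← mul_assoc]
            exact mul_le_mul_of_nonneg_right h5 (by linarith)
          linarith
        · have hx4 : 0 ≤ 4 * x ^ 2 - 1 := by
            have h10 := mul_nonneg (by linarith : 0 ≤ 2 * x - 1) (by linarith : 0 ≤ 1 + 2 * x)
            have h11 : (2 * x - 1) * (1 + 2 * x) = 4 * x ^ 2 - 1 := by ring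
            linarith
          have hc : (x * (4 * x ^ 2 - 3)) * (σ * (4 * x ^ 2 - 1)) ≤ 0 := by
            apply mul_nonpos_of_nonpos_of_nonneg
            · apply mul_nonpos_of_nonneg_of_nonpos <;> linarith
            · exact mul_nonneg hσ.le hx4
          have h2 := H2 (by linarith) hd hc
          rw [abs_of_nonneg (mul_nonneg hσ.le hx4)] at h2
          have h3 : σ * (4 * x ^ 2 - 1) ≤ 4 * x ^ 2 - 1 := by
            have := mul_nonneg (sub_nonneg.2 hσ1) hx4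
            linarith
          have h4 : 4 * x ^ 2 - 1 ≤ 12 * (1 / 2 - y) := by
            have h5 : 4 * x ^ 2 - 1 ≤ 3 * (2 * x - 1) := by
              have h50 := mul_nonneg (by linarith : 0 ≤ 2 * x - 1) (sub_nonneg.2 hx1.le)
              have h51 : 4 * x ^ 2 - 1 = 3 * (2 * x - 1) - 2 * ((2 * x - 1) * (1 - x)) := by ring
              linarith
            have h6 : 2 * x - 1 ≤ 1 - 4 * y ^ 2 := by linarith
            have h7 : 1 - 4 * y ^ 2 ≤ 4 * (1 / 2 - y) := by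
              have h70 : 1 - 4 * y ^ 2 = 2 * (1 - 2 * y) - (1 - 2 * y) ^ 2 := by ring
              linarith [sq_nonneg (1 - 2 * y)]
            linarith
          unfold chi at h2
          linarith
    · exact h0

theorem penT_rot (x y z : ℝ) : penT x y z = penT y z x := by
  have h1 : min x (min y z) = min y (min z x) := by rw [min_comm x, min_assoc]
  have h2 : max x (max y z) = max y (max z x) := by rw [max_comm x, max_assoc]
  have h3 : x + y + z = y + z + x := by ring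
  unfold penT
  rw [h1, h2, h3]

theorem penT_swap (x y z : ℝ) : penT x y z = penT y x z := by
  have h1 : min x (min y z) = min y (min x z) := min_left_comm _ _ _
  have h2 : max x (max y z) = max y (max x z) := max_left_comm _ _ _
  have h3 : x + y + z = y + x + z := by ring
  unfold penT
  rw [h1, h2, h3]

theorem penT_sorted {a b d : ℝ} (hab : a ≤ b) (hbd : b ≤ d) :
    penT a b d = pen b ((a ^ 2 + b ^ 2 - d ^ 2) / (2 * a * b)) := by
  have h1 : min a (min b d) = a := by rw [min_eq_left hbd, min_eq_left hab]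
  have h2 : max a (max b d) = d := by rw [max_eq_right hbd, max_eq_right (hab.trans hbd)]
  have h3 : a + b + d - a - d = b := by ring
  unfold penT
  rw [h1, h2, h3]

theorem cos_eq {a b d : ℝ} (ha : 0 < a) (hb : 0 < b) :
    d ^ 2 = a ^ 2 + b ^ 2 - 2 * a * b * ((a ^ 2 + b ^ 2 - d ^ 2) / (2 * a * b)) := by
  field_simp
  ring

theorem cyc {v1 v2 v3 : ℂ} (h : AdmTri v1 v2 v3) : AdmTri v2 v3 v1 := by
  have hv3 : v3 = -v1 - v2 := by linear_combination h.sum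
  have hc : cr v2 v3 = cr v1 v2 := by
    rw [hv3]
    unfold cr
    simp
    ring
  refine ⟨by linear_combination h.sum, h.l2, h.l3, h.l1, ?_, ?_⟩
  · rw [hc]; exact h.ccw
  · rw [hc]
    have := h.rad
    have h2 : ‖v2‖ * ‖v3‖ * ‖v1‖ = ‖v1‖ * ‖v2‖ * ‖v3‖ := by ring
    rw [h2]
    exact this

end C05

open C05

/-- `v1 = q - p`, `v2 = r - q`, `v3 = p - r`; the vertex is `p` -/
theorem vertex_one {v1 v2 v3 : ℂ} (h : AdmTri v1 v2 v3) :
    XX v3 - XX v1 ≤ penT ‖v1‖ ‖v2‖ ‖v3‖ := by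
  obtain ⟨x, σ, hσ, hxσ, hlaw, hr, hu⟩ := zeta h
  have l1 := h.l1
  have l2 := h.l2
  have l3 := h.l3
  have p1 : 0 < ‖v1‖ := by linarith
  have p2 : 0 < ‖v2‖ := by linarith
  have p3 : 0 < ‖v3‖ := by linarith
  have hv1 : v1 ≠ 0 := norm_pos_iff.1 p1
  have hv3 : v3 ≠ 0 := norm_pos_iff.1 p3
  have hw : ‖u6 v1‖ = 1 := u6_norm hv1
  have b1 := XX_bound hv1
  have b3 := XX_bound hv3
  have h0 : XX v3 - XX v1 ≤ 7 / 625 := by
    have := abs_le.1 b1
    have := abs_le.1 b3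
    linarith
  have H1 : ‖v1‖ < 3 / 2 → ‖v3‖ < 3 / 2 →
      XX v3 - XX v1 ≤ kap * (2 * |σ * (4 * x ^ 2 - 1)|) := by
    intro s1 s3
    unfold XX
    rw [if_pos s1, if_pos s3, hu]
    exact lip hxσ hw
  have H2 : ‖v1‖ < 3 / 2 → ‖v3‖ < 3 / 2 → (x * (4 * x ^ 2 - 3)) * (σ * (4 * x ^ 2 - 1)) ≤ 0 →
      XX v3 - XX v1 ≤ 2 / 3 * chi * (2 * |σ * (4 * x ^ 2 - 1)|) := by
    intro s1 s3 hc
    unfold XX
    rw [if_pos s1, if_pos s3, hu]
    exact one hxσ hw hc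
  have H3 : ‖v1‖ < 3 / 2 → 3 / 2 ≤ ‖v3‖ →
      XX v3 - XX v1 ≤ kap * (2 * |x * (4 * x ^ 2 - 3)|) := by
    intro s1 s3
    unfold XX
    rw [if_pos s1, if_neg (not_lt.2 s3), hu]
    exact (mixed hxσ hw).1
  have H3' : ‖v3‖ < 3 / 2 → 3 / 2 ≤ ‖v1‖ →
      XX v3 - XX v1 ≤ kap * (2 * |x * (4 * x ^ 2 - 3)|) := by
    intro s3 s1
    unfold XX
    rw [if_pos s3, if_neg (not_lt.2 s1), hu]
    exact (mixed hxσ hw).2
  rcases le_total ‖v1‖ ‖v2‖ with h12 | h12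
  · rcases le_total ‖v3‖ ‖v2‖ with h32 | h32
    · -- `v2` is the longest side
      have hxe : (‖v1‖ ^ 2 + ‖v3‖ ^ 2 - ‖v2‖ ^ 2) / (2 * ‖v1‖ * ‖v3‖) = x := by
        rw [div_eq_iff (by positivity)]
        linarith
      have hxe' : (‖v3‖ ^ 2 + ‖v1‖ ^ 2 - ‖v2‖ ^ 2) / (2 * ‖v3‖ * ‖v1‖) = x := by
        rw [div_eq_iff (by positivity)]
        linarith
      have l13 : 1 ≤ ‖v1‖ * ‖v3‖ := by nlinarith
      have hx1 : -(1 / 2) ≤ x := by
        by_contra hcon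
        have h1 := not_le.1 hcon
        have h2 : 3 ≤ ‖v2‖ ^ 2 := by
          have : 0 ≤ (‖v1‖ * ‖v3‖ - 1) * (-x) := mul_nonneg (by linarith) (by linarith)
          nlinarith [sq_nonneg (‖v1‖ - ‖v3‖)]
        have h4 : ‖v2‖ ^ 2 ≤ 4 * σ ^ 2 := by nlinarith
        nlinarith
      have hx2 : x ≤ 1 / 2 := by
        by_contra hcon
        have h1 := not_le.1 hcon
        have h2 : ‖v1‖ * ‖v3‖ < 2 * ‖v1‖ * ‖v3‖ * x := by
          have := mul_lt_mul_of_pos_left h1 (by positivity : 0 < 2 * ‖v1‖ * ‖v3‖)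
          linarith
        rcases le_total ‖v1‖ ‖v3‖ with h3 | h3
        · have h4 : ‖v3‖ ^ 2 ≤ ‖v2‖ ^ 2 := pow_le_pow_left₀ p3.le h32 2
          have h5 : ‖v1‖ ^ 2 ≤ ‖v1‖ * ‖v3‖ := by
            rw [pow_two]; exact mul_le_mul_of_nonneg_left h3 p1.le
          linarith
        · have h4 : ‖v1‖ ^ 2 ≤ ‖v2‖ ^ 2 := pow_le_pow_left₀ p1.le h12 2
          have h5 : ‖v3‖ ^ 2 ≤ ‖v1‖ * ‖v3‖ := by
            rw [pow_two]; exact mul_le_mul_of_nonneg_right h3 p3.le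
          linarith
      rcases le_total ‖v1‖ ‖v3‖ with h13 | h13
      · have hp : penT ‖v1‖ ‖v2‖ ‖v3‖ = pen ‖v3‖ x := by
          rw [penT_swap, penT_rot, penT_sorted h13 h32, hxe]
        rw [hp]
        exact apex h13 le_rfl l3 hx1 hx2 hσ hxσ h0 H1 H2
      · have hp : penT ‖v1‖ ‖v2‖ ‖v3‖ = pen ‖v1‖ x := by
          rw [penT_rot, penT_rot, penT_sorted h13 h12, hxe']
        rw [hp]
        exact apex le_rfl h13 l1 hx1 hx2 hσ hxσ h0 H1 H2
    · -- `v3` is the longest side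
      have h13 : ‖v1‖ ≤ ‖v3‖ := h12.trans h32
      have hp : penT ‖v1‖ ‖v2‖ ‖v3‖ =
          pen ‖v2‖ ((‖v1‖ ^ 2 + ‖v2‖ ^ 2 - ‖v3‖ ^ 2) / (2 * ‖v1‖ * ‖v2‖)) :=
        penT_sorted h12 h32
      rw [hp]
      exact side l1 l2 h13 h32 h12 le_rfl (Or.inr rfl) hσ hxσ hlaw (cos_eq p1 p2) hr h0 H1 H2 H3
  · rcases le_total ‖v1‖ ‖v3‖ with h13 | h13
    · -- `v3` is the longest side, `v2 ≤ v1`
      have h23 : ‖v2‖ ≤ ‖v3‖ := h12.trans h13
      have hp : penT ‖v1‖ ‖v2‖ ‖v3‖ =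
          pen ‖v1‖ ((‖v1‖ ^ 2 + ‖v2‖ ^ 2 - ‖v3‖ ^ 2) / (2 * ‖v1‖ * ‖v2‖)) := by
        rw [penT_swap, penT_sorted h12 h13]
        congr 1
        rw [add_comm (‖v2‖ ^ 2), mul_right_comm 2 ‖v2‖ ‖v1‖]
      rw [hp]
      exact side l1 l2 h13 h23 le_rfl h12 (Or.inl rfl) hσ hxσ hlaw (cos_eq p1 p2) hr h0 H1 H2 H3
    · -- `v1` is the longest side
      have hlaw' : ‖v2‖ ^ 2 = ‖v3‖ ^ 2 + ‖v1‖ ^ 2 - 2 * ‖v3‖ * ‖v1‖ * x := by
        rw [hlaw]; ring
      rcases le_total ‖v2‖ ‖v3‖ with h23 | h23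
      · have hp : penT ‖v1‖ ‖v2‖ ‖v3‖ =
            pen ‖v3‖ ((‖v3‖ ^ 2 + ‖v2‖ ^ 2 - ‖v1‖ ^ 2) / (2 * ‖v3‖ * ‖v2‖)) := by
          rw [penT_rot, penT_sorted h23 h13]
          congr 1
          rw [add_comm (‖v2‖ ^ 2), mul_right_comm 2 ‖v2‖ ‖v3‖]
        rw [hp]
        exact side l3 l2 h13 h12 le_rfl h23 (Or.inl rfl) hσ hxσ hlaw' (cos_eq p3 p2) hr h0
          (fun s t => H1 t s) (fun s t => H2 t s) H3'
      · have hp : penT ‖v1‖ ‖v2‖ ‖v3‖ =
            pen ‖v2‖ ((‖v3‖ ^ 2 + ‖v2‖ ^ 2 - ‖v1‖ ^ 2) / (2 * ‖v3‖ * ‖v2‖)) := by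
          rw [penT_rot, penT_swap, penT_sorted h23 h12]
        rw [hp]
        exact side l3 l2 h13 h12 h23 le_rfl (Or.inr rfl) hσ hxσ hlaw' (cos_eq p3 p2) hr h0
          (fun s t => H1 t s) (fun s t => H2 t s) H3'

/-- the same for the rotated vertex function -/
theorem vertex_one' {v1 v2 v3 : ℂ} (h : AdmTri v1 v2 v3) :
    XX (-I * v3) - XX (-I * v1) ≤ penT ‖v1‖ ‖v2‖ ‖v3‖ := by
  have hn : ∀ v : ℂ, ‖-I * v‖ = ‖v‖ := by
    intro v
    rw [norm_mul, norm_neg, Complex.norm_I, one_mul]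
  have hc : cr (-I * v1) (-I * v2) = cr v1 v2 := by
    unfold cr
    simp
    ring
  have h' : AdmTri (-I * v1) (-I * v2) (-I * v3) := by
    refine ⟨by linear_combination (-I) * h.sum, ?_, ?_, ?_, ?_, ?_⟩
    · rw [hn]; exact h.l1
    · rw [hn]; exact h.l2
    · rw [hn]; exact h.l3
    · rw [hc]; exact h.ccw
    · rw [hn, hn, hn, hc]; exact h.rad
  have h1 := vertex_one h'
  rwa [hn, hn, hn] at h1

theorem penT_nonneg {v1 v2 v3 : ℂ} (h : AdmTri v1 v2 v3) : 0 ≤ penT ‖v1‖ ‖v2‖ ‖v3‖ := by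
  have h1 := vertex_one h
  have h2 := vertex_one (cyc h)
  have h3 := vertex_one (cyc (cyc h))
  rw [← penT_rot] at h2
  rw [penT_rot] at h3
  linarith

end Pool.Agent.LG
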