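import Pool.Agent.Lib.MP_8026b0_co.KDef

set_option autoImplicit false

/-! kernel evaluation, part a -/

namespace Pool.Agent.LG

set_option maxRecDepth 100000 in
theorem chk221 : chk 10 2 2 2 1 = true := by decide +kernel

end Pool.Agent.LG
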