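import Pool.Agent.Lib.MP_8026b0_co.KDef

set_option autoImplicit false

/-! kernel evaluation, part b -/

namespace Pool.Agent.LG

set_option maxRecDepth 100000 in
theorem chk220 : chk 10 2 2 2 0 = true := by decide +kernel

set_option maxRecDepth 100000 in
theorem chk230 : chk 10 2 2 3 0 = true := by decide +kernel

set_option maxRecDepth 100000 in
theorem chk231 : chk 10 2 2 3 1 = true := by decide +kernel

set_option maxRecDepth 100000 in
theorem chk320 : chk 10 2 3 2 0 = true := by decide +kernel

set_option maxRecDepth 100000 in
theorem chk321 : chk 10 2 3 2 1 = true := by decide +kernel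

set_option maxRecDepth 100000 in
theorem chk330 : chk 10 2 3 3 0 = true := by decide +kernel

set_option maxRecDepth 100000 in
theorem chk331 : chk 10 2 3 3 1 = true := by decide +kernel

end Pool.Agent.LG
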