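import Pool.Agent.Lib.MP_8026b0_co.K10
import Pool.Agent.Lib.MP_8026b0_co.K11a
import Pool.Agent.Lib.MP_8026b0_co.K11b

set_option autoImplicit false

/-! Row K12: the triangle inequality in coordinates. -/

namespace Pool.Agent.LG

namespace K12

theorem split_coord {N x : ℕ} (hN : 0 < N) {a : ℝ} (h1 : (x : ℝ) / N ≤ a)
    (h2 : a ≤ ((x : ℝ) + 1) / N) : ∃ i : ℕ, i ≤ 1 ∧ ((2 * x + i : ℕ) : ℝ) / ((2 * N : ℕ) : ℝ) ≤ a ∧
      a ≤ (((2 * x + i : ℕ) : ℝ) + 1) / ((2 * N : ℕ) : ℝ) := by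
  have hN' : (0 : ℝ) < N := by exact_mod_cast hN
  rw [div_le_iff₀ hN'] at h1
  rw [le_div_iff₀ hN'] at h2
  rcases le_total (a * (2 * N)) (2 * x + 1) with h | h
  · refine ⟨0, by norm_num, ?_, ?_⟩
    · rw [div_le_iff₀ (by positivity)]
      push_cast
      linarith
    · rw [le_div_iff₀ (by positivity)]
      push_cast
      linarith
  · refine ⟨1, le_rfl, ?_, ?_⟩
    · rw [div_le_iff₀ (by positivity)]
      push_cast
      linarith
    · rw [le_div_iff₀ (by positivity)]
      push_cast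
      linarith

theorem split_y {N k : ℕ} (hN : 0 < N) {y : ℝ} (h1 : ynode N k ≤ y)
    (h2 : y ≤ ynode N (k + 1)) : ∃ i : ℕ, i ≤ 1 ∧ ynode (2 * N) (2 * k + i) ≤ y ∧
      y ≤ ynode (2 * N) (2 * k + i + 1) := by
  have hN' : (0 : ℝ) < N := by exact_mod_cast hN
  rw [ynode, div_le_iff₀ (by positivity)] at h1
  rw [ynode, le_div_iff₀ (by positivity)] at h2
  push_cast at h2
  rcases le_total (y * (2 * N)) (2 * k + 1 - N) with h | h
  · refine ⟨0, by norm_num, ?_, ?_⟩
    · rw [ynode, div_le_iff₀ (by positivity)]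
      push_cast
      linarith
    · rw [ynode, le_div_iff₀ (by positivity)]
      push_cast
      linarith
  · refine ⟨1, le_rfl, ?_, ?_⟩
    · rw [ynode, div_le_iff₀ (by positivity)]
      push_cast
      linarith
    · rw [ynode, le_div_iff₀ (by positivity)]
      push_cast
      linarith

theorem chk_cases {n N x z k : ℕ} (h : chk (n + 1) N x z k = true) :
    skip N x z k = true ∨ leaf N x z k = true ∨ ∀ i j l : ℕ, i ≤ 1 → j ≤ 1 → l ≤ 1 →
      chk n (2 * N) (2 * x + i) (2 * z + j) (2 * k + l) = true := by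
  rw [chk] at h
  simp only [Bool.or_eq_true, Bool.and_eq_true] at h
  rcases h with h | h | ⟨h000, h100, h010, h110, h001, h101, h011, h111⟩
  · exact Or.inl h
  · exact Or.inr (Or.inl h)
  · refine Or.inr (Or.inr ?_)
    intro i j l hi hj hl
    interval_cases i <;> interval_cases j <;> interval_cases l
    · exact h000
    · exact h001
    · exact h010
    · exact h011
    · exact h100
    · exact h101
    · exact h110
    · exact h111

end K12

theorem chk_sound (n : ℕ) : ∀ N x z k : ℕ, chk n N x z k = true → 0 < N → Even N →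
    N * 2 ^ n ≤ 2048 → N ≤ x → x + 1 ≤ 2 * N → N ≤ z → z + 1 ≤ 2 * N → k + 1 ≤ N →
    ∀ a b β : ℝ, Real.pi / 6 ≤ β → β ≤ Real.pi / 3 → Cell N x z k a b (- Real.cos (2 * β)) →
      Dom a b (- Real.cos (2 * β)) → TriIneq a b β := by
  induction n with
  | zero =>
    intro N x z k h
    simp [chk] at h
  | succ n ih =>
    intro N x z k h hN hev hle hx hx2 hz hz2 hk a b β hβ hβ2 hc hD
    have h2n : 1 ≤ 2 ^ n := Nat.one_le_two_pow
    rcases K12.chk_cases h with h1 | h1 | h1
    · exact absurd hD (skip_sound hN hx hx2 hz hz2 hk h1 hc)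
    · refine leaf_sound hN ?_ hev hx hx2 hz hz2 hk h1 hβ hβ2 hc
      rw [pow_succ] at hle
      nlinarith
    · obtain ⟨c1, c2, c3, c4, c5, c6⟩ := hc
      obtain ⟨i, hi, i1, i2⟩ := K12.split_coord hN c1 c2
      obtain ⟨j, hj, j1, j2⟩ := K12.split_coord hN c3 c4
      obtain ⟨l, hl, l1, l2⟩ := K12.split_y hN c5 c6
      refine ih (2 * N) (2 * x + i) (2 * z + j) (2 * k + l) (h1 i j l hi hj hl) (by omega)
        (even_two_mul N) ?_ (by omega) (by omega) (by omega) (by omega) (by omega) a b β hβ hβ2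
        ⟨i1, i2, j1, j2, l1, l2⟩ hD
      rw [pow_succ] at hle
      linarith

/-- the numerical triangle inequality -/
theorem num_ineq {a b β : ℝ} (hβ : Real.pi / 6 ≤ β) (hβ2 : β ≤ Real.pi / 3)
    (hD : Dom a b (- Real.cos (2 * β))) : TriIneq a b β := by
  have hpi := Real.pi_pos
  obtain ⟨y, hy⟩ : ∃ y : ℝ, y = - Real.cos (2 * β) := ⟨_, rfl⟩
  have hy1 : -(1 / 2) ≤ y := by
    have h1 : Real.cos (2 * β) ≤ Real.cos (Real.pi / 3) :=
      Real.cos_le_cos_of_nonneg_of_le_pi (by linarith) (by linarith) (by linarith)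
    rw [Real.cos_pi_div_three] at h1
    linarith
  have hy2 : y ≤ 1 / 2 := by
    have h1 : Real.cos (2 * (Real.pi / 3)) ≤ Real.cos (2 * β) :=
      Real.cos_le_cos_of_nonneg_of_le_pi (by linarith) (by linarith) (by linarith)
    have h2 : Real.cos (2 * (Real.pi / 3)) = -(1 / 2) := by
      rw [Real.cos_two_mul, Real.cos_pi_div_three]
      norm_num
    rw [h2] at h1
    linarith
  have hD' := hD
  obtain ⟨d1, d2, d3, d4⟩ := hD'
  rw [← hy] at d3 d4
  have hb2 : b ≤ 2 := by
    rw [rr] at d4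
    have h1 : 0 ≤ a * (a - 2 * b * y) := mul_nonneg (by linarith) (by linarith)
    have h2 : b ^ 2 ≤ 4 := by nlinarith [sq_nonneg y]
    nlinarith
  have ha : ∃ i : ℕ, (i = 2 ∨ i = 3) ∧ (i : ℝ) / ((2 : ℕ) : ℝ) ≤ a ∧
      a ≤ ((i : ℝ) + 1) / ((2 : ℕ) : ℝ) := by
    rcases le_total a (3 / 2) with h | h
    · exact ⟨2, Or.inl rfl, by norm_num; linarith, by norm_num; linarith⟩
    · exact ⟨3, Or.inr rfl, by norm_num; linarith, by norm_num; linarith⟩
  have hb : ∃ j : ℕ, (j = 2 ∨ j = 3) ∧ (j : ℝ) / ((2 : ℕ) : ℝ) ≤ b ∧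
      b ≤ ((j : ℝ) + 1) / ((2 : ℕ) : ℝ) := by
    rcases le_total b (3 / 2) with h | h
    · exact ⟨2, Or.inl rfl, by norm_num; linarith, by norm_num; linarith⟩
    · exact ⟨3, Or.inr rfl, by norm_num; linarith, by norm_num; linarith⟩
  have hk : ∃ k : ℕ, (k = 0 ∨ k = 1) ∧ ynode 2 k ≤ y ∧ y ≤ ynode 2 (k + 1) := by
    rcases le_total y 0 with h | h
    · refine ⟨0, Or.inl rfl, ?_, ?_⟩
      · rw [ynode]
        norm_num
        linarith
      · rw [ynode]
        norm_num
        linarith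
    · refine ⟨1, Or.inr rfl, ?_, ?_⟩
      · rw [ynode]
        norm_num
        linarith
      · rw [ynode]
        norm_num
        linarith
  obtain ⟨i, hi, i1, i2⟩ := ha
  obtain ⟨j, hj, j1, j2⟩ := hb
  obtain ⟨k, hk, k1, k2⟩ := hk
  have hchk : chk 10 2 i j k = true := by
    rcases hi with rfl | rfl <;> rcases hj with rfl | rfl <;> rcases hk with rfl | rfl
    · exact chk220
    · exact chk221
    · exact chk230
    · exact chk231
    · exact chk320
    · exact chk321
    · exact chk330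
    · exact chk331
  refine chk_sound 10 2 i j k hchk (by norm_num) even_two (by norm_num) (by omega) (by omega)
    (by omega) (by omega) (by omega) a b β hβ hβ2 ?_ hD
  rw [← hy]
  exact ⟨i1, i2, j1, j2, k1, k2⟩

end Pool.Agent.LG
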