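import Pool.Agent.Lib.MP_8026b0_co.C01
import Pool.Agent.Lib.MP_8026b0_co.K12

set_option autoImplicit false

/-! Row C02: lower bounds for the excess and the triangle inequality in vector form. -/

namespace Pool.Agent.LG

open Complex

namespace C02

theorem ab_ge {a b : ℝ} (h1 : 1 ≤ a) (h2 : a ≤ b) : 1 ≤ a * b := by nlinarith

theorem f_le {b : ℝ} (h1 : 1 ≤ b) (h2 : b ≤ 2) : b * |b ^ 2 - 1| * |b ^ 2 - 3| ≤ 6 * (b - 1) := by
  have e1 : |b ^ 2 - 1| = (b - 1) * (b + 1) := by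
    rw [abs_of_nonneg (by nlinarith)]; ring
  have key : b * (b + 1) * |b ^ 2 - 3| ≤ 6 := by
    rcases le_total (b ^ 2) 3 with h | h
    · rw [abs_of_nonpos (by linarith)]
      have hb : b ≤ 1.75 := by nlinarith
      nlinarith [sq_nonneg (b ^ 2 + b - (3 - b ^ 2)), sq_nonneg (b - 1)]
    · rw [abs_of_nonneg (by linarith)]
      have h3 : b ^ 2 - 3 ≤ 1 := by nlinarith
      have h4 : b * (b + 1) ≤ 6 := by nlinarith
      have h5 : 0 ≤ b ^ 2 - 3 := by linarith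
      nlinarith
  rw [e1]
  have h0 : 0 ≤ b - 1 := by linarith
  calc b * ((b - 1) * (b + 1)) * |b ^ 2 - 3| = (b - 1) * (b * (b + 1) * |b ^ 2 - 3|) := by ring
    _ ≤ (b - 1) * 6 := mul_le_mul_of_nonneg_left key h0
    _ = 6 * (b - 1) := by ring

theorem c_le {D y c : ℝ} (hD : 0 ≤ D) (h1 : -(1 / 2) ≤ y) (h2 : y ≤ 1 / 2) (hc : 0 ≤ c)
    (hs : c ^ 2 = D + 2 - 2 * y) (h4 : c ^ 2 ≤ 4 * (1 - y ^ 2)) :
    c * |c ^ 2 - 1| * |c ^ 2 - 3| ≤ 4 * D + 15 * (1 / 4 - y ^ 2) := by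
  have hc2 : c ≤ 2 := by nlinarith [sq_nonneg y]
  have e1 : |c ^ 2 - 1| = D + (1 - 2 * y) := by
    rw [abs_of_nonneg (by linarith)]; linarith
  have e2 : c ^ 2 - 3 = D - (1 + 2 * y) := by linarith
  have hw : 0 ≤ 1 / 4 - y ^ 2 := by nlinarith
  rw [e1, e2]
  have hm : 0 ≤ D + (1 - 2 * y) := by linarith
  rcases le_total D (1 + 2 * y) with h | h
  · rw [abs_of_nonpos (by linarith)]
    have h5 : 0 ≤ (D + (1 - 2 * y)) * (-(D - (1 + 2 * y))) := mul_nonneg hm (by linarith)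
    calc c * (D + (1 - 2 * y)) * (-(D - (1 + 2 * y)))
        = c * ((D + (1 - 2 * y)) * (-(D - (1 + 2 * y)))) := by ring
      _ ≤ 2 * ((D + (1 - 2 * y)) * (-(D - (1 + 2 * y)))) := mul_le_mul_of_nonneg_right hc2 h5
      _ ≤ 4 * D + 15 * (1 / 4 - y ^ 2) := by nlinarith [mul_nonneg hD (show 0 ≤ 1 / 2 - y by linarith)]
  · rw [abs_of_nonneg (by linarith)]
    have h6 : D + (1 - 2 * y) ≤ 3 := by nlinarith [sq_nonneg y]
    have h7 : D ≤ (1 + 2 * y) * (2 - 2 * y) := by nlinarith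
    have h8 : D ≤ 3 * (1 + 2 * y) := by nlinarith
    have h9 : D - (1 + 2 * y) ≤ 2 / 3 * D := by linarith
    have h10 : 0 ≤ D - (1 + 2 * y) := by linarith
    have h11 : c * (D + (1 - 2 * y)) ≤ 2 * 3 := mul_le_mul hc2 h6 hm (by norm_num)
    calc c * (D + (1 - 2 * y)) * (D - (1 + 2 * y)) ≤ (2 * 3) * (2 / 3 * D) :=
          mul_le_mul h11 h9 h10 (by norm_num)
      _ ≤ 4 * D + 15 * (1 / 4 - y ^ 2) := by linarith

theorem b_le {a b y : ℝ} (h : Dom a b y) : b ≤ 2 := by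
  obtain ⟨h1, h2, h3, h4⟩ := h
  unfold rr at h4
  nlinarith [sq_nonneg y, mul_nonneg (show 0 ≤ a by linarith) (show 0 ≤ a - 2 * b * y by linarith)]

theorem sum_le {a b y : ℝ} (h : Dom a b y) (h1 : -(1 / 2) ≤ y) (h2 : y ≤ 1 / 2) :
    a * |a ^ 2 - 1| * |a ^ 2 - 3| + b * |b ^ 2 - 1| * |b ^ 2 - 3|
      + Real.sqrt (rr a b y) * |Real.sqrt (rr a b y) ^ 2 - 1| * |Real.sqrt (rr a b y) ^ 2 - 3|
      ≤ 25 * (a * b - 1) + 15 * (1 / 4 - y ^ 2) := by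
  have hb := b_le h
  obtain ⟨g1, g2, g3, g4⟩ := h
  have hab := ab_ge g1 g2
  have hrr : 0 ≤ rr a b y := by
    unfold rr
    nlinarith [mul_nonneg (show 0 ≤ a by linarith) (show 0 ≤ a - 2 * b * y by linarith)]
  have hsq : Real.sqrt (rr a b y) ^ 2 = rr a b y := Real.sq_sqrt hrr
  have k1 := f_le g1 (by linarith : a ≤ 2)
  have k2 := f_le (by linarith : 1 ≤ b) hb
  have hD : 0 ≤ a ^ 2 + b ^ 2 - 2 - 2 * (a * b - 1) * y := by
    nlinarith [sq_nonneg (a - b), mul_nonneg (show 0 ≤ a * b - 1 by linarith) (show 0 ≤ 1 / 2 - y by linarith)]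
  have k3 := c_le (D := a ^ 2 + b ^ 2 - 2 - 2 * (a * b - 1) * y) (y := y)
    (c := Real.sqrt (rr a b y)) hD h1 h2 (Real.sqrt_nonneg _)
    (by rw [hsq]; unfold rr; ring) (by rw [hsq]; exact g4)
  have k4 : a ^ 2 + b ^ 2 - 2 - 2 * (a * b - 1) * y
      ≤ 4 * (a - 1) + 4 * (b - 1) + (a - 1) * (b - 1) := by
    have e1 : a ^ 2 - 1 ≤ 3 * (a - 1) := by nlinarith
    have e2 : b ^ 2 - 1 ≤ 3 * (b - 1) := by nlinarith
    have e3 : -(2 * (a * b - 1) * y) ≤ a * b - 1 := by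
      nlinarith [mul_nonneg (show 0 ≤ a * b - 1 by linarith) (show 0 ≤ 1 / 2 + y by linarith)]
    nlinarith
  have k5 : 0 ≤ (a - 1) * (b - 1) := mul_nonneg (by linarith) (by linarith)
  nlinarith

theorem y_bounds {β : ℝ} (hβ : Real.pi / 6 ≤ β) (hβ2 : β ≤ Real.pi / 3) :
    -(1 / 2) ≤ - Real.cos (2 * β) ∧ - Real.cos (2 * β) ≤ 1 / 2 := by
  have hpi := Real.pi_pos
  constructor
  · have h : Real.cos (2 * β) ≤ Real.cos (Real.pi / 3) :=
      Real.cos_le_cos_of_nonneg_of_le_pi (by positivity) (by linarith) (by linarith)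
    rw [Real.cos_pi_div_three] at h
    linarith
  · have h : Real.cos (Real.pi - Real.pi / 3) ≤ Real.cos (2 * β) :=
      Real.cos_le_cos_of_nonneg_of_le_pi (by linarith) (by linarith) (by linarith)
    rw [Real.cos_pi_sub, Real.cos_pi_div_three] at h
    linarith

theorem sin_eq {β : ℝ} (hβ : Real.pi / 6 ≤ β) (hβ2 : β ≤ Real.pi / 3) :
    Real.sin (2 * β) = Real.sqrt (1 - (- Real.cos (2 * β)) ^ 2) := by
  have hpi := Real.pi_pos
  have h : 0 ≤ Real.sin (2 * β) := Real.sin_nonneg_of_nonneg_of_le_pi (by linarith) (by linarith)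
  rw [neg_sq, ← Real.abs_sin_eq_sqrt_one_sub_cos_sq, abs_of_nonneg h]

theorem psi7_sub {v : ℂ} (hv : 1 ≤ ‖v‖) (he : 0 < eps0) :
    ‖Psi7 v - Psi7r v‖ = eps0 * (‖v‖ * |normSq v - 1| * |normSq v - 3|) := by
  have hs : normSq v = ‖v‖ ^ 2 := normSq_eq_norm_sq v
  have hv0 : (0 : ℝ) < ‖v‖ := by linarith
  have e1 : Psi7 v - Psi7r v
      = ((eps0 * (normSq v - 1) * (normSq v - 3) / (normSq v) ^ 3 : ℝ) : ℂ) * v ^ 7 := by
    unfold Psi7 Psi7r B7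
    push_cast
    ring
  rw [e1, norm_mul, norm_pow, Complex.norm_real, Real.norm_eq_abs, abs_div, abs_mul, abs_mul,
    abs_of_pos he, abs_of_pos (show (0 : ℝ) < normSq v ^ 3 by rw [hs]; positivity), hs]
  field_simp

end C02

/-- lower bound for the excess in the coordinates of `Dom` -/
theorem ex_ge {a b y : ℝ} (h : Dom a b y) (h1 : -(1 / 2) ≤ y) (h2 : y ≤ 1 / 2) :
    (a * b - 1) / 2 + 3 / 10 * (1 / 4 - y ^ 2) ≤ a * b * Real.sqrt (1 - y ^ 2) / Real.sqrt 3 - 1 / 2 := by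
  have hab := C02.ab_ge h.1 h.2.1
  have hw : 0 ≤ 1 / 4 - y ^ 2 := by nlinarith
  have hw2 : 1 / 4 - y ^ 2 ≤ 1 / 4 := by nlinarith [sq_nonneg y]
  have h3 : (0 : ℝ) < Real.sqrt 3 := Real.sqrt_pos.2 (by norm_num)
  have key : 1 / 2 + 3 / 10 * (1 / 4 - y ^ 2) ≤ Real.sqrt (1 - y ^ 2) / Real.sqrt 3 := by
    rw [← Real.sqrt_div' _ (by norm_num : (0 : ℝ) ≤ 3)]
    apply Real.le_sqrt_of_sq_le
    nlinarith
  have e : a * b * Real.sqrt (1 - y ^ 2) / Real.sqrt 3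
      = a * b * (Real.sqrt (1 - y ^ 2) / Real.sqrt 3) := by ring
  rw [e]
  have := mul_le_mul_of_nonneg_left key (show 0 ≤ a * b by linarith)
  nlinarith [mul_nonneg (show 0 ≤ a * b - 1 by linarith) hw]

/-- the sides are nearly `1` or `√3` when the excess is small -/
theorem del_le {v1 v2 v3 : ℂ} (h : AdmTri v1 v2 v3) :
    ‖v1‖ * |normSq v1 - 1| * |normSq v1 - 3| + ‖v2‖ * |normSq v2 - 1| * |normSq v2 - 3|
      + ‖v3‖ * |normSq v3 - 1| * |normSq v3 - 3| ≤ 50 * exv v1 v2 := by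
  obtain ⟨a, b, β, g1, g2, hD, -, -, ex, -, hf⟩ := sort_tri h
  have hf' := hf (fun l => l * |l ^ 2 - 1| * |l ^ 2 - 3|)
  simp only [normSq_eq_norm_sq]
  rw [hf', ex, C02.sin_eq g1 g2]
  obtain ⟨y1, y2⟩ := C02.y_bounds g1 g2
  have k1 := C02.sum_le hD y1 y2
  have k2 := ex_ge hD y1 y2
  linarith

theorem eps0_bounds : 0 < eps0 ∧ eps0 < 84 / 100000 := by
  have h3 : (1.7320 : ℝ) < Real.sqrt 3 := by
    apply Real.lt_sqrt_of_sq_lt; norm_num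
  have h4 : Real.sqrt 3 < 1.7321 := by
    rw [Real.sqrt_lt' (by norm_num)]; norm_num
  unfold eps0
  constructor <;> linarith

/-- the triangle inequality in vector form -/
theorem tri_vec {v1 v2 v3 : ℂ} (h : AdmTri v1 v2 v3) :
    cc * (‖Psi5 v1 + Psi5 v2 + Psi5 v3‖ + ‖Psi7 v1 + Psi7 v2 + Psi7 v3‖)
      + penT ‖v1‖ ‖v2‖ ‖v3‖ ≤ 98 / 100 * exv v1 v2 := by
  have hdel := del_le h
  obtain ⟨e0, e1⟩ := eps0_bounds
  obtain ⟨a, b, β, g1, g2, hD, e5, e7, ex, ep, -⟩ := sort_tri h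
  have hT := num_ineq g1 g2 hD
  unfold TriIneq at hT
  rw [← e5, ← e7, ← ep, ← ex] at hT
  have h3 : (1.7320 : ℝ) < Real.sqrt 3 := by
    apply Real.lt_sqrt_of_sq_lt; norm_num
  have h4 : Real.sqrt 3 < 1.7321 := by
    rw [Real.sqrt_lt' (by norm_num)]; norm_num
  have hcc : 0 < cc := by unfold cc; linarith
  have hcc2 : cc < 22 / 100 := by unfold cc; linarith
  have s1 := C02.psi7_sub h.l1 e0
  have s2 := C02.psi7_sub h.l2 e0
  have s3 := C02.psi7_sub h.l3 e0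
  have hex : 0 ≤ exv v1 v2 := by
    have : 0 ≤ ‖v1‖ * |normSq v1 - 1| * |normSq v1 - 3| + ‖v2‖ * |normSq v2 - 1| * |normSq v2 - 3|
      + ‖v3‖ * |normSq v3 - 1| * |normSq v3 - 3| := by positivity
    linarith
  have hn : ‖Psi7 v1 + Psi7 v2 + Psi7 v3‖ ≤ ‖Psi7r v1 + Psi7r v2 + Psi7r v3‖
      + (‖Psi7 v1 - Psi7r v1‖ + ‖Psi7 v2 - Psi7r v2‖ + ‖Psi7 v3 - Psi7r v3‖) := by
    have e : Psi7 v1 + Psi7 v2 + Psi7 v3 = (Psi7r v1 + Psi7r v2 + Psi7r v3)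
        + ((Psi7 v1 - Psi7r v1) + (Psi7 v2 - Psi7r v2) + (Psi7 v3 - Psi7r v3)) := by ring
    calc ‖Psi7 v1 + Psi7 v2 + Psi7 v3‖ = ‖(Psi7r v1 + Psi7r v2 + Psi7r v3)
        + ((Psi7 v1 - Psi7r v1) + (Psi7 v2 - Psi7r v2) + (Psi7 v3 - Psi7r v3))‖ := by rw [← e]
      _ ≤ _ := (norm_add_le _ _).trans (add_le_add le_rfl norm_add₃_le)
  have hs : ‖Psi7 v1 - Psi7r v1‖ + ‖Psi7 v2 - Psi7r v2‖ + ‖Psi7 v3 - Psi7r v3‖
      ≤ eps0 * (50 * exv v1 v2) := by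
    rw [s1, s2, s3, ← mul_add, ← mul_add]
    exact mul_le_mul_of_nonneg_left hdel e0.le
  have hk : cc * (eps0 * (50 * exv v1 v2)) ≤ 1 / 100 * exv v1 v2 := by
    have h5 : cc * eps0 ≤ 22 / 100 * (84 / 100000) := mul_le_mul hcc2.le e1.le e0.le (by norm_num)
    have h6 : cc * eps0 * exv v1 v2 ≤ 22 / 100 * (84 / 100000) * exv v1 v2 :=
      mul_le_mul_of_nonneg_right h5 hex
    nlinarith
  have hfin := mul_le_mul_of_nonneg_left (hn.trans (add_le_add le_rfl hs)) hcc.le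
  nlinarith

end Pool.Agent.LG
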