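import Pool.Agent.Lib.MP_8026b0_co.C04
import Pool.Agent.Lib.MP_8026b0_co.C02

set_option autoImplicit false

/-! Row C06: two activated vertices. -/

namespace Pool.Agent.LG

open Complex

namespace C06

theorem two_of_sum {x1 x2 y1 y2 : ℝ} (h : ∀ f : ℝ → ℝ, f x1 + f x2 = f y1 + f y2) :
    (x1 = y1 ∧ x2 = y2) ∨ (x1 = y2 ∧ x2 = y1) := by
  classical
  have h1 := h (fun t => if t = x1 then 1 else 0)
  have hs := h (fun t => t)
  simp only [if_true] at h1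
  by_cases e1 : y1 = x1
  · left; exact ⟨e1.symm, by linarith⟩
  · by_cases e2 : y2 = x1
    · right; exact ⟨e2.symm, by linarith⟩
    · exfalso
      rw [if_neg e1, if_neg e2] at h1
      split_ifs at h1 <;> norm_num at h1

theorem three_of_sum {x1 x2 x3 y1 y2 y3 : ℝ}
    (h : ∀ f : ℝ → ℝ, f x1 + f x2 + f x3 = f y1 + f y2 + f y3) :
    (x1 = y1 ∧ x2 = y2 ∧ x3 = y3) ∨ (x1 = y1 ∧ x2 = y3 ∧ x3 = y2) ∨
    (x1 = y2 ∧ x2 = y1 ∧ x3 = y3) ∨ (x1 = y2 ∧ x2 = y3 ∧ x3 = y1) ∨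
    (x1 = y3 ∧ x2 = y1 ∧ x3 = y2) ∨ (x1 = y3 ∧ x2 = y2 ∧ x3 = y1) := by
  classical
  have h1 := h (fun t => if t = x1 then 1 else 0)
  simp only [if_true] at h1
  by_cases e1 : y1 = x1
  · have := two_of_sum (x1 := x2) (x2 := x3) (y1 := y2) (y2 := y3)
      (fun f => by have := h f; rw [e1] at this; linarith)
    rcases this with ⟨a, b⟩ | ⟨a, b⟩
    · left; exact ⟨e1.symm, a, b⟩
    · right; left; exact ⟨e1.symm, a, b⟩
  · by_cases e2 : y2 = x1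
    · have := two_of_sum (x1 := x2) (x2 := x3) (y1 := y1) (y2 := y3)
        (fun f => by have := h f; rw [e2] at this; linarith)
      rcases this with ⟨a, b⟩ | ⟨a, b⟩
      · right; right; left; exact ⟨e2.symm, a, b⟩
      · right; right; right; left; exact ⟨e2.symm, a, b⟩
    · by_cases e3 : y3 = x1
      · have := two_of_sum (x1 := x2) (x2 := x3) (y1 := y1) (y2 := y2)
          (fun f => by have := h f; rw [e3] at this; linarith)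
        rcases this with ⟨a, b⟩ | ⟨a, b⟩
        · right; right; right; right; left; exact ⟨e3.symm, a, b⟩
        · right; right; right; right; right; exact ⟨e3.symm, a, b⟩
      · exfalso
        rw [if_neg e1, if_neg e2, if_neg e3] at h1
        split_ifs at h1 <;> norm_num at h1

theorem norm_sq' (v : ℂ) : ‖v‖ ^ 2 = v.re ^ 2 + v.im ^ 2 := by
  rw [← normSq_eq_norm_sq, normSq_apply]; ring

/-- a unit vector which is nearly vertical -/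
theorem e6_near {e : ℂ} (he : ‖e‖ = 1) (h1 : |e.re| ≤ 3 / 500) (h2 : 0 < e.im) :
    ‖e ^ 6 + 1‖ ≤ 1 / 25 := by
  have hn := norm_sq' e
  rw [he] at hn
  have hre : e.re ^ 2 ≤ (3 / 500) ^ 2 := by
    rw [← sq_abs e.re]
    exact pow_le_pow_left₀ (abs_nonneg _) h1 2
  have him : 1 - e.im ≤ e.re ^ 2 := by
    have : e.im ≤ 1 := by nlinarith
    nlinarith
  have him0 : 0 ≤ 1 - e.im := by nlinarith
  have hd : ‖e - I‖ ≤ 31 / 5000 := by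
    have h3 : ‖e - I‖ ^ 2 ≤ (31 / 5000) ^ 2 := by
      rw [norm_sq']
      simp only [sub_re, sub_im, I_re, I_im, sub_zero]
      nlinarith
    exact (sq_le_sq₀ (norm_nonneg _) (by norm_num)).mp h3
  have hfac : e ^ 6 + 1 = (e - I) * (e ^ 5 + e ^ 4 * I + e ^ 3 * I ^ 2 + e ^ 2 * I ^ 3 + e * I ^ 4
      + I ^ 5) := by
    have hI : (I : ℂ) ^ 6 = -1 := by
      rw [show (6 : ℕ) = 2 * 3 by norm_num, pow_mul, I_sq]; norm_num
    linear_combination hI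
  rw [hfac, norm_mul]
  have hb : ‖e ^ 5 + e ^ 4 * I + e ^ 3 * I ^ 2 + e ^ 2 * I ^ 3 + e * I ^ 4 + I ^ 5‖ ≤ 6 := by
    refine (norm_add_le _ _).trans ?_
    have t1 := norm_add_le (e ^ 5 + e ^ 4 * I + e ^ 3 * I ^ 2 + e ^ 2 * I ^ 3) (e * I ^ 4)
    have t2 := norm_add_le (e ^ 5 + e ^ 4 * I + e ^ 3 * I ^ 2) (e ^ 2 * I ^ 3)
    have t3 := norm_add_le (e ^ 5 + e ^ 4 * I) (e ^ 3 * I ^ 2)
    have t4 := norm_add_le (e ^ 5) (e ^ 4 * I)
    have n5 : ‖e ^ 5‖ = 1 := by rw [norm_pow, he, one_pow]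
    have n4 : ‖e ^ 4 * I‖ = 1 := by rw [norm_mul, norm_pow, he, norm_I]; norm_num
    have n3 : ‖e ^ 3 * I ^ 2‖ = 1 := by rw [norm_mul, norm_pow, norm_pow, he, norm_I]; norm_num
    have n2 : ‖e ^ 2 * I ^ 3‖ = 1 := by rw [norm_mul, norm_pow, norm_pow, he, norm_I]; norm_num
    have n1 : ‖e * I ^ 4‖ = 1 := by rw [norm_mul, norm_pow, he, norm_I]; norm_num
    have n0 : ‖(I : ℂ) ^ 5‖ = 1 := by rw [norm_pow, norm_I, one_pow]
    linarith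
  have := norm_nonneg (e - I)
  nlinarith [norm_nonneg (e ^ 5 + e ^ 4 * I + e ^ 3 * I ^ 2 + e ^ 2 * I ^ 3 + e * I ^ 4 + I ^ 5)]

/-- chord formulas -/
theorem chord_minus {x s : ℝ} (h : x ^ 2 + s ^ 2 = 1) :
    ‖(⟨x, s⟩ : ℂ) ^ 6 - 1‖ ^ 2 = 4 * (1 - x ^ 2) * (4 * x ^ 2 - 1) ^ 2 := by
  have hs : s ^ 2 = 1 - x ^ 2 := by linarith
  rw [norm_sq']
  have hre : ((⟨x, s⟩ : ℂ) ^ 6 - 1).re = x ^ 6 - 15 * x ^ 4 * s ^ 2 + 15 * x ^ 2 * (s ^ 2) ^ 2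
      - (s ^ 2) ^ 3 - 1 := by
    simp only [pow_succ, pow_zero, one_mul, mul_re, mul_im, sub_re, one_re]; ring
  have him : ((⟨x, s⟩ : ℂ) ^ 6 - 1).im = s * x * (6 * x ^ 4 - 20 * x ^ 2 * s ^ 2
      + 6 * (s ^ 2) ^ 2) := by
    simp only [pow_succ, pow_zero, one_mul, mul_re, mul_im, sub_im, one_im]; ring
  have him2 : ((⟨x, s⟩ : ℂ) ^ 6 - 1).im ^ 2 = s ^ 2 * x ^ 2 * (6 * x ^ 4 - 20 * x ^ 2 * s ^ 2
      + 6 * (s ^ 2) ^ 2) ^ 2 := by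
    rw [him]; ring
  rw [him2, hre, hs]; ring

theorem chord_plus {x s : ℝ} (h : x ^ 2 + s ^ 2 = 1) :
    ‖(⟨x, s⟩ : ℂ) ^ 6 + 1‖ ^ 2 = 4 * x ^ 2 * (4 * x ^ 2 - 3) ^ 2 := by
  have hs : s ^ 2 = 1 - x ^ 2 := by linarith
  rw [norm_sq']
  have hre : ((⟨x, s⟩ : ℂ) ^ 6 + 1).re = x ^ 6 - 15 * x ^ 4 * s ^ 2 + 15 * x ^ 2 * (s ^ 2) ^ 2
      - (s ^ 2) ^ 3 + 1 := by
    simp only [pow_succ, pow_zero, one_mul, mul_re, mul_im, add_re, one_re]; ring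
  have him : ((⟨x, s⟩ : ℂ) ^ 6 + 1).im = s * x * (6 * x ^ 4 - 20 * x ^ 2 * s ^ 2
      + 6 * (s ^ 2) ^ 2) := by
    simp only [pow_succ, pow_zero, one_mul, mul_re, mul_im, add_im, one_im]; ring
  have him2 : ((⟨x, s⟩ : ℂ) ^ 6 + 1).im ^ 2 = s ^ 2 * x ^ 2 * (6 * x ^ 4 - 20 * x ^ 2 * s ^ 2
      + 6 * (s ^ 2) ^ 2) ^ 2 := by
    rw [him]; ring
  rw [him2, hre, hs]; ring

/-- short side: the vertex function vanishes -/
theorem XX_short {v e : ℂ} {x s : ℝ} (hv : ‖v‖ < 3 / 2) (hx : x ^ 2 + s ^ 2 = 1)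
    (he : ‖e‖ = 1) (he6 : ‖e ^ 6 + 1‖ ≤ 1 / 25) (hu : u6 v = (⟨x, s⟩ : ℂ) ^ 6 * e ^ 6)
    (h1 : 3 / 20 ≤ x ^ 2) (h2 : x ^ 2 ≤ 189 / 500) : XX v = 0 := by
  unfold XX
  rw [if_pos hv]
  have hn : ‖(⟨x, s⟩ : ℂ)‖ = 1 := by
    have := norm_sq' (⟨x, s⟩ : ℂ)
    simp only at this
    rw [hx] at this
    exact (pow_eq_one_iff_of_nonneg (norm_nonneg _) (by norm_num)).mp this
  apply Xi_zero
  · rw [hu, norm_mul, norm_pow, norm_pow, hn, he]; norm_num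
  · rw [hu]
    have hc : ‖(⟨x, s⟩ : ℂ) ^ 6 - 1‖ ≤ 19 / 20 := by
      have h3 := chord_minus hx
      have h4 : ‖(⟨x, s⟩ : ℂ) ^ 6 - 1‖ ^ 2 ≤ (19 / 20) ^ 2 := by
        rw [h3]
        have h5 : (4 * x ^ 2 - 1) ^ 2 ≤ 263 / 1000 := by nlinarith
        have h6 : 0 ≤ 1 - x ^ 2 := by nlinarith
        nlinarith [sq_nonneg (4 * x ^ 2 - 1)]
      exact (sq_le_sq₀ (norm_nonneg _) (by norm_num)).mp h4
    have e1 : (⟨x, s⟩ : ℂ) ^ 6 * e ^ 6 + 1 = ((⟨x, s⟩ : ℂ) ^ 6 - 1) * e ^ 6 + (e ^ 6 + 1) := by ring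
    rw [e1]
    refine (norm_add_le _ _).trans ?_
    rw [norm_mul, norm_pow, he, one_pow, mul_one]
    linarith

/-- long side: the vertex function vanishes -/
theorem XX_long {v e : ℂ} {x s : ℝ} (hv : 3 / 2 ≤ ‖v‖) (hx : x ^ 2 + s ^ 2 = 1)
    (he : ‖e‖ = 1) (he6 : ‖e ^ 6 + 1‖ ≤ 1 / 25) (hu : u6 v = (⟨x, s⟩ : ℂ) ^ 6 * e ^ 6)
    (h1 : |4 * x ^ 2 - 3| ≤ 47 / 100) : XX v = 0 := by
  unfold XX
  rw [if_neg (not_lt.mpr hv)]
  have hn : ‖(⟨x, s⟩ : ℂ)‖ = 1 := by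
    have := norm_sq' (⟨x, s⟩ : ℂ)
    simp only at this
    rw [hx] at this
    exact (pow_eq_one_iff_of_nonneg (norm_nonneg _) (by norm_num)).mp this
  apply Xi_zero
  · rw [norm_neg, hu, norm_mul, norm_pow, norm_pow, hn, he]; norm_num
  · rw [hu]
    have hc : ‖(⟨x, s⟩ : ℂ) ^ 6 + 1‖ ≤ 19 / 20 := by
      have h3 := chord_plus hx
      have h4 : ‖(⟨x, s⟩ : ℂ) ^ 6 + 1‖ ^ 2 ≤ (19 / 20) ^ 2 := by
        rw [h3]
        have h5 : (4 * x ^ 2 - 3) ^ 2 ≤ (47 / 100) ^ 2 := by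
          rw [← sq_abs (4 * x ^ 2 - 3)]
          exact pow_le_pow_left₀ (abs_nonneg _) h1 2
        have h6 : x ^ 2 ≤ 1 := by nlinarith [sq_nonneg s]
        nlinarith [sq_nonneg (4 * x ^ 2 - 3), sq_nonneg x]
      exact (sq_le_sq₀ (norm_nonneg _) (by norm_num)).mp h4
    have e1 : -((⟨x, s⟩ : ℂ) ^ 6 * e ^ 6) + 1
        = -(((⟨x, s⟩ : ℂ) ^ 6 + 1) * e ^ 6) + (e ^ 6 + 1) := by ring
    rw [e1]
    refine (norm_add_le _ _).trans ?_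
    rw [norm_neg, norm_mul, norm_pow, he, one_pow, mul_one]
    linarith

end C06

namespace C06

/-- setting: `v1 = q - p`, `w = r - p`; all data of the configuration -/
theorem main {v1 w Z : ℂ} {R : ℝ} (hl1 : 1 ≤ ‖v1‖) (hl3 : 1 ≤ ‖w‖) (hl2 : 1 ≤ ‖w - v1‖)
    (hD : 0 < cr v1 w) (hrad : ‖v1‖ * ‖w - v1‖ * ‖w‖ ≤ 2 * cr v1 w)
    (h1 : |v1.re| ≤ 3 / 500) (h2 : w.re ≤ 3 / 500) (h3 : (w - v1).re ≤ 3 / 500)
    (hZ : Z.re ≤ 3 / 500) (hR : R ≤ 1) (e0 : ‖Z‖ = R) (e1 : ‖Z - v1‖ = R) (e2 : ‖Z - w‖ = R) :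
    0 < v1.im ∧ -(3 / 100) * (2 * ‖w - v1‖ * ‖w‖) ≤ ‖w - v1‖ ^ 2 + ‖w‖ ^ 2 - ‖v1‖ ^ 2 := by
  have n1 := norm_sq' v1
  have n3 := norm_sq' w
  have n2 := norm_sq' (w - v1)
  simp only [sub_re, sub_im] at n2 h3
  have hre1 := abs_le.mp h1
  have him : 0 < v1.im := by
    by_contra hcon
    push Not at hcon
    have b1 : |v1.im| ≤ ‖v1‖ := abs_im_le_norm _
    have b3 : |w.im| ≤ ‖w‖ := abs_im_le_norm _
    have d1 : v1.re * w.im ≤ 3 / 500 * ‖w‖ := by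
      calc v1.re * w.im ≤ |v1.re * w.im| := le_abs_self _
        _ = |v1.re| * |w.im| := abs_mul _ _
        _ ≤ 3 / 500 * ‖w‖ := mul_le_mul h1 b3 (abs_nonneg _) (by norm_num)
    have d2 : -(v1.im * w.re) ≤ 3 / 500 * ‖v1‖ := by
      have : -v1.im ≤ ‖v1‖ := (neg_le_abs _).trans b1
      have h4 : -v1.im * w.re ≤ -v1.im * (3 / 500) :=
        mul_le_mul_of_nonneg_left h2 (neg_nonneg.2 hcon)
      linarith
    have hc : cr v1 w ≤ 3 / 500 * (‖v1‖ + ‖w‖) := by unfold cr; linarith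
    have e3 : ‖v1‖ * ‖w‖ ≤ ‖v1‖ * ‖w - v1‖ * ‖w‖ := by
      have : 0 ≤ ‖v1‖ * ‖w‖ := by positivity
      have h5 := mul_le_mul_of_nonneg_left hl2 this
      linarith
    have q1 : ‖v1‖ ≤ ‖v1‖ * ‖w‖ := le_mul_of_one_le_right (norm_nonneg _) hl3
    have q2 : ‖w‖ ≤ ‖v1‖ * ‖w‖ := le_mul_of_one_le_left (norm_nonneg _) hl1
    linarith
  refine ⟨him, ?_⟩
  -- circumcentre
  have m0 := norm_sq' Z
  have m1 := norm_sq' (Z - v1)
  have m2 := norm_sq' (Z - w)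
  rw [e0] at m0
  rw [e1] at m1
  rw [e2] at m2
  simp only [sub_re, sub_im] at m1 m2
  have hZi : |Z.im| ≤ 1 := (abs_im_le_norm Z).trans (by rw [e0]; exact hR)
  have hZi' := abs_le.mp hZi
  -- twice the inner products
  have i1 : 2 * (Z.re * v1.re + Z.im * v1.im) = ‖v1‖ ^ 2 := by rw [n1]; linarith
  have i2 : 2 * (Z.re * w.re + Z.im * w.im) = ‖w‖ ^ 2 := by rw [n3]; linarith
  have key : (v1.re * Z.im - v1.im * Z.re) * (2 * cr v1 w)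
      = ‖v1‖ ^ 2 * ((‖w - v1‖ ^ 2 + ‖w‖ ^ 2 - ‖v1‖ ^ 2) / 2) := by
    have hd : (‖w - v1‖ ^ 2 + ‖w‖ ^ 2 - ‖v1‖ ^ 2) / 2
        = ‖w‖ ^ 2 - (v1.re * w.re + v1.im * w.im) := by
      rw [n1, n2, n3]; ring
    rw [hd]
    unfold cr
    have hv : ‖v1‖ ^ 2 * ‖w‖ ^ 2 = (v1.re ^ 2 + v1.im ^ 2) * (2 * (Z.re * w.re + Z.im * w.im)) := by
      rw [i2, n1]
    have hv2 : ‖v1‖ ^ 2 * (v1.re * w.re + v1.im * w.im)
        = 2 * (Z.re * v1.re + Z.im * v1.im) * (v1.re * w.re + v1.im * w.im) := by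
      rw [i1]
    have h7 : ‖v1‖ ^ 2 * (‖w‖ ^ 2 - (v1.re * w.re + v1.im * w.im))
        = ‖v1‖ ^ 2 * ‖w‖ ^ 2 - ‖v1‖ ^ 2 * (v1.re * w.re + v1.im * w.im) := by ring
    rw [h7, hv, hv2]
    ring
  have hlow : -(3 / 500) * (1 + ‖v1‖) ≤ v1.re * Z.im - v1.im * Z.re := by
    have d1 : -(3 / 500) ≤ v1.re * Z.im := by
      have : |v1.re * Z.im| ≤ 3 / 500 * 1 := by
        rw [abs_mul]; exact mul_le_mul h1 hZi (abs_nonneg _) (by norm_num)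
      linarith [neg_le_of_abs_le this]
    have d2 : v1.im * Z.re ≤ ‖v1‖ * (3 / 500) := by
      have : v1.im ≤ ‖v1‖ := (le_abs_self _).trans (abs_im_le_norm _)
      have h6 := mul_le_mul_of_nonneg_left hZ him.le
      linarith
    linarith
  have hDle : cr v1 w ≤ ‖v1‖ * ‖w‖ := by
    have h5 : cr v1 w ^ 2 ≤ (‖v1‖ * ‖w‖) ^ 2 := by
      rw [mul_pow, n1, n3]; unfold cr
      linarith [sq_nonneg (v1.re * w.re + v1.im * w.im)]
    exact abs_le_of_sq_le_sq' h5 (by positivity) |>.2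
  -- conclude
  have g1 : -(3 / 500) * (1 + ‖v1‖) * (2 * (‖v1‖ * ‖w‖))
      ≤ ‖v1‖ ^ 2 * ((‖w - v1‖ ^ 2 + ‖w‖ ^ 2 - ‖v1‖ ^ 2) / 2) := by
    rw [← key]
    have a1 : -(3 / 500) * (1 + ‖v1‖) * (2 * (‖v1‖ * ‖w‖))
        ≤ -(3 / 500) * (1 + ‖v1‖) * (2 * cr v1 w) := by
      have : 0 ≤ (3 / 500) * (1 + ‖v1‖) := by positivity
      have h7 := mul_le_mul_of_nonneg_left hDle this
      linarith
    have a2 : -(3 / 500) * (1 + ‖v1‖) * (2 * cr v1 w)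
        ≤ (v1.re * Z.im - v1.im * Z.re) * (2 * cr v1 w) :=
      mul_le_mul_of_nonneg_right hlow (by positivity)
    linarith
  have hl1' : (0 : ℝ) < ‖v1‖ := by linarith
  have g2 : -(3 / 500) * (1 + ‖v1‖) * (2 * ‖w‖) * 2
      ≤ ‖v1‖ * (‖w - v1‖ ^ 2 + ‖w‖ ^ 2 - ‖v1‖ ^ 2) := by
    have : ‖v1‖ * (-(3 / 500) * (1 + ‖v1‖) * (2 * ‖w‖) * 2)
      ≤ ‖v1‖ * (‖v1‖ * (‖w - v1‖ ^ 2 + ‖w‖ ^ 2 - ‖v1‖ ^ 2)) := by linarith
    exact le_of_mul_le_mul_left this hl1'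
  have g3 : ‖v1‖ * (-(3 / 100) * (2 * ‖w - v1‖ * ‖w‖))
      ≤ -(3 / 500) * (1 + ‖v1‖) * (2 * ‖w‖) * 2 := by
    have hw0 : 0 < ‖w‖ := by linarith
    have q3 : ‖v1‖ ≤ ‖v1‖ * ‖w - v1‖ := le_mul_of_one_le_right (norm_nonneg _) hl2
    have : (3 / 500) * (1 + ‖v1‖) * 2 ≤ ‖v1‖ * (3 / 100) * ‖w - v1‖ := by linarith
    have h8 := mul_le_mul_of_nonneg_right this (by positivity : 0 ≤ 2 * ‖w‖)
    linarith
  exact le_of_mul_le_mul_left (g3.trans g2) hl1'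

/-- sixth powers of the directions of the other two sides -/
theorem dirs {v1 w : ℂ} (hl1 : v1 ≠ 0) (hl3 : w ≠ 0) (hl2 : w - v1 ≠ 0) :
    ∃ sp sq : ℝ,
      ((‖v1‖ ^ 2 + ‖w‖ ^ 2 - ‖w - v1‖ ^ 2) / (2 * ‖v1‖ * ‖w‖)) ^ 2 + sp ^ 2 = 1 ∧
      ((‖v1‖ ^ 2 + ‖w - v1‖ ^ 2 - ‖w‖ ^ 2) / (2 * ‖v1‖ * ‖w - v1‖)) ^ 2 + sq ^ 2 = 1 ∧
      u6 w = (⟨(‖v1‖ ^ 2 + ‖w‖ ^ 2 - ‖w - v1‖ ^ 2) / (2 * ‖v1‖ * ‖w‖), sp⟩ : ℂ) ^ 6
        * (v1 / (‖v1‖ : ℂ)) ^ 6 ∧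
      u6 (w - v1) = (⟨(‖v1‖ ^ 2 + ‖w - v1‖ ^ 2 - ‖w‖ ^ 2) / (2 * ‖v1‖ * ‖w - v1‖), sq⟩ : ℂ) ^ 6
        * (v1 / (‖v1‖ : ℂ)) ^ 6 := by
  have n1 := norm_sq' v1
  have n3 := norm_sq' w
  have n2 := norm_sq' (w - v1)
  have p1 : 0 < ‖v1‖ := norm_pos_iff.mpr hl1
  have p3 : 0 < ‖w‖ := norm_pos_iff.mpr hl3
  have p2 : 0 < ‖w - v1‖ := norm_pos_iff.mpr hl2
  simp only [sub_re, sub_im] at n2
  have x1 : ‖v1‖ ^ 2 + ‖w‖ ^ 2 - ‖w - v1‖ ^ 2 = 2 * (v1.re * w.re + v1.im * w.im) := by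
    rw [n1, n2, n3]; ring
  have x2 : ‖v1‖ ^ 2 + ‖w - v1‖ ^ 2 - ‖w‖ ^ 2
      = 2 * (v1.re * (v1.re - w.re) + v1.im * (v1.im - w.im)) := by
    rw [n1, n2, n3]; ring
  refine ⟨cr v1 w / (‖v1‖ * ‖w‖), -(cr v1 w / (‖v1‖ * ‖w - v1‖)), ?_, ?_, ?_, ?_⟩
  · rw [x1]
    field_simp
    unfold cr
    rw [n1, n3]
    ring
  · rw [x2]
    field_simp
    unfold cr
    rw [n1, n2]
    ring
  · unfold u6
    rw [← mul_pow]
    congr 1
    rw [x1]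
    have q1 : (‖v1‖ : ℂ) ≠ 0 := by exact_mod_cast p1.ne'
    have q3 : (‖w‖ : ℂ) ≠ 0 := by exact_mod_cast p3.ne'
    have e : (⟨2 * (v1.re * w.re + v1.im * w.im) / (2 * ‖v1‖ * ‖w‖), cr v1 w / (‖v1‖ * ‖w‖)⟩ : ℂ)
        = (⟨v1.re * w.re + v1.im * w.im, cr v1 w⟩ : ℂ) / ((‖v1‖ * ‖w‖ : ℝ) : ℂ) := by
      apply Complex.ext
      · rw [div_ofReal_re]; simp only; field_simp
      · rw [div_ofReal_im]
    rw [e]
    have e2 : (⟨v1.re * w.re + v1.im * w.im, cr v1 w⟩ : ℂ) * v1 = ((‖v1‖ ^ 2 : ℝ) : ℂ) * w := by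
      apply Complex.ext
      · simp only [mul_re, ofReal_re, ofReal_im]; unfold cr; rw [n1]; ring
      · simp only [mul_im, ofReal_re, ofReal_im]; unfold cr; rw [n1]; ring
    have e3 : (⟨v1.re * w.re + v1.im * w.im, cr v1 w⟩ : ℂ) / ((‖v1‖ * ‖w‖ : ℝ) : ℂ)
        * (v1 / (‖v1‖ : ℂ)) = ((⟨v1.re * w.re + v1.im * w.im, cr v1 w⟩ : ℂ) * v1)
          / ((‖v1‖ : ℂ) ^ 2 * (‖w‖ : ℂ)) := by
      push_cast; field_simp
    rw [e3, e2]
    push_cast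
    field_simp
  · unfold u6
    rw [← mul_pow]
    have q1 : (‖v1‖ : ℂ) ≠ 0 := by exact_mod_cast p1.ne'
    have q2 : (‖w - v1‖ : ℂ) ≠ 0 := by exact_mod_cast p2.ne'
    have hneg : ((w - v1) / (‖w - v1‖ : ℂ)) ^ 6 = (-((w - v1) / (‖w - v1‖ : ℂ))) ^ 6 := by
      rw [Even.neg_pow (by decide)]
    rw [hneg]
    congr 1
    rw [x2]
    have e : (⟨2 * (v1.re * (v1.re - w.re) + v1.im * (v1.im - w.im)) / (2 * ‖v1‖ * ‖w - v1‖),
        -(cr v1 w / (‖v1‖ * ‖w - v1‖))⟩ : ℂ)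
        = (⟨v1.re * (v1.re - w.re) + v1.im * (v1.im - w.im), -cr v1 w⟩ : ℂ)
          / ((‖v1‖ * ‖w - v1‖ : ℝ) : ℂ) := by
      apply Complex.ext
      · rw [div_ofReal_re]; simp only; field_simp
      · rw [div_ofReal_im]; simp only; field_simp
    rw [e]
    have e2 : (⟨v1.re * (v1.re - w.re) + v1.im * (v1.im - w.im), -cr v1 w⟩ : ℂ) * v1
        = ((‖v1‖ ^ 2 : ℝ) : ℂ) * (-(w - v1)) := by
      apply Complex.ext
      · simp only [mul_re, ofReal_re, ofReal_im, neg_re, sub_re]; unfold cr; rw [n1]; ring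
      · simp only [mul_im, ofReal_re, ofReal_im, neg_im, sub_im]; unfold cr; rw [n1]; ring
    have e3 : (⟨v1.re * (v1.re - w.re) + v1.im * (v1.im - w.im), -cr v1 w⟩ : ℂ)
        / ((‖v1‖ * ‖w - v1‖ : ℝ) : ℂ) * (v1 / (‖v1‖ : ℂ))
        = ((⟨v1.re * (v1.re - w.re) + v1.im * (v1.im - w.im), -cr v1 w⟩ : ℂ) * v1)
          / ((‖v1‖ : ℂ) ^ 2 * (‖w - v1‖ : ℂ)) := by
      push_cast; field_simp
    rw [e3, e2]
    push_cast
    field_simp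

end C06

namespace C06

/-- squares of cosines in region I (first form: the angle at the end of the sides `a`, `d`) -/
theorem cosI {a b y d : ℝ} (ha : 1 ≤ a) (hab : a ≤ b) (h2 : 2 * b * y ≤ a) (hy : 439 / 1000 ≤ y)
    (hy2 : y ≤ 1 / 2) (hd : 0 < d) (hd2 : d ^ 2 = a ^ 2 + b ^ 2 - 2 * a * b * y) :
    (3 / 20 ≤ ((a ^ 2 + d ^ 2 - b ^ 2) / (2 * a * d)) ^ 2 ∧
      ((a ^ 2 + d ^ 2 - b ^ 2) / (2 * a * d)) ^ 2 ≤ 189 / 500) ∧
    (3 / 20 ≤ ((b ^ 2 + d ^ 2 - a ^ 2) / (2 * b * d)) ^ 2 ∧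
      ((b ^ 2 + d ^ 2 - a ^ 2) / (2 * b * d)) ^ 2 ≤ 189 / 500) := by
  have ha0 : 0 < a := by linarith
  have hb0 : 0 < b := by linarith
  have eB : (a ^ 2 + d ^ 2 - b ^ 2) / (2 * a * d) = (a - b * y) / d := by
    rw [hd2]; field_simp; ring
  have eA : (b ^ 2 + d ^ 2 - a ^ 2) / (2 * b * d) = (b - a * y) / d := by
    rw [hd2]; field_simp; ring
  rw [eA, eB, div_pow, div_pow]
  have hdsq : 0 < d ^ 2 := by positivity
  -- lower bounds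
  have l1 : y ^ 2 * d ^ 2 ≤ (a - b * y) ^ 2 := by
    rw [hd2]
    have : 0 ≤ (1 - y ^ 2) * a * (a - 2 * b * y) := by
      apply mul_nonneg (mul_nonneg (by nlinarith) ha0.le) (by linarith)
    nlinarith
  have l2 : y ^ 2 * d ^ 2 ≤ (b - a * y) ^ 2 := by
    rw [hd2]
    have h3 : 0 ≤ b - 2 * a * y := by nlinarith
    have : 0 ≤ (1 - y ^ 2) * b * (b - 2 * a * y) := by
      apply mul_nonneg (mul_nonneg (by nlinarith) hb0.le) h3
    nlinarith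
  have hy3 : (3 / 20 : ℝ) ≤ y ^ 2 := by nlinarith
  -- upper bound for the smaller angle
  have u2 : (b - a * y) ^ 2 ≤ (1 - 2 * y ^ 2) ^ 2 * d ^ 2 := by
    rw [hd2]
    have ht : 0 ≤ a - 2 * b * y := by linarith
    have h5 : 0 ≤ (a - 2 * b * y) * ((1 - 2 * y ^ 2) ^ 2 * a + 2 * b * (1 - 2 * y ^ 2) * y
        - (a - 2 * b * y) * y ^ 2) := by
      apply mul_nonneg ht
      have h6 : y ^ 2 ≤ 1 / 4 := by nlinarith
      have h7 : (1 / 4 : ℝ) ≤ (1 - 2 * y ^ 2) ^ 2 := by nlinarith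
      have h8 : 0 ≤ 2 * b * (1 - 2 * y ^ 2) * y := by
        apply mul_nonneg (mul_nonneg (by positivity) (by nlinarith)) (by linarith)
      have h9 : (a - 2 * b * y) * y ^ 2 ≤ a * (1 / 4) := by
        have : 0 ≤ 2 * b * y := by positivity
        nlinarith
      nlinarith
    nlinarith
  have h6 : (1 - 2 * y ^ 2) ^ 2 ≤ 189 / 500 := by
    have hy4 : (439 / 1000 : ℝ) ^ 2 ≤ y ^ 2 := pow_le_pow_left₀ (by norm_num) hy 2
    have hy5 : 0 ≤ 1 - 2 * y ^ 2 := by nlinarith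
    have hy6 : 1 - 2 * y ^ 2 ≤ 1 - 2 * (439 / 1000 : ℝ) ^ 2 := by linarith
    calc (1 - 2 * y ^ 2) ^ 2 ≤ (1 - 2 * (439 / 1000 : ℝ) ^ 2) ^ 2 := pow_le_pow_left₀ hy5 hy6 2
      _ ≤ 189 / 500 := by norm_num
  have u1 : (a - b * y) ^ 2 ≤ (b - a * y) ^ 2 := by
    have : 0 ≤ a - b * y := by nlinarith
    have : a - b * y ≤ b - a * y := by nlinarith
    nlinarith
  refine ⟨⟨?_, ?_⟩, ⟨?_, ?_⟩⟩
  · rw [le_div_iff₀ hdsq]; nlinarith
  · rw [div_le_iff₀ hdsq]; nlinarith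
  · rw [le_div_iff₀ hdsq]; nlinarith
  · rw [div_le_iff₀ hdsq]; nlinarith

/-- region II: the long side seen from a short one -/
theorem cosII {l1 l3 y d : ℝ} (h1 : 1 ≤ l1) (h1' : l1 ≤ 119 / 100) (h3 : 1 ≤ l3)
    (h3' : l3 ≤ 119 / 100) (hy : -(1 / 2) ≤ y) (hy2 : y ≤ -(97 / 250)) (hd : 0 < d)
    (hd2 : d ^ 2 = l1 ^ 2 + l3 ^ 2 - 2 * l1 * l3 * y) :
    |4 * ((l1 ^ 2 + d ^ 2 - l3 ^ 2) / (2 * l1 * d)) ^ 2 - 3| ≤ 47 / 100 := by
  have e : (l1 ^ 2 + d ^ 2 - l3 ^ 2) / (2 * l1 * d) = (l1 - l3 * y) / d := by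
    rw [hd2]; field_simp; ring
  rw [e, div_pow]
  have hdsq : 0 < d ^ 2 := by positivity
  have e2 : 4 * ((l1 - l3 * y) ^ 2 / d ^ 2) - 3 = (4 * (l1 - l3 * y) ^ 2 - 3 * d ^ 2) / d ^ 2 := by
    field_simp
  rw [e2, abs_le]
  have hm1 : 97 / 250 ≤ -y := by linarith
  have hm2 : -y ≤ 1 / 2 := by linarith
  have hl : 0 < l1 * l3 := by nlinarith
  have hr1 : l3 ≤ 119 / 100 * l1 := by linarith
  have hr2 : l1 ≤ 119 / 100 * l3 := by linarith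
  have hm3 : (97 / 250 : ℝ) ^ 2 ≤ (-y) ^ 2 := pow_le_pow_left₀ (by norm_num) hm1 2
  have hm4 : (-y) ^ 2 ≤ (1 / 2 : ℝ) ^ 2 := pow_le_pow_left₀ (by linarith) hm2 2
  have e3 : 97 / 250 * (l1 * l3) ≤ (-y) * (l1 * l3) := mul_le_mul_of_nonneg_right hm1 hl.le
  have e4 : (-y) * (l1 * l3) ≤ 1 / 2 * (l1 * l3) := mul_le_mul_of_nonneg_right hm2 hl.le
  have e5 : (97 / 250 : ℝ) ^ 2 * l3 ^ 2 ≤ (-y) ^ 2 * l3 ^ 2 :=
    mul_le_mul_of_nonneg_right hm3 (by positivity)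
  have e6 : (-y) ^ 2 * l3 ^ 2 ≤ (1 / 2 : ℝ) ^ 2 * l3 ^ 2 :=
    mul_le_mul_of_nonneg_right hm4 (by positivity)
  have e7 : 0 ≤ (119 / 100 * l1 - l3) * l3 := mul_nonneg (by linarith) (by linarith)
  have e8 : 0 ≤ (119 / 100 * l1 - l3) * l1 := mul_nonneg (by linarith) (by linarith)
  have e9 : 0 ≤ (119 / 100 * l3 - l1) * l3 := mul_nonneg (by linarith) (by linarith)
  have e10 : 0 ≤ (119 / 100 * l3 - l1) * l1 := mul_nonneg (by linarith) (by linarith)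
  constructor
  · rw [le_div_iff₀ hdsq, hd2]
    have e11 : 4 * (l1 - l3 * y) ^ 2 - 3 * (l1 ^ 2 + l3 ^ 2 - 2 * l1 * l3 * y)
      + 47 / 100 * (l1 ^ 2 + l3 ^ 2 - 2 * l1 * l3 * y)
      = 147 / 100 * l1 ^ 2 + 294 / 100 * ((-y) * (l1 * l3)) + 4 * ((-y) ^ 2 * l3 ^ 2)
        - 253 / 100 * l3 ^ 2 := by ring
    nlinarith [sq_nonneg l1, sq_nonneg l3]
  · rw [div_le_iff₀ hdsq, hd2]
    have e11 : 47 / 100 * (l1 ^ 2 + l3 ^ 2 - 2 * l1 * l3 * y)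
      - (4 * (l1 - l3 * y) ^ 2 - 3 * (l1 ^ 2 + l3 ^ 2 - 2 * l1 * l3 * y))
      = 347 / 100 * l3 ^ 2 - 53 / 100 * l1 ^ 2 - 106 / 100 * ((-y) * (l1 * l3))
        - 4 * ((-y) ^ 2 * l3 ^ 2) := by ring
    nlinarith [sq_nonneg l1, sq_nonneg l3]

end C06

namespace C06

theorem v2_reg {a b y P E : ℝ} (ha1 : 1 ≤ a) (hab : a ≤ b) (hyb : -(1 / 2) ≤ y ∧ y ≤ 1 / 2)
    (hexge : (a * b - 1) / 2 + 3 / 10 * (1 / 4 - y ^ 2) ≤ E) (hpen : P = pen b y)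
    (hfin : ¬ (P = 7 / 625 ∧ 17 / 1000 ≤ E)) :
    (b ≤ 23 / 20 ∧ 439 / 1000 ≤ y) ∨ (b ≤ 119 / 100 ∧ y ≤ -(97 / 250)) := by
  have hab1 : b ≤ a * b := le_mul_of_one_le_left (by linarith) ha1
  have hy4 : 0 ≤ 1 / 4 - y ^ 2 := by nlinarith
  by_cases hp7 : P = 7 / 625
  · have hex2 : E < 17 / 1000 := by
      by_contra hc; push Not at hc; exact hfin ⟨hp7, hc⟩
    have hb1 : b ≤ 104 / 100 := by linarith
    have hy1 : 1 / 4 - y ^ 2 < 57 / 1000 := by linarith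
    by_cases hy0 : 0 ≤ y
    · left
      refine ⟨by linarith, ?_⟩
      by_contra hc; push Not at hc
      clear hexge hpen hfin
      nlinarith
    · right
      refine ⟨by linarith, ?_⟩
      by_contra hc; push Not at hc hy0
      clear hexge hpen hfin
      nlinarith
  · rw [hpen] at hp7
    have hlt : pen b y < 7 / 625 := lt_of_le_of_ne (min_le_left _ _) hp7
    unfold pen at hlt
    clear hexge hpen hfin hp7
    rcases min_lt_iff.mp hlt with h5 | h5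
    · exact absurd h5 (lt_irrefl _)
    rcases min_lt_iff.mp h5 with h6 | h6
    · right
      clear h5 hlt
      constructor
      · nlinarith [hyb.1]
      · nlinarith [ha1]
    · by_cases hb : b ≤ 23 / 20
      · rw [if_pos hb] at h6
        left; exact ⟨hb, by linarith⟩
      · rw [if_neg hb] at h6; exact absurd h6 (lt_irrefl _)

theorem v2_rr1 {a b y : ℝ} (ha1 : 1 ≤ a) (hab : a ≤ b) (h2by : 2 * b * y ≤ a) : 1 ≤ rr a b y := by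
  unfold rr
  have h3 : 2 * b * y * a ≤ a * a := mul_le_mul_of_nonneg_right h2by (by linarith)
  nlinarith

theorem v2_dlt {a b y d : ℝ} (ha1 : 1 ≤ a) (hab : a ≤ b) (hb : b ≤ 23 / 20) (hy : 439 / 1000 ≤ y)
    (hd2 : d ^ 2 = a ^ 2 + b ^ 2 - 2 * a * b * y) : d < 3 / 2 := by
  have : d ^ 2 < (3 / 2) ^ 2 := by
    rw [hd2]
    have hab2 : 1 ≤ a * b := one_le_mul_of_one_le_of_one_le ha1 (ha1.trans hab)
    have h5 : a * b * (439 / 1000) ≤ a * b * y := mul_le_mul_of_nonneg_left hy (by linarith)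
    nlinarith
  exact lt_of_pow_lt_pow_left₀ 2 (by norm_num) this

theorem v2_yy1 {y : ℝ} (hy : 439 / 1000 ≤ y) (h : y ≤ 1 / 2) : 3 / 20 ≤ y ^ 2 ∧ y ^ 2 ≤ 189 / 500 := by
  constructor <;> nlinarith

theorem v2_dgt {a b y d : ℝ} (ha1 : 1 ≤ a) (hb1 : 1 ≤ b) (hy : y ≤ -(97 / 250))
    (hd0 : 0 < d) (hd2 : d ^ 2 = a ^ 2 + b ^ 2 - 2 * a * b * y) : 3 / 2 ≤ d := by
  have : (3 / 2) ^ 2 ≤ d ^ 2 := by
    rw [hd2]
    have hab2 : 1 ≤ a * b := one_le_mul_of_one_le_of_one_le ha1 hb1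
    nlinarith
  exact (sq_le_sq₀ (by norm_num) hd0.le).mp this

theorem v2_yy2 {y : ℝ} (hy : y ≤ -(97 / 250)) (h : -(1 / 2) ≤ y) : 3 / 20 ≤ y ^ 2 ∧ y ^ 2 ≤ 189 / 500 := by
  constructor <;> nlinarith

theorem v2_no {d y : ℝ} (hy : y ≤ -(97 / 250)) (u v : ℝ) (hu : 1 ≤ u) (hv : 1 ≤ v)
    (hdd : d ^ 2 = u ^ 2 + v ^ 2 - 2 * u * v * y) :
    ¬ (-(3 / 100) * (2 * u * v) ≤ u ^ 2 + v ^ 2 - d ^ 2) := by
  intro hcon
  rw [hdd] at hcon
  have huv : 1 ≤ u * v := one_le_mul_of_one_le_of_one_le hu hv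
  nlinarith

end C06

/-- Frame version. `p, q` are within `3/500` of the line `re = 0`, all three points are in the
half plane `re ≤ 0` and so is the circumcentre `z`. -/
theorem vertex_two {p q r z : ℂ} {R : ℝ} (h : AdmTri (q - p) (r - q) (p - r))
    (hp : -(3 / 500) ≤ p.re ∧ p.re ≤ 0) (hq : -(3 / 500) ≤ q.re ∧ q.re ≤ 0) (hr : r.re ≤ 0)
    (hz : z.re ≤ 0) (hR : R ≤ 1) (h1 : ‖z - p‖ = R) (h2 : ‖z - q‖ = R) (h3 : ‖z - r‖ = R) :
    (XX (q - p) = 0 ∧ XX (r - q) = 0 ∧ XX (p - r) = 0) ∨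
      (penT ‖q - p‖ ‖r - q‖ ‖p - r‖ = 7 / 625 ∧ 17 / 1000 ≤ exv (q - p) (r - q)) := by
  obtain ⟨a, b, β, hβ1, hβ2, hDom, -, -, hex, hpen, hsum⟩ := sort_tri h
  have hl1 := h.l1
  have hl2 := h.l2
  have hl3 := h.l3
  -- frame data
  have ewv : r - p - (q - p) = r - q := by ring
  have epr : ‖p - r‖ = ‖r - p‖ := norm_sub_rev p r
  have hcr : cr (q - p) (r - p) = cr (q - p) (r - q) := by
    unfold cr; simp only [sub_re, sub_im]; ring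
  obtain ⟨him, hcos⟩ := C06.main (v1 := q - p) (w := r - p) (Z := z - p) (R := R) hl1
    (by rw [← epr]; exact hl3) (by rw [ewv]; exact hl2) (by rw [hcr]; exact h.ccw)
    (by rw [ewv, hcr, ← epr]; exact h.rad)
    (by rw [sub_re, abs_le]; constructor <;> linarith [hp.1, hp.2, hq.1, hq.2])
    (by rw [sub_re]; linarith [hp.1])
    (by rw [ewv, sub_re]; linarith [hq.1])
    (by rw [sub_re]; linarith [hp.1]) hR h1
    (by rw [show z - p - (q - p) = z - q by ring]; exact h2)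
    (by rw [show z - p - (r - p) = z - r by ring]; exact h3)
  rw [ewv, ← epr] at hcos
  have hv1 : q - p ≠ 0 := by
    intro h0; rw [h0, norm_zero] at hl1; linarith
  have hv2 : r - q ≠ 0 := by
    intro h0; rw [h0, norm_zero] at hl2; linarith
  have hv3 : r - p ≠ 0 := by
    intro h0; rw [epr, h0, norm_zero] at hl3; linarith
  obtain ⟨sp, sq, hsp, hsq, hu3, hu2⟩ := C06.dirs hv1 hv3 (by rw [ewv]; exact hv2)
  rw [ewv, ← epr] at hsp hsq hu3 hu2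
  set e : ℂ := (q - p) / (‖q - p‖ : ℂ) with he_def
  have hn1 : (0 : ℝ) < ‖q - p‖ := by linarith
  have he : ‖e‖ = 1 := by
    rw [he_def, norm_div, norm_real, norm_norm, div_self hn1.ne']
  have here : |e.re| ≤ 3 / 500 := by
    rw [he_def, div_ofReal_re, abs_div, abs_of_pos hn1, div_le_iff₀ hn1, sub_re]
    have : |q.re - p.re| ≤ 3 / 500 := by
      rw [abs_le]; constructor <;> linarith [hp.1, hp.2, hq.1, hq.2]
    linarith
  have heim : 0 < e.im := by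
    rw [he_def, div_ofReal_im]; exact div_pos him hn1
  have he6 := C06.e6_near he here heim
  have hXp : XX (p - r) = XX (r - p) := by
    rw [show p - r = -(r - p) by ring, XX_neg]
  set y : ℝ := -Real.cos (2 * β) with hy_def
  have hyb : -(1 / 2) ≤ y ∧ y ≤ 1 / 2 := by
    have c1 : Real.cos (2 * β) ≤ 1 / 2 := by
      rw [← Real.cos_pi_div_three]
      apply Real.cos_le_cos_of_nonneg_of_le_pi (by positivity) (by linarith [Real.pi_pos]) (by linarith)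
    have c2 : -(1 / 2) ≤ Real.cos (2 * β) := by
      have : Real.cos (2 * (Real.pi / 3)) = -(1 / 2) := by
        rw [Real.cos_two_mul, Real.cos_pi_div_three]; norm_num
      rw [← this]
      apply Real.cos_le_cos_of_nonneg_of_le_pi (by linarith [Real.pi_pos]) (by linarith [Real.pi_pos]) (by linarith)
    rw [hy_def]; constructor <;> linarith
  have hsin : Real.sin (2 * β) = Real.sqrt (1 - y ^ 2) := by
    have h4 : Real.sin (2 * β) ^ 2 = 1 - y ^ 2 := by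
      have := Real.sin_sq_add_cos_sq (2 * β)
      rw [hy_def]; linarith
    rw [← h4, Real.sqrt_sq]
    apply Real.sin_nonneg_of_nonneg_of_le_pi (by linarith [Real.pi_pos]) (by linarith [Real.pi_pos])
  have hexge := ex_ge hDom hyb.1 hyb.2
  rw [hsin] at hex
  rw [← hex] at hexge
  obtain ⟨ha1, hab, h2by, hrad⟩ := hDom
  set d : ℝ := Real.sqrt (rr a b y) with hd_def
  have hrr1 : 1 ≤ rr a b y := C06.v2_rr1 ha1 hab h2by
  have hd2 : d ^ 2 = a ^ 2 + b ^ 2 - 2 * a * b * y := by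
    rw [hd_def, Real.sq_sqrt (by linarith)]; rfl
  have hd0 : 0 < d := Real.sqrt_pos.mpr (by linarith)
  by_cases hfin : penT ‖q - p‖ ‖r - q‖ ‖p - r‖ = 7 / 625 ∧ 17 / 1000 ≤ exv (q - p) (r - q)
  · right; exact hfin
  left
  -- regions
  have hreg : (b ≤ 23 / 20 ∧ 439 / 1000 ≤ y) ∨ (b ≤ 119 / 100 ∧ y ≤ -(97 / 250)) :=
    C06.v2_reg ha1 hab hyb hexge hpen hfin
  have hperm := C06.three_of_sum hsum
  rcases hreg with ⟨hb, hy⟩ | ⟨hb, hy⟩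
  · -- region I
    have hI := C06.cosI ha1 hab h2by hy hyb.2 hd0 hd2
    have hyC : ((a ^ 2 + b ^ 2 - d ^ 2) / (2 * a * b)) = y := by
      have ha0 : 0 < a := by linarith
      have hb0 : 0 < b := by linarith
      rw [hd2]; field_simp; ring
    have hdlt : d < 3 / 2 := C06.v2_dlt ha1 hab hb hy hd2
    have halt : a < 3 / 2 := by linarith
    have hblt : b < 3 / 2 := by linarith
    have hyy : 3 / 20 ≤ y ^ 2 ∧ y ^ 2 ≤ 189 / 500 := C06.v2_yy1 hy hyb.2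
    have hX1 : XX (q - p) = 0 := by
      have hlt : ‖q - p‖ < 3 / 2 := by
        rcases hperm with h | h | h | h | h | h <;> rw [h.1] <;> assumption
      unfold XX
      rw [if_pos hlt]
      apply Xi_zero
      · exact u6_norm hv1
      · show ‖e ^ 6 + 1‖ ≤ 1
        linarith
    refine ⟨hX1, ?_, ?_⟩
    · apply C06.XX_short (x := (‖q - p‖ ^ 2 + ‖r - q‖ ^ 2 - ‖p - r‖ ^ 2) / (2 * ‖q - p‖ * ‖r - q‖))
        (s := sq) (e := e) _ hsq he he6 hu2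
      · rcases hperm with h | h | h | h | h | h
        · rw [h.1, h.2.1, h.2.2, hyC]; exact hyy.1
        · rw [h.1, h.2.1, h.2.2]; exact hI.1.1
        · rw [h.1, h.2.1, h.2.2]
          rw [show (b ^ 2 + a ^ 2 - d ^ 2) / (2 * b * a) = (a ^ 2 + b ^ 2 - d ^ 2) / (2 * a * b) by
            rw [show 2 * b * a = 2 * a * b by ring, show b ^ 2 + a ^ 2 - d ^ 2 = a ^ 2 + b ^ 2 - d ^ 2 by ring],
            hyC]
          exact hyy.1
        · rw [h.1, h.2.1, h.2.2]; exact hI.2.1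
        · rw [h.1, h.2.1, h.2.2]
          rw [show (d ^ 2 + a ^ 2 - b ^ 2) / (2 * d * a) = (a ^ 2 + d ^ 2 - b ^ 2) / (2 * a * d) by
            rw [show 2 * d * a = 2 * a * d by ring, show d ^ 2 + a ^ 2 - b ^ 2 = a ^ 2 + d ^ 2 - b ^ 2 by ring]]
          exact hI.1.1
        · rw [h.1, h.2.1, h.2.2]
          rw [show (d ^ 2 + b ^ 2 - a ^ 2) / (2 * d * b) = (b ^ 2 + d ^ 2 - a ^ 2) / (2 * b * d) by
            rw [show 2 * d * b = 2 * b * d by ring, show d ^ 2 + b ^ 2 - a ^ 2 = b ^ 2 + d ^ 2 - a ^ 2 by ring]]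
          exact hI.2.1
      · rcases hperm with h | h | h | h | h | h
        · rw [h.1, h.2.1, h.2.2, hyC]; exact hyy.2
        · rw [h.1, h.2.1, h.2.2]; exact hI.1.2
        · rw [h.1, h.2.1, h.2.2]
          rw [show (b ^ 2 + a ^ 2 - d ^ 2) / (2 * b * a) = (a ^ 2 + b ^ 2 - d ^ 2) / (2 * a * b) by
            rw [show 2 * b * a = 2 * a * b by ring, show b ^ 2 + a ^ 2 - d ^ 2 = a ^ 2 + b ^ 2 - d ^ 2 by ring],
            hyC]
          exact hyy.2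
        · rw [h.1, h.2.1, h.2.2]; exact hI.2.2
        · rw [h.1, h.2.1, h.2.2]
          rw [show (d ^ 2 + a ^ 2 - b ^ 2) / (2 * d * a) = (a ^ 2 + d ^ 2 - b ^ 2) / (2 * a * d) by
            rw [show 2 * d * a = 2 * a * d by ring, show d ^ 2 + a ^ 2 - b ^ 2 = a ^ 2 + d ^ 2 - b ^ 2 by ring]]
          exact hI.1.2
        · rw [h.1, h.2.1, h.2.2]
          rw [show (d ^ 2 + b ^ 2 - a ^ 2) / (2 * d * b) = (b ^ 2 + d ^ 2 - a ^ 2) / (2 * b * d) by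
            rw [show 2 * d * b = 2 * b * d by ring, show d ^ 2 + b ^ 2 - a ^ 2 = b ^ 2 + d ^ 2 - a ^ 2 by ring]]
          exact hI.2.2
      · rcases hperm with h | h | h | h | h | h <;> rw [h.2.1] <;> assumption
    · rw [hXp]
      apply C06.XX_short (x := (‖q - p‖ ^ 2 + ‖p - r‖ ^ 2 - ‖r - q‖ ^ 2) / (2 * ‖q - p‖ * ‖p - r‖))
        (s := sp) (e := e) _ hsp he he6 hu3
      · rcases hperm with h | h | h | h | h | h
        · rw [h.1, h.2.1, h.2.2]; exact hI.1.1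
        · rw [h.1, h.2.1, h.2.2, hyC]; exact hyy.1
        · rw [h.1, h.2.1, h.2.2]; exact hI.2.1
        · rw [h.1, h.2.1, h.2.2]
          rw [show (b ^ 2 + a ^ 2 - d ^ 2) / (2 * b * a) = (a ^ 2 + b ^ 2 - d ^ 2) / (2 * a * b) by
            rw [show 2 * b * a = 2 * a * b by ring, show b ^ 2 + a ^ 2 - d ^ 2 = a ^ 2 + b ^ 2 - d ^ 2 by ring],
            hyC]
          exact hyy.1
        · rw [h.1, h.2.1, h.2.2]
          rw [show (d ^ 2 + b ^ 2 - a ^ 2) / (2 * d * b) = (b ^ 2 + d ^ 2 - a ^ 2) / (2 * b * d) by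
            rw [show 2 * d * b = 2 * b * d by ring, show d ^ 2 + b ^ 2 - a ^ 2 = b ^ 2 + d ^ 2 - a ^ 2 by ring]]
          exact hI.2.1
        · rw [h.1, h.2.1, h.2.2]
          rw [show (d ^ 2 + a ^ 2 - b ^ 2) / (2 * d * a) = (a ^ 2 + d ^ 2 - b ^ 2) / (2 * a * d) by
            rw [show 2 * d * a = 2 * a * d by ring, show d ^ 2 + a ^ 2 - b ^ 2 = a ^ 2 + d ^ 2 - b ^ 2 by ring]]
          exact hI.1.1
      · rcases hperm with h | h | h | h | h | h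
        · rw [h.1, h.2.1, h.2.2]; exact hI.1.2
        · rw [h.1, h.2.1, h.2.2, hyC]; exact hyy.2
        · rw [h.1, h.2.1, h.2.2]; exact hI.2.2
        · rw [h.1, h.2.1, h.2.2]
          rw [show (b ^ 2 + a ^ 2 - d ^ 2) / (2 * b * a) = (a ^ 2 + b ^ 2 - d ^ 2) / (2 * a * b) by
            rw [show 2 * b * a = 2 * a * b by ring, show b ^ 2 + a ^ 2 - d ^ 2 = a ^ 2 + b ^ 2 - d ^ 2 by ring],
            hyC]
          exact hyy.2
        · rw [h.1, h.2.1, h.2.2]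
          rw [show (d ^ 2 + b ^ 2 - a ^ 2) / (2 * d * b) = (b ^ 2 + d ^ 2 - a ^ 2) / (2 * b * d) by
            rw [show 2 * d * b = 2 * b * d by ring, show d ^ 2 + b ^ 2 - a ^ 2 = b ^ 2 + d ^ 2 - a ^ 2 by ring]]
          exact hI.2.2
        · rw [h.1, h.2.1, h.2.2]
          rw [show (d ^ 2 + a ^ 2 - b ^ 2) / (2 * d * a) = (a ^ 2 + d ^ 2 - b ^ 2) / (2 * a * d) by
            rw [show 2 * d * a = 2 * a * d by ring, show d ^ 2 + a ^ 2 - b ^ 2 = a ^ 2 + d ^ 2 - b ^ 2 by ring]]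
          exact hI.1.2
      · rw [← epr]
        rcases hperm with h | h | h | h | h | h <;> rw [h.2.2] <;> assumption
  · -- region II
    have ha' : a ≤ 119 / 100 := hab.trans hb
    have hb1 : 1 ≤ b := ha1.trans hab
    have ha0 : 0 < a := by linarith
    have hb0 : 0 < b := by linarith
    have hyC : ((a ^ 2 + b ^ 2 - d ^ 2) / (2 * a * b)) = y := by
      rw [hd2]; field_simp; ring
    have hdgt : 3 / 2 ≤ d := C06.v2_dgt ha1 hb1 hy hd0 hd2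
    have halt : a < 3 / 2 := by linarith
    have hblt : b < 3 / 2 := by linarith
    have hyy : 3 / 20 ≤ y ^ 2 ∧ y ^ 2 ≤ 189 / 500 := C06.v2_yy2 hy hyb.1
    -- the first side is not the longest
    have hno := C06.v2_no (d := d) hy
    have hX1 : ‖q - p‖ < 3 / 2 → XX (q - p) = 0 := by
      intro hlt
      unfold XX
      rw [if_pos hlt]
      apply Xi_zero
      · exact u6_norm hv1
      · show ‖e ^ 6 + 1‖ ≤ 1
        linarith
    have hd2' : d ^ 2 = b ^ 2 + a ^ 2 - 2 * b * a * y := by rw [hd2]; ring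
    have cII1 := C06.cosII ha1 ha' hb1 hb hyb.1 hy hd0 hd2
    have cII2 := C06.cosII hb1 hb ha1 ha' hyb.1 hy hd0 hd2'
    have hyC' : ((b ^ 2 + a ^ 2 - d ^ 2) / (2 * b * a)) = y := by
      rw [hd2]; field_simp; ring
    have key : ∀ u v : ℝ, u < 3 / 2 → v < 3 / 2 →
        ((u ^ 2 + v ^ 2 - d ^ 2) / (2 * u * v)) = y →
        |4 * ((u ^ 2 + d ^ 2 - v ^ 2) / (2 * u * d)) ^ 2 - 3| ≤ 47 / 100 →
        (‖q - p‖ = u ∧ ‖r - q‖ = v ∧ ‖p - r‖ = d) ∨ (‖q - p‖ = u ∧ ‖r - q‖ = d ∧ ‖p - r‖ = v) →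
        XX (q - p) = 0 ∧ XX (r - q) = 0 ∧ XX (p - r) = 0 := by
      intro u v hu hv huy huc hcase
      rcases hcase with h | h
      · refine ⟨hX1 (by rw [h.1]; exact hu), ?_, ?_⟩
        · apply C06.XX_short
            (x := (‖q - p‖ ^ 2 + ‖r - q‖ ^ 2 - ‖p - r‖ ^ 2) / (2 * ‖q - p‖ * ‖r - q‖))
            (s := sq) (e := e) (by rw [h.2.1]; exact hv) hsq he he6 hu2
          · rw [h.1, h.2.1, h.2.2, huy]; exact hyy.1
          · rw [h.1, h.2.1, h.2.2, huy]; exact hyy.2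
        · rw [hXp]
          apply C06.XX_long
            (x := (‖q - p‖ ^ 2 + ‖p - r‖ ^ 2 - ‖r - q‖ ^ 2) / (2 * ‖q - p‖ * ‖p - r‖))
            (s := sp) (e := e) (by rw [← epr, h.2.2]; exact hdgt) hsp he he6 hu3
          rw [h.1, h.2.1, h.2.2]; exact huc
      · refine ⟨hX1 (by rw [h.1]; exact hu), ?_, ?_⟩
        · apply C06.XX_long
            (x := (‖q - p‖ ^ 2 + ‖r - q‖ ^ 2 - ‖p - r‖ ^ 2) / (2 * ‖q - p‖ * ‖r - q‖))
            (s := sq) (e := e) (by rw [h.2.1]; exact hdgt) hsq he he6 hu2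
          rw [h.1, h.2.1, h.2.2]; exact huc
        · rw [hXp]
          apply C06.XX_short
            (x := (‖q - p‖ ^ 2 + ‖p - r‖ ^ 2 - ‖r - q‖ ^ 2) / (2 * ‖q - p‖ * ‖p - r‖))
            (s := sp) (e := e) (by rw [← epr, h.2.2]; exact hv) hsp he he6 hu3
          · rw [h.1, h.2.1, h.2.2, huy]; exact hyy.1
          · rw [h.1, h.2.1, h.2.2, huy]; exact hyy.2
    rcases hperm with h | h | h | h | h | h
    · exact key a b halt hblt hyC cII1 (Or.inl h)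
    · exact key a b halt hblt hyC cII1 (Or.inr h)
    · exact key b a hblt halt hyC' cII2 (Or.inl h)
    · exact key b a hblt halt hyC' cII2 (Or.inr h)
    · exfalso
      rw [h.1, h.2.1, h.2.2] at hcos
      exact hno a b ha1 hb1 hd2 hcos
    · exfalso
      rw [h.1, h.2.1, h.2.2] at hcos
      exact hno b a hb1 ha1 hd2' hcos

/-- three vertices cannot be that close to the line -/
theorem vertex_three {p q r : ℂ} (h : AdmTri (q - p) (r - q) (p - r))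
    (hp : -(3 / 500) ≤ p.re ∧ p.re ≤ 0) (hq : -(3 / 500) ≤ q.re ∧ q.re ≤ 0) : r.re < -(3 / 500) ∨ 0 < r.re := by
  by_contra hcon
  push Not at hcon
  obtain ⟨hr1, hr2⟩ := hcon
  have h1 := h.l1
  have h2 := h.l2
  have h3 := h.l3
  have hr := h.rad
  have b1 : |(q - p).im| ≤ ‖q - p‖ := abs_im_le_norm _
  have b2 : |(r - q).im| ≤ ‖r - q‖ := abs_im_le_norm _
  have c1 : |(q - p).re| ≤ 3 / 500 := by
    rw [sub_re, abs_le]; constructor <;> linarith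
  have c2 : |(r - q).re| ≤ 3 / 500 := by
    rw [sub_re, abs_le]; constructor <;> linarith
  have hcr : cr (q - p) (r - q) ≤ 3 / 500 * (‖q - p‖ + ‖r - q‖) := by
    unfold cr
    have d1 : (q - p).re * (r - q).im ≤ 3 / 500 * ‖r - q‖ := by
      calc (q - p).re * (r - q).im ≤ |(q - p).re * (r - q).im| := le_abs_self _
        _ = |(q - p).re| * |(r - q).im| := abs_mul _ _
        _ ≤ 3 / 500 * ‖r - q‖ := mul_le_mul c1 b2 (abs_nonneg _) (by norm_num)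
    have d2 : -((q - p).im * (r - q).re) ≤ 3 / 500 * ‖q - p‖ := by
      calc -((q - p).im * (r - q).re) ≤ |(q - p).im * (r - q).re| := neg_le_abs _
        _ = |(q - p).im| * |(r - q).re| := abs_mul _ _
        _ ≤ ‖q - p‖ * (3 / 500) := mul_le_mul b1 c2 (abs_nonneg _) (norm_nonneg _)
        _ = 3 / 500 * ‖q - p‖ := by ring
    linarith
  have e1 : ‖q - p‖ * ‖r - q‖ ≤ ‖q - p‖ * ‖r - q‖ * ‖p - r‖ := by
    have : 0 ≤ ‖q - p‖ * ‖r - q‖ := by positivity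
    nlinarith
  nlinarith

end Pool.Agent.LG
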