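import Pool.Agent.Lib.MP_8026b0_co.G11
import Pool.Agent.Lib.MP_8026b0_co.C05
import Pool.Agent.Lib.MP_8026b0_co.C06

set_option autoImplicit false

/-! Row C07: the vertex part on a triangle. -/

namespace Pool.Agent.LG

open Complex

namespace C07

theorem one_case {f Φ δ X T E : ℝ} (hδ : 0 ≤ δ) (hf : 0 ≤ f) (hf1 : f ≤ Φ + δ) (hX : X ≤ T)
    (hT : 0 ≤ T) (hTE : T ≤ E) : f * X ≤ Φ * T + 5 / 2 * δ * E := by
  have h1 : f * X ≤ f * T := mul_le_mul_of_nonneg_left hX hf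
  have h2 : f * T ≤ (Φ + δ) * T := mul_le_mul_of_nonneg_right hf1 hT
  have h3 : δ * T ≤ δ * E := mul_le_mul_of_nonneg_left hTE hδ
  have h4 : 0 ≤ δ * E := mul_nonneg hδ (le_trans hT hTE)
  nlinarith

theorem two_case {f g Φ δ X1 X2 X3 T E : ℝ} (hδ : 0 ≤ δ) (hf : 0 ≤ f) (hf1 : f ≤ Φ + δ)
    (hfg : |f - g| ≤ δ) (hΦ : 0 ≤ Φ) (hT : 0 ≤ T) (hE : 0 ≤ E)
    (b1 : |X1| ≤ 7 / 1250) (b2 : |X2| ≤ 7 / 1250) (b3 : |X3| ≤ 7 / 1250)
    (h : (X1 = 0 ∧ X2 = 0 ∧ X3 = 0) ∨ (T = 7 / 625 ∧ 17 / 1000 ≤ E)) :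
    f * (X3 - X1) + g * (X1 - X2) ≤ Φ * T + 5 / 2 * δ * E := by
  rcases h with ⟨rfl, rfl, rfl⟩ | ⟨rfl, h2⟩
  · have h3 : 0 ≤ Φ * T := mul_nonneg hΦ hT
    have h4 : 0 ≤ δ * E := mul_nonneg hδ hE
    nlinarith
  · have e1 : f * (X3 - X1) + g * (X1 - X2) = f * (X3 - X2) + (g - f) * (X1 - X2) := by ring
    rw [e1]
    have b1' := abs_le.1 b1
    have b2' := abs_le.1 b2
    have b3' := abs_le.1 b3
    have h3 : f * (X3 - X2) ≤ f * (7 / 625) := by
      apply mul_le_mul_of_nonneg_left _ hf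
      linarith [b2'.1, b3'.2]
    have h4 : f * (7 / 625) ≤ (Φ + δ) * (7 / 625) :=
      mul_le_mul_of_nonneg_right hf1 (by norm_num)
    have h5 : (g - f) * (X1 - X2) ≤ δ * (7 / 625) := by
      calc (g - f) * (X1 - X2) ≤ |(g - f) * (X1 - X2)| := le_abs_self _
        _ = |g - f| * |X1 - X2| := abs_mul _ _
        _ ≤ δ * (7 / 625) := by
            apply mul_le_mul _ _ (abs_nonneg _) hδ
            · rw [abs_sub_comm]
              exact hfg
            · rw [abs_le]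
              constructor
              · linarith [b1'.1, b2'.2]
              · linarith [b1'.2, b2'.1]
    have h6 : δ * (17 / 1000) ≤ δ * E := mul_le_mul_of_nonneg_left h2 hδ
    nlinarith

theorem comb {a1 a2 a3 : Prop} {w1 w2 w3 f1 f2 f3 X1 X2 X3 T E Φ δ : ℝ} (hδ : 0 ≤ δ)
    (h1 : w1 = 0 ∨ (a1 ∧ w1 = f1)) (h2 : w2 = 0 ∨ (a2 ∧ w2 = f2)) (h3 : w3 = 0 ∨ (a3 ∧ w3 = f3))
    (p1 : 0 ≤ f1) (p2 : 0 ≤ f2) (p3 : 0 ≤ f3)
    (q1 : f1 ≤ Φ + δ) (q2 : f2 ≤ Φ + δ) (q3 : f3 ≤ Φ + δ)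
    (d12 : |f1 - f2| ≤ δ) (d23 : |f2 - f3| ≤ δ) (d31 : |f3 - f1| ≤ δ)
    (b1 : |X1| ≤ 7 / 1250) (b2 : |X2| ≤ 7 / 1250) (b3 : |X3| ≤ 7 / 1250)
    (hT : 0 ≤ T) (hTE : T ≤ E) (hΦ : 0 ≤ Φ)
    (o1 : X3 - X1 ≤ T) (o2 : X1 - X2 ≤ T) (o3 : X2 - X3 ≤ T)
    (t12 : a1 → a2 → (X1 = 0 ∧ X2 = 0 ∧ X3 = 0) ∨ (T = 7 / 625 ∧ 17 / 1000 ≤ E))
    (t23 : a2 → a3 → (X2 = 0 ∧ X3 = 0 ∧ X1 = 0) ∨ (T = 7 / 625 ∧ 17 / 1000 ≤ E))
    (t31 : a3 → a1 → (X3 = 0 ∧ X1 = 0 ∧ X2 = 0) ∨ (T = 7 / 625 ∧ 17 / 1000 ≤ E))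
    (t123 : a1 → a2 → a3 → False) :
    w1 * (X3 - X1) + w2 * (X1 - X2) + w3 * (X2 - X3) ≤ Φ * T + 5 / 2 * δ * E := by
  have hE : 0 ≤ E := le_trans hT hTE
  have h0 : 0 ≤ Φ * T + 5 / 2 * δ * E := by positivity
  rcases h1 with rfl | ⟨ha1, rfl⟩
  · rcases h2 with rfl | ⟨ha2, rfl⟩
    · rcases h3 with rfl | ⟨ha3, rfl⟩
      · simpa using h0
      · have := one_case hδ p3 q3 o3 hT hTE
        linarith
    · rcases h3 with rfl | ⟨ha3, rfl⟩
      · have := one_case hδ p2 q2 o2 hT hTE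
        linarith
      · have := two_case hδ p2 q2 d23 hΦ hT hE b2 b3 b1 (t23 ha2 ha3)
        linarith
  · rcases h2 with rfl | ⟨ha2, rfl⟩
    · rcases h3 with rfl | ⟨ha3, rfl⟩
      · have := one_case hδ p1 q1 o1 hT hTE
        linarith
      · have := two_case hδ p3 q3 d31 hΦ hT hE b3 b1 b2 (t31 ha3 ha1)
        linarith
    · rcases h3 with rfl | ⟨ha3, rfl⟩
      · have := two_case hδ p1 q1 d12 hΦ hT hE b1 b2 b3 (t12 ha1 ha2)
        linarith
      · exact absurd (t123 ha1 ha2 ha3) id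

theorem cr_rot {v1 v2 v3 : ℂ} (h : v1 + v2 + v3 = 0) : cr v2 v3 = cr v1 v2 := by
  have h3 : v3 = -v1 - v2 := by linear_combination h
  rw [h3]
  simp only [cr, Complex.sub_re, Complex.sub_im, Complex.neg_re, Complex.neg_im]
  ring

theorem adm_rot {v1 v2 v3 : ℂ} (h : AdmTri v1 v2 v3) : AdmTri v2 v3 v1 where
  sum := by linear_combination h.sum
  l1 := h.l2
  l2 := h.l3
  l3 := h.l1
  ccw := by
    rw [cr_rot h.sum]
    exact h.ccw
  rad := by
    rw [cr_rot h.sum]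
    calc ‖v2‖ * ‖v3‖ * ‖v1‖ = ‖v1‖ * ‖v2‖ * ‖v3‖ := by ring
      _ ≤ _ := h.rad

theorem cr_mul {e v w : ℂ} (he : ‖e‖ = 1) : cr (e * v) (e * w) = cr v w := by
  have h : e.re * e.re + e.im * e.im = 1 := by
    have := Complex.normSq_eq_norm_sq e
    rw [he, Complex.normSq_apply] at this
    linarith
  simp only [cr, Complex.mul_re, Complex.mul_im]
  linear_combination (v.re * w.im - v.im * w.re) * h

theorem adm_mul {v1 v2 v3 e : ℂ} (he : ‖e‖ = 1) (h : AdmTri v1 v2 v3) :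
    AdmTri (e * v1) (e * v2) (e * v3) where
  sum := by linear_combination e * h.sum
  l1 := by
    rw [norm_mul, he, one_mul]
    exact h.l1
  l2 := by
    rw [norm_mul, he, one_mul]
    exact h.l2
  l3 := by
    rw [norm_mul, he, one_mul]
    exact h.l3
  ccw := by
    rw [cr_mul he]
    exact h.ccw
  rad := by
    rw [cr_mul he, norm_mul, norm_mul, norm_mul, he, one_mul, one_mul, one_mul]
    exact h.rad

theorem penT_rot (l1 l2 l3 : ℝ) : penT l2 l3 l1 = penT l1 l2 l3 := by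
  have h1 : min l2 (min l3 l1) = min l1 (min l2 l3) := by
    rw [← min_assoc, min_comm]
  have h2 : max l2 (max l3 l1) = max l1 (max l2 l3) := by
    rw [← max_assoc, max_comm]
  have h3 : l2 + l3 + l1 = l1 + l2 + l3 := by ring
  unfold penT
  rw [h1, h2, h3]

theorem exv_rot {v1 v2 v3 : ℂ} (h : v1 + v2 + v3 = 0) : exv v2 v3 = exv v1 v2 := by
  unfold exv
  rw [cr_rot h]

theorem frame_re (A B : ℝ) (k : Fin 4) (z : ℂ) :
    ((starRingEnd ℂ) (nv k) * z - ((cv A B k : ℝ) : ℂ)).re = - dw A B k z := by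
  simp only [dw, ip, Complex.sub_re, Complex.mul_re, Complex.conj_re, Complex.conj_im,
    Complex.ofReal_re]
  ring

theorem nv_norm (k : Fin 4) : ‖(starRingEnd ℂ) (nv k)‖ = 1 := by
  rw [Complex.norm_conj]
  fin_cases k <;> simp [nv]

theorem dw_nonneg {A B : ℝ} {z : ℂ} (hz : z ∈ Box A B) (k : Fin 4) : 0 ≤ dw A B k z := by
  obtain ⟨h1, h2, h3, h4⟩ := hz
  fin_cases k
  · simp [dw, cv, nv, ip]
    exact h2
  · simp [dw, cv, nv, ip]
    exact h4
  · simp [dw, cv, nv, ip]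
    exact h1
  · simp [dw, cv, nv, ip]
    exact h3

theorem two_wall {A B R : ℝ} (k : Fin 4) {x1 x2 x3 z : ℂ}
    (h : AdmTri (x2 - x1) (x3 - x2) (x1 - x3)) (m1 : x1 ∈ Box A B) (m2 : x2 ∈ Box A B)
    (m3 : x3 ∈ Box A B) (mz : z ∈ Box A B) (hR : R ≤ 1) (r1 : ‖z - x1‖ = R) (r2 : ‖z - x2‖ = R)
    (r3 : ‖z - x3‖ = R) (n1 : dw A B k x1 < 3 / 500) (n2 : dw A B k x2 < 3 / 500) :
    (XX ((starRingEnd ℂ) (nv k) * (x2 - x1)) = 0 ∧ XX ((starRingEnd ℂ) (nv k) * (x3 - x2)) = 0 ∧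
        XX ((starRingEnd ℂ) (nv k) * (x1 - x3)) = 0) ∨
      (penT ‖x2 - x1‖ ‖x3 - x2‖ ‖x1 - x3‖ = 7 / 625 ∧
        17 / 1000 ≤ exv (x2 - x1) (x3 - x2)) := by
  set e : ℂ := (starRingEnd ℂ) (nv k) with he
  have hn : ‖e‖ = 1 := nv_norm k
  have hv : ∀ x y : ℂ, (e * x - ((cv A B k : ℝ) : ℂ)) - (e * y - ((cv A B k : ℝ) : ℂ)) =
      e * (x - y) := by
    intro x y
    ring
  have hnn : ∀ x y : ℂ, ‖e * (x - y)‖ = ‖x - y‖ := by
    intro x y
    rw [norm_mul, hn, one_mul]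
  have h0 := vertex_two (p := e * x1 - ((cv A B k : ℝ) : ℂ)) (q := e * x2 - ((cv A B k : ℝ) : ℂ))
    (r := e * x3 - ((cv A B k : ℝ) : ℂ)) (z := e * z - ((cv A B k : ℝ) : ℂ)) (R := R)
  rw [hv, hv, hv, hv, hv, hv, hnn, hnn, hnn, hnn, hnn, hnn, he, frame_re, frame_re, frame_re,
    frame_re, ← he] at h0
  have h1 := h0 (adm_mul hn h) ⟨by linarith, by linarith [dw_nonneg m1 k]⟩
    ⟨by linarith, by linarith [dw_nonneg m2 k]⟩ (by linarith [dw_nonneg m3 k])
    (by linarith [dw_nonneg mz k]) hR r1 r2 r3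
  rcases h1 with h1 | ⟨h1, h2⟩
  · exact Or.inl h1
  · right
    refine ⟨h1, ?_⟩
    unfold exv at h2 ⊢
    rw [cr_mul hn] at h2
    exact h2

theorem three_wall {A B : ℝ} (k : Fin 4) {x1 x2 x3 : ℂ}
    (h : AdmTri (x2 - x1) (x3 - x2) (x1 - x3)) (m1 : x1 ∈ Box A B) (m2 : x2 ∈ Box A B)
    (m3 : x3 ∈ Box A B) (n1 : dw A B k x1 < 3 / 500) (n2 : dw A B k x2 < 3 / 500)
    (n3 : dw A B k x3 < 3 / 500) : False := by
  set e : ℂ := (starRingEnd ℂ) (nv k) with he
  have hn : ‖e‖ = 1 := nv_norm k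
  have hv : ∀ x y : ℂ, (e * x - ((cv A B k : ℝ) : ℂ)) - (e * y - ((cv A B k : ℝ) : ℂ)) =
      e * (x - y) := by
    intro x y
    ring
  have h0 := vertex_three (p := e * x1 - ((cv A B k : ℝ) : ℂ))
    (q := e * x2 - ((cv A B k : ℝ) : ℂ)) (r := e * x3 - ((cv A B k : ℝ) : ℂ))
  rw [hv, hv, hv, he, frame_re, frame_re, frame_re, ← he] at h0
  have h1 := h0 (adm_mul hn h) ⟨by linarith, by linarith [dw_nonneg m1 k]⟩
    ⟨by linarith, by linarith [dw_nonneg m2 k]⟩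
  rcases h1 with h1 | h1
  · linarith
  · linarith [dw_nonneg m3 k]

/-- two points at distance less than 2 near opposite vertical walls -/
theorem opp_R {A B : ℝ} (hA : 80 ≤ A) {x y : ℂ} (h : ‖x - y‖ < 2) (h1 : dw A B 0 x < 3 / 500)
    (h2 : dw A B 2 y < 3 / 500) : False := by
  simp [dw, cv, nv, ip] at h1 h2
  have h3 := Complex.abs_re_le_norm (x - y)
  have h4 := (abs_le.1 (le_trans h3 h.le)).2
  rw [Complex.sub_re] at h4
  linarith

theorem opp_T {A B : ℝ} (hB : 80 ≤ B) {x y : ℂ} (h : ‖x - y‖ < 2) (h1 : dw A B 1 x < 3 / 500)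
    (h2 : dw A B 3 y < 3 / 500) : False := by
  simp [dw, cv, nv, ip] at h1 h2
  have h3 := Complex.abs_im_le_norm (x - y)
  have h4 := (abs_le.1 (le_trans h3 h.le)).2
  rw [Complex.sub_im] at h4
  linarith

theorem norm_lt_three {w : ℂ} (h1 : |w.re| < 3 / 500) (h2 : |w.im| < 2 + 3 / 500) : ‖w‖ < 3 := by
  have := Complex.norm_le_abs_re_add_abs_im w
  linarith

theorem re_near {x y : ℂ} (h : ‖x - y‖ < 2) : x.im - y.im < 2 ∧ y.im - x.im < 2 := by
  have h3 := Complex.abs_im_le_norm (x - y)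
  have h4 := abs_lt.1 (lt_of_le_of_lt h3 h)
  rw [Complex.sub_im] at h4
  constructor
  · linarith [h4.2]
  · linarith [h4.1]

/-- a vertex in contact with a vertical wall and one in contact with a horizontal wall -/
theorem mixed {A B : ℝ} {x y : ℂ} (mx : x ∈ Box A B) (my : y ∈ Box A B) (h : ‖x - y‖ < 2)
    (h1 : (dw A B 0 x < 3 / 500 ∨ dw A B 2 x < 3 / 500) ∧ Far A B x)
    (h2 : (dw A B 1 y < 3 / 500 ∨ dw A B 3 y < 3 / 500)) : False := by
  obtain ⟨m1, m2, m3, m4⟩ := mx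
  obtain ⟨k1, k2, k3, k4⟩ := my
  obtain ⟨h1, hfar⟩ := h1
  obtain ⟨g1, g2⟩ := re_near h
  have f0 := hfar 0
  have f1 := hfar 1
  have f2 := hfar 2
  have f3 := hfar 3
  simp [dw, cv, nv, ip] at h1 h2
  simp [cor] at f0 f1 f2 f3
  rcases h1 with h1 | h1
  · rcases h2 with h2 | h2
    · have := norm_lt_three (w := x - ((A : ℂ) + (B : ℂ) * I))
        (by simp; rw [abs_lt]; constructor <;> linarith)
        (by simp; rw [abs_lt]; constructor <;> linarith)
      linarith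
    · have := norm_lt_three (w := x - (A : ℂ))
        (by simp; rw [abs_lt]; constructor <;> linarith)
        (by simp; rw [abs_lt]; constructor <;> linarith)
      linarith
  · rcases h2 with h2 | h2
    · have := norm_lt_three (w := x - ((B : ℂ) * I))
        (by simp; rw [abs_lt]; constructor <;> linarith)
        (by simp; rw [abs_lt]; constructor <;> linarith)
      linarith
    · have := norm_lt_three (w := x)
        (by rw [abs_lt]; constructor <;> linarith)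
        (by rw [abs_lt]; constructor <;> linarith)
      linarith

end C07

/-- a Delaunay triple is admissible -/
theorem adm_of_Tr {A B : ℝ} {P : Finset ℂ} (h : Gen A B P) {p q r : ℂ}
    (ht : (p, q, r) ∈ Tr A B P) : AdmTri (q - p) (r - q) (p - r) := by
  obtain ⟨h1, h2, h3, h4, z, -, R, hR, z1, z2, z3⟩ := Tr_facts h ht
  have hcr : cr (q - p) (r - q) = cr (q - p) (r - p) := by
    simp only [cr, Complex.sub_re, Complex.sub_im]
    ring
  have hR0 : 0 ≤ R := by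
    rw [← z1]
    exact norm_nonneg _
  have nsq : ∀ v : ℂ, ‖v‖ ^ 2 = v.re * v.re + v.im * v.im := by
    intro v
    rw [← Complex.normSq_eq_norm_sq, Complex.normSq_apply]
  refine ⟨by ring, h1, h2, h3, by rw [hcr]; exact h4, ?_⟩
  have e1 : (‖q - p‖ * ‖r - q‖ * ‖p - r‖) ^ 2 = (2 * R * cr (q - p) (r - q)) ^ 2 := by
    have a1 := nsq (z - p)
    have a2 := nsq (z - q)
    have a3 := nsq (z - r)
    rw [z1] at a1
    rw [z2] at a2
    rw [z3] at a3
    rw [mul_pow, mul_pow, nsq, nsq, nsq, mul_pow, mul_pow]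
    simp only [cr, Complex.sub_re, Complex.sub_im] at a1 a2 a3 ⊢
    -- Cramer
    set zx := z.re - p.re with hzx
    set zy := z.im - p.im with hzy
    set ux := q.re - p.re with hux
    set uy := q.im - p.im with huy
    have s1 : z.re - q.re = zx - ux := by rw [hzx, hux]; ring
    have s2 : z.im - q.im = zy - uy := by rw [hzy, huy]; ring
    have s3 : z.re - r.re = zx - (r.re - p.re) := by rw [hzx]; ring
    have s4 : z.im - r.im = zy - (r.im - p.im) := by rw [hzy]; ring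
    have s5 : r.re - q.re = (r.re - p.re) - ux := by rw [hux]; ring
    have s6 : r.im - q.im = (r.im - p.im) - uy := by rw [huy]; ring
    have s7 : p.re - r.re = -(r.re - p.re) := by ring
    have s8 : p.im - r.im = -(r.im - p.im) := by ring
    rw [s1, s2] at a2
    rw [s3, s4] at a3
    rw [s5, s6, s7, s8]
    set wx := r.re - p.re with hwx
    set wy := r.im - p.im with hwy
    have c1 : 2 * (zx * ux + zy * uy) = ux * ux + uy * uy := by linarith
    have c2 : 2 * (zx * wx + zy * wy) = wx * wx + wy * wy := by linarith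
    have c3 : 2 * (ux * wy - uy * wx) * zx =
        (ux * ux + uy * uy) * wy - (wx * wx + wy * wy) * uy := by
      rw [← c1, ← c2]
      ring
    have c4 : 2 * (ux * wy - uy * wx) * zy =
        (wx * wx + wy * wy) * ux - (ux * ux + uy * uy) * wx := by
      rw [← c1, ← c2]
      ring
    have c5 : ux * (wy - uy) - uy * (wx - ux) = ux * wy - uy * wx := by ring
    rw [c5, a1]
    have c6 : 2 ^ 2 * (zx * zx + zy * zy) * (ux * wy - uy * wx) ^ 2 =
        (2 * (ux * wy - uy * wx) * zx) ^ 2 + (2 * (ux * wy - uy * wx) * zy) ^ 2 := by ring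
    rw [c6, c3, c4]
    ring
  have e2 : ‖q - p‖ * ‖r - q‖ * ‖p - r‖ = 2 * R * cr (q - p) (r - q) := by
    have hc0 : 0 ≤ cr (q - p) (r - q) := by
      rw [hcr]
      exact h4.le
    exact (pow_left_inj₀ (by positivity) (by positivity) (by norm_num)).1 e1
  rw [e2]
  have hc0 : 0 ≤ cr (q - p) (r - q) := by
    rw [hcr]
    exact h4.le
  nlinarith

theorem GV_tri : ∃ K : ℝ, 0 ≤ K ∧ ∀ (A B ρ : ℝ) (ψ : ℂ → ℝ) (F : ℂ → ℂ) (P : Finset ℂ),
    Gen A B P → IsFld A B ρ ψ F → 10 ≤ ρ → ∀ p q r : ℂ, (p, q, r) ∈ Tr A B P →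
    GV A B F p q + GV A B F q r + GV A B F r p
      ≤ ‖F p‖ * penT ‖q - p‖ ‖r - q‖ ‖p - r‖ + K / ρ * exv (q - p) (r - q) := by
  refine ⟨200, by norm_num, ?_⟩
  intro A B ρ ψ F P hG hF hρ p q r ht
  have adm := adm_of_Tr hG ht
  have adm2 := C07.adm_rot adm
  have adm3 := C07.adm_rot adm2
  obtain ⟨l1, l2, l3, -, z, mz, R, hR, z1, z2, z3⟩ := Tr_facts hG ht
  obtain ⟨⟨pP, qP, rP⟩, -, -⟩ := mem_Tr.1 ht
  have mp := hG.sub _ pP
  have mq := hG.sub _ qP
  have mr := hG.sub _ rP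
  simp only at mp mq mr
  have hρ0 : 0 < ρ := by linarith
  have hA : 80 ≤ A := by linarith [hF.hA]
  have hB : 80 ≤ B := by linarith [hF.hB]
  -- distances
  have dist : ∀ x y : ℂ, ‖z - x‖ = R → ‖z - y‖ = R → ‖x - y‖ < 2 := by
    intro x y hx hy
    have : x - y = (z - y) - (z - x) := by ring
    rw [this]
    calc ‖(z - y) - (z - x)‖ ≤ ‖z - y‖ + ‖z - x‖ := norm_sub_le _ _
      _ < 2 := by rw [hx, hy]; linarith
  set δ : ℝ := 80 / ρ with hδd
  have hδ : 0 ≤ δ := by positivity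
  have lip : ∀ x y : ℂ, x ∈ Box A B → y ∈ Box A B → ‖x - y‖ < 2 → ‖F x - F y‖ ≤ δ := by
    intro x y hx hy hxy
    calc ‖F x - F y‖ ≤ 40 / ρ * ‖x - y‖ := hF.lip y hy x hx
      _ ≤ 40 / ρ * 2 := mul_le_mul_of_nonneg_left hxy.le (by positivity)
      _ = δ := by rw [hδd]; ring
  have nle : ∀ x : ℂ, x ∈ Box A B → ‖x - p‖ < 2 → ‖F x‖ ≤ ‖F p‖ + δ := by
    intro x hx hxy
    have h1 := lip x p hx mp hxy
    have : F x = F p + (F x - F p) := by ring
    calc ‖F x‖ = ‖F p + (F x - F p)‖ := by rw [← this]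
      _ ≤ ‖F p‖ + ‖F x - F p‖ := norm_add_le _ _
      _ ≤ _ := by linarith
  have dpp : ‖p - p‖ < 2 := by simp
  have reb : ∀ x : ℂ, x ∈ Box A B → ‖x - p‖ < 2 → |(F x).re| ≤ ‖F p‖ + δ := fun x hx hxy =>
    le_trans (Complex.abs_re_le_norm _) (nle x hx hxy)
  have imb : ∀ x : ℂ, x ∈ Box A B → ‖x - p‖ < 2 → |(F x).im| ≤ ‖F p‖ + δ := fun x hx hxy =>
    le_trans (Complex.abs_im_le_norm _) (nle x hx hxy)
  have red : ∀ x y : ℂ, x ∈ Box A B → y ∈ Box A B → ‖x - y‖ < 2 →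
      |(|(F x).re|) - (|(F y).re|)| ≤ δ := by
    intro x y hx hy hxy
    calc |(|(F x).re|) - (|(F y).re|)| ≤ |(F x).re - (F y).re| := abs_abs_sub_abs_le_abs_sub _ _
      _ = |(F x - F y).re| := by rw [Complex.sub_re]
      _ ≤ ‖F x - F y‖ := Complex.abs_re_le_norm _
      _ ≤ δ := lip x y hx hy hxy
  have imd : ∀ x y : ℂ, x ∈ Box A B → y ∈ Box A B → ‖x - y‖ < 2 →
      |(|(F x).im|) - (|(F y).im|)| ≤ δ := by
    intro x y hx hy hxy
    calc |(|(F x).im|) - (|(F y).im|)| ≤ |(F x).im - (F y).im| := abs_abs_sub_abs_le_abs_sub _ _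
      _ = |(F x - F y).im| := by rw [Complex.sub_im]
      _ ≤ ‖F x - F y‖ := Complex.abs_im_le_norm _
      _ ≤ δ := lip x y hx hy hxy
  -- penalties
  set T : ℝ := penT ‖q - p‖ ‖r - q‖ ‖p - r‖ with hTd
  set E : ℝ := exv (q - p) (r - q) with hEd
  have hT0 : 0 ≤ T := penT_nonneg adm
  have hTE : T ≤ E := by
    have h1 := tri_vec adm
    have hcc : 0 ≤ cc := by
      unfold cc
      have : Real.sqrt 3 ≤ 2 := by
        rw [Real.sqrt_le_left (by norm_num)]
        norm_num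
      linarith
    have h2 : 0 ≤ cc * (‖Psi5 (q - p) + Psi5 (r - q) + Psi5 (p - r)‖ +
        ‖Psi7 (q - p) + Psi7 (r - q) + Psi7 (p - r)‖) := by positivity
    have h3 : T ≤ 98 / 100 * E := by linarith
    linarith
  have hT2 : penT ‖r - q‖ ‖p - r‖ ‖q - p‖ = T := C07.penT_rot _ _ _
  have hT3 : penT ‖p - r‖ ‖q - p‖ ‖r - q‖ = T := by
    rw [C07.penT_rot, hT2]
  have hE2 : exv (r - q) (p - r) = E := C07.exv_rot adm.sum
  have hE3 : exv (p - r) (q - p) = E := by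
    rw [C07.exv_rot adm2.sum, hE2]
  have v1 : q - p ≠ 0 := by
    intro h0
    rw [h0, norm_zero] at l1
    linarith
  have v2 : r - q ≠ 0 := by
    intro h0
    rw [h0, norm_zero] at l2
    linarith
  have v3 : p - r ≠ 0 := by
    intro h0
    rw [h0, norm_zero] at l3
    linarith
  have hI : ∀ v : ℂ, v ≠ 0 → -I * v ≠ 0 := fun v hv => mul_ne_zero (neg_ne_zero.2 Complex.I_ne_zero) hv
  have hK : 200 / ρ * E = 5 / 2 * δ * E := by
    rw [hδd]
    ring
  rw [hK]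
  have hsum : GV A B F p q + GV A B F q r + GV A B F r p =
      (wR A B F p * (XX (p - r) - XX (q - p)) + wR A B F q * (XX (q - p) - XX (r - q)) +
        wR A B F r * (XX (r - q) - XX (p - r))) +
      (wT A B F p * (XX (-I * (p - r)) - XX (-I * (q - p))) +
        wT A B F q * (XX (-I * (q - p)) - XX (-I * (r - q))) +
        wT A B F r * (XX (-I * (r - q)) - XX (-I * (p - r)))) := by
    unfold GV
    ring
  rw [hsum]
  -- the weights
  have wRc : ∀ x : ℂ, wR A B F x = 0 ∨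
      (((dw A B 0 x < 3 / 500 ∨ dw A B 2 x < 3 / 500) ∧ Far A B x) ∧
        wR A B F x = |(F x).re|) := by
    intro x
    by_cases hx : (dw A B 0 x < 3 / 500 ∨ dw A B 2 x < 3 / 500) ∧ Far A B x
    · right
      refine ⟨hx, ?_⟩
      unfold wR
      rw [if_pos hx]
    · left
      unfold wR
      rw [if_neg hx]
  have wTc : ∀ x : ℂ, wT A B F x = 0 ∨
      (((dw A B 1 x < 3 / 500 ∨ dw A B 3 x < 3 / 500) ∧ Far A B x) ∧
        wT A B F x = |(F x).im|) := by
    intro x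
    by_cases hx : (dw A B 1 x < 3 / 500 ∨ dw A B 3 x < 3 / 500) ∧ Far A B x
    · right
      refine ⟨hx, ?_⟩
      unfold wT
      rw [if_pos hx]
    · left
      unfold wT
      rw [if_neg hx]
  have dpq := dist p q z1 z2
  have dqp := dist q p z2 z1
  have dqr := dist q r z2 z3
  have drq := dist r q z3 z2
  have drp := dist r p z3 z1
  have dpr := dist p r z1 z3
  -- two contacts, vertical walls
  have twoR : ∀ x1 x2 x3 : ℂ, x1 ∈ Box A B → x2 ∈ Box A B → x3 ∈ Box A B →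
      ‖z - x1‖ = R → ‖z - x2‖ = R → ‖z - x3‖ = R → AdmTri (x2 - x1) (x3 - x2) (x1 - x3) →
      ((dw A B 0 x1 < 3 / 500 ∨ dw A B 2 x1 < 3 / 500) ∧ Far A B x1) →
      ((dw A B 0 x2 < 3 / 500 ∨ dw A B 2 x2 < 3 / 500) ∧ Far A B x2) →
      (XX (x2 - x1) = 0 ∧ XX (x3 - x2) = 0 ∧ XX (x1 - x3) = 0) ∨
      (penT ‖x2 - x1‖ ‖x3 - x2‖ ‖x1 - x3‖ = 7 / 625 ∧ 17 / 1000 ≤ exv (x2 - x1) (x3 - x2)) := by
    intro x1 x2 x3 b1 b2 b3 r1 r2 r3 hadm c1 c2
    rcases c1.1 with c1' | c1'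
    · rcases c2.1 with c2' | c2'
      · have := C07.two_wall 0 hadm b1 b2 b3 mz hR.le r1 r2 r3 c1' c2'
        simpa [nv] using this
      · exact absurd (C07.opp_R hA (dist x1 x2 r1 r2) c1' c2') id
    · rcases c2.1 with c2' | c2'
      · exact absurd (C07.opp_R hA (dist x2 x1 r2 r1) c2' c1') id
      · have := C07.two_wall 2 hadm b1 b2 b3 mz hR.le r1 r2 r3 c1' c2'
        have e0 : (starRingEnd ℂ) (nv 2) = -1 := by simp [nv]
        rw [e0] at this
        simp only [neg_mul, one_mul, XX_neg] at this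
        exact this
  have twoT : ∀ x1 x2 x3 : ℂ, x1 ∈ Box A B → x2 ∈ Box A B → x3 ∈ Box A B →
      ‖z - x1‖ = R → ‖z - x2‖ = R → ‖z - x3‖ = R → AdmTri (x2 - x1) (x3 - x2) (x1 - x3) →
      ((dw A B 1 x1 < 3 / 500 ∨ dw A B 3 x1 < 3 / 500) ∧ Far A B x1) →
      ((dw A B 1 x2 < 3 / 500 ∨ dw A B 3 x2 < 3 / 500) ∧ Far A B x2) →
      (XX (-I * (x2 - x1)) = 0 ∧ XX (-I * (x3 - x2)) = 0 ∧ XX (-I * (x1 - x3)) = 0) ∨
      (penT ‖x2 - x1‖ ‖x3 - x2‖ ‖x1 - x3‖ = 7 / 625 ∧ 17 / 1000 ≤ exv (x2 - x1) (x3 - x2)) := by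
    intro x1 x2 x3 b1 b2 b3 r1 r2 r3 hadm c1 c2
    rcases c1.1 with c1' | c1'
    · rcases c2.1 with c2' | c2'
      · have := C07.two_wall 1 hadm b1 b2 b3 mz hR.le r1 r2 r3 c1' c2'
        have e0 : (starRingEnd ℂ) (nv 1) = -I := by simp [nv]
        rw [e0] at this
        exact this
      · exact absurd (C07.opp_T hB (dist x1 x2 r1 r2) c1' c2') id
    · rcases c2.1 with c2' | c2'
      · exact absurd (C07.opp_T hB (dist x2 x1 r2 r1) c2' c1') id
      · have := C07.two_wall 3 hadm b1 b2 b3 mz hR.le r1 r2 r3 c1' c2'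
        have e0 : (starRingEnd ℂ) (nv 3) = I := by simp [nv]
        rw [e0] at this
        simp only [neg_mul, XX_neg]
        exact this
  by_cases hR3 : ((dw A B 0 p < 3 / 500 ∨ dw A B 2 p < 3 / 500) ∧ Far A B p) ∨
      ((dw A B 0 q < 3 / 500 ∨ dw A B 2 q < 3 / 500) ∧ Far A B q) ∨
      ((dw A B 0 r < 3 / 500 ∨ dw A B 2 r < 3 / 500) ∧ Far A B r)
  · -- contact with a vertical wall: all the horizontal weights vanish
    have key : ∀ x y : ℂ, x ∈ Box A B → y ∈ Box A B → ‖x - y‖ < 2 →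
        ((dw A B 0 x < 3 / 500 ∨ dw A B 2 x < 3 / 500) ∧ Far A B x) → wT A B F y = 0 := by
      intro x y hx hy hxy hc
      rcases wTc y with h | ⟨⟨h, -⟩, -⟩
      · exact h
      · exact absurd (C07.mixed hx hy hxy hc h) id
    have k0 : wT A B F p = 0 ∧ wT A B F q = 0 ∧ wT A B F r = 0 := by
      rcases hR3 with h | h | h
      · exact ⟨key p p mp mp (by simp) h, key p q mp mq dpq h, key p r mp mr dpr h⟩
      · exact ⟨key q p mq mp dqp h, key q q mq mq (by simp) h, key q r mq mr dqr h⟩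
      · exact ⟨key r p mr mp drp h, key r q mr mq drq h, key r r mr mr (by simp) h⟩
    rw [k0.1, k0.2.1, k0.2.2]
    have hcomb := C07.comb (Φ := ‖F p‖) (E := E) (T := T) hδ (wRc p) (wRc q) (wRc r)
      (abs_nonneg _) (abs_nonneg _) (abs_nonneg _) (reb p mp dpp) (reb q mq dqp) (reb r mr drp)
      (red p q mp mq dpq) (red q r mq mr dqr) (red r p mr mp drp)
      (XX_bound v1) (XX_bound v2) (XX_bound v3) hT0 hTE (norm_nonneg _)
      (vertex_one adm) (by rw [← hT2]; exact vertex_one adm2) (by rw [← hT3]; exact vertex_one adm3)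
      (fun c1 c2 => twoR p q r mp mq mr z1 z2 z3 adm c1 c2)
      (fun c1 c2 => by
        have := twoR q r p mq mr mp z2 z3 z1 adm2 c1 c2
        rw [hT2, hE2] at this
        exact this)
      (fun c1 c2 => by
        have := twoR r p q mr mp mq z3 z1 z2 adm3 c1 c2
        rw [hT3, hE3] at this
        exact this)
      (fun c1 c2 c3 => by
        rcases c1.1 with c1' | c1'
        · rcases c2.1 with c2' | c2'
          · rcases c3.1 with c3' | c3'
            · exact C07.three_wall 0 adm mp mq mr c1' c2' c3'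
            · exact C07.opp_R hA dpr c1' c3'
          · exact C07.opp_R hA dpq c1' c2'
        · rcases c2.1 with c2' | c2'
          · exact C07.opp_R hA dqp c2' c1'
          · rcases c3.1 with c3' | c3'
            · exact C07.opp_R hA drp c3' c1'
            · exact C07.three_wall 2 adm mp mq mr c1' c2' c3')
    linarith
  · push Not at hR3
    have k0 : wR A B F p = 0 ∧ wR A B F q = 0 ∧ wR A B F r = 0 := by
      obtain ⟨g1, g2, g3⟩ := hR3
      refine ⟨?_, ?_, ?_⟩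
      · rcases wRc p with h | ⟨⟨h, h'⟩, -⟩
        · exact h
        · exact absurd h' (g1 h)
      · rcases wRc q with h | ⟨⟨h, h'⟩, -⟩
        · exact h
        · exact absurd h' (g2 h)
      · rcases wRc r with h | ⟨⟨h, h'⟩, -⟩
        · exact h
        · exact absurd h' (g3 h)
    rw [k0.1, k0.2.1, k0.2.2]
    have hcomb := C07.comb (Φ := ‖F p‖) (E := E) (T := T) hδ (wTc p) (wTc q) (wTc r)
      (abs_nonneg _) (abs_nonneg _) (abs_nonneg _) (imb p mp dpp) (imb q mq dqp) (imb r mr drp)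
      (imd p q mp mq dpq) (imd q r mq mr dqr) (imd r p mr mp drp)
      (XX_bound (hI _ v1)) (XX_bound (hI _ v2)) (XX_bound (hI _ v3)) hT0 hTE (norm_nonneg _)
      (vertex_one' adm) (by rw [← hT2]; exact vertex_one' adm2)
      (by rw [← hT3]; exact vertex_one' adm3)
      (fun c1 c2 => twoT p q r mp mq mr z1 z2 z3 adm c1 c2)
      (fun c1 c2 => by
        have := twoT q r p mq mr mp z2 z3 z1 adm2 c1 c2
        rw [hT2, hE2] at this
        exact this)
      (fun c1 c2 => by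
        have := twoT r p q mr mp mq z3 z1 z2 adm3 c1 c2
        rw [hT3, hE3] at this
        exact this)
      (fun c1 c2 c3 => by
        rcases c1.1 with c1' | c1'
        · rcases c2.1 with c2' | c2'
          · rcases c3.1 with c3' | c3'
            · exact C07.three_wall 1 adm mp mq mr c1' c2' c3'
            · exact C07.opp_T hB dpr c1' c3'
          · exact C07.opp_T hB dpq c1' c2'
        · rcases c2.1 with c2' | c2'
          · exact C07.opp_T hB dqp c2' c1'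
          · rcases c3.1 with c3' | c3'
            · exact C07.opp_T hB drp c3' c1'
            · exact C07.three_wall 3 adm mp mq mr c1' c2' c3')
    linarith

end Pool.Agent.LG
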