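import Pool.Agent.Lib.MP_8026b0_co.CDef

set_option autoImplicit false

/-! Row C08: the main part on a triangle. -/

namespace Pool.Agent.LG

open Complex

namespace C08

theorem normSq_coe (v : ℂ) : ((normSq v : ℝ) : ℂ) = v * starRingEnd ℂ v := by
  rw [Complex.mul_conj]

theorem norm_sq_coe (v : ℂ) : ((‖v‖ : ℝ) : ℂ) ^ 2 = v * starRingEnd ℂ v := by
  rw [Complex.mul_conj, Complex.normSq_eq_norm_sq]
  push_cast
  rfl

theorem u6_eq (v : ℂ) : u6 v = v ^ 6 / (v * starRingEnd ℂ v) ^ 3 := by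
  unfold u6
  rw [div_pow, ← norm_sq_coe]
  congr 1
  ring

theorem u6_re_im (v : ℂ) : ((u6 v).re : ℂ) + ((u6 v).im : ℂ) * I = u6 v := Complex.re_add_im _

theorem u6_conj (v : ℂ) : ((u6 v).re : ℂ) - ((u6 v).im : ℂ) * I = starRingEnd ℂ (u6 v) := by
  apply Complex.ext <;> simp

theorem abs_ip_le (a b : ℂ) : |ip a b| ≤ ‖a‖ * ‖b‖ := by
  have h : ip a b = (starRingEnd ℂ a * b).re := by
    simp [ip, Complex.mul_re]
  rw [h]
  calc |(starRingEnd ℂ a * b).re| ≤ ‖starRingEnd ℂ a * b‖ := Complex.abs_re_le_norm _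
    _ = ‖a‖ * ‖b‖ := by rw [norm_mul, Complex.norm_conj]

theorem ip_sub_left (a b c : ℂ) : ip (a - b) c = ip a c - ip b c := by
  simp [ip]; ring

theorem ip_add_right (a b c : ℂ) : ip a (b + c) = ip a b + ip a c := by
  simp [ip]; ring

theorem ip_smul_right (a b : ℂ) (t : ℝ) : ip a ((t : ℂ) * b) = t * ip a b := by
  simp [ip]; ring

theorem cr_le (a b : ℂ) : cr a b ≤ ‖a‖ * ‖b‖ := by
  have h : cr a b = (starRingEnd ℂ a * b).im := by
    simp [cr, Complex.mul_im]; ring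
  rw [h]
  calc (starRingEnd ℂ a * b).im ≤ |(starRingEnd ℂ a * b).im| := le_abs_self _
    _ ≤ ‖starRingEnd ℂ a * b‖ := Complex.abs_im_le_norm _
    _ = ‖a‖ * ‖b‖ := by rw [norm_mul, Complex.norm_conj]

end C08

open C08

/-- the vector form of the calibration -/
theorem Gam_eq {v : ℂ} (hv : v ≠ 0) :
    (hh v : ℂ) * (-I * v) + (kk v : ℂ) * v
      = (cc / 2 : ℝ) * (-I * v) + (cc : ℂ) * (-I * Psi7 v + I * starRingEnd ℂ (Psi5 v)) := by
  have hv' : starRingEnd ℂ v ≠ 0 := by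
    simpa using hv
  have e1 : Psi7 v = (B7 (normSq v) : ℂ) * (v * u6 v) := by
    unfold Psi7
    rw [u6_eq]
    push_cast
    rw [normSq_coe]
    field_simp
  have e2 : starRingEnd ℂ (Psi5 v) = (B5 (normSq v) : ℂ) * (v * starRingEnd ℂ (u6 v)) := by
    unfold Psi5
    rw [u6_eq]
    simp only [map_mul, map_pow, map_div₀, Complex.conj_ofReal, Complex.conj_conj]
    push_cast
    rw [normSq_coe]
    field_simp
  have e3 : starRingEnd ℂ (u6 v) = ((u6 v).re : ℂ) - ((u6 v).im : ℂ) * I := (u6_conj v).symm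
  have e4 : u6 v = ((u6 v).re : ℂ) + ((u6 v).im : ℂ) * I := (u6_re_im v).symm
  rw [e1, e2, e3]
  have e5 : (B7 (normSq v) : ℂ) * (v * u6 v)
      = (B7 (normSq v) : ℂ) * (v * (((u6 v).re : ℂ) + ((u6 v).im : ℂ) * I)) := by
    rw [← e4]
  rw [e5]
  unfold hh kk
  generalize (u6 v).re = x
  generalize (u6 v).im = y
  generalize B7 (normSq v) = b7
  generalize B5 (normSq v) = b5
  push_cast
  have hI : I ^ 2 = -1 := Complex.I_sq
  linear_combination ((b7 : ℂ) + b5) * cc * v * y * hI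

theorem GM_tri : ∃ K : ℝ, 0 ≤ K ∧ ∀ (A B ρ : ℝ) (ψ : ℂ → ℝ) (F : ℂ → ℂ),
    IsFld A B ρ ψ F → ∀ p q r : ℂ, p ∈ Box A B → q ∈ Box A B → r ∈ Box A B →
    AdmTri (q - p) (r - q) (p - r) →
    GM ψ F p q + GM ψ F q r + GM ψ F r p
      ≤ ‖F p‖ * (cc * (‖Psi5 (q - p) + Psi5 (r - q) + Psi5 (p - r)‖
          + ‖Psi7 (q - p) + Psi7 (r - q) + Psi7 (p - r)‖))
        + K / ρ * (|hh (r - q) - hh (q - p)| + |hh (p - r) - hh (q - p)|
            + |kk (q - p)| + |kk (r - q)| + |kk (p - r)|) := by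
  refine ⟨320, by norm_num, ?_⟩
  intro A B ρ ψ F hF p q r hp hq hr hT
  have hρ : 0 < ρ := lt_of_lt_of_le one_pos hF.hρ
  have hcr1 : cr (q - p) (r - q) = cr (r - q) (p - r) := by simp [cr]; ring
  have hcr2 : cr (q - p) (r - q) = cr (p - r) (q - p) := by simp [cr]; ring
  have hc : 0 < cr (q - p) (r - q) := hT.ccw
  have h1 : ‖q - p‖ ≤ 2 := by
    have h := C08.cr_le (r - q) (p - r)
    have h' := hT.rad
    have h2 := hT.l2
    have h3 := hT.l3
    have h4 : 0 < ‖r - q‖ * ‖p - r‖ := by positivity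
    nlinarith
  have h2 : ‖r - q‖ ≤ 2 := by
    have h := C08.cr_le (p - r) (q - p)
    have h' := hT.rad
    have h2 := hT.l1
    have h3 := hT.l3
    have h4 : 0 < ‖p - r‖ * ‖q - p‖ := by positivity
    nlinarith
  have h3 : ‖p - r‖ ≤ 2 := by
    have h := C08.cr_le (q - p) (r - q)
    have h' := hT.rad
    have h2 := hT.l1
    have h3 := hT.l2
    have h4 : 0 < ‖q - p‖ * ‖r - q‖ := by positivity
    nlinarith
  have hn1 := norm_nonneg (q - p)
  have hn2 := norm_nonneg (r - q)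
  have hn3 := norm_nonneg (p - r)
  have hε : 0 < 40 / ρ := by positivity
  -- field differences
  have hFq : ‖F q - F p‖ ≤ 40 / ρ * 2 :=
    (hF.lip p hp q hq).trans (mul_le_mul_of_nonneg_left h1 hε.le)
  have hFr : ‖F r - F p‖ ≤ 40 / ρ * 2 := by
    refine (hF.lip p hp r hr).trans (mul_le_mul_of_nonneg_left ?_ hε.le)
    rw [norm_sub_rev]; exact h3
  -- potential differences
  have t2 : |(ψ r - ψ q) - ip (F p) (-I * (r - q))| ≤ 320 / ρ := by
    have e1 := hF.tay q hq r hr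
    have e2 : |ip (F q - F p) (-I * (r - q))| ≤ 40 / ρ * 2 * 2 := by
      refine (C08.abs_ip_le _ _).trans ?_
      have : ‖-I * (r - q)‖ = ‖r - q‖ := by simp
      rw [this]
      exact mul_le_mul hFq h2 hn2 (by positivity)
    have e3 : (ψ r - ψ q) - ip (F p) (-I * (r - q))
        = (ψ r - ψ q - ip (F q) (-I * (r - q))) + ip (F q - F p) (-I * (r - q)) := by
      rw [C08.ip_sub_left]; ring
    rw [e3]
    refine (abs_add_le _ _).trans ?_
    have e4 : 40 / ρ * ‖r - q‖ ^ 2 ≤ 40 / ρ * 4 := by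
      apply mul_le_mul_of_nonneg_left _ hε.le
      nlinarith
    have e5 : 320 / ρ = 40 / ρ * 4 + 40 / ρ * 2 * 2 := by ring
    rw [e5]
    linarith
  have t3 : |(ψ p - ψ r) - ip (F p) (-I * (p - r))| ≤ 320 / ρ := by
    have e1 := hF.tay p hp r hr
    have e3 : (ψ p - ψ r) - ip (F p) (-I * (p - r))
        = -(ψ r - ψ p - ip (F p) (-I * (r - p))) := by
      simp [ip]; ring
    rw [e3, abs_neg]
    refine e1.trans ?_
    have e4 : 40 / ρ * ‖r - p‖ ^ 2 ≤ 40 / ρ * 4 := by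
      apply mul_le_mul_of_nonneg_left _ hε.le
      rw [norm_sub_rev]
      nlinarith
    have e5 : 320 / ρ = 40 / ρ * 4 + 40 / ρ * 4 := by ring
    rw [e5]
    have : 0 ≤ 40 / ρ * 4 := by positivity
    linarith
  -- kk parts
  have u1 : |(ip (F p) (q - p) + ip (F q) (q - p)) / 2 - ip (F p) (q - p)| ≤ 320 / ρ := by
    have e : (ip (F p) (q - p) + ip (F q) (q - p)) / 2 - ip (F p) (q - p)
        = ip (F q - F p) (q - p) / 2 := by
      rw [C08.ip_sub_left]; ring
    rw [e, abs_div, abs_two]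
    have e2 := (C08.abs_ip_le (F q - F p) (q - p)).trans
      (mul_le_mul hFq h1 hn1 (by positivity))
    have e5 : 320 / ρ = 2 * (40 / ρ * 2 * 2) := by ring
    rw [e5]
    have : 0 ≤ 40 / ρ * 2 * 2 := by positivity
    linarith [abs_nonneg (ip (F q - F p) (q - p))]
  have u2 : |(ip (F q) (r - q) + ip (F r) (r - q)) / 2 - ip (F p) (r - q)| ≤ 320 / ρ := by
    have e : (ip (F q) (r - q) + ip (F r) (r - q)) / 2 - ip (F p) (r - q)
        = ip (F q - F p) (r - q) / 2 + ip (F r - F p) (r - q) / 2 := by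
      rw [C08.ip_sub_left, C08.ip_sub_left]; ring
    rw [e]
    refine (abs_add_le _ _).trans ?_
    rw [abs_div, abs_div, abs_two]
    have e2 := (C08.abs_ip_le (F q - F p) (r - q)).trans
      (mul_le_mul hFq h2 hn2 (by positivity))
    have e3 := (C08.abs_ip_le (F r - F p) (r - q)).trans
      (mul_le_mul hFr h2 hn2 (by positivity))
    have e5 : 320 / ρ = 2 * (40 / ρ * 2 * 2) := by ring
    rw [e5]
    have : 0 ≤ 40 / ρ * 2 * 2 := by positivity
    linarith
  have u3 : |(ip (F r) (p - r) + ip (F p) (p - r)) / 2 - ip (F p) (p - r)| ≤ 320 / ρ := by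
    have e : (ip (F r) (p - r) + ip (F p) (p - r)) / 2 - ip (F p) (p - r)
        = ip (F r - F p) (p - r) / 2 := by
      rw [C08.ip_sub_left]; ring
    rw [e, abs_div, abs_two]
    have e2 := (C08.abs_ip_le (F r - F p) (p - r)).trans
      (mul_le_mul hFr h3 hn3 (by positivity))
    have e5 : 320 / ρ = 2 * (40 / ρ * 2 * 2) := by ring
    rw [e5]
    have : 0 ≤ 40 / ρ * 2 * 2 := by positivity
    linarith [abs_nonneg (ip (F r - F p) (p - r))]
  -- the vector identity
  have nz1 : q - p ≠ 0 := by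
    intro h; have := hT.l1; rw [h, norm_zero] at this; linarith
  have nz2 : r - q ≠ 0 := by
    intro h; have := hT.l2; rw [h, norm_zero] at this; linarith
  have nz3 : p - r ≠ 0 := by
    intro h; have := hT.l3; rw [h, norm_zero] at this; linarith
  set h_1 := hh (q - p) with hh1
  set h_2 := hh (r - q) with hh2
  set h_3 := hh (p - r) with hh3
  set k_1 := kk (q - p) with hk1
  set k_2 := kk (r - q) with hk2
  set k_3 := kk (p - r) with hk3
  set S5 := Psi5 (q - p) + Psi5 (r - q) + Psi5 (p - r) with hS5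
  set S7 := Psi7 (q - p) + Psi7 (r - q) + Psi7 (p - r) with hS7
  have vec : ((h_2 - h_1 : ℝ) : ℂ) * (-I * (r - q)) + ((h_3 - h_1 : ℝ) : ℂ) * (-I * (p - r))
      + (k_1 : ℂ) * (q - p) + (k_2 : ℂ) * (r - q) + (k_3 : ℂ) * (p - r)
      = (cc : ℂ) * (-I * S7 + I * starRingEnd ℂ S5) := by
    have g1 := Gam_eq nz1
    have g2 := Gam_eq nz2
    have g3 := Gam_eq nz3
    rw [hS5, hS7, map_add, map_add]
    push_cast at g1 g2 g3 ⊢
    linear_combination g1 + g2 + g3
  have main : (h_2 - h_1) * ip (F p) (-I * (r - q)) + (h_3 - h_1) * ip (F p) (-I * (p - r))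
      + k_1 * ip (F p) (q - p) + k_2 * ip (F p) (r - q) + k_3 * ip (F p) (p - r)
      ≤ ‖F p‖ * (cc * (‖S5‖ + ‖S7‖)) := by
    have e : (h_2 - h_1) * ip (F p) (-I * (r - q)) + (h_3 - h_1) * ip (F p) (-I * (p - r))
      + k_1 * ip (F p) (q - p) + k_2 * ip (F p) (r - q) + k_3 * ip (F p) (p - r)
      = ip (F p) ((cc : ℂ) * (-I * S7 + I * starRingEnd ℂ S5)) := by
      rw [← vec, C08.ip_add_right, C08.ip_add_right, C08.ip_add_right, C08.ip_add_right,
        C08.ip_smul_right, C08.ip_smul_right, C08.ip_smul_right, C08.ip_smul_right,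
        C08.ip_smul_right]
    rw [e]
    refine (le_abs_self _).trans ((C08.abs_ip_le _ _).trans ?_)
    apply mul_le_mul_of_nonneg_left _ (norm_nonneg _)
    rw [norm_mul, Complex.norm_real, Real.norm_eq_abs]
    have hcc : 0 ≤ cc := by
      unfold cc
      have : Real.sqrt 3 ≤ 3 := by
        rw [Real.sqrt_le_left (by norm_num)]; norm_num
      linarith
    rw [abs_of_nonneg hcc]
    apply mul_le_mul_of_nonneg_left _ hcc
    refine (norm_add_le _ _).trans ?_
    rw [norm_mul, norm_mul, norm_neg, Complex.norm_I, Complex.norm_conj]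
    linarith
  -- split
  have key : ∀ a b c : ℝ, |b - c| ≤ 320 / ρ → a * b ≤ a * c + 320 / ρ * |a| := by
    intro a b c hbc
    have e1 : a * b = a * c + a * (b - c) := by ring
    rw [e1]
    have e2 : a * (b - c) ≤ |a| * |b - c| := by
      rw [← abs_mul]; exact le_abs_self _
    have e3 : |a| * |b - c| ≤ |a| * (320 / ρ) := mul_le_mul_of_nonneg_left hbc (abs_nonneg _)
    linarith
  have w2 := key (h_2 - h_1) _ _ t2
  have w3 := key (h_3 - h_1) _ _ t3
  have x1 := key k_1 _ _ u1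
  have x2 := key k_2 _ _ u2
  have x3 := key k_3 _ _ u3
  have eq : GM ψ F p q + GM ψ F q r + GM ψ F r p
      = (h_2 - h_1) * (ψ r - ψ q) + (h_3 - h_1) * (ψ p - ψ r)
        + k_1 * ((ip (F p) (q - p) + ip (F q) (q - p)) / 2)
        + k_2 * ((ip (F q) (r - q) + ip (F r) (r - q)) / 2)
        + k_3 * ((ip (F r) (p - r) + ip (F p) (p - r)) / 2) := by
    unfold GM
    rw [← hh1, ← hh2, ← hh3, ← hk1, ← hk2, ← hk3]
    ring
  rw [eq]
  linarith

end Pool.Agent.LG
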