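import Pool.Agent.Lib.MP_8026b0_co.C03
import Pool.Agent.Lib.MP_8026b0_co.C07
import Pool.Agent.Lib.MP_8026b0_co.C08

set_option autoImplicit false

/-! Row C09: the calibration inequality on triangles. -/

namespace Pool.Agent.LG

open Complex

private theorem c09_ip_neg (z v : ℂ) : ip z (-v) = - ip z v := by
  unfold ip
  simp only [neg_re, neg_im]
  ring

theorem GG_antisymm (A B : ℝ) (ψ : ℂ → ℝ) (F : ℂ → ℂ) (p q : ℂ) :
    GG A B ψ F q p = - GG A B ψ F p q := by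
  have h1 : p - q = -(q - p) := by ring
  have h2 : -I * (p - q) = -(-I * (q - p)) := by ring
  unfold GG GM GV
  rw [h2, h1, hh_neg, kk_neg, XX_neg, XX_neg, c09_ip_neg, c09_ip_neg]
  ring

theorem tri_le : ∃ ρ0 : ℝ, 1 ≤ ρ0 ∧ ∀ (A B ρ : ℝ) (ψ : ℂ → ℝ) (F : ℂ → ℂ) (P : Finset ℂ),
    ρ0 ≤ ρ → Gen A B P → IsFld A B ρ ψ F → ∀ t ∈ Tr A B P,
    GG A B ψ F t.1 t.2.1 + GG A B ψ F t.2.1 t.2.2 + GG A B ψ F t.2.2 t.1 ≤ ex t := by
  obtain ⟨K1, hK1, h1⟩ := GM_tri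
  obtain ⟨K2, hK2, h2⟩ := GV_tri
  obtain ⟨K3, hK3, h3⟩ := dev_le
  have hK13 : 0 ≤ K1 * K3 := mul_nonneg hK1 hK3
  refine ⟨10 + 50 * (K1 * K3 + K2), by linarith, ?_⟩
  intro A B ρ ψ F P hρ hG hF t ht
  obtain ⟨p, q, r⟩ := t
  have hadm := adm_of_Tr hG ht
  have hP := (mem_Tr.mp ht).1
  simp only at hP ⊢
  obtain ⟨hp, hq, hr⟩ := hP
  have hρ10 : 10 ≤ ρ := by linarith
  have hρ0 : 0 < ρ := by linarith
  have hex : ex (p, q, r) = exv (q - p) (r - q) := by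
    unfold ex exv
    congr 2
    unfold cr
    simp only [sub_re, sub_im]
    ring
  rw [hex]
  have hM := h1 A B ρ ψ F hF p q r (hG.sub p hp) (hG.sub q hq) (hG.sub r hr) hadm
  have hV := h2 A B ρ ψ F P hG hF hρ10 p q r ht
  have hD := h3 _ _ _ hadm
  have hT := tri_vec hadm
  have hdel := del_le hadm
  set E := exv (q - p) (r - q) with hE
  have hE0 : 0 ≤ E := by
    have h4 : 0 ≤ ‖q - p‖ * |normSq (q - p) - 1| * |normSq (q - p) - 3| := by positivity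
    have h5 : 0 ≤ ‖r - q‖ * |normSq (r - q) - 1| * |normSq (r - q) - 3| := by positivity
    have h6 : 0 ≤ ‖p - r‖ * |normSq (p - r) - 1| * |normSq (p - r) - 3| := by positivity
    linarith
  have hFp := hF.bd p (hG.sub p hp)
  have hFp0 := norm_nonneg (F p)
  set X := cc * (‖Psi5 (q - p) + Psi5 (r - q) + Psi5 (p - r)‖
          + ‖Psi7 (q - p) + Psi7 (r - q) + Psi7 (p - r)‖) with hX
  set Y := penT ‖q - p‖ ‖r - q‖ ‖p - r‖ with hY
  set D := |hh (r - q) - hh (q - p)| + |hh (p - r) - hh (q - p)|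
            + |kk (q - p)| + |kk (r - q)| + |kk (p - r)| with hDd
  have hKρ : 0 ≤ K1 / ρ := by positivity
  have h4 : K1 / ρ * D ≤ K1 / ρ * (K3 * E) := mul_le_mul_of_nonneg_left hD hKρ
  have h5 : ‖F p‖ * (X + Y) ≤ 98 / 100 * E := by
    have h6 : ‖F p‖ * (X + Y) ≤ ‖F p‖ * (98 / 100 * E) := mul_le_mul_of_nonneg_left hT hFp0
    have h7 : ‖F p‖ * (98 / 100 * E) ≤ 1 * (98 / 100 * E) :=
      mul_le_mul_of_nonneg_right hFp (by positivity)
    linarith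
  have h6 : K1 / ρ * (K3 * E) + K2 / ρ * E ≤ 2 / 100 * E := by
    have h7 : K1 / ρ * (K3 * E) + K2 / ρ * E = (K1 * K3 + K2) / ρ * E := by ring
    rw [h7]
    apply mul_le_mul_of_nonneg_right _ hE0
    rw [div_le_iff₀ hρ0]
    linarith
  have h7 : GG A B ψ F p q + GG A B ψ F q r + GG A B ψ F r p =
      (GM ψ F p q + GM ψ F q r + GM ψ F r p) +
      (GV A B F p q + GV A B F q r + GV A B F r p) := by
    unfold GG
    ring
  rw [h7]
  nlinarith [hM, hV, h4, h5, h6]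

end Pool.Agent.LG
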