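import Pool.Agent.Lib.MP_8026b0_co.Basic

set_option autoImplicit false

/-! Row F01: the potential and the field. -/

namespace Pool.Agent.LG

open Complex

namespace F01

/-- regularised distance -/
noncomputable def N (ρ : ℝ) (w : ℂ) : ℝ := Real.sqrt (‖w‖ ^ 2 + ρ ^ 2)

/-- cut-off factor -/
noncomputable def sg (H ρ x : ℝ) : ℝ := (max 0 (H - x) - max 0 (H - ρ - x)) / ρ

/-- gradient of the radial potential -/
noncomputable def G (H ρ : ℝ) (w : ℂ) : ℂ := ((sg H ρ (N ρ w) / N ρ w : ℝ) : ℂ) * w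

/-- radial potential -/
noncomputable def T (H ρ : ℝ) (w : ℂ) : ℝ :=
  ((max 0 (H - ρ - N ρ w)) ^ 2 - (max 0 (H - N ρ w)) ^ 2) / (2 * ρ)

theorem N_sq (ρ : ℝ) (w : ℂ) : N ρ w ^ 2 = ‖w‖ ^ 2 + ρ ^ 2 :=
  Real.sq_sqrt (by positivity)

theorem N_nonneg (ρ : ℝ) (w : ℂ) : 0 ≤ N ρ w := Real.sqrt_nonneg _

theorem rho_le_N {ρ : ℝ} (w : ℂ) : ρ ≤ N ρ w :=
  Real.le_sqrt_of_sq_le (by nlinarith [sq_nonneg ‖w‖])

theorem norm_le_N (ρ : ℝ) (w : ℂ) : ‖w‖ ≤ N ρ w :=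
  Real.le_sqrt_of_sq_le (by nlinarith [sq_nonneg ρ])

theorem N_lip {ρ : ℝ} (hρ : 0 < ρ) (w w' : ℂ) : |N ρ w' - N ρ w| ≤ ‖w' - w‖ := by
  have h1 : (N ρ w' - N ρ w) * (N ρ w' + N ρ w) = (‖w'‖ - ‖w‖) * (‖w'‖ + ‖w‖) := by
    have e1 := N_sq ρ w
    have e2 := N_sq ρ w'
    nlinarith
  have h2 := norm_le_N ρ w
  have h3 := norm_le_N ρ w'
  have h4 : 0 < N ρ w' + N ρ w := by
    have := rho_le_N (ρ := ρ) w
    have := rho_le_N (ρ := ρ) w'
    linarith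
  have h5 : |N ρ w' - N ρ w| * (N ρ w' + N ρ w) ≤ ‖w' - w‖ * (N ρ w' + N ρ w) := by
    calc |N ρ w' - N ρ w| * (N ρ w' + N ρ w)
        = |(N ρ w' - N ρ w) * (N ρ w' + N ρ w)| := by rw [abs_mul, abs_of_pos h4]
      _ = |‖w'‖ - ‖w‖| * (‖w'‖ + ‖w‖) := by
          rw [h1, abs_mul, abs_of_nonneg (a := ‖w'‖ + ‖w‖) (by positivity)]
      _ ≤ ‖w' - w‖ * (N ρ w' + N ρ w) :=
          mul_le_mul (abs_norm_sub_norm_le _ _) (by linarith) (by positivity) (norm_nonneg _)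
  exact le_of_mul_le_mul_right h5 h4

theorem sg_nonneg {H ρ : ℝ} (hρ : 0 < ρ) (x : ℝ) : 0 ≤ sg H ρ x := by
  unfold sg
  apply div_nonneg _ hρ.le
  rw [sub_nonneg]
  exact max_le_max le_rfl (by linarith)

theorem sg_le_one {H ρ : ℝ} (hρ : 0 < ρ) (x : ℝ) : sg H ρ x ≤ 1 := by
  unfold sg
  rw [div_le_one hρ]
  have h1 : max 0 (H - x) ≤ max 0 (H - ρ - x) + ρ := by
    apply max_le
    · have := le_max_left 0 (H - ρ - x)
      linarith
    · have := le_max_right 0 (H - ρ - x)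
      linarith
  linarith

theorem sg_zero {H ρ x : ℝ} (hρ : 0 < ρ) (hx : H ≤ x) : sg H ρ x = 0 := by
  unfold sg
  rw [max_eq_left (by linarith), max_eq_left (by linarith)]
  simp

theorem max_lip (a b : ℝ) : |max 0 a - max 0 b| ≤ |a - b| := by
  have := abs_max_sub_max_le_abs a b 0
  rw [max_comm 0 a, max_comm 0 b]
  exact this

theorem sg_lip {H ρ : ℝ} (hρ : 0 < ρ) (x y : ℝ) : |sg H ρ x - sg H ρ y| ≤ 2 / ρ * |x - y| := by
  have h1 := max_lip (H - x) (H - y)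
  have h2 := max_lip (H - ρ - x) (H - ρ - y)
  have e1 : |(H - x) - (H - y)| = |x - y| := by
    rw [show (H - x) - (H - y) = -(x - y) by ring, abs_neg]
  have e2 : |(H - ρ - x) - (H - ρ - y)| = |x - y| := by
    rw [show (H - ρ - x) - (H - ρ - y) = -(x - y) by ring, abs_neg]
  rw [e1] at h1
  rw [e2] at h2
  unfold sg
  rw [← sub_div, abs_div, abs_of_pos hρ, div_mul_eq_mul_div]
  apply div_le_div_of_nonneg_right _ hρ.le
  have h3 := abs_sub (max 0 (H - x) - max 0 (H - y)) (max 0 (H - ρ - x) - max 0 (H - ρ - y))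
  have h4 : max 0 (H - x) - max 0 (H - ρ - x) - (max 0 (H - y) - max 0 (H - ρ - y)) =
      (max 0 (H - x) - max 0 (H - y)) - (max 0 (H - ρ - x) - max 0 (H - ρ - y)) := by ring
  rw [h4]
  linarith

theorem G_norm {H ρ : ℝ} (hρ : 0 < ρ) (w : ℂ) : ‖G H ρ w‖ = sg H ρ (N ρ w) / N ρ w * ‖w‖ := by
  unfold G
  rw [norm_mul, Complex.norm_real, Real.norm_eq_abs,
    abs_of_nonneg (div_nonneg (sg_nonneg hρ _) (N_nonneg _ _))]

theorem G_le_one {H ρ : ℝ} (hρ : 0 < ρ) (w : ℂ) : ‖G H ρ w‖ ≤ 1 := by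
  have hN : 0 < N ρ w := lt_of_lt_of_le hρ (rho_le_N w)
  rw [G_norm hρ, div_mul_eq_mul_div, div_le_one hN]
  calc sg H ρ (N ρ w) * ‖w‖ ≤ 1 * N ρ w :=
        mul_le_mul (sg_le_one hρ _) (norm_le_N _ _) (norm_nonneg _) zero_le_one
    _ = N ρ w := one_mul _

theorem G_le {H ρ : ℝ} (hρ : 0 < ρ) (w : ℂ) : ‖G H ρ w‖ ≤ ‖w‖ / ρ := by
  have hN : ρ ≤ N ρ w := rho_le_N w
  rw [G_norm hρ, div_mul_eq_mul_div]
  apply div_le_div₀ (norm_nonneg _) _ hρ hN
  calc sg H ρ (N ρ w) * ‖w‖ ≤ 1 * ‖w‖ := mul_le_mul_of_nonneg_right (sg_le_one hρ _) (norm_nonneg _)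
    _ = ‖w‖ := one_mul _

theorem G_zero {H ρ : ℝ} (hρ : 0 < ρ) {w : ℂ} (hw : H ≤ ‖w‖) : G H ρ w = 0 := by
  unfold G
  rw [sg_zero hρ (hw.trans (norm_le_N _ _))]
  simp

theorem T_zero {H ρ : ℝ} (hρ : 0 < ρ) {w : ℂ} (hw : H ≤ ‖w‖) : T H ρ w = 0 := by
  have h1 := hw.trans (norm_le_N ρ w)
  unfold T
  rw [max_eq_left (by linarith), max_eq_left (by linarith)]
  simp

theorem T_origin {H ρ : ℝ} (hρ : 0 < ρ) (hH : 4 * ρ ≤ H) : T H ρ 0 = -(H - 3 / 2 * ρ) := by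
  have h1 : N ρ 0 = ρ := by
    unfold N
    rw [norm_zero]
    rw [show (0 : ℝ) ^ 2 + ρ ^ 2 = ρ ^ 2 by ring]
    exact Real.sqrt_sq hρ.le
  unfold T
  rw [h1, max_eq_right (by linarith), max_eq_right (by linarith)]
  field_simp
  ring

theorem G_lip {H ρ : ℝ} (hρ : 0 < ρ) (w w' : ℂ) : ‖G H ρ w' - G H ρ w‖ ≤ 4 / ρ * ‖w' - w‖ := by
  have hN : 0 < N ρ w := lt_of_lt_of_le hρ (rho_le_N w)
  have hN' : 0 < N ρ w' := lt_of_lt_of_le hρ (rho_le_N w')
  set s := sg H ρ (N ρ w) with hs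
  set s' := sg H ρ (N ρ w') with hs'
  have h1 : |s' - s| ≤ 2 / ρ * ‖w' - w‖ := by
    refine (sg_lip hρ _ _).trans ?_
    exact mul_le_mul_of_nonneg_left (N_lip hρ w w') (by positivity)
  have hsle : s ≤ 1 := sg_le_one hρ _
  have hs0 : 0 ≤ s := sg_nonneg hρ _
  -- the direction
  have h2 : ‖((1 / N ρ w' : ℝ) : ℂ) * w' - ((1 / N ρ w : ℝ) : ℂ) * w‖ ≤ 2 / ρ * ‖w' - w‖ := by
    have e1 : ((1 / N ρ w' : ℝ) : ℂ) * w' - ((1 / N ρ w : ℝ) : ℂ) * w =
        ((1 / N ρ w : ℝ) : ℂ) * (w' - w) + ((1 / N ρ w' - 1 / N ρ w : ℝ) : ℂ) * w' := by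
      push_cast
      ring
    have e2 : 1 / N ρ w' - 1 / N ρ w = (N ρ w - N ρ w') / (N ρ w' * N ρ w) := by
      field_simp
    have e3 : ‖((1 / N ρ w : ℝ) : ℂ) * (w' - w)‖ ≤ 1 / ρ * ‖w' - w‖ := by
      rw [norm_mul, Complex.norm_real, Real.norm_eq_abs, abs_of_pos (by positivity)]
      exact mul_le_mul_of_nonneg_right (one_div_le_one_div_of_le hρ (rho_le_N w)) (norm_nonneg _)
    have e4 : ‖((1 / N ρ w' - 1 / N ρ w : ℝ) : ℂ) * w'‖ ≤ 1 / ρ * ‖w' - w‖ := by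
      rw [norm_mul, Complex.norm_real, Real.norm_eq_abs, e2, abs_div,
        abs_of_pos (a := N ρ w' * N ρ w) (by positivity), abs_sub_comm]
      have h3 := N_lip hρ w w'
      have h4 := norm_le_N ρ w'
      have h5 := rho_le_N (ρ := ρ) w
      rw [div_mul_eq_mul_div, one_div, ← div_eq_inv_mul, div_le_div_iff₀ (by positivity) hρ]
      calc |N ρ w' - N ρ w| * ‖w'‖ * ρ ≤ ‖w' - w‖ * N ρ w' * N ρ w := by
            apply mul_le_mul _ h5 hρ.le (by positivity)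
            exact mul_le_mul h3 h4 (norm_nonneg _) (norm_nonneg _)
        _ = ‖w' - w‖ * (N ρ w' * N ρ w) := by ring
    rw [e1]
    refine (norm_add_le _ _).trans ?_
    have : 2 / ρ * ‖w' - w‖ = 1 / ρ * ‖w' - w‖ + 1 / ρ * ‖w' - w‖ := by ring
    linarith
  have h3 : ‖((1 / N ρ w' : ℝ) : ℂ) * w'‖ ≤ 1 := by
    rw [norm_mul, Complex.norm_real, Real.norm_eq_abs, abs_of_pos (by positivity), one_div,
      ← div_eq_inv_mul, div_le_one hN']
    exact norm_le_N _ _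
  have h4 : G H ρ w' - G H ρ w = ((s' - s : ℝ) : ℂ) * (((1 / N ρ w' : ℝ) : ℂ) * w') +
      (s : ℂ) * (((1 / N ρ w' : ℝ) : ℂ) * w' - ((1 / N ρ w : ℝ) : ℂ) * w) := by
    unfold G
    push_cast
    ring
  rw [h4]
  refine (norm_add_le _ _).trans ?_
  rw [norm_mul, norm_mul (s : ℂ), Complex.norm_real, Complex.norm_real, Real.norm_eq_abs,
    Real.norm_eq_abs, abs_of_nonneg hs0]
  have h5 : |s' - s| * ‖((1 / N ρ w' : ℝ) : ℂ) * w'‖ ≤ 2 / ρ * ‖w' - w‖ * 1 :=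
    mul_le_mul h1 h3 (norm_nonneg _) (by positivity)
  have h6 : s * ‖((1 / N ρ w' : ℝ) : ℂ) * w' - ((1 / N ρ w : ℝ) : ℂ) * w‖ ≤
      1 * (2 / ρ * ‖w' - w‖) := mul_le_mul hsle h2 (norm_nonneg _) zero_le_one
  have : 4 / ρ * ‖w' - w‖ = 2 / ρ * ‖w' - w‖ * 1 + 1 * (2 / ρ * ‖w' - w‖) := by ring
  linarith

theorem ip_le (w v : ℂ) : |ip w v| ≤ ‖w‖ * ‖v‖ := by
  have h := Complex.abs_re_le_norm ((starRingEnd ℂ) w * v)
  rw [norm_mul, RCLike.norm_conj] at h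
  refine le_trans (le_of_eq ?_) h
  congr 1
  simp [ip]

theorem norm_add_sq' (w v : ℂ) : ‖w + v‖ ^ 2 = ‖w‖ ^ 2 + 2 * ip w v + ‖v‖ ^ 2 := by
  rw [← Complex.normSq_eq_norm_sq, ← Complex.normSq_eq_norm_sq, ← Complex.normSq_eq_norm_sq,
    Complex.normSq_apply, Complex.normSq_apply, Complex.normSq_apply]
  simp only [ip, Complex.add_re, Complex.add_im]
  ring

theorem q_taylor (x x' : ℝ) : 0 ≤ max 0 x' ^ 2 - max 0 x ^ 2 - 2 * max 0 x * (x' - x) ∧
    max 0 x' ^ 2 - max 0 x ^ 2 - 2 * max 0 x * (x' - x) ≤ (x' - x) ^ 2 := by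
  rcases le_total 0 x with hx | hx <;> rcases le_total 0 x' with hx' | hx'
  · rw [max_eq_right hx, max_eq_right hx']
    constructor <;> nlinarith [sq_nonneg (x' - x)]
  · rw [max_eq_right hx, max_eq_left hx']
    constructor <;> nlinarith [mul_nonneg hx (neg_nonneg.2 hx'), sq_nonneg x, sq_nonneg x']
  · rw [max_eq_left hx, max_eq_right hx']
    constructor <;> nlinarith [mul_nonneg (neg_nonneg.2 hx) hx', sq_nonneg x, sq_nonneg x']
  · rw [max_eq_left hx, max_eq_left hx']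
    constructor <;> nlinarith [sq_nonneg (x' - x)]

theorem N_taylor {ρ : ℝ} (hρ : 0 < ρ) (w v : ℂ) :
    |N ρ (w + v) - N ρ w - ip w v / N ρ w| ≤ ‖v‖ ^ 2 / ρ := by
  have hN : 0 < N ρ w := lt_of_lt_of_le hρ (rho_le_N w)
  have hN' : 0 < N ρ (w + v) := lt_of_lt_of_le hρ (rho_le_N (w + v))
  have h1 := N_sq ρ w
  have h2 := N_sq ρ (w + v)
  rw [norm_add_sq'] at h2
  have h3 := N_lip hρ w (w + v)
  rw [add_sub_cancel_left] at h3
  have h4 := ip_le w v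
  have h5 := norm_le_N ρ w
  have h6 := rho_le_N (ρ := ρ) w
  have h7 := rho_le_N (ρ := ρ) (w + v)
  set n := N ρ w
  set n' := N ρ (w + v)
  have key : n' - n - ip w v / n = (ip w v * (n - n') / n + ‖v‖ ^ 2) / (n + n') := by
    have hne : n + n' ≠ 0 := by positivity
    rw [eq_div_iff hne]
    field_simp
    nlinarith
  rw [key, abs_div, abs_of_pos (a := n + n') (by positivity)]
  have h8 : |ip w v * (n - n') / n + ‖v‖ ^ 2| ≤ 2 * ‖v‖ ^ 2 := by
    refine (abs_add_le _ _).trans ?_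
    have h9 : |ip w v * (n - n') / n| ≤ ‖v‖ ^ 2 := by
      rw [abs_div, abs_mul, abs_of_pos hN, div_le_iff₀ hN, abs_sub_comm]
      calc |ip w v| * |n' - n| ≤ (‖w‖ * ‖v‖) * ‖v‖ :=
            mul_le_mul h4 h3 (abs_nonneg _) (by positivity)
        _ = ‖w‖ * ‖v‖ ^ 2 := by ring
        _ ≤ n * ‖v‖ ^ 2 := mul_le_mul_of_nonneg_right h5 (by positivity)
        _ = ‖v‖ ^ 2 * n := by ring
    rw [abs_of_nonneg (a := ‖v‖ ^ 2) (by positivity)]
    linarith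
  rw [div_le_div_iff₀ (by positivity) hρ]
  have h10 : 2 * ρ ≤ n + n' := by linarith
  calc |ip w v * (n - n') / n + ‖v‖ ^ 2| * ρ ≤ 2 * ‖v‖ ^ 2 * ρ :=
        mul_le_mul_of_nonneg_right h8 hρ.le
    _ = ‖v‖ ^ 2 * (2 * ρ) := by ring
    _ ≤ ‖v‖ ^ 2 * (n + n') := mul_le_mul_of_nonneg_left h10 (by positivity)

theorem ip_real_mul (c : ℝ) (w v : ℂ) : ip ((c : ℂ) * w) v = c * ip w v := by
  simp [ip]
  ring

theorem T_taylor {H ρ : ℝ} (hρ : 0 < ρ) (w v : ℂ) :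
    |T H ρ (w + v) - T H ρ w - ip (G H ρ w) v| ≤ 2 / ρ * ‖v‖ ^ 2 := by
  have hN : 0 < N ρ w := lt_of_lt_of_le hρ (rho_le_N w)
  have h1 := N_taylor hρ w v
  have h3 := N_lip hρ w (w + v)
  rw [add_sub_cancel_left] at h3
  have h4 : (N ρ (w + v) - N ρ w) ^ 2 ≤ ‖v‖ ^ 2 := by
    rw [← sq_abs]
    exact pow_le_pow_left₀ (abs_nonneg _) h3 2
  obtain ⟨a1, a2⟩ := q_taylor (H - ρ - N ρ w) (H - ρ - N ρ (w + v))
  obtain ⟨b1, b2⟩ := q_taylor (H - N ρ w) (H - N ρ (w + v))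
  have hs0 := sg_nonneg (H := H) hρ (N ρ w)
  have hs1 := sg_le_one (H := H) hρ (N ρ w)
  have hG : ip (G H ρ w) v = sg H ρ (N ρ w) * (ip w v / N ρ w) := by
    unfold G
    rw [ip_real_mul]
    ring
  have hsg : sg H ρ (N ρ w) * ρ = max 0 (H - N ρ w) - max 0 (H - ρ - N ρ w) := by
    unfold sg
    field_simp
  set n := N ρ w
  set n' := N ρ (w + v)
  set s := sg H ρ n
  set e3 := n' - n - ip w v / n with he3
  have hE : T H ρ (w + v) - T H ρ w - ip (G H ρ w) v = s * e3 +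
      ((max 0 (H - ρ - n') ^ 2 - max 0 (H - ρ - n) ^ 2 -
        2 * max 0 (H - ρ - n) * ((H - ρ - n') - (H - ρ - n))) -
       (max 0 (H - n') ^ 2 - max 0 (H - n) ^ 2 -
        2 * max 0 (H - n) * ((H - n') - (H - n)))) / (2 * ρ) := by
    rw [hG]
    have hs : s = (max 0 (H - n) - max 0 (H - ρ - n)) / ρ := rfl
    unfold T
    rw [he3, hs]
    field_simp
    ring
  rw [hE]
  refine (abs_add_le _ _).trans ?_
  have e1 : |s * e3| ≤ 1 * (‖v‖ ^ 2 / ρ) := by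
    rw [abs_mul, abs_of_nonneg hs0]
    exact mul_le_mul hs1 h1 (abs_nonneg _) zero_le_one
  have e2 : |((max 0 (H - ρ - n') ^ 2 - max 0 (H - ρ - n) ^ 2 -
        2 * max 0 (H - ρ - n) * ((H - ρ - n') - (H - ρ - n))) -
       (max 0 (H - n') ^ 2 - max 0 (H - n) ^ 2 -
        2 * max 0 (H - n) * ((H - n') - (H - n)))) / (2 * ρ)| ≤ ‖v‖ ^ 2 / (2 * ρ) := by
    rw [abs_div, abs_of_pos (a := 2 * ρ) (by positivity)]
    apply div_le_div_of_nonneg_right _ (by positivity)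
    have c1 : ((H - ρ - n') - (H - ρ - n)) ^ 2 = (n' - n) ^ 2 := by ring
    have c2 : ((H - n') - (H - n)) ^ 2 = (n' - n) ^ 2 := by ring
    rw [c1] at a2
    rw [c2] at b2
    rw [abs_le]
    constructor <;> linarith
  have e4 : 2 / ρ * ‖v‖ ^ 2 = 1 * (‖v‖ ^ 2 / ρ) + ‖v‖ ^ 2 / (2 * ρ) + ‖v‖ ^ 2 / (2 * ρ) := by
    field_simp
    ring
  have e5 : 0 ≤ ‖v‖ ^ 2 / (2 * ρ) := by positivity
  linarith

theorem norm_ge_re (z : ℂ) {c : ℝ} (h : c ≤ |z.re|) : c ≤ ‖z‖ := h.trans (Complex.abs_re_le_norm z)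

theorem norm_ge_im (z : ℂ) {c : ℝ} (h : c ≤ |z.im|) : c ≤ ‖z‖ := h.trans (Complex.abs_im_le_norm z)

theorem cor_dist {A B : ℝ} (hA : 0 < A) (hB : 0 < B) :
    ∀ j k : Fin 4, j ≠ k → min A B ≤ ‖cor A B j - cor A B k‖ := by
  have hmA : min A B ≤ A := min_le_left _ _
  have hmB : min A B ≤ B := min_le_right _ _
  intro j k hjk
  fin_cases j <;> fin_cases k <;> first
    | exact absurd rfl hjk
    | (apply norm_ge_re; simp [cor, abs_of_pos hA, hmA]; done)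
    | (apply norm_ge_im; simp [cor, abs_of_pos hB, hmB])

/-- the four gradients -/
noncomputable def gj (A B ρ : ℝ) (j : Fin 4) (z : ℂ) : ℂ := G (min A B / 2) ρ (z - cor A B j)

/-- gradient of the potential -/
noncomputable def gr (A B ρ : ℝ) (z : ℂ) : ℂ :=
  gj A B ρ 0 z - gj A B ρ 1 z + gj A B ρ 2 z - gj A B ρ 3 z

theorem one_nonzero {A B ρ : ℝ} (hA : 0 < A) (hB : 0 < B) (hρ : 0 < ρ) (z : ℂ) :
    ∃ j, ∀ k, k ≠ j → gj A B ρ k z = 0 := by
  by_cases h : ∃ j, ‖z - cor A B j‖ < min A B / 2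
  · obtain ⟨j, hj⟩ := h
    refine ⟨j, fun k hk => ?_⟩
    apply G_zero hρ
    have h1 := cor_dist hA hB k j hk
    have h2 : ‖cor A B k - cor A B j‖ ≤ ‖z - cor A B j‖ + ‖z - cor A B k‖ := by
      have e : cor A B k - cor A B j = (z - cor A B j) - (z - cor A B k) := by ring
      rw [e]
      exact norm_sub_le _ _
    linarith
  · push Not at h
    exact ⟨0, fun k _ => G_zero hρ (h k)⟩

theorem gr_norm {A B ρ : ℝ} (hA : 0 < A) (hB : 0 < B) (hρ : 0 < ρ) (z : ℂ) :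
    ∃ j, ‖gr A B ρ z‖ = ‖gj A B ρ j z‖ ∧ ∀ k, k ≠ j → gj A B ρ k z = 0 := by
  obtain ⟨j, hj⟩ := one_nonzero hA hB hρ z
  refine ⟨j, ?_, hj⟩
  unfold gr
  fin_cases j
  · rw [hj 1 (by decide), hj 2 (by decide), hj 3 (by decide)]
    simp
  · rw [hj 0 (by decide), hj 2 (by decide), hj 3 (by decide)]
    simp
  · rw [hj 0 (by decide), hj 1 (by decide), hj 3 (by decide)]
    simp
  · rw [hj 0 (by decide), hj 1 (by decide), hj 2 (by decide)]
    simp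

theorem gr_le_one {A B ρ : ℝ} (hA : 0 < A) (hB : 0 < B) (hρ : 0 < ρ) (z : ℂ) :
    ‖gr A B ρ z‖ ≤ 1 := by
  obtain ⟨j, hj, -⟩ := gr_norm hA hB hρ z
  rw [hj]
  exact G_le_one hρ _

theorem norm_four (a b c d : ℂ) : ‖a - b + c - d‖ ≤ ‖a‖ + ‖b‖ + ‖c‖ + ‖d‖ := by
  have h1 := norm_sub_le (a - b + c) d
  have h2 := norm_add_le (a - b) c
  have h3 := norm_sub_le a b
  linarith

theorem gr_lip {A B ρ : ℝ} (hρ : 0 < ρ) (z w : ℂ) :
    ‖gr A B ρ w - gr A B ρ z‖ ≤ 16 / ρ * ‖w - z‖ := by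
  have h : ∀ j, ‖gj A B ρ j w - gj A B ρ j z‖ ≤ 4 / ρ * ‖w - z‖ := by
    intro j
    have := G_lip (H := min A B / 2) hρ (z - cor A B j) (w - cor A B j)
    rw [sub_sub_sub_cancel_right] at this
    exact this
  have e : gr A B ρ w - gr A B ρ z = (gj A B ρ 0 w - gj A B ρ 0 z) -
      (gj A B ρ 1 w - gj A B ρ 1 z) + (gj A B ρ 2 w - gj A B ρ 2 z) -
      (gj A B ρ 3 w - gj A B ρ 3 z) := by
    unfold gr
    ring
  rw [e]
  refine (norm_four _ _ _ _).trans ?_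
  have := h 0
  have := h 1
  have := h 2
  have := h 3
  have e2 : 16 / ρ * ‖w - z‖ = 4 / ρ * ‖w - z‖ + 4 / ρ * ‖w - z‖ + 4 / ρ * ‖w - z‖ +
      4 / ρ * ‖w - z‖ := by ring
  linarith

/-- the potential -/
noncomputable def psi (A B ρ : ℝ) (z : ℂ) : ℝ :=
  T (min A B / 2) ρ (z - cor A B 0) - T (min A B / 2) ρ (z - cor A B 1) +
    T (min A B / 2) ρ (z - cor A B 2) - T (min A B / 2) ρ (z - cor A B 3)

theorem psi_taylor {A B ρ : ℝ} (hρ : 0 < ρ) (z w : ℂ) :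
    |psi A B ρ w - psi A B ρ z - ip (gr A B ρ z) (w - z)| ≤ 8 / ρ * ‖w - z‖ ^ 2 := by
  have h : ∀ j, |T (min A B / 2) ρ (w - cor A B j) - T (min A B / 2) ρ (z - cor A B j) -
      ip (gj A B ρ j z) (w - z)| ≤ 2 / ρ * ‖w - z‖ ^ 2 := by
    intro j
    have := T_taylor (H := min A B / 2) hρ (z - cor A B j) (w - z)
    rw [show z - cor A B j + (w - z) = w - cor A B j by ring] at this
    exact this
  have e : psi A B ρ w - psi A B ρ z - ip (gr A B ρ z) (w - z) =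
      (T (min A B / 2) ρ (w - cor A B 0) - T (min A B / 2) ρ (z - cor A B 0) -
        ip (gj A B ρ 0 z) (w - z)) -
      (T (min A B / 2) ρ (w - cor A B 1) - T (min A B / 2) ρ (z - cor A B 1) -
        ip (gj A B ρ 1 z) (w - z)) +
      (T (min A B / 2) ρ (w - cor A B 2) - T (min A B / 2) ρ (z - cor A B 2) -
        ip (gj A B ρ 2 z) (w - z)) -
      (T (min A B / 2) ρ (w - cor A B 3) - T (min A B / 2) ρ (z - cor A B 3) -
        ip (gj A B ρ 3 z) (w - z)) := by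
    have : ip (gr A B ρ z) (w - z) = ip (gj A B ρ 0 z) (w - z) - ip (gj A B ρ 1 z) (w - z) +
        ip (gj A B ρ 2 z) (w - z) - ip (gj A B ρ 3 z) (w - z) := by
      unfold gr ip
      simp only [Complex.sub_re, Complex.add_re, Complex.sub_im, Complex.add_im]
      ring
    rw [this]
    unfold psi
    ring
  rw [e]
  have h0 := abs_le.1 (h 0)
  have h1 := abs_le.1 (h 1)
  have h2 := abs_le.1 (h 2)
  have h3 := abs_le.1 (h 3)
  have e2 : 8 / ρ * ‖w - z‖ ^ 2 = 2 / ρ * ‖w - z‖ ^ 2 + 2 / ρ * ‖w - z‖ ^ 2 +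
      2 / ρ * ‖w - z‖ ^ 2 + 2 / ρ * ‖w - z‖ ^ 2 := by ring
  rw [abs_le]
  constructor <;> linarith

theorem ip_rot (g v : ℂ) : ip (-I * g) (-I * v) = ip g v := by
  simp [ip]
  ring

theorem gj_eq {A B ρ : ℝ} (hρ : 0 < ρ) (j : Fin 4) (z : ℂ) :
    ∃ s : ℝ, 0 ≤ s ∧ gj A B ρ j z = (s : ℂ) * (z - cor A B j) :=
  ⟨_, div_nonneg (sg_nonneg hρ _) (N_nonneg _ _), rfl⟩

theorem wall {A B ρ : ℝ} (hA : 0 < A) (hB : 0 < B) (hρ : 0 < ρ) (k : Fin 4) {z : ℂ}
    (hz : z ∈ Box A B) (hk : dw A B k z = 0) :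
    ∃ f : ℝ, 0 ≤ f ∧ f ≤ 1 ∧ -I * gr A B ρ z = ((-1 : ℂ) ^ (k : ℕ)) * (f : ℂ) * nv k := by
  obtain ⟨hz1, hz2, hz3, hz4⟩ := hz
  have hmA : min A B ≤ A := min_le_left _ _
  have hmB : min A B ≤ B := min_le_right _ _
  have hm0 : 0 < min A B := lt_min hA hB
  have hle := gr_le_one hA hB hρ z
  obtain ⟨s0, hs0, e0⟩ := gj_eq (A := A) (B := B) hρ 0 z
  obtain ⟨s1, hs1, e1⟩ := gj_eq (A := A) (B := B) hρ 1 z
  obtain ⟨s2, hs2, e2⟩ := gj_eq (A := A) (B := B) hρ 2 z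
  obtain ⟨s3, hs3, e3⟩ := gj_eq (A := A) (B := B) hρ 3 z
  have fin : ∀ f : ℝ, 0 ≤ f → -I * gr A B ρ z = ((-1 : ℂ) ^ (k : ℕ)) * (f : ℂ) * nv k →
      ∃ f : ℝ, 0 ≤ f ∧ f ≤ 1 ∧ -I * gr A B ρ z = ((-1 : ℂ) ^ (k : ℕ)) * (f : ℂ) * nv k := by
    intro f hf he
    refine ⟨f, hf, ?_, he⟩
    have h1 := congrArg norm he
    have h2 : ‖nv k‖ = 1 := by
      fin_cases k <;> simp [nv]
    rw [norm_mul, norm_mul, norm_mul, h2, norm_pow, norm_neg, norm_neg, Complex.norm_I, norm_one,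
      one_pow, one_mul, one_mul, mul_one, Complex.norm_real, Real.norm_eq_abs,
      abs_of_nonneg hf] at h1
    rw [← h1]
    exact hle
  fin_cases k
  · -- right wall
    have hre : z.re = A := by
      simp [dw, cv, ip, nv] at hk
      linarith
    have g2 : gj A B ρ 2 z = 0 := by
      apply G_zero hρ
      apply norm_ge_re
      simp [cor, hre, abs_of_pos hA]
      linarith
    have g3 : gj A B ρ 3 z = 0 := by
      apply G_zero hρ
      apply norm_ge_re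
      simp [cor, hre, abs_of_pos hA]
      linarith
    refine fin (s0 * z.im + s1 * (B - z.im)) (by
      have := mul_nonneg hs0 hz3
      have := mul_nonneg hs1 (sub_nonneg.2 hz4)
      linarith) ?_
    unfold gr
    rw [g2, g3, e0, e1]
    apply Complex.ext <;> simp [cor, nv, hre]
    ring
  · -- top wall
    have him : z.im = B := by
      simp [dw, cv, ip, nv] at hk
      linarith
    have g0 : gj A B ρ 0 z = 0 := by
      apply G_zero hρ
      apply norm_ge_im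
      simp [cor, him, abs_of_pos hB]
      linarith
    have g3 : gj A B ρ 3 z = 0 := by
      apply G_zero hρ
      apply norm_ge_im
      simp [cor, him, abs_of_pos hB]
      linarith
    refine fin (s1 * (A - z.re) + s2 * z.re) (by
      have := mul_nonneg hs1 (sub_nonneg.2 hz2)
      have := mul_nonneg hs2 hz1
      linarith) ?_
    unfold gr
    rw [g0, g3, e1, e2]
    apply Complex.ext <;> simp [cor, nv, him]
    ring
  · -- left wall
    have hre : z.re = 0 := by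
      simp [dw, cv, ip, nv] at hk
      linarith
    have g0 : gj A B ρ 0 z = 0 := by
      apply G_zero hρ
      apply norm_ge_re
      simp [cor, hre, abs_of_pos hA]
      linarith
    have g1 : gj A B ρ 1 z = 0 := by
      apply G_zero hρ
      apply norm_ge_re
      simp [cor, hre, abs_of_pos hA]
      linarith
    refine fin (s2 * (B - z.im) + s3 * z.im) (by
      have := mul_nonneg hs2 (sub_nonneg.2 hz4)
      have := mul_nonneg hs3 hz3
      linarith) ?_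
    unfold gr
    rw [g0, g1, e2, e3]
    apply Complex.ext <;> simp [cor, nv, hre]
    ring
  · -- bottom wall
    have him : z.im = 0 := by
      simp [dw, cv, ip, nv] at hk
      linarith
    have g1 : gj A B ρ 1 z = 0 := by
      apply G_zero hρ
      apply norm_ge_im
      simp [cor, him, abs_of_pos hB]
      linarith
    have g2 : gj A B ρ 2 z = 0 := by
      apply G_zero hρ
      apply norm_ge_im
      simp [cor, him, abs_of_pos hB]
      linarith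
    refine fin (s0 * (A - z.re) + s3 * z.re) (by
      have := mul_nonneg hs0 (sub_nonneg.2 hz2)
      have := mul_nonneg hs3 hz1
      linarith) ?_
    unfold gr
    rw [g1, g2, e0, e3]
    apply Complex.ext <;> simp [cor, nv, him, pow_succ]
    ring

end F01

/-- a real `C^1` function of one variable: the cut-off distance -/
theorem field {A B ρ : ℝ} (hρ : 1 ≤ ρ) (hA : 8 * ρ ≤ A) (hB : 8 * ρ ≤ B) :
    ∃ (ψ : ℂ → ℝ) (F : ℂ → ℂ),
      (∀ z ∈ Box A B, ‖F z‖ ≤ 1) ∧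
      (∀ z ∈ Box A B, ∀ w ∈ Box A B, ‖F w - F z‖ ≤ 40 / ρ * ‖w - z‖) ∧
      (∀ z ∈ Box A B, ∀ w ∈ Box A B,
        |ψ w - ψ z - ip (F z) (-I * (w - z))| ≤ 40 / ρ * ‖w - z‖ ^ 2) ∧
      (∀ k : Fin 4, ∀ z ∈ Box A B, dw A B k z = 0 →
        ∃ f : ℝ, 0 ≤ f ∧ f ≤ 1 ∧ F z = ((-1 : ℂ) ^ (k : ℕ)) * (f : ℂ) * nv k) ∧
      (∀ k : Fin 4, ∀ z ∈ Box A B, ‖z - cor A B k‖ ≤ 8 → ‖F z‖ ≤ 320 / ρ) ∧
      2 * min A B - 40 * ρ ≤
        (ψ (cor A B 1) - ψ (cor A B 0)) + (ψ (cor A B 3) - ψ (cor A B 2)) := by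
  have hρ0 : 0 < ρ := by linarith
  have hA0 : 0 < A := by linarith
  have hB0 : 0 < B := by linarith
  have hmin : 8 * ρ ≤ min A B := le_min hA hB
  have hnorm : ∀ z, ‖-I * F01.gr A B ρ z‖ = ‖F01.gr A B ρ z‖ := by
    intro z
    rw [norm_mul, norm_neg, Complex.norm_I, one_mul]
  refine ⟨F01.psi A B ρ, fun z => -I * F01.gr A B ρ z, ?_, ?_, ?_, ?_, ?_, ?_⟩
  · intro z _
    show ‖-I * F01.gr A B ρ z‖ ≤ 1
    rw [hnorm]
    exact F01.gr_le_one hA0 hB0 hρ0 z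
  · intro z _ w _
    show ‖-I * F01.gr A B ρ w - -I * F01.gr A B ρ z‖ ≤ 40 / ρ * ‖w - z‖
    rw [← mul_sub, norm_mul, norm_neg, Complex.norm_I, one_mul]
    refine (F01.gr_lip hρ0 z w).trans ?_
    apply mul_le_mul_of_nonneg_right _ (norm_nonneg _)
    apply div_le_div_of_nonneg_right _ hρ0.le
    norm_num
  · intro z _ w _
    show |F01.psi A B ρ w - F01.psi A B ρ z - ip (-I * F01.gr A B ρ z) (-I * (w - z))| ≤ _
    rw [F01.ip_rot]
    refine (F01.psi_taylor hρ0 z w).trans ?_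
    apply mul_le_mul_of_nonneg_right _ (by positivity)
    apply div_le_div_of_nonneg_right _ hρ0.le
    norm_num
  · intro k z hz hk
    exact F01.wall hA0 hB0 hρ0 k hz hk
  · intro k z _ hzk
    show ‖-I * F01.gr A B ρ z‖ ≤ 320 / ρ
    rw [hnorm]
    by_cases hρ3 : ρ ≤ 320
    · refine (F01.gr_le_one hA0 hB0 hρ0 z).trans ?_
      rw [le_div_iff₀ hρ0]
      linarith
    · push Not at hρ3
      obtain ⟨j, hj, hjk⟩ := F01.gr_norm hA0 hB0 hρ0 z
      rw [hj]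
      by_cases hkj : k = j
      · rw [← hkj]
        refine (F01.G_le hρ0 _).trans ?_
        apply div_le_div_of_nonneg_right _ hρ0.le
        linarith
      · have h1 := F01.cor_dist hA0 hB0 j k (Ne.symm hkj)
        have h2 : ‖cor A B j - cor A B k‖ ≤ ‖z - cor A B k‖ + ‖z - cor A B j‖ := by
          have e : cor A B j - cor A B k = (z - cor A B k) - (z - cor A B j) := by ring
          rw [e]
          exact norm_sub_le _ _
        have h3 : F01.gj A B ρ j z = 0 := by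
          apply F01.G_zero hρ0
          linarith
        rw [h3, norm_zero]
        positivity
  · have hT0 := F01.T_origin (H := min A B / 2) hρ0 (by linarith)
    have hT : ∀ j k : Fin 4, j ≠ k → F01.T (min A B / 2) ρ (cor A B j - cor A B k) = 0 := by
      intro j k hjk
      apply F01.T_zero hρ0
      have := F01.cor_dist hA0 hB0 j k hjk
      linarith
    unfold F01.psi
    rw [sub_self, sub_self, sub_self, sub_self, hT0, hT 1 0 (by decide), hT 1 2 (by decide),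
      hT 1 3 (by decide), hT 0 1 (by decide), hT 0 2 (by decide), hT 0 3 (by decide),
      hT 3 0 (by decide), hT 3 1 (by decide), hT 3 2 (by decide), hT 2 0 (by decide),
      hT 2 1 (by decide), hT 2 3 (by decide)]
    linarith

end Pool.Agent.LG
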