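import Pool.Agent.Lib.MP_8026b0_co.G09

set_option autoImplicit false

/-! Row G10: reduction to generic saturated configurations. -/

namespace Pool.Agent.LG

open Complex

/-- `N` points with mutual distances at least `1` fit into the box -/
def Fits (A B : ℝ) (N : ℕ) : Prop :=
  ∃ P : Finset ℂ, P.card = N ∧ (∀ p ∈ P, p ∈ Box A B) ∧
    ∀ p ∈ P, ∀ q ∈ P, p ≠ q → 1 ≤ ‖p - q‖

theorem g10_floor {x y : ℝ} (hx : 0 ≤ x) (hy : 0 ≤ y) (h : ⌊2 * x⌋₊ = ⌊2 * y⌋₊) :
    (x - y) ^ 2 ≤ 1 / 4 := by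
  have h1 := Nat.floor_le (by linarith : 0 ≤ 2 * x)
  have h2 := Nat.lt_floor_add_one (2 * x)
  have h3 := Nat.floor_le (by linarith : 0 ≤ 2 * y)
  have h4 := Nat.lt_floor_add_one (2 * y)
  rw [h] at h1 h2
  have h5 : -(1 / 2) ≤ x - y := by linarith
  have h6 : x - y ≤ 1 / 2 := by linarith
  nlinarith

/-- a crude bound for the number of points -/
theorem Fits.card_bound {A B : ℝ} {N : ℕ} (h : Fits A B N) :
    (N : ℝ) ≤ (2 * |A| + 2) * (2 * |B| + 2) := by
  classical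
  obtain ⟨P, hcard, hsub, hsep⟩ := h
  have hmaps : ∀ p ∈ P, (⌊2 * p.re⌋₊, ⌊2 * p.im⌋₊) ∈
      Finset.range (⌊2 * |A|⌋₊ + 1) ×ˢ Finset.range (⌊2 * |B|⌋₊ + 1) := by
    intro p hp
    obtain ⟨h1, h2, h3, h4⟩ := hsub p hp
    rw [Finset.mem_product, Finset.mem_range, Finset.mem_range]
    constructor
    · exact Nat.lt_succ_of_le (Nat.floor_le_floor (by linarith [le_abs_self A]))
    · exact Nat.lt_succ_of_le (Nat.floor_le_floor (by linarith [le_abs_self B]))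
  have hinj : ∀ p ∈ P, ∀ q ∈ P, (⌊2 * p.re⌋₊, ⌊2 * p.im⌋₊) = (⌊2 * q.re⌋₊, ⌊2 * q.im⌋₊) →
      p = q := by
    intro p hp q hq heq
    by_contra hne
    have h1 := hsep p hp q hq hne
    obtain ⟨p1, _, p3, _⟩ := hsub p hp
    obtain ⟨q1, _, q3, _⟩ := hsub q hq
    have h2 := g10_floor p1 q1 (congrArg Prod.fst heq)
    have h3 := g10_floor p3 q3 (congrArg Prod.snd heq)
    have h4 : ‖p - q‖ ^ 2 = (p.re - q.re) ^ 2 + (p.im - q.im) ^ 2 := by
      rw [Complex.sq_norm, Complex.normSq_apply, sub_re, sub_im]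
      ring
    nlinarith
  have hc := Finset.card_le_card_of_injOn (fun p : ℂ => (⌊2 * p.re⌋₊, ⌊2 * p.im⌋₊))
    (fun p hp => hmaps p hp) (fun p hp q hq heq => hinj p hp q hq heq)
  rw [Finset.card_product, Finset.card_range, Finset.card_range, hcard] at hc
  have hc' : (N : ℝ) ≤ (⌊2 * |A|⌋₊ + 1) * (⌊2 * |B|⌋₊ + 1) := by exact_mod_cast hc
  have h1 := Nat.floor_le (by positivity : 0 ≤ 2 * |A|)
  have h2 := Nat.floor_le (by positivity : 0 ≤ 2 * |B|)
  refine hc'.trans (mul_le_mul (by linarith) (by linarith) (by positivity) (by positivity))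

/-- a saturated configuration with at least as many points -/
theorem Fits.saturated {A B : ℝ} {N : ℕ} (h : Fits A B N) :
    ∃ P : Finset ℂ, N ≤ P.card ∧ (∀ p ∈ P, p ∈ Box A B) ∧
      (∀ p ∈ P, ∀ q ∈ P, p ≠ q → 1 ≤ ‖p - q‖) ∧ ∀ z ∈ Box A B, ∃ p ∈ P, ‖z - p‖ < 1 := by
  classical
  have hb : BddAbove {k | Fits A B k} := by
    refine ⟨⌈(2 * |A| + 2) * (2 * |B| + 2)⌉₊, fun k hk => ?_⟩
    have h1 := hk.card_bound
    exact_mod_cast h1.trans (Nat.le_ceil _)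
  have hne : {k | Fits A B k}.Nonempty := ⟨N, h⟩
  have hmem := Nat.sSup_mem hne hb
  have hN : N ≤ sSup {k | Fits A B k} := le_csSup hb h
  obtain ⟨P, hcard, hsub, hsep⟩ := hmem
  refine ⟨P, by rw [hcard]; exact hN, hsub, hsep, fun z hz => ?_⟩
  by_contra hcon
  push Not at hcon
  have hzP : z ∉ P := by
    intro hzP
    have := hcon z hzP
    rw [sub_self, norm_zero] at this
    linarith
  have hF : Fits A B (P.card + 1) := by
    refine ⟨insert z P, Finset.card_insert_of_notMem hzP, ?_, ?_⟩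
    · intro p hp
      rcases Finset.mem_insert.1 hp with h1 | h1
      · rw [h1]
        exact hz
      · exact hsub p h1
    · intro p hp q hq hpq
      rcases Finset.mem_insert.1 hp with h1 | h1
      · rcases Finset.mem_insert.1 hq with h2 | h2
        · exact absurd (h1.trans h2.symm) hpq
        · rw [h1]
          exact hcon q h2
      · rcases Finset.mem_insert.1 hq with h2 | h2
        · rw [norm_sub_rev, h2]
          exact hcon p h1
        · exact hsep p h1 q h2 hpq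
  have h1 : P.card + 1 ≤ sSup {k | Fits A B k} := le_csSup hb hF
  omega

theorem g10_box_compact (A B : ℝ) : IsCompact (Box A B) := by
  rw [Metric.isCompact_iff_isClosed_bounded]
  constructor
  · have h1 : Box A B = ({z : ℂ | 0 ≤ z.re} ∩ {z : ℂ | z.re ≤ A}) ∩
        ({z : ℂ | 0 ≤ z.im} ∩ {z : ℂ | z.im ≤ B}) := by
      ext z
      simp only [Box, Set.mem_ofPred_eq, Set.mem_inter_iff]
      tauto
    rw [h1]
    exact ((isClosed_le continuous_const continuous_re).inter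
      (isClosed_le continuous_re continuous_const)).inter
      ((isClosed_le continuous_const continuous_im).inter
      (isClosed_le continuous_im continuous_const))
  · rw [isBounded_iff_forall_norm_le]
    refine ⟨|A| + |B|, fun z hz => ?_⟩
    obtain ⟨h1, h2, h3, h4⟩ := hz
    refine (Complex.norm_le_abs_re_add_abs_im z).trans ?_
    rw [abs_of_nonneg h1, abs_of_nonneg h3]
    linarith [le_abs_self A, le_abs_self B]

theorem g10_margin {A B : ℝ} (hA : 0 < A) (hB : 0 < B) {P : Finset ℂ}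
    (hsat : ∀ z ∈ Box A B, ∃ p ∈ P, ‖z - p‖ < 1) :
    ∃ m : ℝ, m < 1 ∧ ∀ z ∈ Box A B, ∃ p ∈ P, ‖z - p‖ ≤ m := by
  have h0 : (0 : ℂ) ∈ Box A B := ⟨le_rfl, hA.le, le_rfl, hB.le⟩
  obtain ⟨p0, hp0, _⟩ := hsat 0 h0
  have hPne : (P : Set ℂ).Nonempty := ⟨p0, hp0⟩
  obtain ⟨z0, hz0, hmax⟩ := (g10_box_compact A B).exists_isMaxOn ⟨0, h0⟩
    (Metric.continuous_infDist_pt (P : Set ℂ)).continuousOn
  refine ⟨Metric.infDist z0 (P : Set ℂ), ?_, fun z hz => ?_⟩
  · obtain ⟨p, hp, hlt⟩ := hsat z0 hz0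
    refine lt_of_le_of_lt (Metric.infDist_le_dist_of_mem (Finset.mem_coe.2 hp)) ?_
    rw [dist_eq_norm]
    exact hlt
  · obtain ⟨p, hp, hpe⟩ := P.finite_toSet.isCompact.exists_infDist_eq_dist hPne z
    refine ⟨p, hp, ?_⟩
    rw [← dist_eq_norm, ← hpe]
    exact hmax hz

theorem g10_corner {A B : ℝ} (hA : 0 < A) (hB : 0 < B) {w : ℂ} {k l : Fin 4} (hkl : k ≠ l)
    (hk : dw A B k w = 0) (hl : dw A B l w = 0) : ∃ j : Fin 4, w = cor A B j := by
  have hc0 : dw A B 0 w = 0 ↔ w.re = A := by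
    simp [dw, cv, nv, ip]
    constructor <;> intro h <;> linarith
  have hc1 : dw A B 1 w = 0 ↔ w.im = B := by
    simp [dw, cv, nv, ip]
    constructor <;> intro h <;> linarith
  have hc2 : dw A B 2 w = 0 ↔ w.re = 0 := by
    simp [dw, cv, nv, ip]
  have hc3 : dw A B 3 w = 0 ↔ w.im = 0 := by
    simp [dw, cv, nv, ip]
  have e0 : w.re = A → w.im = 0 → w = cor A B 0 := fun h1 h2 => by
    apply Complex.ext <;> simp [cor, h1, h2]
  have e1 : w.re = A → w.im = B → w = cor A B 1 := fun h1 h2 => by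
    apply Complex.ext <;> simp [cor, h1, h2]
  have e2 : w.re = 0 → w.im = B → w = cor A B 2 := fun h1 h2 => by
    apply Complex.ext <;> simp [cor, h1, h2]
  have e3 : w.re = 0 → w.im = 0 → w = cor A B 3 := fun h1 h2 => by
    apply Complex.ext <;> simp [cor, h1, h2]
  fin_cases k <;> fin_cases l <;> simp only [Fin.zero_eta, Fin.mk_one, Fin.reduceFinMk] at hk hl hkl <;>
    first
    | exact absurd rfl hkl
    | (rw [hc0] at hk; rw [hc1] at hl; exact ⟨1, e1 hk hl⟩)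
    | (rw [hc0] at hk; rw [hc2] at hl; linarith)
    | (rw [hc0] at hk; rw [hc3] at hl; exact ⟨0, e0 hk hl⟩)
    | (rw [hc1] at hk; rw [hc0] at hl; exact ⟨1, e1 hl hk⟩)
    | (rw [hc1] at hk; rw [hc2] at hl; exact ⟨2, e2 hl hk⟩)
    | (rw [hc1] at hk; rw [hc3] at hl; linarith)
    | (rw [hc2] at hk; rw [hc0] at hl; linarith)
    | (rw [hc2] at hk; rw [hc1] at hl; exact ⟨2, e2 hk hl⟩)
    | (rw [hc2] at hk; rw [hc3] at hl; exact ⟨3, e3 hk hl⟩)
    | (rw [hc3] at hk; rw [hc0] at hl; exact ⟨0, e0 hl hk⟩)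
    | (rw [hc3] at hk; rw [hc1] at hl; linarith)
    | (rw [hc3] at hk; rw [hc2] at hl; exact ⟨3, e3 hl hk⟩)

/-- perturbation and rescaling of a saturated configuration -/
theorem exists_Gen {A B : ℝ} (hA : 0 < A) (hB : 0 < B) {P : Finset ℂ}
    (hsub : ∀ p ∈ P, p ∈ Box A B) (hsep : ∀ p ∈ P, ∀ q ∈ P, p ≠ q → 1 ≤ ‖p - q‖)
    (hsat : ∀ z ∈ Box A B, ∃ p ∈ P, ‖z - p‖ < 1) {δ : ℝ} (hδ : 0 < δ) :
    ∃ (A' B' : ℝ) (P' : Finset ℂ), A ≤ A' ∧ A' < A + δ ∧ B ≤ B' ∧ B' < B + δ ∧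
      P'.card = P.card ∧ Gen A' B' P' := by
  classical
  obtain ⟨m, hm1, hm⟩ := g10_margin hA hB hsat
  set η : ℝ := min (min ((1 - m) / 4) (1 / 4)) (δ / (4 * (A + B + δ))) with hη
  have hη0 : 0 < η := by
    have : 0 < 1 - m := by linarith
    rw [hη]
    positivity
  have hη1 : η ≤ (1 - m) / 4 := (min_le_left _ _).trans (min_le_left _ _)
  have hη2 : η ≤ 1 / 4 := (min_le_left _ _).trans (min_le_right _ _)
  have hη3 : η * (4 * (A + B + δ)) ≤ δ := by
    have h1 : η ≤ δ / (4 * (A + B + δ)) := min_le_right _ _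
    rwa [le_div_iff₀ (by positivity)] at h1
  obtain ⟨f, hf, hfinj, hgp⟩ := exists_genPos hA hB P hsub hη0
  have hden : 0 < 1 - 2 * η := by linarith
  set lam : ℝ := 1 / (1 - 2 * η) with hlam
  have hlam0 : 0 < lam := by positivity
  have hlam1 : 1 ≤ lam := by
    rw [hlam, le_div_iff₀ hden]
    linarith
  have hlamd : lam * (1 - 2 * η) = 1 := by
    rw [hlam]
    exact one_div_mul_cancel hden.ne'
  have hlam_lt : ∀ C : ℝ, 0 < C → C ≤ A + B → lam * C < C + δ := by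
    intro C hC hCle
    have h1 : C < (C + δ) * (1 - 2 * η) := by
      have h2 : η * (4 * (C + δ)) ≤ δ := by
        have h3 : η * (4 * (C + δ)) ≤ η * (4 * (A + B + δ)) :=
          mul_le_mul_of_nonneg_left (by linarith) hη0.le
        linarith
      nlinarith
    have h2 : lam * C < lam * ((C + δ) * (1 - 2 * η)) := mul_lt_mul_of_pos_left h1 hlam0
    calc lam * C < lam * ((C + δ) * (1 - 2 * η)) := h2
      _ = (lam * (1 - 2 * η)) * (C + δ) := by ring
      _ = C + δ := by rw [hlamd, one_mul]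
  have hlamC : (lam : ℂ) ≠ 0 := by exact_mod_cast hlam0.ne'
  have hmulinj : Function.Injective (fun z : ℂ => (lam : ℂ) * z) := mul_right_injective₀ hlamC
  have hnorm : ∀ z w : ℂ, ‖(lam : ℂ) * z - lam * w‖ = lam * ‖z - w‖ := by
    intro z w
    rw [← mul_sub, norm_mul, norm_real, Real.norm_of_nonneg hlam0.le]
  set P2 : Finset ℂ := P.image f with hP2
  refine ⟨lam * A, lam * B, P2.image (fun z : ℂ => (lam : ℂ) * z), ?_, hlam_lt A hA (by linarith),
    ?_, hlam_lt B hB (by linarith), ?_, ?_⟩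
  · exact le_mul_of_one_le_left hA.le hlam1
  · exact le_mul_of_one_le_left hB.le hlam1
  · rw [Finset.card_image_of_injective _ hmulinj, hP2, Finset.card_image_of_injOn hfinj]
  -- points of the new configuration
  have hmem : ∀ x ∈ P2.image (fun z : ℂ => (lam : ℂ) * z), ∃ a ∈ P2, x = lam * a := by
    intro x hx
    obtain ⟨a, ha, rfl⟩ := Finset.mem_image.1 hx
    exact ⟨a, ha, rfl⟩
  have hdown : ∀ z ∈ Box (lam * A) (lam * B), ∃ w ∈ Box A B, z = lam * w := by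
    intro z hz
    obtain ⟨h1, h2, h3, h4⟩ := hz
    refine ⟨((z.re / lam : ℝ) : ℂ) + ((z.im / lam : ℝ) : ℂ) * I, ?_, ?_⟩
    · refine ⟨?_, ?_, ?_, ?_⟩
      · simp; positivity
      · simp; rw [div_le_iff₀ hlam0]; linarith
      · simp; positivity
      · simp; rw [div_le_iff₀ hlam0]; linarith
    · apply Complex.ext
      · simp; field_simp
      · simp; field_simp
  have hdw : ∀ k w, dw (lam * A) (lam * B) k ((lam : ℂ) * w) = lam * dw A B k w := by
    intro k w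
    fin_cases k <;> simp [dw, cv, nv, ip] <;> ring
  have hNr : ∀ w : ℂ, ∀ x ∈ Nr (P2.image (fun z : ℂ => (lam : ℂ) * z)) ((lam : ℂ) * w),
      ∀ y ∈ Nr (P2.image (fun z : ℂ => (lam : ℂ) * z)) ((lam : ℂ) * w), ∀ a b : ℂ, x = lam * a →
      y = lam * b → ‖w - a‖ = ‖w - b‖ := by
    intro w x hx y hy a b hxa hyb
    rw [mem_Nr] at hx hy
    have h1 := hx.2 y hy.1
    have h2 := hy.2 x hx.1
    have h3 := le_antisymm h1 h2
    rw [hxa, hyb, hnorm, hnorm] at h3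
    exact mul_left_cancel₀ hlam0.ne' h3
  refine ⟨by positivity, by positivity, ?_, ?_, ?_, ?_, ?_, ?_, ?_, ?_⟩
  · intro x hx
    obtain ⟨a, ha, rfl⟩ := hmem x hx
    obtain ⟨p, hp, rfl⟩ := Finset.mem_image.1 ha
    obtain ⟨h1, h2, h3, h4⟩ := (hf p hp).1
    refine ⟨?_, ?_, ?_, ?_⟩
    · simp; positivity
    · simp; exact mul_le_mul_of_nonneg_left h2 hlam0.le
    · simp; positivity
    · simp; exact mul_le_mul_of_nonneg_left h4 hlam0.le
  · intro x hx y hy hxy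
    obtain ⟨a, ha, rfl⟩ := hmem x hx
    obtain ⟨b, hb, rfl⟩ := hmem y hy
    obtain ⟨p, hp, rfl⟩ := Finset.mem_image.1 ha
    obtain ⟨q, hq, rfl⟩ := Finset.mem_image.1 hb
    have hpq : p ≠ q := fun h => hxy (by rw [h])
    have h1 := hsep p hp q hq hpq
    have h2 := (hf p hp).2
    have h3 := (hf q hq).2
    rw [hnorm]
    have h4 : ‖p - q‖ ≤ ‖f p - f q‖ + ‖f p - p‖ + ‖f q - q‖ := by
      have e1 : p - q = (f p - f q) - (f p - p) + (f q - q) := by ring
      rw [e1]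
      have e2 := norm_add_le ((f p - f q) - (f p - p)) (f q - q)
      have e3 := norm_sub_le (f p - f q) (f p - p)
      linarith
    have h5 : 1 - 2 * η ≤ ‖f p - f q‖ := by linarith
    calc (1 : ℝ) = lam * (1 - 2 * η) := hlamd.symm
      _ ≤ lam * ‖f p - f q‖ := mul_le_mul_of_nonneg_left h5 hlam0.le
  · intro z hz
    obtain ⟨w, hw, rfl⟩ := hdown z hz
    obtain ⟨p, hp, hpm⟩ := hm w hw
    refine ⟨lam * f p, Finset.mem_image_of_mem _ (Finset.mem_image_of_mem f hp), ?_⟩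
    rw [hnorm]
    have h1 := (hf p hp).2
    have h2 : ‖w - f p‖ ≤ ‖w - p‖ + ‖f p - p‖ := by
      have e1 : w - f p = (w - p) - (f p - p) := by ring
      rw [e1]
      exact norm_sub_le _ _
    have h3 : ‖w - f p‖ < 1 - 2 * η := by linarith
    calc lam * ‖w - f p‖ < lam * (1 - 2 * η) := mul_lt_mul_of_pos_left h3 hlam0
      _ = 1 := hlamd
  · intro x hx y hy hxy
    obtain ⟨a, ha, rfl⟩ := hmem x hx
    obtain ⟨b, hb, rfl⟩ := hmem y hy
    have h1 : a.re = b.re := by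
      simp at hxy
      exact hxy.resolve_right hlam0.ne'
    rw [hgp.re_inj a ha b hb h1]
  · intro x hx y hy hxy
    obtain ⟨a, ha, rfl⟩ := hmem x hx
    obtain ⟨b, hb, rfl⟩ := hmem y hy
    have h1 : a.im = b.im := by
      simp at hxy
      exact hxy.resolve_right hlam0.ne'
    rw [hgp.im_inj a ha b hb h1]
  · intro z hz
    obtain ⟨w, hw, rfl⟩ := hdown z hz
    by_contra hcon
    rw [not_le] at hcon
    set S := Nr (P2.image (fun z : ℂ => (lam : ℂ) * z)) ((lam : ℂ) * w) with hS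
    obtain ⟨x1, hx1⟩ : S.Nonempty := Finset.card_pos.1 (by omega)
    have hcard2 : 2 < (S.erase x1).card := by
      rw [Finset.card_erase_of_mem hx1]
      omega
    obtain ⟨x2, hx2, x3, hx3, x4, hx4, h23, h24, h34⟩ := Finset.two_lt_card.1 hcard2
    rw [Finset.mem_erase] at hx2 hx3 hx4
    obtain ⟨a1, ha1, e1⟩ := hmem x1 (mem_Nr.1 hx1).1
    obtain ⟨a2, ha2, e2⟩ := hmem x2 (mem_Nr.1 hx2.2).1
    obtain ⟨a3, ha3, e3⟩ := hmem x3 (mem_Nr.1 hx3.2).1
    obtain ⟨a4, ha4, e4⟩ := hmem x4 (mem_Nr.1 hx4.2).1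
    have hne : ∀ {x y : ℂ} {a b : ℂ}, x = lam * a → y = lam * b → x ≠ y → a ≠ b := by
      intro x y a b hx hy hxy hab
      exact hxy (by rw [hx, hy, hab])
    exact hgp.four w a1 ha1 a2 ha2 a3 ha3 a4 ha4 (hne e1 e2 hx2.1.symm) (hne e1 e3 hx3.1.symm)
      (hne e1 e4 hx4.1.symm) (hne e2 e3 h23) (hne e2 e4 h24) (hne e3 e4 h34)
      (hNr w x1 hx1 x2 hx2.2 a1 a2 e1 e2) (hNr w x1 hx1 x3 hx3.2 a1 a3 e1 e3)
      (hNr w x1 hx1 x4 hx4.2 a1 a4 e1 e4)
  · intro z hz k hk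
    obtain ⟨w, hw, rfl⟩ := hdown z hz
    rw [hdw] at hk
    have hk' : dw A B k w = 0 := (mul_eq_zero.1 hk).resolve_left hlam0.ne'
    by_contra hcon
    rw [not_le] at hcon
    obtain ⟨x2, hx2, x3, hx3, x4, hx4, h23, h24, h34⟩ := Finset.two_lt_card.1 hcon
    obtain ⟨a2, ha2, e2⟩ := hmem x2 (mem_Nr.1 hx2).1
    obtain ⟨a3, ha3, e3⟩ := hmem x3 (mem_Nr.1 hx3).1
    obtain ⟨a4, ha4, e4⟩ := hmem x4 (mem_Nr.1 hx4).1
    have hne : ∀ {x y : ℂ} {a b : ℂ}, x = lam * a → y = lam * b → x ≠ y → a ≠ b := by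
      intro x y a b hx hy hxy hab
      exact hxy (by rw [hx, hy, hab])
    exact hgp.three w k hk' a2 ha2 a3 ha3 a4 ha4 (hne e2 e3 h23) (hne e2 e4 h24) (hne e3 e4 h34)
      (hNr w x2 hx2 x3 hx3 a2 a3 e2 e3) (hNr w x2 hx2 x4 hx4 a2 a4 e2 e4)
  · intro z hz k l hkl hk hl
    obtain ⟨w, hw, rfl⟩ := hdown z hz
    rw [hdw] at hk hl
    have hk' : dw A B k w = 0 := (mul_eq_zero.1 hk).resolve_left hlam0.ne'
    have hl' : dw A B l w = 0 := (mul_eq_zero.1 hl).resolve_left hlam0.ne'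
    obtain ⟨j, hj⟩ := g10_corner hA hB hkl hk' hl'
    by_contra hcon
    rw [not_le] at hcon
    obtain ⟨x2, hx2, x3, hx3, h23⟩ := Finset.one_lt_card.1 hcon
    obtain ⟨a2, ha2, e2⟩ := hmem x2 (mem_Nr.1 hx2).1
    obtain ⟨a3, ha3, e3⟩ := hmem x3 (mem_Nr.1 hx3).1
    have h1 := hNr w x2 hx2 x3 hx3 a2 a3 e2 e3
    rw [hj] at h1
    exact hgp.two j a2 ha2 a3 ha3 (fun hab => h23 (by rw [e2, e3, hab])) h1

/-- a continuous upper bound for generic saturated configurations holds for all -/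
theorem reduce {L : ℝ} (Φ : ℝ × ℝ → ℝ) (hΦ : Continuous Φ)
    (hgen : ∀ A B : ℝ, L ≤ A → L ≤ B → ∀ P : Finset ℂ, Gen A B P → (P.card : ℝ) ≤ Φ (A, B))
    {A B : ℝ} (hA : 0 < A) (hB : 0 < B) (hAL : L ≤ A) (hBL : L ≤ B) {N : ℕ} (h : Fits A B N) :
    (N : ℝ) ≤ Φ (A, B) := by
  by_contra hcon
  rw [not_le] at hcon
  obtain ⟨P, hNP, hsub, hsep, hsat⟩ := h.saturated
  obtain ⟨δ, hδ, hcont⟩ := Metric.continuous_iff.1 hΦ (A, B) (N - Φ (A, B)) (by linarith)
  obtain ⟨A', B', P', h1, h2, h3, h4, h5, hG⟩ := exists_Gen hA hB hsub hsep hsat hδ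
  have h6 := hgen A' B' (hAL.trans h1) (hBL.trans h3) P' hG
  have h7 := hcont (A', B') (by
    rw [Prod.dist_eq, max_lt_iff]
    constructor
    · rw [Real.dist_eq, abs_of_nonneg (by linarith)]
      linarith
    · rw [Real.dist_eq, abs_of_nonneg (by linarith)]
      linarith)
  rw [Real.dist_eq] at h7
  have h8 := (abs_lt.1 h7).2
  have h9 : (N : ℝ) ≤ P'.card := by
    rw [h5]
    exact_mod_cast hNP
  linarith

end Pool.Agent.LG
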