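import Pool.Agent.Lib.MP_8026b0_co.N02
import Pool.Agent.Lib.MP_8026b0_co.G10

set_option autoImplicit false

/-! Row N03: from discs to points, and the two lower bounds for the area. -/

namespace Pool.Agent.LG

theorem Holds.fits {n : ℕ} {a b : ℝ} (h : Holds n a b) :
    Fits ((a - 2) / 2) ((b - 2) / 2) n := by
  classical
  obtain ⟨x, y, hbox, hdist⟩ := h
  set p : Fin n → ℂ := fun i => ⟨(x i - 1) / 2, (y i - 1) / 2⟩ with hp
  have hd : ∀ i j, i ≠ j → 1 ≤ ‖p i - p j‖ := by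
    intro i j hij
    have h1 := hdist i j hij
    have h2 : ‖p i - p j‖ ^ 2 = ((x i - x j) ^ 2 + (y i - y j) ^ 2) / 4 := by
      rw [← Complex.normSq_eq_norm_sq, Complex.normSq_apply]
      simp only [hp, Complex.sub_re, Complex.sub_im]
      ring
    have h3 : (1 : ℝ) ^ 2 ≤ ‖p i - p j‖ ^ 2 := by
      rw [h2]
      linarith
    exact le_of_sq_le_sq h3 (norm_nonneg _)
  have hinj : Function.Injective p := by
    intro i j hij
    by_contra hne
    have := hd i j hne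
    rw [hij, sub_self, norm_zero] at this
    linarith
  refine ⟨Finset.univ.image p, ?_, ?_, ?_⟩
  · rw [Finset.card_image_of_injective _ hinj, Finset.card_univ, Fintype.card_fin]
  · intro q hq
    obtain ⟨i, -, rfl⟩ := Finset.mem_image.mp hq
    obtain ⟨h1, h2, h3, h4⟩ := hbox i
    refine ⟨?_, ?_, ?_, ?_⟩ <;> simp only [hp] <;> linarith
  · intro q hq q' hq' hne
    obtain ⟨i, -, rfl⟩ := Finset.mem_image.mp hq
    obtain ⟨j, -, rfl⟩ := Finset.mem_image.mp hq'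
    exact hd i j fun h => hne (by rw [h])

theorem Holds.two_le {n : ℕ} {a b : ℝ} (h : Holds n a b) (hn : 0 < n) : 2 ≤ a ∧ 2 ≤ b := by
  obtain ⟨x, y, hbox, -⟩ := h
  obtain ⟨h1, h2, h3, h4⟩ := hbox ⟨0, hn⟩
  exact ⟨by linarith, by linarith⟩

/-- the main inequality for points -/
def MainIneq : Prop :=
  ∃ C : ℝ, 0 ≤ C ∧ ∀ A B : ℝ, 0 ≤ A → 0 ≤ B → ∀ N : ℕ, Fits A B N →
    (N : ℝ) ≤ 2 / Real.sqrt 3 * A * B + A + B + 1 - 2 * ((3 - Real.sqrt 3) / 6) * min A B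
      + C * (1 + Real.sqrt (A + B))

/-- Oler's inequality for points -/
def OlerIneq : Prop :=
  ∀ A B : ℝ, 0 ≤ A → 0 ≤ B → ∀ N : ℕ, Fits A B N →
    (N : ℝ) ≤ 2 / Real.sqrt 3 * A * B + A + B + 1

theorem area_main (h : MainIneq) : ∃ C : ℝ, 0 ≤ C ∧ ∀ n : ℕ, 0 < n → ∀ a b : ℝ, a ≤ b →
    Holds n a b → 2 * Real.sqrt 3 * n + a + (2 - Real.sqrt 3) * b - C * Real.sqrt (a + b)
      ≤ a * b := by
  obtain ⟨C, hC, hmain⟩ := h
  have hs : Real.sqrt 3 ^ 2 = 3 := Real.sq_sqrt (by norm_num)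
  have hs0 : 0 < Real.sqrt 3 := Real.sqrt_pos.mpr (by norm_num)
  refine ⟨1 + 4 * Real.sqrt 3 * C, by positivity, ?_⟩
  intro n hn a b hab hh
  obtain ⟨ha, hb⟩ := hh.two_le hn
  have h1 := hmain ((a - 2) / 2) ((b - 2) / 2) (by linarith) (by linarith) n hh.fits
  rw [min_eq_left (by linarith : (a - 2) / 2 ≤ (b - 2) / 2)] at h1
  have hq : 2 ≤ Real.sqrt (a + b) := Real.le_sqrt_of_sq_le (by nlinarith)
  have hq' : Real.sqrt ((a - 2) / 2 + (b - 2) / 2) ≤ Real.sqrt (a + b) :=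
    Real.sqrt_le_sqrt (by linarith)
  set Q := Real.sqrt (a + b)
  set Q' := Real.sqrt ((a - 2) / 2 + (b - 2) / 2)
  set s := Real.sqrt 3
  have h2 : 2 / s * ((a - 2) / 2) * ((b - 2) / 2) * (2 * s) = (a - 2) * (b - 2) := by
    field_simp
  have h3 := mul_le_mul_of_nonneg_left h1 (show (0 : ℝ) ≤ 2 * s by positivity)
  have h4 : 2 * s * (2 / s * ((a - 2) / 2) * ((b - 2) / 2) + (a - 2) / 2 + (b - 2) / 2 + 1 -
      2 * ((3 - s) / 6) * ((a - 2) / 2) + C * (1 + Q')) =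
      a * b - a - (2 - s) * b + 2 + 2 * s * C * (1 + Q') := by
    have h5 : 2 * s * (2 / s * ((a - 2) / 2) * ((b - 2) / 2)) = (a - 2) * (b - 2) := by
      rw [← h2]
      ring
    linear_combination h5 + (a - 2) / 3 * hs
  rw [h4] at h3
  have h6 : 2 * s * C * (1 + Q') ≤ 2 * s * C * (2 * Q) := by
    have : 0 ≤ 2 * s * C := by positivity
    exact mul_le_mul_of_nonneg_left (by linarith) this
  nlinarith

theorem area_oler (h : OlerIneq) : ∀ n : ℕ, 0 < n → ∀ a b : ℝ,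
    Holds n a b → 2 * Real.sqrt 3 * n + (2 - Real.sqrt 3) * (a + b) - 2 ≤ a * b := by
  have hs : Real.sqrt 3 ^ 2 = 3 := Real.sq_sqrt (by norm_num)
  have hs0 : 0 < Real.sqrt 3 := Real.sqrt_pos.mpr (by norm_num)
  intro n hn a b hh
  obtain ⟨ha, hb⟩ := hh.two_le hn
  have h1 := h ((a - 2) / 2) ((b - 2) / 2) (by linarith) (by linarith) n hh.fits
  set s := Real.sqrt 3
  have h3 := mul_le_mul_of_nonneg_left h1 (show (0 : ℝ) ≤ 2 * s by positivity)
  have h5 : 2 * s * (2 / s * ((a - 2) / 2) * ((b - 2) / 2)) = (a - 2) * (b - 2) := by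
    field_simp
  have h4 : 2 * s * (2 / s * ((a - 2) / 2) * ((b - 2) / 2) + (a - 2) / 2 + (b - 2) / 2 + 1) =
      a * b - (2 - s) * (a + b) + 4 - 2 * s := by
    linear_combination h5
  rw [h4] at h3
  have h6 : 1 ≤ s := by nlinarith
  linarith

end Pool.Agent.LG
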