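import Pool.Agent.Lib.MP_8026b0_co.CDef

set_option autoImplicit false

/-! Row C04: elementary properties of the vertex function. -/

namespace Pool.Agent.LG

open Complex

theorem c04_sq {w : ℂ} (hw : ‖w‖ = 1) : w.re ^ 2 + w.im ^ 2 = 1 := by
  have h := Complex.sq_norm w
  rw [hw, Complex.normSq_apply] at h
  linarith

theorem c04_kap_pos : 0 < kap := by
  unfold kap
  positivity

theorem c04_chi_kap : chi * (2 / 3) ≤ kap := by
  unfold chi kap
  have h : (1 : ℝ) ≤ Real.sqrt 3 := by
    rw [show (1 : ℝ) = Real.sqrt 1 by simp]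
    exact Real.sqrt_le_sqrt (by norm_num)
  linarith

theorem c04_chi_kap' : 4 * chi ≤ kap := by
  unfold chi kap
  have h : (1.7 : ℝ) ≤ Real.sqrt 3 := by
    rw [show (1.7 : ℝ) = Real.sqrt (1.7 ^ 2) by rw [Real.sqrt_sq (by norm_num)]]
    exact Real.sqrt_le_sqrt (by norm_num)
  linarith

theorem c04_Xi0_nonneg {x y : ℝ} (hy : 0 ≤ y) : 0 ≤ Xi0 x y := by
  unfold Xi0
  refine le_min (mul_nonneg c04_kap_pos.le hy) (mul_nonneg (by unfold chi; norm_num) (le_max_left _ _))

theorem c04_Xi0_le_kap {x y : ℝ} : Xi0 x y ≤ kap * y := min_le_left _ _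

theorem c04_Xi0_le_chi {x y : ℝ} : Xi0 x y ≤ chi * max 0 ((1 + 2 * x) / 3) := min_le_right _ _

theorem c04_Xi0_zero (x : ℝ) : Xi0 x 0 = 0 :=
  le_antisymm (by have := c04_Xi0_le_kap (x := x) (y := 0); simpa using this) (c04_Xi0_nonneg le_rfl)

theorem u6_norm {v : ℂ} (hv : v ≠ 0) : ‖u6 v‖ = 1 := by
  unfold u6
  rw [norm_pow, norm_div, Complex.norm_real, norm_norm, div_self (norm_ne_zero_iff.2 hv), one_pow]

theorem u6_neg (v : ℂ) : u6 (-v) = u6 v := by
  unfold u6
  rw [norm_neg, neg_div, Even.neg_pow (by decide)]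

theorem u6_negI (v : ℂ) : u6 (-I * v) = - u6 v := by
  unfold u6
  rw [norm_mul, norm_neg, Complex.norm_I, one_mul, mul_div_assoc, mul_pow]
  have h : (-I : ℂ) ^ 6 = -1 := by
    rw [Even.neg_pow (by decide), show (6 : ℕ) = 2 * 3 by norm_num, pow_mul, Complex.I_sq]
    norm_num
  rw [h]
  ring

theorem XX_neg (v : ℂ) : XX (-v) = XX v := by
  unfold XX
  rw [norm_neg, u6_neg]

theorem c04_max_le {x : ℝ} (h : x ≤ 1) : max 0 ((1 + 2 * x) / 3) ≤ 1 := max_le (by norm_num) (by linarith)

theorem Xi_bound {w : ℂ} (hw : ‖w‖ = 1) : |Xi w| ≤ 7 / 1250 := by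
  have hre : w.re ≤ 1 := by
    have := Complex.re_le_norm w
    rwa [hw] at this
  have h1 : ∀ y : ℝ, 0 ≤ y → |Xi0 w.re y| ≤ 7 / 1250 := by
    intro y hy
    rw [abs_of_nonneg (c04_Xi0_nonneg hy)]
    refine c04_Xi0_le_chi.trans ?_
    have h2 := c04_max_le hre
    unfold chi
    linarith
  unfold Xi
  split_ifs with h
  · exact h1 _ h
  · rw [abs_neg]
    exact h1 _ (by linarith)

theorem XX_bound {v : ℂ} (hv : v ≠ 0) : |XX v| ≤ 7 / 1250 := by
  unfold XX
  split_ifs with h
  · exact Xi_bound (u6_norm hv)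
  · exact Xi_bound (by rw [norm_neg]; exact u6_norm hv)

/-- `Xi` is odd under complex conjugation -/
theorem Xi_conj {w : ℂ} : Xi (starRingEnd ℂ w) = - Xi w := by
  unfold Xi
  rw [Complex.conj_re, Complex.conj_im]
  rcases lt_trichotomy w.im 0 with h | h | h
  · rw [if_pos (by linarith), if_neg (by linarith), neg_neg]
  · rw [h, neg_zero, if_pos le_rfl, c04_Xi0_zero, if_pos le_rfl, neg_zero]
  · rw [if_neg (by linarith), if_pos h.le, neg_neg]

theorem c04_maxdiff (x x' : ℝ) : |max 0 ((1 + 2 * x') / 3) - max 0 ((1 + 2 * x) / 3)| ≤ 2 / 3 * |x' - x| := by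
  have h := abs_max_sub_max_le_max (0 : ℝ) ((1 + 2 * x') / 3) 0 ((1 + 2 * x) / 3)
  rw [sub_self, abs_zero, show (1 + 2 * x') / 3 - (1 + 2 * x) / 3 = 2 / 3 * (x' - x) by ring, abs_mul,
    abs_of_pos (by norm_num : (0 : ℝ) < 2 / 3)] at h
  exact h.trans (max_le (by positivity) le_rfl)

theorem c04_Xi0_lip (x y x' y' D : ℝ) (hx : |x' - x| ≤ D) (hy : |y' - y| ≤ D) : |Xi0 x' y' - Xi0 x y| ≤ kap * D := by
  unfold Xi0
  have h := abs_min_sub_min_le_max (kap * y') (chi * max 0 ((1 + 2 * x') / 3)) (kap * y)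
    (chi * max 0 ((1 + 2 * x) / 3))
  refine h.trans (max_le ?_ ?_)
  · rw [← mul_sub, abs_mul, abs_of_pos c04_kap_pos]
    exact mul_le_mul_of_nonneg_left hy c04_kap_pos.le
  · have hc : (0 : ℝ) < chi := by unfold chi; norm_num
    rw [← mul_sub, abs_mul, abs_of_pos hc]
    have h1 := c04_maxdiff x x'
    have h2 := c04_chi_kap
    have h3 : 0 ≤ |x' - x| := abs_nonneg _
    calc chi * |max 0 ((1 + 2 * x') / 3) - max 0 ((1 + 2 * x) / 3)| ≤ chi * (2 / 3 * |x' - x|) :=
          mul_le_mul_of_nonneg_left h1 hc.le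
      _ = chi * (2 / 3) * |x' - x| := by ring
      _ ≤ kap * |x' - x| := mul_le_mul_of_nonneg_right h2 h3
      _ ≤ kap * D := mul_le_mul_of_nonneg_left hx c04_kap_pos.le

theorem c04_re (w w' : ℂ) : |w'.re - w.re| ≤ ‖w' - w‖ := by
  have := Complex.abs_re_le_norm (w' - w)
  rwa [Complex.sub_re] at this

theorem c04_im (w w' : ℂ) : |w'.im - w.im| ≤ ‖w' - w‖ := by
  have := Complex.abs_im_le_norm (w' - w)
  rwa [Complex.sub_im] at this

/-- two-sided Lipschitz bound -/
theorem Xi_lip {w w' : ℂ} (hw : ‖w‖ = 1) (hw' : ‖w'‖ = 1) :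
    |Xi w' - Xi w| ≤ kap * ‖w' - w‖ := by
  have h1 := c04_re w w'
  have h2 := c04_im w w'
  have hk := c04_kap_pos
  unfold Xi
  split_ifs with ha hb hb
  · exact c04_Xi0_lip _ _ _ _ _ h1 h2
  · have e1 := c04_Xi0_nonneg (x := w'.re) ha
    have e2 := c04_Xi0_nonneg (x := w.re) (y := -w.im) (by linarith)
    have e3 := c04_Xi0_le_kap (x := w'.re) (y := w'.im)
    have e4 := c04_Xi0_le_kap (x := w.re) (y := -w.im)
    have e5 := (abs_le.1 h2).2
    rw [abs_of_nonneg (by linarith)]
    have e6 := mul_le_mul_of_nonneg_left e5 hk.le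
    linarith
  · have e1 := c04_Xi0_nonneg (x := w.re) hb
    have e2 := c04_Xi0_nonneg (x := w'.re) (y := -w'.im) (by linarith)
    have e3 := c04_Xi0_le_kap (x := w.re) (y := w.im)
    have e4 := c04_Xi0_le_kap (x := w'.re) (y := -w'.im)
    have e5 := (abs_le.1 h2).1
    rw [abs_of_nonpos (by linarith)]
    have e6 := mul_le_mul_of_nonneg_left e5 hk.le
    linarith
  · have h3 : |-w'.im - -w.im| ≤ ‖w' - w‖ := by
      rw [show -w'.im - -w.im = -(w'.im - w.im) by ring, abs_neg]
      exact h2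
    have h4 := c04_Xi0_lip w.re (-w.im) w'.re (-w'.im) _ h1 h3
    rw [show -Xi0 w'.re (-w'.im) - -Xi0 w.re (-w.im) = -(Xi0 w'.re (-w'.im) - Xi0 w.re (-w.im)) by ring, abs_neg]
    exact h4

/-- both points in the upper half plane -/
theorem c04_upper {x y x' y' D : ℝ} (h1 : x ^ 2 + y ^ 2 = 1) (h2 : x' ^ 2 + y' ^ 2 = 1) (hy : 0 ≤ y) (hy' : 0 ≤ y')
    (hc : 0 ≤ x' * y - y' * x) (hx : |x' - x| ≤ D) : Xi0 x' y' - Xi0 x y ≤ 2 / 3 * chi * D := by
  have hchi : (0 : ℝ) < chi := by unfold chi; norm_num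
  have hkap := c04_kap_pos
  have hD : 0 ≤ D := (abs_nonneg _).trans hx
  have hx1 : x ≤ 1 := by nlinarith
  rcases le_total (chi * max 0 ((1 + 2 * x) / 3)) (kap * y) with h | h
  · have e1 : Xi0 x y = chi * max 0 ((1 + 2 * x) / 3) := min_eq_right h
    have e2 := c04_Xi0_le_chi (x := x') (y := y')
    have e3 := (abs_le.1 (c04_maxdiff x x')).2
    rw [e1]
    have e4 : chi * (max 0 ((1 + 2 * x') / 3) - max 0 ((1 + 2 * x) / 3)) ≤ chi * (2 / 3 * |x' - x|) :=
      mul_le_mul_of_nonneg_left e3 hchi.le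
    have e5 : chi * (2 / 3 * |x' - x|) ≤ chi * (2 / 3 * D) :=
      mul_le_mul_of_nonneg_left (mul_le_mul_of_nonneg_left hx (by norm_num)) hchi.le
    linarith
  · have e1 : Xi0 x y = kap * y := min_eq_left h
    have e2 := c04_Xi0_le_kap (x := x') (y := y')
    have hb : 0 ≤ 2 / 3 * chi * D := by positivity
    rw [e1]
    rcases le_or_gt ((1 + 2 * x) / 3) 0 with h3 | h3
    · -- then y = 0
      rw [max_eq_left h3, mul_zero] at h
      have hy0 : y = 0 := by
        have : kap * y ≤ kap * 0 := by linarith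
        exact le_antisymm (le_of_mul_le_mul_left this hkap) hy
      subst hy0
      have hx2 : x = -1 := by nlinarith
      have e3 := c04_Xi0_le_chi (x := x') (y := y')
      have e4 := (abs_le.1 (c04_maxdiff x x')).2
      rw [max_eq_left h3] at e4
      have e5 : chi * (max 0 ((1 + 2 * x') / 3) - 0) ≤ chi * (2 / 3 * |x' - x|) :=
        mul_le_mul_of_nonneg_left e4 hchi.le
      have e6 : chi * (2 / 3 * |x' - x|) ≤ chi * (2 / 3 * D) :=
        mul_le_mul_of_nonneg_left (mul_le_mul_of_nonneg_left hx (by norm_num)) hchi.le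
      linarith
    · have h4 := c04_max_le hx1
      have h5 : chi * max 0 ((1 + 2 * x) / 3) ≤ chi * 1 := mul_le_mul_of_nonneg_left h4 hchi.le
      have h6 : 4 * chi * y ≤ chi := by
        have := mul_le_mul_of_nonneg_right c04_chi_kap' hy
        linarith
      have h7 : y ≤ 1 / 4 := by
        have : chi * (4 * y) ≤ chi * 1 := by linarith
        have := le_of_mul_le_mul_left this hchi
        linarith
      have hx0 : 0 < x := by nlinarith
      have hyy : y' ≤ y := by
        by_contra hcon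
        push Not at hcon
        have h8 : 0 < y' := by linarith
        have h9 : 0 < y' * x := mul_pos h8 hx0
        have h10 : y' * x ≤ x' * y := by linarith
        have h11 : (y' * x) ^ 2 ≤ (x' * y) ^ 2 := pow_le_pow_left₀ h9.le h10 2
        have h12 : y' ^ 2 ≤ y ^ 2 := by nlinarith
        have h13 : y ^ 2 < y' ^ 2 := by nlinarith
        linarith
      have h14 := mul_le_mul_of_nonneg_left hyy hkap.le
      linarith

theorem c04_cross {x y x' y' D : ℝ} (h1 : x ^ 2 + y ^ 2 = 1) (h2 : x' ^ 2 + y' ^ 2 = 1) (hy : y < 0) (hy' : 0 ≤ y')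
    (hc : 0 ≤ x' * y - y' * x) (hx : |x' - x| ≤ D) (hD : D ^ 2 = (x' - x) ^ 2 + (y' - y) ^ 2) :
    max 0 ((1 + 2 * x') / 3) + max 0 ((1 + 2 * x) / 3) ≤ 2 / 3 * D := by
  have hD0 : 0 ≤ D := (abs_nonneg _).trans hx
  obtain ⟨hx1, hx2⟩ := abs_le.1 hx
  rcases le_or_gt ((1 + 2 * x') / 3) 0 with ha | ha
  · rw [max_eq_left ha]
    rcases le_or_gt ((1 + 2 * x) / 3) 0 with hb | hb
    · rw [max_eq_left hb]
      linarith
    · rw [max_eq_right hb.le]
      linarith
  · rw [max_eq_right ha.le]
    rcases le_or_gt ((1 + 2 * x) / 3) 0 with hb | hb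
    · rw [max_eq_left hb]
      linarith
    · rw [max_eq_right hb.le]
      have hs : x + x' ≤ 0 := by
        by_contra hcon
        push Not at hcon
        have hc' : x' * (-y) + x * y' ≤ 0 := by linarith
        rcases le_total 0 x with h3 | h3
        · rcases le_total 0 x' with h4 | h4
          · have h5 : x' * (-y) = 0 := by
              have a1 : 0 ≤ x' * (-y) := mul_nonneg h4 (by linarith)
              have a2 : 0 ≤ x * y' := mul_nonneg h3 hy'
              linarith
            have h6 : x' = 0 := by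
              rcases mul_eq_zero.1 h5 with h | h
              · exact h
              · linarith
            subst h6
            have h7 : y' = 1 := by nlinarith
            subst h7
            linarith
          · -- x' ≤ 0 < x, x > -x'
            have h5 : y ^ 2 < y' ^ 2 := by nlinarith
            have h6 : -y < y' := by nlinarith
            nlinarith
        · -- x ≤ 0 < x'
          have h5 : y' ^ 2 < y ^ 2 := by nlinarith
          have h6 : y' < -y := by nlinarith
          nlinarith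
      have hD1 : 1 ≤ D := by
        have h3 : 1 ≤ D ^ 2 := by
          have h4 : y' * y ≤ 0 := mul_nonpos_of_nonneg_of_nonpos hy' hy.le
          have h5 : x' * x ≤ 1 / 4 := by
            rcases le_total 0 x with h6 | h6
            · have h7 : x' * x ≤ 0 := mul_nonpos_of_nonpos_of_nonneg (by linarith) h6
              linarith
            · rcases le_total 0 x' with h7 | h7
              · have h8 : x' * x ≤ 0 := mul_nonpos_of_nonneg_of_nonpos h7 h6
                linarith
              · have h8 : (-x') * (-x) ≤ 1 / 2 * (1 / 2) :=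
                  mul_le_mul (by linarith) (by linarith) (by linarith) (by norm_num)
                linarith
          have h6 : D ^ 2 = 2 - 2 * (x' * x) - 2 * (y' * y) := by
            rw [hD]
            linear_combination h1 + h2
          rw [h6]
          linarith
        by_contra hcon
        push Not at hcon
        have h4 : D ^ 2 < 1 ^ 2 := pow_lt_pow_left₀ hcon hD0 (by norm_num)
        linarith
      linarith

/-- one-sided Lipschitz bound: `w'` arises from `w` by a clockwise rotation by at most `π` -/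
theorem Xi_one_sided {w w' : ℂ} (hw : ‖w‖ = 1) (hw' : ‖w'‖ = 1) (h : 0 ≤ cr w' w) :
    Xi w' - Xi w ≤ 2 / 3 * chi * ‖w' - w‖ := by
  have hchi : (0 : ℝ) < chi := by unfold chi; norm_num
  have s1 := c04_sq hw
  have s2 := c04_sq hw'
  have h1 := c04_re w w'
  unfold cr at h
  have hb : 0 ≤ 2 / 3 * chi * ‖w' - w‖ := by positivity
  unfold Xi
  split_ifs with ha hb' hb'
  · exact c04_upper s1 s2 hb' ha h h1
  · have hD : ‖w' - w‖ ^ 2 = (w'.re - w.re) ^ 2 + (w'.im - w.im) ^ 2 := by
      rw [Complex.sq_norm, Complex.normSq_apply, Complex.sub_re, Complex.sub_im]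
      ring
    have h2 := c04_cross s1 s2 (by linarith) ha h h1 hD
    have h3 := c04_Xi0_le_chi (x := w'.re) (y := w'.im)
    have h4 := c04_Xi0_le_chi (x := w.re) (y := -w.im)
    have h5 := mul_le_mul_of_nonneg_left h2 hchi.le
    linarith
  · have e1 := c04_Xi0_nonneg (x := w.re) hb'
    have e2 := c04_Xi0_nonneg (x := w'.re) (y := -w'.im) (by linarith)
    linarith
  · have h2 : |w.re - w'.re| ≤ ‖w' - w‖ := by rw [abs_sub_comm]; exact h1
    have h3 := c04_upper (x := w'.re) (y := -w'.im) (x' := w.re) (y' := -w.im) (by linarith) (by linarith)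
      (by linarith) (by linarith) (by linarith) h2
    linarith

/-- `Xi` vanishes near `-1` -/
theorem Xi_zero {w : ℂ} (hw : ‖w‖ = 1) (h : ‖w + 1‖ ≤ 1) : Xi w = 0 := by
  have s1 := c04_sq hw
  have h1 : ‖w + 1‖ ^ 2 ≤ 1 := by
    have := norm_nonneg (w + 1)
    nlinarith
  rw [Complex.sq_norm, Complex.normSq_apply] at h1
  simp only [Complex.add_re, Complex.add_im, Complex.one_re, Complex.one_im, add_zero] at h1
  have h2 : w.re ≤ -1 / 2 := by nlinarith
  have h3 : ∀ y : ℝ, 0 ≤ y → Xi0 w.re y = 0 := by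
    intro y hy
    refine le_antisymm ?_ (c04_Xi0_nonneg hy)
    refine c04_Xi0_le_chi.trans ?_
    rw [max_eq_left (by linarith), mul_zero]
  unfold Xi
  split_ifs with ha
  · exact h3 _ ha
  · rw [h3 _ (by linarith), neg_zero]

end Pool.Agent.LG
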