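import Pool.Agent.Lib.MP_8026b0_co.WDef

set_option autoImplicit false

/-! Row W03: short lengths are compared with unit length. -/

namespace Pool.Agent.LG

private theorem W03_b5_lo {l : ℝ} (hl : 1 ≤ l) (hl2 : l ≤ 27 / 20) :
    -(49 / 50) ≤
      1 / 4 - 1147 / 400 * l - 1147 / 400 * l ^ 2 + 4123 / 1000 * l ^ 3 + 4123 / 1000 * l ^ 4 - 2411 / 1000 * l ^ 5
      - 2411 / 1000 * l ^ 6 + 3 / 5 * l ^ 7 + 3 / 5 * l ^ 8 - 21 / 400 * l ^ 9 - 21 / 400 * l ^ 10 := by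
  have h1 : 0 ≤ l - 1 := by linarith
  have h2 : 0 ≤ 27 / 20 - l := by linarith
  have hb : 0 ≤
      (20480000000 / 40353607) * (l - 1) ^ 0 * (27 / 20 - l) ^ 10 + (1095680000000 / 40353607) * (l
      - 1) ^ 1 * (27 / 20 - l) ^ 9 + (8780390400000 / 40353607) * (l - 1) ^ 2 * (27 / 20 - l) ^ 8
      + (32765459200000 / 40353607) * (l - 1) ^ 3 * (27 / 20 - l) ^ 7 + (10181618368000 / 5764801) * (l
      - 1) ^ 4 * (27 / 20 - l) ^ 6 + (2008842694400 / 823543) * (l - 1) ^ 5 * (27 / 20 - l) ^ 5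
      + (12717662424640 / 5764801) * (l - 1) ^ 6 * (27 / 20 - l) ^ 4 + (52516843628240 / 40353607) * (l
      - 1) ^ 7 * (27 / 20 - l) ^ 3 + (19417556418398 / 40353607) * (l - 1) ^ 8 * (27 / 20 - l) ^ 2
      + (81383267730889 / 807072140) * (l - 1) ^ 9 * (27 / 20 - l) ^ 1 + (146817501976833 / 16141442800) * (l
      - 1) ^ 10 * (27 / 20 - l) ^ 0 := by
    positivity
  linarith [hb]

private theorem W03_b5_hi {l : ℝ} (hl : 1 ≤ l) (hl2 : l ≤ 27 / 20) :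
    1 / 4 - 1147 / 400 * l - 1147 / 400 * l ^ 2 + 4123 / 1000 * l ^ 3 + 4123 / 1000 * l ^ 4 - 2411 / 1000 * l ^ 5
    - 2411 / 1000 * l ^ 6 + 3 / 5 * l ^ 7 + 3 / 5 * l ^ 8 - 21 / 400 * l ^ 9 - 21 / 400 * l ^ 10 ≤ -(17 / 25) := by
  have h1 : 0 ≤ l - 1 := by linarith
  have h2 : 0 ≤ 27 / 20 - l := by linarith
  have hb : 0 ≤
      (2928640000000 / 282475249) * (l - 1) ^ 0 * (27 / 20 - l) ^ 10 + (23050240000000 / 282475249) * (l
      - 1) ^ 1 * (27 / 20 - l) ^ 9 + (76777267200000 / 282475249) * (l - 1) ^ 2 * (27 / 20 - l) ^ 8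
      + (139281785600000 / 282475249) * (l - 1) ^ 3 * (27 / 20 - l) ^ 7 + (20888671424000 / 40353607) * (l
      - 1) ^ 4 * (27 / 20 - l) ^ 6 + (12158707974400 / 40353607) * (l - 1) ^ 5 * (27 / 20 - l) ^ 5
      + (3136363027520 / 40353607) * (l - 1) ^ 6 * (27 / 20 - l) ^ 4 + (1022094602320 / 282475249) * (l
      - 1) ^ 7 * (27 / 20 - l) ^ 3 + (2317105071214 / 282475249) * (l - 1) ^ 8 * (27 / 20 - l) ^ 2
      + (44717125883777 / 5649504980) * (l - 1) ^ 9 * (27 / 20 - l) ^ 1 + (201077486162169 / 112990099600) * (l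
      - 1) ^ 10 * (27 / 20 - l) ^ 0 := by
    positivity
  linarith [hb]

private theorem W03_b7_lo {l : ℝ} (hl : 1 ≤ l) (hl2 : l ≤ 27 / 20) :
    -(179 / 100) ≤
      -1 / 4 - 1129 / 500 * l - 1129 / 500 * l ^ 2 + 241 / 125 * l ^ 3 + 241 / 125 * l ^ 4 - 233 / 500 * l ^ 5
      - 233 / 500 * l ^ 6 + 17 / 500 * l ^ 7 + 17 / 500 * l ^ 8 := by
  have h1 : 0 ≤ l - 1 := by linarith
  have h2 : 0 ≤ 27 / 20 - l := by linarith
  have hb : 0 ≤
      (409600000 / 5764801) * (l - 1) ^ 0 * (27 / 20 - l) ^ 8 + (22146560000 / 5764801) * (l - 1) ^ 1 * (27 / 20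
      - l) ^ 7 + (22797440000 / 823543) * (l - 1) ^ 2 * (27 / 20 - l) ^ 6 + (73426387200 / 823543) * (l
      - 1) ^ 3 * (27 / 20 - l) ^ 5 + (131597384640 / 823543) * (l - 1) ^ 4 * (27 / 20 - l) ^ 4
      + (140606096608 / 823543) * (l - 1) ^ 5 * (27 / 20 - l) ^ 3 + (446712006456 / 4117715) * (l
      - 1) ^ 6 * (27 / 20 - l) ^ 2 + (5465430182799 / 144120025) * (l - 1) ^ 7 * (27 / 20 - l) ^ 1
      + (16210584226397 / 2882400500) * (l - 1) ^ 8 * (27 / 20 - l) ^ 0 := by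
    positivity
  linarith [hb]

private theorem W03_b7_hi {l : ℝ} (hl : 1 ≤ l) (hl2 : l ≤ 27 / 20) :
    -1 / 4 - 1129 / 500 * l - 1129 / 500 * l ^ 2 + 241 / 125 * l ^ 3 + 241 / 125 * l ^ 4 - 233 / 500 * l ^ 5
    - 233 / 500 * l ^ 6 + 17 / 500 * l ^ 7 + 17 / 500 * l ^ 8 ≤ -(49 / 100) := by
  have h1 : 0 ≤ l - 1 := by linarith
  have h2 : 0 ≤ 27 / 20 - l := by linarith
  have hb : 0 ≤
      (32870400000 / 5764801) * (l - 1) ^ 0 * (27 / 20 - l) ^ 8 + (244093440000 / 5764801) * (l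
      - 1) ^ 1 * (27 / 20 - l) ^ 7 + (110322560000 / 823543) * (l - 1) ^ 2 * (27 / 20 - l) ^ 6
      + (192813612800 / 823543) * (l - 1) ^ 3 * (27 / 20 - l) ^ 5 + (201202615360 / 823543) * (l
      - 1) ^ 4 * (27 / 20 - l) ^ 4 + (125633903392 / 823543) * (l - 1) ^ 5 * (27 / 20 - l) ^ 3
      + (218887993544 / 4117715) * (l - 1) ^ 6 * (27 / 20 - l) ^ 2 + (1190569817201 / 144120025) * (l
      - 1) ^ 7 * (27 / 20 - l) ^ 1 + (429415773603 / 2882400500) * (l - 1) ^ 8 * (27 / 20 - l) ^ 0 := by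
    positivity
  linarith [hb]

private theorem W03_c0 {C r : ℝ} (hC : 0 ≤ C) (hw : C ≤ 8661 / 10000)
    (h1 : 17320508 / 10000000 ≤ r) (h2 : r ≤ 17320509 / 10000000) :
    0 ≤ (1 - (3 - r) / 6) / 2 + 2 * C * r / 3 + (3 - r) / 6 *
      ((-(49 / 50)) * (16 * C ^ 4 - 12 * C ^ 2 + 1)
        + (-(9 / 5)) * (64 * C ^ 6 - 80 * C ^ 4 + 24 * C ^ 2 - 1)) := by
  have e0 : 0 ≤ (33 / 50 - 4 / 75 * r - (567 / 1000)) * C ^ 0 := mul_nonneg (by linarith) (pow_nonneg hC 0)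
  have e1 : 0 ≤ (2 / 3 * r - (577 / 500)) * C ^ 1 := mul_nonneg (by linarith) (pow_nonneg hC 1)
  have e2 : 0 ≤ (-393 / 25 + 131 / 25 * r - (-(1329 / 200))) * C ^ 2 := mul_nonneg (by linarith) (pow_nonneg hC 2)
  have e4 : 0 ≤ (1604 / 25 - 1604 / 75 * r - (27117 / 1000)) * C ^ 4 := mul_nonneg (by linarith) (pow_nonneg hC 4)
  have e6 : 0 ≤ (-288 / 5 + 96 / 5 * r - (-(4869 / 200))) * C ^ 6 := mul_nonneg (by linarith) (pow_nonneg hC 6)
  have hv : 0 ≤ 8661 / 10000 - C := by linarith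
  have hb : 0 ≤
      (7000000000000000000000 / 5211025672116190307481) * C ^ 0 * (8661 / 10000 - C) ^ 6 + (1467159800000000000000000 / 140697693147137138301987) * C ^ 1 * (8661 / 10000
      - C) ^ 5 + (2839262799850000000000000 / 140697693147137138301987) * C ^ 2 * (8661 / 10000
      - C) ^ 4 + (465453199400000000000000 / 140697693147137138301987) * C ^ 3 * (8661 / 10000
      - C) ^ 3 + (1283570343793130639900000 / 140697693147137138301987) * C ^ 4 * (8661 / 10000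
      - C) ^ 2 + (6326033288786261279800000 / 140697693147137138301987) * C ^ 5 * (8661 / 10000
      - C) ^ 1 + (104305560975215401587625297 / 28139538629427427660397400) * C ^ 6 * (8661 / 10000
      - C) ^ 0 := by
    positivity
  linarith [hb, e0, e1, e2, e4, e6]

private theorem W03_c1 {C r : ℝ} (hC : 0 ≤ C) (hw : C ≤ 8661 / 10000)
    (h1 : 17320508 / 10000000 ≤ r) (h2 : r ≤ 17320509 / 10000000) :
    0 ≤ (1 - (3 - r) / 6) / 2 + 2 * C * r / 3 + (3 - r) / 6 *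
      ((-(49 / 50)) * (16 * C ^ 4 - 12 * C ^ 2 + 1)
        + (-(12 / 25)) * (64 * C ^ 6 - 80 * C ^ 4 + 24 * C ^ 2 - 1)) := by
  have e0 : 0 ≤ (1 / 6 * r - (36 / 125)) * C ^ 0 := mul_nonneg (by linarith) (pow_nonneg hC 0)
  have e1 : 0 ≤ (2 / 3 * r - (577 / 500)) * C ^ 1 := mul_nonneg (by linarith) (pow_nonneg hC 1)
  have e2 : 0 ≤ (3 / 25 - 1 / 25 * r - (1 / 20)) * C ^ 2 := mul_nonneg (by linarith) (pow_nonneg hC 2)
  have e4 : 0 ≤ (284 / 25 - 284 / 75 * r - (4801 / 1000)) * C ^ 4 := mul_nonneg (by linarith) (pow_nonneg hC 4)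
  have e6 : 0 ≤ (-384 / 25 + 128 / 25 * r - (-(1623 / 250))) * C ^ 6 := mul_nonneg (by linarith) (pow_nonneg hC 6)
  have hv : 0 ≤ 8661 / 10000 - C := by linarith
  have hb : 0 ≤
      (32000000000000000000000 / 46899231049045712767329) * C ^ 0 * (8661 / 10000 - C) ^ 6 + (909159800000000000000000 / 140697693147137138301987) * C ^ 1 * (8661 / 10000
      - C) ^ 5 + (3118301153500000000000000 / 140697693147137138301987) * C ^ 2 * (8661 / 10000
      - C) ^ 4 + (5301606614000000000000000 / 140697693147137138301987) * C ^ 3 * (8661 / 10000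
      - C) ^ 3 + (5747108616322923634700000 / 140697693147137138301987) * C ^ 4 * (8661 / 10000
      - C) ^ 2 + (4092803004645847269400000 / 140697693147137138301987) * C ^ 5 * (8661 / 10000
      - C) ^ 1 + (107187556227927333210875099 / 35174423286784284575496750) * C ^ 6 * (8661 / 10000
      - C) ^ 0 := by
    positivity
  linarith [hb, e0, e1, e2, e4, e6]

private theorem W03_c2 {C r : ℝ} (hC : 0 ≤ C) (hw : C ≤ 8661 / 10000)
    (h1 : 17320508 / 10000000 ≤ r) (h2 : r ≤ 17320509 / 10000000) :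
    0 ≤ (1 - (3 - r) / 6) / 2 + 2 * C * r / 3 + (3 - r) / 6 *
      ((-(17 / 25)) * (16 * C ^ 4 - 12 * C ^ 2 + 1)
        + (-(9 / 5)) * (64 * C ^ 6 - 80 * C ^ 4 + 24 * C ^ 2 - 1)) := by
  have e0 : 0 ≤ (81 / 100 - 31 / 300 * r - (631 / 1000)) * C ^ 0 := mul_nonneg (by linarith) (pow_nonneg hC 0)
  have e1 : 0 ≤ (2 / 3 * r - (577 / 500)) * C ^ 1 := mul_nonneg (by linarith) (pow_nonneg hC 1)
  have e2 : 0 ≤ (-438 / 25 + 146 / 25 * r - (-(1481 / 200))) * C ^ 2 := mul_nonneg (by linarith) (pow_nonneg hC 2)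
  have e4 : 0 ≤ (1664 / 25 - 1664 / 75 * r - (28131 / 1000)) * C ^ 4 := mul_nonneg (by linarith) (pow_nonneg hC 4)
  have e6 : 0 ≤ (-288 / 5 + 96 / 5 * r - (-(4869 / 200))) * C ^ 6 := mul_nonneg (by linarith) (pow_nonneg hC 6)
  have hv : 0 ≤ 8661 / 10000 - C := by linarith
  have hb : 0 ≤
      (631000000000000000000000 / 422093079441411414905961) * C ^ 0 * (8661 / 10000 - C) ^ 6 + (1595159800000000000000000 / 140697693147137138301987) * C ^ 1 * (8661 / 10000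
      - C) ^ 5 + (109971483950000000000000 / 5211025672116190307481) * C ^ 2 * (8661 / 10000 - C) ^ 4
      + (395966799800000000000000 / 422093079441411414905961) * C ^ 3 * (8661 / 10000 - C) ^ 3
      + (653564459706116385700000 / 140697693147137138301987) * C ^ 4 * (8661 / 10000 - C) ^ 2
      + (2024761128737410923800000 / 46899231049045712767329) * C ^ 5 * (8661 / 10000 - C) ^ 1
      + (325811352073437652242875891 / 84418615888282282981192200) * C ^ 6 * (8661 / 10000 - C) ^ 0 := by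
    positivity
  linarith [hb, e0, e1, e2, e4, e6]

private theorem W03_c3 {C r : ℝ} (hC : 0 ≤ C) (hw : C ≤ 8661 / 10000)
    (h1 : 17320508 / 10000000 ≤ r) (h2 : r ≤ 17320509 / 10000000) :
    0 ≤ (1 - (3 - r) / 6) / 2 + 2 * C * r / 3 + (3 - r) / 6 *
      ((-(17 / 25)) * (16 * C ^ 4 - 12 * C ^ 2 + 1)
        + (-(12 / 25)) * (64 * C ^ 6 - 80 * C ^ 4 + 24 * C ^ 2 - 1)) := by
  have e0 : 0 ≤ (3 / 20 + 7 / 60 * r - (44 / 125)) * C ^ 0 := mul_nonneg (by linarith) (pow_nonneg hC 0)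
  have e1 : 0 ≤ (2 / 3 * r - (577 / 500)) * C ^ 1 := mul_nonneg (by linarith) (pow_nonneg hC 1)
  have e2 : 0 ≤ (-42 / 25 + 14 / 25 * r - (-(711 / 1000))) * C ^ 2 := mul_nonneg (by linarith) (pow_nonneg hC 2)
  have e4 : 0 ≤ (344 / 25 - 344 / 75 * r - (1163 / 200)) * C ^ 4 := mul_nonneg (by linarith) (pow_nonneg hC 4)
  have e6 : 0 ≤ (-384 / 25 + 128 / 25 * r - (-(1623 / 250))) * C ^ 6 := mul_nonneg (by linarith) (pow_nonneg hC 6)
  have hv : 0 ≤ 8661 / 10000 - C := by linarith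
  have hb : 0 ≤
      (352000000000000000000000 / 422093079441411414905961) * C ^ 0 * (8661 / 10000 - C) ^ 6 + (1037159800000000000000000 / 140697693147137138301987) * C ^ 1 * (8661 / 10000
      - C) ^ 5 + (1082672792410000000000000 / 46899231049045712767329) * C ^ 2 * (8661 / 10000
      - C) ^ 4 + (14901426526760000000000000 / 422093079441411414905961) * C ^ 3 * (8661 / 10000
      - C) ^ 3 + (5115602473815909380500000 / 140697693147137138301987) * C ^ 4 * (8661 / 10000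
      - C) ^ 2 + (426672547754646529000000 / 15633077016348570922443) * C ^ 5 * (8661 / 10000 - C) ^ 1
      + (337493472816021308982625297 / 105523269860352853726490250) * C ^ 6 * (8661 / 10000 - C) ^ 0 := by
    positivity
  linarith [hb, e0, e1, e2, e4, e6]

theorem MP_short {l C S : ℝ} (hl : 1 ≤ l) (hl2 : l ≤ 27 / 20) (hC : 0 ≤ C) (hS : 1 / 2 ≤ S)
    (h : C ^ 2 + S ^ 2 = 1) : MP 1 C S ≤ MP l C S := by
  obtain ⟨r, hr⟩ : ∃ r : ℝ, r = Real.sqrt 3 := ⟨_, rfl⟩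
  have hr2 : r ^ 2 = 3 := by rw [hr]; exact Real.sq_sqrt (by norm_num)
  have hr0 : 0 ≤ r := by rw [hr]; exact Real.sqrt_nonneg _
  have hr1 : 17320508 / 10000000 ≤ r := by nlinarith
  have hr3 : r ≤ 17320509 / 10000000 := by nlinarith
  have hCC : C ^ 2 ≤ 3 / 4 := by nlinarith
  have hCw : C ≤ 8661 / 10000 := by nlinarith
  have hrp : 0 < r := by linarith
  have hinv : ∀ x : ℝ, x / r = x * r / 3 := by
    intro x
    rw [div_eq_div_iff hrp.ne' (by norm_num)]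
    linear_combination (-x) * hr2
  obtain ⟨b5, hb5⟩ : ∃ b5 : ℝ, b5 =
      1 / 4 - 1147 / 400 * l - 1147 / 400 * l ^ 2 + 4123 / 1000 * l ^ 3 + 4123 / 1000 * l ^ 4 - 2411 / 1000 * l ^ 5
      - 2411 / 1000 * l ^ 6 + 3 / 5 * l ^ 7 + 3 / 5 * l ^ 8 - 21 / 400 * l ^ 9 - 21 / 400 * l ^ 10 := ⟨_, rfl⟩
  obtain ⟨b7r, hb7r⟩ : ∃ b7r : ℝ, b7r =
      -1 / 4 - 1129 / 500 * l - 1129 / 500 * l ^ 2 + 241 / 125 * l ^ 3 + 241 / 125 * l ^ 4 - 233 / 500 * l ^ 5
      - 233 / 500 * l ^ 6 + 17 / 500 * l ^ 7 + 17 / 500 * l ^ 8 := ⟨_, rfl⟩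
  have h5lo : -(49 / 50) ≤ b5 := by rw [hb5]; exact W03_b5_lo hl hl2
  have h5hi : b5 ≤ -(17 / 25) := by rw [hb5]; exact W03_b5_hi hl hl2
  have h7lo : -(179 / 100) ≤ b7r := by rw [hb7r]; exact W03_b7_lo hl hl2
  have h7hi : b7r ≤ -(49 / 100) := by rw [hb7r]; exact W03_b7_hi hl hl2
  -- the correction term
  obtain ⟨b7, hb7⟩ : ∃ b7 : ℝ, b7 = b7r + (137 / 1000 - (5 - r) / 24) * (l * (l + 1) * (l ^ 2 - 3)) :=
    ⟨_, rfl⟩
  have hq1 : -(5 : ℝ) ≤ l * (l + 1) * (l ^ 2 - 3) := by nlinarith [mul_nonneg (sub_nonneg.2 hl) (sub_nonneg.2 hl2)]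
  have hq2 : l * (l + 1) * (l ^ 2 - 3) ≤ 0 := by
    have : l ^ 2 - 3 ≤ 0 := by nlinarith
    have h0 : 0 ≤ l * (l + 1) := by positivity
    exact mul_nonpos_of_nonneg_of_nonpos h0 this
  have he1 : 0 ≤ 137 / 1000 - (5 - r) / 24 := by linarith
  have he2 : 137 / 1000 - (5 - r) / 24 ≤ 1 / 1000 := by linarith
  have h7lo' : -(9 / 5) ≤ b7 := by rw [hb7]; nlinarith
  have h7hi' : b7 ≤ -(12 / 25) := by rw [hb7]; nlinarith
  have c0 := W03_c0 hC hCw hr1 hr3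
  have c1 := W03_c1 hC hCw hr1 hr3
  have c2 := W03_c2 hC hCw hr1 hr3
  have c3 := W03_c3 hC hCw hr1 hr3
  obtain ⟨U, hU⟩ : ∃ U : ℝ, U = 16 * C ^ 4 - 12 * C ^ 2 + 1 := ⟨_, rfl⟩
  obtain ⟨V, hV⟩ : ∃ V : ℝ, V = 64 * C ^ 6 - 80 * C ^ 4 + 24 * C ^ 2 - 1 := ⟨_, rfl⟩
  rw [← hU, ← hV] at c0 c1 c2 c3
  have hE : 0 ≤ (1 - (3 - r) / 6) / 2 + 2 * C * r / 3 + (3 - r) / 6 * (b5 * U + b7 * V) := by
    have k0 := mul_nonneg (mul_nonneg (sub_nonneg.2 h5hi) (sub_nonneg.2 h7hi')) c0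
    have k1 := mul_nonneg (mul_nonneg (sub_nonneg.2 h5hi) (sub_nonneg.2 h7lo')) c1
    have k2 := mul_nonneg (mul_nonneg (sub_nonneg.2 h5lo) (sub_nonneg.2 h7hi')) c2
    have k3 := mul_nonneg (mul_nonneg (sub_nonneg.2 h5lo) (sub_nonneg.2 h7lo')) c3
    have hid : (3 / 10) * (33 / 25) *
        ((1 - (3 - r) / 6) / 2 + 2 * C * r / 3 + (3 - r) / 6 * (b5 * U + b7 * V)) =
      (-(17 / 25) - b5) * (-(12 / 25) - b7) * ((1 - (3 - r) / 6) / 2 + 2 * C * r / 3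
        + (3 - r) / 6 * ((-(49 / 50)) * U + (-(9 / 5)) * V))
      + (-(17 / 25) - b5) * (b7 - -(9 / 5)) * ((1 - (3 - r) / 6) / 2 + 2 * C * r / 3
        + (3 - r) / 6 * ((-(49 / 50)) * U + (-(12 / 25)) * V))
      + (b5 - -(49 / 50)) * (-(12 / 25) - b7) * ((1 - (3 - r) / 6) / 2 + 2 * C * r / 3
        + (3 - r) / 6 * ((-(17 / 25)) * U + (-(9 / 5)) * V))
      + (b5 - -(49 / 50)) * (b7 - -(9 / 5)) * ((1 - (3 - r) / 6) / 2 + 2 * C * r / 3
        + (3 - r) / 6 * ((-(17 / 25)) * U + (-(12 / 25)) * V)) := by ring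
    linarith
  have hD : 0 ≤ (1 - (3 - r) / 6) / 2 + (l + 1) * C * r / 3 + (3 - r) / 6 * (b5 * U + b7 * V) := by
    have : 0 ≤ (l - 1) * C * r / 3 := by
      have : 0 ≤ l - 1 := by linarith
      positivity
    linarith
  have hexp : MP l C S - MP 1 C S = S * ((l - 1) * ((1 - (3 - r) / 6) / 2 + (l + 1) * C * r / 3
      + (3 - r) / 6 * (b5 * U + b7 * V))) := by
    unfold MP B5 B7 B7r eps0 cc
    rw [← hr, hinv, hinv, hb7, hb5, hb7r, hU, hV]
    ring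
  have hl1 : 0 ≤ l - 1 := by linarith
  have := mul_nonneg (show (0 : ℝ) ≤ S by linarith) (mul_nonneg hl1 hD)
  linarith

end Pool.Agent.LG
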