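import Pool.Agent.Lib.MP_8026b0_co.WDef

set_option autoImplicit false

/-! Row W04: long lengths are compared with the vertical direction. -/

namespace Pool.Agent.LG

namespace W04

theorem w04_L1 {t : ℝ} (h1 : (-471 / 400 : ℝ) ≤ t) (h2 : t ≤ 1 / 2) :
    0 ≤ 500 + ((-248)) * t + ((-990)) * t ^ 2 + ((-188)) * t ^ 3 + 270 * t ^ 4 + 105 * t ^ 5 := by
  have e1 : 0 ≤ t - (-471 / 400) := by linarith
  have e2 : 0 ≤ (1 / 2) - t := by linarith
  have e3 : 500 + ((-248)) * t + ((-990)) * t ^ 2 + ((-188)) * t ^ 3 + 270 * t ^ 4 + 105 * t ^ 5 =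
      (78611556136145 / 136023078872351) * ((1 / 2) - t) ^ 5 +
      (9797798196213000 / 136023078872351) * (t - (-471 / 400)) ^ 1 * ((1 / 2) - t) ^ 4 +
      (44341298350480000 / 136023078872351) * (t - (-471 / 400)) ^ 2 * ((1 / 2) - t) ^ 3 +
      (74836229392000000 / 136023078872351) * (t - (-471 / 400)) ^ 3 * ((1 / 2) - t) ^ 2 +
      (27213294400000000 / 136023078872351) * (t - (-471 / 400)) ^ 4 * ((1 / 2) - t) ^ 1 +
      (1281600000000000 / 136023078872351) * (t - (-471 / 400)) ^ 5 := by ring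
  rw [e3]; positivity

theorem w04_L2 {t : ℝ} (h1 : (1 / 2 : ℝ) ≤ t) (h2 : t ≤ 1) :
    0 ≤ 1060 + ((-248)) * t + ((-990)) * t ^ 2 + ((-188)) * t ^ 3 + 270 * t ^ 4 + 105 * t ^ 5 := by
  have e1 : 0 ≤ t - 1 / 2 := by linarith
  have e2 : 0 ≤ (1) - t := by linarith
  have e3 : 1060 + ((-248)) * t + ((-990)) * t ^ 2 + ((-188)) * t ^ 3 + 270 * t ^ 4 + 105 * t ^ 5 =
      (21925) * ((1) - t) ^ 5 +
      (90246) * (t - 1 / 2) ^ 1 * ((1) - t) ^ 4 +
      (135848) * (t - 1 / 2) ^ 2 * ((1) - t) ^ 3 +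
      (87776) * (t - 1 / 2) ^ 3 * ((1) - t) ^ 2 +
      (20432) * (t - 1 / 2) ^ 4 * ((1) - t) ^ 1 +
      (288) * (t - 1 / 2) ^ 5 := by ring
  rw [e3]; positivity

theorem w04_L3 {t : ℝ} (h1 : (-471 / 400 : ℝ) ≤ t) (h2 : t ≤ -53 / 100) :
    0 ≤ 1144 + 700 * t + ((-540)) * t ^ 2 + ((-184)) * t ^ 3 + 68 * t ^ 4 := by
  have e1 : 0 ≤ t - (-471 / 400) := by linarith
  have e2 : 0 ≤ (-53 / 100) - t := by linarith
  have e3 : 1144 + 700 * t + ((-540)) * t ^ 2 + ((-184)) * t ^ 3 + 68 * t ^ 4 =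
      (55302160708 / 4499860561) * ((-53 / 100) - t) ^ 4 +
      (12856734211904 / 4499860561) * (t - (-471 / 400)) ^ 1 * ((-53 / 100) - t) ^ 3 +
      (45490377589632 / 4499860561) * (t - (-471 / 400)) ^ 2 * ((-53 / 100) - t) ^ 2 +
      (49127221134336 / 4499860561) * (t - (-471 / 400)) ^ 3 * ((-53 / 100) - t) ^ 1 +
      (16744266114048 / 4499860561) * (t - (-471 / 400)) ^ 4 := by ring
  rw [e3]; positivity

theorem w04_L3b {t : ℝ} (h1 : (-471 / 400 : ℝ) ≤ t) (h2 : t ≤ (-1)) :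
    0 ≤ ((-500)) + ((-700)) * t + 540 * t ^ 2 + 184 * t ^ 3 + ((-68)) * t ^ 4 := by
  have e1 : 0 ≤ t - (-471 / 400) := by linarith
  have e2 : 0 ≤ ((-1)) - t := by linarith
  have e3 : ((-500)) + ((-700)) * t + 540 * t ^ 2 + 184 * t ^ 3 + ((-68)) * t ^ 4 =
      (16431097839292 / 25411681) * (((-1)) - t) ^ 4 +
      (62260598633600 / 25411681) * (t - (-471 / 400)) ^ 1 * (((-1)) - t) ^ 3 +
      (87650236800000 / 25411681) * (t - (-471 / 400)) ^ 2 * (((-1)) - t) ^ 2 +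
      (54315264000000 / 25411681) * (t - (-471 / 400)) ^ 3 * (((-1)) - t) ^ 1 +
      (12492800000000 / 25411681) * (t - (-471 / 400)) ^ 4 := by ring
  rw [e3]; positivity

theorem w04_L4 {t : ℝ} (h1 : (-53 / 100 : ℝ) ≤ t) (h2 : t ≤ 1) :
    0 ≤ 498 + 700 * t + ((-540)) * t ^ 2 + ((-184)) * t ^ 3 + 68 * t ^ 4 := by
  have e1 : 0 ≤ t - (-53 / 100) := by linarith
  have e2 : 0 ≤ (1) - t := by linarith
  have e3 : 498 + 700 * t + ((-540)) * t ^ 2 + ((-184)) * t ^ 3 + 68 * t ^ 4 =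
      (807289508 / 547981281) * ((1) - t) ^ 4 +
      (167987002400 / 547981281) * (t - (-53 / 100)) ^ 1 * ((1) - t) ^ 3 +
      (156007480000 / 182660427) * (t - (-53 / 100)) ^ 2 * ((1) - t) ^ 2 +
      (317780000000 / 547981281) * (t - (-53 / 100)) ^ 3 * ((1) - t) ^ 1 +
      (54200000000 / 547981281) * (t - (-53 / 100)) ^ 4 := by ring
  rw [e3]; positivity

theorem w04_L5 {t : ℝ} (h1 : (-471 / 400 : ℝ) ≤ t) (h2 : t ≤ 1) :
    0 ≤ 1714 + 452 * t + ((-1530)) * t ^ 2 + ((-372)) * t ^ 3 + 338 * t ^ 4 + 105 * t ^ 5 := by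
  have e1 : 0 ≤ t - (-471 / 400) := by linarith
  have e2 : 0 ≤ (1) - t := by linarith
  have e3 : 1714 + 452 * t + ((-1530)) * t ^ 2 + ((-372)) * t ^ 3 + 338 * t ^ 4 + 105 * t ^ 5 =
      (817532420419345 / 501292001353351) * ((1) - t) ^ 5 +
      (33292581085721200 / 501292001353351) * (t - (-471 / 400)) ^ 1 * ((1) - t) ^ 4 +
      (167803376491200000 / 501292001353351) * (t - (-471 / 400)) ^ 2 * ((1) - t) ^ 3 +
      (258106375168000000 / 501292001353351) * (t - (-471 / 400)) ^ 3 * ((1) - t) ^ 2 +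
      (77382067200000000 / 501292001353351) * (t - (-471 / 400)) ^ 4 * ((1) - t) ^ 1 +
      (7239680000000000 / 501292001353351) * (t - (-471 / 400)) ^ 5 := by ring
  rw [e3]; positivity

theorem w04_L6 {C : ℝ} (h1 : (0 : ℝ) ≤ C) (h2 : C ≤ 37 / 50) :
    0 ≤ (4257 / 10000) + (-867 / 625) * C + (461 / 125) * C ^ 3 + (-1844 / 625) * C ^ 5 := by
  rcases le_total C (37 / 100) with g | g
  · have e1 : 0 ≤ C - 0 := by linarith
    have e2 : 0 ≤ (37 / 100) - C := by linarith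
    have e3 : (4257 / 10000) + (-867 / 625) * C + (461 / 125) * C ^ 3 + (-1844 / 625) * C ^ 5 =
        (4257000000 / 69343957) * ((37 / 100) - C) ^ 5 +
        (16152360000 / 69343957) * (C - 0) ^ 1 * ((37 / 100) - C) ^ 4 +
        (22039440000 / 69343957) * (C - 0) ^ 2 * ((37 / 100) - C) ^ 3 +
        (13642242640 / 69343957) * (C - 0) ^ 3 * ((37 / 100) - C) ^ 2 +
        (4490605280 / 69343957) * (C - 0) ^ 4 * ((37 / 100) - C) ^ 1 +
        (492406393292 / 43339973125) * (C - 0) ^ 5 := by ring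
    rw [e3]; positivity
  clear h1
  have h1 := g
  clear g
  have e1 : 0 ≤ C - 37 / 100 := by linarith
  have e2 : 0 ≤ (37 / 50) - C := by linarith
  have e3 : (4257 / 10000) + (-867 / 625) * C + (461 / 125) * C ^ 3 + (-1844 / 625) * C ^ 5 =
      (492406393292 / 43339973125) * ((37 / 50) - C) ^ 5 +
      (423487126584 / 8667994625) * (C - 37 / 100) ^ 1 * ((37 / 50) - C) ^ 4 +
      (1153926196336 / 8667994625) * (C - 37 / 100) ^ 2 * ((37 / 50) - C) ^ 3 +
      (1883438432672 / 8667994625) * (C - 37 / 100) ^ 3 * ((37 / 50) - C) ^ 2 +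
      (1378770132672 / 8667994625) * (C - 37 / 100) ^ 4 * ((37 / 50) - C) ^ 1 +
      (1493389985344 / 43339973125) * (C - 37 / 100) ^ 5 := by ring
  rw [e3]; positivity

theorem w04_L7 {C : ℝ} (h1 : (0 : ℝ) ≤ C) (h2 : C ≤ 37 / 50) :
    0 ≤ (7 / 10) + ((-3)) * C + 10 * C ^ 3 + ((-8)) * C ^ 5 := by
  rcases le_total C (37 / 100) with g | g
  · have e1 : 0 ≤ C - 0 := by linarith
    have e2 : 0 ≤ (37 / 100) - C := by linarith
    have e3 : (7 / 10) + ((-3)) * C + 10 * C ^ 3 + ((-8)) * C ^ 5 =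
        (7000000000 / 69343957) * ((37 / 100) - C) ^ 5 +
        (23900000000 / 69343957) * (C - 0) ^ 1 * ((37 / 100) - C) ^ 4 +
        (25600000000 / 69343957) * (C - 0) ^ 2 * ((37 / 100) - C) ^ 3 +
        (8465300000 / 69343957) * (C - 0) ^ 3 * ((37 / 100) - C) ^ 2 +
        (730600000 / 69343957) * (C - 0) ^ 4 * ((37 / 100) - C) ^ 1 +
        (410548344 / 69343957) * (C - 0) ^ 5 := by ring
    rw [e3]; positivity
  clear h1
  have h1 := g
  clear g
  have e1 : 0 ≤ C - 37 / 100 := by linarith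
  have e2 : 0 ≤ (37 / 50) - C := by linarith
  have e3 : (7 / 10) + ((-3)) * C + 10 * C ^ 3 + ((-8)) * C ^ 5 =
      (410548344 / 69343957) * ((37 / 50) - C) ^ 5 +
      (3374883440 / 69343957) * (C - 37 / 100) ^ 1 * ((37 / 50) - C) ^ 4 +
      (19042433760 / 69343957) * (C - 37 / 100) ^ 2 * ((37 / 50) - C) ^ 3 +
      (40501267520 / 69343957) * (C - 37 / 100) ^ 3 * ((37 / 50) - C) ^ 2 +
      (32548267520 / 69343957) * (C - 37 / 100) ^ 4 * ((37 / 50) - C) ^ 1 +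
      (7570347008 / 69343957) * (C - 37 / 100) ^ 5 := by ring
  rw [e3]; positivity

theorem cc_bounds : 2113 / 10000 ≤ cc ∧ cc ≤ 2114 / 10000 := by
  have h1 : Real.sqrt 3 ≤ 17321 / 10000 := by
    rw [Real.sqrt_le_left (by norm_num)]
    norm_num
  have h2 : 173204 / 100000 ≤ Real.sqrt 3 := by
    rw [Real.le_sqrt' (by norm_num)]
    norm_num
  unfold cc
  constructor
  · linarith
  · linarith

theorem eps_bounds : 0 ≤ eps0 ∧ eps0 ≤ 1 / 1000 := by
  have h1 : Real.sqrt 3 ≤ 17321 / 10000 := by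
    rw [Real.sqrt_le_left (by norm_num)]
    norm_num
  have h2 : 173204 / 100000 ≤ Real.sqrt 3 := by
    rw [Real.le_sqrt' (by norm_num)]
    norm_num
  unfold eps0
  constructor
  · linarith
  · linarith

theorem B5_nonpos {p : ℝ} (h1 : 729 / 400 ≤ p) (h2 : p ≤ 7 / 2) : B5 p ≤ 0 := by
  have h := w04_L1 (t := p - 3) (by linarith) (by linarith)
  unfold B5
  linarith

theorem B5_le {p : ℝ} (h1 : 7 / 2 ≤ p) (h2 : p ≤ 4) : B5 p ≤ 28 / 100 := by
  have h := w04_L2 (t := p - 3) (by linarith) (by linarith)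
  unfold B5
  linarith

/-- the correction term of `B7` -/
theorem corr_bounds {p : ℝ} (h1 : 1 ≤ p) (h2 : p ≤ 4) :
    -(1 / 1000) ≤ eps0 * (p - 1) * (p - 3) ∧ (p ≤ 3 → eps0 * (p - 1) * (p - 3) ≤ 0) := by
  obtain ⟨e0, e1⟩ := eps_bounds
  have h3 : 0 ≤ (p - 1) * (p - 3) + 1 := by nlinarith [sq_nonneg (p - 2)]
  constructor
  · have h4 := mul_nonneg e0 h3
    nlinarith
  · intro h
    have h4 : (p - 1) * (p - 3) ≤ 0 := mul_nonpos_of_nonneg_of_nonpos (by linarith) (by linarith)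
    have h5 := mul_nonpos_of_nonneg_of_nonpos e0 h4
    linarith

theorem B7_ge {p : ℝ} (h1 : 729 / 400 ≤ p) (h2 : p ≤ 247 / 100) : -(323 / 1000) ≤ B7 p := by
  have h := w04_L3 (t := p - 3) (by linarith) (by linarith)
  have h3 := (corr_bounds (p := p) (by linarith) (by linarith)).1
  unfold B7 B7r
  linarith

theorem B7_nonpos {p : ℝ} (h1 : 729 / 400 ≤ p) (h2 : p ≤ 2) : B7 p ≤ 0 := by
  have h := w04_L3b (t := p - 3) (by linarith) (by linarith)
  have h3 := (corr_bounds (p := p) (by linarith) (by linarith)).2 (by linarith)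
  unfold B7 B7r
  linarith

theorem B7_nonneg {p : ℝ} (h1 : 247 / 100 ≤ p) (h2 : p ≤ 4) : 0 ≤ B7 p := by
  have h := w04_L4 (t := p - 3) (by linarith) (by linarith)
  have h3 := (corr_bounds (p := p) (by linarith) (by linarith)).1
  unfold B7 B7r
  linarith

theorem B57_le {p : ℝ} (h1 : 729 / 400 ≤ p) (h2 : p ≤ 4) : B5 p - B7 p ≤ 358 / 1000 := by
  have h := w04_L5 (t := p - 3) (by linarith) (by linarith)
  have h3 := (corr_bounds (p := p) (by linarith) (by linarith)).1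
  unfold B5 B7 B7r
  linarith

/-- the bracket -/
theorem bracket {l C S w b5 b7 : ℝ} (hl : 27 / 20 ≤ l) (hl2 : l ≤ 2) (hC : 0 ≤ C) (hS : l / 2 ≤ S)
    (h : C ^ 2 + S ^ 2 = 1) (hw : C = w * (1 + S))
    (h5 : l ^ 2 ≤ 7 / 2 → b5 ≤ 0) (h5' : b5 ≤ 28 / 100)
    (h7 : l ^ 2 ≤ 247 / 100 → -(323 / 1000) ≤ b7) (h7' : l ^ 2 ≤ 2 → b7 ≤ 0)
    (h7'' : 247 / 100 ≤ l ^ 2 → 0 ≤ b7) (h57 : b5 - b7 ≤ 358 / 1000) :
    1 / 10 ≤ S * l / Real.sqrt 3 - w * ((1 - cc) / 2 + cc * (b5 - b7))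
      + C * S * cc * (b5 * (16 * C ^ 2 - 12) + b7 * (64 * C ^ 4 - 80 * C ^ 2 + 24)) := by
  obtain ⟨c1, c2⟩ := cc_bounds
  have hS0 : 675 / 1000 ≤ S := by linarith
  have hS1 : S ≤ 1 := by nlinarith only [h, sq_nonneg C, hS0]
  have hCx : C ^ 2 ≤ 1 - l ^ 2 / 4 := by
    have := mul_self_le_mul_self (by linarith : 0 ≤ l / 2) hS
    nlinarith only [this, h]
  have hl3 : 729 / 400 ≤ l ^ 2 := by nlinarith only [hl]
  have hl4 : l ^ 2 ≤ 4 := by nlinarith only [hl, hl2]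
  have hC74 : C ≤ 37 / 50 := by nlinarith only [hCx, hl3, hC]
  -- bounds for w
  have hw0 : 0 ≤ w := by
    by_contra hneg
    push Not at hneg
    have := mul_neg_of_neg_of_pos hneg (by linarith : 0 < 1 + S)
    linarith
  have hwC : w ≤ 5971 / 10000 * C := by
    have := mul_le_mul_of_nonneg_left (by linarith : 1675 / 1000 ≤ 1 + S) hw0
    linarith
  have hA : (1 - cc) / 2 + cc * (b5 - b7) ≤ 47 / 100 := by
    have := mul_le_mul_of_nonneg_left h57 (by linarith : 0 ≤ cc)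
    linarith
  have hwA : w * ((1 - cc) / 2 + cc * (b5 - b7)) ≤ 2807 / 10000 * C := by
    have h1 := mul_le_mul_of_nonneg_left hA hw0
    linarith
  -- the first term
  have h3 : (577 / 1000 : ℝ) ≤ 1 / Real.sqrt 3 := by
    have h1 : Real.sqrt 3 ≤ 17321 / 10000 := by
      rw [Real.sqrt_le_left (by norm_num)]
      norm_num
    have h2 : 0 < Real.sqrt 3 := Real.sqrt_pos.2 (by norm_num)
    rw [le_div_iff₀ h2]
    linarith
  have hSl : 0 ≤ S * l := mul_nonneg (by linarith) (by linarith)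
  have hT1 : 577 / 1000 * (S * l) ≤ S * l / Real.sqrt 3 := by
    have h1 := mul_le_mul_of_nonneg_left h3 hSl
    rw [mul_one_div] at h1
    linarith
  have hCS : 0 ≤ C * S * cc := mul_nonneg (mul_nonneg hC (by linarith)) (by linarith)
  have hSl2 : l ^ 2 / 2 ≤ S * l := by
    have := mul_le_mul_of_nonneg_right hS (by linarith : 0 ≤ l)
    linarith
  have hfac : 64 * C ^ 4 - 80 * C ^ 2 + 24 = 8 * ((1 - 2 * C ^ 2) * (3 - 4 * C ^ 2)) := by ring
  rcases le_total (l ^ 2) (247 / 100) with g | g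
  · -- first case
    have hb5 := h5 (by linarith)
    have hb7 := h7 g
    have t1 : 0 ≤ b5 * (16 * C ^ 2 - 12) :=
      mul_nonneg_of_nonpos_of_nonpos hb5 (by linarith)
    have q1 : 0 ≤ 3 - 4 * C ^ 2 := by linarith
    rcases le_total (C ^ 2) (1 / 2) with g2 | g2
    · have q2 : 0 ≤ (1 - 2 * C ^ 2) * (3 - 4 * C ^ 2) := mul_nonneg (by linarith) q1
      have t2 : -(2584 / 1000) * ((1 - 2 * C ^ 2) * (3 - 4 * C ^ 2))
          ≤ b7 * (64 * C ^ 4 - 80 * C ^ 2 + 24) := by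
        have := mul_le_mul_of_nonneg_right hb7 q2
        rw [hfac]
        linarith
      have t3 : C * S * cc * (-(2584 / 1000) * ((1 - 2 * C ^ 2) * (3 - 4 * C ^ 2)))
          ≤ C * S * cc * (b5 * (16 * C ^ 2 - 12) + b7 * (64 * C ^ 4 - 80 * C ^ 2 + 24)) :=
        mul_le_mul_of_nonneg_left (by linarith) hCS
      obtain ⟨q, hq⟩ : ∃ q, q = C * ((1 - 2 * C ^ 2) * (3 - 4 * C ^ 2)) := ⟨_, rfl⟩
      have hq0 : 0 ≤ q := by
        rw [hq]
        exact mul_nonneg hC q2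
      have t4 : -(54626 / 100000) * (S * q)
          ≤ C * S * cc * (-(2584 / 1000) * ((1 - 2 * C ^ 2) * (3 - 4 * C ^ 2))) := by
        have e : C * S * cc * (-(2584 / 1000) * ((1 - 2 * C ^ 2) * (3 - 4 * C ^ 2)))
            = -(2584 / 1000) * (cc * (S * q)) := by
          rw [hq]
          ring
        rw [e]
        have hSq : 0 ≤ S * q := mul_nonneg (by linarith) hq0
        have := mul_le_mul_of_nonneg_right c2 hSq
        linarith
      have hp := w04_L6 hC hC74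
      have hqq : q = 3 * C - 10 * C ^ 3 + 8 * C ^ 5 := by
        rw [hq]
        ring
      have hq1 : q ≤ 7 / 10 := by
        rw [hqq]
        have := w04_L7 hC hC74
        linarith
      have t5 : (675 / 1000) * (577 / 1000 * (27 / 20) - 54626 / 100000 * q)
          ≤ S * (577 / 1000 * (27 / 20) - 54626 / 100000 * q) :=
        mul_le_mul_of_nonneg_right hS0 (by linarith)
      have t6 : S * (27 / 20) ≤ S * l := mul_le_mul_of_nonneg_left hl (by linarith)
      have hp' : 0 ≤ 4257 / 10000 - 3688 / 10000 * q - 2808 / 10000 * C := by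
        rw [hqq]
        linarith
      linarith
    · have t2 : 0 ≤ b7 * (64 * C ^ 4 - 80 * C ^ 2 + 24) := by
        rw [hfac]
        have q2 : (1 - 2 * C ^ 2) * (3 - 4 * C ^ 2) ≤ 0 :=
          mul_nonpos_of_nonpos_of_nonneg (by linarith) q1
        exact mul_nonneg_of_nonpos_of_nonpos (h7' (by linarith)) (by linarith)
      have t3 : 0 ≤ C * S * cc * (b5 * (16 * C ^ 2 - 12) + b7 * (64 * C ^ 4 - 80 * C ^ 2 + 24)) :=
        mul_nonneg hCS (by linarith)
      linarith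
  · have hb7 := h7'' g
    have t2 : 0 ≤ b7 * (64 * C ^ 4 - 80 * C ^ 2 + 24) := by
      rw [hfac]
      exact mul_nonneg hb7 (mul_nonneg (by norm_num) (mul_nonneg (by linarith) (by linarith)))
    rcases le_total (l ^ 2) (7 / 2) with g2 | g2
    · have t1 : 0 ≤ b5 * (16 * C ^ 2 - 12) :=
        mul_nonneg_of_nonpos_of_nonpos (h5 g2) (by linarith)
      have t3 : 0 ≤ C * S * cc * (b5 * (16 * C ^ 2 - 12) + b7 * (64 * C ^ 4 - 80 * C ^ 2 + 24)) :=
        mul_nonneg hCS (by linarith)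
      linarith
    · have hC3 : C ≤ 36 / 100 := by nlinarith only [hCx, g2, hC]
      have t1 : -(336 / 100) ≤ b5 * (16 * C ^ 2 - 12) := by
        have := mul_le_mul_of_nonpos_right h5' (by linarith : 16 * C ^ 2 - 12 ≤ 0)
        have := sq_nonneg C
        linarith
      have t3 : C * S * cc * (-(336 / 100))
          ≤ C * S * cc * (b5 * (16 * C ^ 2 - 12) + b7 * (64 * C ^ 4 - 80 * C ^ 2 + 24)) :=
        mul_le_mul_of_nonneg_left (by linarith) hCS
      have t4 : C * S * cc ≤ 36 / 100 * 1 * (2114 / 10000) :=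
        mul_le_mul (mul_le_mul hC3 hS1 (by linarith) (by norm_num)) c2 (by linarith) (by norm_num)
      linarith

end W04

theorem MP_long {l C S : ℝ} (hl : 27 / 20 ≤ l) (hl2 : l ≤ 2) (hC : 0 ≤ C) (hS : l / 2 ≤ S)
    (h : C ^ 2 + S ^ 2 = 1) : MP l 0 1 + l * C / 10 ≤ MP l C S := by
  have hS0 : 0 < 1 + S := by linarith
  have hl3 : 729 / 400 ≤ l ^ 2 := by nlinarith
  have hl4 : l ^ 2 ≤ 4 := by nlinarith
  have hwC : C = C / (1 + S) * (1 + S) := by
    rw [div_mul_cancel₀ _ hS0.ne']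
  have hb := W04.bracket (b5 := B5 (l ^ 2)) (b7 := B7 (l ^ 2)) hl hl2 hC hS h hwC
    (fun g => W04.B5_nonpos hl3 g)
    (by
      rcases le_total (l ^ 2) (7 / 2) with g | g
      · have := W04.B5_nonpos hl3 g
        linarith
      · exact W04.B5_le g hl4)
    (fun g => W04.B7_ge hl3 g) (fun g => W04.B7_nonpos hl3 g) (fun g => W04.B7_nonneg g hl4)
    (W04.B57_le hl3 hl4)
  have hCw : C * (C / (1 + S)) = 1 - S := by
    rw [mul_div_assoc', div_eq_iff hS0.ne']
    nlinarith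
  set w := C / (1 + S) with hw
  set b5 := B5 (l ^ 2) with h5
  set b7 := B7 (l ^ 2) with h7
  have hlC : 0 ≤ l * C := mul_nonneg (by linarith) hC
  have hm := mul_le_mul_of_nonneg_left hb hlC
  have key : MP l C S - MP l 0 1 = l * C * (S * l / Real.sqrt 3 - w * ((1 - cc) / 2 + cc * (b5 - b7))
      + C * S * cc * (b5 * (16 * C ^ 2 - 12) + b7 * (64 * C ^ 4 - 80 * C ^ 2 + 24))) := by
    unfold MP
    rw [← h5, ← h7]
    linear_combination (l * ((1 - cc) / 2 + cc * (b5 - b7))) * hCw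
  linarith

end Pool.Agent.LG
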