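import Pool.Agent.Lib.MP_8026b0_co.WDef

set_option autoImplicit false

/-! Row W05: the vertical direction (zero at `l = 1`, double zero at `l = √3`). -/

namespace Pool.Agent.LG

theorem W05_interp {p q s : ℝ} (h0 : 17320508 / 10000000 ≤ s) (h1 : s ≤ 17320509 / 10000000)
    (hp : 0 ≤ p + 17320508 / 10000000 * q) (hq : 0 ≤ p + 17320509 / 10000000 * q) :
    0 ≤ p + s * q := by
  nlinarith [mul_nonneg (sub_nonneg.2 h1) hp, mul_nonneg (sub_nonneg.2 h0) hq]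

theorem W05_s0 : 17320508 / 10000000 ≤ Real.sqrt 3 := by
  apply Real.le_sqrt_of_sq_le
  norm_num

theorem W05_s1 : Real.sqrt 3 ≤ 17320509 / 10000000 := by
  rw [Real.sqrt_le_left (by norm_num)]
  norm_num

noncomputable def W05_P (x : ℝ) : ℝ :=
      (1 / 6) + (-1897 / 12000) * x + (567 / 4000) * x ^ 2 + (1439 / 4000) * x ^ 3 + (569 /
      4000) * x ^ 4 + (-817 / 4000) * x ^ 5 + (397 / 4000) * x ^ 6 + (21 / 800) * x ^ 7 + (-21
      / 800) * x ^ 8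

noncomputable def W05_Q (x : ℝ) : ℝ :=
      (6397 / 36000) * x + (-1397 / 36000) * x ^ 2 + (-1171 / 12000) * x ^ 3 + (1439 / 12000) *
      x ^ 4 + (113 / 480) * x ^ 5 + (-817 / 12000) * x ^ 6 + (-7 / 160) * x ^ 7 + (7 / 800) * x
      ^ 8

theorem W05_pos_a {x u v : ℝ} (hu : 0 ≤ u) (hv : 0 ≤ v) (h1 : u = x - 1) (h2 : v = 2 - x) :
    0 ≤ W05_P x + 17320508 / 10000000 * W05_Q x := by
  have h : W05_P x + 17320508 / 10000000 * W05_Q x =
      (11877597767 / 11250000000) * u ^ 0 * v ^ 8 + (25170942077 / 2250000000) * u ^ 1 * v ^ 7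
      + (64872782627 / 1250000000) * u ^ 2 * v ^ 6 + (61416880369 / 450000000) * u ^ 3 * v ^ 5
      + (4953523877581 / 22500000000) * u ^ 4 * v ^ 4 + (219777573849 / 1000000000) * u ^ 5 * v
      ^ 3 + (5824347875843 / 45000000000) * u ^ 6 * v ^ 2 + (704369455369 / 18000000000) * u ^
      7 * v ^ 1 + (2415945179 / 600000000) * u ^ 8 * v ^ 0 := by
    rw [h1, h2]
    unfold W05_P W05_Q
    ring
  rw [h]
  positivity

theorem W05_pos_b {x u v : ℝ} (hu : 0 ≤ u) (hv : 0 ≤ v) (h1 : u = x - 1) (h2 : v = 2 - x) :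
    0 ≤ W05_P x + 17320509 / 10000000 * W05_Q x := by
  have h : W05_P x + 17320509 / 10000000 * W05_Q x =
      (15836797463 / 15000000000) * u ^ 0 * v ^ 8 + (33561257053 / 3000000000) * u ^ 1 * v ^ 7
      + (259491138009 / 5000000000) * u ^ 2 * v ^ 6 + (81889176241 / 600000000) * u ^ 3 * v ^ 5
      + (6604698701309 / 30000000000) * u ^ 4 * v ^ 4 + (879110321883 / 4000000000) * u ^ 5 * v
      ^ 3 + (7765797399827 / 60000000000) * u ^ 6 * v ^ 2 + (939159301241 / 24000000000) * u ^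
      7 * v ^ 1 + (3221260331 / 800000000) * u ^ 8 * v ^ 0 := by
    rw [h1, h2]
    unfold W05_P W05_Q
    ring
  rw [h]
  positivity

theorem W05_key {l s : ℝ} (hs : s ^ 2 = 3) :
    l * (1 - (3 - s) / 6) / 2 + (3 - s) / 6 * l *
      ((-500 + 248 * (l ^ 2 - 3) + 990 * (l ^ 2 - 3) ^ 2 + 188 * (l ^ 2 - 3) ^ 3
          - 270 * (l ^ 2 - 3) ^ 4 - 105 * (l ^ 2 - 3) ^ 5) / 2000
        - ((500 + 700 * (l ^ 2 - 3) - 540 * (l ^ 2 - 3) ^ 2 - 184 * (l ^ 2 - 3) ^ 3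
          + 68 * (l ^ 2 - 3) ^ 4) / 2000
          + (137 / 1000 - (5 - s) / 24) * (l ^ 2 - 1) * (l ^ 2 - 3))) - 1 / 2 =
    (l - 1) * (l - s) ^ 2 * (W05_P l + s * W05_Q l) := by
  unfold W05_P W05_Q
  linear_combination (
      (1 / 6) + (-3647 / 12000) * l + (6397 / 36000) * l * s + (-1 / 18) * l ^ 2 + (-433 /
      2000) * l ^ 2 * s + (5609 / 9000) * l ^ 3 + (-529 / 9000) * l ^ 3 * s + (-1799 / 18000) *
      l ^ 4 + (87 / 400) * l ^ 4 * s + (-6971 / 9000) * l ^ 5 + (231 / 2000) * l ^ 5 * s + (29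
      / 400) * l ^ 6 + (-607 / 2000) * l ^ 6 * s + (267 / 500) * l ^ 7 + (73 / 3000) * l ^ 7 *
      s + (-607 / 6000) * l ^ 8 + (21 / 400) * l ^ 8 * s + (-63 / 800) * l ^ 9 + (-7 / 800) * l
      ^ 9 * s + (7 / 400) * l ^ 10) * hs

theorem MP_vert {l : ℝ} (hl : 1 ≤ l) (hl2 : l ≤ 2) : 0 ≤ MP l 0 1 := by
  have hs : Real.sqrt 3 ^ 2 = 3 := Real.sq_sqrt (by norm_num)
  have h1 := W05_key (l := l) hs
  have h2 : MP l 0 1 = (l - 1) * (l - Real.sqrt 3) ^ 2 * (W05_P l + Real.sqrt 3 * W05_Q l) := by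
    rw [← h1]
    unfold MP B5 B7 B7r eps0 cc
    ring
  have h3 : 0 ≤ W05_P l + Real.sqrt 3 * W05_Q l :=
    W05_interp W05_s0 W05_s1
      (W05_pos_a (sub_nonneg.2 hl) (sub_nonneg.2 hl2) rfl rfl)
      (W05_pos_b (sub_nonneg.2 hl) (sub_nonneg.2 hl2) rfl rfl)
  rw [h2]
  have h4 : 0 ≤ l - 1 := sub_nonneg.2 hl
  positivity

end Pool.Agent.LG
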