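import Pool.Agent.Lib.MP_8026b0_co.W01
import Pool.Agent.Lib.MP_8026b0_co.W02
import Pool.Agent.Lib.MP_8026b0_co.W03
import Pool.Agent.Lib.MP_8026b0_co.W04
import Pool.Agent.Lib.MP_8026b0_co.W05
import Pool.Agent.Lib.MP_8026b0_co.C04

set_option autoImplicit false

/-! Row W06: the three wall inequalities on the lune. -/

namespace Pool.Agent.LG

open Complex

private theorem w06_norm {l C S : ℝ} (hl : 0 < l) (h : C ^ 2 + S ^ 2 = 1) :
    normSq (⟨l * C, l * S⟩ : ℂ) = l ^ 2 ∧ ‖(⟨l * C, l * S⟩ : ℂ)‖ = l := by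
  have h1 : normSq (⟨l * C, l * S⟩ : ℂ) = l ^ 2 := by
    rw [normSq_mk]
    linear_combination l ^ 2 * h
  refine ⟨h1, ?_⟩
  have h2 : ‖(⟨l * C, l * S⟩ : ℂ)‖ ^ 2 = l ^ 2 := by
    rw [← normSq_eq_norm_sq, h1]
  exact (pow_left_inj₀ (norm_nonneg _) hl.le two_ne_zero).mp h2

private theorem w06_u6 {l C S : ℝ} (hl : 0 < l) (h : C ^ 2 + S ^ 2 = 1) :
    u6 (⟨l * C, l * S⟩ : ℂ) = ⟨c6 C, s6 C S⟩ := by
  unfold u6
  rw [(w06_norm hl h).2]
  have h1 : (⟨l * C, l * S⟩ : ℂ) / (l : ℂ) = ⟨C, S⟩ := by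
    have h2 : (⟨l * C, l * S⟩ : ℂ) = (l : ℂ) * ⟨C, S⟩ := by
      apply Complex.ext
      · simp
      · simp
    rw [h2, mul_div_cancel_left₀]
    exact_mod_cast hl.ne'
  rw [h1]
  have hS : S ^ 2 = 1 - C ^ 2 := by linarith
  have h3 : (⟨C, S⟩ : ℂ) ^ 3 = ⟨4 * C ^ 3 - 3 * C, S * (4 * C ^ 2 - 1)⟩ := by
    apply Complex.ext
    · simp only [pow_succ, pow_zero, one_mul, mul_re, mul_im]
      linear_combination (-3 * C) * hS
    · simp only [pow_succ, pow_zero, one_mul, mul_re, mul_im]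
      linear_combination (-S) * hS
  have h4 : (⟨C, S⟩ : ℂ) ^ 6 = ((⟨C, S⟩ : ℂ) ^ 3) ^ 2 := by ring
  rw [h4, h3]
  apply Complex.ext
  · simp only [pow_two, mul_re]
    unfold c6
    linear_combination (-(4 * C ^ 2 - 1) ^ 2) * hS
  · simp only [pow_two, mul_im]
    unfold s6
    ring

theorem MW_eq {l C S : ℝ} (hl : 0 < l) (h : C ^ 2 + S ^ 2 = 1) :
    MW (l * C) (l * S) = MP l C S := by
  unfold MW hh kk MP
  rw [w06_u6 hl h, (w06_norm hl h).1]
  simp only
  unfold c6 s6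
  ring

/-- polar coordinates on the lune -/
private theorem w06_polar {x y : ℝ} (hx : 0 ≤ x) (hy : 0 < y) (h1 : 1 ≤ x ^ 2 + y ^ 2)
    (h2 : x ^ 2 + y ^ 2 ≤ 2 * y) : ∃ l C S : ℝ, 1 ≤ l ∧ l ≤ 2 * S ∧ S ≤ 1 ∧ 0 ≤ C ∧
      C ^ 2 + S ^ 2 = 1 ∧ x = l * C ∧ y = l * S := by
  set l := Real.sqrt (x ^ 2 + y ^ 2) with hl
  have hl1 : 1 ≤ l := by
    rw [hl]
    exact Real.one_le_sqrt.mpr h1
  have hl0 : 0 < l := by linarith
  have hl2 : l ^ 2 = x ^ 2 + y ^ 2 := Real.sq_sqrt (by positivity)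
  have hCS : (x / l) ^ 2 + (y / l) ^ 2 = 1 := by
    rw [div_pow, div_pow, ← add_div, hl2, div_self]
    positivity
  refine ⟨l, x / l, y / l, hl1, ?_, ?_, by positivity, hCS, by field_simp, by field_simp⟩
  · rw [mul_div_assoc', le_div_iff₀ hl0]
    nlinarith
  · rw [div_le_one hl0]
    apply Real.le_sqrt_of_sq_le
    nlinarith [sq_nonneg x]

private theorem w06_kap : 0 < kap ∧ kap ≤ 1 / 40 := by
  unfold kap
  have h1 : 0 < Real.sqrt 3 := Real.sqrt_pos.mpr (by norm_num)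
  have h2 : Real.sqrt 3 ≤ 9 / 5 := by
    rw [Real.sqrt_le_left (by norm_num)]
    norm_num
  constructor
  · positivity
  · linarith

private theorem w06_Xi0_nonneg {x y : ℝ} (hy : 0 ≤ y) : 0 ≤ Xi0 x y := by
  unfold Xi0
  have h1 := w06_kap.1
  refine le_min (by positivity) ?_
  unfold chi
  have : 0 ≤ max 0 ((1 + 2 * x) / 3) := le_max_left _ _
  positivity

private theorem w06_Xi0_le {x y : ℝ} : Xi0 x y ≤ kap * y := min_le_left _ _

private theorem w06_Xi_ge (w : ℂ) : -(kap * |w.im|) ≤ Xi w := by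
  unfold Xi
  have h1 := w06_kap.1
  split_ifs with h
  · have h2 := w06_Xi0_nonneg (x := w.re) h
    have h3 : 0 ≤ kap * |w.im| := by positivity
    linarith
  · rw [not_le] at h
    have h2 := w06_Xi0_le (x := w.re) (y := -w.im)
    rw [abs_of_neg h]
    linarith

private theorem w06_s6 {C S : ℝ} : s6 C S = 2 * S * C * ((4 * C ^ 2 - 1) * (4 * C ^ 2 - 3)) := by
  unfold s6
  ring

private theorem w06_XX {l C S : ℝ} (hl : 0 < l) (h : C ^ 2 + S ^ 2 = 1) :
    XX (⟨l * C, l * S⟩ : ℂ) = if l < 3 / 2 then Xi ⟨c6 C, s6 C S⟩ else Xi (-⟨c6 C, s6 C S⟩) := by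
  unfold XX
  rw [w06_u6 hl h, (w06_norm hl h).2]

private theorem w06_bd {l C S : ℝ} (hl : 0 < l) (h : C ^ 2 + S ^ 2 = 1) :
    |XX (⟨l * C, l * S⟩ : ℂ)| ≤ 7 / 1250 := by
  apply XX_bound
  intro hcon
  have h1 := (w06_norm hl h).2
  rw [hcon, norm_zero] at h1
  linarith

theorem MW_add {x y : ℝ} (hx : 0 ≤ x) (hy : 0 < y) (h1 : 1 ≤ x ^ 2 + y ^ 2)
    (h2 : x ^ 2 + y ^ 2 ≤ 2 * y) : 0 ≤ MW x y + XX (⟨x, y⟩ : ℂ) := by
  obtain ⟨l, C, S, hl1, hlS, hS1, hC, hCS, rfl, rfl⟩ := w06_polar hx hy h1 h2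
  have hl0 : 0 < l := by linarith
  have hS2 : 1 / 2 ≤ S := by linarith
  have hS0 : 0 < S := by linarith
  have hC34 : 4 * C ^ 2 - 3 ≤ 0 := by nlinarith
  rw [MW_eq hl0 hCS]
  rcases le_total l (27 / 20) with hcase | hcase
  · have hMP := MP_short hl1 hcase hC hS2 hCS
    have hA := MP_one_a hC hS2 hCS
    rw [w06_XX hl0 hCS, if_pos (by linarith)]
    unfold Xi
    simp only
    split_ifs with hs
    · unfold Xi0
      rcases le_or_gt C (1 / 2) with hC2 | hC2
      · rcases le_total 0 (1 + 2 * c6 C) with h6 | h6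
        · have hB := MP_one_b hC hC2 hS0.le hCS h6
          rw [max_eq_right (by linarith)]
          rcases min_choice (kap * s6 C S) (chi * ((1 + 2 * c6 C) / 3)) with hm | hm
          · rw [hm]; linarith
          · rw [hm]; linarith
        · have hB := MP_one_c hC hC2 hS0.le hCS h6
          rw [max_eq_left (by linarith), mul_zero]
          rcases min_choice (kap * s6 C S) 0 with hm | hm
          · rw [hm]; linarith
          · rw [hm]; linarith
      · have hs0 : s6 C S = 0 := by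
          apply le_antisymm _ hs
          rw [w06_s6]
          have h3 : 0 ≤ 4 * C ^ 2 - 1 := by nlinarith
          have h4 : (4 * C ^ 2 - 1) * (4 * C ^ 2 - 3) ≤ 0 :=
            mul_nonpos_of_nonneg_of_nonpos h3 hC34
          exact mul_nonpos_of_nonneg_of_nonpos (by positivity) h4
        have h5 : 0 ≤ min (kap * s6 C S) (chi * max 0 ((1 + 2 * c6 C) / 3)) := by
          have := w06_Xi0_nonneg (x := c6 C) hs
          unfold Xi0 at this
          exact this
        rw [hs0, mul_zero] at hA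
        linarith
    · rw [not_le] at hs
      have h3 := w06_Xi0_le (x := c6 C) (y := -s6 C S)
      linarith
  · have hl2 : l ≤ 2 := by linarith
    have hL := MP_long hcase hl2 hC (by linarith) hCS
    have hV := MP_vert hl1 hl2
    have hge : l * C / 10 ≤ MP l C S := by linarith
    have hk := w06_kap
    rcases lt_or_ge l (3 / 2) with hl3 | hl3
    · by_cases hs : 0 ≤ s6 C S
      · rw [w06_XX hl0 hCS, if_pos hl3]
        unfold Xi
        simp only
        rw [if_pos hs]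
        have h3 := w06_Xi0_nonneg (x := c6 C) hs
        have h4 : 0 ≤ l * C / 10 := by positivity
        linarith
      · rw [not_le] at hs
        have hC2 : 1 / 2 ≤ C := by
          by_contra hcon
          rw [not_le] at hcon
          have h3 : 4 * C ^ 2 - 1 ≤ 0 := by nlinarith
          have h4 : 0 ≤ (4 * C ^ 2 - 1) * (4 * C ^ 2 - 3) := mul_nonneg_of_nonpos_of_nonpos h3 hC34
          have h5 : 0 ≤ s6 C S := by
            rw [w06_s6]
            positivity
          linarith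
        have h3 := (abs_le.mp (w06_bd hl0 hCS)).1
        have h4 : 27 / 20 * (1 / 2) ≤ l * C := mul_le_mul hcase hC2 (by norm_num) hl0.le
        linarith
    · rw [w06_XX hl0 hCS, if_neg (not_lt.mpr hl3)]
      have h3 := w06_Xi_ge (-⟨c6 C, s6 C S⟩)
      simp only [neg_im, abs_neg] at h3
      have h4 : |s6 C S| ≤ 6 * C := by
        rw [w06_s6, abs_mul, abs_of_nonneg (by positivity : 0 ≤ 2 * S * C)]
        have h5 : |(4 * C ^ 2 - 1) * (4 * C ^ 2 - 3)| ≤ 3 := by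
          rw [abs_le]
          constructor
          · nlinarith [sq_nonneg (4 * C ^ 2 - 2)]
          · nlinarith [sq_nonneg C]
        calc 2 * S * C * |(4 * C ^ 2 - 1) * (4 * C ^ 2 - 3)| ≤ 2 * S * C * 3 :=
              mul_le_mul_of_nonneg_left h5 (by positivity)
          _ ≤ 6 * C := by nlinarith
      have h6 : kap * |s6 C S| ≤ 1 / 40 * (6 * C) :=
        mul_le_mul hk.2 h4 (abs_nonneg _) (by norm_num)
      have h7 : 3 / 2 * C ≤ l * C := mul_le_mul_of_nonneg_right hl3 hC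
      linarith

/-- no contact -/
theorem MW_free {x y : ℝ} (hx : 0 ≤ x) (hy : 0 < y) (h1 : 1 ≤ x ^ 2 + y ^ 2)
    (h2 : x ^ 2 + y ^ 2 ≤ 2 * y) : 0 ≤ MW x y + 2 * (3 / 500) * y / Real.sqrt 3 := by
  have hadd := MW_add hx hy h1 h2
  obtain ⟨l, C, S, hl1, hlS, hS1, hC, hCS, rfl, rfl⟩ := w06_polar hx hy h1 h2
  have hl0 : 0 < l := by linarith
  have hS2 : 1 / 2 ≤ S := by linarith
  have hS0 : 0 < S := by linarith
  have hC34 : 4 * C ^ 2 - 3 ≤ 0 := by nlinarith
  have h3 : 0 < Real.sqrt 3 := Real.sqrt_pos.mpr (by norm_num)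
  have h33 : Real.sqrt 3 * Real.sqrt 3 = 3 := Real.mul_self_sqrt (by norm_num)
  have hy0 : 0 ≤ 2 * (3 / 500) * (l * S) / Real.sqrt 3 := by positivity
  suffices h : XX (⟨l * C, l * S⟩ : ℂ) ≤ 2 * (3 / 500) * (l * S) / Real.sqrt 3 by linarith
  rcases le_or_gt (XX (⟨l * C, l * S⟩ : ℂ)) 0 with hX | hX
  · linarith
  have hbd := (abs_le.mp (w06_bd hl0 hCS)).2
  have hyS : Real.sqrt 3 / 2 ≤ l * S := by
    rcases lt_or_ge l (3 / 2) with hl3 | hl3
    · rw [w06_XX hl0 hCS, if_pos hl3] at hX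
      unfold Xi at hX
      simp only at hX
      split_ifs at hX with hs
      · have h4 := w06_Xi0_le (x := c6 C) (y := s6 C S)
        have h5 : 0 < kap * s6 C S := by linarith
        have h6 : 0 < s6 C S := (mul_pos_iff_of_pos_left w06_kap.1).mp h5
        have h7 : C ^ 2 < 1 / 4 := by
          by_contra hcon
          rw [not_lt] at hcon
          have h8 : (4 * C ^ 2 - 1) * (4 * C ^ 2 - 3) ≤ 0 :=
            mul_nonpos_of_nonneg_of_nonpos (by linarith) hC34
          have h9 : s6 C S ≤ 0 := by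
            rw [w06_s6]
            exact mul_nonpos_of_nonneg_of_nonpos (by positivity) h8
          linarith
        have h8 : Real.sqrt 3 / 2 ≤ S := by
          apply (pow_le_pow_iff_left₀ (by positivity) hS0.le two_ne_zero).mp
          nlinarith
        nlinarith
      · rw [not_le] at hs
        have h4 := w06_Xi0_nonneg (x := c6 C) (y := -s6 C S) (by linarith)
        linarith
    · have h4 : Real.sqrt 3 ≤ 9 / 5 := by
        rw [Real.sqrt_le_left (by norm_num)]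
        norm_num
      nlinarith
  rw [le_div_iff₀ h3]
  have h5 : XX (⟨l * C, l * S⟩ : ℂ) * Real.sqrt 3 ≤ 7 / 1250 * Real.sqrt 3 :=
    mul_le_mul_of_nonneg_right hbd h3.le
  linarith

/-- both in contact -/
theorem MW_both {x y : ℝ} (hx : 0 ≤ x) (hx2 : x ≤ 3 / 500) (hy : 0 < y)
    (h1 : 1 ≤ x ^ 2 + y ^ 2) (h2 : x ^ 2 + y ^ 2 ≤ 2 * y) : 0 ≤ MW x y := by
  have hadd := MW_add hx hy h1 h2
  obtain ⟨l, C, S, hl1, hlS, hS1, hC, hCS, rfl, rfl⟩ := w06_polar hx hy h1 h2
  have hl0 : 0 < l := by linarith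
  have hS2 : 1 / 2 ≤ S := by linarith
  have hS0 : 0 < S := by linarith
  have hC34 : 4 * C ^ 2 - 3 ≤ 0 := by nlinarith
  suffices h : XX (⟨l * C, l * S⟩ : ℂ) ≤ 0 by linarith
  have hC5 : C ≤ 3 / 500 := by nlinarith
  have hCsq : C ^ 2 ≤ 9 / 250000 := by nlinarith
  have hs0 : 0 ≤ s6 C S := by
    rw [w06_s6]
    have h8 : 0 ≤ (4 * C ^ 2 - 1) * (4 * C ^ 2 - 3) :=
      mul_nonneg_of_nonpos_of_nonpos (by linarith) hC34
    positivity
  have hc6 : 1 + 2 * c6 C ≤ 0 := by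
    unfold c6
    have h3 : C ^ 6 ≤ 1 / 1000 := by
      have h4 : C ^ 6 = (C ^ 2) ^ 3 := by ring
      rw [h4]
      calc (C ^ 2) ^ 3 ≤ (9 / 250000) ^ 3 := pow_le_pow_left₀ (sq_nonneg C) hCsq 3
        _ ≤ 1 / 1000 := by norm_num
    have h5 : 0 ≤ C ^ 4 := by positivity
    linarith
  rcases lt_or_ge l (3 / 2) with hl3 | hl3
  · rw [w06_XX hl0 hCS, if_pos hl3]
    unfold Xi
    simp only
    rw [if_pos hs0]
    unfold Xi0
    rw [max_eq_left (by linarith), mul_zero]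
    exact min_le_right _ _
  · rw [w06_XX hl0 hCS, if_neg (not_lt.mpr hl3)]
    unfold Xi
    simp only [neg_im, neg_re, neg_neg]
    split_ifs with hs
    · have h3 : s6 C S = 0 := by linarith
      have h4 := w06_Xi0_le (x := -c6 C) (y := -s6 C S)
      rw [h3, neg_zero, mul_zero] at h4
      rw [h3, neg_zero]
      exact h4
    · have h4 := w06_Xi0_nonneg (x := -c6 C) hs0
      linarith

end Pool.Agent.LG
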