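import Pool.Agent.Lib.MP_8026b0_co.G11
import Pool.Agent.Lib.MP_8026b0_co.W06

set_option autoImplicit false

/-! Row W07: the calibration inequality along the walls. -/

namespace Pool.Agent.LG

open Complex

namespace W07

theorem cc_bd : 0 ≤ cc ∧ cc ≤ 1 := by
  have h1 : Real.sqrt 3 ≤ 2 := by
    rw [show (2 : ℝ) = Real.sqrt (2 ^ 2) by rw [Real.sqrt_sq (by norm_num)]]
    exact Real.sqrt_le_sqrt (by norm_num)
  have h0 : 0 ≤ Real.sqrt 3 := Real.sqrt_nonneg 3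
  unfold cc
  constructor <;> linarith

theorem eps0_bd : |eps0| ≤ 1 := by
  have h1 : Real.sqrt 3 ≤ 2 := by
    rw [show (2 : ℝ) = Real.sqrt (2 ^ 2) by rw [Real.sqrt_sq (by norm_num)]]
    exact Real.sqrt_le_sqrt (by norm_num)
  have h0 : 0 ≤ Real.sqrt 3 := Real.sqrt_nonneg 3
  unfold eps0
  rw [abs_le]
  constructor <;> linarith

theorem pow_bd {t : ℝ} (ht : |t| ≤ 2) (m : ℕ) : -(2 : ℝ) ^ m ≤ t ^ m ∧ t ^ m ≤ (2 : ℝ) ^ m := by
  rw [← abs_le, abs_pow]
  exact pow_le_pow_left₀ (abs_nonneg t) ht m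

theorem B5_bd {s : ℝ} (h1 : 1 ≤ s) (h4 : s ≤ 4) : |B5 s| ≤ 8 := by
  have ht : |s - 3| ≤ 2 := by rw [abs_le]; constructor <;> linarith
  have e1 := pow_bd ht 1
  have e2 := pow_bd ht 2
  have e3 := pow_bd ht 3
  have e4 := pow_bd ht 4
  have e5 := pow_bd ht 5
  norm_num at e1 e2 e3 e4 e5
  unfold B5
  rw [abs_le]
  constructor <;> linarith [e1.1, e1.2, e2.1, e2.2, e3.1, e3.2, e4.1, e4.2, e5.1, e5.2]

theorem B7_bd {s : ℝ} (h1 : 1 ≤ s) (h4 : s ≤ 4) : |B7 s| ≤ 8 := by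
  have ht : |s - 3| ≤ 2 := by rw [abs_le]; constructor <;> linarith
  have e1 := pow_bd ht 1
  have e2 := pow_bd ht 2
  have e3 := pow_bd ht 3
  have e4 := pow_bd ht 4
  norm_num at e1 e2 e3 e4
  have hr : |B7r s| ≤ 4 := by
    unfold B7r
    rw [abs_le]
    constructor <;> linarith [e1.1, e1.2, e2.1, e2.2, e3.1, e3.2, e4.1, e4.2]
  have he : |eps0 * (s - 1) * (s - 3)| ≤ 4 := by
    rw [mul_assoc, abs_mul]
    have h3 : |(s - 1) * (s - 3)| ≤ 4 := by
      rw [abs_le]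
      constructor <;> nlinarith
    calc |eps0| * |(s - 1) * (s - 3)| ≤ 1 * 4 := by
          apply mul_le_mul eps0_bd h3 (abs_nonneg _) (by norm_num)
      _ = 4 := by norm_num
  unfold B7
  calc |B7r s + eps0 * (s - 1) * (s - 3)| ≤ |B7r s| + |eps0 * (s - 1) * (s - 3)| := abs_add_le _ _
    _ ≤ 8 := by linarith

theorem hh_bd {v : ℂ} (hv : v ≠ 0) (h1 : 1 ≤ normSq v) (h4 : normSq v ≤ 4) : |hh v| ≤ 20 := by
  have hu : |(u6 v).re| ≤ 1 := (abs_re_le_norm _).trans (u6_norm hv).le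
  have h5 := B5_bd h1 h4
  have h7 := B7_bd h1 h4
  obtain ⟨c0, c1⟩ := cc_bd
  have hd : |B7 (normSq v) - B5 (normSq v)| ≤ 16 := by
    calc |B7 (normSq v) - B5 (normSq v)| ≤ |B7 (normSq v)| + |B5 (normSq v)| := abs_sub _ _
      _ ≤ 16 := by linarith
  unfold hh
  calc |cc / 2 + cc * (B7 (normSq v) - B5 (normSq v)) * (u6 v).re|
      ≤ |cc / 2| + |cc * (B7 (normSq v) - B5 (normSq v)) * (u6 v).re| := abs_add_le _ _
    _ = cc / 2 + cc * |B7 (normSq v) - B5 (normSq v)| * |(u6 v).re| := by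
        rw [abs_of_nonneg (by linarith : 0 ≤ cc / 2), abs_mul, abs_mul, abs_of_nonneg c0]
    _ ≤ 1 / 2 + 1 * 16 * 1 := by
        gcongr
    _ ≤ 20 := by norm_num

theorem kk_bd {v : ℂ} (hv : v ≠ 0) (h1 : 1 ≤ normSq v) (h4 : normSq v ≤ 4) : |kk v| ≤ 20 := by
  have hu : |(u6 v).im| ≤ 1 := (abs_im_le_norm _).trans (u6_norm hv).le
  have h5 := B5_bd h1 h4
  have h7 := B7_bd h1 h4
  obtain ⟨c0, c1⟩ := cc_bd
  have hd : |B5 (normSq v) + B7 (normSq v)| ≤ 16 := by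
    calc |B5 (normSq v) + B7 (normSq v)| ≤ |B5 (normSq v)| + |B7 (normSq v)| := abs_add_le _ _
      _ ≤ 16 := by linarith
  unfold kk
  calc |cc * (B5 (normSq v) + B7 (normSq v)) * (u6 v).im|
      = cc * |B5 (normSq v) + B7 (normSq v)| * |(u6 v).im| := by
        rw [abs_mul, abs_mul, abs_of_nonneg c0]
    _ ≤ 1 * 16 * 1 := by gcongr
    _ ≤ 20 := by norm_num

theorem ip_le (a b : ℂ) : |ip a b| ≤ ‖a‖ * ‖b‖ := by
  have h : ip a b = (a * starRingEnd ℂ b).re := by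
    simp [ip, mul_re]
  rw [h]
  calc |(a * starRingEnd ℂ b).re| ≤ ‖a * starRingEnd ℂ b‖ := abs_re_le_norm _
    _ = ‖a‖ * ‖b‖ := by rw [norm_mul, RCLike.norm_conj]

theorem nv_norm (k : Fin 4) : ‖nv k‖ = 1 := by
  fin_cases k <;> simp [nv]

theorem nv_six (k : Fin 4) : nv k ^ 6 = (-1 : ℂ) ^ (k : ℕ) := by
  have hI : I ^ 6 = -1 := by
    rw [show (6 : ℕ) = 2 * 3 by norm_num, pow_mul, I_sq]; norm_num
  fin_cases k
  · simp [nv]
  · simp [nv, hI]
  · simp [nv]; norm_num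
  · have : (-I) ^ 6 = I ^ 6 := by rw [neg_pow]; norm_num
    simp [nv]
    rw [this, hI]; norm_num

theorem u6_mul {n w : ℂ} (hn : ‖n‖ = 1) : u6 (n * w) = n ^ 6 * u6 w := by
  unfold u6
  rw [norm_mul, hn, one_mul, mul_div_assoc, mul_pow]

theorem u6_conj (v : ℂ) : u6 (starRingEnd ℂ v) = starRingEnd ℂ (u6 v) := by
  unfold u6
  rw [map_pow, map_div₀, conj_ofReal, RCLike.norm_conj]

theorem refl_eq (x y : ℝ) : (⟨-x, y⟩ : ℂ) = -(starRingEnd ℂ (⟨x, y⟩ : ℂ)) := by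
  apply Complex.ext <;> simp

theorem u6_refl (x y : ℝ) : u6 (⟨-x, y⟩ : ℂ) = starRingEnd ℂ (u6 (⟨x, y⟩ : ℂ)) := by
  rw [refl_eq, u6_neg, u6_conj]

theorem nsq_refl (x y : ℝ) : normSq (⟨-x, y⟩ : ℂ) = normSq (⟨x, y⟩ : ℂ) := by
  simp [normSq_mk]

theorem norm_refl (x y : ℝ) : ‖(⟨-x, y⟩ : ℂ)‖ = ‖(⟨x, y⟩ : ℂ)‖ := by
  rw [refl_eq, norm_neg, RCLike.norm_conj]

theorem hh_refl (x y : ℝ) : hh (⟨-x, y⟩ : ℂ) = hh (⟨x, y⟩ : ℂ) := by
  unfold hh
  rw [u6_refl, nsq_refl, conj_re]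

theorem kk_refl (x y : ℝ) : kk (⟨-x, y⟩ : ℂ) = -kk (⟨x, y⟩ : ℂ) := by
  unfold kk
  rw [u6_refl, nsq_refl, conj_im]
  ring

theorem XX_refl (x y : ℝ) : XX (⟨-x, y⟩ : ℂ) = -XX (⟨x, y⟩ : ℂ) := by
  unfold XX
  rw [norm_refl, u6_refl]
  split
  · exact Xi_conj
  · rw [← map_neg]; exact Xi_conj

/-- the frame decomposition -/
theorem frame {n : ℂ} (hn : ‖n‖ = 1) (v : ℂ) : v = n * (⟨ip v n, ip v (I * n)⟩ : ℂ) := by
  have h : n.re ^ 2 + n.im ^ 2 = 1 := by
    have := Complex.sq_norm n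
    rw [hn, normSq_apply] at this
    nlinarith
  apply Complex.ext
  · simp only [ip, mul_re, mul_im, I_re, I_im]
    linear_combination (-v.re) * h
  · simp only [ip, mul_re, mul_im, I_re, I_im]
    linear_combination (-v.im) * h

/-- the part of the inequality that concerns real numbers only -/
theorem comb_nonneg {x y dp dq f ε ap aq : ℝ} (hx : 0 ≤ x) (hy : 0 < y)
    (h1 : 1 ≤ x ^ 2 + y ^ 2) (h2 : x ^ 2 + y ^ 2 ≤ 2 * y) (hdq : 0 ≤ dq)
    (hd : dp - dq = x) (hf0 : 0 ≤ f) (hf1 : f ≤ 1) (hε : 0 ≤ ε)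
    (hap : |ap - f| ≤ ε) (haq : |aq - f| ≤ ε) :
    -(2 * ε) ≤ (dp + dq) * y / Real.sqrt 3 + (y - 1) / 2
      + f * (hh (⟨x, y⟩ : ℂ) * y + kk (⟨x, y⟩ : ℂ) * x - cc * y)
      + ((if dq < 3 / 500 then aq else 0) - (if dp < 3 / 500 then ap else 0))
          * XX (⟨x, y⟩ : ℂ) := by
  have hs : 0 < Real.sqrt 3 := Real.sqrt_pos.mpr (by norm_num)
  have hv : (⟨x, y⟩ : ℂ) ≠ 0 := by
    intro h
    have := congrArg Complex.im h
    simp at this
    linarith
  have hX : |XX (⟨x, y⟩ : ℂ)| ≤ 1 := (XX_bound hv).trans (by norm_num)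
  have hc0 := cost0_nonneg hx hy h1 h2
  have hM : f * (hh (⟨x, y⟩ : ℂ) * y + kk (⟨x, y⟩ : ℂ) * x - cc * y)
      = f * MW x y - f * (x * y / Real.sqrt 3 + (y - 1) / 2) := by
    unfold MW; ring
  rw [hM]
  have hsplit : (dp + dq) * y / Real.sqrt 3 + (y - 1) / 2
      = (x * y / Real.sqrt 3 + (y - 1) / 2) + 2 * dq * y / Real.sqrt 3 := by
    have : dp = x + dq := by linarith
    rw [this]
    field_simp
    ring
  rw [hsplit]
  have hpos : 0 ≤ (1 - f) * (x * y / Real.sqrt 3 + (y - 1) / 2) :=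
    mul_nonneg (by linarith) hc0
  have hq0 : 0 ≤ 2 * dq * y / Real.sqrt 3 := by positivity
  by_cases hq : dq < 3 / 500
  · by_cases hp : dp < 3 / 500
    · rw [if_pos hq, if_pos hp]
      have hb := MW_both hx (by linarith) hy h1 h2
      have hd' : |(aq - ap) * XX (⟨x, y⟩ : ℂ)| ≤ 2 * ε := by
        rw [abs_mul]
        have : |aq - ap| ≤ 2 * ε := by
          calc |aq - ap| = |(aq - f) - (ap - f)| := by ring_nf
            _ ≤ |aq - f| + |ap - f| := abs_sub _ _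
            _ ≤ 2 * ε := by linarith
        calc |aq - ap| * |XX (⟨x, y⟩ : ℂ)| ≤ (2 * ε) * 1 := by
              apply mul_le_mul this hX (abs_nonneg _) (by linarith)
          _ = 2 * ε := by ring
      have := (abs_le.mp hd').1
      have h3 := mul_nonneg hf0 hb
      nlinarith
    · rw [if_pos hq, if_neg hp]
      have hb := MW_add hx hy h1 h2
      have hd' : |(aq - f) * XX (⟨x, y⟩ : ℂ)| ≤ ε := by
        rw [abs_mul]
        calc |aq - f| * |XX (⟨x, y⟩ : ℂ)| ≤ ε * 1 := by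
              apply mul_le_mul haq hX (abs_nonneg _) (by linarith)
          _ = ε := by ring
      have := (abs_le.mp hd').1
      have h3 := mul_nonneg hf0 hb
      have h4 : (aq - 0) * XX (⟨x, y⟩ : ℂ) = (aq - f) * XX (⟨x, y⟩ : ℂ) + f * XX (⟨x, y⟩ : ℂ) := by
        ring
      rw [h4]
      nlinarith
  · have hp : ¬ dp < 3 / 500 := by
      intro h
      apply hq
      linarith
    rw [if_neg hq, if_neg hp]
    have hb := MW_free hx hy h1 h2
    have h3 := mul_nonneg hf0 hb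
    push Not at hq
    have h5 : 2 * (3 / 500) * y / Real.sqrt 3 ≤ 2 * dq * y / Real.sqrt 3 := by
      gcongr
    have h6 : 0 ≤ 2 * (3 / 500) * y / Real.sqrt 3 := by positivity
    have h7 : f * (2 * (3 / 500) * y / Real.sqrt 3) ≤ 2 * (3 / 500) * y / Real.sqrt 3 := by
      calc f * (2 * (3 / 500) * y / Real.sqrt 3) ≤ 1 * (2 * (3 / 500) * y / Real.sqrt 3) := by
            gcongr
        _ = _ := by ring
    have h8 : f * (MW x y + 2 * (3 / 500) * y / Real.sqrt 3)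
        = f * MW x y + f * (2 * (3 / 500) * y / Real.sqrt 3) := by ring
    rw [h8] at h3
    have h9 : ((0 : ℝ) - 0) * XX (⟨x, y⟩ : ℂ) = 0 := by ring
    rw [h9]
    nlinarith

theorem comb {x y dp dq f ε ap aq : ℝ} (hy : 0 < y)
    (h1 : 1 ≤ x ^ 2 + y ^ 2) (h2 : x ^ 2 + y ^ 2 ≤ 2 * y) (hdp : 0 ≤ dp) (hdq : 0 ≤ dq)
    (hd : dp - dq = x) (hf0 : 0 ≤ f) (hf1 : f ≤ 1) (hε : 0 ≤ ε)
    (hap : |ap - f| ≤ ε) (haq : |aq - f| ≤ ε) :
    -(2 * ε) ≤ (dp + dq) * y / Real.sqrt 3 + (y - 1) / 2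
      + f * (hh (⟨x, y⟩ : ℂ) * y + kk (⟨x, y⟩ : ℂ) * x - cc * y)
      + ((if dq < 3 / 500 then aq else 0) - (if dp < 3 / 500 then ap else 0))
          * XX (⟨x, y⟩ : ℂ) := by
  rcases le_total 0 x with hx | hx
  · exact comb_nonneg hx hy h1 h2 hdq hd hf0 hf1 hε hap haq
  · have := comb_nonneg (x := -x) (y := y) (dp := dq) (dq := dp) (f := f) (ε := ε) (ap := aq)
      (aq := ap) (by linarith) hy (by rw [neg_sq]; exact h1) (by rw [neg_sq]; exact h2) hdp
      (by linarith) hf0 hf1 hε haq hap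
    rw [hh_refl, kk_refl, XX_refl] at this
    calc -(2 * ε) ≤ _ := this
      _ = _ := by ring

/-- weights away from the corners -/
theorem Far_of {A B : ℝ} {z r : ℂ} (hc : ∀ j : Fin 4, 8 < ‖z - cor A B j‖) (hr : ‖z - r‖ < 1) :
    Far A B r := by
  intro j
  have h1 := hc j
  have h2 : ‖z - cor A B j‖ ≤ ‖z - r‖ + ‖r - cor A B j‖ := by
    calc ‖z - cor A B j‖ = ‖(z - r) + (r - cor A B j)‖ := by ring_nf
      _ ≤ _ := norm_add_le _ _
  linarith

theorem near {v : ℂ} (h1 : |v.re| < 1) (h2 : |v.im| < 1) : ‖v‖ < 3 := by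
  have := Complex.norm_le_abs_re_add_abs_im v
  linarith

theorem dw0 (A B : ℝ) (z : ℂ) : dw A B 0 z = A - z.re := by
  simp [dw, cv, nv, ip]
theorem dw1 (A B : ℝ) (z : ℂ) : dw A B 1 z = B - z.im := by
  simp [dw, cv, nv, ip]
theorem dw2 (A B : ℝ) (z : ℂ) : dw A B 2 z = z.re := by
  simp [dw, cv, nv, ip]
theorem dw3 (A B : ℝ) (z : ℂ) : dw A B 3 z = z.im := by
  simp [dw, cv, nv, ip]

theorem near_cor {A B : ℝ} {r : ℂ} (hF : Far A B r) :
    (¬ (|r.re - A| < 1 ∧ |r.im| < 1)) ∧ (¬ (|r.re - A| < 1 ∧ |r.im - B| < 1)) ∧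
    (¬ (|r.re| < 1 ∧ |r.im - B| < 1)) ∧ (¬ (|r.re| < 1 ∧ |r.im| < 1)) := by
  refine ⟨?_, ?_, ?_, ?_⟩
  · rintro ⟨h1, h2⟩
    have := hF 0
    have h3 : ‖r - cor A B 0‖ < 3 := by
      apply near
      · simpa [cor] using h1
      · simpa [cor] using h2
    linarith
  · rintro ⟨h1, h2⟩
    have := hF 1
    have h3 : ‖r - cor A B 1‖ < 3 := by
      apply near
      · simpa [cor] using h1
      · simpa [cor] using h2
    linarith
  · rintro ⟨h1, h2⟩
    have := hF 2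
    have h3 : ‖r - cor A B 2‖ < 3 := by
      apply near
      · simpa [cor] using h1
      · simpa [cor] using h2
    linarith
  · rintro ⟨h1, h2⟩
    have := hF 3
    have h3 : ‖r - cor A B 3‖ < 3 := by
      apply near
      · simpa [cor] using h1
      · simpa [cor] using h2
    linarith

/-- weights near a vertical wall -/
theorem wts_even {A B : ℝ} (hA : 8 ≤ A) (F : ℂ → ℂ) {k : Fin 4} (hk : k = 0 ∨ k = 2) {r : ℂ}
    (hr : r ∈ Box A B) (hF : Far A B r) (hd : dw A B k r < 1) :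
    wR A B F r = (if dw A B k r < 3 / 500 then |(F r).re| else 0) ∧ wT A B F r = 0 := by
  obtain ⟨c0, c1, c2, c3⟩ := near_cor hF
  obtain ⟨b1, b2, b3, b4⟩ := hr
  unfold wR wT
  rcases hk with rfl | rfl
  · rw [dw0] at hd ⊢
    rw [dw2, dw1, dw3]
    constructor
    · by_cases h : A - r.re < 3 / 500
      · rw [if_pos ⟨Or.inl h, hF⟩, if_pos h]
      · rw [if_neg h, if_neg]
        rintro ⟨h' | h', -⟩
        · exact h h'
        · linarith
    · rw [if_neg]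
      rintro ⟨h' | h', -⟩
      · apply c1
        constructor
        · rw [abs_lt]; constructor <;> linarith
        · rw [abs_lt]; constructor <;> linarith
      · apply c0
        constructor
        · rw [abs_lt]; constructor <;> linarith
        · rw [abs_lt]; constructor <;> linarith
  · rw [dw2] at hd ⊢
    rw [dw0, dw1, dw3]
    constructor
    · by_cases h : r.re < 3 / 500
      · rw [if_pos ⟨Or.inr h, hF⟩, if_pos h]
      · rw [if_neg h, if_neg]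
        rintro ⟨h' | h', -⟩
        · linarith
        · exact h h'
    · rw [if_neg]
      rintro ⟨h' | h', -⟩
      · apply c2
        constructor
        · rw [abs_lt]; constructor <;> linarith
        · rw [abs_lt]; constructor <;> linarith
      · apply c3
        constructor
        · rw [abs_lt]; constructor <;> linarith
        · rw [abs_lt]; constructor <;> linarith

/-- weights near a horizontal wall -/
theorem wts_odd {A B : ℝ} (hB : 8 ≤ B) (F : ℂ → ℂ) {k : Fin 4} (hk : k = 1 ∨ k = 3) {r : ℂ}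
    (hr : r ∈ Box A B) (hF : Far A B r) (hd : dw A B k r < 1) :
    wT A B F r = (if dw A B k r < 3 / 500 then |(F r).im| else 0) ∧ wR A B F r = 0 := by
  obtain ⟨c0, c1, c2, c3⟩ := near_cor hF
  obtain ⟨b1, b2, b3, b4⟩ := hr
  unfold wR wT
  rcases hk with rfl | rfl
  · rw [dw1] at hd ⊢
    rw [dw0, dw2, dw3]
    constructor
    · by_cases h : B - r.im < 3 / 500
      · rw [if_pos ⟨Or.inl h, hF⟩, if_pos h]
      · rw [if_neg h, if_neg]
        rintro ⟨h' | h', -⟩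
        · exact h h'
        · linarith
    · rw [if_neg]
      rintro ⟨h' | h', -⟩
      · apply c1
        constructor
        · rw [abs_lt]; constructor <;> linarith
        · rw [abs_lt]; constructor <;> linarith
      · apply c2
        constructor
        · rw [abs_lt]; constructor <;> linarith
        · rw [abs_lt]; constructor <;> linarith
  · rw [dw3] at hd ⊢
    rw [dw0, dw2, dw1]
    constructor
    · by_cases h : r.im < 3 / 500
      · rw [if_pos ⟨Or.inr h, hF⟩, if_pos h]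
      · rw [if_neg h, if_neg]
        rintro ⟨h' | h', -⟩
        · linarith
        · exact h h'
    · rw [if_neg]
      rintro ⟨h' | h', -⟩
      · apply c0
        constructor
        · rw [abs_lt]; constructor <;> linarith
        · rw [abs_lt]; constructor <;> linarith
      · apply c3
        constructor
        · rw [abs_lt]; constructor <;> linarith
        · rw [abs_lt]; constructor <;> linarith

theorem w_nonneg (A B : ℝ) (F : ℂ → ℂ) (r : ℂ) :
    0 ≤ wR A B F r ∧ wR A B F r ≤ ‖F r‖ ∧ 0 ≤ wT A B F r ∧ wT A B F r ≤ ‖F r‖ := by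
  unfold wR wT
  refine ⟨?_, ?_, ?_, ?_⟩
  · split
    · exact abs_nonneg _
    · exact le_refl _
  · split
    · exact abs_re_le_norm _
    · exact norm_nonneg _
  · split
    · exact abs_nonneg _
    · exact le_refl _
  · split
    · exact abs_im_le_norm _
    · exact norm_nonneg _

theorem abs_mul_re_aux {k : Fin 4} (h : k = 0 ∨ k = 2) (f : ℝ) (hf : 0 ≤ f) :
    |(((-1 : ℂ) ^ (k : ℕ)) * (f : ℂ) * nv k).re| = f := by
  rcases h with h | h
  · rw [h]; simp [nv, abs_of_nonneg hf]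
  · rw [h]; simp [nv, abs_of_nonneg hf]

theorem abs_mul_im_aux {k : Fin 4} (h : k = 1 ∨ k = 3) (f : ℝ) (hf : 0 ≤ f) :
    |(((-1 : ℂ) ^ (k : ℕ)) * (f : ℂ) * nv k).im| = f := by
  rcases h with h | h
  · rw [h]; simp [nv, abs_of_nonneg hf]
  · rw [h]; simp [nv, abs_of_nonneg hf, pow_succ]

/-- the main part of the calibration form along a wall -/
theorem GM_est {ψ : ℂ → ℝ} {F : ℂ → ℂ} {p q z n : ℂ} {s f x y ε : ℝ} (hn : ‖n‖ = 1)
    (hn6 : n ^ 6 = (s : ℂ)) (hs : s = 1 ∨ s = -1)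
    (hx : ip (q - p) n = x) (hy : ip (q - p) (I * n) = y) (hε : 0 ≤ ε)
    (hFz : F z = ((s * f : ℝ) : ℂ) * n)
    (hψ : |ψ q - ψ p - ip (F p) (-I * (q - p))| ≤ 4 * ε)
    (hFp : ‖F p - F z‖ ≤ ε) (hFq : ‖F q - F z‖ ≤ ε)
    (h1 : 1 ≤ x ^ 2 + y ^ 2) (h2 : x ^ 2 + y ^ 2 ≤ 2 * y) :
    |GM ψ F p q - (if s = 1 then cc * (ψ q - ψ p) else 0)
      - f * (hh (⟨x, y⟩ : ℂ) * y + kk (⟨x, y⟩ : ℂ) * x - cc * y)| ≤ 200 * ε := by
  have hv : q - p = n * (⟨x, y⟩ : ℂ) := by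
    rw [← hx, ← hy]; exact frame hn _
  have hω0 : (⟨x, y⟩ : ℂ) ≠ 0 := by
    intro h
    have e1 := congrArg Complex.re h
    have e2 := congrArg Complex.im h
    simp at e1 e2
    rw [e1, e2] at h1
    norm_num at h1
  have hns : normSq (⟨x, y⟩ : ℂ) = x ^ 2 + y ^ 2 := by rw [normSq_mk]; ring
  have hnn : normSq n = 1 := by
    have := Complex.sq_norm n
    rw [hn] at this
    linarith
  have hnsv : normSq (n * (⟨x, y⟩ : ℂ)) = normSq (⟨x, y⟩ : ℂ) := by
    rw [normSq_mul, hnn, one_mul]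
  have hy2 : y ≤ 2 := by nlinarith [sq_nonneg x, sq_nonneg (y - 2)]
  have h4 : x ^ 2 + y ^ 2 ≤ 4 := by linarith
  have hnv2 : ‖q - p‖ ≤ 2 := by
    have e : ‖q - p‖ ^ 2 = x ^ 2 + y ^ 2 := by
      rw [hv, norm_mul, hn, one_mul, Complex.sq_norm, hns]
    nlinarith [norm_nonneg (q - p)]
  have hhb := hh_bd hω0 (by rw [hns]; exact h1) (by rw [hns]; exact h4)
  have hkb := kk_bd hω0 (by rw [hns]; exact h1) (by rw [hns]; exact h4)
  obtain ⟨c0, c1⟩ := cc_bd
  -- the differences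
  have ipsub : ∀ a b c : ℂ, ip (a - b) c = ip a c - ip b c := by
    intro a b c; simp [ip]; ring
  have hz1 : ip (F z) (-I * (q - p)) = s * f * y := by
    rw [hFz, ← hy]
    simp [ip]
    ring
  have hz2 : ip (F z) (q - p) = s * f * x := by
    rw [hFz, ← hx]
    simp [ip]
    ring
  have d1 : |ip (F p) (-I * (q - p)) - s * f * y| ≤ 2 * ε := by
    rw [← hz1, ← ipsub]
    calc |ip (F p - F z) (-I * (q - p))| ≤ ‖F p - F z‖ * ‖-I * (q - p)‖ := ip_le _ _
      _ = ‖F p - F z‖ * ‖q - p‖ := by rw [norm_mul, norm_neg, norm_I, one_mul]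
      _ ≤ ε * 2 := by gcongr
      _ = 2 * ε := by ring
  have d2 : |ip (F p) (q - p) - s * f * x| ≤ 2 * ε := by
    rw [← hz2, ← ipsub]
    calc |ip (F p - F z) (q - p)| ≤ ‖F p - F z‖ * ‖q - p‖ := ip_le _ _
      _ ≤ ε * 2 := by gcongr
      _ = 2 * ε := by ring
  have d3 : |ip (F q) (q - p) - s * f * x| ≤ 2 * ε := by
    rw [← hz2, ← ipsub]
    calc |ip (F q - F z) (q - p)| ≤ ‖F q - F z‖ * ‖q - p‖ := ip_le _ _
      _ ≤ ε * 2 := by gcongr
      _ = 2 * ε := by ring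
  obtain ⟨e1, he1⟩ : ∃ e1, e1 = ψ q - ψ p - s * f * y := ⟨_, rfl⟩
  obtain ⟨e2, he2⟩ : ∃ e2, e2 = (ip (F p) (q - p) + ip (F q) (q - p)) / 2 - s * f * x := ⟨_, rfl⟩
  have he1b : |e1| ≤ 6 * ε := by
    rw [he1]
    have := abs_le.mp hψ
    have := abs_le.mp d1
    rw [abs_le]
    constructor <;> linarith
  have he2b : |e2| ≤ 2 * ε := by
    rw [he2]
    have := abs_le.mp d2
    have := abs_le.mp d3
    rw [abs_le]
    constructor <;> linarith
  have key : |(hh (⟨x, y⟩ : ℂ) - cc) * e1 + kk (⟨x, y⟩ : ℂ) * e2| ≤ 200 * ε := by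
    have hc : |hh (⟨x, y⟩ : ℂ) - cc| ≤ 21 := by
      calc |hh (⟨x, y⟩ : ℂ) - cc| ≤ |hh (⟨x, y⟩ : ℂ)| + |cc| := abs_sub _ _
        _ ≤ 20 + 1 := by
          rw [abs_of_nonneg c0]
          exact add_le_add hhb c1
        _ = 21 := by norm_num
    calc |(hh (⟨x, y⟩ : ℂ) - cc) * e1 + kk (⟨x, y⟩ : ℂ) * e2|
        ≤ |(hh (⟨x, y⟩ : ℂ) - cc) * e1| + |kk (⟨x, y⟩ : ℂ) * e2| := abs_add_le _ _
      _ = |hh (⟨x, y⟩ : ℂ) - cc| * |e1| + |kk (⟨x, y⟩ : ℂ)| * |e2| := by rw [abs_mul, abs_mul]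
      _ ≤ 21 * (6 * ε) + 20 * (2 * ε) := by gcongr
      _ ≤ 200 * ε := by linarith
  have hA : ψ q - ψ p = s * f * y + e1 := by rw [he1]; ring
  have hD : (ip (F p) (q - p) + ip (F q) (q - p)) / 2 = s * f * x + e2 := by rw [he2]; ring
  have hu : u6 (q - p) = (s : ℂ) * u6 (⟨x, y⟩ : ℂ) := by rw [hv, u6_mul hn, hn6]
  rcases hs with hs | hs
  · have hhv : hh (q - p) = hh (⟨x, y⟩ : ℂ) := by
      unfold hh
      rw [hu, hs, hv, hnsv]
      simp
    have hkv : kk (q - p) = kk (⟨x, y⟩ : ℂ) := by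
      unfold kk
      rw [hu, hs, hv, hnsv]
      simp
    unfold GM
    rw [hhv, hkv, hA, hD, if_pos hs, hs]
    have : hh (⟨x, y⟩ : ℂ) * (1 * f * y + e1) + kk (⟨x, y⟩ : ℂ) * (1 * f * x + e2)
        - cc * (1 * f * y + e1)
        - f * (hh (⟨x, y⟩ : ℂ) * y + kk (⟨x, y⟩ : ℂ) * x - cc * y)
        = (hh (⟨x, y⟩ : ℂ) - cc) * e1 + kk (⟨x, y⟩ : ℂ) * e2 := by ring
    rw [this]
    exact key
  · have hhv : hh (q - p) = cc - hh (⟨x, y⟩ : ℂ) := by
      unfold hh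
      rw [hu, hs, hv, hnsv]
      simp
      ring
    have hkv : kk (q - p) = -kk (⟨x, y⟩ : ℂ) := by
      unfold kk
      rw [hu, hs, hv, hnsv]
      simp
    unfold GM
    rw [hhv, hkv, hA, hD, if_neg (by rw [hs]; norm_num), hs]
    have : (cc - hh (⟨x, y⟩ : ℂ)) * (-1 * f * y + e1) + -kk (⟨x, y⟩ : ℂ) * (-1 * f * x + e2)
        - 0
        - f * (hh (⟨x, y⟩ : ℂ) * y + kk (⟨x, y⟩ : ℂ) * x - cc * y)
        = -((hh (⟨x, y⟩ : ℂ) - cc) * e1 + kk (⟨x, y⟩ : ℂ) * e2) := by ring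
    rw [this, abs_neg]
    exact key

end W07

open W07 in
theorem wall_ge : ∃ K : ℝ, 0 ≤ K ∧ ∀ (A B ρ : ℝ) (ψ : ℂ → ℝ) (F : ℂ → ℂ) (P : Finset ℂ),
    10 ≤ ρ → Gen A B P → IsFld A B ρ ψ F → ∀ (k : Fin 4) (e : ℂ × ℂ), e ∈ Wp A B P k →
    (if (k : ℕ) % 2 = 0 then cc * (ψ e.2 - ψ e.1) else 0) - K / ρ
      ≤ cost A B k e + GG A B ψ F e.1 e.2 := by
  refine ⟨40000, by norm_num, ?_⟩
  intro A B ρ ψ F P hρ hG hF k e he
  obtain ⟨p, q⟩ := e
  obtain ⟨hdp, hdq, hdp1, hdq1, hdx, hy, h1, h2, z, hz, hz0, hzp, hzq⟩ := Wp_facts hG he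
  obtain ⟨hc1, hc2⟩ := cost_ge hG he
  obtain ⟨⟨hp, hq⟩, -, -⟩ := mem_Wp.mp he
  have hpB : p ∈ Box A B := hG.sub p hp
  have hqB : q ∈ Box A B := hG.sub q hq
  obtain ⟨f, hf0, hf1, hFz⟩ := hF.wall k z hz hz0
  obtain ⟨x, hx⟩ : ∃ x, x = ip (q - p) (nv k) := ⟨_, rfl⟩
  obtain ⟨y, hyy⟩ : ∃ y, y = ip (q - p) (I * nv k) := ⟨_, rfl⟩
  obtain ⟨ε, hε⟩ : ∃ ε, ε = 40 / ρ := ⟨_, rfl⟩
  have hρ0 : 0 < ρ := by linarith
  have hε0 : 0 ≤ ε := by rw [hε]; positivity
  rw [← hx, ← hyy] at h1 h2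
  rw [← hyy] at hy
  rw [← hx] at hdx
  show (if (k : ℕ) % 2 = 0 then cc * (ψ q - ψ p) else 0) - 40000 / ρ
      ≤ cost A B k (p, q) + GG A B ψ F p q
  have hK : (40000 : ℝ) / ρ = 1000 * ε := by rw [hε]; ring
  rw [hK]
  have hn := nv_norm k
  have hy2 : y ≤ 2 := by nlinarith [sq_nonneg x, sq_nonneg (y - 2)]
  have hns : normSq (⟨x, y⟩ : ℂ) = x ^ 2 + y ^ 2 := by rw [normSq_mk]; ring
  have hω0 : (⟨x, y⟩ : ℂ) ≠ 0 := by
    intro h
    have e2 := congrArg Complex.im h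
    simp at e2
    linarith
  have hv : q - p = nv k * (⟨x, y⟩ : ℂ) := by
    rw [hx, hyy]; exact frame hn _
  have hvsq : ‖q - p‖ ^ 2 = x ^ 2 + y ^ 2 := by
    rw [hv, norm_mul, hn, one_mul, Complex.sq_norm, hns]
  have hψ : |ψ q - ψ p - ip (F p) (-I * (q - p))| ≤ 4 * ε := by
    calc |ψ q - ψ p - ip (F p) (-I * (q - p))| ≤ 40 / ρ * ‖q - p‖ ^ 2 := hF.tay p hpB q hqB
      _ ≤ 40 / ρ * 4 := by
          rw [hvsq]
          apply mul_le_mul_of_nonneg_left _ (by positivity)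
          linarith
      _ = 4 * ε := by rw [hε]; ring
  have hFp : ‖F p - F z‖ ≤ ε := by
    calc ‖F p - F z‖ ≤ 40 / ρ * ‖p - z‖ := hF.lip z hz p hpB
      _ ≤ 40 / ρ * 1 := by
          apply mul_le_mul_of_nonneg_left _ (by positivity)
          rw [norm_sub_rev]; exact hzp.le
      _ = ε := by rw [hε]; ring
  have hFq : ‖F q - F z‖ ≤ ε := by
    calc ‖F q - F z‖ ≤ 40 / ρ * ‖q - z‖ := hF.lip z hz q hqB
      _ ≤ 40 / ρ * 1 := by
          apply mul_le_mul_of_nonneg_left _ (by positivity)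
          rw [norm_sub_rev]; exact hzq.le
      _ = ε := by rw [hε]; ring
  have hkk : (k = 0 ∨ k = 2) ∨ (k = 1 ∨ k = 3) := by
    fin_cases k <;> simp
  -- the sign
  obtain ⟨s, hs, hsk, hs1⟩ : ∃ s : ℝ, (s = 1 ∨ s = -1) ∧ ((-1 : ℂ) ^ (k : ℕ) = (s : ℂ)) ∧
      (s = 1 ↔ (k : ℕ) % 2 = 0) := by
    rcases hkk with (h | h) | (h | h)
    · refine ⟨1, Or.inl rfl, ?_, ?_⟩
      · rw [h]; norm_num
      · rw [h]; norm_num
    · refine ⟨1, Or.inl rfl, ?_, ?_⟩
      · rw [h]; norm_num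
      · rw [h]; norm_num
    · refine ⟨-1, Or.inr rfl, ?_, ?_⟩
      · rw [h]; norm_num
      · rw [h]; norm_num
    · refine ⟨-1, Or.inr rfl, ?_, ?_⟩
      · rw [h]; norm_num
      · rw [h]; norm_num
  have hFz' : F z = ((s * f : ℝ) : ℂ) * nv k := by
    rw [hFz, hsk]; push_cast; ring
  have hGM := GM_est (p := p) (q := q) (ψ := ψ) (F := F) hn ((nv_six k).trans hsk) hs hx.symm
    hyy.symm hε0 hFz' hψ hFp hFq h1 h2
  have hT : (if s = 1 then cc * (ψ q - ψ p) else 0)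
      = (if (k : ℕ) % 2 = 0 then cc * (ψ q - ψ p) else 0) := by
    by_cases h : s = 1
    · rw [if_pos h, if_pos (hs1.mp h)]
    · rw [if_neg h, if_neg (fun h' => h (hs1.mpr h'))]
  rw [hT] at hGM
  have hGM1 := (abs_le.mp hGM).1
  obtain ⟨T, hTd⟩ : ∃ T, T = (if (k : ℕ) % 2 = 0 then cc * (ψ q - ψ p) else 0) := ⟨_, rfl⟩
  rw [← hTd] at hGM1 ⊢
  obtain ⟨M, hM⟩ : ∃ M, M = hh (⟨x, y⟩ : ℂ) * y + kk (⟨x, y⟩ : ℂ) * x - cc * y := ⟨_, rfl⟩
  rw [← hM] at hGM1
  have hfz : ‖F z‖ = f := by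
    rw [hFz', norm_mul, hn, mul_one, norm_real, Real.norm_eq_abs, abs_mul]
    rcases hs with h | h <;> rw [h] <;> simp [abs_of_nonneg hf0]
  unfold GG
  by_cases hc : ∀ j : Fin 4, 8 < ‖z - cor A B j‖
  · -- far from the corners
    have hFarp := Far_of hc hzp
    have hFarq := Far_of hc hzq
    have hA8 : 8 ≤ A := by have := hF.hA; linarith
    have hB8 : 8 ≤ B := by have := hF.hB; linarith
    obtain ⟨a, hap, haq, hGV⟩ : ∃ a : ℂ → ℝ, |a p - f| ≤ ε ∧ |a q - f| ≤ ε ∧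
        GV A B F p q = ((if dw A B k q < 3 / 500 then a q else 0)
          - (if dw A B k p < 3 / 500 then a p else 0)) * XX (⟨x, y⟩ : ℂ) := by
      rcases hkk with h | h
      · have hre : |(F z).re| = f := by
          rw [hFz, abs_mul_re_aux h f hf0]
        refine ⟨fun r => |(F r).re|, ?_, ?_, ?_⟩
        · rw [← hre]
          calc |(|(F p).re| - |(F z).re|)| ≤ |(F p).re - (F z).re| := abs_abs_sub_abs_le _ _
            _ = |(F p - F z).re| := by rw [sub_re]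
            _ ≤ ‖F p - F z‖ := abs_re_le_norm _
            _ ≤ ε := hFp
        · rw [← hre]
          calc |(|(F q).re| - |(F z).re|)| ≤ |(F q).re - (F z).re| := abs_abs_sub_abs_le _ _
            _ = |(F q - F z).re| := by rw [sub_re]
            _ ≤ ‖F q - F z‖ := abs_re_le_norm _
            _ ≤ ε := hFq
        · obtain ⟨w1, w2⟩ := wts_even hA8 F h hpB hFarp hdp1
          obtain ⟨w3, w4⟩ := wts_even hA8 F h hqB hFarq hdq1
          have hXX : XX (q - p) = XX (⟨x, y⟩ : ℂ) := by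
            rw [hv]
            rcases h with h | h
            · rw [h]; simp [nv]
            · rw [h]; simp [nv, XX_neg]
          unfold GV
          rw [w1, w2, w3, w4, hXX]
          ring
      · have him : |(F z).im| = f := by
          rw [hFz, abs_mul_im_aux h f hf0]
        refine ⟨fun r => |(F r).im|, ?_, ?_, ?_⟩
        · rw [← him]
          calc |(|(F p).im| - |(F z).im|)| ≤ |(F p).im - (F z).im| := abs_abs_sub_abs_le _ _
            _ = |(F p - F z).im| := by rw [sub_im]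
            _ ≤ ‖F p - F z‖ := abs_im_le_norm _
            _ ≤ ε := hFp
        · rw [← him]
          calc |(|(F q).im| - |(F z).im|)| ≤ |(F q).im - (F z).im| := abs_abs_sub_abs_le _ _
            _ = |(F q - F z).im| := by rw [sub_im]
            _ ≤ ‖F q - F z‖ := abs_im_le_norm _
            _ ≤ ε := hFq
        · obtain ⟨w1, w2⟩ := wts_odd hB8 F h hpB hFarp hdp1
          obtain ⟨w3, w4⟩ := wts_odd hB8 F h hqB hFarq hdq1
          have hXX : XX (-I * (q - p)) = XX (⟨x, y⟩ : ℂ) := by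
            rw [hv]
            rcases h with h | h
            · have : -I * (nv k * (⟨x, y⟩ : ℂ)) = (⟨x, y⟩ : ℂ) := by
                rw [h]
                simp only [nv, Matrix.cons_val_one, Matrix.cons_val_zero]
                rw [← mul_assoc, neg_mul, I_mul_I]
                simp
              rw [this]
            · have : -I * (nv k * (⟨x, y⟩ : ℂ)) = -(⟨x, y⟩ : ℂ) := by
                rw [h]
                show -I * ((-I) * (⟨x, y⟩ : ℂ)) = -(⟨x, y⟩ : ℂ)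
                rw [← mul_assoc, neg_mul_neg, I_mul_I]
                simp
              rw [this, XX_neg]
          unfold GV
          rw [w1, w2, w3, w4, hXX]
          ring
    have hcomb := comb (ap := a p) (aq := a q) hy h1 h2 hdp hdq hdx hf0 hf1 hε0 hap haq
    rw [← hGV, ← hM] at hcomb
    have hcost : cost A B k (p, q)
        = (dw A B k p + dw A B k q) * y / Real.sqrt 3 + (y - 1) / 2 := by
      unfold cost
      rw [hyy]
    rw [hcost]
    linarith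
  · push Not at hc
    obtain ⟨j, hj⟩ := hc
    have hfs : f ≤ 8 * ε := by
      rw [← hfz]
      calc ‖F z‖ ≤ 320 / ρ := hF.corner j z hz hj
        _ = 8 * ε := by rw [hε]; ring
    have hnFp : ‖F p‖ ≤ 9 * ε := by
      calc ‖F p‖ = ‖(F p - F z) + F z‖ := by ring_nf
        _ ≤ ‖F p - F z‖ + ‖F z‖ := norm_add_le _ _
        _ ≤ 9 * ε := by rw [hfz]; linarith
    have hnFq : ‖F q‖ ≤ 9 * ε := by
      calc ‖F q‖ = ‖(F q - F z) + F z‖ := by ring_nf
        _ ≤ ‖F q - F z‖ + ‖F z‖ := norm_add_le _ _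
        _ ≤ 9 * ε := by rw [hfz]; linarith
    obtain ⟨a1, a2, a3, a4⟩ := w_nonneg A B F p
    obtain ⟨b1, b2, b3, b4⟩ := w_nonneg A B F q
    have hv0 : q - p ≠ 0 := by
      intro h
      rw [h] at hvsq
      simp at hvsq
      linarith
    have hX1 : |XX (q - p)| ≤ 1 := (XX_bound hv0).trans (by norm_num)
    have hX2 : |XX (-I * (q - p))| ≤ 1 :=
      (XX_bound (mul_ne_zero (neg_ne_zero.mpr I_ne_zero) hv0)).trans (by norm_num)
    have hGV : |GV A B F p q| ≤ 18 * ε := by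
      unfold GV
      calc |(wR A B F q - wR A B F p) * XX (q - p)
            + (wT A B F q - wT A B F p) * XX (-I * (q - p))|
          ≤ |(wR A B F q - wR A B F p) * XX (q - p)|
            + |(wT A B F q - wT A B F p) * XX (-I * (q - p))| := abs_add_le _ _
        _ = |wR A B F q - wR A B F p| * |XX (q - p)|
            + |wT A B F q - wT A B F p| * |XX (-I * (q - p))| := by rw [abs_mul, abs_mul]
        _ ≤ (9 * ε) * 1 + (9 * ε) * 1 := by
            have e1 : |wR A B F q - wR A B F p| ≤ 9 * ε := by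
              rw [abs_le]; constructor <;> linarith
            have e2 : |wT A B F q - wT A B F p| ≤ 9 * ε := by
              rw [abs_le]; constructor <;> linarith
            gcongr
        _ = 18 * ε := by ring
    have hMb : |M| ≤ 82 := by
      have h4 : x ^ 2 + y ^ 2 ≤ 4 := by linarith
      have hhb := hh_bd hω0 (by rw [hns]; exact h1) (by rw [hns]; exact h4)
      have hkb := kk_bd hω0 (by rw [hns]; exact h1) (by rw [hns]; exact h4)
      obtain ⟨c0, c1⟩ := cc_bd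
      have hxa : |x| ≤ 2 := by
        apply abs_le_of_sq_le_sq' _ (by norm_num) |> abs_le.mpr
        nlinarith [sq_nonneg y]
      have hya : |y| ≤ 2 := by rw [abs_of_pos hy]; exact hy2
      rw [hM]
      calc |hh (⟨x, y⟩ : ℂ) * y + kk (⟨x, y⟩ : ℂ) * x - cc * y|
          ≤ |hh (⟨x, y⟩ : ℂ) * y + kk (⟨x, y⟩ : ℂ) * x| + |cc * y| := abs_sub _ _
        _ ≤ |hh (⟨x, y⟩ : ℂ) * y| + |kk (⟨x, y⟩ : ℂ) * x| + |cc * y| := by
            gcongr; exact abs_add_le _ _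
        _ = |hh (⟨x, y⟩ : ℂ)| * |y| + |kk (⟨x, y⟩ : ℂ)| * |x| + |cc| * |y| := by
            rw [abs_mul, abs_mul, abs_mul]
        _ ≤ 20 * 2 + 20 * 2 + 1 * 2 := by
            have : |cc| ≤ 1 := by rw [abs_of_nonneg c0]; exact c1
            gcongr
        _ = 82 := by norm_num
    have hfM : |f * M| ≤ 656 * ε := by
      rw [abs_mul, abs_of_nonneg hf0]
      calc f * |M| ≤ (8 * ε) * 82 := by gcongr
        _ = 656 * ε := by ring
    have g1 := (abs_le.mp hfM).1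
    have g2 := (abs_le.mp hGV).1
    linarith

end Pool.Agent.LG
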