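import Pool.Agent.Lib.MP_8026b0_co.G12
import Pool.Agent.Lib.MP_8026b0_co.F01
import Pool.Agent.Lib.MP_8026b0_co.C09
import Pool.Agent.Lib.MP_8026b0_co.W07
import Pool.Agent.Lib.MP_8026b0_co.N03

set_option autoImplicit false

/-! Row A01: the main inequality. -/

namespace Pool.Agent.LG

open Complex

theorem exists_fld {A B ρ : ℝ} (hρ : 1 ≤ ρ) (hA : 8 * ρ ≤ A) (hB : 8 * ρ ≤ B) :
    ∃ (ψ : ℂ → ℝ) (F : ℂ → ℂ), IsFld A B ρ ψ F := by
  obtain ⟨ψ, F, h1, h2, h3, h4, h5, h6⟩ := field hρ hA hB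
  exact ⟨ψ, F, ⟨hρ, hA, hB, h1, h2, h3, h4, h5, h6⟩⟩

namespace A01

theorem cc_bd : 0 ≤ cc ∧ cc ≤ 1 := by
  have h1 : Real.sqrt 3 ≤ 2 := by
    rw [show (2 : ℝ) = Real.sqrt (2 ^ 2) by rw [Real.sqrt_sq (by norm_num)]]
    exact Real.sqrt_le_sqrt (by norm_num)
  have h0 : 0 ≤ Real.sqrt 3 := Real.sqrt_nonneg 3
  unfold cc
  constructor <;> linarith

theorem ip_le (a b : ℂ) : |ip a b| ≤ ‖a‖ * ‖b‖ := by
  have h : ip a b = (a * starRingEnd ℂ b).re := by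
    simp [ip, mul_re]
  rw [h]
  calc |(a * starRingEnd ℂ b).re| ≤ ‖a * starRingEnd ℂ b‖ := abs_re_le_norm _
    _ = ‖a‖ * ‖b‖ := by rw [norm_mul, RCLike.norm_conj]

theorem psi_near {A B ρ : ℝ} {ψ : ℂ → ℝ} {F : ℂ → ℂ} (hF : IsFld A B ρ ψ F) {z w : ℂ}
    (hz : z ∈ Box A B) (hw : w ∈ Box A B) (h : ‖w - z‖ ≤ 1) : |ψ w - ψ z| ≤ 41 := by
  have h1 := hF.tay z hz w hw
  have hρ := hF.hρ
  have h2 : 40 / ρ * ‖w - z‖ ^ 2 ≤ 40 := by
    have h3 : 40 / ρ ≤ 40 := by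
      rw [div_le_iff₀ (by linarith)]; nlinarith
    have h4 : ‖w - z‖ ^ 2 ≤ 1 := by
      have := norm_nonneg (w - z)
      nlinarith
    have h5 : 0 ≤ 40 / ρ := by positivity
    nlinarith [sq_nonneg ‖w - z‖]
  have h3 : |ip (F z) (-I * (w - z))| ≤ 1 := by
    refine (ip_le _ _).trans ?_
    have h4 : ‖-I * (w - z)‖ = ‖w - z‖ := by
      rw [norm_mul, norm_neg, norm_I, one_mul]
    rw [h4]
    have := hF.bd z hz
    have := norm_nonneg (w - z)
    have := norm_nonneg (F z)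
    nlinarith
  have h4 := abs_le.mp h1
  have h5 := abs_le.mp h3
  rw [abs_le]
  constructor <;> linarith [h4.1, h4.2, h5.1, h5.2]

end A01

/-- the main inequality for generic saturated configurations -/
theorem main_gen : ∃ (C ρ1 : ℝ), 0 ≤ C ∧ 1 ≤ ρ1 ∧ ∀ (A B ρ : ℝ) (P : Finset ℂ), ρ1 ≤ ρ →
    8 * ρ ≤ A → 8 * ρ ≤ B → Gen A B P →
    (P.card : ℝ) ≤ 2 / Real.sqrt 3 * A * B + A + B + 1 - 2 * cc * min A B
      + C * (1 + ρ + (A + B) / ρ) := by
  obtain ⟨ρ0, hρ0, htri⟩ := tri_le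
  obtain ⟨K, hK, hwall⟩ := wall_ge
  refine ⟨204 + 8 * K, max ρ0 10, by positivity, le_max_of_le_left hρ0, ?_⟩
  intro A B ρ P hρ hA hB h
  have hρ1 : ρ0 ≤ ρ := (le_max_left _ _).trans hρ
  have hρ2 : 10 ≤ ρ := (le_max_right _ _).trans hρ
  have hρpos : 0 < ρ := by linarith
  obtain ⟨ψ, F, hF⟩ := exists_fld (by linarith : (1 : ℝ) ≤ ρ) hA hB
  have hdef := deficiency h
  have hstar := star_cyc h (GG A B ψ F) (fun p q => GG_antisymm A B ψ F p q)
  have htri' : ∑ t ∈ Tr A B P, (GG A B ψ F t.1 t.2.1 + GG A B ψ F t.2.1 t.2.2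
      + GG A B ψ F t.2.2 t.1) ≤ ∑ t ∈ Tr A B P, ex t :=
    Finset.sum_le_sum (fun t ht => htri A B ρ ψ F P hρ1 h hF t ht)
  have hw : ∑ k : Fin 4, ∑ e ∈ Wp A B P k,
      ((if (k : ℕ) % 2 = 0 then cc * (ψ e.2 - ψ e.1) else 0) - K / ρ)
      ≤ ∑ k : Fin 4, ∑ e ∈ Wp A B P k, (cost A B k e + GG A B ψ F e.1 e.2) :=
    Finset.sum_le_sum (fun k _ => Finset.sum_le_sum (fun e he =>
      hwall A B ρ ψ F P hρ2 h hF k e he))
  have hsplit : ∑ k : Fin 4, ∑ e ∈ Wp A B P k, (cost A B k e + GG A B ψ F e.1 e.2)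
      = ∑ k : Fin 4, ∑ e ∈ Wp A B P k, cost A B k e
        + ∑ k : Fin 4, ∑ e ∈ Wp A B P k, GG A B ψ F e.1 e.2 := by
    simp only [Finset.sum_add_distrib]
  have hA0 : 0 ≤ A := by linarith
  have hB0 : 0 ≤ B := by linarith
  -- nearest points of the corners
  have hne := h.nonempty
  obtain ⟨b0, hb0⟩ := Nr_nonempty hne (cor A B 0)
  obtain ⟨b1, hb1⟩ := Nr_nonempty hne (cor A B 1)
  obtain ⟨b2, hb2⟩ := Nr_nonempty hne (cor A B 2)
  obtain ⟨b3, hb3⟩ := Nr_nonempty hne (cor A B 3)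
  have near : ∀ (k : Fin 4) (b : ℂ), b ∈ Nr P (cor A B k) → |ψ b - ψ (cor A B k)| ≤ 41 := by
    intro k b hb
    have hc := cor_mem_Box hA0 hB0 k
    have hbP : b ∈ P := (mem_Nr.mp hb).1
    refine A01.psi_near hF hc (h.sub b hbP) ?_
    have := h.dist_lt_one hc hb
    rw [norm_sub_rev]
    exact this.le
  have t0 := tel h ψ 0 hb0 (by simpa using hb1)
  have t2 := tel h ψ 2 hb2 (by simpa using hb3)
  have card := fun k => Wp_card_le h k (fun φ a ha b hb => tel h φ k ha hb)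
  have hs : ∑ k : Fin 4, ∑ e ∈ Wp A B P k,
      ((if (k : ℕ) % 2 = 0 then cc * (ψ e.2 - ψ e.1) else 0) - K / ρ)
      = cc * ((ψ b1 - ψ b0) + (ψ b3 - ψ b2))
        - K / ρ * (((Wp A B P 0).card : ℝ) + (Wp A B P 1).card + (Wp A B P 2).card
            + (Wp A B P 3).card) := by
    rw [Fin.sum_univ_four]
    simp only [Finset.sum_sub_distrib, Finset.sum_const, nsmul_eq_mul]
    have e0 : ∑ e ∈ Wp A B P 0, (if ((0 : Fin 4) : ℕ) % 2 = 0 then cc * (ψ e.2 - ψ e.1) else 0)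
        = cc * (ψ b1 - ψ b0) := by
      rw [← t0, Finset.mul_sum]; simp
    have e1 : ∑ e ∈ Wp A B P 1, (if ((1 : Fin 4) : ℕ) % 2 = 0 then cc * (ψ e.2 - ψ e.1) else 0)
        = 0 := by
      apply Finset.sum_eq_zero; intro e _; simp
    have e2 : ∑ e ∈ Wp A B P 2, (if ((2 : Fin 4) : ℕ) % 2 = 0 then cc * (ψ e.2 - ψ e.1) else 0)
        = cc * (ψ b3 - ψ b2) := by
      rw [← t2, Finset.mul_sum]; simp
    have e3 : ∑ e ∈ Wp A B P 3, (if ((3 : Fin 4) : ℕ) % 2 = 0 then cc * (ψ e.2 - ψ e.1) else 0)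
        = 0 := by
      apply Finset.sum_eq_zero; intro e _; simp
    rw [e0, e1, e2, e3]
    ring
  have n0 := abs_le.mp (near 0 b0 hb0)
  have n1 := abs_le.mp (near 1 b1 hb1)
  have n2 := abs_le.mp (near 2 b2 hb2)
  have n3 := abs_le.mp (near 3 b3 hb3)
  have hgain := hF.gain
  have hg2 : 2 * min A B - 40 * ρ - 164 ≤ (ψ b1 - ψ b0) + (ψ b3 - ψ b2) := by
    linarith [n0.1, n0.2, n1.1, n1.2, n2.1, n2.2, n3.1, n3.2]
  obtain ⟨hc0, hc1⟩ := A01.cc_bd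
  have hcc : cc * (2 * min A B) - (40 * ρ + 164) ≤ cc * ((ψ b1 - ψ b0) + (ψ b3 - ψ b2)) := by
    have := mul_le_mul_of_nonneg_left hg2 hc0
    have h5 : cc * (40 * ρ + 164) ≤ 1 * (40 * ρ + 164) :=
      mul_le_mul_of_nonneg_right hc1 (by positivity)
    nlinarith
  have hKρ : 0 ≤ K / ρ := by positivity
  have hcard : K / ρ * (((Wp A B P 0).card : ℝ) + (Wp A B P 1).card + (Wp A B P 2).card
            + (Wp A B P 3).card) ≤ K / ρ * (8 * (A + B)) := by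
    apply mul_le_mul_of_nonneg_left _ hKρ
    linarith [card 0, card 1, card 2, card 3]
  have hfin : K / ρ * (8 * (A + B)) = 8 * K * ((A + B) / ρ) := by
    field_simp
  have hAB : 0 ≤ (A + B) / ρ := by positivity
  have key : cc * (2 * min A B) - (40 * ρ + 164) - 8 * K * ((A + B) / ρ)
      ≤ 2 / Real.sqrt 3 * A * B + A + B + 1 - (P.card : ℝ) := by
    linarith
  nlinarith

theorem main_ineq : MainIneq := by
  obtain ⟨C, ρ1, hC, hρ1, hgen⟩ := main_gen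
  refine ⟨2 * C + 2 * ρ1 + 16, by positivity, ?_⟩
  intro A B hA hB N hN
  obtain ⟨hc0, hc1⟩ := A01.cc_bd
  have hccdef : 2 * ((3 - Real.sqrt 3) / 6) * min A B = 2 * cc * min A B := by unfold cc; ring
  rw [hccdef]
  set ρ := Real.sqrt (A + B) with hρ
  have hρ0 : 0 ≤ ρ := Real.sqrt_nonneg _
  have hsq : ρ * ρ = A + B := Real.mul_self_sqrt (by positivity)
  have hmin0 : 0 ≤ min A B := le_min hA hB
  by_cases hcase : ρ1 ≤ ρ ∧ 8 * ρ ≤ A ∧ 8 * ρ ≤ B
  · obtain ⟨h1, h2, h3⟩ := hcase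
    have hρpos : 0 < ρ := by linarith
    have hcont : Continuous (fun x : ℝ × ℝ => 2 / Real.sqrt 3 * x.1 * x.2 + x.1 + x.2 + 1
        - 2 * cc * min x.1 x.2 + C * (1 + ρ + (x.1 + x.2) / ρ)) := by
      fun_prop
    have hred := reduce (L := 8 * ρ) _ hcont (fun A' B' hA' hB' P hP =>
      hgen A' B' ρ P h1 hA' hB' hP) (by linarith : (0 : ℝ) < A) (by linarith : (0 : ℝ) < B)
      h2 h3 hN
    simp only at hred
    have hdiv : (A + B) / ρ = ρ := by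
      rw [← hsq]; field_simp
    rw [hdiv] at hred
    nlinarith
  · have hol := oler hA hB hN
    have hmin : 2 * cc * min A B ≤ (2 * ρ1 + 16) * ρ := by
      have h4 : 2 * cc * min A B ≤ 2 * min A B := by nlinarith
      have h5 : min A B ≤ ρ1 * ρ ∨ min A B ≤ 8 * ρ := by
        by_cases h6 : ρ1 ≤ ρ
        · right
          by_cases h7 : 8 * ρ ≤ A
          · have h8 : ¬ 8 * ρ ≤ B := fun h8 => hcase ⟨h6, h7, h8⟩
            exact (min_le_right _ _).trans (by linarith)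
          · exact (min_le_left _ _).trans (by linarith)
        · left
          push Not at h6
          have : min A B ≤ A + B := (min_le_left _ _).trans (by linarith)
          nlinarith
      rcases h5 with h5 | h5
      · nlinarith
      · nlinarith
    nlinarith

theorem oler_ineq : OlerIneq := by
  intro A B hA hB N h
  exact oler hA hB h

end Pool.Agent.LG
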