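import Mathlib

set_option autoImplicit false

/-! MP_8026b0_co: definitions for the calibration proof (paper: 8026b0_h22.md). -/

namespace Pool.Agent.LG

open Complex

noncomputable section

/-- real inner product on `ℂ` -/
def ip (z w : ℂ) : ℝ := z.re * w.re + z.im * w.im

/-- cross product on `ℂ` (positive when `w` is counterclockwise from `z`) -/
def cr (z w : ℂ) : ℝ := z.re * w.im - z.im * w.re

/-- the closed box `[0,A] x [0,B]` -/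
def Box (A B : ℝ) : Set ℂ := {z | 0 ≤ z.re ∧ z.re ≤ A ∧ 0 ≤ z.im ∧ z.im ≤ B}

/-- the points of `P` nearest to `z` -/
def Nr (P : Finset ℂ) (z : ℂ) : Finset ℂ := by
  classical exact P.filter (fun p => ∀ q ∈ P, ‖z - p‖ ≤ ‖z - q‖)

/-- outer normals of the four walls: right, top, left, bottom -/
def nv : Fin 4 → ℂ := ![1, I, -1, -I]

/-- support numbers of the four walls -/
def cv (A B : ℝ) : Fin 4 → ℝ := ![A, B, 0, 0]

/-- first corner of the wall `k` (walls are traversed counterclockwise) -/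
def cor (A B : ℝ) : Fin 4 → ℂ := ![(A : ℂ), (A : ℂ) + (B : ℂ) * I, (B : ℂ) * I, 0]

/-- distance of `z` to the wall `k` (for `z` in the box) -/
def dw (A B : ℝ) (k : Fin 4) (z : ℂ) : ℝ := cv A B k - ip z (nv k)

/-- generic saturated configuration in the box -/
structure Gen (A B : ℝ) (P : Finset ℂ) : Prop where
  hA : 0 < A
  hB : 0 < B
  sub : ∀ p ∈ P, p ∈ Box A B
  sep : ∀ p ∈ P, ∀ q ∈ P, p ≠ q → 1 ≤ ‖p - q‖
  sat : ∀ z ∈ Box A B, ∃ p ∈ P, ‖z - p‖ < 1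
  re_inj : ∀ p ∈ P, ∀ q ∈ P, p.re = q.re → p = q
  im_inj : ∀ p ∈ P, ∀ q ∈ P, p.im = q.im → p = q
  four : ∀ z ∈ Box A B, (Nr P z).card ≤ 3
  wall : ∀ z ∈ Box A B, ∀ k : Fin 4, dw A B k z = 0 → (Nr P z).card ≤ 2
  corner : ∀ z ∈ Box A B, ∀ k l : Fin 4, k ≠ l → dw A B k z = 0 → dw A B l z = 0 →
    (Nr P z).card ≤ 1

/-- ordered counterclockwise Delaunay triples with centre in the box
(every triangle occurs in its three cyclic rotations) -/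
def Tr (A B : ℝ) (P : Finset ℂ) : Finset (ℂ × ℂ × ℂ) := by
  classical exact (P ×ˢ P ×ˢ P).filter (fun t =>
    0 < cr (t.2.1 - t.1) (t.2.2 - t.1) ∧
    ∃ z ∈ Box A B, t.1 ∈ Nr P z ∧ t.2.1 ∈ Nr P z ∧ t.2.2 ∈ Nr P z)

/-- the pairs of consecutive points along the wall `k` (counterclockwise order) -/
def Wp (A B : ℝ) (P : Finset ℂ) (k : Fin 4) : Finset (ℂ × ℂ) := by
  classical exact (P ×ˢ P).filter (fun e =>
    0 < ip (e.2 - e.1) (I * nv k) ∧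
    ∃ z ∈ Box A B, dw A B k z = 0 ∧ e.1 ∈ Nr P z ∧ e.2 ∈ Nr P z)

/-- `S(p,q)` is nonempty: some point of the box has both `p` and `q` as nearest points -/
def Adj (A B : ℝ) (P : Finset ℂ) (p q : ℂ) : Prop := ∃ z ∈ Box A B, p ∈ Nr P z ∧ q ∈ Nr P z

theorem mem_Nr {P : Finset ℂ} {z p : ℂ} :
    p ∈ Nr P z ↔ p ∈ P ∧ ∀ q ∈ P, ‖z - p‖ ≤ ‖z - q‖ := by
  classical
  simp [Nr]

theorem mem_Tr {A B : ℝ} {P : Finset ℂ} {t : ℂ × ℂ × ℂ} :
    t ∈ Tr A B P ↔ (t.1 ∈ P ∧ t.2.1 ∈ P ∧ t.2.2 ∈ P) ∧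
      0 < cr (t.2.1 - t.1) (t.2.2 - t.1) ∧
      ∃ z ∈ Box A B, t.1 ∈ Nr P z ∧ t.2.1 ∈ Nr P z ∧ t.2.2 ∈ Nr P z := by
  classical
  simp [Tr, Finset.mem_product]

theorem mem_Wp {A B : ℝ} {P : Finset ℂ} {k : Fin 4} {e : ℂ × ℂ} :
    e ∈ Wp A B P k ↔ (e.1 ∈ P ∧ e.2 ∈ P) ∧ 0 < ip (e.2 - e.1) (I * nv k) ∧
    ∃ z ∈ Box A B, dw A B k z = 0 ∧ e.1 ∈ Nr P z ∧ e.2 ∈ Nr P z := by
  classical
  simp [Wp, Finset.mem_product]

/-- excess of an ordered triangle: `(2/√3) area - 1/2` -/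
def ex (t : ℂ × ℂ × ℂ) : ℝ := cr (t.2.1 - t.1) (t.2.2 - t.1) / Real.sqrt 3 - 1 / 2

/-- cost of a pair on the wall `k` -/
def cost (A B : ℝ) (k : Fin 4) (e : ℂ × ℂ) : ℝ :=
  (dw A B k e.1 + dw A B k e.2) * ip (e.2 - e.1) (I * nv k) / Real.sqrt 3
    + (ip (e.2 - e.1) (I * nv k) - 1) / 2

end

end Pool.Agent.LG
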