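import Pool.Agent.Lib.MP_8026b0_co.K07

set_option autoImplicit false

/-! Row K09: soundness of `skip` and `guard'`. -/

namespace Pool.Agent.LG

/-- the domain in the coordinates `(a, b, y)` -/
def Dom (a b y : ℝ) : Prop :=
  1 ≤ a ∧ a ≤ b ∧ 2 * b * y ≤ a ∧ rr a b y ≤ 4 * (1 - y ^ 2)

/-- the cell `(x, z, k)` at resolution `N` -/
def Cell (N x z k : ℕ) (a b y : ℝ) : Prop :=
  (x : ℝ) / N ≤ a ∧ a ≤ ((x : ℝ) + 1) / N ∧ (z : ℝ) / N ≤ b ∧ b ≤ ((z : ℝ) + 1) / N ∧
    ynode N k ≤ y ∧ y ≤ ynode N (k + 1)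

private theorem k09_far {N x z k P : ℕ} (hN : 0 < N) (h : far' N x z k P = true) :
    0 < ((x : ℝ) / N) ^ 2 + ((z : ℝ) / N) ^ 2 - 2 * ((x : ℝ) / N) * ((z : ℝ) / N) * (((P : ℝ) - N) / (2 * N))
      + 8 * ((2 * (k : ℝ) + 1 - N) / (2 * N)) * (((P : ℝ) - N) / (2 * N))
      - 4 * ((2 * (k : ℝ) + 1 - N) / (2 * N)) ^ 2 - 4 := by
  have h1 := Nat.le_of_ble_eq_true h
  simp only [Nat.add_eq, Nat.mul_eq] at h1
  have h2 : ((x * z * P + 2 * (N * N) * (2 * k + 1 + P) + N * ((2 * k + 1) * (2 * k + 1) + N * N)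
      + 4 * (N * N * N) + 1 : ℕ) : ℝ) ≤ ((N * (x * x + z * z) + x * z * N +
      2 * N * ((2 * k + 1) * P + N * N) + 2 * (N * N) * (2 * k + 1) : ℕ) : ℝ) := by
    exact_mod_cast h1
  push_cast at h2
  have hN' : (0 : ℝ) < N := by exact_mod_cast hN
  have hN3 : (0 : ℝ) < (N : ℝ) ^ 3 := by positivity
  by_contra hcon
  rw [not_lt] at hcon
  have h3 := mul_nonpos_of_nonneg_of_nonpos hN3.le hcon
  have h4 : (N : ℝ) ^ 3 * (((x : ℝ) / N) ^ 2 + ((z : ℝ) / N) ^ 2
      - 2 * ((x : ℝ) / N) * ((z : ℝ) / N) * (((P : ℝ) - N) / (2 * N))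
      + 8 * ((2 * (k : ℝ) + 1 - N) / (2 * N)) * (((P : ℝ) - N) / (2 * N))
      - 4 * ((2 * (k : ℝ) + 1 - N) / (2 * N)) ^ 2 - 4) =
      N * (x ^ 2 + z ^ 2) - x * z * (P - N) + 2 * N * (2 * k + 1 - N) * (P - N)
        - N * (2 * k + 1 - N) ^ 2 - 4 * N ^ 3 := by
    field_simp
    ring
  rw [h4] at h3
  nlinarith

theorem skip_sound {N x z k : ℕ} (hN : 0 < N) (hx : N ≤ x) (hx2 : x + 1 ≤ 2 * N) (hz : N ≤ z)
    (hz2 : z + 1 ≤ 2 * N) (hk : k + 1 ≤ N) (h : skip N x z k = true) {a b y : ℝ}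
    (hc : Cell N x z k a b y) : ¬ Dom a b y := by
  intro hd
  obtain ⟨hd1, hd2, hd3, hd4⟩ := hd
  obtain ⟨ha0, ha1, hb0, hb1, hy0, hy1⟩ := hc
  have hN' : (0 : ℝ) < N := by exact_mod_cast hN
  have hxN : (N : ℝ) ≤ x := by exact_mod_cast hx
  have hzN : (N : ℝ) ≤ z := by exact_mod_cast hz
  have hx2' : (x : ℝ) + 1 ≤ 2 * N := by exact_mod_cast hx2
  have hz2' : (z : ℝ) + 1 ≤ 2 * N := by exact_mod_cast hz2
  have hk' : (k : ℝ) + 1 ≤ N := by exact_mod_cast hk
  unfold skip at h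
  rw [Bool.or_eq_true, Bool.or_eq_true, Bool.and_eq_true, Bool.and_eq_true] at h
  rcases h with h | ⟨h1, h2⟩ | ⟨h1, h2⟩
  · have h1 := Nat.le_of_ble_eq_true h
    simp only [Nat.add_eq] at h1
    have h2 : (z : ℝ) + 2 ≤ x := by exact_mod_cast h1
    have h3 : ((z : ℝ) + 1) / N < (x : ℝ) / N := by
      rw [div_lt_div_iff_of_pos_right hN']
      linarith
    linarith
  · have h3 := Nat.le_of_ble_eq_true h1
    have h4 := Nat.le_of_ble_eq_true h2
    simp only [Nat.add_eq, Nat.mul_eq, Nat.sub_eq] at h3 h4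
    obtain ⟨m, hm⟩ := Nat.exists_eq_add_of_le h3
    rw [hm, Nat.add_sub_cancel_left] at h4
    have h5 : ((x : ℝ) + 1) * N + 1 ≤ z * m := by exact_mod_cast h4
    have hm' : 2 * (k : ℝ) = N + m := by exact_mod_cast hm
    have hyk : ynode N k = (m : ℝ) / (2 * N) := by
      unfold ynode
      rw [hm']
      congr 1
      ring
    rw [hyk] at hy0
    have hm0 : (0 : ℝ) ≤ m := Nat.cast_nonneg m
    have h6 : (z : ℝ) / N * ((m : ℝ) / (2 * N)) ≤ b * y := by
      apply mul_le_mul hb0 hy0 (by positivity) (by linarith)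
    have h7 : (z : ℝ) / N * ((m : ℝ) / (2 * N)) = (z * m) / (2 * N ^ 2) := by
      field_simp
    have h8 : ((x : ℝ) + 1) / N < 2 * ((z * m) / (2 * N ^ 2)) := by
      rw [div_lt_iff₀ hN']
      have h9 : 2 * ((z : ℝ) * m / (2 * N ^ 2)) * N = z * m / N := by
        field_simp
      rw [h9, lt_div_iff₀ hN']
      linarith
    rw [h7] at h6
    linarith
  · have f0 := k09_far hN h1
    have f1 := k09_far hN h2
    set a0 : ℝ := (x : ℝ) / N with ha0d
    set b0 : ℝ := (z : ℝ) / N with hb0d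
    set ym : ℝ := (2 * (k : ℝ) + 1 - N) / (2 * N) with hym
    have e0 : ((((Nat.mul 2 k : ℕ) : ℝ)) - N) / (2 * N) = ynode N k := by
      unfold ynode
      simp only [Nat.mul_eq]
      push_cast
      ring
    have e1 : ((((Nat.add (Nat.mul 2 k) 2 : ℕ) : ℝ)) - N) / (2 * N) = ynode N (k + 1) := by
      unfold ynode
      simp only [Nat.mul_eq, Nat.add_eq]
      push_cast
      ring
    rw [e0] at f0
    rw [e1] at f1
    have hyh : ynode N (k + 1) ≤ 1 / 2 := by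
      unfold ynode
      rw [div_le_iff₀ (by positivity)]
      push_cast
      linarith
    have hlt : ynode N k < ynode N (k + 1) := by
      unfold ynode
      rw [div_lt_div_iff_of_pos_right (by positivity)]
      push_cast
      linarith
    have ha01 : 1 ≤ a0 := by
      rw [ha0d, le_div_iff₀ hN']
      linarith
    have hb01 : 1 ≤ b0 := by
      rw [hb0d, le_div_iff₀ hN']
      linarith
    have ha2 : a ≤ 2 := ha1.trans (by rw [div_le_iff₀ hN']; linarith)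
    have hb2 : b ≤ 2 := hb1.trans (by rw [div_le_iff₀ hN']; linarith)
    -- the affine function is positive at `y`
    have hphi : 0 < a0 ^ 2 + b0 ^ 2 - 2 * a0 * b0 * y + 8 * ym * y - 4 * ym ^ 2 - 4 := by
      have h3 : 0 ≤ y - ynode N k := by linarith
      have h4 : 0 ≤ ynode N (k + 1) - y := by linarith
      have h5 : 0 < ynode N (k + 1) - ynode N k := by linarith
      have h6 : (ynode N (k + 1) - ynode N k) *
          (a0 ^ 2 + b0 ^ 2 - 2 * a0 * b0 * y + 8 * ym * y - 4 * ym ^ 2 - 4) =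
          (ynode N (k + 1) - y) * (a0 ^ 2 + b0 ^ 2 - 2 * a0 * b0 * ynode N k
            + 8 * ym * ynode N k - 4 * ym ^ 2 - 4) +
          (y - ynode N k) * (a0 ^ 2 + b0 ^ 2 - 2 * a0 * b0 * ynode N (k + 1)
            + 8 * ym * ynode N (k + 1) - 4 * ym ^ 2 - 4) := by
        ring
      have h7 : 0 < (ynode N (k + 1) - ynode N k) *
          (a0 ^ 2 + b0 ^ 2 - 2 * a0 * b0 * y + 8 * ym * y - 4 * ym ^ 2 - 4) := by
        rw [h6]
        rcases h3.lt_or_eq with h3' | h3'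
        · have := mul_nonneg h4 f0.le
          have := mul_pos h3' f1
          linarith
        · have h8 : y = ynode N k := by linarith
          rw [h8]
          have := mul_pos h5 f0
          nlinarith
      exact (mul_pos_iff_of_pos_left h5).mp h7
    have hy12 : y ≤ 1 / 2 := hy1.trans hyh
    have hmon : a0 ^ 2 + b0 ^ 2 - 2 * a0 * b0 * y ≤ rr a b y := by
      unfold rr
      have h3 : 0 ≤ a + a0 - 2 * y * b0 := by
        rcases le_total y 0 with hy | hy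
        · nlinarith
        · nlinarith
      have h4 : 0 ≤ b + b0 - 2 * y * a := by
        rcases le_total y 0 with hy | hy
        · nlinarith
        · nlinarith
      have h5 := mul_nonneg (sub_nonneg.mpr ha0) h3
      have h6 := mul_nonneg (sub_nonneg.mpr hb0) h4
      nlinarith
    nlinarith [sq_nonneg (y - ym)]

theorem guard_sound {N x z k : ℕ} (hN : 0 < N) (hx : N ≤ x) (hx2 : x + 1 ≤ 2 * N) (hz : N ≤ z)
    (hz2 : z + 1 ≤ 2 * N) (hk : k + 1 ≤ N) (h : guard' N x z k = true) {a b y : ℝ}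
    (hc : Cell N x z k a b y) : rr a b y ≤ 21 / 5 := by
  obtain ⟨ha0, ha1, hb0, hb1, hy0, hy1⟩ := hc
  have hN' : (0 : ℝ) < N := by exact_mod_cast hN
  have hxN : (N : ℝ) ≤ x := by exact_mod_cast hx
  have hzN : (N : ℝ) ≤ z := by exact_mod_cast hz
  have hx0 : (0 : ℝ) ≤ x := by linarith
  have hz0 : (0 : ℝ) ≤ z := by linarith
  have ha : 0 ≤ a := le_trans (by positivity) ha0
  have hb : 0 ≤ b := le_trans (by positivity) hb0
  have haa : a ^ 2 ≤ (((x : ℝ) + 1) / N) ^ 2 := pow_le_pow_left₀ ha ha1 2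
  have hbb : b ^ 2 ≤ (((z : ℝ) + 1) / N) ^ 2 := pow_le_pow_left₀ hb hb1 2
  have hN3 : (0 : ℝ) < (N : ℝ) ^ 3 := by positivity
  unfold guard' at h
  by_cases hcase : N ≤ 2 * k
  · have hble : Nat.ble N (Nat.mul 2 k) = true := Nat.ble_eq_true_of_le hcase
    rw [hble, cond_true] at h
    have h1 := Nat.le_of_ble_eq_true h
    simp only [Nat.add_eq, Nat.mul_eq, Nat.sub_eq] at h1
    obtain ⟨m, hm⟩ := Nat.exists_eq_add_of_le hcase
    rw [hm, Nat.add_sub_cancel_left] at h1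
    have h5 : 5 * ((N : ℝ) * (((x : ℝ) + 1) * (x + 1) + (z + 1) * (z + 1))) ≤
        21 * (N * N * N) + 5 * (x * z * m) := by exact_mod_cast h1
    have hm' : 2 * (k : ℝ) = N + m := by exact_mod_cast hm
    have hyk : ynode N k = (m : ℝ) / (2 * N) := by
      unfold ynode
      rw [hm']
      congr 1
      ring
    rw [hyk] at hy0
    have hm0 : (0 : ℝ) ≤ m := Nat.cast_nonneg m
    have h6 : (x : ℝ) / N * ((z : ℝ) / N) * ((m : ℝ) / (2 * N)) ≤ a * b * y := by
      apply mul_le_mul (mul_le_mul ha0 hb0 (by positivity) ha) hy0 (by positivity) (by positivity)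
    have h7 : (((x : ℝ) + 1) / N) ^ 2 + (((z : ℝ) + 1) / N) ^ 2
        - 2 * ((x : ℝ) / N * ((z : ℝ) / N) * ((m : ℝ) / (2 * N))) ≤ 21 / 5 := by
      have h8 : (((x : ℝ) + 1) / N) ^ 2 + (((z : ℝ) + 1) / N) ^ 2
        - 2 * ((x : ℝ) / N * ((z : ℝ) / N) * ((m : ℝ) / (2 * N))) =
          (N * ((x + 1) ^ 2 + (z + 1) ^ 2) - x * z * m) / N ^ 3 := by
        field_simp
      rw [h8, div_le_iff₀ hN3]
      nlinarith
    unfold rr
    nlinarith
  · have hble : Nat.ble N (Nat.mul 2 k) = false := by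
      rw [Bool.eq_false_iff]
      intro hcon
      exact hcase (Nat.le_of_ble_eq_true hcon)
    rw [hble, cond_false] at h
    have h1 := Nat.le_of_ble_eq_true h
    simp only [Nat.add_eq, Nat.mul_eq, Nat.sub_eq] at h1
    have hcase' : 2 * k ≤ N := by omega
    obtain ⟨m, hm⟩ := Nat.exists_eq_add_of_le hcase'
    have hm2 : N - 2 * k = m := by omega
    rw [hm2] at h1
    have h5 : 5 * ((N : ℝ) * (((x : ℝ) + 1) * (x + 1) + (z + 1) * (z + 1))
        + (x + 1) * (z + 1) * m) ≤ 21 * (N * N * N) := by exact_mod_cast h1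
    have hm' : (N : ℝ) = 2 * k + m := by exact_mod_cast hm
    have hyk : ynode N k = -((m : ℝ) / (2 * N)) := by
      unfold ynode
      rw [← neg_div]
      congr 1
      linarith
    rw [hyk] at hy0
    have hm0 : (0 : ℝ) ≤ m := Nat.cast_nonneg m
    have hmN : 0 ≤ (m : ℝ) / (2 * N) := by positivity
    have h6 : -(a * b * y) ≤ ((x : ℝ) + 1) / N * (((z : ℝ) + 1) / N) * ((m : ℝ) / (2 * N)) := by
      have h7 : a * b * (-y) ≤ a * b * ((m : ℝ) / (2 * N)) :=
        mul_le_mul_of_nonneg_left (by linarith) (by positivity)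
      have h8 : a * b * ((m : ℝ) / (2 * N)) ≤
          ((x : ℝ) + 1) / N * (((z : ℝ) + 1) / N) * ((m : ℝ) / (2 * N)) :=
        mul_le_mul_of_nonneg_right (mul_le_mul ha1 hb1 hb (by positivity)) hmN
      linarith
    have h7 : (((x : ℝ) + 1) / N) ^ 2 + (((z : ℝ) + 1) / N) ^ 2
        + 2 * (((x : ℝ) + 1) / N * (((z : ℝ) + 1) / N) * ((m : ℝ) / (2 * N))) ≤ 21 / 5 := by
      have h8 : (((x : ℝ) + 1) / N) ^ 2 + (((z : ℝ) + 1) / N) ^ 2
        + 2 * (((x : ℝ) + 1) / N * (((z : ℝ) + 1) / N) * ((m : ℝ) / (2 * N))) =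
          (N * ((x + 1) ^ 2 + (z + 1) ^ 2) + (x + 1) * (z + 1) * m) / N ^ 3 := by
        field_simp
      rw [h8, div_le_iff₀ hN3]
      nlinarith
    unfold rr
    nlinarith

end Pool.Agent.LG
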