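import Pool.Agent.Lib.MP_8026b0_co.CDef
import Pool.Agent.Lib.MP_8026b0_co.K09

set_option autoImplicit false

/-! Row C01: a triangle in sorted coordinates. -/

namespace Pool.Agent.LG

open Complex

/-- behaviour under rotations and reflection -/
theorem Psi5_rot {e v : ℂ} (he : ‖e‖ = 1) : Psi5 (e * v) = e ^ 5 * Psi5 v := by
  have h : normSq (e * v) = normSq v := by
    rw [normSq_mul, normSq_eq_norm_sq e, he]
    ring
  unfold Psi5
  rw [h]
  ring

theorem Psi7r_rot {e v : ℂ} (he : ‖e‖ = 1) : Psi7r (e * v) = e ^ 7 * Psi7r v := by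
  have h : normSq (e * v) = normSq v := by
    rw [normSq_mul, normSq_eq_norm_sq e, he]
    ring
  unfold Psi7r
  rw [h]
  ring

theorem Psi5_conj (v : ℂ) : Psi5 (starRingEnd ℂ v) = starRingEnd ℂ (Psi5 v) := by
  unfold Psi5
  rw [normSq_conj, map_mul, map_pow, conj_ofReal]

theorem Psi7r_conj (v : ℂ) : Psi7r (starRingEnd ℂ v) = starRingEnd ℂ (Psi7r v) := by
  unfold Psi7r
  rw [normSq_conj, map_mul, map_pow, conj_ofReal]

theorem Psi5_neg (v : ℂ) : Psi5 (-v) = - Psi5 v := by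
  unfold Psi5
  rw [normSq_neg]
  ring

theorem Psi7r_neg (v : ℂ) : Psi7r (-v) = - Psi7r v := by
  unfold Psi7r
  rw [normSq_neg]
  ring

private theorem c01_penT_cyc (l1 l2 l3 : ℝ) : penT l2 l3 l1 = penT l1 l2 l3 := by
  have hmin : min l2 (min l3 l1) = min l1 (min l2 l3) := by
    rw [← min_assoc, min_comm]
  have hmax : max l2 (max l3 l1) = max l1 (max l2 l3) := by
    rw [← max_assoc, max_comm]
  have hs : l2 + l3 + l1 = l1 + l2 + l3 := by ring
  unfold penT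
  rw [hmin, hmax, hs]

private theorem c01_cyc {v w u : ℂ} (h : AdmTri v w u) : AdmTri w u v ∧ cr w u = cr v w := by
  have hu : u = -v - w := by linear_combination h.sum
  have hcr : cr w u = cr v w := by
    rw [hu]
    unfold cr
    simp only [Complex.sub_re, Complex.sub_im, Complex.neg_re, Complex.neg_im]
    ring
  refine ⟨⟨?_, h.l2, h.l3, h.l1, ?_, ?_⟩, hcr⟩
  · linear_combination h.sum
  · rw [hcr]
    exact h.ccw
  · rw [hcr]
    have := h.rad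
    linarith

/-- polar coordinates of two vectors -/
private theorem c01_polar {v w : ℂ} (hv : v ≠ 0) (hw : w ≠ 0) (hc : 0 < cr v w) :
    ∃ (β : ℝ) (e : ℂ), 0 < β ∧ β < Real.pi / 2 ∧ ‖e‖ = 1 ∧
      v = e * ((‖v‖ : ℂ) * exp (-(β : ℂ) * I)) ∧ w = e * ((‖w‖ : ℂ) * exp ((β : ℂ) * I)) := by
  have hnv : (0 : ℝ) < ‖v‖ := norm_pos_iff.2 hv
  have hnw : (0 : ℝ) < ‖w‖ := norm_pos_iff.2 hw
  have hnvc : (‖v‖ : ℂ) ≠ 0 := by exact_mod_cast hnv.ne'
  have hnwc : (‖w‖ : ℂ) ≠ 0 := by exact_mod_cast hnw.ne'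
  have him : 0 < (w / v).im := by
    rw [Complex.div_im]
    have hn : 0 < normSq v := normSq_pos.2 hv
    have : w.im * v.re / normSq v - w.re * v.im / normSq v = cr v w / normSq v := by
      unfold cr
      ring
    rw [this]
    exact div_pos hc hn
  have harg0 : 0 < arg (w / v) := by
    have h0 : 0 ≤ arg (w / v) := arg_nonneg_iff.2 him.le
    rcases h0.lt_or_eq with h | h
    · exact h
    · exfalso
      have := (arg_eq_zero_iff.1 h.symm).2
      linarith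
  have hargpi : arg (w / v) < Real.pi := by
    rcases (arg_le_pi (w / v)).lt_or_eq with h | h
    · exact h
    · exfalso
      have := (arg_eq_pi_iff.1 h).2
      linarith
  set β : ℝ := arg (w / v) / 2 with hβ
  have h2β : arg (w / v) = 2 * β := by rw [hβ]; ring
  refine ⟨β, (v / (‖v‖ : ℂ)) * exp ((β : ℂ) * I), by linarith, by linarith, ?_, ?_, ?_⟩
  · rw [norm_mul, norm_div, Complex.norm_exp_ofReal_mul_I, Complex.norm_real, norm_norm,
      div_self hnv.ne', mul_one]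
  · have h1 : exp ((β : ℂ) * I) * exp (-(β : ℂ) * I) = 1 := by
      rw [← Complex.exp_add, show (β : ℂ) * I + -(β : ℂ) * I = 0 by ring, Complex.exp_zero]
    calc v = (v / (‖v‖ : ℂ)) * (‖v‖ : ℂ) * 1 := by field_simp
      _ = (v / (‖v‖ : ℂ)) * (‖v‖ : ℂ) * (exp ((β : ℂ) * I) * exp (-(β : ℂ) * I)) := by rw [h1]
      _ = _ := by ring
  · have h2 : exp ((β : ℂ) * I) * exp ((β : ℂ) * I) = exp ((arg (w / v) : ℂ) * I) := by
      rw [← Complex.exp_add, h2β]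
      congr 1
      push_cast
      ring
    have h3 : (‖w / v‖ : ℂ) * exp ((arg (w / v) : ℂ) * I) = w / v := norm_mul_exp_arg_mul_I _
    have h4 : (‖w / v‖ : ℂ) = (‖w‖ : ℂ) / (‖v‖ : ℂ) := by
      rw [norm_div]
      push_cast
      rfl
    rw [h4] at h3
    generalize exp ((arg (w / v) : ℂ) * I) = E at h2 h3
    have h5 : (‖w‖ : ℂ) * E = (‖v‖ : ℂ) * (w / v) := by
      rw [← h3]
      field_simp
    calc w = (v / (‖v‖ : ℂ)) * ((‖v‖ : ℂ) * (w / v)) := by field_simp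
      _ = (v / (‖v‖ : ℂ)) * ((‖w‖ : ℂ) * E) := by rw [h5]
      _ = (v / (‖v‖ : ℂ)) * ((‖w‖ : ℂ) * (exp ((β : ℂ) * I) * exp ((β : ℂ) * I))) := by rw [h2]
      _ = _ := by ring

private theorem c01_cr {e : ℂ} (he : ‖e‖ = 1) (p q β : ℝ) :
    cr (e * ((p : ℂ) * exp (-(β : ℂ) * I))) (e * ((q : ℂ) * exp ((β : ℂ) * I)))
      = p * q * Real.sin (2 * β) := by
  have hn : e.re ^ 2 + e.im ^ 2 = 1 := by
    have h := normSq_eq_norm_sq e
    rw [he, normSq_apply] at h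
    linarith
  have h1 : -(β : ℂ) * I = ((-β : ℝ) : ℂ) * I := by push_cast; ring
  unfold cr
  rw [h1]
  simp only [Complex.mul_re, Complex.mul_im, Complex.exp_ofReal_mul_I_re,
    Complex.exp_ofReal_mul_I_im, Complex.ofReal_re, Complex.ofReal_im, Real.cos_neg, Real.sin_neg]
  rw [Real.sin_two_mul]
  linear_combination (p * q * (2 * Real.sin β * Real.cos β)) * hn

private theorem c01_norm {e : ℂ} (he : ‖e‖ = 1) (p q β : ℝ) :
    ‖e * ((p : ℂ) * exp (-(β : ℂ) * I)) + e * ((q : ℂ) * exp ((β : ℂ) * I))‖ ^ 2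
      = p ^ 2 + q ^ 2 + 2 * p * q * Real.cos (2 * β) := by
  have hn : e.re ^ 2 + e.im ^ 2 = 1 := by
    have h := normSq_eq_norm_sq e
    rw [he, normSq_apply] at h
    linarith
  have hsc := Real.sin_sq_add_cos_sq β
  have h1 : -(β : ℂ) * I = ((-β : ℝ) : ℂ) * I := by push_cast; ring
  rw [← mul_add, norm_mul, he, one_mul, ← normSq_eq_norm_sq, h1, normSq_apply]
  simp only [Complex.mul_re, Complex.mul_im, Complex.exp_ofReal_mul_I_re, Complex.add_re,
    Complex.add_im,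
    Complex.exp_ofReal_mul_I_im, Complex.ofReal_re, Complex.ofReal_im, Real.cos_neg, Real.sin_neg]
  rw [Real.cos_two_mul]
  linear_combination (p ^ 2 + q ^ 2 - 2 * p * q) * hsc

private theorem c01_core {v w u : ℂ} (h : AdmTri v w u) (h1 : ‖v‖ ≤ ‖u‖) (h2 : ‖w‖ ≤ ‖u‖) :
    ∃ a b β : ℝ, Real.pi / 6 ≤ β ∧ β ≤ Real.pi / 3 ∧ Dom a b (- Real.cos (2 * β)) ∧
      ‖Psi5 v + Psi5 w + Psi5 u‖ = ‖Z5 a b β‖ ∧
      ‖Psi7r v + Psi7r w + Psi7r u‖ = ‖Z7r a b β‖ ∧
      exv v w = a * b * Real.sin (2 * β) / Real.sqrt 3 - 1 / 2 ∧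
      penT ‖v‖ ‖w‖ ‖u‖ = pen b (- Real.cos (2 * β)) ∧
      ∀ f : ℝ → ℝ, f ‖v‖ + f ‖w‖ + f ‖u‖
        = f a + f b + f (Real.sqrt (rr a b (- Real.cos (2 * β)))) := by
  have hv : v ≠ 0 := by
    intro h0
    have := h.l1
    rw [h0, norm_zero] at this
    linarith
  have hw : w ≠ 0 := by
    intro h0
    have := h.l2
    rw [h0, norm_zero] at this
    linarith
  obtain ⟨β, e, hβ0, hβ1, he, hve, hwe⟩ := c01_polar hv hw h.ccw
  have hu : u = -(v + w) := by linear_combination h.sum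
  have hun : ‖u‖ = ‖v + w‖ := by rw [hu, norm_neg]
  have hl1 := h.l1
  have hl2 := h.l2
  have hcr : cr v w = ‖v‖ * ‖w‖ * Real.sin (2 * β) := by
    have := c01_cr he ‖v‖ ‖w‖ β
    rw [← hve, ← hwe] at this
    exact this
  have hd2 : ‖u‖ ^ 2 = ‖v‖ ^ 2 + ‖w‖ ^ 2 + 2 * ‖v‖ * ‖w‖ * Real.cos (2 * β) := by
    have := c01_norm he ‖v‖ ‖w‖ β
    rw [← hve, ← hwe] at this
    rw [hun]
    exact this
  have hu0 : 0 ≤ ‖u‖ := norm_nonneg _
  have hsc := Real.sin_sq_add_cos_sq (2 * β)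
  have hs0 : 0 < Real.sin (2 * β) := Real.sin_pos_of_pos_of_lt_pi (by linarith) (by linarith)
  have hab : 0 < ‖v‖ * ‖w‖ := by positivity
  have hrad : ‖u‖ ≤ 2 * Real.sin (2 * β) := by
    have hr := h.rad
    rw [hcr] at hr
    by_contra hcon
    push Not at hcon
    have h3 := mul_lt_mul_of_pos_left hcon hab
    linarith
  have hrad2 : ‖u‖ ^ 2 ≤ 4 * (1 - (-Real.cos (2 * β)) ^ 2) := by
    have h3 := mul_self_le_mul_self hu0 hrad
    linarith
  -- general facts for sorted lengths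
  have key : ∀ a b : ℝ, 1 ≤ a → a ≤ b → b ≤ ‖u‖ →
      ‖u‖ ^ 2 = a ^ 2 + b ^ 2 + 2 * a * b * Real.cos (2 * β) →
      Dom a b (- Real.cos (2 * β)) ∧ Real.pi / 6 ≤ β ∧ β ≤ Real.pi / 3 ∧
        Real.sqrt (rr a b (- Real.cos (2 * β))) = ‖u‖ := by
    intro a b ha hab' hbu hu2
    have hrr : rr a b (- Real.cos (2 * β)) = ‖u‖ ^ 2 := by
      unfold rr
      rw [hu2]
      ring
    have hb1 : 1 ≤ b := ha.trans hab'
    have h2by : 2 * b * (- Real.cos (2 * β)) ≤ a := by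
      have h3 : b ^ 2 ≤ ‖u‖ ^ 2 := pow_le_pow_left₀ (by linarith) hbu 2
      by_contra hcon
      push Not at hcon
      have : a * a < a * (2 * b * (- Real.cos (2 * β))) :=
        mul_lt_mul_of_pos_left hcon (by linarith)
      linarith
    have hdom : Dom a b (- Real.cos (2 * β)) :=
      ⟨ha, hab', h2by, by rw [hrr]; exact hrad2⟩
    have hy1 : -Real.cos (2 * β) ≤ 1 / 2 := by
      by_contra hcon
      push Not at hcon
      have h3 : b * (1 / 2) < b * (-Real.cos (2 * β)) :=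
        mul_lt_mul_of_pos_left hcon (by linarith)
      linarith
    have hy2 : -(1 / 2) ≤ -Real.cos (2 * β) := by
      by_contra hcon
      push Not at hcon
      have hc : 1 / 2 < Real.cos (2 * β) := by linarith
      have hab1 : 1 ≤ a * b := one_le_mul_of_one_le_of_one_le ha hb1
      have ha2 : 1 ≤ a ^ 2 := one_le_pow₀ ha
      have hb2 : 1 ≤ b ^ 2 := one_le_pow₀ hb1
      have h4 : 2 + 2 * Real.cos (2 * β) ≤ ‖u‖ ^ 2 := by
        rw [hu2]
        have h5 := mul_nonneg (sub_nonneg.2 hab1) (by linarith : (0 : ℝ) ≤ Real.cos (2 * β))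
        linarith
      have h6 := mul_pos (by linarith : (0 : ℝ) < 2 * Real.cos (2 * β) - 1)
        (by linarith : (0 : ℝ) < 2 * Real.cos (2 * β) + 2)
      linarith
    have hπ := Real.pi_pos
    refine ⟨hdom, ?_, ?_, ?_⟩
    · by_contra hcon
      push Not at hcon
      have h5 : Real.cos (Real.pi / 3) < Real.cos (2 * β) :=
        Real.cos_lt_cos_of_nonneg_of_le_pi (by linarith) (by linarith) (by linarith)
      rw [Real.cos_pi_div_three] at h5
      linarith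
    · by_contra hcon
      push Not at hcon
      have h5 : Real.cos (2 * β) < Real.cos (2 * Real.pi / 3) :=
        Real.cos_lt_cos_of_nonneg_of_le_pi (by linarith) (by linarith) (by linarith)
      have h6 : Real.cos (2 * Real.pi / 3) = -(1 / 2) := by
        rw [show 2 * Real.pi / 3 = Real.pi - Real.pi / 3 by ring, Real.cos_pi_sub,
          Real.cos_pi_div_three]
      rw [h6] at h5
      linarith
    · rw [hrr, Real.sqrt_sq hu0]
  have hZ : ∀ z : ℂ, ‖e ^ 5 * z‖ = ‖z‖ ∧ ‖e ^ 7 * z‖ = ‖z‖ := by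
    intro z
    constructor <;> rw [norm_mul, norm_pow, he, one_pow, one_mul]
  rcases le_total ‖w‖ ‖v‖ with hwv | hvw
  · -- `a = |w|`, `b = |v|`
    obtain ⟨hdom, hb1, hb2, hsq⟩ := key ‖w‖ ‖v‖ hl2 hwv h1 (by rw [hd2]; ring)
    refine ⟨‖w‖, ‖v‖, β, hb1, hb2, hdom, ?_, ?_, ?_, ?_, ?_⟩
    · have hu' : u = -(e * (((‖w‖ : ℝ) : ℂ) * exp ((β : ℂ) * I)
          + ((‖v‖ : ℝ) : ℂ) * exp (-(β : ℂ) * I))) := by
        rw [hu]
        conv_lhs => rw [hve, hwe]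
        ring
      have e1 : Psi5 v = e ^ 5 * Psi5 (((‖v‖ : ℝ) : ℂ) * exp (-(β : ℂ) * I)) := by
        conv_lhs => rw [hve]
        exact Psi5_rot he
      have e2 : Psi5 w = e ^ 5 * Psi5 (((‖w‖ : ℝ) : ℂ) * exp ((β : ℂ) * I)) := by
        conv_lhs => rw [hwe]
        exact Psi5_rot he
      have e3 : Psi5 u = -(e ^ 5 * Psi5 (((‖w‖ : ℝ) : ℂ) * exp ((β : ℂ) * I)
          + ((‖v‖ : ℝ) : ℂ) * exp (-(β : ℂ) * I))) := by
        conv_lhs => rw [hu']
        rw [Psi5_neg, Psi5_rot he]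
      rw [e1, e2, e3, ← (hZ (Z5 ‖w‖ ‖v‖ β)).1]
      congr 1
      unfold Z5
      ring
    · have hu' : u = -(e * (((‖w‖ : ℝ) : ℂ) * exp ((β : ℂ) * I)
          + ((‖v‖ : ℝ) : ℂ) * exp (-(β : ℂ) * I))) := by
        rw [hu]
        conv_lhs => rw [hve, hwe]
        ring
      have e1 : Psi7r v = e ^ 7 * Psi7r (((‖v‖ : ℝ) : ℂ) * exp (-(β : ℂ) * I)) := by
        conv_lhs => rw [hve]
        exact Psi7r_rot he
      have e2 : Psi7r w = e ^ 7 * Psi7r (((‖w‖ : ℝ) : ℂ) * exp ((β : ℂ) * I)) := by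
        conv_lhs => rw [hwe]
        exact Psi7r_rot he
      have e3 : Psi7r u = -(e ^ 7 * Psi7r (((‖w‖ : ℝ) : ℂ) * exp ((β : ℂ) * I)
          + ((‖v‖ : ℝ) : ℂ) * exp (-(β : ℂ) * I))) := by
        conv_lhs => rw [hu']
        rw [Psi7r_neg, Psi7r_rot he]
      rw [e1, e2, e3, ← (hZ (Z7r ‖w‖ ‖v‖ β)).2]
      congr 1
      unfold Z7r
      ring
    · unfold exv
      rw [hcr]
      ring
    · have hmin : min ‖v‖ (min ‖w‖ ‖u‖) = ‖w‖ := by
        rw [min_eq_left h2, min_eq_right hwv]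
      have hmax : max ‖v‖ (max ‖w‖ ‖u‖) = ‖u‖ := by
        rw [max_eq_right h2, max_eq_right h1]
      have hmid : ‖v‖ + ‖w‖ + ‖u‖ - ‖w‖ - ‖u‖ = ‖v‖ := by ring
      unfold penT
      rw [hmin, hmax, hmid]
      congr 1
      rw [hd2, div_eq_iff (by positivity)]
      ring
    · intro f
      rw [hsq]
      ring
  · obtain ⟨hdom, hb1, hb2, hsq⟩ := key ‖v‖ ‖w‖ hl1 hvw h2 hd2
    have hce : (starRingEnd ℂ) (exp ((β : ℂ) * I)) = exp (-(β : ℂ) * I) := by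
      rw [← Complex.exp_conj, map_mul, Complex.conj_ofReal, Complex.conj_I]
      congr 1
      ring
    have hce' : (starRingEnd ℂ) (exp (-(β : ℂ) * I)) = exp ((β : ℂ) * I) := by
      rw [← hce, Complex.conj_conj]
    have hc1 : (starRingEnd ℂ) (((‖v‖ : ℝ) : ℂ) * exp ((β : ℂ) * I))
        = ((‖v‖ : ℝ) : ℂ) * exp (-(β : ℂ) * I) := by
      rw [map_mul, hce, Complex.conj_ofReal]
    have hc2 : (starRingEnd ℂ) (((‖w‖ : ℝ) : ℂ) * exp (-(β : ℂ) * I))
        = ((‖w‖ : ℝ) : ℂ) * exp ((β : ℂ) * I) := by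
      rw [map_mul, hce', Complex.conj_ofReal]
    have hu' : u = -(e * (starRingEnd ℂ) (((‖v‖ : ℝ) : ℂ) * exp ((β : ℂ) * I)
          + ((‖w‖ : ℝ) : ℂ) * exp (-(β : ℂ) * I))) := by
      rw [map_add, hc1, hc2, hu]
      conv_lhs => rw [hve, hwe]
      ring
    refine ⟨‖v‖, ‖w‖, β, hb1, hb2, hdom, ?_, ?_, ?_, ?_, ?_⟩
    · have e1 : Psi5 v = e ^ 5 * (starRingEnd ℂ) (Psi5 (((‖v‖ : ℝ) : ℂ) * exp ((β : ℂ) * I))) := by
        conv_lhs => rw [hve]
        rw [Psi5_rot he, ← Psi5_conj, hc1]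
      have e2 : Psi5 w = e ^ 5 * (starRingEnd ℂ) (Psi5 (((‖w‖ : ℝ) : ℂ) * exp (-(β : ℂ) * I))) := by
        conv_lhs => rw [hwe]
        rw [Psi5_rot he, ← Psi5_conj, hc2]
      have e3 : Psi5 u = -(e ^ 5 * (starRingEnd ℂ) (Psi5 (((‖v‖ : ℝ) : ℂ) * exp ((β : ℂ) * I)
          + ((‖w‖ : ℝ) : ℂ) * exp (-(β : ℂ) * I)))) := by
        conv_lhs => rw [hu']
        rw [Psi5_neg, Psi5_rot he, Psi5_conj]
      have e4 : Psi5 v + Psi5 w + Psi5 u = e ^ 5 * (starRingEnd ℂ) (Z5 ‖v‖ ‖w‖ β) := by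
        rw [e1, e2, e3]
        unfold Z5
        rw [map_sub, map_add]
        ring
      rw [e4, (hZ _).1, Complex.norm_conj]
    · have e1 : Psi7r v
          = e ^ 7 * (starRingEnd ℂ) (Psi7r (((‖v‖ : ℝ) : ℂ) * exp ((β : ℂ) * I))) := by
        conv_lhs => rw [hve]
        rw [Psi7r_rot he, ← Psi7r_conj, hc1]
      have e2 : Psi7r w
          = e ^ 7 * (starRingEnd ℂ) (Psi7r (((‖w‖ : ℝ) : ℂ) * exp (-(β : ℂ) * I))) := by
        conv_lhs => rw [hwe]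
        rw [Psi7r_rot he, ← Psi7r_conj, hc2]
      have e3 : Psi7r u = -(e ^ 7 * (starRingEnd ℂ) (Psi7r (((‖v‖ : ℝ) : ℂ) * exp ((β : ℂ) * I)
          + ((‖w‖ : ℝ) : ℂ) * exp (-(β : ℂ) * I)))) := by
        conv_lhs => rw [hu']
        rw [Psi7r_neg, Psi7r_rot he, Psi7r_conj]
      have e4 : Psi7r v + Psi7r w + Psi7r u = e ^ 7 * (starRingEnd ℂ) (Z7r ‖v‖ ‖w‖ β) := by
        rw [e1, e2, e3]
        unfold Z7r
        rw [map_sub, map_add]
        ring
      rw [e4, (hZ _).2, Complex.norm_conj]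
    · unfold exv
      rw [hcr]
    · have hmin : min ‖v‖ (min ‖w‖ ‖u‖) = ‖v‖ := by
        rw [min_eq_left h2, min_eq_left hvw]
      have hmax : max ‖v‖ (max ‖w‖ ‖u‖) = ‖u‖ := by
        rw [max_eq_right h2, max_eq_right h1]
      have hmid : ‖v‖ + ‖w‖ + ‖u‖ - ‖v‖ - ‖u‖ = ‖w‖ := by ring
      unfold penT
      rw [hmin, hmax, hmid]
      congr 1
      rw [hd2, div_eq_iff (by positivity)]
      ring
    · intro f
      rw [hsq]

theorem sort_tri {v1 v2 v3 : ℂ} (h : AdmTri v1 v2 v3) :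
    ∃ a b β : ℝ, Real.pi / 6 ≤ β ∧ β ≤ Real.pi / 3 ∧ Dom a b (- Real.cos (2 * β)) ∧
      ‖Psi5 v1 + Psi5 v2 + Psi5 v3‖ = ‖Z5 a b β‖ ∧
      ‖Psi7r v1 + Psi7r v2 + Psi7r v3‖ = ‖Z7r a b β‖ ∧
      exv v1 v2 = a * b * Real.sin (2 * β) / Real.sqrt 3 - 1 / 2 ∧
      penT ‖v1‖ ‖v2‖ ‖v3‖ = pen b (- Real.cos (2 * β)) ∧
      ∀ f : ℝ → ℝ, f ‖v1‖ + f ‖v2‖ + f ‖v3‖
        = f a + f b + f (Real.sqrt (rr a b (- Real.cos (2 * β)))) := by
  obtain ⟨h', hc1⟩ := c01_cyc h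
  obtain ⟨h'', hc2⟩ := c01_cyc h'
  rcases le_total ‖v1‖ ‖v3‖ with h13 | h31
  · rcases le_total ‖v2‖ ‖v3‖ with h23 | h32
    · exact c01_core h h13 h23
    · -- `v2` is the longest edge: `(v3, v1, v2)`
      obtain ⟨a, b, β, hb1, hb2, hd, h5, h7, hx, hp, hf⟩ := c01_core h'' h32 (h13.trans h32)
      refine ⟨a, b, β, hb1, hb2, hd, ?_, ?_, ?_, ?_, ?_⟩
      · rw [← h5]
        congr 1
        ring
      · rw [← h7]
        congr 1
        ring
      · rw [← hx]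
        unfold exv
        rw [hc2, hc1]
      · rw [← hp, c01_penT_cyc ‖v2‖ ‖v3‖ ‖v1‖, c01_penT_cyc ‖v1‖ ‖v2‖ ‖v3‖]
      · intro f
        rw [← hf f]
        ring
  · rcases le_total ‖v2‖ ‖v1‖ with h21 | h12
    · -- `v1` is the longest edge: `(v2, v3, v1)`
      obtain ⟨a, b, β, hb1, hb2, hd, h5, h7, hx, hp, hf⟩ := c01_core h' h21 h31
      refine ⟨a, b, β, hb1, hb2, hd, ?_, ?_, ?_, ?_, ?_⟩
      · rw [← h5]
        congr 1
        ring
      · rw [← h7]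
        congr 1
        ring
      · rw [← hx]
        unfold exv
        rw [hc1]
      · rw [← hp, c01_penT_cyc ‖v1‖ ‖v2‖ ‖v3‖]
      · intro f
        rw [← hf f]
        ring
    · obtain ⟨a, b, β, hb1, hb2, hd, h5, h7, hx, hp, hf⟩ := c01_core h'' (h31.trans h12) h12
      refine ⟨a, b, β, hb1, hb2, hd, ?_, ?_, ?_, ?_, ?_⟩
      · rw [← h5]
        congr 1
        ring
      · rw [← h7]
        congr 1
        ring
      · rw [← hx]
        unfold exv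
        rw [hc2, hc1]
      · rw [← hp, c01_penT_cyc ‖v2‖ ‖v3‖ ‖v1‖, c01_penT_cyc ‖v1‖ ‖v2‖ ‖v3‖]
      · intro f
        rw [← hf f]
        ring

end Pool.Agent.LG
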