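import Pool.Agent.Lib.MP_8026b0_co.C01
import Pool.Agent.Lib.MP_8026b0_co.C02

set_option autoImplicit false

/-! Row C03: the deviation of the coefficients is controlled by the excess. -/

namespace Pool.Agent.LG

open Complex

namespace C03

theorem u6_neg (v : ℂ) : u6 (-v) = u6 v := by
  unfold u6
  rw [norm_neg, neg_div, Even.neg_pow (by decide)]

theorem u6_norm {v : ℂ} (hv : v ≠ 0) : ‖u6 v‖ = 1 := by
  unfold u6
  rw [norm_pow, norm_div, Complex.norm_real, norm_norm, div_self (norm_ne_zero_iff.2 hv), one_pow]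

/-- two directions differ by a unit number -/
theorem pair {v w : ℂ} (hv : v ≠ 0) (hw : w ≠ 0) :
    ∃ ζ : ℂ, ‖ζ‖ = 1 ∧ u6 w = ζ ^ 3 * u6 v ∧
      (ζ.re + 1) * (normSq v * normSq w) = 2 * ip v w ^ 2 := by
  have hv' : (‖v‖ : ℝ) ≠ 0 := norm_ne_zero_iff.2 hv
  have hw' : (‖w‖ : ℝ) ≠ 0 := norm_ne_zero_iff.2 hw
  set e : ℂ := v / (‖v‖ : ℂ) with he
  set f : ℂ := w / (‖w‖ : ℂ) with hf
  have ne : ‖e‖ = 1 := by
    rw [he, norm_div, Complex.norm_real, norm_norm, div_self hv']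
  have nf : ‖f‖ = 1 := by
    rw [hf, norm_div, Complex.norm_real, norm_norm, div_self hw']
  have hce : starRingEnd ℂ e * e = 1 := by
    rw [← Complex.normSq_eq_conj_mul_self, Complex.normSq_eq_norm_sq, ne]
    simp
  refine ⟨(f * starRingEnd ℂ e) ^ 2, ?_, ?_, ?_⟩
  · rw [norm_pow, norm_mul, RCLike.norm_conj, ne, nf]
    norm_num
  · have e1 : u6 v = e ^ 6 := rfl
    have e2 : u6 w = f ^ 6 := rfl
    rw [e1, e2]
    have : ((f * starRingEnd ℂ e) ^ 2) ^ 3 * e ^ 6 = f ^ 6 * (starRingEnd ℂ e * e) ^ 6 := by ring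
    rw [this, hce]
    ring
  · have hn : normSq (f * starRingEnd ℂ e) = 1 := by
      rw [Complex.normSq_eq_norm_sq, norm_mul, RCLike.norm_conj, ne, nf]
      norm_num
    have h1 : ((f * starRingEnd ℂ e) ^ 2).re + 1 = 2 * (f * starRingEnd ℂ e).re ^ 2 := by
      rw [Complex.normSq_apply] at hn
      rw [sq (f * starRingEnd ℂ e), Complex.mul_re]
      linarith
    have h2 : (f * starRingEnd ℂ e).re * (‖v‖ * ‖w‖) = ip v w := by
      have a1 : e.re = v.re / ‖v‖ := by rw [he, Complex.div_ofReal_re]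
      have a2 : e.im = v.im / ‖v‖ := by rw [he, Complex.div_ofReal_im]
      have a3 : f.re = w.re / ‖w‖ := by rw [hf, Complex.div_ofReal_re]
      have a4 : f.im = w.im / ‖w‖ := by rw [hf, Complex.div_ofReal_im]
      rw [Complex.mul_re, Complex.conj_re, Complex.conj_im, a1, a2, a3, a4]
      unfold ip
      field_simp
      ring
    rw [h1, ← h2, Complex.normSq_eq_norm_sq, Complex.normSq_eq_norm_sq]
    ring

theorem cube_sub {z : ℂ} (h : ‖z‖ = 1) : ‖z ^ 3 - 1‖ ≤ 2 * |1 + 2 * z.re| := by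
  have hc : z * starRingEnd ℂ z = 1 := by
    rw [Complex.mul_conj, Complex.normSq_eq_norm_sq, h]
    simp
  have hs : z + starRingEnd ℂ z = ((2 * z.re : ℝ) : ℂ) := by
    rw [Complex.add_conj]
  have e : z ^ 3 - 1 = (z - 1) * z * ((1 + 2 * z.re : ℝ) : ℂ) := by
    have : ((1 + 2 * z.re : ℝ) : ℂ) = 1 + (z + starRingEnd ℂ z) := by
      rw [hs]
      push_cast
      ring
    rw [this]
    linear_combination -(z - 1) * hc
  rw [e, norm_mul, norm_mul, h, Complex.norm_real, Real.norm_eq_abs]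
  have h2 : ‖z - 1‖ ≤ 2 := by
    refine (norm_sub_le _ _).trans ?_
    rw [h, norm_one]
    norm_num
  have := mul_le_mul_of_nonneg_right h2 (abs_nonneg (1 + 2 * z.re))
  linarith

theorem cube_add {z : ℂ} (h : ‖z‖ = 1) : ‖z ^ 3 + 1‖ ≤ 2 * |2 * z.re - 1| := by
  have h1 := cube_sub (z := -z) (by rw [norm_neg, h])
  have e : (-z) ^ 3 - 1 = -(z ^ 3 + 1) := by ring
  rw [e, norm_neg, Complex.neg_re] at h1
  have e2 : 1 + 2 * -z.re = -(2 * z.re - 1) := by ring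
  rw [e2, abs_neg] at h1
  exact h1

/-- comparison of the main part of the coefficients for a pair of edges -/
theorem main_pair {v w : ℂ} {s t r M : ℝ} (hs : normSq v = s) (ht : normSq w = t)
    (hr : (2 * ip v w) ^ 2 = (r - s - t) ^ 2)
    (s1 : 1 ≤ s) (s4 : s ≤ 4) (t1 : 1 ≤ t)
    (h : (|t - s| ≤ M ∧ |(r - s - t) ^ 2 - s * t| ≤ M) ∨
      (|s + t - 4| ≤ M ∧ |(r - s - t) ^ 2 - 3 * (s * t)| ≤ M)) :
    |(t - 2) * (u6 w).re - (s - 2) * (u6 v).re| ≤ 5 * M := by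
  have hv : v ≠ 0 := by
    rintro rfl
    rw [Complex.normSq_zero] at hs
    linarith
  have hw : w ≠ 0 := by
    rintro rfl
    rw [Complex.normSq_zero] at ht
    linarith
  obtain ⟨z, nz, hz, hre⟩ := pair hv hw
  rw [hs, ht] at hre
  have hst : 1 ≤ s * t := by nlinarith only [s1, t1]
  have n6 := u6_norm hv
  have nz3 : ‖z ^ 3‖ = 1 := by rw [norm_pow, nz, one_pow]
  have hs2 : |s - 2| ≤ 2 := by
    rw [abs_le]
    constructor
    · linarith
    · linarith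
  -- it is enough to bound the norm
  suffices hX : ‖((t - 2 : ℝ) : ℂ) * z ^ 3 - ((s - 2 : ℝ) : ℂ)‖ ≤ 5 * M by
    have e1 : (t - 2) * (u6 w).re - (s - 2) * (u6 v).re
        = ((((t - 2 : ℝ) : ℂ) * z ^ 3 - ((s - 2 : ℝ) : ℂ)) * u6 v).re := by
      have e0 : (((t - 2 : ℝ) : ℂ) * z ^ 3 - ((s - 2 : ℝ) : ℂ)) * u6 v
          = ((t - 2 : ℝ) : ℂ) * (z ^ 3 * u6 v) - ((s - 2 : ℝ) : ℂ) * u6 v := by ring
      rw [e0, hz, Complex.sub_re, Complex.re_ofReal_mul, Complex.re_ofReal_mul]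
    rw [e1]
    refine (Complex.abs_re_le_norm _).trans ?_
    rw [norm_mul, n6, mul_one]
    exact hX
  rcases h with ⟨h1, h2⟩ | ⟨h1, h2⟩
  · have hM : |1 + 2 * z.re| ≤ M := by
      have e1 : (1 + 2 * z.re) * (s * t) = (r - s - t) ^ 2 - s * t := by
        linarith
      have e2 : |1 + 2 * z.re| * (s * t) = |(r - s - t) ^ 2 - s * t| := by
        rw [← e1, abs_mul, abs_of_nonneg (by linarith : 0 ≤ s * t)]
      have := mul_le_mul_of_nonneg_left hst (abs_nonneg (1 + 2 * z.re))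
      linarith
    have h3 := cube_sub nz
    have e3 : ((t - 2 : ℝ) : ℂ) * z ^ 3 - ((s - 2 : ℝ) : ℂ)
        = ((t - s : ℝ) : ℂ) * z ^ 3 + ((s - 2 : ℝ) : ℂ) * (z ^ 3 - 1) := by
      push_cast
      ring
    rw [e3]
    refine (norm_add_le _ _).trans ?_
    rw [norm_mul, norm_mul, nz3, Complex.norm_real, Complex.norm_real, Real.norm_eq_abs,
      Real.norm_eq_abs]
    have h4 : |s - 2| * ‖z ^ 3 - 1‖ ≤ 2 * (2 * M) :=
      mul_le_mul hs2 (by linarith) (norm_nonneg _) (by norm_num)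
    linarith
  · have hM : |2 * z.re - 1| ≤ M := by
      have e1 : (2 * z.re - 1) * (s * t) = (r - s - t) ^ 2 - 3 * (s * t) := by
        linarith
      have e2 : |2 * z.re - 1| * (s * t) = |(r - s - t) ^ 2 - 3 * (s * t)| := by
        rw [← e1, abs_mul, abs_of_nonneg (by linarith : 0 ≤ s * t)]
      have := mul_le_mul_of_nonneg_left hst (abs_nonneg (2 * z.re - 1))
      linarith
    have h3 := cube_add nz
    have e3 : ((t - 2 : ℝ) : ℂ) * z ^ 3 - ((s - 2 : ℝ) : ℂ)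
        = ((s + t - 4 : ℝ) : ℂ) * z ^ 3 - ((s - 2 : ℝ) : ℂ) * (z ^ 3 + 1) := by
      push_cast
      ring
    rw [e3]
    refine (norm_sub_le _ _).trans ?_
    rw [norm_mul, norm_mul, nz3, Complex.norm_real, Complex.norm_real, Real.norm_eq_abs,
      Real.norm_eq_abs]
    have h4 : |s - 2| * ‖z ^ 3 + 1‖ ≤ 2 * (2 * M) :=
      mul_le_mul hs2 (by linarith) (norm_nonneg _) (by norm_num)
    linarith

theorem near {s e : ℝ} (h : |s - 1| * |s - 3| ≤ 50 * e) :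
    |s - 1| ≤ 50 * e ∨ |s - 3| ≤ 50 * e := by
  rcases le_total s 2 with g | g
  · left
    have h1 : 1 ≤ |s - 3| := by
      rw [abs_sub_comm]
      exact le_trans (by linarith) (le_abs_self (3 - s))
    have := mul_le_mul_of_nonneg_left h1 (abs_nonneg (s - 1))
    linarith
  · right
    have h1 : 1 ≤ |s - 1| := le_trans (by linarith) (le_abs_self (s - 1))
    have := mul_le_mul_of_nonneg_right h1 (abs_nonneg (s - 3))
    linarith

/-- polynomial estimates -/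
theorem q111 {s t r n : ℝ} (hs : |s - 1| ≤ n) (ht : |t - 1| ≤ n) (hr : |r - 1| ≤ n) (hn : n ≤ 1) :
    |t - s| ≤ 24 * n ∧ |(r - s - t) ^ 2 - s * t| ≤ 24 * n := by
  have hn0 : 0 ≤ n := (abs_nonneg _).trans hs
  rw [abs_le] at hs ht hr
  refine ⟨abs_le.2 ⟨by linarith, by linarith⟩, ?_⟩
  obtain ⟨a, ha⟩ : ∃ a, a = s - 1 := ⟨_, rfl⟩
  obtain ⟨b, hb⟩ : ∃ b, b = t - 1 := ⟨_, rfl⟩
  obtain ⟨c, hc⟩ : ∃ c, c = r - 1 := ⟨_, rfl⟩
  have e : (r - s - t) ^ 2 - s * t = (c - a - b) ^ 2 - 2 * c + a + b - a * b := by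
    rw [ha, hb, hc]
    ring
  rw [← ha] at hs
  rw [← hb] at ht
  rw [← hc] at hr
  rw [e, abs_le]
  constructor <;> nlinarith only [hs.1, hs.2, ht.1, ht.2, hr.1, hr.2, hn, hn0]

theorem q113 {s t r n : ℝ} (hs : |s - 1| ≤ n) (ht : |t - 1| ≤ n) (hr : |r - 3| ≤ n) (hn : n ≤ 1) :
    |t - s| ≤ 24 * n ∧ |(r - s - t) ^ 2 - s * t| ≤ 24 * n := by
  have hn0 : 0 ≤ n := (abs_nonneg _).trans hs
  rw [abs_le] at hs ht hr
  refine ⟨abs_le.2 ⟨by linarith, by linarith⟩, ?_⟩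
  obtain ⟨a, ha⟩ : ∃ a, a = s - 1 := ⟨_, rfl⟩
  obtain ⟨b, hb⟩ : ∃ b, b = t - 1 := ⟨_, rfl⟩
  obtain ⟨c, hc⟩ : ∃ c, c = r - 3 := ⟨_, rfl⟩
  have e : (r - s - t) ^ 2 - s * t = (c - a - b) ^ 2 + 2 * (c - a - b) - a - b - a * b := by
    rw [ha, hb, hc]
    ring
  rw [← ha] at hs
  rw [← hb] at ht
  rw [← hc] at hr
  rw [e, abs_le]
  constructor <;> nlinarith only [hs.1, hs.2, ht.1, ht.2, hr.1, hr.2, hn, hn0]

theorem q131 {s t r n : ℝ} (hs : |s - 1| ≤ n) (ht : |t - 3| ≤ n) (hr : |r - 1| ≤ n) (hn : n ≤ 1) :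
    |s + t - 4| ≤ 24 * n ∧ |(r - s - t) ^ 2 - 3 * (s * t)| ≤ 24 * n := by
  have hn0 : 0 ≤ n := (abs_nonneg _).trans hs
  rw [abs_le] at hs ht hr
  refine ⟨abs_le.2 ⟨by linarith, by linarith⟩, ?_⟩
  obtain ⟨a, ha⟩ : ∃ a, a = s - 1 := ⟨_, rfl⟩
  obtain ⟨b, hb⟩ : ∃ b, b = t - 3 := ⟨_, rfl⟩
  obtain ⟨c, hc⟩ : ∃ c, c = r - 1 := ⟨_, rfl⟩
  have e : (r - s - t) ^ 2 - 3 * (s * t)
      = (c - a - b) ^ 2 - 6 * c - 3 * a + 3 * b - 3 * (a * b) := by
    rw [ha, hb, hc]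
    ring
  rw [← ha] at hs
  rw [← hb] at ht
  rw [← hc] at hr
  rw [e, abs_le]
  constructor <;> nlinarith only [hs.1, hs.2, ht.1, ht.2, hr.1, hr.2, hn, hn0]

theorem q311 {s t r n : ℝ} (hs : |s - 3| ≤ n) (ht : |t - 1| ≤ n) (hr : |r - 1| ≤ n) (hn : n ≤ 1) :
    |s + t - 4| ≤ 24 * n ∧ |(r - s - t) ^ 2 - 3 * (s * t)| ≤ 24 * n := by
  obtain ⟨h1, h2⟩ := q131 ht hs hr hn
  constructor
  · rw [show s + t - 4 = t + s - 4 by ring]
    exact h1
  · rw [show (r - s - t) ^ 2 - 3 * (s * t) = (r - t - s) ^ 2 - 3 * (t * s) by ring]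
    exact h2

theorem x133 {s t r n : ℝ} (hs : |s - 1| ≤ n) (ht : |t - 3| ≤ n) (hr : |r - 3| ≤ n)
    (hn : n ≤ 1 / 10) : 4 < 4 * (s * t) - (r - s - t) ^ 2 := by
  rw [abs_le] at hs ht hr
  nlinarith only [hs.1, hs.2, ht.1, ht.2, hr.1, hr.2, hn]

theorem x333 {s t r n : ℝ} (hs : |s - 3| ≤ n) (ht : |t - 3| ≤ n) (hr : |r - 3| ≤ n)
    (hn : n ≤ 1 / 10) : 4 < 4 * (s * t) - (r - s - t) ^ 2 := by
  rw [abs_le] at hs ht hr
  nlinarith only [hs.1, hs.2, ht.1, ht.2, hr.1, hr.2, hn]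

theorem x313 {s t r n : ℝ} (hs : |s - 3| ≤ n) (ht : |t - 1| ≤ n) (hr : |r - 3| ≤ n)
    (hn : n ≤ 1 / 10) : 4 < 4 * (s * t) - (r - s - t) ^ 2 := by
  rw [abs_le] at hs ht hr
  nlinarith only [hs.1, hs.2, ht.1, ht.2, hr.1, hr.2, hn]

theorem x331 {s t r n : ℝ} (hs : |s - 3| ≤ n) (ht : |t - 3| ≤ n) (hr : |r - 1| ≤ n)
    (hn : n ≤ 1 / 10) : 4 < 4 * (s * t) - (r - s - t) ^ 2 := by
  rw [abs_le] at hs ht hr
  nlinarith only [hs.1, hs.2, ht.1, ht.2, hr.1, hr.2, hn]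

/-- the dichotomy for small excess -/
theorem dich {s t r e : ℝ} (he1 : e ≤ 1 / 500) (hs : |s - 1| * |s - 3| ≤ 50 * e)
    (ht : |t - 1| * |t - 3| ≤ 50 * e) (hr : |r - 1| * |r - 3| ≤ 50 * e)
    (hH : 4 * (s * t) - (r - s - t) ^ 2 ≤ 4) :
    (|t - s| ≤ 1200 * e ∧ |(r - s - t) ^ 2 - s * t| ≤ 1200 * e) ∨
      (|s + t - 4| ≤ 1200 * e ∧ |(r - s - t) ^ 2 - 3 * (s * t)| ≤ 1200 * e) := by
  have hn : 50 * e ≤ 1 / 10 := by linarith
  have hn1 : 50 * e ≤ 1 := by linarith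
  have e24 : 24 * (50 * e) = 1200 * e := by ring
  rw [← e24]
  rcases near hs with h1 | h1 <;> rcases near ht with h2 | h2 <;> rcases near hr with h3 | h3
  · exact Or.inl (q111 h1 h2 h3 hn1)
  · exact Or.inl (q113 h1 h2 h3 hn1)
  · exact Or.inr (q131 h1 h2 h3 hn1)
  · exact absurd hH (not_le.2 (x133 h1 h2 h3 hn))
  · exact Or.inr (q311 h1 h2 h3 hn1)
  · exact absurd hH (not_le.2 (x313 h1 h2 h3 hn))
  · exact absurd hH (not_le.2 (x331 h1 h2 h3 hn))
  · exact absurd hH (not_le.2 (x333 h1 h2 h3 hn))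

/-- the main part of the coefficients, all values of the excess -/
theorem main_all {v w : ℂ} {s t r e : ℝ} (hs : normSq v = s) (ht : normSq w = t)
    (hr : (2 * ip v w) ^ 2 = (r - s - t) ^ 2)
    (s1 : 1 ≤ s) (s4 : s ≤ 4) (t1 : 1 ≤ t) (t4 : t ≤ 4) (he : 0 ≤ e)
    (ds : |s - 1| * |s - 3| ≤ 50 * e) (dt : |t - 1| * |t - 3| ≤ 50 * e)
    (dr : |r - 1| * |r - 3| ≤ 50 * e)
    (hH : 4 * (s * t) - (r - s - t) ^ 2 = 3 * (1 + 2 * e) ^ 2) :
    |(t - 2) * (u6 w).re - (s - 2) * (u6 v).re| ≤ 6000 * e := by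
  rcases le_total e (1 / 500) with g | g
  · have h1 := main_pair hs ht hr s1 s4 t1 (dich g ds dt dr (by rw [hH]; nlinarith only [g, he]))
    linarith
  · have hv : v ≠ 0 := by
      rintro rfl
      rw [Complex.normSq_zero] at hs
      linarith
    have hw : w ≠ 0 := by
      rintro rfl
      rw [Complex.normSq_zero] at ht
      linarith
    have n1 : |(u6 v).re| ≤ 1 := by
      rw [← u6_norm hv]
      exact Complex.abs_re_le_norm _
    have n2 : |(u6 w).re| ≤ 1 := by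
      rw [← u6_norm hw]
      exact Complex.abs_re_le_norm _
    have a1 : |s - 2| ≤ 2 := abs_le.2 ⟨by linarith, by linarith⟩
    have a2 : |t - 2| ≤ 2 := abs_le.2 ⟨by linarith, by linarith⟩
    have b1 : |(t - 2) * (u6 w).re| ≤ 2 * 1 := by
      rw [abs_mul]
      exact mul_le_mul a2 n2 (abs_nonneg _) (by norm_num)
    have b2 : |(s - 2) * (u6 v).re| ≤ 2 * 1 := by
      rw [abs_mul]
      exact mul_le_mul a1 n1 (abs_nonneg _) (by norm_num)
    have := abs_sub (G := ℝ) ((t - 2) * (u6 w).re) ((s - 2) * (u6 v).re)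
    linarith

theorem cc_bounds : 0 ≤ cc ∧ cc ≤ 1 := by
  have h1 : Real.sqrt 3 ≤ 3 := by
    rw [Real.sqrt_le_left (by norm_num)]
    norm_num
  have h2 : 0 ≤ Real.sqrt 3 := Real.sqrt_nonneg 3
  unfold cc
  constructor
  · linarith
  · linarith

/-- quotients of the coefficient functions -/
noncomputable def P1 (p : ℝ) : ℝ := eps0 + (1 / 20 - 16 / 100 * (p - 3) + 34 / 1000 * (p - 3) ^ 2)
  + (187 / 1000 + 154 / 1000 * (p - 3) - 30 / 1000 * (p - 3) ^ 2 - 525 / 10000 * (p - 3) ^ 3)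

noncomputable def P2 (p : ℝ) : ℝ := eps0 + (1 / 20 - 16 / 100 * (p - 3) + 34 / 1000 * (p - 3) ^ 2)
  - (187 / 1000 + 154 / 1000 * (p - 3) - 30 / 1000 * (p - 3) ^ 2 - 525 / 10000 * (p - 3) ^ 3)

theorem B_sum (p : ℝ) : B5 p + B7 p = (p - 1) * (p - 3) * P1 p := by
  unfold B5 B7 B7r P1
  ring

theorem B_diff (p : ℝ) : B7 p - B5 p = (p - 2) / 2 + (p - 1) * (p - 3) * P2 p := by
  unfold B5 B7 B7r P2
  ring

theorem P_bd {p : ℝ} (h1 : 1 ≤ p) (h2 : p ≤ 4) : |P1 p| ≤ 2 ∧ |P2 p| ≤ 2 := by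
  obtain ⟨e1, e2⟩ := eps0_bounds
  have t2 : (p - 3) ^ 2 ≤ 4 := by nlinarith only [h1, h2]
  have t2' : 0 ≤ (p - 3) ^ 2 := sq_nonneg _
  have t3 : |(p - 3) ^ 3| ≤ 8 := by
    rw [abs_pow]
    have h3 : |p - 3| ≤ 2 := abs_le.2 ⟨by linarith, by linarith⟩
    have := pow_le_pow_left₀ (abs_nonneg _) h3 3
    linarith
  rw [abs_le] at t3
  unfold P1 P2
  constructor
  · rw [abs_le]
    constructor <;> linarith [t3.1, t3.2]
  · rw [abs_le]
    constructor <;> linarith [t3.1, t3.2]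

theorem kk_le {v : ℂ} {e : ℝ} (s1 : 1 ≤ normSq v) (s4 : normSq v ≤ 4)
    (ds : |normSq v - 1| * |normSq v - 3| ≤ 50 * e) : |kk v| ≤ 100 * e := by
  have hv : v ≠ 0 := by
    rintro rfl
    rw [Complex.normSq_zero] at s1
    linarith
  have n1 : |(u6 v).im| ≤ 1 := by
    rw [← u6_norm hv]
    exact Complex.abs_im_le_norm _
  obtain ⟨c1, c2⟩ := cc_bounds
  unfold kk
  rw [B_sum, abs_mul, abs_mul, abs_mul, abs_mul, abs_of_nonneg c1]
  have h1 := (P_bd s1 s4).1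
  have e0 : 0 ≤ 50 * e := (mul_nonneg (abs_nonneg _) (abs_nonneg _)).trans ds
  have h2 : |normSq v - 1| * |normSq v - 3| * |P1 (normSq v)| ≤ 50 * e * 2 :=
    mul_le_mul ds h1 (abs_nonneg _) e0
  have h3 : cc * (|normSq v - 1| * |normSq v - 3| * |P1 (normSq v)|) ≤ 1 * (50 * e * 2) :=
    mul_le_mul c2 h2 (mul_nonneg (mul_nonneg (abs_nonneg _) (abs_nonneg _)) (abs_nonneg _))
      (by norm_num)
  have h4 := mul_le_mul h3 n1 (abs_nonneg _) (by linarith)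
  linarith

theorem hh_le {v w : ℂ} {r e : ℝ}
    (hr : (2 * ip v w) ^ 2 = (r - normSq v - normSq w) ^ 2)
    (s1 : 1 ≤ normSq v) (s4 : normSq v ≤ 4) (t1 : 1 ≤ normSq w) (t4 : normSq w ≤ 4) (he : 0 ≤ e)
    (ds : |normSq v - 1| * |normSq v - 3| ≤ 50 * e) (dt : |normSq w - 1| * |normSq w - 3| ≤ 50 * e)
    (dr : |r - 1| * |r - 3| ≤ 50 * e)
    (hH : 4 * (normSq v * normSq w) - (r - normSq v - normSq w) ^ 2 = 3 * (1 + 2 * e) ^ 2) :
    |hh w - hh v| ≤ 4000 * e := by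
  have hm := main_all rfl rfl hr s1 s4 t1 t4 he ds dt dr hH
  have hv : v ≠ 0 := by
    rintro rfl
    rw [Complex.normSq_zero] at s1
    linarith
  have hw : w ≠ 0 := by
    rintro rfl
    rw [Complex.normSq_zero] at t1
    linarith
  have n1 : |(u6 v).re| ≤ 1 := by
    rw [← u6_norm hv]
    exact Complex.abs_re_le_norm _
  have n2 : |(u6 w).re| ≤ 1 := by
    rw [← u6_norm hw]
    exact Complex.abs_re_le_norm _
  obtain ⟨c1, c2⟩ := cc_bounds
  have e0 : 0 ≤ 50 * e := by linarith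
  have k1 : |(normSq v - 1) * (normSq v - 3) * P2 (normSq v) * (u6 v).re| ≤ 50 * e * 2 * 1 := by
    rw [abs_mul, abs_mul, abs_mul]
    exact mul_le_mul (mul_le_mul ds (P_bd s1 s4).2 (abs_nonneg _) e0) n1 (abs_nonneg _)
      (by linarith)
  have k2 : |(normSq w - 1) * (normSq w - 3) * P2 (normSq w) * (u6 w).re| ≤ 50 * e * 2 * 1 := by
    rw [abs_mul, abs_mul, abs_mul]
    exact mul_le_mul (mul_le_mul dt (P_bd t1 t4).2 (abs_nonneg _) e0) n2 (abs_nonneg _)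
      (by linarith)
  have e1 : hh w - hh v = cc * (((normSq w - 2) * (u6 w).re - (normSq v - 2) * (u6 v).re) / 2
      + (normSq w - 1) * (normSq w - 3) * P2 (normSq w) * (u6 w).re
      - (normSq v - 1) * (normSq v - 3) * P2 (normSq v) * (u6 v).re) := by
    unfold hh
    rw [B_diff, B_diff]
    ring
  rw [e1, abs_mul, abs_of_nonneg c1]
  have h2 : |((normSq w - 2) * (u6 w).re - (normSq v - 2) * (u6 v).re) / 2
      + (normSq w - 1) * (normSq w - 3) * P2 (normSq w) * (u6 w).re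
      - (normSq v - 1) * (normSq v - 3) * P2 (normSq v) * (u6 v).re| ≤ 4000 * e := by
    rw [abs_le] at hm k1 k2 ⊢
    constructor <;> linarith [hm.1, hm.2, k1.1, k1.2, k2.1, k2.2]
  have h3 := mul_le_mul c2 h2 (abs_nonneg _) (by norm_num)
  linarith

end C03

theorem hh_neg (v : ℂ) : hh (-v) = hh v := by
  unfold hh
  rw [C03.u6_neg, Complex.normSq_neg]

theorem kk_neg (v : ℂ) : kk (-v) = kk v := by
  unfold kk
  rw [C03.u6_neg, Complex.normSq_neg]

theorem dev_le : ∃ K : ℝ, 0 ≤ K ∧ ∀ v1 v2 v3 : ℂ, AdmTri v1 v2 v3 →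
    |hh v2 - hh v1| + |hh v3 - hh v1| + |kk v1| + |kk v2| + |kk v3| ≤ K * exv v1 v2 := by
  refine ⟨8300, by norm_num, ?_⟩
  intro v1 v2 v3 h
  have hd := del_le h
  obtain ⟨e, he⟩ : ∃ e, e = exv v1 v2 := ⟨_, rfl⟩
  rw [← he] at hd ⊢
  have l1 := h.l1
  have l2 := h.l2
  have l3 := h.l3
  have m1 : 0 ≤ |normSq v1 - 1| * |normSq v1 - 3| := mul_nonneg (abs_nonneg _) (abs_nonneg _)
  have m2 : 0 ≤ |normSq v2 - 1| * |normSq v2 - 3| := mul_nonneg (abs_nonneg _) (abs_nonneg _)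
  have m3 : 0 ≤ |normSq v3 - 1| * |normSq v3 - 3| := mul_nonneg (abs_nonneg _) (abs_nonneg _)
  have n1 := mul_le_mul_of_nonneg_right l1 m1
  have n2 := mul_le_mul_of_nonneg_right l2 m2
  have n3 := mul_le_mul_of_nonneg_right l3 m3
  have d1 : |normSq v1 - 1| * |normSq v1 - 3| ≤ 50 * e := by linarith
  have d2 : |normSq v2 - 1| * |normSq v2 - 3| ≤ 50 * e := by linarith
  have d3 : |normSq v3 - 1| * |normSq v3 - 3| ≤ 50 * e := by linarith
  have e0 : 0 ≤ e := by linarith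
  -- Heron
  have hv3 : v3 = -(v1 + v2) := by linear_combination h.sum
  have s1 : 1 ≤ normSq v1 := by
    rw [Complex.normSq_eq_norm_sq]
    nlinarith only [l1]
  have s2 : 1 ≤ normSq v2 := by
    rw [Complex.normSq_eq_norm_sq]
    nlinarith only [l2]
  have s3 : 1 ≤ normSq v3 := by
    rw [Complex.normSq_eq_norm_sq]
    nlinarith only [l3]
  have c12 : 2 * ip v1 v2 = normSq v3 - normSq v1 - normSq v2 := by
    rw [hv3, Complex.normSq_apply, Complex.normSq_apply, Complex.normSq_apply]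
    unfold ip
    simp only [Complex.neg_re, Complex.neg_im, Complex.add_re, Complex.add_im]
    ring
  have c13 : 2 * ip v1 v3 = normSq v2 - normSq v1 - normSq v3 := by
    rw [hv3, Complex.normSq_apply, Complex.normSq_apply, Complex.normSq_apply]
    unfold ip
    simp only [Complex.neg_re, Complex.neg_im, Complex.add_re, Complex.add_im]
    ring
  have hD : 4 * cr v1 v2 ^ 2 = 4 * (normSq v1 * normSq v2) - (normSq v3 - normSq v1 - normSq v2) ^ 2 := by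
    rw [← c12, Complex.normSq_apply, Complex.normSq_apply]
    unfold ip cr
    ring
  have h3 : Real.sqrt 3 ^ 2 = 3 := Real.sq_sqrt (by norm_num)
  have h30 : Real.sqrt 3 ≠ 0 := by
    intro hh
    rw [hh] at h3
    norm_num at h3
  have hDe : cr v1 v2 = Real.sqrt 3 * (e + 1 / 2) := by
    rw [he]
    unfold exv
    field_simp
    ring
  have hDe2 : 4 * cr v1 v2 ^ 2 = 3 * (1 + 2 * e) ^ 2 := by
    rw [hDe, mul_pow, h3]
    ring
  have hprod : normSq v1 * normSq v2 * normSq v3 ≤ 4 * cr v1 v2 ^ 2 := by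
    have := h.rad
    have h0 : 0 ≤ ‖v1‖ * ‖v2‖ * ‖v3‖ := by positivity
    have := mul_self_le_mul_self h0 this
    rw [Complex.normSq_eq_norm_sq, Complex.normSq_eq_norm_sq, Complex.normSq_eq_norm_sq]
    linarith
  generalize hn1 : normSq v1 = x at *
  generalize hn2 : normSq v2 = y at *
  generalize hn3 : normSq v3 = z at *
  have z4 : z ≤ 4 := by
    by_contra hz
    push Not at hz
    have h1 : 0 < x * y * (z - 4) := by
      have : 0 < x * y := by positivity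
      exact mul_pos this (by linarith)
    nlinarith only [h1, hprod, hD, sq_nonneg (z - x - y)]
  have y4 : y ≤ 4 := by
    by_contra hz
    push Not at hz
    have h1 : 0 < x * z * (y - 4) := by
      have : 0 < x * z := by positivity
      exact mul_pos this (by linarith)
    nlinarith only [h1, hprod, hD, sq_nonneg (y - x - z)]
  have x4 : x ≤ 4 := by
    by_contra hz
    push Not at hz
    have h1 : 0 < y * z * (x - 4) := by
      have : 0 < y * z := by positivity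
      exact mul_pos this (by linarith)
    nlinarith only [h1, hprod, hD, sq_nonneg (x - y - z)]
  subst hn1 hn2 hn3
  have k1 := C03.kk_le s1 x4 d1
  have k2 := C03.kk_le s2 y4 d2
  have k3 := C03.kk_le s3 z4 d3
  have g2 := C03.hh_le (v := v1) (w := v2) (r := normSq v3) (e := e) (by rw [c12]) s1 x4 s2 y4 e0 d1 d2 d3
    (by rw [← hD, hDe2])
  have g3 := C03.hh_le (v := v1) (w := v3) (r := normSq v2) (e := e) (by rw [c13]) s1 x4 s3 z4 e0 d1 d3 d2
    (by rw [← hDe2, hD]; ring)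
  linarith

end Pool.Agent.LG
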