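import Pool.Agent.Lib.MP_8026b0_co.KReal

set_option autoImplicit false

/-! The calibration form. -/

namespace Pool.Agent.LG

open Complex

noncomputable section

/-- sixth power of the direction -/
def u6 (v : ℂ) : ℂ := (v / (‖v‖ : ℂ)) ^ 6

def hh (v : ℂ) : ℝ := cc / 2 + cc * (B7 (normSq v) - B5 (normSq v)) * (u6 v).re

def kk (v : ℂ) : ℝ := cc * (B5 (normSq v) + B7 (normSq v)) * (u6 v).im

def kap : ℝ := Real.sqrt 3 / 72

def chi : ℝ := 7 / 1250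

/-- even part of `Xi` -/
def Xi0 (x y : ℝ) : ℝ := min (kap * y) (chi * max 0 ((1 + 2 * x) / 3))

def Xi (w : ℂ) : ℝ := if 0 ≤ w.im then Xi0 w.re w.im else - Xi0 w.re (-w.im)

/-- the vertex function -/
def XX (v : ℂ) : ℝ := if ‖v‖ < 3 / 2 then Xi (u6 v) else Xi (-(u6 v))

/-- properties of potential and field (see row F01) -/
structure IsFld (A B ρ : ℝ) (ψ : ℂ → ℝ) (F : ℂ → ℂ) : Prop where
  hρ : 1 ≤ ρ
  hA : 8 * ρ ≤ A
  hB : 8 * ρ ≤ B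
  bd : ∀ z ∈ Box A B, ‖F z‖ ≤ 1
  lip : ∀ z ∈ Box A B, ∀ w ∈ Box A B, ‖F w - F z‖ ≤ 40 / ρ * ‖w - z‖
  tay : ∀ z ∈ Box A B, ∀ w ∈ Box A B,
    |ψ w - ψ z - ip (F z) (-I * (w - z))| ≤ 40 / ρ * ‖w - z‖ ^ 2
  wall : ∀ k : Fin 4, ∀ z ∈ Box A B, dw A B k z = 0 →
    ∃ f : ℝ, 0 ≤ f ∧ f ≤ 1 ∧ F z = ((-1 : ℂ) ^ (k : ℕ)) * (f : ℂ) * nv k
  corner : ∀ k : Fin 4, ∀ z ∈ Box A B, ‖z - cor A B k‖ ≤ 8 → ‖F z‖ ≤ 320 / ρ
  gain : 2 * min A B - 40 * ρ ≤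
        (ψ (cor A B 1) - ψ (cor A B 0)) + (ψ (cor A B 3) - ψ (cor A B 2))

/-- far from all corners -/
def Far (A B : ℝ) (z : ℂ) : Prop := ∀ k : Fin 4, 3 ≤ ‖z - cor A B k‖

open Classical in
/-- weight of contact with a vertical wall -/
def wR (A B : ℝ) (F : ℂ → ℂ) (z : ℂ) : ℝ :=
  if (dw A B 0 z < 3 / 500 ∨ dw A B 2 z < 3 / 500) ∧ Far A B z then |(F z).re| else 0

open Classical in
/-- weight of contact with a horizontal wall -/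
def wT (A B : ℝ) (F : ℂ → ℂ) (z : ℂ) : ℝ :=
  if (dw A B 1 z < 3 / 500 ∨ dw A B 3 z < 3 / 500) ∧ Far A B z then |(F z).im| else 0

/-- the main part of the calibration form -/
def GM (ψ : ℂ → ℝ) (F : ℂ → ℂ) (p q : ℂ) : ℝ :=
  hh (q - p) * (ψ q - ψ p) + kk (q - p) * ((ip (F p) (q - p) + ip (F q) (q - p)) / 2)

/-- the vertex part of the calibration form -/
def GV (A B : ℝ) (F : ℂ → ℂ) (p q : ℂ) : ℝ :=
  (wR A B F q - wR A B F p) * XX (q - p) + (wT A B F q - wT A B F p) * XX (-I * (q - p))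

/-- the calibration form -/
def GG (A B : ℝ) (ψ : ℂ → ℝ) (F : ℂ → ℂ) (p q : ℂ) : ℝ := GM ψ F p q + GV A B F p q

/-- penalty of a triangle with sides `l1, l2, l3` -/
def penT (l1 l2 l3 : ℝ) : ℝ :=
  pen (l1 + l2 + l3 - min l1 (min l2 l3) - max l1 (max l2 l3))
    ((min l1 (min l2 l3) ^ 2 + (l1 + l2 + l3 - min l1 (min l2 l3) - max l1 (max l2 l3)) ^ 2
        - max l1 (max l2 l3) ^ 2)
      / (2 * min l1 (min l2 l3) * (l1 + l2 + l3 - min l1 (min l2 l3) - max l1 (max l2 l3))))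

/-- data of an admissible counterclockwise triangle with edge vectors `v1, v2, v3` -/
structure AdmTri (v1 v2 v3 : ℂ) : Prop where
  sum : v1 + v2 + v3 = 0
  l1 : 1 ≤ ‖v1‖
  l2 : 1 ≤ ‖v2‖
  l3 : 1 ≤ ‖v3‖
  ccw : 0 < cr v1 v2
  rad : ‖v1‖ * ‖v2‖ * ‖v3‖ ≤ 2 * cr v1 v2

/-- excess in terms of two consecutive edge vectors -/
def exv (v1 v2 : ℂ) : ℝ := cr v1 v2 / Real.sqrt 3 - 1 / 2

/-- the wall function on the lune, in terms of the frame vector -/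
def MW (x y : ℝ) : ℝ :=
  hh (⟨x, y⟩ : ℂ) * y + kk (⟨x, y⟩ : ℂ) * x - cc * y + x * y / Real.sqrt 3 + (y - 1) / 2

end

end Pool.Agent.LG
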