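import Pool.Agent.Lib.MP_8026b0_co.Basic

set_option autoImplicit false

/-! Row G01: elementary facts on nearest sets. -/

namespace Pool.Agent.LG

open Complex

theorem G01.nsq (w : ℂ) : ‖w‖ ^ 2 = w.re * w.re + w.im * w.im := by
  rw [Complex.sq_norm, Complex.normSq_apply]

theorem G01.norm_eq_iff (v w : ℂ) :
    ‖v‖ = ‖w‖ ↔ v.re * v.re + v.im * v.im = w.re * w.re + w.im * w.im := by
  rw [← G01.nsq, ← G01.nsq]
  constructor
  · intro h
    rw [h]
  · intro h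
    exact (sq_eq_sq₀ (norm_nonneg _) (norm_nonneg _)).mp h

theorem Nr_nonempty {P : Finset ℂ} (hP : P.Nonempty) (z : ℂ) : (Nr P z).Nonempty := by
  obtain ⟨p, hp, h⟩ := Finset.exists_min_image P (fun p => ‖z - p‖) hP
  exact ⟨p, mem_Nr.mpr ⟨hp, h⟩⟩

theorem Nr_dist {P : Finset ℂ} {z p q : ℂ} (hp : p ∈ Nr P z) (hq : q ∈ Nr P z) :
    ‖z - p‖ = ‖z - q‖ := by
  rw [mem_Nr] at hp hq
  exact le_antisymm (hp.2 q hq.1) (hq.2 p hp.1)

/-- a point of `P` at the same distance from `z` as a nearest point is a nearest point -/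
theorem Nr_of_dist {P : Finset ℂ} {z p q : ℂ} (hp : p ∈ Nr P z) (hq : q ∈ P)
    (h : ‖z - q‖ = ‖z - p‖) : q ∈ Nr P z := by
  rw [mem_Nr] at hp ⊢
  exact ⟨hq, fun s hs => by rw [h]; exact hp.2 s hs⟩

/-- close to `z` only nearest points of `z` are nearest -/
theorem Nr_stable (P : Finset ℂ) (z : ℂ) :
    ∃ ε > 0, ∀ z' : ℂ, ‖z' - z‖ < ε → Nr P z' ⊆ Nr P z := by
  have h1 : ∀ r ∈ P, ∀ᶠ z' in nhds z, r ∈ Nr P z' → r ∈ Nr P z := by
    intro r hr
    by_cases h : r ∈ Nr P z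
    · exact Filter.Eventually.of_forall fun _ _ => h
    · have h2 : ∃ q ∈ P, ‖z - q‖ < ‖z - r‖ := by
        by_contra h3
        push Not at h3
        exact h (mem_Nr.mpr ⟨hr, h3⟩)
      obtain ⟨q, hq, h3⟩ := h2
      have h4 : ∀ᶠ z' in nhds z, ‖z' - q‖ < ‖z' - r‖ := by
        have c1 : ContinuousAt (fun z' : ℂ => ‖z' - q‖) z := by fun_prop
        have c2 : ContinuousAt (fun z' : ℂ => ‖z' - r‖) z := by fun_prop
        exact c1.eventually_lt c2 h3
      filter_upwards [h4] with z' hz' hr'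
      exact absurd ((mem_Nr.mp hr').2 q hq) (not_le.mpr hz')
  have h5 : ∀ᶠ z' in nhds z, ∀ r ∈ P, r ∈ Nr P z' → r ∈ Nr P z :=
    (Filter.eventually_all_finset P).mpr h1
  rw [Metric.eventually_nhds_iff] at h5
  obtain ⟨ε, hε, h6⟩ := h5
  refine ⟨ε, hε, fun z' hz' r hr => ?_⟩
  exact h6 (by rwa [dist_eq_norm]) r (mem_Nr.mp hr).1 hr

theorem Gen.nonempty {A B : ℝ} {P : Finset ℂ} (h : Gen A B P) : P.Nonempty := by
  have h0 : (0 : ℂ) ∈ Box A B := by
    refine ⟨?_, ?_, ?_, ?_⟩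
    · simp
    · simpa using h.hA.le
    · simp
    · simpa using h.hB.le
  obtain ⟨p, hp, _⟩ := h.sat 0 h0
  exact ⟨p, hp⟩

/-- a point of `P` is the only nearest point of itself -/
theorem Nr_self {P : Finset ℂ} {p : ℂ} (hp : p ∈ P) : Nr P p = {p} := by
  ext q
  rw [mem_Nr, Finset.mem_singleton]
  constructor
  · rintro ⟨_, h⟩
    have h1 := h p hp
    rw [sub_self, norm_zero] at h1
    have h2 : p - q = 0 := norm_le_zero_iff.mp h1
    exact (sub_eq_zero.mp h2).symm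
  · rintro rfl
    refine ⟨hp, fun r _ => ?_⟩
    rw [sub_self, norm_zero]
    exact norm_nonneg _

theorem Gen.dist_lt_one {A B : ℝ} {P : Finset ℂ} (h : Gen A B P) {z p : ℂ}
    (hz : z ∈ Box A B) (hp : p ∈ Nr P z) : ‖z - p‖ < 1 := by
  obtain ⟨q, hq, h1⟩ := h.sat z hz
  exact ((mem_Nr.mp hp).2 q hq).trans_lt h1

theorem mem_Box_iff {A B : ℝ} {z : ℂ} : z ∈ Box A B ↔ ∀ k : Fin 4, 0 ≤ dw A B k z := by
  constructor
  · rintro ⟨h1, h2, h3, h4⟩ k
    fin_cases k <;> simp [dw, cv, nv, ip] <;> assumption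
  · intro h
    have h0 := h 0
    have h1 := h 1
    have h2 := h 2
    have h3 := h 3
    simp [dw, cv, nv, ip] at h0 h1 h2 h3
    exact ⟨h2, h0, h3, h1⟩

theorem cor_mem_Box {A B : ℝ} (hA : 0 ≤ A) (hB : 0 ≤ B) (k : Fin 4) : cor A B k ∈ Box A B := by
  fin_cases k <;> simp [cor, Box, hA, hB]

/-- how the comparison of two distances changes when the point moves -/
theorem sq_dist_move (z z' p r : ℂ) :
    ‖z' - r‖ ^ 2 - ‖z' - p‖ ^ 2 = ‖z - r‖ ^ 2 - ‖z - p‖ ^ 2 - 2 * ip (z' - z) (r - p) := by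
  simp only [G01.nsq, ip, Complex.sub_re, Complex.sub_im]
  ring

/-- moving along the bisector -/
theorem bisector_move (z p q : ℂ) (t : ℝ) (h : ‖z - p‖ = ‖z - q‖) :
    ‖z + (t : ℂ) * (I * (q - p)) - p‖ = ‖z + (t : ℂ) * (I * (q - p)) - q‖ := by
  rw [G01.norm_eq_iff] at h ⊢
  simp only [Complex.sub_re, Complex.sub_im, Complex.add_re, Complex.add_im, Complex.mul_re,
    Complex.mul_im, Complex.I_re, Complex.I_im, Complex.ofReal_re, Complex.ofReal_im] at h ⊢
  linear_combination h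

/-- every point equidistant from `p` and `q` is obtained by moving along the bisector -/
theorem bisector_param {z z' p q : ℂ} (hpq : p ≠ q) (h : ‖z - p‖ = ‖z - q‖)
    (h' : ‖z' - p‖ = ‖z' - q‖) : ∃ t : ℝ, z' = z + (t : ℂ) * (I * (q - p)) := by
  rw [G01.norm_eq_iff] at h h'
  simp only [Complex.sub_re, Complex.sub_im] at h h'
  have hn : (q.re - p.re) * (q.re - p.re) + (q.im - p.im) * (q.im - p.im) ≠ 0 := by
    intro h0
    apply hpq
    have h1 : q.re - p.re = 0 := by nlinarith [mul_self_nonneg (q.re - p.re), mul_self_nonneg (q.im - p.im)]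
    have h2 : q.im - p.im = 0 := by nlinarith [mul_self_nonneg (q.re - p.re), mul_self_nonneg (q.im - p.im)]
    exact Complex.ext (by linarith) (by linarith)
  have horth : (z'.re - z.re) * (q.re - p.re) + (z'.im - z.im) * (q.im - p.im) = 0 := by
    linear_combination (1 / 2 : ℝ) * h' - (1 / 2 : ℝ) * h
  obtain ⟨t, ht⟩ : ∃ t : ℝ, t * ((q.re - p.re) * (q.re - p.re) + (q.im - p.im) * (q.im - p.im))
      = -(z'.re - z.re) * (q.im - p.im) + (z'.im - z.im) * (q.re - p.re) :=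
    ⟨(-(z'.re - z.re) * (q.im - p.im) + (z'.im - z.im) * (q.re - p.re)) /
      ((q.re - p.re) * (q.re - p.re) + (q.im - p.im) * (q.im - p.im)), div_mul_cancel₀ _ hn⟩
  refine ⟨t, Complex.ext (mul_left_cancel₀ hn ?_) (mul_left_cancel₀ hn ?_)⟩
  · simp only [Complex.sub_re, Complex.sub_im, Complex.add_re, Complex.mul_re,
      Complex.mul_im, Complex.I_re, Complex.I_im, Complex.ofReal_re, Complex.ofReal_im]
    linear_combination (q.re - p.re) * horth + (q.im - p.im) * ht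
  · simp only [Complex.sub_re, Complex.sub_im, Complex.add_im, Complex.mul_re,
      Complex.mul_im, Complex.I_re, Complex.I_im, Complex.ofReal_re, Complex.ofReal_im]
    linear_combination (q.im - p.im) * horth - (q.re - p.re) * ht

theorem ip_I_mul (a b : ℂ) : ip (I * a) b = cr a b := by
  simp only [ip, cr, Complex.mul_re, Complex.mul_im, Complex.I_re, Complex.I_im]
  ring

/-- three distinct points of a circle are not collinear -/
theorem cr_ne_zero_of_circle {z p q r : ℂ} (hpq : p ≠ q) (hqr : q ≠ r) (hpr : p ≠ r)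
    (h1 : ‖z - p‖ = ‖z - q‖) (h2 : ‖z - p‖ = ‖z - r‖) : cr (q - p) (r - p) ≠ 0 := by
  intro h0
  rw [G01.norm_eq_iff] at h1 h2
  simp only [cr, Complex.sub_re, Complex.sub_im] at h0 h1 h2
  obtain ⟨a1, ha1⟩ : ∃ a1, a1 = q.re - p.re := ⟨_, rfl⟩
  obtain ⟨a2, ha2⟩ : ∃ a2, a2 = q.im - p.im := ⟨_, rfl⟩
  obtain ⟨b1, hb1⟩ : ∃ b1, b1 = r.re - p.re := ⟨_, rfl⟩
  obtain ⟨b2, hb2⟩ : ∃ b2, b2 = r.im - p.im := ⟨_, rfl⟩
  obtain ⟨w1, hw1⟩ : ∃ w1, w1 = z.re - p.re := ⟨_, rfl⟩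
  obtain ⟨w2, hw2⟩ : ∃ w2, w2 = z.im - p.im := ⟨_, rfl⟩
  have e1 : z.re - q.re = w1 - a1 := by linarith
  have e2 : z.im - q.im = w2 - a2 := by linarith
  have e3 : z.re - r.re = w1 - b1 := by linarith
  have e4 : z.im - r.im = w2 - b2 := by linarith
  rw [e1, e2, ← hw1, ← hw2] at h1
  rw [e3, e4, ← hw1, ← hw2] at h2
  rw [← ha1, ← ha2, ← hb1, ← hb2] at h0
  have hb0 : b1 * b1 + b2 * b2 ≠ 0 := by
    intro h3
    apply hpr
    have h4 : b1 = 0 := by nlinarith [mul_self_nonneg b1, mul_self_nonneg b2]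
    have h5 : b2 = 0 := by nlinarith [mul_self_nonneg b1, mul_self_nonneg b2]
    exact Complex.ext (by linarith) (by linarith)
  have ha0 : a1 * a1 + a2 * a2 ≠ 0 := by
    intro h3
    apply hpq
    have h4 : a1 = 0 := by nlinarith [mul_self_nonneg a1, mul_self_nonneg a2]
    have h5 : a2 = 0 := by nlinarith [mul_self_nonneg a1, mul_self_nonneg a2]
    exact Complex.ext (by linarith) (by linarith)
  -- `2 w.a = |a|^2`, `2 w.b = |b|^2`
  have f1 : 2 * (w1 * a1 + w2 * a2) = a1 * a1 + a2 * a2 := by linear_combination h1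
  have f2 : 2 * (w1 * b1 + w2 * b2) = b1 * b1 + b2 * b2 := by linear_combination h2
  -- `(a.b) (w.b) = |b|^2 (w.a)` and `(a.b) (w.a) = |a|^2 (w.b)`
  have g1 : (a1 * b1 + a2 * b2) * (w1 * b1 + w2 * b2)
      = (b1 * b1 + b2 * b2) * (w1 * a1 + w2 * a2) := by
    linear_combination (w2 * b1 - w1 * b2) * h0
  have g2 : (a1 * b1 + a2 * b2) * (w1 * a1 + w2 * a2)
      = (a1 * a1 + a2 * a2) * (w1 * b1 + w2 * b2) := by
    linear_combination (w1 * a2 - w2 * a1) * h0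
  have k1 : (b1 * b1 + b2 * b2) * ((a1 * b1 + a2 * b2) - (a1 * a1 + a2 * a2)) = 0 := by
    linear_combination 2 * g1 - (a1 * b1 + a2 * b2) * f2 + (b1 * b1 + b2 * b2) * f1
  have k2 : (a1 * a1 + a2 * a2) * ((a1 * b1 + a2 * b2) - (b1 * b1 + b2 * b2)) = 0 := by
    linear_combination 2 * g2 - (a1 * b1 + a2 * b2) * f1 + (a1 * a1 + a2 * a2) * f2
  have l1 : (a1 * b1 + a2 * b2) - (a1 * a1 + a2 * a2) = 0 :=
    (mul_eq_zero.mp k1).resolve_left hb0
  have l2 : (a1 * b1 + a2 * b2) - (b1 * b1 + b2 * b2) = 0 :=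
    (mul_eq_zero.mp k2).resolve_left ha0
  have m0 : (a1 - b1) * (a1 - b1) + (a2 - b2) * (a2 - b2) = 0 := by
    linear_combination -l1 - l2
  apply hqr
  have h4 : a1 - b1 = 0 := by nlinarith [mul_self_nonneg (a1 - b1), mul_self_nonneg (a2 - b2)]
  have h5 : a2 - b2 = 0 := by nlinarith [mul_self_nonneg (a1 - b1), mul_self_nonneg (a2 - b2)]
  exact Complex.ext (by linarith) (by linarith)

theorem G01.dw_move (A B : ℝ) (k : Fin 4) (z u : ℂ) (t : ℝ) :
    dw A B k (z + (t : ℂ) * u) = dw A B k z - t * ip u (nv k) := by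
  simp only [dw, ip, Complex.add_re, Complex.add_im, Complex.mul_re, Complex.mul_im,
    Complex.ofReal_re, Complex.ofReal_im]
  ring

/-- if all walls through `z` are left by moving in direction `u` inwards or along, the box is
not left at once -/
theorem Box_move {A B : ℝ} {z u : ℂ} (hz : z ∈ Box A B)
    (hu : ∀ k : Fin 4, dw A B k z = 0 → ip u (nv k) ≤ 0) :
    ∃ ε > 0, ∀ t : ℝ, 0 ≤ t → t < ε → z + (t : ℂ) * u ∈ Box A B := by
  rw [mem_Box_iff] at hz
  have h1 : ∀ k : Fin 4, ∃ ε > 0, ∀ t : ℝ, 0 ≤ t → t < ε → 0 ≤ dw A B k (z + (t : ℂ) * u) := by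
    intro k
    by_cases h0 : dw A B k z = 0
    · refine ⟨1, one_pos, fun t ht _ => ?_⟩
      rw [G01.dw_move, h0]
      nlinarith [hu k h0]
    · have h2 : 0 < dw A B k z := lt_of_le_of_ne (hz k) (Ne.symm h0)
      have h3 : 0 < |ip u (nv k)| + 1 := by positivity
      refine ⟨dw A B k z / (|ip u (nv k)| + 1), by positivity, fun t ht ht' => ?_⟩
      rw [G01.dw_move]
      rw [lt_div_iff₀ h3] at ht'
      have h4 : t * ip u (nv k) ≤ t * |ip u (nv k)| :=
        mul_le_mul_of_nonneg_left (le_abs_self _) ht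
      nlinarith
  choose ε hε h using h1
  refine ⟨min (min (ε 0) (ε 1)) (min (ε 2) (ε 3)), lt_min (lt_min (hε 0) (hε 1)) (lt_min (hε 2) (hε 3)),
    fun t ht ht' => ?_⟩
  rw [lt_min_iff, lt_min_iff, lt_min_iff] at ht'
  rw [mem_Box_iff]
  intro k
  apply h k t ht
  fin_cases k
  · exact ht'.1.1
  · exact ht'.1.2
  · exact ht'.2.1
  · exact ht'.2.2

end Pool.Agent.LG
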