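import Pool.Agent.Lib.MP_8026b0_co.G01

set_option autoImplicit false

/-! Row G02: the left end of the Voronoi segment `S(p,q)` is a triple point or lies on a wall. -/

namespace Pool.Agent.LG

open Complex

namespace G02

theorem ip_add (a b c : ℂ) : ip (a + b) c = ip a c + ip b c := by
  simp only [ip, add_re, add_im]; ring

theorem ip_smul (t : ℝ) (a c : ℂ) : ip ((t : ℂ) * a) c = t * ip a c := by
  simp only [ip, re_ofReal_mul, im_ofReal_mul]; ring

theorem ip_self_pos {d : ℂ} (hd : d ≠ 0) : 0 < ip d d := by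
  have h : ip d d = normSq d := by rw [ip, normSq_apply]
  rw [h]
  exact normSq_pos.mpr hd

theorem ip_I (a b : ℂ) : ip a (I * b) = - cr a b := by
  simp only [ip, cr, mul_re, mul_im, I_re, I_im]; ring

theorem cr_neg (a b : ℂ) : cr (-a) b = - cr a b := by
  simp only [cr, neg_re, neg_im]; ring

theorem dw_move (A B : ℝ) (k : Fin 4) (z d : ℂ) (t : ℝ) :
    dw A B k (z + (t : ℂ) * d) = dw A B k z - t * ip d (nv k) := by
  rw [dw, dw, ip_add, ip_smul]; ring

/-- the common nearest set of `p` and `q` -/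
def SS (A B : ℝ) (P : Finset ℂ) (p q : ℂ) : Set ℂ := {z | z ∈ Box A B ∧ p ∈ Nr P z ∧ q ∈ Nr P z}

theorem isCompact_Box (A B : ℝ) : IsCompact (Box A B) := by
  have h1 : IsClosed (Box A B) := by
    have : Box A B = {z : ℂ | 0 ≤ z.re} ∩ ({z : ℂ | z.re ≤ A} ∩ ({z : ℂ | 0 ≤ z.im} ∩ {z : ℂ | z.im ≤ B})) := by
      ext z; simp [Box]
    rw [this]
    exact (isClosed_le continuous_const continuous_re).inter
      ((isClosed_le continuous_re continuous_const).inter
        ((isClosed_le continuous_const continuous_im).inter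
          (isClosed_le continuous_im continuous_const)))
  refine Metric.isCompact_of_isClosed_isBounded h1 ?_
  rw [Metric.isBounded_iff_subset_closedBall 0]
  refine ⟨|A| + |B|, fun z hz => ?_⟩
  rw [mem_closedBall_zero_iff]
  refine (norm_le_abs_re_add_abs_im z).trans (add_le_add ?_ ?_)
  · rw [abs_of_nonneg hz.1]
    exact hz.2.1.trans (le_abs_self A)
  · rw [abs_of_nonneg hz.2.2.1]
    exact hz.2.2.2.trans (le_abs_self B)

theorem isClosed_mem_Nr (P : Finset ℂ) (p : ℂ) : IsClosed {z : ℂ | p ∈ Nr P z} := by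
  have h : {z : ℂ | p ∈ Nr P z} = {z : ℂ | p ∈ P} ∩ ⋂ q ∈ P, {z : ℂ | ‖z - p‖ ≤ ‖z - q‖} := by
    ext z
    simp only [Set.mem_ofPred_eq, mem_Nr, Set.mem_inter_iff, Set.mem_iInter]
  rw [h]
  refine IsClosed.inter ?_ ?_
  · by_cases hp : p ∈ P
    · simp [hp]
    · simp [hp]
  · refine isClosed_biInter fun q _ => ?_
    exact isClosed_le (by fun_prop) (by fun_prop)

theorem isCompact_SS (A B : ℝ) (P : Finset ℂ) (p q : ℂ) : IsCompact (SS A B P p q) := by
  have h : SS A B P p q = Box A B ∩ ({z : ℂ | p ∈ Nr P z} ∩ {z : ℂ | q ∈ Nr P z}) := by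
    ext z
    exact Iff.rfl
  rw [h]
  exact (isCompact_Box A B).inter_right ((isClosed_mem_Nr P p).inter (isClosed_mem_Nr P q))

theorem exists_top {A B : ℝ} {P : Finset ℂ} {p q : ℂ} (hS : Adj A B P p q) (d : ℂ) :
    ∃ z ∈ SS A B P p q, ∀ z' ∈ SS A B P p q, ip z' d ≤ ip z d := by
  obtain ⟨z, hz1, hz2, hz3⟩ := hS
  have hc : Continuous fun z : ℂ => ip z d := by
    unfold ip
    fun_prop
  obtain ⟨w, hw, hw2⟩ := (isCompact_SS A B P p q).exists_isMaxOn ⟨z, hz1, hz2, hz3⟩ hc.continuousOn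
  exact ⟨w, hw, fun z' hz' => hw2 hz'⟩

/-- the top of `S` can be moved on unless there is a point or a wall in the way -/
theorem blocked {A B : ℝ} {P : Finset ℂ} (hP : P.Nonempty) {p q z : ℂ} (hp : p ∈ P) (hq : q ∈ P)
    (hpq : p ≠ q) (hz : z ∈ SS A B P p q)
    (hmax : ∀ z' ∈ SS A B P p q, ip z' (I * (q - p)) ≤ ip z (I * (q - p)))
    (ha : ∀ k : Fin 4, dw A B k z = 0 → ip (I * (q - p)) (nv k) ≤ 0)
    (hb : ∀ r ∈ Nr P z, cr (q - p) (r - p) ≤ 0) : False := by
  obtain ⟨hzB, hzp, hzq⟩ := hz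
  obtain ⟨ε1, hε1, h1⟩ := Box_move hzB ha
  obtain ⟨ε2, hε2, h2⟩ := Nr_stable P z
  have hd0 : I * (q - p) ≠ 0 := mul_ne_zero I_ne_zero (sub_ne_zero.mpr hpq.symm)
  have hn : 0 < ‖I * (q - p)‖ := norm_pos_iff.mpr hd0
  set t : ℝ := min ε1 (ε2 / ‖I * (q - p)‖) / 2 with ht
  have hm : 0 < min ε1 (ε2 / ‖I * (q - p)‖) := lt_min hε1 (by positivity)
  have ht0 : 0 < t := by positivity
  have ht1 : t < ε1 := by
    have := min_le_left ε1 (ε2 / ‖I * (q - p)‖)
    linarith
  have ht2 : t * ‖I * (q - p)‖ < ε2 := by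
    rw [← lt_div_iff₀ hn]
    have := min_le_right ε1 (ε2 / ‖I * (q - p)‖)
    linarith
  set z' : ℂ := z + (t : ℂ) * (I * (q - p)) with hz'
  have hz'B : z' ∈ Box A B := h1 t ht0.le ht1
  have hsub : Nr P z' ⊆ Nr P z := by
    refine h2 z' ?_
    rw [hz', add_sub_cancel_left, norm_mul, norm_real, Real.norm_eq_abs, abs_of_pos ht0]
    exact ht2
  obtain ⟨r, hr⟩ := Nr_nonempty hP z'
  have hrz := hsub hr
  have hdist := Nr_dist hzp hrz
  have hmove := sq_dist_move z z' p r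
  have hdz : z' - z = (t : ℂ) * (I * (q - p)) := by rw [hz', add_sub_cancel_left]
  rw [hdist, sub_self, hdz, ip_smul, ip_I_mul] at hmove
  have hb' := hb r hrz
  have hle : ‖z' - p‖ ≤ ‖z' - r‖ := by
    have h3 : ‖z' - p‖ ^ 2 ≤ ‖z' - r‖ ^ 2 := by
      have h4 : t * cr (q - p) (r - p) ≤ 0 := mul_nonpos_of_nonneg_of_nonpos ht0.le hb'
      linarith
    exact (pow_le_pow_iff_left₀ (norm_nonneg _) (norm_nonneg _) two_ne_zero).mp h3
  have hp' : p ∈ Nr P z' := mem_Nr.mpr ⟨hp, fun s hs => hle.trans ((mem_Nr.mp hr).2 s hs)⟩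
  have hq' : q ∈ Nr P z' := Nr_of_dist hp' hq (bisector_move z p q t (Nr_dist hzp hzq)).symm
  have h5 := hmax z' ⟨hz'B, hp', hq'⟩
  rw [hz', ip_add, ip_smul] at h5
  have h6 := mul_pos ht0 (ip_self_pos hd0)
  linarith

/-- a point of `S` with a third nearest point on the left side is the top of `S` -/
theorem top_param {A B : ℝ} {P : Finset ℂ} {p q z z' : ℂ} (hpq : p ≠ q)
    (hz : z ∈ SS A B P p q)
    (hmax : ∀ z' ∈ SS A B P p q, ip z' (I * (q - p)) ≤ ip z (I * (q - p)))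
    (hz' : z' ∈ SS A B P p q) : ∃ t : ℝ, 0 ≤ t ∧ z = z' + (t : ℂ) * (I * (q - p)) := by
  obtain ⟨t, ht⟩ := bisector_param hpq (Nr_dist hz'.2.1 hz'.2.2) (Nr_dist hz.2.1 hz.2.2)
  refine ⟨t, ?_, ht⟩
  have hd0 : I * (q - p) ≠ 0 := mul_ne_zero I_ne_zero (sub_ne_zero.mpr hpq.symm)
  have h1 := hmax z' hz'
  rw [ht, ip_add, ip_smul] at h1
  have h2 := ip_self_pos hd0
  by_contra hlt
  push Not at hlt
  nlinarith

theorem top_of_Tr {A B : ℝ} {P : Finset ℂ} {p q z r : ℂ} (hpq : p ≠ q)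
    (hz : z ∈ SS A B P p q)
    (hmax : ∀ z' ∈ SS A B P p q, ip z' (I * (q - p)) ≤ ip z (I * (q - p)))
    (hr : (p, q, r) ∈ Tr A B P) : r ∈ Nr P z ∧ r ≠ p ∧ r ≠ q := by
  obtain ⟨⟨_, _, hrP⟩, hcr, z', hz'B, h1, h2, h3⟩ := mem_Tr.mp hr
  obtain ⟨t, ht0, ht⟩ := top_param hpq hz hmax ⟨hz'B, h1, h2⟩
  simp only at hcr h1 h2 h3 hrP
  refine ⟨?_, ?_, ?_⟩
  · have h4 := sq_dist_move z' z p r
    have h5 : z - z' = (t : ℂ) * (I * (q - p)) := by rw [ht, add_sub_cancel_left]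
    rw [Nr_dist h1 h3, sub_self, h5, ip_smul, ip_I_mul] at h4
    have h6 := (mem_Nr.mp hz.2.1).2 r hrP
    have h7 : ‖z - p‖ ^ 2 ≤ ‖z - r‖ ^ 2 := pow_le_pow_left₀ (norm_nonneg _) h6 2
    have h8 : t = 0 := by
      rcases ht0.lt_or_eq with h | h
      · nlinarith [mul_pos h hcr]
      · exact h.symm
    rw [ht, h8, ofReal_zero, zero_mul, add_zero]
    exact h3
  · rintro rfl
    rw [sub_self] at hcr
    simp [cr] at hcr
  · rintro rfl
    have : cr (r - p) (r - p) = 0 := by simp only [cr]; ring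
    rw [this] at hcr
    exact lt_irrefl _ hcr

theorem top_of_Wp {A B : ℝ} {P : Finset ℂ} {p q z : ℂ} {k : Fin 4} (hpq : p ≠ q)
    (hz : z ∈ SS A B P p q)
    (hmax : ∀ z' ∈ SS A B P p q, ip z' (I * (q - p)) ≤ ip z (I * (q - p)))
    (hk : (q, p) ∈ Wp A B P k) : dw A B k z = 0 := by
  obtain ⟨_, hip, z', hz'B, hdw, h1, h2⟩ := mem_Wp.mp hk
  simp only at hip h1 h2
  obtain ⟨t, ht0, ht⟩ := top_param hpq hz hmax ⟨hz'B, h2, h1⟩
  have h3 : 0 ≤ dw A B k z := mem_Box_iff.mp hz.1 k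
  rw [ht, dw_move, hdw, ip_I_mul] at h3
  rw [ip_I] at hip
  have h4 : cr (p - q) (nv k) = - cr (q - p) (nv k) := by rw [← cr_neg, neg_sub]
  rw [h4, neg_neg] at hip
  have h8 : t = 0 := by
    rcases ht0.lt_or_eq with h | h
    · nlinarith [mul_pos h hip]
    · exact h.symm
  rw [ht, h8, ofReal_zero, zero_mul, add_zero]
  exact hdw

end G02

open G02

open Classical in
theorem ends_pos {A B : ℝ} {P : Finset ℂ} (h : Gen A B P) {p q : ℂ} (hp : p ∈ P) (hq : q ∈ P)
    (hpq : p ≠ q) (hS : Adj A B P p q) :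
    (P.filter (fun r => (p, q, r) ∈ Tr A B P)).card
      + ((Finset.univ : Finset (Fin 4)).filter (fun k => (q, p) ∈ Wp A B P k)).card = 1 := by
  obtain ⟨z, hz, hmax⟩ := exists_top hS (I * (q - p))
  have hR : ∀ r, (p, q, r) ∈ Tr A B P → r ∈ Nr P z ∧ r ≠ p ∧ r ≠ q := fun r hr =>
    top_of_Tr hpq hz hmax hr
  have hW : ∀ k, (q, p) ∈ Wp A B P k → dw A B k z = 0 := fun k hk => top_of_Wp hpq hz hmax hk
  -- cardinalities
  have hc2 : 2 ≤ (Nr P z).card := by
    have h1 : ({p, q} : Finset ℂ) ⊆ Nr P z := by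
      intro x hx
      rw [Finset.mem_insert, Finset.mem_singleton] at hx
      rcases hx with rfl | rfl
      · exact hz.2.1
      · exact hz.2.2
    have h2 := Finset.card_le_card h1
    rwa [Finset.card_pair hpq] at h2
  have hc3 : ∀ r, r ∈ Nr P z → r ≠ p → r ≠ q → 3 ≤ (Nr P z).card := by
    intro r hr h1 h2
    have h3 : ({p, q, r} : Finset ℂ) ⊆ Nr P z := by
      intro x hx
      simp only [Finset.mem_insert, Finset.mem_singleton] at hx
      rcases hx with rfl | rfl | rfl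
      · exact hz.2.1
      · exact hz.2.2
      · exact hr
    have h4 := Finset.card_le_card h3
    rwa [Finset.card_eq_three.mpr ⟨p, q, r, hpq, h1.symm, h2.symm, rfl⟩] at h4
  have hc4 : ∀ r r', r ∈ Nr P z → r ≠ p → r ≠ q → r' ∈ Nr P z → r' ≠ p → r' ≠ q → r = r' := by
    intro r r' hr h1 h2 hr' h1' h2'
    by_contra hne
    have h3 : ({p, q, r, r'} : Finset ℂ) ⊆ Nr P z := by
      intro x hx
      simp only [Finset.mem_insert, Finset.mem_singleton] at hx
      rcases hx with rfl | rfl | rfl | rfl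
      · exact hz.2.1
      · exact hz.2.2
      · exact hr
      · exact hr'
    have h4 := Finset.card_le_card h3
    have h5 : ({p, q, r, r'} : Finset ℂ).card = 4 := by
      rw [Finset.card_insert_of_notMem, Finset.card_eq_three.mpr ⟨q, r, r', h2.symm, h2'.symm, hne, rfl⟩]
      simp only [Finset.mem_insert, Finset.mem_singleton, not_or]
      exact ⟨hpq, h1.symm, h1'.symm⟩
    rw [h5] at h4
    have := h.four z hz.1
    omega
  by_cases hRne : ∃ r, (p, q, r) ∈ Tr A B P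
  · obtain ⟨r, hr⟩ := hRne
    obtain ⟨h1, h2, h3⟩ := hR r hr
    have h4 : P.filter (fun r => (p, q, r) ∈ Tr A B P) = {r} := by
      ext x
      rw [Finset.mem_filter, Finset.mem_singleton]
      constructor
      · rintro ⟨_, hx⟩
        obtain ⟨h1', h2', h3'⟩ := hR x hx
        exact hc4 x r h1' h2' h3' h1 h2 h3
      · rintro rfl
        exact ⟨(mem_Nr.mp h1).1, hr⟩
    have h5 : (Finset.univ : Finset (Fin 4)).filter (fun k => (q, p) ∈ Wp A B P k) = ∅ := by
      rw [Finset.filter_eq_empty_iff]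
      intro k _ hk
      have h6 := h.wall z hz.1 k (hW k hk)
      have h7 := hc3 r h1 h2 h3
      omega
    rw [h4, h5]
    simp
  · push Not at hRne
    have h4 : P.filter (fun r => (p, q, r) ∈ Tr A B P) = ∅ := by
      rw [Finset.filter_eq_empty_iff]
      intro r _ hr
      exact hRne r hr
    have hk : ∃ k, (q, p) ∈ Wp A B P k := by
      by_contra hcon
      push Not at hcon
      refine blocked h.nonempty hp hq hpq hz hmax ?_ ?_
      · intro k hk
        by_contra hlt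
        push Not at hlt
        refine hcon k (mem_Wp.mpr ⟨⟨hq, hp⟩, ?_, z, hz.1, hk, hz.2.2, hz.2.1⟩)
        rw [ip_I_mul] at hlt
        show 0 < ip (p - q) (I * nv k)
        rw [ip_I, ← cr_neg, neg_sub]
        exact hlt
      · intro r hr
        by_contra hlt
        push Not at hlt
        exact hRne r (mem_Tr.mpr ⟨⟨hp, hq, (mem_Nr.mp hr).1⟩, hlt, z, hz.1, hz.2.1, hz.2.2, hr⟩)
    obtain ⟨k, hk⟩ := hk
    have h5 : (Finset.univ : Finset (Fin 4)).filter (fun k => (q, p) ∈ Wp A B P k) = {k} := by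
      ext l
      rw [Finset.mem_filter, Finset.mem_singleton]
      constructor
      · rintro ⟨_, hl⟩
        by_contra hne
        have h6 := h.corner z hz.1 l k hne (hW l hl) (hW k hk)
        omega
      · rintro rfl
        exact ⟨Finset.mem_univ _, hk⟩
    rw [h4, h5]
    simp

open Classical in
theorem ends_neg {A B : ℝ} {P : Finset ℂ} {p q : ℂ} (hS : ¬ Adj A B P p q) :
    (P.filter (fun r => (p, q, r) ∈ Tr A B P)).card
      + ((Finset.univ : Finset (Fin 4)).filter (fun k => (q, p) ∈ Wp A B P k)).card = 0 := by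
  have h4 : P.filter (fun r => (p, q, r) ∈ Tr A B P) = ∅ := by
    rw [Finset.filter_eq_empty_iff]
    intro r _ hr
    obtain ⟨_, _, z, hz, h1, h2, _⟩ := mem_Tr.mp hr
    exact hS ⟨z, hz, h1, h2⟩
  have h5 : (Finset.univ : Finset (Fin 4)).filter (fun k => (q, p) ∈ Wp A B P k) = ∅ := by
    rw [Finset.filter_eq_empty_iff]
    intro k _ hk
    obtain ⟨_, _, z, hz, _, h1, h2⟩ := mem_Wp.mp hk
    exact hS ⟨z, hz, h2, h1⟩
  rw [h4, h5]
  simp

end Pool.Agent.LG
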