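import Pool.Agent.Lib.MP_8026b0_co.G02

set_option autoImplicit false

/-! Row G03: the summation identity (star) and the rotation invariance of `Tr`. -/

namespace Pool.Agent.LG

open Complex

open Classical in
private theorem g03_ends {A B : ℝ} {P : Finset ℂ} (h : Gen A B P) {p q : ℂ} (hp : p ∈ P)
    (hq : q ∈ P) :
    (P.filter (fun r => (p, q, r) ∈ Tr A B P)).card
      + ((Finset.univ : Finset (Fin 4)).filter (fun k => (q, p) ∈ Wp A B P k)).card =
      if p ≠ q ∧ Adj A B P p q then 1 else 0 := by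
  by_cases hpq : p = q
  · subst hpq
    rw [if_neg (fun hh => hh.1 rfl)]
    have e1 : P.filter (fun r => (p, p, r) ∈ Tr A B P) = ∅ := by
      apply Finset.filter_eq_empty_iff.2
      intro r _ hr
      have := (mem_Tr.1 hr).2.1
      simp [cr] at this
    have e2 : (Finset.univ : Finset (Fin 4)).filter (fun k => (p, p) ∈ Wp A B P k) = ∅ := by
      apply Finset.filter_eq_empty_iff.2
      intro k _ hk
      have := (mem_Wp.1 hk).2.1
      simp [ip] at this
    rw [e1, e2]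
    simp
  · by_cases hS : Adj A B P p q
    · rw [if_pos ⟨hpq, hS⟩]
      exact ends_pos h hp hq hpq hS
    · rw [if_neg (fun hh => hS hh.2)]
      exact ends_neg hS

private theorem g03_adj_comm {A B : ℝ} {P : Finset ℂ} {p q : ℂ} :
    Adj A B P p q ↔ Adj A B P q p := by
  constructor <;> rintro ⟨z, hz, h1, h2⟩ <;> exact ⟨z, hz, h2, h1⟩

theorem star_sum {A B : ℝ} {P : Finset ℂ} (h : Gen A B P) (g : ℂ → ℂ → ℝ)
    (hg : ∀ p q, g q p = - g p q) :
    ∑ t ∈ Tr A B P, g t.1 t.2.1 = ∑ k : Fin 4, ∑ e ∈ Wp A B P k, g e.1 e.2 := by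
  classical
  have h1 : ∑ t ∈ Tr A B P, g t.1 t.2.1 = ∑ p ∈ P, ∑ q ∈ P,
      ((P.filter (fun r => (p, q, r) ∈ Tr A B P)).card : ℝ) * g p q := by
    have hTr : Tr A B P = (P ×ˢ P ×ˢ P).filter (fun t => t ∈ Tr A B P) := by
      ext t
      rw [Finset.mem_filter, Finset.mem_product, Finset.mem_product]
      exact ⟨fun ht => ⟨(mem_Tr.1 ht).1, ht⟩, fun ht => ht.2⟩
    calc ∑ t ∈ Tr A B P, g t.1 t.2.1
        = ∑ t ∈ (P ×ˢ P ×ˢ P).filter (fun t => t ∈ Tr A B P), g t.1 t.2.1 := by rw [← hTr]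
      _ = ∑ p ∈ P, ∑ q ∈ P, ∑ r ∈ P, if (p, q, r) ∈ Tr A B P then g p q else 0 := by
        rw [Finset.sum_filter, Finset.sum_product]
        refine Finset.sum_congr rfl fun p _ => ?_
        rw [Finset.sum_product]
      _ = _ := by
        refine Finset.sum_congr rfl fun p _ => Finset.sum_congr rfl fun q _ => ?_
        rw [← Finset.sum_filter, Finset.sum_const, nsmul_eq_mul]
  have h2 : ∑ k : Fin 4, ∑ e ∈ Wp A B P k, g e.1 e.2 = ∑ p ∈ P, ∑ q ∈ P,
      (((Finset.univ : Finset (Fin 4)).filter (fun k => (p, q) ∈ Wp A B P k)).card : ℝ)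
        * g p q := by
    have hWp : ∀ k, Wp A B P k = (P ×ˢ P).filter (fun e => e ∈ Wp A B P k) := by
      intro k
      ext t
      rw [Finset.mem_filter, Finset.mem_product]
      exact ⟨fun ht => ⟨(mem_Wp.1 ht).1, ht⟩, fun ht => ht.2⟩
    calc ∑ k : Fin 4, ∑ e ∈ Wp A B P k, g e.1 e.2
        = ∑ k : Fin 4, ∑ e ∈ (P ×ˢ P).filter (fun e => e ∈ Wp A B P k), g e.1 e.2 := by
          refine Finset.sum_congr rfl fun k _ => ?_
          rw [← hWp]
      _ = ∑ k : Fin 4, ∑ p ∈ P, ∑ q ∈ P, if (p, q) ∈ Wp A B P k then g p q else 0 := by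
        refine Finset.sum_congr rfl fun k _ => ?_
        rw [Finset.sum_filter, Finset.sum_product]
      _ = ∑ p ∈ P, ∑ q ∈ P, ∑ k : Fin 4, if (p, q) ∈ Wp A B P k then g p q else 0 := by
        rw [Finset.sum_comm]
        refine Finset.sum_congr rfl fun p _ => ?_
        rw [Finset.sum_comm]
      _ = _ := by
        refine Finset.sum_congr rfl fun p _ => Finset.sum_congr rfl fun q _ => ?_
        rw [← Finset.sum_filter, Finset.sum_const, nsmul_eq_mul]
  have h3 : ∑ k : Fin 4, ∑ e ∈ Wp A B P k, g e.1 e.2 = -∑ p ∈ P, ∑ q ∈ P,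
      (((Finset.univ : Finset (Fin 4)).filter (fun k => (q, p) ∈ Wp A B P k)).card : ℝ)
        * g p q := by
    rw [h2, Finset.sum_comm, ← Finset.sum_neg_distrib]
    refine Finset.sum_congr rfl fun p _ => ?_
    rw [← Finset.sum_neg_distrib]
    refine Finset.sum_congr rfl fun q _ => ?_
    rw [hg p q]
    ring
  set S : ℝ := ∑ p ∈ P, ∑ q ∈ P, (if p ≠ q ∧ Adj A B P p q then (1:ℝ) else 0) * g p q with hS
  have hS0 : S = 0 := by
    have : S = -S := by
      calc S = ∑ q ∈ P, ∑ p ∈ P, (if p ≠ q ∧ Adj A B P p q then (1:ℝ) else 0) * g p q := by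
            rw [hS, Finset.sum_comm]
        _ = -S := by
            rw [hS, ← Finset.sum_neg_distrib]
            refine Finset.sum_congr rfl fun p _ => ?_
            rw [← Finset.sum_neg_distrib]
            refine Finset.sum_congr rfl fun q _ => ?_
            have e : (q ≠ p ∧ Adj A B P q p) ↔ (p ≠ q ∧ Adj A B P p q) := by
              rw [ne_comm, g03_adj_comm]
            simp only [e, hg p q]
            ring
    linarith
  have hsum : ∑ t ∈ Tr A B P, g t.1 t.2.1 - ∑ k : Fin 4, ∑ e ∈ Wp A B P k, g e.1 e.2 = S := by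
    rw [h1, h3, sub_neg_eq_add, ← Finset.sum_add_distrib, hS]
    refine Finset.sum_congr rfl fun p hp => ?_
    rw [← Finset.sum_add_distrib]
    refine Finset.sum_congr rfl fun q hq => ?_
    rw [← add_mul, ← Nat.cast_add, g03_ends h hp hq]
    push_cast
    rfl
  linarith

theorem Tr_rot {A B : ℝ} {P : Finset ℂ} {p q r : ℂ} (h : (p, q, r) ∈ Tr A B P) :
    (q, r, p) ∈ Tr A B P := by
  obtain ⟨⟨hp, hq, hr⟩, hc, z, hz, h1, h2, h3⟩ := mem_Tr.1 h
  refine mem_Tr.2 ⟨⟨hq, hr, hp⟩, ?_, z, hz, h2, h3, h1⟩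
  have e : cr (r - q) (p - q) = cr (q - p) (r - p) := by
    simp only [cr, sub_re, sub_im]
    ring
  simp only at hc ⊢
  rw [e]
  exact hc

theorem Tr_sum_rot {A B : ℝ} {P : Finset ℂ} (f : ℂ × ℂ × ℂ → ℝ) :
    ∑ t ∈ Tr A B P, f (t.2.1, t.2.2, t.1) = ∑ t ∈ Tr A B P, f t := by
  refine Finset.sum_nbij' (fun t => (t.2.1, t.2.2, t.1)) (fun t => (t.2.2, t.1, t.2.1))
    ?_ ?_ ?_ ?_ ?_
  · rintro ⟨p, q, r⟩ ht
    exact Tr_rot ht
  · rintro ⟨p, q, r⟩ ht
    exact Tr_rot (Tr_rot ht)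
  · rintro ⟨p, q, r⟩ _
    rfl
  · rintro ⟨p, q, r⟩ _
    rfl
  · rintro ⟨p, q, r⟩ _
    rfl

/-- the sum of an antisymmetric function over the three edges -/
theorem star_cyc {A B : ℝ} {P : Finset ℂ} (h : Gen A B P) (g : ℂ → ℂ → ℝ)
    (hg : ∀ p q, g q p = - g p q) :
    ∑ t ∈ Tr A B P, (g t.1 t.2.1 + g t.2.1 t.2.2 + g t.2.2 t.1)
      = 3 * ∑ k : Fin 4, ∑ e ∈ Wp A B P k, g e.1 e.2 := by
  have h1 := Tr_sum_rot (A := A) (B := B) (P := P) (fun t => g t.1 t.2.1)
  have h2 := Tr_sum_rot (A := A) (B := B) (P := P) (fun t => g t.2.1 t.2.2)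
  simp only at h1 h2
  rw [Finset.sum_add_distrib, Finset.sum_add_distrib, h2, h1, star_sum h g hg]
  ring

end Pool.Agent.LG
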