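import Pool.Agent.Lib.MP_8026b0_co.G01

set_option autoImplicit false

/-! Row G04: the trace of a Voronoi cell on a wall has a first and a last point. -/

namespace Pool.Agent.LG

open Complex

namespace G04

private lemma ip_comm (z w : ℂ) : ip z w = ip w z := by unfold ip; ring

private lemma ip_smul (t : ℝ) (z w : ℂ) : ip ((t : ℂ) * z) w = t * ip z w := by
  unfold ip
  simp only [Complex.mul_re, Complex.mul_im, Complex.ofReal_re, Complex.ofReal_im]
  ring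

private lemma ip_neg_left (z w : ℂ) : ip (-z) w = -ip z w := by
  unfold ip
  simp only [Complex.neg_re, Complex.neg_im]
  ring

private lemma ip_neg_right (z w : ℂ) : ip z (-w) = -ip z w := by
  unfold ip
  simp only [Complex.neg_re, Complex.neg_im]
  ring

/-- comparison of the distances to `p` and `q` at two times -/
private lemma move (c u p q : ℂ) (s t : ℝ) :
    ‖c + (t : ℂ) * u - q‖ ^ 2 - ‖c + (t : ℂ) * u - p‖ ^ 2 =
      ‖c + (s : ℂ) * u - q‖ ^ 2 - ‖c + (s : ℂ) * u - p‖ ^ 2 + 2 * (t - s) * ip (p - q) u := by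
  rw [sq_dist_move (c + (s : ℂ) * u) (c + (t : ℂ) * u) p q]
  have h1 : c + (t : ℂ) * u - (c + (s : ℂ) * u) = ((t - s : ℝ) : ℂ) * u := by push_cast; ring
  have h2 : q - p = -(p - q) := by ring
  rw [h1, ip_smul, h2, ip_neg_right, ip_comm u]
  ring

open Classical in
private lemma seg {P : Finset ℂ} (c u : ℂ) (l : ℝ) (hl : 0 ≤ l)
    (h2 : ∀ t : ℝ, 0 ≤ t → t ≤ l → (Nr P (c + (t : ℂ) * u)).card ≤ 2)
    (h1 : (Nr P c).card ≤ 1) (hne : ∀ p ∈ P, ∀ q ∈ P, p ≠ q → ip (p - q) u ≠ 0)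
    {p : ℂ} (hp : p ∈ P) :
    (P.filter (fun q => 0 < ip (p - q) u ∧ ∃ t : ℝ, 0 ≤ t ∧ t ≤ l ∧
        q ∈ Nr P (c + (t : ℂ) * u) ∧ p ∈ Nr P (c + (t : ℂ) * u))).card +
      (if p ∈ Nr P c then 1 else 0) =
    if ∃ t : ℝ, 0 ≤ t ∧ t ≤ l ∧ p ∈ Nr P (c + (t : ℂ) * u) then 1 else 0 := by
  have hc0 : c + ((0 : ℝ) : ℂ) * u = c := by simp
  by_cases hex : ∃ t : ℝ, 0 ≤ t ∧ t ≤ l ∧ p ∈ Nr P (c + (t : ℂ) * u)
  swap
  · rw [if_neg hex]
    have hpc : p ∉ Nr P c := fun h => hex ⟨0, le_rfl, hl, by rw [hc0]; exact h⟩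
    rw [if_neg hpc, add_zero, Finset.card_eq_zero, Finset.filter_eq_empty_iff]
    rintro q hq ⟨_, t, h3, h4, _, h5⟩
    exact hex ⟨t, h3, h4, h5⟩
  rw [if_pos hex]
  -- the first time
  set S : Set ℝ := {t : ℝ | t ∈ Set.Icc 0 l ∧ p ∈ Nr P (c + (t : ℂ) * u)} with hS
  have hScl : IsClosed S := by
    have : S = Set.Icc 0 l ∩ ⋂ q ∈ P, {t : ℝ | ‖c + (t : ℂ) * u - p‖ ≤ ‖c + (t : ℂ) * u - q‖} := by
      ext t
      simp only [hS, Set.mem_ofPred_eq, Set.mem_inter_iff, Set.mem_iInter, mem_Nr]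
      constructor
      · rintro ⟨h3, _, h4⟩
        exact ⟨h3, h4⟩
      · rintro ⟨h3, h4⟩
        exact ⟨h3, hp, h4⟩
    rw [this]
    refine isClosed_Icc.inter (isClosed_biInter fun q _ => isClosed_le ?_ ?_) <;> fun_prop
  have hScpt : IsCompact S := isCompact_Icc.of_isClosed_subset hScl (fun t ht => ht.1)
  have hSne : S.Nonempty := by
    obtain ⟨t, h3, h4, h5⟩ := hex
    exact ⟨t, ⟨h3, h4⟩, h5⟩
  obtain ⟨t0, ht0S, ht0⟩ := hScpt.exists_isLeast hSne
  obtain ⟨⟨ht00, ht0l⟩, hpt0⟩ := ht0S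
  have hmin : ∀ t : ℝ, 0 ≤ t → t ≤ l → p ∈ Nr P (c + (t : ℂ) * u) → t0 ≤ t :=
    fun t h3 h4 h5 => ht0 ⟨⟨h3, h4⟩, h5⟩
  -- pairs can only be seen at the first time
  have huni : ∀ q ∈ P, 0 < ip (p - q) u → ∀ t : ℝ, 0 ≤ t → t ≤ l →
      q ∈ Nr P (c + (t : ℂ) * u) → p ∈ Nr P (c + (t : ℂ) * u) → t = t0 := by
    intro q hq hpos t h3 h4 h5 h6
    by_contra hne'
    have hlt : t0 < t := lt_of_le_of_ne (hmin t h3 h4 h6) (Ne.symm hne')
    have h7 := move c u p q t t0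
    have h8 : ‖c + (t : ℂ) * u - q‖ = ‖c + (t : ℂ) * u - p‖ := Nr_dist h5 h6
    rw [h8, sub_self, zero_add] at h7
    have h9 : ‖c + (t0 : ℂ) * u - p‖ ≤ ‖c + (t0 : ℂ) * u - q‖ := (mem_Nr.mp hpt0).2 q hq
    have h10 : ‖c + (t0 : ℂ) * u - p‖ ^ 2 ≤ ‖c + (t0 : ℂ) * u - q‖ ^ 2 :=
      pow_le_pow_left₀ (norm_nonneg _) h9 2
    have h11 : 0 < 2 * (t - t0) * ip (p - q) u := by
      have : 0 < t - t0 := by linarith
      positivity
    nlinarith
  have hpq_ne : ∀ q, 0 < ip (p - q) u → p ≠ q := by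
    intro q h3 h4
    rw [h4, sub_self] at h3
    unfold ip at h3
    simp at h3
  rcases eq_or_lt_of_le ht00 with h0 | h0
  · -- the cell contains the corner
    have hpc : p ∈ Nr P c := by rw [← hc0, h0]; exact hpt0
    rw [if_pos hpc]
    have hem : P.filter (fun q => 0 < ip (p - q) u ∧ ∃ t : ℝ, 0 ≤ t ∧ t ≤ l ∧
        q ∈ Nr P (c + (t : ℂ) * u) ∧ p ∈ Nr P (c + (t : ℂ) * u)) = ∅ := by
      rw [Finset.filter_eq_empty_iff]
      rintro q hq ⟨h3, t, h4, h5, h6, h7⟩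
      have h8 := huni q hq h3 t h4 h5 h6 h7
      rw [h8, ← h0, hc0] at h6
      exact hpq_ne q h3 (Finset.card_le_one.mp h1 p hpc q h6)
    rw [hem, Finset.card_empty]
  · have hpc : p ∉ Nr P c := by
      intro h3
      have := hmin 0 le_rfl hl (by rw [hc0]; exact h3)
      linarith
    rw [if_neg hpc, add_zero]
    -- existence
    have hexq : ∃ q ∈ Nr P (c + (t0 : ℂ) * u), 0 < ip (p - q) u := by
      by_contra hno
      push Not at hno
      obtain ⟨ε, hε, hstab⟩ := Nr_stable P (c + (t0 : ℂ) * u)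
      set s : ℝ := min t0 (ε / (2 * (‖u‖ + 1))) with hs
      have hu1 : 0 < ‖u‖ + 1 := by positivity
      have hs0 : 0 < s := lt_min h0 (by positivity)
      have hst : s ≤ t0 := min_le_left _ _
      have hsε : s * ‖u‖ < ε := by
        have h3 : s ≤ ε / (2 * (‖u‖ + 1)) := min_le_right _ _
        have h4 : s * (‖u‖ + 1) ≤ ε / 2 := by
          calc s * (‖u‖ + 1) ≤ ε / (2 * (‖u‖ + 1)) * (‖u‖ + 1) :=
                mul_le_mul_of_nonneg_right h3 hu1.le
            _ = ε / 2 := by field_simp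
        nlinarith [norm_nonneg u]
      have hsub : Nr P (c + ((t0 - s : ℝ) : ℂ) * u) ⊆ Nr P (c + (t0 : ℂ) * u) := by
        refine hstab _ ?_
        have h3 : c + ((t0 - s : ℝ) : ℂ) * u - (c + (t0 : ℂ) * u) = -((s : ℂ) * u) := by
          push_cast; ring
        rw [h3, norm_neg, norm_mul, Complex.norm_real, Real.norm_of_nonneg hs0.le]
        exact hsε
      obtain ⟨r, hr⟩ := Nr_nonempty (P := P) ⟨p, hp⟩ (c + ((t0 - s : ℝ) : ℂ) * u)
      have hr0 := hsub hr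
      have hrP : r ∈ P := (mem_Nr.mp hr).1
      have hpn : p ∈ Nr P (c + ((t0 - s : ℝ) : ℂ) * u) := by
        by_cases hrp : r = p
        · rw [← hrp]; exact hr
        · exfalso
          have h3 : ip (p - r) u < 0 :=
            lt_of_le_of_ne (hno r hr0) (hne p hp r hrP (Ne.symm hrp))
          have h4 := move c u p r t0 (t0 - s)
          have h5 : ‖c + (t0 : ℂ) * u - r‖ = ‖c + (t0 : ℂ) * u - p‖ := Nr_dist hr0 hpt0
          rw [h5, sub_self, zero_add] at h4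
          have h6 := (mem_Nr.mp hr).2 p hp
          have h7 : ‖c + ((t0 - s : ℝ) : ℂ) * u - r‖ ^ 2 ≤ ‖c + ((t0 - s : ℝ) : ℂ) * u - p‖ ^ 2 :=
            pow_le_pow_left₀ (norm_nonneg _) h6 2
          have h8 : 0 < 2 * (t0 - s - t0) * ip (p - r) u := by
            have : 2 * (t0 - s - t0) * ip (p - r) u = 2 * s * (-ip (p - r) u) := by ring
            rw [this]
            have h9 : 0 < -ip (p - r) u := by linarith
            positivity
          linarith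
      have := hmin (t0 - s) (by linarith) (by linarith) hpn
      linarith
    obtain ⟨q, hq, hqpos⟩ := hexq
    have hqP : q ∈ P := (mem_Nr.mp hq).1
    have hpq := hpq_ne q hqpos
    rw [Finset.card_eq_one]
    refine ⟨q, ?_⟩
    ext q'
    rw [Finset.mem_filter, Finset.mem_singleton]
    constructor
    · rintro ⟨hq'P, h3, t, h4, h5, h6, h7⟩
      have h8 := huni q' hq'P h3 t h4 h5 h6 h7
      rw [h8] at h6
      by_contra hqq
      have h9 := hpq_ne q' h3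
      have h10 : ({p, q, q'} : Finset ℂ) ⊆ Nr P (c + (t0 : ℂ) * u) := by
        intro x hx
        simp only [Finset.mem_insert, Finset.mem_singleton] at hx
        rcases hx with rfl | rfl | rfl
        · exact hpt0
        · exact hq
        · exact h6
      have h11 := Finset.card_le_card h10
      have h12 : ({p, q, q'} : Finset ℂ).card = 3 := by
        rw [Finset.card_eq_three]
        exact ⟨p, q, q', hpq, h9, fun h => hqq h.symm, rfl⟩
      have h13 := h2 t0 ht00 ht0l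
      omega
    · rintro rfl
      exact ⟨hqP, hqpos, t0, ht00, ht0l, hq, hpt0⟩

/-- lengths of the walls -/
private noncomputable def len (A B : ℝ) : Fin 4 → ℝ := ![B, A, B, A]

private lemma wall_param {A B : ℝ} (hA : 0 ≤ A) (hB : 0 ≤ B) (k : Fin 4) (z : ℂ) :
    (z ∈ Box A B ∧ dw A B k z = 0) ↔
      ∃ t : ℝ, 0 ≤ t ∧ t ≤ len A B k ∧ z = cor A B k + (t : ℂ) * (I * nv k) := by
  constructor
  · rintro ⟨⟨h1, h2, h3, h4⟩, h5⟩
    fin_cases k
    · refine ⟨z.im, h3, h4, ?_⟩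
      simp [dw, cv, ip, nv] at h5
      apply Complex.ext <;> simp [cor, nv]
      linarith
    · refine ⟨A - z.re, by linarith, by simp [len]; linarith, ?_⟩
      simp [dw, cv, ip, nv] at h5
      apply Complex.ext <;> simp [cor, nv]
      linarith
    · refine ⟨B - z.im, by linarith, by simp [len]; linarith, ?_⟩
      simp [dw, cv, ip, nv] at h5
      apply Complex.ext <;> simp [cor, nv]
      linarith
    · refine ⟨z.re, h1, h2, ?_⟩
      simp [dw, cv, ip, nv] at h5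
      apply Complex.ext <;> simp [cor, nv]
      linarith
  · rintro ⟨t, h1, h2, rfl⟩
    fin_cases k <;> simp [len] at h2 <;> simp [Box, dw, cv, ip, nv, cor] <;>
      (try constructor) <;> (try constructor) <;> linarith

private lemma wall_param' {A B : ℝ} (hA : 0 ≤ A) (hB : 0 ≤ B) (k : Fin 4) (z : ℂ) :
    (z ∈ Box A B ∧ dw A B k z = 0) ↔
      ∃ t : ℝ, 0 ≤ t ∧ t ≤ len A B k ∧ z = cor A B (k + 1) + (t : ℂ) * (-(I * nv k)) := by
  have hc : cor A B (k + 1) = cor A B k + ((len A B k : ℝ) : ℂ) * (I * nv k) := by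
    fin_cases k <;> apply Complex.ext <;> simp [cor, nv, len]
  rw [wall_param hA hB]
  constructor
  · rintro ⟨t, h1, h2, rfl⟩
    refine ⟨len A B k - t, by linarith, by linarith, ?_⟩
    rw [hc]; push_cast; ring
  · rintro ⟨t, h1, h2, rfl⟩
    refine ⟨len A B k - t, by linarith, by linarith, ?_⟩
    rw [hc]; push_cast; ring

private lemma len_nonneg {A B : ℝ} (hA : 0 ≤ A) (hB : 0 ≤ B) (k : Fin 4) : 0 ≤ len A B k := by
  fin_cases k <;> simp [len] <;> assumption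

private lemma dw_cor (A B : ℝ) (k : Fin 4) : dw A B k (cor A B k) = 0 := by
  fin_cases k <;> simp [dw, cv, ip, nv, cor]

private lemma dw_cor' (A B : ℝ) (k : Fin 4) : dw A B k (cor A B (k + 1)) = 0 := by
  fin_cases k <;> simp [dw, cv, ip, nv, cor]

private lemma dw_cor3 (A B : ℝ) (k : Fin 4) : dw A B (k + 3) (cor A B k) = 0 := by
  fin_cases k <;> simp [dw, cv, ip, nv, cor]

private lemma ip_ne {A B : ℝ} {P : Finset ℂ} (h : Gen A B P) (k : Fin 4) :
    ∀ p ∈ P, ∀ q ∈ P, p ≠ q → ip (p - q) (I * nv k) ≠ 0 := by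
  intro p hp q hq hpq h0
  have him : p.im - q.im ≠ 0 := fun h1 => hpq (h.im_inj p hp q hq (by linarith))
  have hre : p.re - q.re ≠ 0 := fun h1 => hpq (h.re_inj p hp q hq (by linarith))
  fin_cases k
  · apply him; simp [ip, nv] at h0; linarith
  · apply hre; simp [ip, nv] at h0; linarith
  · apply him; simp [ip, nv] at h0; linarith
  · apply hre; simp [ip, nv] at h0; linarith

end G04

open G04

open Classical in
theorem wall_lower {A B : ℝ} {P : Finset ℂ} (h : Gen A B P) (k : Fin 4) {p : ℂ} (hp : p ∈ P) :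
    (P.filter (fun q => (q, p) ∈ Wp A B P k)).card + (if p ∈ Nr P (cor A B k) then 1 else 0)
      = if ∃ z ∈ Box A B, dw A B k z = 0 ∧ p ∈ Nr P z then 1 else 0 := by
  have hA := h.hA.le
  have hB := h.hB.le
  have hs := seg (P := P) (cor A B k) (I * nv k) (len A B k) (len_nonneg hA hB k)
    (fun t h1 h2 => by
      obtain ⟨h3, h4⟩ := (wall_param hA hB k _).mpr ⟨t, h1, h2, rfl⟩
      exact h.wall _ h3 k h4)
    (h.corner _ (cor_mem_Box hA hB k) k (k + 3) (by fin_cases k <;> decide) (dw_cor A B k)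
      (dw_cor3 A B k))
    (ip_ne h k) hp
  have e1 : P.filter (fun q => (q, p) ∈ Wp A B P k) =
      P.filter (fun q => 0 < ip (p - q) (I * nv k) ∧ ∃ t : ℝ, 0 ≤ t ∧ t ≤ len A B k ∧
        q ∈ Nr P (cor A B k + (t : ℂ) * (I * nv k)) ∧
        p ∈ Nr P (cor A B k + (t : ℂ) * (I * nv k))) := by
    refine Finset.filter_congr fun q hq => ?_
    rw [mem_Wp]
    constructor
    · rintro ⟨_, h1, z, hz, h2, h3, h4⟩
      obtain ⟨t, h5, h6, rfl⟩ := (wall_param hA hB k z).mp ⟨hz, h2⟩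
      exact ⟨h1, t, h5, h6, h3, h4⟩
    · rintro ⟨h1, t, h2, h3, h4, h5⟩
      obtain ⟨h6, h7⟩ := (wall_param hA hB k _).mpr ⟨t, h2, h3, rfl⟩
      exact ⟨⟨hq, hp⟩, h1, _, h6, h7, h4, h5⟩
  have e2 : (∃ z ∈ Box A B, dw A B k z = 0 ∧ p ∈ Nr P z) ↔
      ∃ t : ℝ, 0 ≤ t ∧ t ≤ len A B k ∧ p ∈ Nr P (cor A B k + (t : ℂ) * (I * nv k)) := by
    constructor
    · rintro ⟨z, hz, h2, h3⟩
      obtain ⟨t, h5, h6, rfl⟩ := (wall_param hA hB k z).mp ⟨hz, h2⟩
      exact ⟨t, h5, h6, h3⟩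
    · rintro ⟨t, h2, h3, h4⟩
      obtain ⟨h6, h7⟩ := (wall_param hA hB k _).mpr ⟨t, h2, h3, rfl⟩
      exact ⟨_, h6, h7, h4⟩
  rw [e1, hs]
  exact if_congr e2.symm rfl rfl

open Classical in
theorem wall_upper {A B : ℝ} {P : Finset ℂ} (h : Gen A B P) (k : Fin 4) {p : ℂ} (hp : p ∈ P) :
    (P.filter (fun q => (p, q) ∈ Wp A B P k)).card
        + (if p ∈ Nr P (cor A B (k + 1)) then 1 else 0)
      = if ∃ z ∈ Box A B, dw A B k z = 0 ∧ p ∈ Nr P z then 1 else 0 := by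
  have hA := h.hA.le
  have hB := h.hB.le
  have hs := seg (P := P) (cor A B (k + 1)) (-(I * nv k)) (len A B k) (len_nonneg hA hB k)
    (fun t h1 h2 => by
      obtain ⟨h3, h4⟩ := (wall_param' hA hB k _).mpr ⟨t, h1, h2, rfl⟩
      exact h.wall _ h3 k h4)
    (h.corner _ (cor_mem_Box hA hB (k + 1)) k (k + 1) (by fin_cases k <;> decide)
      (dw_cor' A B k) (dw_cor A B (k + 1)))
    (fun a ha b hb hab => by
      rw [ip_neg_right]
      exact neg_ne_zero.mpr (ip_ne h k a ha b hb hab)) hp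
  have e0 : ∀ q, ip (p - q) (-(I * nv k)) = ip (q - p) (I * nv k) := by
    intro q
    rw [ip_neg_right, ← ip_neg_left]
    congr 1
    ring
  have e1 : P.filter (fun q => (p, q) ∈ Wp A B P k) =
      P.filter (fun q => 0 < ip (p - q) (-(I * nv k)) ∧ ∃ t : ℝ, 0 ≤ t ∧ t ≤ len A B k ∧
        q ∈ Nr P (cor A B (k + 1) + (t : ℂ) * (-(I * nv k))) ∧
        p ∈ Nr P (cor A B (k + 1) + (t : ℂ) * (-(I * nv k)))) := by
    refine Finset.filter_congr fun q hq => ?_
    rw [mem_Wp, e0]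
    constructor
    · rintro ⟨_, h1, z, hz, h2, h3, h4⟩
      obtain ⟨t, h5, h6, rfl⟩ := (wall_param' hA hB k z).mp ⟨hz, h2⟩
      exact ⟨h1, t, h5, h6, h4, h3⟩
    · rintro ⟨h1, t, h2, h3, h4, h5⟩
      obtain ⟨h6, h7⟩ := (wall_param' hA hB k _).mpr ⟨t, h2, h3, rfl⟩
      exact ⟨⟨hp, hq⟩, h1, _, h6, h7, h5, h4⟩
  have e2 : (∃ z ∈ Box A B, dw A B k z = 0 ∧ p ∈ Nr P z) ↔
      ∃ t : ℝ, 0 ≤ t ∧ t ≤ len A B k ∧
        p ∈ Nr P (cor A B (k + 1) + (t : ℂ) * (-(I * nv k))) := by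
    constructor
    · rintro ⟨z, hz, h2, h3⟩
      obtain ⟨t, h5, h6, rfl⟩ := (wall_param' hA hB k z).mp ⟨hz, h2⟩
      exact ⟨t, h5, h6, h3⟩
    · rintro ⟨t, h2, h3, h4⟩
      obtain ⟨h6, h7⟩ := (wall_param' hA hB k _).mpr ⟨t, h2, h3, rfl⟩
      exact ⟨_, h6, h7, h4⟩
  rw [e1, hs]
  exact if_congr e2.symm rfl rfl

end Pool.Agent.LG
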