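import Pool.Agent.Lib.MP_8026b0_co.G04

set_option autoImplicit false

/-! Row G05: telescoping along a wall. -/

namespace Pool.Agent.LG

open Complex

namespace G05

theorem cor_facts {A B : ℝ} (hA : 0 < A) (hB : 0 < B) (k : Fin 4) :
    cor A B k ∈ Box A B ∧ dw A B k (cor A B k) = 0 ∧ dw A B (k + 3) (cor A B k) = 0 := by
  fin_cases k <;> simp [cor, Box, dw, cv, ip, nv, hA.le, hB.le]

theorem add3_ne (k : Fin 4) : k ≠ k + 3 := by
  fin_cases k <;> decide

theorem Nr_cor {A B : ℝ} {P : Finset ℂ} (h : Gen A B P) (k : Fin 4) {a : ℂ}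
    (ha : a ∈ Nr P (cor A B k)) (p : ℂ) : p ∈ Nr P (cor A B k) ↔ p = a := by
  obtain ⟨h1, h2, h3⟩ := cor_facts h.hA h.hB k
  have hc := h.corner _ h1 k (k + 3) (add3_ne k) h2 h3
  constructor
  · intro hp
    exact Finset.card_le_one.1 hc p hp a ha
  · rintro rfl
    exact ha

end G05

theorem tel {A B : ℝ} {P : Finset ℂ} (h : Gen A B P) (φ : ℂ → ℝ) (k : Fin 4) {a b : ℂ}
    (ha : a ∈ Nr P (cor A B k)) (hb : b ∈ Nr P (cor A B (k + 1))) :
    ∑ e ∈ Wp A B P k, (φ e.2 - φ e.1) = φ b - φ a := by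
  classical
  have haP : a ∈ P := (mem_Nr.1 ha).1
  have hbP : b ∈ P := (mem_Nr.1 hb).1
  have hsub : ∀ e ∈ Wp A B P k, e.1 ∈ P ∧ e.2 ∈ P := fun e he => (mem_Wp.1 he).1
  set X : ℂ → ℝ := fun p => if ∃ z ∈ Box A B, dw A B k z = 0 ∧ p ∈ Nr P z then 1 else 0 with hX
  have h2 : ∑ e ∈ Wp A B P k, φ e.2 = ∑ p ∈ P, φ p * (X p - if p = a then 1 else 0) := by
    rw [← Finset.sum_fiberwise_of_maps_to (g := fun e : ℂ × ℂ => e.2) (t := P)
      (fun e he => (hsub e he).2)]
    refine Finset.sum_congr rfl (fun p hp => ?_)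
    have h3 : ∑ e ∈ (Wp A B P k).filter (fun e => e.2 = p), φ e.2 =
        ((Wp A B P k).filter (fun e => e.2 = p)).card * φ p := by
      rw [Finset.sum_congr rfl (g := fun _ => φ p)
        (fun e he => by rw [(Finset.mem_filter.1 he).2])]
      rw [Finset.sum_const, nsmul_eq_mul]
    have h4 : ((Wp A B P k).filter (fun e => e.2 = p)).card =
        (P.filter (fun q => (q, p) ∈ Wp A B P k)).card := by
      refine Finset.card_bij (fun e _ => e.1) ?_ ?_ ?_
      · rintro ⟨x, y⟩ he
        obtain ⟨h5, h6⟩ := Finset.mem_filter.1 he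
        simp only at h6
        subst h6
        exact Finset.mem_filter.2 ⟨(hsub _ h5).1, h5⟩
      · rintro ⟨x, y⟩ he ⟨x', y'⟩ he' hxx
        have h6 := (Finset.mem_filter.1 he).2
        have h7 := (Finset.mem_filter.1 he').2
        simp only at h6 h7 hxx
        rw [h6, h7, hxx]
      · intro q hq
        obtain ⟨h5, h6⟩ := Finset.mem_filter.1 hq
        exact ⟨(q, p), Finset.mem_filter.2 ⟨h6, rfl⟩, rfl⟩
    have h5 := wall_lower h k hp
    have h6 : ((P.filter (fun q => (q, p) ∈ Wp A B P k)).card : ℝ) +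
        (if p = a then 1 else 0) = X p := by
      have h7 : (if p ∈ Nr P (cor A B k) then 1 else 0 : ℕ) = if p = a then 1 else 0 := by
        simp only [G05.Nr_cor h k ha p]
      rw [h7] at h5
      have h8 := congrArg (Nat.cast : ℕ → ℝ) h5
      push_cast at h8
      rw [hX]
      simp only
      convert h8 using 2
    rw [h3, h4, ← h6]
    ring
  have h1 : ∑ e ∈ Wp A B P k, φ e.1 = ∑ p ∈ P, φ p * (X p - if p = b then 1 else 0) := by
    rw [← Finset.sum_fiberwise_of_maps_to (g := fun e : ℂ × ℂ => e.1) (t := P)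
      (fun e he => (hsub e he).1)]
    refine Finset.sum_congr rfl (fun p hp => ?_)
    have h3 : ∑ e ∈ (Wp A B P k).filter (fun e => e.1 = p), φ e.1 =
        ((Wp A B P k).filter (fun e => e.1 = p)).card * φ p := by
      rw [Finset.sum_congr rfl (g := fun _ => φ p)
        (fun e he => by rw [(Finset.mem_filter.1 he).2])]
      rw [Finset.sum_const, nsmul_eq_mul]
    have h4 : ((Wp A B P k).filter (fun e => e.1 = p)).card =
        (P.filter (fun q => (p, q) ∈ Wp A B P k)).card := by
      refine Finset.card_bij (fun e _ => e.2) ?_ ?_ ?_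
      · rintro ⟨x, y⟩ he
        obtain ⟨h5, h6⟩ := Finset.mem_filter.1 he
        simp only at h6
        subst h6
        exact Finset.mem_filter.2 ⟨(hsub _ h5).2, h5⟩
      · rintro ⟨x, y⟩ he ⟨x', y'⟩ he' hxx
        have h6 := (Finset.mem_filter.1 he).2
        have h7 := (Finset.mem_filter.1 he').2
        simp only at h6 h7 hxx
        rw [h6, h7, hxx]
      · intro q hq
        obtain ⟨h5, h6⟩ := Finset.mem_filter.1 hq
        exact ⟨(p, q), Finset.mem_filter.2 ⟨h6, rfl⟩, rfl⟩
    have h5 := wall_upper h k hp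
    have h6 : ((P.filter (fun q => (p, q) ∈ Wp A B P k)).card : ℝ) +
        (if p = b then 1 else 0) = X p := by
      have h7 : (if p ∈ Nr P (cor A B (k + 1)) then 1 else 0 : ℕ) = if p = b then 1 else 0 := by
        simp only [G05.Nr_cor h (k + 1) hb p]
      rw [h7] at h5
      have h8 := congrArg (Nat.cast : ℕ → ℝ) h5
      push_cast at h8
      rw [hX]
      simp only
      convert h8 using 2
    rw [h3, h4, ← h6]
    ring
  rw [Finset.sum_sub_distrib, h1, h2, ← Finset.sum_sub_distrib]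
  have h9 : ∀ p ∈ P, φ p * (X p - if p = a then 1 else 0) - φ p * (X p - if p = b then 1 else 0) =
      (if p = b then φ p else 0) - (if p = a then φ p else 0) := by
    intro p _
    split_ifs <;> ring
  rw [Finset.sum_congr rfl h9, Finset.sum_sub_distrib, Finset.sum_ite_eq' P b φ,
    Finset.sum_ite_eq' P a φ, if_pos hbP, if_pos haP]

end Pool.Agent.LG
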