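import Pool.Agent.Lib.MP_8026b0_co.G01

set_option autoImplicit false

/-! Row G06: the highest point of a Voronoi cell in a generic direction. -/

namespace Pool.Agent.LG

open Complex

/-- a direction which is generic for `P` and the box -/
def GenDir (P : Finset ℂ) (e : ℂ) : Prop :=
  e.re ≠ 0 ∧ e.im ≠ 0 ∧ ∀ p ∈ P, ∀ q ∈ P, p ≠ q → cr (q - p) e ≠ 0

theorem exists_genDir (P : Finset ℂ) : ∃ e : ℂ, GenDir P e := by
  classical
  obtain ⟨t, ht⟩ := Infinite.exists_notMem_finset
    (insert (0 : ℝ) ((P ×ˢ P).image (fun x => (x.2 - x.1).im / (x.2 - x.1).re)))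
  rw [Finset.mem_insert, not_or] at ht
  refine ⟨⟨1, t⟩, one_ne_zero, ht.1, ?_⟩
  intro p hp q hq hpq h
  have h1 : (q - p).re * t - (q - p).im * 1 = 0 := h
  by_cases h2 : (q - p).re = 0
  · rw [h2] at h1
    have h3 : (q - p).im = 0 := by linarith
    exact hpq (sub_eq_zero.mp (Complex.ext h2 h3)).symm
  · refine ht.2 (Finset.mem_image.mpr ⟨(p, q), Finset.mem_product.mpr ⟨hp, hq⟩, ?_⟩)
    show (q - p).im / (q - p).re = t
    field_simp
    linarith

theorem GenDir.neg {P : Finset ℂ} {e : ℂ} (h : GenDir P e) : GenDir P (-e) := by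
  refine ⟨?_, ?_, ?_⟩
  · simpa using h.1
  · simpa using h.2.1
  · intro p hp q hq hpq h1
    refine h.2.2 p hp q hq hpq ?_
    simp only [cr, neg_re, neg_im] at h1 ⊢
    linarith

namespace G06

theorem ip_zero_right (u : ℂ) : ip u 0 = 0 := by simp [ip]

theorem ip_neg_left (u v : ℂ) : ip (-u) v = - ip u v := by
  simp only [ip, neg_re, neg_im]
  ring

theorem ip_neg_right (u v : ℂ) : ip u (-v) = - ip u v := by
  simp only [ip, neg_re, neg_im]
  ring

theorem ip_add_smul (z u e : ℂ) (t : ℝ) : ip (z + (t : ℂ) * u) e = ip z e + t * ip u e := by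
  simp only [ip, add_re, add_im, mul_re, mul_im, ofReal_re, ofReal_im]
  ring

theorem cr_self (a : ℂ) : cr a a = 0 := by
  simp only [cr]
  ring

theorem cr_swap (a b : ℂ) : cr a b = - cr b a := by
  simp only [cr]
  ring

theorem cr_neg_left (a b : ℂ) : cr (-a) b = - cr a b := by
  simp only [cr, neg_re, neg_im]
  ring

theorem ip_I_right (a b : ℂ) : ip a (I * b) = - cr a b := by
  simp only [ip, cr, mul_re, mul_im, I_re, I_im]
  ring

theorem cont_ip (e : ℂ) : Continuous (fun z => ip z e) := by
  unfold ip
  exact (continuous_re.mul continuous_const).add (continuous_im.mul continuous_const)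

/-- moves which keep `p` nearest do not increase the maximal height -/
theorem move {A B : ℝ} {P : Finset ℂ} {z p e : ℂ} (hzB : z ∈ Box A B) (hzp : p ∈ Nr P z)
    (hmax : ∀ w ∈ Box A B, p ∈ Nr P w → ip w e ≤ ip z e) {u : ℂ}
    (hu : ∀ k : Fin 4, dw A B k z = 0 → ip u (nv k) ≤ 0)
    (hr : ∀ r ∈ Nr P z, ip u (r - p) ≤ 0) : ip u e ≤ 0 := by
  obtain ⟨ε₁, hε₁, h1⟩ := Box_move hzB hu
  obtain ⟨ε₂, hε₂, h2⟩ := Nr_stable P z
  have hu0 : 0 ≤ ‖u‖ := norm_nonneg u
  obtain ⟨t, ht0, ht1, ht2⟩ : ∃ t : ℝ, 0 < t ∧ t < ε₁ ∧ t * ‖u‖ < ε₂ := by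
    have h3 : 0 < ε₂ / (2 * (‖u‖ + 1)) := by positivity
    refine ⟨min (ε₁ / 2) (ε₂ / (2 * (‖u‖ + 1))), lt_min (by linarith) h3, ?_, ?_⟩
    · exact lt_of_le_of_lt (min_le_left _ _) (by linarith)
    · have h4 : min (ε₁ / 2) (ε₂ / (2 * (‖u‖ + 1))) * ‖u‖ ≤ ε₂ / (2 * (‖u‖ + 1)) * ‖u‖ :=
        mul_le_mul_of_nonneg_right (min_le_right _ _) hu0
      have h5 : ε₂ / (2 * (‖u‖ + 1)) * ‖u‖ < ε₂ := by
        rw [div_mul_eq_mul_div, div_lt_iff₀ (by positivity)]
        have : 0 < ε₂ * (‖u‖ + 2) := by positivity
        nlinarith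
      linarith
  have hz' := h1 t ht0.le ht1
  have hd : ‖z + (t : ℂ) * u - z‖ < ε₂ := by
    rw [add_sub_cancel_left, norm_mul, Complex.norm_real, Real.norm_eq_abs, abs_of_pos ht0]
    exact ht2
  have hsub := h2 _ hd
  have hpP : p ∈ P := (mem_Nr.mp hzp).1
  obtain ⟨r, hr'⟩ := Nr_nonempty (P := P) ⟨p, hpP⟩ (z + (t : ℂ) * u)
  have hrz := hsub hr'
  have h3 := sq_dist_move z (z + (t : ℂ) * u) p r
  have h4 : ‖z - r‖ = ‖z - p‖ := Nr_dist hrz hzp
  have h5 : ip (z + (t : ℂ) * u - z) (r - p) = t * ip u (r - p) := by
    simp only [ip, add_re, add_im, sub_re, sub_im, mul_re, mul_im, ofReal_re, ofReal_im]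
    ring
  have h6 : t * ip u (r - p) ≤ 0 := mul_nonpos_of_nonneg_of_nonpos ht0.le (hr r hrz)
  rw [h4, h5] at h3
  have h7 : ‖z + (t : ℂ) * u - p‖ ^ 2 ≤ ‖z + (t : ℂ) * u - r‖ ^ 2 := by linarith
  have h8 : ‖z + (t : ℂ) * u - p‖ ≤ ‖z + (t : ℂ) * u - r‖ :=
    (sq_le_sq₀ (norm_nonneg _) (norm_nonneg _)).mp h7
  have h9 : p ∈ Nr P (z + (t : ℂ) * u) :=
    mem_Nr.mpr ⟨hpP, fun q hq => h8.trans ((mem_Nr.mp hr').2 q hq)⟩
  have h10 := hmax _ hz' h9
  rw [ip_add_smul] at h10
  by_contra hcon
  push Not at hcon
  have := mul_pos ht0 hcon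
  linarith

/-- a highest point -/
theorem exists_max {A B : ℝ} {P : Finset ℂ} (h : Gen A B P) (e : ℂ) {p : ℂ} (hp : p ∈ P) :
    ∃ z ∈ Box A B, p ∈ Nr P z ∧ ∀ w ∈ Box A B, p ∈ Nr P w → ip w e ≤ ip z e := by
  have hBc : IsCompact (Box A B) := by
    have : Box A B = Set.Icc 0 A ×ℂ Set.Icc 0 B := by
      ext z
      simp only [Box, Set.mem_ofPred_eq, Complex.mem_reProdIm, Set.mem_Icc]
      tauto
    rw [this]
    exact isCompact_Icc.reProdIm isCompact_Icc
  have hc : IsClosed {w : ℂ | p ∈ Nr P w} := by
    have : {w : ℂ | p ∈ Nr P w} = ⋂ q ∈ P, {w : ℂ | ‖w - p‖ ≤ ‖w - q‖} := by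
      ext w
      simp only [Set.mem_ofPred_eq, mem_Nr, Set.mem_iInter]
      exact ⟨fun h => h.2, fun h => ⟨hp, h⟩⟩
    rw [this]
    refine isClosed_biInter fun q _ => ?_
    exact isClosed_le (continuous_id.sub continuous_const).norm
      (continuous_id.sub continuous_const).norm
  have hK : IsCompact (Box A B ∩ {w : ℂ | p ∈ Nr P w}) := hBc.inter_right hc
  have hne : (Box A B ∩ {w : ℂ | p ∈ Nr P w}).Nonempty := by
    refine ⟨p, h.sub p hp, ?_⟩
    show p ∈ Nr P p
    rw [Nr_self hp]
    exact Finset.mem_singleton_self p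
  obtain ⟨z, hz, hmax⟩ := hK.exists_isMaxOn hne (cont_ip e).continuousOn
  exact ⟨z, hz.1, hz.2, fun w hw hw' => hmax (⟨hw, hw'⟩ : w ∈ Box A B ∩ {w : ℂ | p ∈ Nr P w})⟩

theorem ip_I_nv_ne {P : Finset ℂ} {e : ℂ} (he : GenDir P e) (k : Fin 4) : ip (I * nv k) e ≠ 0 := by
  have h1 := he.1
  have h2 := he.2.1
  fin_cases k <;> simp [ip, nv, h1, h2]

theorem ip_I_nv_nv (k : Fin 4) : ip (I * nv k) (nv k) = 0 := by
  fin_cases k <;> simp [ip, nv]

theorem ip_sub_nv_ne {A B : ℝ} {P : Finset ℂ} (h : Gen A B P) {p q : ℂ} (hp : p ∈ P) (hq : q ∈ P)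
    (hpq : p ≠ q) (k : Fin 4) : ip (q - p) (I * nv k) ≠ 0 := by
  have h1 : (q - p).re ≠ 0 := fun h1 => by
    rw [sub_re, sub_eq_zero] at h1
    exact hpq (h.re_inj q hq p hp h1).symm
  have h2 : (q - p).im ≠ 0 := fun h1 => by
    rw [sub_im, sub_eq_zero] at h1
    exact hpq (h.im_inj q hq p hp h1).symm
  fin_cases k
  · simpa [ip, nv] using h2
  · intro h3
    apply h1
    simp [ip, nv] at h3 ⊢
    linarith
  · intro h3
    apply h2
    simp [ip, nv] at h3 ⊢
    linarith
  · intro h3
    apply h1
    simp [ip, nv] at h3 ⊢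
    linarith

/-- the walls through a corner -/
theorem corner_cases {A B : ℝ} (hA : 0 < A) (hB : 0 < B) {z : ℂ} {k l : Fin 4} (hkl : k ≠ l)
    (hk : dw A B k z = 0) (hl : dw A B l z = 0) :
    ∃ j : Fin 4, z = cor A B j ∧ ∀ i : Fin 4, dw A B i z = 0 → i = j ∨ i = j - 1 := by
  have d0 : dw A B 0 z = A - z.re := by simp [dw, cv, ip, nv]
  have d1 : dw A B 1 z = B - z.im := by simp [dw, cv, ip, nv]
  have d2 : dw A B 2 z = z.re := by simp [dw, cv, ip, nv]
  have d3 : dw A B 3 z = z.im := by simp [dw, cv, ip, nv]
  by_cases a0 : dw A B 0 z = 0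
  · by_cases a1 : dw A B 1 z = 0
    · refine ⟨1, ?_, ?_⟩
      · apply Complex.ext
        · simp [cor]
          linarith
        · simp [cor]
          linarith
      · intro i hi
        fin_cases i
        · right; rfl
        · left; rfl
        · exfalso
          have : dw A B 2 z = 0 := hi
          linarith
        · exfalso
          have : dw A B 3 z = 0 := hi
          linarith
    · by_cases a3 : dw A B 3 z = 0
      · refine ⟨0, ?_, ?_⟩
        · apply Complex.ext
          · simp [cor]
            linarith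
          · simp [cor]
            linarith
        · intro i hi
          fin_cases i
          · left; rfl
          · exact absurd hi a1
          · exfalso
            have : dw A B 2 z = 0 := hi
            linarith
          · right; rfl
      · exfalso
        have a2 : dw A B 2 z ≠ 0 := by
          intro a2
          linarith
        fin_cases k <;> fin_cases l <;> simp_all
  · by_cases a1 : dw A B 1 z = 0
    · by_cases a2 : dw A B 2 z = 0
      · refine ⟨2, ?_, ?_⟩
        · apply Complex.ext
          · simp [cor]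
            linarith
          · simp [cor]
            linarith
        · intro i hi
          fin_cases i
          · exact absurd hi a0
          · right; rfl
          · left; rfl
          · exfalso
            have : dw A B 3 z = 0 := hi
            linarith
      · exfalso
        have a3 : dw A B 3 z ≠ 0 := by
          intro a3
          linarith
        fin_cases k <;> fin_cases l <;> simp_all
    · by_cases a2 : dw A B 2 z = 0
      · by_cases a3 : dw A B 3 z = 0
        · refine ⟨3, ?_, ?_⟩
          · apply Complex.ext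
            · simp [cor]
              linarith
            · simp [cor]
              linarith
          · intro i hi
            fin_cases i
            · exact absurd hi a0
            · exact absurd hi a1
            · right; rfl
            · left; rfl
        · exfalso
          fin_cases k <;> fin_cases l <;> simp_all
      · exfalso
        fin_cases k <;> fin_cases l <;> simp_all

theorem corner_dirs (j : Fin 4) : ip (I * nv j) (nv (j - 1)) ≤ 0 ∧
    ip (I * nv (j - 1)) (nv j) = 1 := by
  fin_cases j
  · exact ⟨by simp [ip, nv], by simp [ip, nv]⟩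
  · exact ⟨by simp [ip, nv], by simp [ip, nv]⟩
  · exact ⟨by simp [ip, nv], by simp [ip, nv]⟩
  · exact ⟨by simp [ip, nv], by simp [ip, nv]⟩

end G06

theorem cell_top {A B : ℝ} {P : Finset ℂ} (h : Gen A B P) {e : ℂ} (he : GenDir P e) {p : ℂ}
    (hp : p ∈ P) :
    (∃ q r, (p, q, r) ∈ Tr A B P ∧ 0 < cr (q - p) e ∧ cr (r - p) e < 0) ∨
    (∃ k q, (p, q) ∈ Wp A B P k ∧ 0 < ip (I * nv k) e ∧ cr (q - p) e < 0) ∨
    (∃ k q, (q, p) ∈ Wp A B P k ∧ ip (I * nv k) e < 0 ∧ cr (p - q) e < 0) ∨
    (∃ k : Fin 4, p ∈ Nr P (cor A B k) ∧ ip (I * nv k) e < 0 ∧ 0 < ip (I * nv (k - 1)) e) := by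
  classical
  obtain ⟨z, hzB, hzp, hmax⟩ := G06.exists_max h e hp
  have mv := @G06.move A B P z p e hzB hzp hmax
  have hSP : ∀ r ∈ Nr P z, r ∈ P := fun r hr => (mem_Nr.mp hr).1
  have e0 : p - p = 0 := sub_self p
  -- sets of one or two elements
  have one : ∀ hc : (Nr P z).card ≤ 1, ∀ r ∈ Nr P z, r = p := fun hc r hr =>
    Finset.card_le_one.mp hc r hr p hzp
  by_cases hw : ∃ k, dw A B k z = 0
  · obtain ⟨k, hk⟩ := hw
    by_cases hw2 : ∃ l, l ≠ k ∧ dw A B l z = 0
    · -- corner
      obtain ⟨l, hlk, hl⟩ := hw2
      have hc := h.corner z hzB k l hlk.symm hk hl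
      obtain ⟨j, hj1, hj2⟩ := G06.corner_cases h.hA h.hB hlk.symm hk hl
      right; right; right
      refine ⟨j, by rw [← hj1]; exact hzp, ?_, ?_⟩
      · refine lt_of_le_of_ne (mv (u := I * nv j) ?_ ?_) (G06.ip_I_nv_ne he j)
        · intro i hi
          rcases hj2 i hi with rfl | rfl
          · rw [G06.ip_I_nv_nv]
          · exact (G06.corner_dirs j).1
        · intro r hr
          rw [one hc r hr, e0, G06.ip_zero_right]
      · have h1 : ip (-(I * nv (j - 1))) e ≤ 0 := by
          refine mv ?_ ?_
          · intro i hi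
            rcases hj2 i hi with rfl | rfl
            · rw [G06.ip_neg_left, (G06.corner_dirs i).2]
              norm_num
            · rw [G06.ip_neg_left, G06.ip_I_nv_nv]
              norm_num
          · intro r hr
            rw [one hc r hr, e0, G06.ip_zero_right]
        rw [G06.ip_neg_left] at h1
        exact lt_of_le_of_ne (by linarith) (G06.ip_I_nv_ne he (j - 1)).symm
    · -- one wall
      push Not at hw2
      have honly : ∀ i, dw A B i z = 0 → i = k := by
        intro i hi
        by_contra hik
        exact hw2 i hik hi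
      have hc := h.wall z hzB k hk
      by_cases hc1 : (Nr P z).card ≤ 1
      · exfalso
        have h1 : ip (I * nv k) e ≤ 0 := by
          refine mv ?_ ?_
          · intro i hi
            rw [honly i hi, G06.ip_I_nv_nv]
          · intro r hr
            rw [one hc1 r hr, e0, G06.ip_zero_right]
        have h2 : ip (-(I * nv k)) e ≤ 0 := by
          refine mv ?_ ?_
          · intro i hi
            rw [honly i hi, G06.ip_neg_left, G06.ip_I_nv_nv]
            norm_num
          · intro r hr
            rw [one hc1 r hr, e0, G06.ip_zero_right]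
        rw [G06.ip_neg_left] at h2
        exact G06.ip_I_nv_ne he k (le_antisymm h1 (by linarith))
      · -- two points
        have hc2 : (Nr P z).card = 2 := by omega
        obtain ⟨q, hqz, hqp, hS⟩ : ∃ q ∈ Nr P z, q ≠ p ∧ ∀ r ∈ Nr P z, r = p ∨ r = q := by
          obtain ⟨x, y, hxy, hxyS⟩ := Finset.card_eq_two.mp hc2
          rw [hxyS] at hzp ⊢
          rw [Finset.mem_insert, Finset.mem_singleton] at hzp
          rcases hzp with rfl | rfl
          · exact ⟨y, by simp, hxy.symm, by simp⟩
          · exact ⟨x, by simp, hxy, by simp⟩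
        have hs := G06.ip_sub_nv_ne h hp (hSP q hqz) hqp.symm k
        have hcre : cr (q - p) e ≠ 0 := he.2.2 p hp q (hSP q hqz) hqp.symm
        rcases lt_or_gt_of_ne hs with hs | hs
        · -- `s < 0`
          right; right; left
          refine ⟨k, q, mem_Wp.mpr ⟨⟨hSP q hqz, hp⟩, ?_, z, hzB, hk, hqz, hzp⟩, ?_, ?_⟩
          · show 0 < ip (p - q) (I * nv k)
            have : ip (p - q) (I * nv k) = - ip (q - p) (I * nv k) := by
              rw [← G06.ip_neg_left, neg_sub]
            rw [this]
            linarith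
          · refine lt_of_le_of_ne (mv ?_ ?_) (G06.ip_I_nv_ne he k)
            · intro i hi
              rw [honly i hi, G06.ip_I_nv_nv]
            · intro r hr
              rcases hS r hr with rfl | rfl
              · rw [e0, G06.ip_zero_right]
              · have : ip (I * nv k) (r - p) = ip (r - p) (I * nv k) := by
                  simp only [ip]
                  ring
                rw [this]
                exact hs.le
          · have h1 : ip (I * (p - q)) e ≤ 0 := by
              refine mv ?_ ?_
              · intro i hi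
                rw [honly i hi, ip_I_mul]
                have h2 := G06.ip_I_right (p - q) (nv k)
                have h3 : ip (p - q) (I * nv k) = - ip (q - p) (I * nv k) := by
                  rw [← G06.ip_neg_left, neg_sub]
                linarith
              · intro r hr
                rcases hS r hr with rfl | rfl
                · rw [e0, G06.ip_zero_right]
                · rw [ip_I_mul]
                  have h2 : cr (p - r) (r - p) = 0 := by
                    simp only [cr, sub_re, sub_im]
                    ring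
                  rw [h2]
            rw [ip_I_mul] at h1
            refine lt_of_le_of_ne h1 ?_
            have h2 : cr (p - q) e = - cr (q - p) e := by
              rw [← G06.cr_neg_left, neg_sub]
            rw [h2]
            exact neg_ne_zero.mpr hcre
        · -- `s > 0`
          right; left
          refine ⟨k, q, mem_Wp.mpr ⟨⟨hp, hSP q hqz⟩, hs, z, hzB, hk, hzp, hqz⟩, ?_, ?_⟩
          · have h1 : ip (-(I * nv k)) e ≤ 0 := by
              refine mv ?_ ?_
              · intro i hi
                rw [honly i hi, G06.ip_neg_left, G06.ip_I_nv_nv]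
                norm_num
              · intro r hr
                rcases hS r hr with rfl | rfl
                · rw [e0, G06.ip_zero_right]
                · have : ip (-(I * nv k)) (r - p) = - ip (r - p) (I * nv k) := by
                    simp only [ip, neg_re, neg_im]
                    ring
                  rw [this]
                  linarith
            rw [G06.ip_neg_left] at h1
            exact lt_of_le_of_ne (by linarith) (G06.ip_I_nv_ne he k).symm
          · have h1 : ip (I * (q - p)) e ≤ 0 := by
              refine mv ?_ ?_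
              · intro i hi
                rw [honly i hi, ip_I_mul]
                have h2 := G06.ip_I_right (q - p) (nv k)
                linarith
              · intro r hr
                rcases hS r hr with rfl | rfl
                · rw [e0, G06.ip_zero_right]
                · rw [ip_I_mul, G06.cr_self]
            rw [ip_I_mul] at h1
            exact lt_of_le_of_ne h1 hcre
  · -- no wall
    push Not at hw
    have hno : ∀ u : ℂ, ∀ k : Fin 4, dw A B k z = 0 → ip u (nv k) ≤ 0 :=
      fun u k hk => absurd hk (hw k)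
    have hc := h.four z hzB
    by_cases hc1 : (Nr P z).card ≤ 1
    · exfalso
      have h1 : ip e e ≤ 0 := by
        refine mv (hno e) ?_
        intro r hr
        rw [one hc1 r hr, e0, G06.ip_zero_right]
      have h2 : 0 < e.re * e.re := mul_self_pos.mpr he.1
      have h3 : 0 ≤ e.im * e.im := mul_self_nonneg _
      unfold ip at h1
      linarith
    · by_cases hc2 : (Nr P z).card = 2
      · exfalso
        obtain ⟨q, hqz, hqp, hS⟩ : ∃ q ∈ Nr P z, q ≠ p ∧ ∀ r ∈ Nr P z, r = p ∨ r = q := by
          obtain ⟨x, y, hxy, hxyS⟩ := Finset.card_eq_two.mp hc2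
          rw [hxyS] at hzp ⊢
          rw [Finset.mem_insert, Finset.mem_singleton] at hzp
          rcases hzp with rfl | rfl
          · exact ⟨y, by simp, hxy.symm, by simp⟩
          · exact ⟨x, by simp, hxy, by simp⟩
        have h1 : ip (I * (q - p)) e ≤ 0 := by
          refine mv (hno _) ?_
          intro r hr
          rcases hS r hr with rfl | rfl
          · rw [e0, G06.ip_zero_right]
          · rw [ip_I_mul, G06.cr_self]
        have h2 : ip (-(I * (q - p))) e ≤ 0 := by
          refine mv (hno _) ?_
          intro r hr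
          rcases hS r hr with rfl | rfl
          · rw [e0, G06.ip_zero_right]
          · rw [G06.ip_neg_left, ip_I_mul, G06.cr_self]
            norm_num
        rw [G06.ip_neg_left, ip_I_mul] at h2
        rw [ip_I_mul] at h1
        exact he.2.2 p hp q (hSP q hqz) hqp.symm (le_antisymm h1 (by linarith))
      · have hc3 : (Nr P z).card = 3 := by omega
        obtain ⟨q, r, hqz, hrz, hqp, hrp, hqr, hS⟩ : ∃ q r, q ∈ Nr P z ∧ r ∈ Nr P z ∧ q ≠ p ∧
            r ≠ p ∧ q ≠ r ∧ ∀ x ∈ Nr P z, x = p ∨ x = q ∨ x = r := by
          obtain ⟨a, b, c, hab, hac, hbc, hS⟩ := Finset.card_eq_three.mp hc3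
          rw [hS] at hzp ⊢
          rw [Finset.mem_insert, Finset.mem_insert, Finset.mem_singleton] at hzp
          rcases hzp with rfl | rfl | rfl
          · exact ⟨b, c, by simp, by simp, hab.symm, hac.symm, hbc, by simp⟩
          · exact ⟨a, c, by simp, by simp, hab, hbc.symm, hac, by simp⟩
          · exact ⟨a, b, by simp, by simp, hac, hbc, hab, by simp⟩
        have key : ∀ q r, q ∈ Nr P z → r ∈ Nr P z → q ≠ p → r ≠ p →
            (∀ x ∈ Nr P z, x = p ∨ x = q ∨ x = r) → 0 < cr (q - p) (r - p) →
            ∃ q r, (p, q, r) ∈ Tr A B P ∧ 0 < cr (q - p) e ∧ cr (r - p) e < 0 := by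
          intro q r hqz hrz hqp hrp hS hcr
          refine ⟨q, r, mem_Tr.mpr ⟨⟨hp, hSP q hqz, hSP r hrz⟩, hcr, z, hzB, hzp, hqz, hrz⟩,
            ?_, ?_⟩
          · have h1 : ip (-(I * (q - p))) e ≤ 0 := by
              refine mv (hno _) ?_
              intro x hx
              rcases hS x hx with rfl | rfl | rfl
              · rw [e0, G06.ip_zero_right]
              · rw [G06.ip_neg_left, ip_I_mul, G06.cr_self]
                norm_num
              · rw [G06.ip_neg_left, ip_I_mul]
                linarith
            rw [G06.ip_neg_left, ip_I_mul] at h1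
            exact lt_of_le_of_ne (by linarith) (he.2.2 p hp q (hSP q hqz) hqp.symm).symm
          · have h1 : ip (I * (r - p)) e ≤ 0 := by
              refine mv (hno _) ?_
              intro x hx
              rcases hS x hx with rfl | rfl | rfl
              · rw [e0, G06.ip_zero_right]
              · rw [ip_I_mul, G06.cr_swap]
                linarith
              · rw [ip_I_mul, G06.cr_self]
            rw [ip_I_mul] at h1
            exact lt_of_le_of_ne h1 (he.2.2 p hp r (hSP r hrz) hrp.symm)
        left
        have hne : cr (q - p) (r - p) ≠ 0 :=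
          cr_ne_zero_of_circle hqp.symm hqr hrp.symm (Nr_dist hzp hqz) (Nr_dist hzp hrz)
        rcases lt_or_gt_of_ne hne with hneg | hpos
        · refine key r q hrz hqz hrp hqp (fun x hx => ?_) ?_
          · rcases hS x hx with h | h | h
            · exact Or.inl h
            · exact Or.inr (Or.inr h)
            · exact Or.inr (Or.inl h)
          · rw [G06.cr_swap]
            linarith
        · exact key q r hqz hrz hqp hrp hS hpos

end Pool.Agent.LG
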