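import Pool.Agent.Lib.MP_8026b0_co.G03
import Pool.Agent.Lib.MP_8026b0_co.G06

set_option autoImplicit false

/-! Row G07: the counting inequality (half of Euler's formula). -/

namespace Pool.Agent.LG

open Complex

theorem G07.cr_neg_right (z w : ℂ) : cr z (-w) = -cr z w := by
  unfold cr
  simp
  ring

theorem G07.ip_neg_right (z w : ℂ) : ip z (-w) = -ip z w := by
  unfold ip
  simp
  ring

/-- the condition in the fourth alternative -/
theorem G07.corner_cond (e : ℂ) (k : Fin 4) :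
    (ip (I * nv k) e < 0 ∧ 0 < ip (I * nv (k - 1)) e) ↔
      (k = 0 ∧ 0 < e.re ∧ e.im < 0) ∨ (k = 1 ∧ 0 < e.re ∧ 0 < e.im) ∨
      (k = 2 ∧ e.re < 0 ∧ 0 < e.im) ∨ (k = 3 ∧ e.re < 0 ∧ e.im < 0) := by
  have h0 : (0 : Fin 4) - 1 = 3 := rfl
  have h1 : (1 : Fin 4) - 1 = 0 := rfl
  have h2 : (2 : Fin 4) - 1 = 1 := rfl
  have h3 : (3 : Fin 4) - 1 = 2 := rfl
  fin_cases k
  · show (ip (I * nv 0) e < 0 ∧ 0 < ip (I * nv ((0 : Fin 4) - 1)) e) ↔ _
    rw [h0]
    simp [ip, nv, and_comm]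
  · show (ip (I * nv 1) e < 0 ∧ 0 < ip (I * nv ((1 : Fin 4) - 1)) e) ↔ _
    rw [h1]
    simp [ip, nv]
  · show (ip (I * nv 2) e < 0 ∧ 0 < ip (I * nv ((2 : Fin 4) - 1)) e) ↔ _
    rw [h2]
    simp [ip, nv, and_comm]
  · show (ip (I * nv 3) e < 0 ∧ 0 < ip (I * nv ((3 : Fin 4) - 1)) e) ↔ _
    rw [h3]
    simp [ip, nv]

theorem G07.corner_card {A B : ℝ} {P : Finset ℂ} (h : Gen A B P) (k : Fin 4) :
    (Nr P (cor A B k)).card ≤ 1 := by
  have hA := h.hA.le
  have hB := h.hB.le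
  have hk : k ≠ k - 1 := by
    fin_cases k <;> decide
  refine h.corner (cor A B k) ?_ k (k - 1) hk ?_ ?_
  · fin_cases k <;> simp [cor, Box, hA, hB]
  · fin_cases k <;> simp [cor, dw, cv, ip, nv]
  · fin_cases k
    · show dw A B ((0 : Fin 4) - 1) (cor A B 0) = 0
      rw [show (0 : Fin 4) - 1 = 3 from rfl]
      simp [cor, dw, cv, ip, nv]
    · show dw A B ((1 : Fin 4) - 1) (cor A B 1) = 0
      rw [show (1 : Fin 4) - 1 = 0 from rfl]
      simp [cor, dw, cv, ip, nv]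
    · show dw A B ((2 : Fin 4) - 1) (cor A B 2) = 0
      rw [show (2 : Fin 4) - 1 = 1 from rfl]
      simp [cor, dw, cv, ip, nv]
    · show dw A B ((3 : Fin 4) - 1) (cor A B 3) = 0
      rw [show (3 : Fin 4) - 1 = 2 from rfl]
      simp [cor, dw, cv, ip, nv]

open Classical in
theorem G07.upper {A B : ℝ} {P : Finset ℂ} (h : Gen A B P) {e : ℂ} (he : GenDir P e) :
    P.card ≤ ((Tr A B P).filter (fun t => 0 < cr (t.2.1 - t.1) e ∧ cr (t.2.2 - t.1) e < 0)).card
      + ∑ k : Fin 4,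
        (((Wp A B P k).filter (fun x => 0 < ip (I * nv k) e ∧ cr (x.2 - x.1) e < 0)).card
        + ((Wp A B P k).filter (fun x => ip (I * nv k) e < 0 ∧ cr (x.2 - x.1) e < 0)).card)
      + 1 := by
  set S1 := ((Tr A B P).filter (fun t => 0 < cr (t.2.1 - t.1) e ∧ cr (t.2.2 - t.1) e < 0)).image
    Prod.fst with hS1
  set S2 := (Finset.univ : Finset (Fin 4)).biUnion (fun k =>
    ((Wp A B P k).filter (fun x => 0 < ip (I * nv k) e ∧ cr (x.2 - x.1) e < 0)).image
      Prod.fst) with hS2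
  set S3 := (Finset.univ : Finset (Fin 4)).biUnion (fun k =>
    ((Wp A B P k).filter (fun x => ip (I * nv k) e < 0 ∧ cr (x.2 - x.1) e < 0)).image
      Prod.snd) with hS3
  set S4 := (Finset.univ : Finset (Fin 4)).biUnion (fun k =>
    if (ip (I * nv k) e < 0 ∧ 0 < ip (I * nv (k - 1)) e) then Nr P (cor A B k) else ∅) with hS4
  have hsub : P ⊆ ((S1 ∪ S2) ∪ S3) ∪ S4 := by
    intro p hp
    rw [Finset.mem_union, Finset.mem_union, Finset.mem_union]
    rcases cell_top h he hp with ⟨q, r, h1, h2, h3⟩ | ⟨k, q, h1, h2, h3⟩ | ⟨k, q, h1, h2, h3⟩ |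
      ⟨k, h1, h2, h3⟩
    · left; left; left
      rw [hS1, Finset.mem_image]
      exact ⟨(p, q, r), Finset.mem_filter.mpr ⟨h1, h2, h3⟩, rfl⟩
    · left; left; right
      rw [hS2, Finset.mem_biUnion]
      exact ⟨k, Finset.mem_univ _, Finset.mem_image.mpr
        ⟨(p, q), Finset.mem_filter.mpr ⟨h1, h2, h3⟩, rfl⟩⟩
    · left; right
      rw [hS3, Finset.mem_biUnion]
      exact ⟨k, Finset.mem_univ _, Finset.mem_image.mpr
        ⟨(q, p), Finset.mem_filter.mpr ⟨h1, h2, h3⟩, rfl⟩⟩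
    · right
      rw [hS4, Finset.mem_biUnion]
      exact ⟨k, Finset.mem_univ _, by rw [if_pos ⟨h2, h3⟩]; exact h1⟩
  have c1 : S1.card ≤ ((Tr A B P).filter
      (fun t => 0 < cr (t.2.1 - t.1) e ∧ cr (t.2.2 - t.1) e < 0)).card := Finset.card_image_le
  have c2 : S2.card ≤ ∑ k : Fin 4,
      ((Wp A B P k).filter (fun x => 0 < ip (I * nv k) e ∧ cr (x.2 - x.1) e < 0)).card :=
    Finset.card_biUnion_le.trans (Finset.sum_le_sum (fun k _ => Finset.card_image_le))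
  have c3 : S3.card ≤ ∑ k : Fin 4,
      ((Wp A B P k).filter (fun x => ip (I * nv k) e < 0 ∧ cr (x.2 - x.1) e < 0)).card :=
    Finset.card_biUnion_le.trans (Finset.sum_le_sum (fun k _ => Finset.card_image_le))
  have c4 : S4.card ≤ 1 := by
    refine Finset.card_biUnion_le.trans ?_
    have hc : ∀ k : Fin 4, (if (ip (I * nv k) e < 0 ∧ 0 < ip (I * nv (k - 1)) e) then
        Nr P (cor A B k) else ∅).card ≤
        if ((k = 0 ∧ 0 < e.re ∧ e.im < 0) ∨ (k = 1 ∧ 0 < e.re ∧ 0 < e.im) ∨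
          (k = 2 ∧ e.re < 0 ∧ 0 < e.im) ∨ (k = 3 ∧ e.re < 0 ∧ e.im < 0)) then 1 else 0 := by
      intro k
      by_cases hk : (ip (I * nv k) e < 0 ∧ 0 < ip (I * nv (k - 1)) e)
      · rw [if_pos hk, if_pos ((G07.corner_cond e k).mp hk)]
        exact G07.corner_card h k
      · rw [if_neg hk]
        simp
    refine (Finset.sum_le_sum (fun k _ => hc k)).trans ?_
    rw [Fin.sum_univ_four]
    have e1 := he.1
    have e2 := he.2.1
    rcases lt_or_gt_of_ne e1 with a | a <;> rcases lt_or_gt_of_ne e2 with b | b <;>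
      simp [a, b, a.not_gt, b.not_gt]
  calc P.card ≤ (((S1 ∪ S2) ∪ S3) ∪ S4).card := Finset.card_le_card hsub
    _ ≤ ((S1 ∪ S2) ∪ S3).card + S4.card := Finset.card_union_le _ _
    _ ≤ ((S1 ∪ S2).card + S3.card) + S4.card :=
        Nat.add_le_add_right (Finset.card_union_le _ _) _
    _ ≤ ((S1.card + S2.card) + S3.card) + S4.card := by
        have := Finset.card_union_le S1 S2
        omega
    _ ≤ _ := by
        rw [Finset.sum_add_distrib]
        omega

open Classical in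
theorem G07.tri {A B : ℝ} {P : Finset ℂ} {e : ℂ} :
    3 * (((Tr A B P).filter (fun t => 0 < cr (t.2.1 - t.1) e ∧ cr (t.2.2 - t.1) e < 0)).card +
      ((Tr A B P).filter (fun t => 0 < cr (t.2.1 - t.1) (-e) ∧ cr (t.2.2 - t.1) (-e) < 0)).card) ≤
      (Tr A B P).card := by
  set f : ℂ × ℂ × ℂ → ℝ := fun t =>
    (if 0 < cr (t.2.1 - t.1) e ∧ cr (t.2.2 - t.1) e < 0 then (1 : ℝ) else 0) +
    (if 0 < cr (t.2.1 - t.1) (-e) ∧ cr (t.2.2 - t.1) (-e) < 0 then (1 : ℝ) else 0) with hf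
  have h1 : ((((Tr A B P).filter
      (fun t => 0 < cr (t.2.1 - t.1) e ∧ cr (t.2.2 - t.1) e < 0)).card +
      ((Tr A B P).filter (fun t => 0 < cr (t.2.1 - t.1) (-e) ∧
        cr (t.2.2 - t.1) (-e) < 0)).card : ℕ) : ℝ) = ∑ t ∈ Tr A B P, f t := by
    rw [hf, Finset.sum_add_distrib]
    push_cast
    rw [Finset.sum_boole, Finset.sum_boole]
  have h2 : ∑ t ∈ Tr A B P, f (t.2.1, t.2.2, t.1) = ∑ t ∈ Tr A B P, f t := Tr_sum_rot f
  have h3 : ∑ t ∈ Tr A B P, f (t.2.2, t.1, t.2.1) = ∑ t ∈ Tr A B P, f t := by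
    rw [← h2]
    exact Tr_sum_rot (fun t => f (t.2.1, t.2.2, t.1))
  have h4 : ∀ t ∈ Tr A B P, f t + f (t.2.1, t.2.2, t.1) + f (t.2.2, t.1, t.2.1) ≤ 1 := by
    intro t _
    simp only [hf, G07.cr_neg_right]
    have s1 : cr (t.2.2 - t.2.1) e = cr (t.2.2 - t.1) e - cr (t.2.1 - t.1) e := by
      unfold cr; simp; ring
    have s2 : cr (t.1 - t.2.1) e = - cr (t.2.1 - t.1) e := by
      unfold cr; simp; ring
    have s3 : cr (t.1 - t.2.2) e = - cr (t.2.2 - t.1) e := by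
      unfold cr; simp; ring
    have s4 : cr (t.2.1 - t.2.2) e = cr (t.2.1 - t.1) e - cr (t.2.2 - t.1) e := by
      unfold cr; simp; ring
    rw [s1, s2, s3, s4]
    generalize cr (t.2.1 - t.1) e = x
    generalize cr (t.2.2 - t.1) e = y
    grind
  have h5 : 3 * ∑ t ∈ Tr A B P, f t ≤ (Tr A B P).card := by
    have h6 : ∑ t ∈ Tr A B P, (f t + f (t.2.1, t.2.2, t.1) + f (t.2.2, t.1, t.2.1)) ≤
        ∑ t ∈ Tr A B P, (1 : ℝ) := Finset.sum_le_sum h4
    rw [Finset.sum_add_distrib, Finset.sum_add_distrib, h2, h3] at h6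
    simp only [Finset.sum_const, nsmul_eq_mul, mul_one] at h6
    linarith
  rw [← h1] at h5
  exact_mod_cast h5

open Classical in
theorem G07.pair {A B : ℝ} {P : Finset ℂ} {e : ℂ} (k : Fin 4) :
    ((Wp A B P k).filter (fun x => 0 < ip (I * nv k) e ∧ cr (x.2 - x.1) e < 0)).card
      + ((Wp A B P k).filter (fun x => ip (I * nv k) e < 0 ∧ cr (x.2 - x.1) e < 0)).card
      + (((Wp A B P k).filter (fun x => 0 < ip (I * nv k) (-e) ∧ cr (x.2 - x.1) (-e) < 0)).card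
      + ((Wp A B P k).filter (fun x => ip (I * nv k) (-e) < 0 ∧ cr (x.2 - x.1) (-e) < 0)).card)
      ≤ (Wp A B P k).card := by
  simp only [Finset.card_filter]
  rw [← Finset.sum_add_distrib, ← Finset.sum_add_distrib, ← Finset.sum_add_distrib,
    Finset.card_eq_sum_ones]
  apply Finset.sum_le_sum
  intro x _
  rw [G07.cr_neg_right, G07.ip_neg_right]
  generalize cr (x.2 - x.1) e = u
  generalize ip (I * nv k) e = v
  grind

theorem count_le {A B : ℝ} {P : Finset ℂ} (h : Gen A B P) :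
    6 * P.card ≤ (Tr A B P).card + 3 * ∑ k : Fin 4, (Wp A B P k).card + 6 := by
  classical
  obtain ⟨e, he⟩ := exists_genDir P
  have h1 := G07.upper h he
  have h2 := G07.upper h he.neg
  have h3 := G07.tri (A := A) (B := B) (P := P) (e := e)
  have h4 := Finset.sum_le_sum (s := (Finset.univ : Finset (Fin 4)))
    (fun k _ => G07.pair (A := A) (B := B) (P := P) (e := e) k)
  rw [Finset.sum_add_distrib] at h4
  omega

end Pool.Agent.LG
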