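import Pool.Agent.Lib.MP_8026b0_co.G03
import Pool.Agent.Lib.MP_8026b0_co.G05
import Pool.Agent.Lib.MP_8026b0_co.G07

set_option autoImplicit false

/-! Row G08: the deficiency inequality. -/

namespace Pool.Agent.LG

open Complex

namespace G08

theorem cr_tri (p q r : ℂ) : cr (q - p) (r - p) = cr p q + cr q r + cr r p := by
  simp only [cr, sub_re, sub_im]
  ring

theorem cr_anti (p q : ℂ) : cr q p = - cr p q := by
  simp only [cr]
  ring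

theorem sum_ex (s : Finset (ℂ × ℂ × ℂ)) :
    ∑ t ∈ s, ex t = (∑ t ∈ s, cr (t.2.1 - t.1) (t.2.2 - t.1)) / Real.sqrt 3 - (s.card : ℝ) / 2 := by
  simp only [ex]
  rw [Finset.sum_sub_distrib, Finset.sum_div, Finset.sum_const, nsmul_eq_mul]
  ring

theorem sum_cost (A B : ℝ) (k : Fin 4) (s : Finset (ℂ × ℂ)) :
    ∑ e ∈ s, cost A B k e = (∑ e ∈ s, (dw A B k e.1 + dw A B k e.2) * ip (e.2 - e.1) (I * nv k)) /
      Real.sqrt 3 + ((∑ e ∈ s, ip (e.2 - e.1) (I * nv k)) - (s.card : ℝ)) / 2 := by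
  have h : ∀ e ∈ s, cost A B k e =
      ((dw A B k e.1 + dw A B k e.2) * ip (e.2 - e.1) (I * nv k)) / Real.sqrt 3 +
        (1 / 2) * ip (e.2 - e.1) (I * nv k) - 1 / 2 := by
    intro e _
    simp only [cost]
    ring
  rw [Finset.sum_congr rfl h, Finset.sum_sub_distrib, Finset.sum_add_distrib, Finset.sum_const,
    nsmul_eq_mul, ← Finset.sum_div, ← Finset.mul_sum]
  ring

theorem w0 (A B : ℝ) (p q : ℂ) : cr p q + (dw A B 0 p + dw A B 0 q) * ip (q - p) (I * nv 0) =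
    (2 * A * q.im - q.re * q.im) - (2 * A * p.im - p.re * p.im) := by
  simp [cr, dw, ip, nv, cv]
  ring

theorem w1 (A B : ℝ) (p q : ℂ) : cr p q + (dw A B 1 p + dw A B 1 q) * ip (q - p) (I * nv 1) =
    (-2 * B * q.re + q.re * q.im) - (-2 * B * p.re + p.re * p.im) := by
  simp [cr, dw, ip, nv, cv]
  ring

theorem w2 (A B : ℝ) (p q : ℂ) : cr p q + (dw A B 2 p + dw A B 2 q) * ip (q - p) (I * nv 2) =
    (- (q.re * q.im)) - (- (p.re * p.im)) := by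
  simp [cr, dw, ip, nv, cv]
  ring

theorem w3 (A B : ℝ) (p q : ℂ) : cr p q + (dw A B 3 p + dw A B 3 q) * ip (q - p) (I * nv 3) =
    (q.re * q.im) - (p.re * p.im) := by
  simp [cr, dw, ip, nv, cv]
  ring

theorem y0 (p q : ℂ) : ip (q - p) (I * nv 0) = q.im - p.im := by
  simp [ip, nv]

theorem y1 (p q : ℂ) : ip (q - p) (I * nv 1) = (-q.re) - (-p.re) := by
  simp [ip, nv]
  ring

theorem y2 (p q : ℂ) : ip (q - p) (I * nv 2) = (-q.im) - (-p.im) := by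
  simp [ip, nv]
  ring

theorem y3 (p q : ℂ) : ip (q - p) (I * nv 3) = q.re - p.re := by
  simp [ip, nv]

end G08

open G08 in
theorem deficiency {A B : ℝ} {P : Finset ℂ} (h : Gen A B P) :
    (∑ t ∈ Tr A B P, ex t) / 3 + ∑ k : Fin 4, ∑ e ∈ Wp A B P k, cost A B k e
      ≤ 2 / Real.sqrt 3 * A * B + A + B + 1 - (P.card : ℝ) := by
  have hs : 0 < Real.sqrt 3 := by positivity
  have hne : ∀ k : Fin 4, ∃ c, c ∈ Nr P (cor A B k) := fun k => Nr_nonempty h.nonempty _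
  choose c hc using hne
  have hbox : ∀ k, c k ∈ Box A B := fun k => h.sub _ (mem_Nr.1 (hc k)).1
  have t0 : ∀ φ : ℂ → ℝ, ∑ e ∈ Wp A B P 0, (φ e.2 - φ e.1) = φ (c 1) - φ (c 0) :=
    fun φ => tel h φ 0 (hc 0) (hc 1)
  have t1 : ∀ φ : ℂ → ℝ, ∑ e ∈ Wp A B P 1, (φ e.2 - φ e.1) = φ (c 2) - φ (c 1) :=
    fun φ => tel h φ 1 (hc 1) (hc 2)
  have t2 : ∀ φ : ℂ → ℝ, ∑ e ∈ Wp A B P 2, (φ e.2 - φ e.1) = φ (c 3) - φ (c 2) :=
    fun φ => tel h φ 2 (hc 2) (hc 3)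
  have t3 : ∀ φ : ℂ → ℝ, ∑ e ∈ Wp A B P 3, (φ e.2 - φ e.1) = φ (c 0) - φ (c 3) :=
    fun φ => tel h φ 3 (hc 3) (hc 0)
  have hcyc := star_cyc h cr (fun p q => cr_anti p q)
  have hcyc' : ∑ t ∈ Tr A B P, cr (t.2.1 - t.1) (t.2.2 - t.1) =
      3 * ∑ k : Fin 4, ∑ e ∈ Wp A B P k, cr e.1 e.2 := by
    rw [← hcyc]
    exact Finset.sum_congr rfl fun t _ => cr_tri _ _ _
  have hcount := count_le h
  have hcount' : 6 * (P.card : ℝ) ≤ ((Tr A B P).card : ℝ) +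
      3 * (((Wp A B P 0).card : ℝ) + (Wp A B P 1).card + (Wp A B P 2).card + (Wp A B P 3).card) + 6 := by
    rw [Fin.sum_univ_four] at hcount
    exact_mod_cast hcount
  rw [Fin.sum_univ_four] at hcyc'
  rw [Fin.sum_univ_four, sum_ex, sum_cost, sum_cost, sum_cost, sum_cost, hcyc']
  -- telescoping
  have s0 : ∑ e ∈ Wp A B P 0, cr e.1 e.2 +
      ∑ e ∈ Wp A B P 0, (dw A B 0 e.1 + dw A B 0 e.2) * ip (e.2 - e.1) (I * nv 0) =
      (2 * A * (c 1).im - (c 1).re * (c 1).im) - (2 * A * (c 0).im - (c 0).re * (c 0).im) := by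
    rw [← Finset.sum_add_distrib, ← t0 (fun z => 2 * A * z.im - z.re * z.im)]
    exact Finset.sum_congr rfl fun e _ => w0 A B e.1 e.2
  have s1 : ∑ e ∈ Wp A B P 1, cr e.1 e.2 +
      ∑ e ∈ Wp A B P 1, (dw A B 1 e.1 + dw A B 1 e.2) * ip (e.2 - e.1) (I * nv 1) =
      (-2 * B * (c 2).re + (c 2).re * (c 2).im) - (-2 * B * (c 1).re + (c 1).re * (c 1).im) := by
    rw [← Finset.sum_add_distrib, ← t1 (fun z => -2 * B * z.re + z.re * z.im)]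
    exact Finset.sum_congr rfl fun e _ => w1 A B e.1 e.2
  have s2 : ∑ e ∈ Wp A B P 2, cr e.1 e.2 +
      ∑ e ∈ Wp A B P 2, (dw A B 2 e.1 + dw A B 2 e.2) * ip (e.2 - e.1) (I * nv 2) =
      (- ((c 3).re * (c 3).im)) - (- ((c 2).re * (c 2).im)) := by
    rw [← Finset.sum_add_distrib, ← t2 (fun z => - (z.re * z.im))]
    exact Finset.sum_congr rfl fun e _ => w2 A B e.1 e.2
  have s3 : ∑ e ∈ Wp A B P 3, cr e.1 e.2 +
      ∑ e ∈ Wp A B P 3, (dw A B 3 e.1 + dw A B 3 e.2) * ip (e.2 - e.1) (I * nv 3) =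
      ((c 0).re * (c 0).im) - ((c 3).re * (c 3).im) := by
    rw [← Finset.sum_add_distrib, ← t3 (fun z => z.re * z.im)]
    exact Finset.sum_congr rfl fun e _ => w3 A B e.1 e.2
  have r0 : ∑ e ∈ Wp A B P 0, ip (e.2 - e.1) (I * nv 0) = (c 1).im - (c 0).im := by
    rw [← t0 (fun z => z.im)]
    exact Finset.sum_congr rfl fun e _ => y0 e.1 e.2
  have r1 : ∑ e ∈ Wp A B P 1, ip (e.2 - e.1) (I * nv 1) = (-(c 2).re) - (-(c 1).re) := by
    rw [← t1 (fun z => -z.re)]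
    exact Finset.sum_congr rfl fun e _ => y1 e.1 e.2
  have r2 : ∑ e ∈ Wp A B P 2, ip (e.2 - e.1) (I * nv 2) = (-(c 3).im) - (-(c 2).im) := by
    rw [← t2 (fun z => -z.im)]
    exact Finset.sum_congr rfl fun e _ => y2 e.1 e.2
  have r3 : ∑ e ∈ Wp A B P 3, ip (e.2 - e.1) (I * nv 3) = (c 0).re - (c 3).re := by
    rw [← t3 (fun z => z.re)]
    exact Finset.sum_congr rfl fun e _ => y3 e.1 e.2
  rw [r0, r1, r2, r3]
  obtain ⟨a1, a2, a3, a4⟩ := hbox 0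
  obtain ⟨b1, b2, b3, b4⟩ := hbox 1
  obtain ⟨c1, c2, c3, c4⟩ := hbox 2
  obtain ⟨d1, d2, d3, d4⟩ := hbox 3
  -- the total of the areas
  have htot : (∑ e ∈ Wp A B P 0, cr e.1 e.2 +
      ∑ e ∈ Wp A B P 0, (dw A B 0 e.1 + dw A B 0 e.2) * ip (e.2 - e.1) (I * nv 0)) +
      (∑ e ∈ Wp A B P 1, cr e.1 e.2 +
      ∑ e ∈ Wp A B P 1, (dw A B 1 e.1 + dw A B 1 e.2) * ip (e.2 - e.1) (I * nv 1)) +
      (∑ e ∈ Wp A B P 2, cr e.1 e.2 +
      ∑ e ∈ Wp A B P 2, (dw A B 2 e.1 + dw A B 2 e.2) * ip (e.2 - e.1) (I * nv 2)) +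
      (∑ e ∈ Wp A B P 3, cr e.1 e.2 +
      ∑ e ∈ Wp A B P 3, (dw A B 3 e.1 + dw A B 3 e.2) * ip (e.2 - e.1) (I * nv 3)) ≤ 2 * A * B := by
    rw [s0, s1, s2, s3]
    nlinarith [mul_nonneg (sub_nonneg.2 b2) (sub_nonneg.2 b4), mul_nonneg (sub_nonneg.2 a2) a3,
      mul_nonneg c1 (sub_nonneg.2 c4), mul_nonneg d1 d3]
  have hdiv := div_le_div_of_nonneg_right htot hs.le
  have hlin : 2 / Real.sqrt 3 * A * B = 2 * A * B / Real.sqrt 3 := by ring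
  rw [hlin]
  have hA := h.hA
  have hB := h.hB
  simp only [add_div] at hdiv
  have e3 : ∀ x y z w v : ℝ, (3 * (x + y + z + w) / Real.sqrt 3 - v / 2) / 3 =
      x / Real.sqrt 3 + y / Real.sqrt 3 + z / Real.sqrt 3 + w / Real.sqrt 3 - v / 6 := by
    intro x y z w v
    ring
  rw [e3]
  linarith

end Pool.Agent.LG
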