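import Pool.Agent.Lib.MP_8026b0_co.Basic

set_option autoImplicit false

/-! Row G09: general position by a small perturbation. -/

namespace Pool.Agent.LG

open Complex

/-- general position with respect to the box -/
structure GenPos (A B : ℝ) (P : Finset ℂ) : Prop where
  re_inj : ∀ p ∈ P, ∀ q ∈ P, p.re = q.re → p = q
  im_inj : ∀ p ∈ P, ∀ q ∈ P, p.im = q.im → p = q
  four : ∀ z : ℂ, ∀ a ∈ P, ∀ b ∈ P, ∀ c ∈ P, ∀ d ∈ P, a ≠ b → a ≠ c → a ≠ d → b ≠ c → b ≠ d →
    c ≠ d → ‖z - a‖ = ‖z - b‖ → ‖z - a‖ = ‖z - c‖ → ‖z - a‖ = ‖z - d‖ → False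
  three : ∀ z : ℂ, ∀ k : Fin 4, dw A B k z = 0 → ∀ a ∈ P, ∀ b ∈ P, ∀ c ∈ P, a ≠ b → a ≠ c →
    b ≠ c → ‖z - a‖ = ‖z - b‖ → ‖z - a‖ = ‖z - c‖ → False
  two : ∀ k : Fin 4, ∀ a ∈ P, ∀ b ∈ P, a ≠ b → ‖cor A B k - a‖ = ‖cor A B k - b‖ → False

namespace G09

theorem norm_eq_iff (z a b : ℂ) : ‖z - a‖ = ‖z - b‖ ↔
    (z.re - a.re) ^ 2 + (z.im - a.im) ^ 2 = (z.re - b.re) ^ 2 + (z.im - b.im) ^ 2 := by
  have h : ∀ w : ℂ, ‖z - w‖ ^ 2 = (z.re - w.re) ^ 2 + (z.im - w.im) ^ 2 := by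
    intro w
    rw [Complex.sq_norm, Complex.normSq_apply, Complex.sub_re, Complex.sub_im]
    ring
  rw [← h a, ← h b]
  constructor
  · intro h1
    rw [h1]
  · intro h1
    exact (sq_eq_sq₀ (norm_nonneg _) (norm_nonneg _)).mp h1

/-- the centre of a circle through three different points is unique -/
theorem centre_unique {a b c z₁ z₂ : ℂ} (hab : a ≠ b) (hac : a ≠ c) (hbc : b ≠ c)
    (h1 : ‖z₁ - a‖ = ‖z₁ - b‖) (h2 : ‖z₁ - a‖ = ‖z₁ - c‖) (h3 : ‖z₂ - a‖ = ‖z₂ - b‖)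
    (h4 : ‖z₂ - a‖ = ‖z₂ - c‖) : z₁ = z₂ := by
  rw [norm_eq_iff] at h1 h2 h3 h4
  by_contra hne
  obtain ⟨vx, hvx⟩ : ∃ vx, vx = z₁.re - z₂.re := ⟨_, rfl⟩
  obtain ⟨vy, hvy⟩ : ∃ vy, vy = z₁.im - z₂.im := ⟨_, rfl⟩
  have hn : 0 < vx ^ 2 + vy ^ 2 := by
    rcases eq_or_ne vx 0 with hx | hx
    · rcases eq_or_ne vy 0 with hy | hy
      · exfalso
        apply hne
        apply Complex.ext
        · linarith
        · linarith
      · positivity
    · positivity
  obtain ⟨s, hs⟩ : ∃ s, s = -(z₁.re - a.re) * vy + (z₁.im - a.im) * vx := ⟨_, rfl⟩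
  have key : ∀ w : ℂ, a ≠ w →
      (z₁.re - a.re) ^ 2 + (z₁.im - a.im) ^ 2 = (z₁.re - w.re) ^ 2 + (z₁.im - w.im) ^ 2 →
      (z₂.re - a.re) ^ 2 + (z₂.im - a.im) ^ 2 = (z₂.re - w.re) ^ 2 + (z₂.im - w.im) ^ 2 →
      w.re = a.re - 2 * s / (vx ^ 2 + vy ^ 2) * vy ∧
        w.im = a.im + 2 * s / (vx ^ 2 + vy ^ 2) * vx := by
    intro w hw e1 e2
    have horth : vx * (w.re - a.re) + vy * (w.im - a.im) = 0 := by
      rw [hvx, hvy]
      nlinarith
    obtain ⟨β, hβ⟩ : ∃ β, β = (vx * (w.im - a.im) - vy * (w.re - a.re)) / (vx ^ 2 + vy ^ 2) :=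
      ⟨_, rfl⟩
    have hβn : β * (vx ^ 2 + vy ^ 2) = vx * (w.im - a.im) - vy * (w.re - a.re) := by
      rw [hβ, div_mul_cancel₀ _ hn.ne']
    have hx : w.re - a.re = -β * vy := by
      have h5 : (w.re - a.re) * (vx ^ 2 + vy ^ 2) = (-β * vy) * (vx ^ 2 + vy ^ 2) := by
        have h6 : (-β * vy) * (vx ^ 2 + vy ^ 2) = -vy * (β * (vx ^ 2 + vy ^ 2)) := by ring
        rw [h6, hβn]
        have h7 : vx * (vx * (w.re - a.re) + vy * (w.im - a.im)) = 0 := by rw [horth, mul_zero]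
        linarith
      exact mul_right_cancel₀ hn.ne' h5
    have hy : w.im - a.im = β * vx := by
      have h5 : (w.im - a.im) * (vx ^ 2 + vy ^ 2) = (β * vx) * (vx ^ 2 + vy ^ 2) := by
        have h6 : (β * vx) * (vx ^ 2 + vy ^ 2) = vx * (β * (vx ^ 2 + vy ^ 2)) := by ring
        rw [h6, hβn]
        have h7 : vy * (vx * (w.re - a.re) + vy * (w.im - a.im)) = 0 := by rw [horth, mul_zero]
        linarith
      exact mul_right_cancel₀ hn.ne' h5
    have hβ0 : β ≠ 0 := by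
      intro h0
      apply hw
      apply Complex.ext
      · rw [h0] at hx
        linarith
      · rw [h0] at hy
        linarith
    have hβs : β * (β * (vx ^ 2 + vy ^ 2) - 2 * s) = 0 := by
      have h5 : (w.re - a.re) ^ 2 + (w.im - a.im) ^ 2 =
          2 * ((z₁.re - a.re) * (w.re - a.re) + (z₁.im - a.im) * (w.im - a.im)) := by
        nlinarith
      rw [hx, hy] at h5
      rw [hs]
      linarith
    have h6 : β * (vx ^ 2 + vy ^ 2) - 2 * s = 0 := (mul_eq_zero.mp hβs).resolve_left hβ0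
    have h7 : β = 2 * s / (vx ^ 2 + vy ^ 2) := by
      rw [eq_div_iff hn.ne']
      linarith
    rw [← h7]
    constructor
    · linarith
    · linarith
  obtain ⟨hb1, hb2⟩ := key b hab h1 h3
  obtain ⟨hc1, hc2⟩ := key c hac h2 h4
  exact hbc (Complex.ext (hb1.trans hc1.symm) (hb2.trans hc2.symm))

/-- uniqueness of the equidistant point on a wall -/
theorem wall_unique {A B : ℝ} {k : Fin 4} {a b z₁ z₂ : ℂ} (hre : a.re ≠ b.re)
    (him : a.im ≠ b.im) (w1 : dw A B k z₁ = 0) (w2 : dw A B k z₂ = 0)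
    (h1 : ‖z₁ - a‖ = ‖z₁ - b‖) (h2 : ‖z₂ - a‖ = ‖z₂ - b‖) : z₁ = z₂ := by
  rw [norm_eq_iff] at h1 h2
  have him' : a.im - b.im ≠ 0 := sub_ne_zero.mpr him
  have hre' : a.re - b.re ≠ 0 := sub_ne_zero.mpr hre
  have hmain : (z₁.re - z₂.re) * (a.re - b.re) + (z₁.im - z₂.im) * (a.im - b.im) = 0 := by
    nlinarith
  have hvert : z₁.re = z₂.re → z₁ = z₂ := by
    intro h
    rw [h, sub_self, zero_mul, zero_add] at hmain
    exact Complex.ext h (sub_eq_zero.mp ((mul_eq_zero.mp hmain).resolve_right him'))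
  have hhor : z₁.im = z₂.im → z₁ = z₂ := by
    intro h
    rw [h, sub_self, zero_mul, add_zero] at hmain
    exact Complex.ext (sub_eq_zero.mp ((mul_eq_zero.mp hmain).resolve_right hre')) h
  fin_cases k
  · apply hvert
    simp [dw, cv, nv, ip] at w1 w2
    linarith
  · apply hhor
    simp [dw, cv, nv, ip] at w1 w2
    linarith
  · apply hvert
    simp [dw, cv, nv, ip] at w1 w2
    linarith
  · apply hhor
    simp [dw, cv, nv, ip] at w1 w2
    linarith

/-- the dangerous centres -/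
def Z (A B : ℝ) (P : Finset ℂ) : Set ℂ :=
  (⋃ t ∈ (P ×ˢ P ×ˢ P : Finset (ℂ × ℂ × ℂ)), {z | t.1 ≠ t.2.1 ∧ t.1 ≠ t.2.2 ∧ t.2.1 ≠ t.2.2 ∧
    ‖z - t.1‖ = ‖z - t.2.1‖ ∧ ‖z - t.1‖ = ‖z - t.2.2‖}) ∪
  (⋃ k : Fin 4, ⋃ t ∈ (P ×ˢ P : Finset (ℂ × ℂ)), {z | t.1 ≠ t.2 ∧ dw A B k z = 0 ∧
    ‖z - t.1‖ = ‖z - t.2‖}) ∪ Set.range (cor A B)

theorem Z_finite {A B : ℝ} {P : Finset ℂ} (hP : GenPos A B P) : (Z A B P).Finite := by
  refine Set.Finite.union (Set.Finite.union ?_ ?_) (Set.finite_range _)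
  · refine Set.Finite.biUnion (Finset.finite_toSet _) fun t _ => Set.Subsingleton.finite ?_
    rintro z₁ ⟨h1, h2, h3, h4, h5⟩ z₂ ⟨_, _, _, h6, h7⟩
    exact centre_unique h1 h2 h3 h4 h5 h6 h7
  · refine Set.finite_iUnion fun k => Set.Finite.biUnion (Finset.finite_toSet _) fun t ht =>
      Set.Subsingleton.finite ?_
    have ht' := Finset.mem_product.mp (Finset.mem_coe.mp ht)
    rintro z₁ ⟨h1, h2, h3⟩ z₂ ⟨_, h4, h5⟩
    exact wall_unique (fun h => h1 (hP.re_inj _ ht'.1 _ ht'.2 h))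
      (fun h => h1 (hP.im_inj _ ht'.1 _ ht'.2 h)) h2 h4 h3 h5

theorem mem_Z3 {A B : ℝ} {P : Finset ℂ} {z a b c : ℂ} (ha : a ∈ P) (hb : b ∈ P) (hc : c ∈ P)
    (hab : a ≠ b) (hac : a ≠ c) (hbc : b ≠ c) (h1 : ‖z - a‖ = ‖z - b‖)
    (h2 : ‖z - a‖ = ‖z - c‖) : z ∈ Z A B P := by
  refine Or.inl (Or.inl ?_)
  rw [Set.mem_iUnion₂]
  exact ⟨(a, b, c), Finset.mem_product.mpr ⟨ha, Finset.mem_product.mpr ⟨hb, hc⟩⟩,
    hab, hac, hbc, h1, h2⟩

theorem mem_Z2 {A B : ℝ} {P : Finset ℂ} {k : Fin 4} {z a b : ℂ} (ha : a ∈ P) (hb : b ∈ P)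
    (hab : a ≠ b) (hk : dw A B k z = 0) (h1 : ‖z - a‖ = ‖z - b‖) : z ∈ Z A B P := by
  refine Or.inl (Or.inr ?_)
  rw [Set.mem_iUnion]
  refine ⟨k, ?_⟩
  rw [Set.mem_iUnion₂]
  exact ⟨(a, b), Finset.mem_product.mpr ⟨ha, hb⟩, hab, hk, h1⟩

theorem mem_Z1 {A B : ℝ} {P : Finset ℂ} (k : Fin 4) : cor A B k ∈ Z A B P :=
  Or.inr ⟨k, rfl⟩

theorem dense_sphere_compl (z : ℂ) (r : ℝ) : Dense {w : ℂ | ‖z - w‖ ≠ r} := by
  have h1 : {w : ℂ | ‖z - w‖ ≠ r} = (Metric.sphere z r)ᶜ := by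
    ext w
    simp only [Set.mem_ofPred_eq, Set.mem_compl_iff, mem_sphere_iff_norm, norm_sub_rev w z]
  rw [h1, ← interior_eq_empty_iff_dense_compl, interior_sphere']

theorem open_sphere_compl (z : ℂ) (r : ℝ) : IsOpen {w : ℂ | ‖z - w‖ ≠ r} := by
  have h2 : Continuous (fun w : ℂ => ‖z - w‖) := by fun_prop
  exact isOpen_compl_singleton.preimage h2

/-- a good point exists in every nonempty open set -/
theorem exists_good {A B : ℝ} {P : Finset ℂ} (hP : GenPos A B P) {U : Set ℂ} (hU : IsOpen U)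
    (hU' : U.Nonempty) : ∃ w ∈ U, (∀ q ∈ P, w.re ≠ q.re) ∧ (∀ q ∈ P, w.im ≠ q.im) ∧
      ∀ z ∈ Z A B P, ∀ a ∈ P, ‖z - w‖ ≠ ‖z - a‖ := by
  obtain ⟨S, hS⟩ : ∃ S : Set (Set ℂ), S = ((fun q : ℂ => {w : ℂ | w.re ≠ q.re}) '' (P : Set ℂ) ∪
      (fun q : ℂ => {w : ℂ | w.im ≠ q.im}) '' (P : Set ℂ)) ∪
      Set.image2 (fun z a : ℂ => {w : ℂ | ‖z - w‖ ≠ ‖z - a‖}) (Z A B P) (P : Set ℂ) := ⟨_, rfl⟩
  have hSf : S.Finite := by
    rw [hS]
    exact ((P.finite_toSet.image _).union (P.finite_toSet.image _)).union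
      (Set.Finite.image2 _ (Z_finite hP) P.finite_toSet)
  have hSod : ∀ s ∈ S, IsOpen s ∧ Dense s := by
    intro s hs
    rw [hS] at hs
    rcases hs with (⟨q, _, rfl⟩ | ⟨q, _, rfl⟩) | ⟨z, _, a, _, rfl⟩
    · exact ⟨isOpen_compl_singleton.preimage Complex.continuous_re,
        (dense_compl_singleton q.re).preimage Complex.isOpenMap_re⟩
    · exact ⟨isOpen_compl_singleton.preimage Complex.continuous_im,
        (dense_compl_singleton q.im).preimage Complex.isOpenMap_im⟩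
    · exact ⟨open_sphere_compl _ _, dense_sphere_compl _ _⟩
  have hd : Dense (⋂₀ S) :=
    dense_sInter_of_isOpen (fun s hs => (hSod s hs).1) hSf.countable (fun s hs => (hSod s hs).2)
  obtain ⟨w, hwU, hwS⟩ := hd.inter_open_nonempty U hU hU'
  rw [Set.mem_sInter] at hwS
  refine ⟨w, hwU, ?_, ?_, ?_⟩
  · intro q hq
    exact hwS _ (by rw [hS]; exact Or.inl (Or.inl ⟨q, hq, rfl⟩))
  · intro q hq
    exact hwS _ (by rw [hS]; exact Or.inl (Or.inr ⟨q, hq, rfl⟩))
  · intro z hz a ha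
    exact hwS _ (by rw [hS]; exact Or.inr ⟨z, hz, a, ha, rfl⟩)

/-- points of the open box close to a point of the box -/
theorem open_part {A B : ℝ} (hA : 0 < A) (hB : 0 < B) {p : ℂ} (hp : p ∈ Box A B) {η : ℝ}
    (hη : 0 < η) : ∃ U : Set ℂ, IsOpen U ∧ U.Nonempty ∧ ∀ w ∈ U, w ∈ Box A B ∧ ‖w - p‖ < η := by
  refine ⟨{w | 0 < w.re} ∩ {w | w.re < A} ∩ {w | 0 < w.im} ∩ {w | w.im < B} ∩ Metric.ball p η,
    ?_, ?_, ?_⟩
  · refine IsOpen.inter (IsOpen.inter (IsOpen.inter (IsOpen.inter ?_ ?_) ?_) ?_)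
      Metric.isOpen_ball
    · exact isOpen_lt continuous_const Complex.continuous_re
    · exact isOpen_lt Complex.continuous_re continuous_const
    · exact isOpen_lt continuous_const Complex.continuous_im
    · exact isOpen_lt Complex.continuous_im continuous_const
  · obtain ⟨hp1, hp2, hp3, hp4⟩ := hp
    obtain ⟨D, hD⟩ : ∃ D, D = ‖(⟨A / 2, B / 2⟩ : ℂ) - p‖ + 1 := ⟨_, rfl⟩
    have hD0 : 0 < D := by
      rw [hD]
      positivity
    obtain ⟨t, ht⟩ : ∃ t, t = min (1 / 2) (η / (2 * D)) := ⟨_, rfl⟩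
    have ht0 : 0 < t := by
      rw [ht]
      exact lt_min (by norm_num) (by positivity)
    have ht1 : t ≤ 1 / 2 := by rw [ht]; exact min_le_left _ _
    have ht2 : t * (2 * D) ≤ η := by
      rw [← le_div_iff₀ (by positivity), ht]
      exact min_le_right _ _
    have hre : (p + (t : ℂ) * ((⟨A / 2, B / 2⟩ : ℂ) - p)).re = p.re + t * (A / 2 - p.re) := by
      simp
    have him : (p + (t : ℂ) * ((⟨A / 2, B / 2⟩ : ℂ) - p)).im = p.im + t * (B / 2 - p.im) := by
      simp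
    refine ⟨p + (t : ℂ) * ((⟨A / 2, B / 2⟩ : ℂ) - p), ⟨⟨⟨⟨?_, ?_⟩, ?_⟩, ?_⟩, ?_⟩⟩
    · show 0 < (p + (t : ℂ) * ((⟨A / 2, B / 2⟩ : ℂ) - p)).re
      rw [hre]
      nlinarith
    · show (p + (t : ℂ) * ((⟨A / 2, B / 2⟩ : ℂ) - p)).re < A
      rw [hre]
      nlinarith
    · show 0 < (p + (t : ℂ) * ((⟨A / 2, B / 2⟩ : ℂ) - p)).im
      rw [him]
      nlinarith
    · show (p + (t : ℂ) * ((⟨A / 2, B / 2⟩ : ℂ) - p)).im < B
      rw [him]
      nlinarith
    · rw [Metric.mem_ball, dist_eq_norm, add_sub_cancel_left, norm_mul, Complex.norm_real,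
        Real.norm_eq_abs, abs_of_pos ht0]
      have h1 : ‖(⟨A / 2, B / 2⟩ : ℂ) - p‖ < D := by
        rw [hD]
        linarith
      nlinarith
  · rintro w ⟨⟨⟨⟨h1, h2⟩, h3⟩, h4⟩, h5⟩
    refine ⟨⟨?_, ?_, ?_, ?_⟩, ?_⟩
    · exact le_of_lt h1
    · exact le_of_lt h2
    · exact le_of_lt h3
    · exact le_of_lt h4
    · rw [← dist_eq_norm]
      exact h5

end G09

/-- the step: a new point can be chosen arbitrarily close to a given point of the box -/
theorem genPos_step {A B : ℝ} (hA : 0 < A) (hB : 0 < B) {P : Finset ℂ} (hP : GenPos A B P)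
    {p : ℂ} (hp : p ∈ Box A B) {η : ℝ} (hη : 0 < η) :
    ∃ p' ∈ Box A B, p' ∉ P ∧ ‖p' - p‖ < η ∧ GenPos A B (insert p' P) := by
  obtain ⟨U, hU1, hU2, hU3⟩ := G09.open_part hA hB hp hη
  obtain ⟨w, hwU, hwre, hwim, hwZ⟩ := G09.exists_good hP hU1 hU2
  have hwP : w ∉ P := fun h => hwre w h rfl
  refine ⟨w, (hU3 w hwU).1, hwP, (hU3 w hwU).2, ?_⟩
  refine ⟨?_, ?_, ?_, ?_, ?_⟩
  · intro a ha b hb h
    rw [Finset.mem_insert] at ha hb
    rcases ha with rfl | ha
    · rcases hb with rfl | hb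
      · rfl
      · exact absurd h (hwre b hb)
    · rcases hb with rfl | hb
      · exact absurd h.symm (hwre a ha)
      · exact hP.re_inj a ha b hb h
  · intro a ha b hb h
    rw [Finset.mem_insert] at ha hb
    rcases ha with rfl | ha
    · rcases hb with rfl | hb
      · rfl
      · exact absurd h (hwim b hb)
    · rcases hb with rfl | hb
      · exact absurd h.symm (hwim a ha)
      · exact hP.im_inj a ha b hb h
  · intro z a ha b hb c hc d hd hab hac had hbc hbd hcd h1 h2 h3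
    rw [Finset.mem_insert] at ha hb hc hd
    by_cases haw : a = w
    · subst haw
      have hb' := hb.resolve_left (Ne.symm hab)
      have hc' := hc.resolve_left (Ne.symm hac)
      have hd' := hd.resolve_left (Ne.symm had)
      exact hwZ z (G09.mem_Z3 hb' hc' hd' hbc hbd hcd (h1.symm.trans h2) (h1.symm.trans h3))
        b hb' h1
    have ha' := ha.resolve_left haw
    by_cases hbw : b = w
    · subst hbw
      have hc' := hc.resolve_left (Ne.symm hbc)
      have hd' := hd.resolve_left (Ne.symm hbd)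
      exact hwZ z (G09.mem_Z3 ha' hc' hd' hac had hcd h2 h3) a ha' h1.symm
    have hb' := hb.resolve_left hbw
    by_cases hcw : c = w
    · subst hcw
      have hd' := hd.resolve_left (Ne.symm hcd)
      exact hwZ z (G09.mem_Z3 ha' hb' hd' hab had hbd h1 h3) a ha' h2.symm
    have hc' := hc.resolve_left hcw
    by_cases hdw : d = w
    · subst hdw
      exact hwZ z (G09.mem_Z3 ha' hb' hc' hab hac hbc h1 h2) a ha' h3.symm
    exact hP.four z a ha' b hb' c hc' d (hd.resolve_left hdw) hab hac had hbc hbd hcd h1 h2 h3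
  · intro z k hk a ha b hb c hc hab hac hbc h1 h2
    rw [Finset.mem_insert] at ha hb hc
    by_cases haw : a = w
    · subst haw
      have hb' := hb.resolve_left (Ne.symm hab)
      have hc' := hc.resolve_left (Ne.symm hac)
      exact hwZ z (G09.mem_Z2 hb' hc' hbc hk (h1.symm.trans h2)) b hb' h1
    have ha' := ha.resolve_left haw
    by_cases hbw : b = w
    · subst hbw
      have hc' := hc.resolve_left (Ne.symm hbc)
      exact hwZ z (G09.mem_Z2 ha' hc' hac hk h2) a ha' h1.symm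
    have hb' := hb.resolve_left hbw
    by_cases hcw : c = w
    · subst hcw
      exact hwZ z (G09.mem_Z2 ha' hb' hab hk h1) a ha' h2.symm
    exact hP.three z k hk a ha' b hb' c (hc.resolve_left hcw) hab hac hbc h1 h2
  · intro k a ha b hb hab h1
    rw [Finset.mem_insert] at ha hb
    by_cases haw : a = w
    · subst haw
      exact hwZ _ (G09.mem_Z1 k) b (hb.resolve_left (Ne.symm hab)) h1
    have ha' := ha.resolve_left haw
    by_cases hbw : b = w
    · subst hbw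
      exact hwZ _ (G09.mem_Z1 k) a ha' h1.symm
    exact hP.two k a ha' b (hb.resolve_left hbw) hab h1

/-- general position by a small perturbation of all points -/
theorem exists_genPos {A B : ℝ} (hA : 0 < A) (hB : 0 < B) (P : Finset ℂ)
    (hP : ∀ p ∈ P, p ∈ Box A B) {η : ℝ} (hη : 0 < η) :
    ∃ f : ℂ → ℂ, (∀ p ∈ P, f p ∈ Box A B ∧ ‖f p - p‖ < η) ∧ Set.InjOn f (P : Set ℂ) ∧
      GenPos A B (P.image f) := by
  classical
  induction P using Finset.induction_on with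
  | empty =>
    refine ⟨id, ?_, ?_, ?_⟩
    · intro p hp
      simp at hp
    · simp
    · rw [Finset.image_empty]
      refine ⟨?_, ?_, ?_, ?_, ?_⟩
      · intro p hp
        simp at hp
      · intro p hp
        simp at hp
      · intro z p hp
        simp at hp
      · intro z k _ p hp
        simp at hp
      · intro k p hp
        simp at hp
  | insert p P hpP ih =>
    obtain ⟨f, hf1, hf2, hf3⟩ := ih (fun q hq => hP q (Finset.mem_insert_of_mem hq))
    obtain ⟨p', hp'B, hp'P, hp'η, hp'G⟩ := genPos_step hA hB hf3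
      (hP p (Finset.mem_insert_self p P)) hη
    have hg : ∀ q ∈ P, Function.update f p p' q = f q := by
      intro q hq
      have hne : q ≠ p := by
        rintro rfl
        exact hpP hq
      exact Function.update_of_ne hne _ _
    have hgp : Function.update f p p' p = p' := Function.update_self _ _ _
    have himg : (insert p P).image (Function.update f p p') = insert p' (P.image f) := by
      rw [Finset.image_insert, hgp]
      congr 1
      exact Finset.image_congr (fun q hq => hg q hq)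
    refine ⟨Function.update f p p', ?_, ?_, ?_⟩
    · intro q hq
      rw [Finset.mem_insert] at hq
      rcases hq with rfl | hq
      · rw [hgp]
        exact ⟨hp'B, hp'η⟩
      · rw [hg q hq]
        exact hf1 q hq
    · intro a ha b hb hab
      rw [Finset.mem_coe, Finset.mem_insert] at ha hb
      rcases ha with rfl | ha
      · rcases hb with rfl | hb
        · rfl
        · rw [hgp, hg b hb] at hab
          exact absurd (hab ▸ Finset.mem_image_of_mem f hb) hp'P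
      · rcases hb with rfl | hb
        · rw [hgp, hg a ha] at hab
          exact absurd (hab ▸ Finset.mem_image_of_mem f ha) hp'P
        · rw [hg a ha, hg b hb] at hab
          exact hf2 ha hb hab
    · rw [himg]
      exact hp'G

end Pool.Agent.LG
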