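import Pool.Agent.Lib.MP_8026b0_co.G01

set_option autoImplicit false

/-! Row G11: metric facts on the triangles and on the pairs along the walls. -/

namespace Pool.Agent.LG

open Complex

private theorem g11_normsq (z : ℂ) : ‖z‖ ^ 2 = z.re ^ 2 + z.im ^ 2 := by
  rw [Complex.sq_norm, Complex.normSq_apply]
  ring

private theorem g11_ip_sub (a b c : ℂ) : ip (a - b) c = ip a c - ip b c := by
  simp only [ip, Complex.sub_re, Complex.sub_im]
  ring

private theorem g11_nv (k : Fin 4) : (nv k).re ^ 2 + (nv k).im ^ 2 = 1 := by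
  fin_cases k <;> simp [nv]

/-- components in the frame `n, i n` -/
private theorem g11_frame (v n : ℂ) (hn : n.re ^ 2 + n.im ^ 2 = 1) :
    ip v n ^ 2 + ip v (I * n) ^ 2 = ‖v‖ ^ 2 := by
  rw [g11_normsq]
  simp only [ip, Complex.mul_re, Complex.mul_im, Complex.I_re, Complex.I_im]
  linear_combination (v.re ^ 2 + v.im ^ 2) * hn

private theorem g11_frame_ip (v w n : ℂ) (hn : n.re ^ 2 + n.im ^ 2 = 1) :
    ip v n * ip w n + ip v (I * n) * ip w (I * n) = v.re * w.re + v.im * w.im := by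
  simp only [ip, Complex.mul_re, Complex.mul_im, Complex.I_re, Complex.I_im]
  linear_combination (v.re * w.re + v.im * w.im) * hn

private theorem g11_abs_ip (v n : ℂ) (hn : n.re ^ 2 + n.im ^ 2 = 1) : ip v n ≤ ‖v‖ := by
  have h1 := g11_frame v n hn
  by_contra h2
  rw [not_le] at h2
  nlinarith [norm_nonneg v, sq_nonneg (ip v (I * n))]

/-- metric facts on a triangle of `Tr` -/
theorem Tr_facts {A B : ℝ} {P : Finset ℂ} (h : Gen A B P) {p q r : ℂ}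
    (ht : (p, q, r) ∈ Tr A B P) :
    1 ≤ ‖q - p‖ ∧ 1 ≤ ‖r - q‖ ∧ 1 ≤ ‖p - r‖ ∧ 0 < cr (q - p) (r - p) ∧
      ∃ z ∈ Box A B, ∃ R : ℝ, R < 1 ∧ ‖z - p‖ = R ∧ ‖z - q‖ = R ∧ ‖z - r‖ = R := by
  obtain ⟨⟨hp, hq, hr⟩, hcr, z, hz, h1, h2, h3⟩ := mem_Tr.1 ht
  change 0 < cr (q - p) (r - p) at hcr
  have hpq : q ≠ p := by
    rintro rfl
    simp [cr] at hcr
  have hrq : r ≠ q := by
    rintro rfl
    simp only [cr] at hcr
    nlinarith
  have hpr : p ≠ r := by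
    rintro rfl
    simp [cr] at hcr
  exact ⟨h.sep q hq p hp hpq, h.sep r hr q hq hrq, h.sep p hp r hr hpr, hcr, z, hz, ‖z - p‖,
    h.dist_lt_one hz h1, rfl, Nr_dist h2 h1, Nr_dist h3 h1⟩

/-- metric facts on a pair along the wall `k` -/
theorem Wp_facts {A B : ℝ} {P : Finset ℂ} (h : Gen A B P) {k : Fin 4} {p q : ℂ}
    (he : (p, q) ∈ Wp A B P k) :
    0 ≤ dw A B k p ∧ 0 ≤ dw A B k q ∧ dw A B k p < 1 ∧ dw A B k q < 1 ∧
      dw A B k p - dw A B k q = ip (q - p) (nv k) ∧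
      0 < ip (q - p) (I * nv k) ∧
      1 ≤ ip (q - p) (nv k) ^ 2 + ip (q - p) (I * nv k) ^ 2 ∧
      ip (q - p) (nv k) ^ 2 + ip (q - p) (I * nv k) ^ 2 ≤ 2 * ip (q - p) (I * nv k) ∧
      ∃ z ∈ Box A B, dw A B k z = 0 ∧ ‖z - p‖ < 1 ∧ ‖z - q‖ < 1 := by
  obtain ⟨⟨hp, hq⟩, hy, z, hz, hzk, h1, h2⟩ := mem_Wp.1 he
  change p ∈ P at hp
  change q ∈ P at hq
  change 0 < ip (q - p) (I * nv k) at hy
  change p ∈ Nr P z at h1
  change q ∈ Nr P z at h2
  have hn := g11_nv k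
  have hdp : 0 ≤ dw A B k p := mem_Box_iff.1 (h.sub p hp) k
  have hdq : 0 ≤ dw A B k q := mem_Box_iff.1 (h.sub q hq) k
  have hzp : ‖z - p‖ < 1 := h.dist_lt_one hz h1
  have hzq : ‖z - q‖ < 1 := h.dist_lt_one hz h2
  have hep : dw A B k p = ip (z - p) (nv k) := by
    rw [g11_ip_sub]
    simp only [dw] at hzk ⊢
    linarith
  have heq : dw A B k q = ip (z - q) (nv k) := by
    rw [g11_ip_sub]
    simp only [dw] at hzk ⊢
    linarith
  have hx : dw A B k p - dw A B k q = ip (q - p) (nv k) := by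
    rw [g11_ip_sub]
    simp only [dw]
    ring
  have hpq : q ≠ p := by
    rintro rfl
    simp [ip] at hy
  have hl : 1 ≤ ‖q - p‖ := h.sep q hq p hp hpq
  have hfr := g11_frame (q - p) (nv k) hn
  have hl2 : 1 ≤ ip (q - p) (nv k) ^ 2 + ip (q - p) (I * nv k) ^ 2 := by
    rw [hfr]
    exact one_le_pow₀ hl
  refine ⟨hdp, hdq, ?_, ?_, hx, hy, hl2, ?_, z, hz, hzk, hzp, hzq⟩
  · rw [hep]
    exact (g11_abs_ip _ _ hn).trans_lt hzp
  · rw [heq]
    exact (g11_abs_ip _ _ hn).trans_lt hzq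
  · -- the lune
    set x : ℝ := ip (q - p) (nv k) with hxdef
    set y : ℝ := ip (q - p) (I * nv k) with hydef
    set s : ℝ := (dw A B k p + dw A B k q) / 2 with hs
    set t : ℝ := (ip (z - p) (I * nv k) + ip (z - q) (I * nv k)) / 2 with ht
    have hdist : ‖z - p‖ = ‖z - q‖ := Nr_dist h1 h2
    have e1 := g11_frame (z - p) (nv k) hn
    have e2 := g11_frame (z - q) (nv k) hn
    rw [← hep] at e1
    rw [← heq] at e2
    have ey : ip (z - p) (I * nv k) - ip (z - q) (I * nv k) = y := by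
      rw [hydef, g11_ip_sub, g11_ip_sub, g11_ip_sub]
      ring
    have hsx : dw A B k p = s + x / 2 := by
      rw [hs, ← hx]
      ring
    have hsx' : dw A B k q = s - x / 2 := by
      rw [hs, ← hx]
      ring
    have hty : ip (z - p) (I * nv k) = t + y / 2 := by
      rw [ht, ← ey]
      ring
    have hty' : ip (z - q) (I * nv k) = t - y / 2 := by
      rw [ht, ← ey]
      ring
    rw [hsx, hty] at e1
    rw [hsx', hty', ← hdist] at e2
    have hR : ‖z - p‖ ^ 2 ≤ 1 := pow_le_one₀ (norm_nonneg _) hzp.le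
    have hperp : s * x + t * y = 0 := by linarith
    have hsum : s ^ 2 + t ^ 2 + (x ^ 2 + y ^ 2) / 4 ≤ 1 := by linarith
    have hs0 : 0 ≤ s := by positivity
    have hxs : x ^ 2 ≤ 4 * s ^ 2 := by
      have g1 : 0 ≤ s + x / 2 := by rw [← hsx]; exact hdp
      have g2 : 0 ≤ s - x / 2 := by rw [← hsx']; exact hdq
      nlinarith [mul_nonneg g1 g2]
    have hty2 : t ^ 2 * y ^ 2 = s ^ 2 * x ^ 2 := by
      have : t * y = -(s * x) := by linarith
      calc t ^ 2 * y ^ 2 = (t * y) ^ 2 := by ring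
        _ = (-(s * x)) ^ 2 := by rw [this]
        _ = s ^ 2 * x ^ 2 := by ring
    have hkey : s ^ 2 * (x ^ 2 + y ^ 2) ≤ (1 - (x ^ 2 + y ^ 2) / 4) * y ^ 2 := by
      have h5 : (s ^ 2 + t ^ 2) * y ^ 2 ≤ (1 - (x ^ 2 + y ^ 2) / 4) * y ^ 2 :=
        mul_le_mul_of_nonneg_right (by linarith) (sq_nonneg y)
      nlinarith
    have hl4 : (x ^ 2 + y ^ 2) ^ 2 ≤ (2 * y) ^ 2 := by
      have h5 : x ^ 2 * (x ^ 2 + y ^ 2) ≤ 4 * s ^ 2 * (x ^ 2 + y ^ 2) :=
        mul_le_mul_of_nonneg_right hxs (by positivity)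
      nlinarith
    exact (pow_le_pow_iff_left₀ (by positivity) (by positivity) two_ne_zero).1 hl4

/-- the excess of a triangle is nonnegative, real variables -/
private theorem g11_tri (u1 u2 v1 v2 w1 w2 : ℝ) (hw : w1 ^ 2 + w2 ^ 2 ≤ 1)
    (hu : 2 * (w1 * u1 + w2 * u2) = u1 ^ 2 + u2 ^ 2) (hv : 2 * (w1 * v1 + w2 * v2) = v1 ^ 2 + v2 ^ 2)
    (hX : 1 ≤ u1 ^ 2 + u2 ^ 2) (hY : 1 ≤ v1 ^ 2 + v2 ^ 2)
    (hZ : 1 ≤ (u1 - v1) ^ 2 + (u2 - v2) ^ 2) : 3 ≤ 4 * (u1 * v2 - u2 * v1) ^ 2 := by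
  set D : ℝ := u1 * v2 - u2 * v1 with hD
  obtain ⟨X, hXd⟩ : ∃ X, X = u1 ^ 2 + u2 ^ 2 := ⟨_, rfl⟩
  obtain ⟨Y, hYd⟩ : ∃ Y, Y = v1 ^ 2 + v2 ^ 2 := ⟨_, rfl⟩
  obtain ⟨Z, hZd⟩ : ∃ Z, Z = (u1 - v1) ^ 2 + (u2 - v2) ^ 2 := ⟨_, rfl⟩
  rw [← hXd] at hX hu
  rw [← hYd] at hY hv
  rw [← hZd] at hZ
  have h1 : 4 * D ^ 2 = 2 * (X * Y + Y * Z + Z * X) - X ^ 2 - Y ^ 2 - Z ^ 2 := by
    rw [hXd, hYd, hZd, hD]
    ring
  have h2 : 4 * D ^ 2 * (w1 ^ 2 + w2 ^ 2) = X * Y * Z := by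
    have e1 : 4 * D ^ 2 * (w1 ^ 2 + w2 ^ 2) = (2 * (w1 * u1 + w2 * u2)) ^ 2 * Y -
        2 * (2 * (w1 * u1 + w2 * u2)) * (2 * (w1 * v1 + w2 * v2)) * (u1 * v1 + u2 * v2) +
        (2 * (w1 * v1 + w2 * v2)) ^ 2 * X := by
      rw [hXd, hYd, hD]
      ring
    rw [e1, hu, hv]
    have e2 : 2 * (u1 * v1 + u2 * v2) = X + Y - Z := by
      rw [hXd, hYd, hZd]
      ring
    linear_combination (-(X * Y)) * e2
  have h3 : X * Y * Z ≤ 4 * D ^ 2 := by
    rw [← h2]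
    have : 0 ≤ 4 * D ^ 2 := by positivity
    nlinarith
  have big : ∀ a b c : ℝ, 1 ≤ a → 1 ≤ b → 1 ≤ c → a ≤ c → b ≤ c → a * b * c ≤ 4 * D ^ 2 →
      4 * D ^ 2 = 2 * (a * b + b * c + c * a) - a ^ 2 - b ^ 2 - c ^ 2 → 3 ≤ 4 * D ^ 2 := by
    intro a b c ha hb hc hac hbc hle heq
    have hab : 1 ≤ a * b := one_le_mul_of_one_le_of_one_le ha hb
    by_cases h3c : c ≤ 3
    · have g1 := mul_nonneg (sub_nonneg.2 ha) (sub_nonneg.2 hb)
      have g2 := mul_nonneg (sub_nonneg.2 ha) (show 0 ≤ 2 * c - (a - 1) by linarith)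
      have g3 := mul_nonneg (sub_nonneg.2 hb) (show 0 ≤ 2 * c - (b - 1) by linarith)
      have g4 := mul_nonneg (sub_nonneg.2 hc) (sub_nonneg.2 h3c)
      linarith
    · have g1 := mul_le_mul_of_nonneg_right hab (show 0 ≤ c by linarith)
      linarith
  rcases le_total X Z with hxz | hxz
  · rcases le_total Y Z with hyz | hyz
    · exact big X Y Z hX hY hZ hxz hyz h3 h1
    · exact big X Z Y hX hZ hY (hxz.trans hyz) hyz (by linarith) (by linarith)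
  · rcases le_total Y X with hyx | hyx
    · exact big Y Z X hY hZ hX hyx hxz (by linarith) (by linarith)
    · exact big X Z Y hX hZ hY hyx (hxz.trans hyx) (by linarith) (by linarith)

/-- the excess of a triangle is nonnegative -/
theorem ex_nonneg {A B : ℝ} {P : Finset ℂ} (h : Gen A B P) {t : ℂ × ℂ × ℂ}
    (ht : t ∈ Tr A B P) : 0 ≤ ex t := by
  obtain ⟨p, q, r⟩ := t
  obtain ⟨h1, h2, h3, hcr, z, hz, R, hR, e1, e2, e3⟩ := Tr_facts h ht
  have hR0 : 0 ≤ R := by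
    rw [← e1]
    exact norm_nonneg _
  have n1 := g11_normsq (z - p)
  have n2 := g11_normsq (z - q)
  have n3 := g11_normsq (z - r)
  rw [e1] at n1
  rw [e2] at n2
  rw [e3] at n3
  have m1 : 1 ≤ ‖q - p‖ ^ 2 := one_le_pow₀ h1
  have m2 : 1 ≤ ‖r - q‖ ^ 2 := one_le_pow₀ h2
  have m3 : 1 ≤ ‖p - r‖ ^ 2 := one_le_pow₀ h3
  have hR2 : R ^ 2 ≤ 1 := pow_le_one₀ hR0 hR.le
  rw [g11_normsq] at m1 m2 m3
  simp only [Complex.sub_re, Complex.sub_im] at n1 n2 n3 m1 m2 m3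
  have hmain := g11_tri (q.re - p.re) (q.im - p.im) (r.re - p.re) (r.im - p.im)
    (z.re - p.re) (z.im - p.im) (by linarith) (by linarith) (by linarith) m1 (by linarith)
    (by linarith)
  have hcr' : cr (q - p) (r - p) =
      (q.re - p.re) * (r.im - p.im) - (q.im - p.im) * (r.re - p.re) := by
    simp only [cr, Complex.sub_re, Complex.sub_im]
  rw [← hcr'] at hmain
  change 0 ≤ cr (q - p) (r - p) / Real.sqrt 3 - 1 / 2
  have hs3 : 0 < Real.sqrt 3 := Real.sqrt_pos.2 (by norm_num)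
  have hsq : Real.sqrt 3 ^ 2 = 3 := Real.sq_sqrt (by norm_num)
  have h5 : Real.sqrt 3 ≤ 2 * cr (q - p) (r - p) := by
    refine (pow_le_pow_iff_left₀ hs3.le (by linarith) two_ne_zero).1 ?_
    rw [hsq]
    linarith
  have h6 : 1 / 2 ≤ cr (q - p) (r - p) / Real.sqrt 3 := by
    rw [div_le_div_iff₀ two_pos hs3]
    linarith
  linarith

/-- elementary inequality on the lune -/
theorem cost0_nonneg {x y : ℝ} (hx : 0 ≤ x) (hy : 0 < y) (h1 : 1 ≤ x ^ 2 + y ^ 2)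
    (h2 : x ^ 2 + y ^ 2 ≤ 2 * y) : 0 ≤ x * y / Real.sqrt 3 + (y - 1) / 2 := by
  have hs3 : 0 < Real.sqrt 3 := Real.sqrt_pos.2 (by norm_num)
  have hsq : Real.sqrt 3 ^ 2 = 3 := Real.sq_sqrt (by norm_num)
  by_cases hy1 : 1 ≤ y
  · have : 0 ≤ x * y / Real.sqrt 3 := by positivity
    linarith
  · rw [not_le] at hy1
    have hy2 : 1 / 2 ≤ y := by linarith
    have h5 : (1 - y) * Real.sqrt 3 ≤ 2 * (x * y) := by
      refine (pow_le_pow_iff_left₀ (mul_nonneg (by linarith) hs3.le) (by positivity)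
        two_ne_zero).1 ?_
      have e1 : ((1 - y) * Real.sqrt 3) ^ 2 = 3 * (1 - y) ^ 2 := by
        rw [mul_pow, hsq]
        ring
      rw [e1]
      have e2 : 3 * (1 - y) ≤ 4 * (1 + y) * y ^ 2 := by nlinarith
      have e3 : 3 * (1 - y) ^ 2 ≤ 4 * (1 + y) * y ^ 2 * (1 - y) := by
        nlinarith
      have e4 : (1 - y ^ 2) * (4 * y ^ 2) ≤ x ^ 2 * (4 * y ^ 2) :=
        mul_le_mul_of_nonneg_right (by linarith) (by positivity)
      calc 3 * (1 - y) ^ 2 ≤ 4 * (1 + y) * y ^ 2 * (1 - y) := e3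
        _ = (1 - y ^ 2) * (4 * y ^ 2) := by ring
        _ ≤ x ^ 2 * (4 * y ^ 2) := e4
        _ = (2 * (x * y)) ^ 2 := by ring
    have h6 : (1 - y) / 2 ≤ x * y / Real.sqrt 3 := by
      rw [div_le_div_iff₀ two_pos hs3]
      linarith
    linarith

/-- the cost of a pair along a wall is nonnegative; more precisely -/
theorem cost_ge {A B : ℝ} {P : Finset ℂ} (h : Gen A B P) {k : Fin 4} {p q : ℂ}
    (he : (p, q) ∈ Wp A B P k) :
    |ip (q - p) (nv k)| * ip (q - p) (I * nv k) / Real.sqrt 3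
      + (ip (q - p) (I * nv k) - 1) / 2 ≤ cost A B k (p, q) ∧ 0 ≤ cost A B k (p, q) := by
  obtain ⟨h1, h2, -, -, hx, hy, hl, hu, -⟩ := Wp_facts h he
  have hs3 : 0 < Real.sqrt 3 := Real.sqrt_pos.2 (by norm_num)
  have habs : |ip (q - p) (nv k)| ≤ dw A B k p + dw A B k q := by
    rw [← hx, abs_le]
    constructor <;> linarith
  have hge : |ip (q - p) (nv k)| * ip (q - p) (I * nv k) / Real.sqrt 3
      + (ip (q - p) (I * nv k) - 1) / 2 ≤ cost A B k (p, q) := by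
    change _ ≤ (dw A B k p + dw A B k q) * ip (q - p) (I * nv k) / Real.sqrt 3
      + (ip (q - p) (I * nv k) - 1) / 2
    have h3 : |ip (q - p) (nv k)| * ip (q - p) (I * nv k) / Real.sqrt 3 ≤
        (dw A B k p + dw A B k q) * ip (q - p) (I * nv k) / Real.sqrt 3 :=
      div_le_div_of_nonneg_right (mul_le_mul_of_nonneg_right habs hy.le) hs3.le
    linarith
  refine ⟨hge, le_trans ?_ hge⟩
  refine cost0_nonneg (abs_nonneg _) hy ?_ ?_
  · rw [sq_abs]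
    exact hl
  · rw [sq_abs]
    exact hu

/-- along the wall the number of pairs is at most twice the length -/
theorem Wp_card_le {A B : ℝ} {P : Finset ℂ} (h : Gen A B P) (k : Fin 4)
    (htel : ∀ φ : ℂ → ℝ, ∀ a ∈ Nr P (cor A B k), ∀ b ∈ Nr P (cor A B (k + 1)),
      ∑ e ∈ Wp A B P k, (φ e.2 - φ e.1) = φ b - φ a) :
    ((Wp A B P k).card : ℝ) ≤ 2 * (A + B) := by
  obtain ⟨a, ha⟩ := Nr_nonempty h.nonempty (cor A B k)
  obtain ⟨b, hb⟩ := Nr_nonempty h.nonempty (cor A B (k + 1))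
  have h1 := htel (fun z => ip z (I * nv k)) a ha b hb
  have haP := h.sub a (mem_Nr.1 ha).1
  have hbP := h.sub b (mem_Nr.1 hb).1
  have hA := h.hA
  have hB := h.hB
  have h2 : ip b (I * nv k) - ip a (I * nv k) ≤ A + B := by
    obtain ⟨a1, a2, a3, a4⟩ := haP
    obtain ⟨b1, b2, b3, b4⟩ := hbP
    fin_cases k <;> simp [nv, ip] <;> linarith
  have h3 : ((Wp A B P k).card : ℝ) * (1 / 2) ≤
      ∑ e ∈ Wp A B P k, (ip e.2 (I * nv k) - ip e.1 (I * nv k)) := by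
    rw [← nsmul_eq_mul, ← Finset.sum_const]
    refine Finset.sum_le_sum fun e he => ?_
    obtain ⟨p, q⟩ := e
    obtain ⟨-, -, -, -, -, hy, hl, hu, -⟩ := Wp_facts h he
    rw [g11_ip_sub q p (I * nv k)] at hl hu
    change 1 / 2 ≤ ip q (I * nv k) - ip p (I * nv k)
    linarith
  have h4 : ∑ e ∈ Wp A B P k, (ip e.2 (I * nv k) - ip e.1 (I * nv k)) =
      ip b (I * nv k) - ip a (I * nv k) := h1
  linarith

end Pool.Agent.LG
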