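import Pool.Agent.Lib.MP_8026b0_co.G08
import Pool.Agent.Lib.MP_8026b0_co.G10
import Pool.Agent.Lib.MP_8026b0_co.G11

set_option autoImplicit false

/-! Row G12: Oler's inequality for rectangles. -/

namespace Pool.Agent.LG

open Complex

namespace G12

theorem gen_le {A B : ℝ} {P : Finset ℂ} (h : Gen A B P) :
    (P.card : ℝ) ≤ 2 / Real.sqrt 3 * A * B + A + B + 1 := by
  have h1 := deficiency h
  have h2 : 0 ≤ (∑ t ∈ Tr A B P, ex t) / 3 :=
    div_nonneg (Finset.sum_nonneg (fun t ht => ex_nonneg h ht)) (by norm_num)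
  have h3 : 0 ≤ ∑ k : Fin 4, ∑ e ∈ Wp A B P k, cost A B k e := by
    apply Finset.sum_nonneg
    intro k _
    apply Finset.sum_nonneg
    intro e he
    exact (cost_ge h (p := e.1) (q := e.2) he).2
  linarith

theorem mono {A B A' B' : ℝ} (hA : A ≤ A') (hB : B ≤ B') {N : ℕ} (h : Fits A B N) :
    Fits A' B' N := by
  obtain ⟨P, h1, h2, h3⟩ := h
  refine ⟨P, h1, ?_, h3⟩
  intro p hp
  obtain ⟨a, b, c, d⟩ := h2 p hp
  exact ⟨a, b.trans hA, c, d.trans hB⟩

end G12

theorem oler {A B : ℝ} (hA : 0 ≤ A) (hB : 0 ≤ B) {N : ℕ} (h : Fits A B N) :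
    (N : ℝ) ≤ 2 / Real.sqrt 3 * A * B + A + B + 1 := by
  have hpos : ∀ t : ℝ, 0 < t →
      (N : ℝ) ≤ 2 / Real.sqrt 3 * (A + t) * (B + t) + (A + t) + (B + t) + 1 := by
    intro t ht
    have hf : Fits (A + t) (B + t) N := G12.mono (by linarith) (by linarith) h
    exact reduce (L := 0) (fun x : ℝ × ℝ => 2 / Real.sqrt 3 * x.1 * x.2 + x.1 + x.2 + 1)
      (by fun_prop) (fun A B _ _ P hP => G12.gen_le hP) (by linarith) (by linarith) (by linarith)
      (by linarith) hf
  have hcont : Continuous (fun t : ℝ =>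
      2 / Real.sqrt 3 * (A + t) * (B + t) + (A + t) + (B + t) + 1) := by fun_prop
  have ht : Filter.Tendsto (fun t : ℝ =>
      2 / Real.sqrt 3 * (A + t) * (B + t) + (A + t) + (B + t) + 1) (nhdsWithin 0 (Set.Ioi 0))
      (nhds (2 / Real.sqrt 3 * A * B + A + B + 1)) := by
    have h1 := (hcont.tendsto 0).mono_left (nhdsWithin_le_nhds (s := Set.Ioi (0 : ℝ)))
    simpa using h1
  apply ge_of_tendsto ht
  filter_upwards [self_mem_nhdsWithin] with t ht
  exact hpos t ht

end Pool.Agent.LG
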