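import Pool.Agent.Lib.MP_8026b0_co.KReal

set_option autoImplicit false

/-! Row K01: one-variable polynomial bounds. -/

namespace Pool.Agent.LG

namespace K01

theorem bd5a_0 {s : ℝ} (h1 : 1 ≤ s) (h2 : s ≤ 4) :
    s * (6 * B5d s + 4 * s * B5dd s) ^ 2 + 100 * s * B5d s ^ 2 ≤ 90 ^ 2 := by
  have hu : 0 ≤ s - 1 := sub_nonneg.2 h1
  have hv : 0 ≤ 4 - s := sub_nonneg.2 h2
  have hp : 0 ≤ (4025461600 * (4 - s) ^ 9
      + 36526553760 * (s - 1) * (4 - s) ^ 8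
      + 146004257328 * (s - 1) ^ 2 * (4 - s) ^ 7
      + 341495862144 * (s - 1) ^ 3 * (4 - s) ^ 6
      + 493619858376 * (s - 1) ^ 4 * (4 - s) ^ 5
      + 449514193584 * (s - 1) ^ 5 * (4 - s) ^ 4
      + 536978101176 * (s - 1) ^ 6 * (4 - s) ^ 3
      + 3092867832 * (s - 1) ^ 7 * (4 - s) ^ 2
      + 49606918215 * (s - 1) ^ 8 * (4 - s)
      + 3570857500 * (s - 1) ^ 9) / 9841500000 := by positivity
  have key : 90 ^ 2 - (s * (6 * B5d s + 4 * s * B5dd s) ^ 2 + 100 * s * B5d s ^ 2) = (4025461600 * (4 - s) ^ 9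
      + 36526553760 * (s - 1) * (4 - s) ^ 8
      + 146004257328 * (s - 1) ^ 2 * (4 - s) ^ 7
      + 341495862144 * (s - 1) ^ 3 * (4 - s) ^ 6
      + 493619858376 * (s - 1) ^ 4 * (4 - s) ^ 5
      + 449514193584 * (s - 1) ^ 5 * (4 - s) ^ 4
      + 536978101176 * (s - 1) ^ 6 * (4 - s) ^ 3
      + 3092867832 * (s - 1) ^ 7 * (4 - s) ^ 2
      + 49606918215 * (s - 1) ^ 8 * (4 - s)
      + 3570857500 * (s - 1) ^ 9) / 9841500000 := by
    simp only [B5d, B5dd]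
    ring
  rw [← key] at hp
  linarith

theorem bd5a_1 {s : ℝ} (h1 : 4 ≤ s) (h2 : s ≤ 21 / 5) :
    s * (6 * B5d s + 4 * s * B5dd s) ^ 2 + 100 * s * B5d s ^ 2 ≤ 90 ^ 2 := by
  have hu : 0 ≤ s - 4 := sub_nonneg.2 h1
  have hv : 0 ≤ 21 / 5 - s := sub_nonneg.2 h2
  have hp : 0 ≤ (11158929687500 * (21 / 5 - s) ^ 9
      + 96790950371875 * (s - 4) * (21 / 5 - s) ^ 8
      + 368922639671000 * (s - 4) ^ 2 * (21 / 5 - s) ^ 7
      + 808176433528600 * (s - 4) ^ 3 * (21 / 5 - s) ^ 6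
      + 1115640417196400 * (s - 4) ^ 4 * (21 / 5 - s) ^ 5
      + 998468664212968 * (s - 4) ^ 5 * (21 / 5 - s) ^ 4
      + 571647082749824 * (s - 4) ^ 6 * (21 / 5 - s) ^ 3
      + 196837098364144 * (s - 4) ^ 7 * (21 / 5 - s) ^ 2
      + 34902875534624 * (s - 4) ^ 8 * (21 / 5 - s)
      + 1998798329568 * (s - 4) ^ 9) / 800 := by positivity
  have key : 90 ^ 2 - (s * (6 * B5d s + 4 * s * B5dd s) ^ 2 + 100 * s * B5d s ^ 2) = (11158929687500 * (21 / 5 - s) ^ 9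
      + 96790950371875 * (s - 4) * (21 / 5 - s) ^ 8
      + 368922639671000 * (s - 4) ^ 2 * (21 / 5 - s) ^ 7
      + 808176433528600 * (s - 4) ^ 3 * (21 / 5 - s) ^ 6
      + 1115640417196400 * (s - 4) ^ 4 * (21 / 5 - s) ^ 5
      + 998468664212968 * (s - 4) ^ 5 * (21 / 5 - s) ^ 4
      + 571647082749824 * (s - 4) ^ 6 * (21 / 5 - s) ^ 3
      + 196837098364144 * (s - 4) ^ 7 * (21 / 5 - s) ^ 2
      + 34902875534624 * (s - 4) ^ 8 * (21 / 5 - s)
      + 1998798329568 * (s - 4) ^ 9) / 800 := by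
    simp only [B5d, B5dd]
    ring
  rw [← key] at hp
  linarith

theorem bd5b_0 {s : ℝ} (h1 : 1 ≤ s) (h2 : s ≤ 21 / 5) :
    (-24 * B5 s + 2 * s * B5d s) ^ 2 + 100 * s ^ 2 * B5d s ^ 2 ≤ 90 ^ 2 * s := by
  have hu : 0 ≤ s - 1 := sub_nonneg.2 h1
  have hv : 0 ≤ 21 / 5 - s := sub_nonneg.2 h2
  have hp : 0 ≤ (1527969921875 * (21 / 5 - s) ^ 10
      + 20459897265625 * (s - 1) * (21 / 5 - s) ^ 9
      + 113655297593750 * (s - 1) ^ 2 * (21 / 5 - s) ^ 8
      + 363313165412500 * (s - 1) ^ 3 * (21 / 5 - s) ^ 7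
      + 739202982061250 * (s - 1) ^ 4 * (21 / 5 - s) ^ 6
      + 1014926533342750 * (s - 1) ^ 5 * (21 / 5 - s) ^ 5
      + 888858583509800 * (s - 1) ^ 6 * (21 / 5 - s) ^ 4
      + 674541613891300 * (s - 1) ^ 7 * (21 / 5 - s) ^ 3
      + 222581159189555 * (s - 1) ^ 8 * (21 / 5 - s) ^ 2
      + 58621821397905 * (s - 1) ^ 9 * (21 / 5 - s)
      + 6460750376442 * (s - 1) ^ 10) / 21474836480000 := by positivity
  have key : 90 ^ 2 * s - ((-24 * B5 s + 2 * s * B5d s) ^ 2 + 100 * s ^ 2 * B5d s ^ 2) = (1527969921875 * (21 / 5 - s) ^ 10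
      + 20459897265625 * (s - 1) * (21 / 5 - s) ^ 9
      + 113655297593750 * (s - 1) ^ 2 * (21 / 5 - s) ^ 8
      + 363313165412500 * (s - 1) ^ 3 * (21 / 5 - s) ^ 7
      + 739202982061250 * (s - 1) ^ 4 * (21 / 5 - s) ^ 6
      + 1014926533342750 * (s - 1) ^ 5 * (21 / 5 - s) ^ 5
      + 888858583509800 * (s - 1) ^ 6 * (21 / 5 - s) ^ 4
      + 674541613891300 * (s - 1) ^ 7 * (21 / 5 - s) ^ 3
      + 222581159189555 * (s - 1) ^ 8 * (21 / 5 - s) ^ 2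
      + 58621821397905 * (s - 1) ^ 9 * (21 / 5 - s)
      + 6460750376442 * (s - 1) ^ 10) / 21474836480000 := by
    simp only [B5, B5d]
    ring
  rw [← key] at hp
  linarith

theorem bd7a_0 {s : ℝ} (h1 : 1 ≤ s) (h2 : s ≤ 21 / 5) :
    s * (6 * B7d s + 4 * s * B7dd s) ^ 2 + 196 * s * B7d s ^ 2 ≤ 31 ^ 2 := by
  have hu : 0 ≤ s - 1 := sub_nonneg.2 h1
  have hv : 0 ≤ 21 / 5 - s := sub_nonneg.2 h2
  have hp : 0 ≤ (405006265625 * (21 / 5 - s) ^ 7
      + 3480368609375 * (s - 1) * (21 / 5 - s) ^ 6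
      + 8443783438125 * (s - 1) ^ 2 * (21 / 5 - s) ^ 5
      + 4028445554875 * (s - 1) ^ 3 * (21 / 5 - s) ^ 4
      + 23929967634475 * (s - 1) ^ 4 * (21 / 5 - s) ^ 3
      + 10213070913885 * (s - 1) ^ 5 * (21 / 5 - s) ^ 2
      + 1111809255375 * (s - 1) ^ 6 * (21 / 5 - s)
      + 32489384393 * (s - 1) ^ 7) / 1677721600000 := by positivity
  have key : 31 ^ 2 - (s * (6 * B7d s + 4 * s * B7dd s) ^ 2 + 196 * s * B7d s ^ 2) = (405006265625 * (21 / 5 - s) ^ 7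
      + 3480368609375 * (s - 1) * (21 / 5 - s) ^ 6
      + 8443783438125 * (s - 1) ^ 2 * (21 / 5 - s) ^ 5
      + 4028445554875 * (s - 1) ^ 3 * (21 / 5 - s) ^ 4
      + 23929967634475 * (s - 1) ^ 4 * (21 / 5 - s) ^ 3
      + 10213070913885 * (s - 1) ^ 5 * (21 / 5 - s) ^ 2
      + 1111809255375 * (s - 1) ^ 6 * (21 / 5 - s)
      + 32489384393 * (s - 1) ^ 7) / 1677721600000 := by
    simp only [B7d, B7dd]
    ring
  rw [← key] at hp
  linarith

theorem bd7b_0 {s : ℝ} (h1 : 1 ≤ s) (h2 : s ≤ 21 / 5) :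
    (-48 * B7r s + 2 * s * B7d s) ^ 2 + 196 * s ^ 2 * B7d s ^ 2 ≤ 31 ^ 2 * s := by
  have hu : 0 ≤ s - 1 := sub_nonneg.2 h1
  have hv : 0 ≤ 21 / 5 - s := sub_nonneg.2 h2
  have hp : 0 ≤ (9002041015625 * (21 / 5 - s) ^ 8
      + 94005033125000 * (s - 1) * (21 / 5 - s) ^ 7
      + 334588895437500 * (s - 1) ^ 2 * (21 / 5 - s) ^ 6
      + 1638087970675000 * (s - 1) ^ 3 * (21 / 5 - s) ^ 5
      + 1467200158093750 * (s - 1) ^ 4 * (21 / 5 - s) ^ 4
      + 1651172971875000 * (s - 1) ^ 5 * (21 / 5 - s) ^ 3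
      + 1141363970544700 * (s - 1) ^ 6 * (21 / 5 - s) ^ 2
      + 341928329014280 * (s - 1) ^ 7 * (21 / 5 - s)
      + 38221874859657 * (s - 1) ^ 8) / 134217728000000 := by positivity
  have key : 31 ^ 2 * s - ((-48 * B7r s + 2 * s * B7d s) ^ 2 + 196 * s ^ 2 * B7d s ^ 2) = (9002041015625 * (21 / 5 - s) ^ 8
      + 94005033125000 * (s - 1) * (21 / 5 - s) ^ 7
      + 334588895437500 * (s - 1) ^ 2 * (21 / 5 - s) ^ 6
      + 1638087970675000 * (s - 1) ^ 3 * (21 / 5 - s) ^ 5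
      + 1467200158093750 * (s - 1) ^ 4 * (21 / 5 - s) ^ 4
      + 1651172971875000 * (s - 1) ^ 5 * (21 / 5 - s) ^ 3
      + 1141363970544700 * (s - 1) ^ 6 * (21 / 5 - s) ^ 2
      + 341928329014280 * (s - 1) ^ 7 * (21 / 5 - s)
      + 38221874859657 * (s - 1) ^ 8) / 134217728000000 := by
    simp only [B7r, B7d]
    ring
  rw [← key] at hp
  linarith

theorem bd5c_0 {s : ℝ} (h1 : 1 ≤ s) (h2 : s ≤ 67 / 20) :
    s * (6 * B5d s + 4 * s * B5dd s) ^ 2 ≤ 29 ^ 2 := by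
  have hu : 0 ≤ s - 1 := sub_nonneg.2 h1
  have hv : 0 ≤ 67 / 20 - s := sub_nonneg.2 h2
  have hp : 0 ≤ (679026360320000000 * (67 / 20 - s) ^ 9
      + 6146931739852800000 * (s - 1) * (67 / 20 - s) ^ 8
      + 25416591338078208000 * (s - 1) ^ 2 * (67 / 20 - s) ^ 7
      + 60470744348752281600 * (s - 1) ^ 3 * (67 / 20 - s) ^ 6
      + 75248416838091571200 * (s - 1) ^ 4 * (67 / 20 - s) ^ 5
      + 58430092938252244992 * (s - 1) ^ 5 * (67 / 20 - s) ^ 4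
      + 103341947657313288192 * (s - 1) ^ 6 * (67 / 20 - s) ^ 3
      + 19935270811221081984 * (s - 1) ^ 7 * (67 / 20 - s) ^ 2
      + 43207282259833068 * (s - 1) ^ 8 * (67 / 20 - s)
      + 28228462747741997 * (s - 1) ^ 9) / 1790608756964427200 := by positivity
  have key : 29 ^ 2 - (s * (6 * B5d s + 4 * s * B5dd s) ^ 2) = (679026360320000000 * (67 / 20 - s) ^ 9
      + 6146931739852800000 * (s - 1) * (67 / 20 - s) ^ 8
      + 25416591338078208000 * (s - 1) ^ 2 * (67 / 20 - s) ^ 7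
      + 60470744348752281600 * (s - 1) ^ 3 * (67 / 20 - s) ^ 6
      + 75248416838091571200 * (s - 1) ^ 4 * (67 / 20 - s) ^ 5
      + 58430092938252244992 * (s - 1) ^ 5 * (67 / 20 - s) ^ 4
      + 103341947657313288192 * (s - 1) ^ 6 * (67 / 20 - s) ^ 3
      + 19935270811221081984 * (s - 1) ^ 7 * (67 / 20 - s) ^ 2
      + 43207282259833068 * (s - 1) ^ 8 * (67 / 20 - s)
      + 28228462747741997 * (s - 1) ^ 9) / 1790608756964427200 := by
    simp only [B5d, B5dd]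
    ring
  rw [← key] at hp
  linarith

theorem bd5c_1 {s : ℝ} (h1 : 67 / 20 ≤ s) (h2 : s ≤ 4) :
    s * (6 * B5d s + 4 * s * B5dd s) ^ 2 ≤ 29 ^ 2 := by
  have hu : 0 ≤ s - 67 / 20 := sub_nonneg.2 h1
  have hv : 0 ≤ 4 - s := sub_nonneg.2 h2
  have hp : 0 ≤ (2171420211364769 * (4 - s) ^ 9
      + 24028928337811536 * (s - 67 / 20) * (4 - s) ^ 8
      + 235325977570859328 * (s - 67 / 20) ^ 2 * (4 - s) ^ 7
      + 1217694959097621504 * (s - 67 / 20) ^ 3 * (4 - s) ^ 6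
      + 3372482347538241024 * (s - 67 / 20) ^ 4 * (4 - s) ^ 5
      + 5345897064431616000 * (s - 67 / 20) ^ 5 * (4 - s) ^ 4
      + 4904156122028851200 * (s - 67 / 20) ^ 6 * (4 - s) ^ 3
      + 2435661301284864000 * (s - 67 / 20) ^ 7 * (4 - s) ^ 2
      + 510677826969600000 * (s - 67 / 20) ^ 8 * (4 - s)
      + 1487912960000000 * (s - 67 / 20) ^ 9) / 1305169153600 := by positivity
  have key : 29 ^ 2 - (s * (6 * B5d s + 4 * s * B5dd s) ^ 2) = (2171420211364769 * (4 - s) ^ 9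
      + 24028928337811536 * (s - 67 / 20) * (4 - s) ^ 8
      + 235325977570859328 * (s - 67 / 20) ^ 2 * (4 - s) ^ 7
      + 1217694959097621504 * (s - 67 / 20) ^ 3 * (4 - s) ^ 6
      + 3372482347538241024 * (s - 67 / 20) ^ 4 * (4 - s) ^ 5
      + 5345897064431616000 * (s - 67 / 20) ^ 5 * (4 - s) ^ 4
      + 4904156122028851200 * (s - 67 / 20) ^ 6 * (4 - s) ^ 3
      + 2435661301284864000 * (s - 67 / 20) ^ 7 * (4 - s) ^ 2
      + 510677826969600000 * (s - 67 / 20) ^ 8 * (4 - s)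
      + 1487912960000000 * (s - 67 / 20) ^ 9) / 1305169153600 := by
    simp only [B5d, B5dd]
    ring
  rw [← key] at hp
  linarith

theorem bd7c_0 {s : ℝ} (h1 : 1 ≤ s) (h2 : s ≤ 4) :
    s * (6 * B7d s + 4 * s * B7dd s) ^ 2 ≤ 27 ^ 2 := by
  have hu : 0 ≤ s - 1 := sub_nonneg.2 h1
  have hv : 0 ≤ 4 - s := sub_nonneg.2 h2
  have hp : 0 ≤ (548811 * (4 - s) ^ 7
      + 3542742 * (s - 1) * (4 - s) ^ 6
      + 8542289 * (s - 1) ^ 2 * (4 - s) ^ 5
      + 14626948 * (s - 1) ^ 3 * (4 - s) ^ 4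
      + 30313913 * (s - 1) ^ 4 * (4 - s) ^ 3
      + 12417230 * (s - 1) ^ 5 * (4 - s) ^ 2
      + 1341571 * (s - 1) ^ 6 * (4 - s)
      + 46976 * (s - 1) ^ 7) / 1687500 := by positivity
  have key : 27 ^ 2 - (s * (6 * B7d s + 4 * s * B7dd s) ^ 2) = (548811 * (4 - s) ^ 7
      + 3542742 * (s - 1) * (4 - s) ^ 6
      + 8542289 * (s - 1) ^ 2 * (4 - s) ^ 5
      + 14626948 * (s - 1) ^ 3 * (4 - s) ^ 4
      + 30313913 * (s - 1) ^ 4 * (4 - s) ^ 3
      + 12417230 * (s - 1) ^ 5 * (4 - s) ^ 2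
      + 1341571 * (s - 1) ^ 6 * (4 - s)
      + 46976 * (s - 1) ^ 7) / 1687500 := by
    simp only [B7d, B7dd]
    ring
  rw [← key] at hp
  linarith

theorem bd5d_0 {s : ℝ} (h1 : 1 ≤ s) (h2 : s ≤ 137 / 40) :
    25 ^ 2 * (s * B5 s ^ 2) ≤ 14 ^ 2 := by
  have hu : 0 ≤ s - 1 := sub_nonneg.2 h1
  have hv : 0 ≤ 137 / 40 - s := sub_nonneg.2 h2
  have hp : 0 ≤ (16851035750400000000000 * (137 / 40 - s) ^ 11
      + 224662860595200000000000 * (s - 1) * (137 / 40 - s) ^ 10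
      + 1118094824004648960000000 * (s - 1) ^ 2 * (137 / 40 - s) ^ 9
      + 3433297153785593856000000 * (s - 1) ^ 3 * (137 / 40 - s) ^ 8
      + 7294460145869756825600000 * (s - 1) ^ 4 * (137 / 40 - s) ^ 7
      + 9655896853554295603200000 * (s - 1) ^ 5 * (137 / 40 - s) ^ 6
      + 12258440973075238977536000 * (s - 1) ^ 6 * (137 / 40 - s) ^ 5
      + 4199406657403830561587200 * (s - 1) ^ 7 * (137 / 40 - s) ^ 4
      + 13886692955106717952000 * (s - 1) ^ 8 * (137 / 40 - s) ^ 3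
      + 156173034179715662167040 * (s - 1) ^ 9 * (137 / 40 - s) ^ 2
      + 140654238730850976564440 * (s - 1) ^ 10 * (137 / 40 - s)
      + 18472163248932154800127 * (s - 1) ^ 11) / 1831171591905485856448768 := by positivity
  have key : 14 ^ 2 - (25 ^ 2 * (s * B5 s ^ 2)) = (16851035750400000000000 * (137 / 40 - s) ^ 11
      + 224662860595200000000000 * (s - 1) * (137 / 40 - s) ^ 10
      + 1118094824004648960000000 * (s - 1) ^ 2 * (137 / 40 - s) ^ 9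
      + 3433297153785593856000000 * (s - 1) ^ 3 * (137 / 40 - s) ^ 8
      + 7294460145869756825600000 * (s - 1) ^ 4 * (137 / 40 - s) ^ 7
      + 9655896853554295603200000 * (s - 1) ^ 5 * (137 / 40 - s) ^ 6
      + 12258440973075238977536000 * (s - 1) ^ 6 * (137 / 40 - s) ^ 5
      + 4199406657403830561587200 * (s - 1) ^ 7 * (137 / 40 - s) ^ 4
      + 13886692955106717952000 * (s - 1) ^ 8 * (137 / 40 - s) ^ 3
      + 156173034179715662167040 * (s - 1) ^ 9 * (137 / 40 - s) ^ 2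
      + 140654238730850976564440 * (s - 1) ^ 10 * (137 / 40 - s)
      + 18472163248932154800127 * (s - 1) ^ 11) / 1831171591905485856448768 := by
    simp only [B5]
    ring
  rw [← key] at hp
  linarith

theorem bd5d_1 {s : ℝ} (h1 : 137 / 40 ≤ s) (h2 : s ≤ 4) :
    25 ^ 2 * (s * B5 s ^ 2) ≤ 14 ^ 2 := by
  have hu : 0 ≤ s - 137 / 40 := sub_nonneg.2 h1
  have hv : 0 ≤ 4 - s := sub_nonneg.2 h2
  have hp : 0 ≤ (18472163248932154800127 * (4 - s) ^ 11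
      + 218022762863720328610160 * (s - 137 / 40) * (4 - s) ^ 10
      + 1151080012675507411394240 * (s - 137 / 40) ^ 2 * (4 - s) ^ 9
      + 3571408631552925736345600 * (s - 137 / 40) ^ 3 * (4 - s) ^ 8
      + 7195917194461788469043200 * (s - 137 / 40) ^ 4 * (4 - s) ^ 7
      + 9818702562686989598720000 * (s - 137 / 40) ^ 5 * (4 - s) ^ 6
      + 9171246559250622382080000 * (s - 137 / 40) ^ 6 * (4 - s) ^ 5
      + 5781279906255837593600000 * (s - 137 / 40) ^ 7 * (4 - s) ^ 4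
      + 2352301974375628800000000 * (s - 137 / 40) ^ 8 * (4 - s) ^ 3
      + 559718076115845120000000 * (s - 137 / 40) ^ 9 * (4 - s) ^ 2
      + 60785477183078400000000 * (s - 137 / 40) ^ 10 * (4 - s)
      + 671021531136000000000 * (s - 137 / 40) ^ 11) / 243919298025965312 := by positivity
  have key : 14 ^ 2 - (25 ^ 2 * (s * B5 s ^ 2)) = (18472163248932154800127 * (4 - s) ^ 11
      + 218022762863720328610160 * (s - 137 / 40) * (4 - s) ^ 10
      + 1151080012675507411394240 * (s - 137 / 40) ^ 2 * (4 - s) ^ 9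
      + 3571408631552925736345600 * (s - 137 / 40) ^ 3 * (4 - s) ^ 8
      + 7195917194461788469043200 * (s - 137 / 40) ^ 4 * (4 - s) ^ 7
      + 9818702562686989598720000 * (s - 137 / 40) ^ 5 * (4 - s) ^ 6
      + 9171246559250622382080000 * (s - 137 / 40) ^ 6 * (4 - s) ^ 5
      + 5781279906255837593600000 * (s - 137 / 40) ^ 7 * (4 - s) ^ 4
      + 2352301974375628800000000 * (s - 137 / 40) ^ 8 * (4 - s) ^ 3
      + 559718076115845120000000 * (s - 137 / 40) ^ 9 * (4 - s) ^ 2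
      + 60785477183078400000000 * (s - 137 / 40) ^ 10 * (4 - s)
      + 671021531136000000000 * (s - 137 / 40) ^ 11) / 243919298025965312 := by
    simp only [B5]
    ring
  rw [← key] at hp
  linarith

theorem bd7d_0 {s : ℝ} (h1 : 1 ≤ s) (h2 : s ≤ 29 / 8) :
    49 ^ 2 * (s * B7r s ^ 2) ≤ 33 ^ 2 := by
  have hu : 0 ≤ s - 1 := sub_nonneg.2 h1
  have hv : 0 ≤ 29 / 8 - s := sub_nonneg.2 h2
  have hp : 0 ≤ (31505514496000000 * (29 / 8 - s) ^ 9
      + 189757806084096000 * (s - 1) * (29 / 8 - s) ^ 8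
      + 154789714537218048 * (s - 1) ^ 2 * (29 / 8 - s) ^ 7
      + 543912103848443904 * (s - 1) ^ 3 * (29 / 8 - s) ^ 6
      + 5705715036210954240 * (s - 1) ^ 4 * (29 / 8 - s) ^ 5
      + 7515562890941952000 * (s - 1) ^ 5 * (29 / 8 - s) ^ 4
      + 3420441992808960000 * (s - 1) ^ 6 * (29 / 8 - s) ^ 3
      + 517059256873200000 * (s - 1) ^ 7 * (29 / 8 - s) ^ 2
      + 6558603464775000 * (s - 1) ^ 8 * (29 / 8 - s)
      + 1576616528171875 * (s - 1) ^ 9) / 198570011645250000 := by positivity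
  have key : 33 ^ 2 - (49 ^ 2 * (s * B7r s ^ 2)) = (31505514496000000 * (29 / 8 - s) ^ 9
      + 189757806084096000 * (s - 1) * (29 / 8 - s) ^ 8
      + 154789714537218048 * (s - 1) ^ 2 * (29 / 8 - s) ^ 7
      + 543912103848443904 * (s - 1) ^ 3 * (29 / 8 - s) ^ 6
      + 5705715036210954240 * (s - 1) ^ 4 * (29 / 8 - s) ^ 5
      + 7515562890941952000 * (s - 1) ^ 5 * (29 / 8 - s) ^ 4
      + 3420441992808960000 * (s - 1) ^ 6 * (29 / 8 - s) ^ 3
      + 517059256873200000 * (s - 1) ^ 7 * (29 / 8 - s) ^ 2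
      + 6558603464775000 * (s - 1) ^ 8 * (29 / 8 - s)
      + 1576616528171875 * (s - 1) ^ 9) / 198570011645250000 := by
    simp only [B7r]
    ring
  rw [← key] at hp
  linarith

theorem bd7d_1 {s : ℝ} (h1 : 29 / 8 ≤ s) (h2 : s ≤ 4) :
    49 ^ 2 * (s * B7r s ^ 2) ≤ 33 ^ 2 := by
  have hu : 0 ≤ s - 29 / 8 := sub_nonneg.2 h1
  have hv : 0 ≤ 4 - s := sub_nonneg.2 h2
  have hp : 0 ≤ (1576616528171875 * (4 - s) ^ 9
      + 15279683794800000 * (s - 29 / 8) * (4 - s) ^ 8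
      + 76119043184400000 * (s - 29 / 8) ^ 2 * (4 - s) ^ 7
      + 237868754014080000 * (s - 29 / 8) ^ 3 * (4 - s) ^ 6
      + 484756015683072000 * (s - 29 / 8) ^ 4 * (4 - s) ^ 5
      + 648896022790471680 * (s - 29 / 8) ^ 5 * (4 - s) ^ 4
      + 564478812560818176 * (s - 29 / 8) ^ 6 * (4 - s) ^ 3
      + 307018316818415616 * (s - 29 / 8) ^ 7 * (4 - s) ^ 2
      + 94831235070689280 * (s - 29 / 8) ^ 8 * (4 - s)
      + 12698931951566848 * (s - 29 / 8) ^ 9) / 4920750000 := by positivity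
  have key : 33 ^ 2 - (49 ^ 2 * (s * B7r s ^ 2)) = (1576616528171875 * (4 - s) ^ 9
      + 15279683794800000 * (s - 29 / 8) * (4 - s) ^ 8
      + 76119043184400000 * (s - 29 / 8) ^ 2 * (4 - s) ^ 7
      + 237868754014080000 * (s - 29 / 8) ^ 3 * (4 - s) ^ 6
      + 484756015683072000 * (s - 29 / 8) ^ 4 * (4 - s) ^ 5
      + 648896022790471680 * (s - 29 / 8) ^ 5 * (4 - s) ^ 4
      + 564478812560818176 * (s - 29 / 8) ^ 6 * (4 - s) ^ 3
      + 307018316818415616 * (s - 29 / 8) ^ 7 * (4 - s) ^ 2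
      + 94831235070689280 * (s - 29 / 8) ^ 8 * (4 - s)
      + 12698931951566848 * (s - 29 / 8) ^ 9) / 4920750000 := by
    simp only [B7r]
    ring
  rw [← key] at hp
  linarith

theorem bd5e_0 {s : ℝ} (h1 : 1 ≤ s) (h2 : s ≤ 31 / 8) :
    s * (B5 s + 2 * s * B5d s) ^ 2 ≤ (23 / 2) ^ 2 := by
  have hu : 0 ≤ s - 1 := sub_nonneg.2 h1
  have hv : 0 ≤ 31 / 8 - s := sub_nonneg.2 h2
  have hp : 0 ≤ (8529324013518848 * (31 / 8 - s) ^ 11
      + 94276061155557376 * (s - 1) * (31 / 8 - s) ^ 10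
      + 472685153349533696 * (s - 1) ^ 2 * (31 / 8 - s) ^ 9
      + 1407013995436572672 * (s - 1) ^ 3 * (31 / 8 - s) ^ 8
      + 2798206478136115200 * (s - 1) ^ 4 * (31 / 8 - s) ^ 7
      + 4005345970659262464 * (s - 1) ^ 5 * (31 / 8 - s) ^ 6
      + 3527949251486679040 * (s - 1) ^ 6 * (31 / 8 - s) ^ 5
      + 1276428350716919808 * (s - 1) ^ 7 * (31 / 8 - s) ^ 4
      + 2809862851606753280 * (s - 1) ^ 8 * (31 / 8 - s) ^ 3
      + 433613870783081472 * (s - 1) ^ 9 * (31 / 8 - s) ^ 2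
      + 3076380538205464 * (s - 1) ^ 10 * (31 / 8 - s)
      + 848511171233161 * (s - 1) ^ 11) / 7204610645852000000 := by positivity
  have key : (23 / 2) ^ 2 - (s * (B5 s + 2 * s * B5d s) ^ 2) = (8529324013518848 * (31 / 8 - s) ^ 11
      + 94276061155557376 * (s - 1) * (31 / 8 - s) ^ 10
      + 472685153349533696 * (s - 1) ^ 2 * (31 / 8 - s) ^ 9
      + 1407013995436572672 * (s - 1) ^ 3 * (31 / 8 - s) ^ 8
      + 2798206478136115200 * (s - 1) ^ 4 * (31 / 8 - s) ^ 7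
      + 4005345970659262464 * (s - 1) ^ 5 * (31 / 8 - s) ^ 6
      + 3527949251486679040 * (s - 1) ^ 6 * (31 / 8 - s) ^ 5
      + 1276428350716919808 * (s - 1) ^ 7 * (31 / 8 - s) ^ 4
      + 2809862851606753280 * (s - 1) ^ 8 * (31 / 8 - s) ^ 3
      + 433613870783081472 * (s - 1) ^ 9 * (31 / 8 - s) ^ 2
      + 3076380538205464 * (s - 1) ^ 10 * (31 / 8 - s)
      + 848511171233161 * (s - 1) ^ 11) / 7204610645852000000 := by
    simp only [B5, B5d]
    ring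
  rw [← key] at hp
  linarith

theorem bd5e_1 {s : ℝ} (h1 : 31 / 8 ≤ s) (h2 : s ≤ 21 / 5) :
    s * (B5 s + 2 * s * B5d s) ^ 2 ≤ (23 / 2) ^ 2 := by
  have hu : 0 ≤ s - 31 / 8 := sub_nonneg.2 h1
  have hv : 0 ≤ 21 / 5 - s := sub_nonneg.2 h2
  have hp : 0 ≤ (876684393715512048828125 * (21 / 5 - s) ^ 11
      + 10374354682926270346875000 * (s - 31 / 8) * (21 / 5 - s) ^ 10
      + 61460949892830303760000000 * (s - 31 / 8) ^ 2 * (21 / 5 - s) ^ 9
      + 232588680089018552768000000 * (s - 31 / 8) ^ 3 * (21 / 5 - s) ^ 8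
      + 602773365869391293696000000 * (s - 31 / 8) ^ 4 * (21 / 5 - s) ^ 7
      + 1095356425261299893207040000 * (s - 31 / 8) ^ 5 * (21 / 5 - s) ^ 6
      + 1403891957844623741026304000 * (s - 31 / 8) ^ 6 * (21 / 5 - s) ^ 5
      + 1259712140307946493129523200 * (s - 31 / 8) ^ 7 * (21 / 5 - s) ^ 4
      + 772502396218421326066483200 * (s - 31 / 8) ^ 8 * (21 / 5 - s) ^ 3
      + 307530870253267678731960320 * (s - 31 / 8) ^ 9 * (21 / 5 - s) ^ 2
      + 71329217959002461385523200 * (s - 31 / 8) ^ 10 * (21 / 5 - s)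
      + 7272101487894279013531648 * (s - 31 / 8) ^ 11) / 286745663045920000 := by positivity
  have key : (23 / 2) ^ 2 - (s * (B5 s + 2 * s * B5d s) ^ 2) = (876684393715512048828125 * (21 / 5 - s) ^ 11
      + 10374354682926270346875000 * (s - 31 / 8) * (21 / 5 - s) ^ 10
      + 61460949892830303760000000 * (s - 31 / 8) ^ 2 * (21 / 5 - s) ^ 9
      + 232588680089018552768000000 * (s - 31 / 8) ^ 3 * (21 / 5 - s) ^ 8
      + 602773365869391293696000000 * (s - 31 / 8) ^ 4 * (21 / 5 - s) ^ 7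
      + 1095356425261299893207040000 * (s - 31 / 8) ^ 5 * (21 / 5 - s) ^ 6
      + 1403891957844623741026304000 * (s - 31 / 8) ^ 6 * (21 / 5 - s) ^ 5
      + 1259712140307946493129523200 * (s - 31 / 8) ^ 7 * (21 / 5 - s) ^ 4
      + 772502396218421326066483200 * (s - 31 / 8) ^ 8 * (21 / 5 - s) ^ 3
      + 307530870253267678731960320 * (s - 31 / 8) ^ 9 * (21 / 5 - s) ^ 2
      + 71329217959002461385523200 * (s - 31 / 8) ^ 10 * (21 / 5 - s)
      + 7272101487894279013531648 * (s - 31 / 8) ^ 11) / 286745663045920000 := by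
    simp only [B5, B5d]
    ring
  rw [← key] at hp
  linarith

theorem bd7e_0 {s : ℝ} (h1 : 1 ≤ s) (h2 : s ≤ 83 / 20) :
    s * (B7r s + 2 * s * B7d s) ^ 2 ≤ 8 ^ 2 := by
  have hu : 0 ≤ s - 1 := sub_nonneg.2 h1
  have hv : 0 ≤ 83 / 20 - s := sub_nonneg.2 h2
  have hp : 0 ≤ (865463808000000000 * (83 / 20 - s) ^ 9
      + 7982934809600000000 * (s - 1) * (83 / 20 - s) ^ 8
      + 34790635513600000000 * (s - 1) ^ 2 * (83 / 20 - s) ^ 7
      + 86174152613696000000 * (s - 1) ^ 3 * (83 / 20 - s) ^ 6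
      + 93271042837436800000 * (s - 1) ^ 4 * (83 / 20 - s) ^ 5
      + 1215849472668320000 * (s - 1) ^ 5 * (83 / 20 - s) ^ 4
      + 43407189256605664000 * (s - 1) ^ 6 * (83 / 20 - s) ^ 3
      + 46955936005503255200 * (s - 1) ^ 7 * (83 / 20 - s) ^ 2
      + 10907064549156806620 * (s - 1) ^ 8 * (83 / 20 - s)
      + 248972441354901797 * (s - 1) ^ 9) / 434272615468161750000 := by positivity
  have key : 8 ^ 2 - (s * (B7r s + 2 * s * B7d s) ^ 2) = (865463808000000000 * (83 / 20 - s) ^ 9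
      + 7982934809600000000 * (s - 1) * (83 / 20 - s) ^ 8
      + 34790635513600000000 * (s - 1) ^ 2 * (83 / 20 - s) ^ 7
      + 86174152613696000000 * (s - 1) ^ 3 * (83 / 20 - s) ^ 6
      + 93271042837436800000 * (s - 1) ^ 4 * (83 / 20 - s) ^ 5
      + 1215849472668320000 * (s - 1) ^ 5 * (83 / 20 - s) ^ 4
      + 43407189256605664000 * (s - 1) ^ 6 * (83 / 20 - s) ^ 3
      + 46955936005503255200 * (s - 1) ^ 7 * (83 / 20 - s) ^ 2
      + 10907064549156806620 * (s - 1) ^ 8 * (83 / 20 - s)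
      + 248972441354901797 * (s - 1) ^ 9) / 434272615468161750000 := by
    simp only [B7r, B7d]
    ring
  rw [← key] at hp
  linarith

theorem bd7e_1 {s : ℝ} (h1 : 83 / 20 ≤ s) (h2 : s ≤ 21 / 5) :
    s * (B7r s + 2 * s * B7d s) ^ 2 ≤ 8 ^ 2 := by
  have hu : 0 ≤ s - 83 / 20 := sub_nonneg.2 h1
  have hv : 0 ≤ 21 / 5 - s := sub_nonneg.2 h2
  have hp : 0 ≤ (2240751972194116173 * (21 / 5 - s) ^ 9
      + 18928723095895232636 * (s - 83 / 20) * (21 / 5 - s) ^ 8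
      + 70691653513073962912 * (s - 83 / 20) ^ 2 * (21 / 5 - s) ^ 7
      + 153060522373999231744 * (s - 83 / 20) ^ 3 * (21 / 5 - s) ^ 6
      + 211512239568586688768 * (s - 83 / 20) ^ 4 * (21 / 5 - s) ^ 5
      + 193185368543501630464 * (s - 83 / 20) ^ 5 * (21 / 5 - s) ^ 4
      + 116406980703505666048 * (s - 83 / 20) ^ 6 * (21 / 5 - s) ^ 3
      + 44510839013208866816 * (s - 83 / 20) ^ 7 * (21 / 5 - s) ^ 2
      + 9765588916859502592 * (s - 83 / 20) ^ 8 * (21 / 5 - s)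
      + 931761647614951424 * (s - 83 / 20) ^ 9) / 250000 := by positivity
  have key : 8 ^ 2 - (s * (B7r s + 2 * s * B7d s) ^ 2) = (2240751972194116173 * (21 / 5 - s) ^ 9
      + 18928723095895232636 * (s - 83 / 20) * (21 / 5 - s) ^ 8
      + 70691653513073962912 * (s - 83 / 20) ^ 2 * (21 / 5 - s) ^ 7
      + 153060522373999231744 * (s - 83 / 20) ^ 3 * (21 / 5 - s) ^ 6
      + 211512239568586688768 * (s - 83 / 20) ^ 4 * (21 / 5 - s) ^ 5
      + 193185368543501630464 * (s - 83 / 20) ^ 5 * (21 / 5 - s) ^ 4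
      + 116406980703505666048 * (s - 83 / 20) ^ 6 * (21 / 5 - s) ^ 3
      + 44510839013208866816 * (s - 83 / 20) ^ 7 * (21 / 5 - s) ^ 2
      + 9765588916859502592 * (s - 83 / 20) ^ 8 * (21 / 5 - s)
      + 931761647614951424 * (s - 83 / 20) ^ 9) / 250000 := by
    simp only [B7r, B7d]
    ring
  rw [← key] at hp
  linarith

end K01

open K01

theorem bd5a {s : ℝ} (h1 : 1 ≤ s) (h2 : s ≤ 21 / 5) :
    s * (6 * B5d s + 4 * s * B5dd s) ^ 2 + 100 * s * B5d s ^ 2 ≤ 90 ^ 2 := by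
  rcases le_total s (4) with g | g
  · exact bd5a_0 (by linarith) g
  exact bd5a_1 (by linarith) (by linarith)

theorem bd5b {s : ℝ} (h1 : 1 ≤ s) (h2 : s ≤ 21 / 5) :
    (-24 * B5 s + 2 * s * B5d s) ^ 2 / s + 100 * s * B5d s ^ 2 ≤ 90 ^ 2 := by
  have hs : 0 < s := by linarith
  suffices h : (-24 * B5 s + 2 * s * B5d s) ^ 2 + 100 * s ^ 2 * B5d s ^ 2 ≤ 90 ^ 2 * s by
    have e : (-24 * B5 s + 2 * s * B5d s) ^ 2 / s + 100 * s * B5d s ^ 2 = ((-24 * B5 s + 2 * s * B5d s) ^ 2 + 100 * s ^ 2 * B5d s ^ 2) / s := by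
      field_simp
    rw [e, div_le_iff₀ hs]
    exact h
  exact bd5b_0 (by linarith) (by linarith)

theorem bd7a {s : ℝ} (h1 : 1 ≤ s) (h2 : s ≤ 21 / 5) :
    s * (6 * B7d s + 4 * s * B7dd s) ^ 2 + 196 * s * B7d s ^ 2 ≤ 31 ^ 2 := by
  exact bd7a_0 (by linarith) (by linarith)

theorem bd7b {s : ℝ} (h1 : 1 ≤ s) (h2 : s ≤ 21 / 5) :
    (-48 * B7r s + 2 * s * B7d s) ^ 2 / s + 196 * s * B7d s ^ 2 ≤ 31 ^ 2 := by
  have hs : 0 < s := by linarith
  suffices h : (-48 * B7r s + 2 * s * B7d s) ^ 2 + 196 * s ^ 2 * B7d s ^ 2 ≤ 31 ^ 2 * s by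
    have e : (-48 * B7r s + 2 * s * B7d s) ^ 2 / s + 196 * s * B7d s ^ 2 = ((-48 * B7r s + 2 * s * B7d s) ^ 2 + 196 * s ^ 2 * B7d s ^ 2) / s := by
      field_simp
    rw [e, div_le_iff₀ hs]
    exact h
  exact bd7b_0 (by linarith) (by linarith)

theorem bd5c {s : ℝ} (h1 : 1 ≤ s) (h2 : s ≤ 4) :
    s * (6 * B5d s + 4 * s * B5dd s) ^ 2 ≤ 29 ^ 2 := by
  rcases le_total s (67 / 20) with g | g
  · exact bd5c_0 (by linarith) g
  exact bd5c_1 (by linarith) (by linarith)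

theorem bd7c {s : ℝ} (h1 : 1 ≤ s) (h2 : s ≤ 4) :
    s * (6 * B7d s + 4 * s * B7dd s) ^ 2 ≤ 27 ^ 2 := by
  exact bd7c_0 (by linarith) (by linarith)

theorem bd5d {s : ℝ} (h1 : 1 ≤ s) (h2 : s ≤ 4) :
    25 ^ 2 * (s * B5 s ^ 2) ≤ 14 ^ 2 := by
  rcases le_total s (137 / 40) with g | g
  · exact bd5d_0 (by linarith) g
  exact bd5d_1 (by linarith) (by linarith)

theorem bd7d {s : ℝ} (h1 : 1 ≤ s) (h2 : s ≤ 4) :
    49 ^ 2 * (s * B7r s ^ 2) ≤ 33 ^ 2 := by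
  rcases le_total s (29 / 8) with g | g
  · exact bd7d_0 (by linarith) g
  exact bd7d_1 (by linarith) (by linarith)

theorem bd5e {s : ℝ} (h1 : 1 ≤ s) (h2 : s ≤ 21 / 5) :
    s * (B5 s + 2 * s * B5d s) ^ 2 ≤ (23 / 2) ^ 2 := by
  rcases le_total s (31 / 8) with g | g
  · exact bd5e_0 (by linarith) g
  exact bd5e_1 (by linarith) (by linarith)

theorem bd7e {s : ℝ} (h1 : 1 ≤ s) (h2 : s ≤ 21 / 5) :
    s * (B7r s + 2 * s * B7d s) ^ 2 ≤ 8 ^ 2 := by
  rcases le_total s (83 / 20) with g | g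
  · exact bd7e_0 (by linarith) g
  exact bd7e_1 (by linarith) (by linarith)

end Pool.Agent.LG
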