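import Pool.Agent.Lib.MP_8026b0_co.KReal

set_option autoImplicit false

/-! Row K02: the squares of the norms as rational functions. -/

namespace Pool.Agent.LG

open Complex

namespace K02

theorem re5 (X Y r : ℝ) (h : X ^ 2 + Y ^ 2 = r) :
    (((⟨X, Y⟩ : ℂ)) ^ 5).re = X * (16 * X ^ 4 - 20 * X ^ 2 * r + 5 * r ^ 2) := by
  subst h
  simp only [pow_succ, pow_zero, one_mul, mul_re, mul_im]
  ring

theorem re7 (X Y r : ℝ) (h : X ^ 2 + Y ^ 2 = r) :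
    (((⟨X, Y⟩ : ℂ)) ^ 7).re
      = X * (64 * X ^ 6 - 112 * X ^ 4 * r + 56 * X ^ 2 * r ^ 2 - 7 * r ^ 3) := by
  subst h
  simp only [pow_succ, pow_zero, one_mul, mul_re, mul_im]
  ring

theorem nsq3 (P Q R : ℂ) : normSq (P + Q - R) = normSq P + normSq Q + normSq R
    + 2 * (P * starRingEnd ℂ Q).re - 2 * (P * starRingEnd ℂ R).re
    - 2 * (Q * starRingEnd ℂ R).re := by
  simp only [normSq_apply, add_re, add_im, sub_re, sub_im, mul_re, conj_re, conj_im]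
  ring

/-- the abstract identity with exponent `m` -/
theorem core (m : ℕ) (A B C a b y S r : ℝ) (hS : y ^ 2 + S ^ 2 = 1)
    (hr : r = a ^ 2 + b ^ 2 - 2 * a * b * y) :
    normSq ((A : ℂ) * (⟨-y, S⟩ : ℂ) ^ m + (B : ℂ) - (C : ℂ) * ((a : ℂ) * (⟨-y, S⟩ : ℂ) + b) ^ m)
      = A ^ 2 + B ^ 2 + C ^ 2 * r ^ m + 2 * A * B * ((⟨-y, S⟩ : ℂ) ^ m).re
        - 2 * A * C * ((⟨a - b * y, b * S⟩ : ℂ) ^ m).re
        - 2 * B * C * ((⟨b - a * y, a * S⟩ : ℂ) ^ m).re := by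
  have hw : normSq (⟨-y, S⟩ : ℂ) = 1 := by
    rw [normSq_mk]; nlinarith
  have hv : ((a : ℂ) * (⟨-y, S⟩ : ℂ) + b) = (⟨b - a * y, a * S⟩ : ℂ) := by
    apply Complex.ext <;> simp
    ring
  have hnv : normSq (⟨b - a * y, a * S⟩ : ℂ) = r := by
    rw [normSq_mk, hr]
    nlinarith
  have hprod : (⟨-y, S⟩ : ℂ) * starRingEnd ℂ (⟨b - a * y, a * S⟩ : ℂ) = (⟨a - b * y, b * S⟩ : ℂ) := by
    apply Complex.ext
    · simp only [mul_re, conj_re, conj_im]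
      linear_combination a * hS
    · simp only [mul_im, conj_re, conj_im]
      ring
  rw [nsq3, hv]
  have e1 : normSq ((A : ℂ) * (⟨-y, S⟩ : ℂ) ^ m) = A ^ 2 := by
    rw [normSq_mul, normSq_ofReal, map_pow, hw]; ring
  have e2 : normSq (B : ℂ) = B ^ 2 := by rw [normSq_ofReal]; ring
  have e3 : normSq ((C : ℂ) * (⟨b - a * y, a * S⟩ : ℂ) ^ m) = C ^ 2 * r ^ m := by
    rw [normSq_mul, normSq_ofReal, map_pow, hnv]; ring
  have e4 : ((A : ℂ) * (⟨-y, S⟩ : ℂ) ^ m * starRingEnd ℂ (B : ℂ)).re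
      = A * B * ((⟨-y, S⟩ : ℂ) ^ m).re := by
    rw [conj_ofReal]
    have : (A : ℂ) * (⟨-y, S⟩ : ℂ) ^ m * (B : ℂ) = ((A * B : ℝ) : ℂ) * (⟨-y, S⟩ : ℂ) ^ m := by
      push_cast; ring
    rw [this, re_ofReal_mul]
  have e5 : ((A : ℂ) * (⟨-y, S⟩ : ℂ) ^ m
      * starRingEnd ℂ ((C : ℂ) * (⟨b - a * y, a * S⟩ : ℂ) ^ m)).re
      = A * C * ((⟨a - b * y, b * S⟩ : ℂ) ^ m).re := by
    rw [map_mul, conj_ofReal, map_pow, ← hprod, mul_pow]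
    have : (A : ℂ) * (⟨-y, S⟩ : ℂ) ^ m * ((C : ℂ) * (starRingEnd ℂ) (⟨b - a * y, a * S⟩ : ℂ) ^ m)
      = ((A * C : ℝ) : ℂ) * ((⟨-y, S⟩ : ℂ) ^ m * (starRingEnd ℂ) (⟨b - a * y, a * S⟩ : ℂ) ^ m) := by
      push_cast; ring
    rw [this, re_ofReal_mul]
  have e6 : ((B : ℂ) * starRingEnd ℂ ((C : ℂ) * (⟨b - a * y, a * S⟩ : ℂ) ^ m)).re
      = B * C * ((⟨b - a * y, a * S⟩ : ℂ) ^ m).re := by
    rw [map_mul, conj_ofReal]
    have : (B : ℂ) * ((C : ℂ) * starRingEnd ℂ ((⟨b - a * y, a * S⟩ : ℂ) ^ m))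
      = ((B * C : ℝ) : ℂ) * starRingEnd ℂ ((⟨b - a * y, a * S⟩ : ℂ) ^ m) := by
      push_cast; ring
    rw [this, re_ofReal_mul, conj_re]
  rw [e1, e2, e3, e4, e5, e6]
  ring

theorem u_sq (β : ℝ) : (exp ((β : ℂ) * I)) ^ 2
    = (⟨-(-Real.cos (2 * β)), Real.sin (2 * β)⟩ : ℂ) := by
  rw [← Complex.exp_nat_mul]
  apply Complex.ext
  · have : ((2 : ℕ) : ℂ) * ((β : ℂ) * I) = ((2 * β : ℝ) : ℂ) * I := by push_cast; ring
    rw [this, exp_ofReal_mul_I_re]; ring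
  · have : ((2 : ℕ) : ℂ) * ((β : ℂ) * I) = ((2 * β : ℝ) : ℂ) * I := by push_cast; ring
    rw [this, exp_ofReal_mul_I_im]

theorem nsq_u (β : ℝ) : normSq (exp ((β : ℂ) * I)) = 1 := by
  rw [normSq_eq_norm_sq, norm_exp_ofReal_mul_I]; norm_num

theorem nsq_u' (β : ℝ) : normSq (exp (-(β : ℂ) * I)) = 1 := by
  have : -(β : ℂ) * I = ((-β : ℝ) : ℂ) * I := by push_cast; ring
  rw [this]; exact nsq_u (-β)

theorem u_mul (β : ℝ) : exp ((β : ℂ) * I) * exp (-(β : ℂ) * I) = 1 := by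
  rw [← Complex.exp_add]; simp

end K02

theorem normSq_third (a b β : ℝ) :
    normSq ((a : ℂ) * exp ((β : ℂ) * I) + (b : ℂ) * exp (-(β : ℂ) * I))
      = rr a b (- Real.cos (2 * β)) := by
  have h1 : normSq ((a : ℂ) * exp ((β : ℂ) * I) + (b : ℂ) * exp (-(β : ℂ) * I))
      = normSq (exp ((β : ℂ) * I)) *
        normSq ((a : ℂ) * exp ((β : ℂ) * I) + (b : ℂ) * exp (-(β : ℂ) * I)) := by
    rw [K02.nsq_u, one_mul]
  rw [h1, ← normSq_mul]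
  have h2 : exp ((β : ℂ) * I) * ((a : ℂ) * exp ((β : ℂ) * I) + (b : ℂ) * exp (-(β : ℂ) * I))
      = (a : ℂ) * (exp ((β : ℂ) * I)) ^ 2 + b := by
    have := K02.u_mul β
    linear_combination (b : ℂ) * this
  rw [h2, K02.u_sq, normSq_apply]
  simp only [add_re, add_im, mul_re, mul_im, ofReal_re, ofReal_im]
  unfold rr
  have := Real.sin_sq_add_cos_sq (2 * β)
  nlinarith

theorem norm_Z5_sq {a b β : ℝ} (ha : 0 < a) (hb : 0 < b)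
    (hr : 0 < rr a b (- Real.cos (2 * β))) :
    ‖Z5 a b β‖ ^ 2 = Q5 a b (- Real.cos (2 * β)) := by
  set y := - Real.cos (2 * β) with hy
  have hS : y ^ 2 + Real.sin (2 * β) ^ 2 = 1 := by
    have := Real.sin_sq_add_cos_sq (2 * β)
    rw [hy]; nlinarith
  have hP1 : Psi5 ((a : ℂ) * exp ((β : ℂ) * I)) = ((a * B5 (a ^ 2) : ℝ) : ℂ) * exp ((β : ℂ) * I) ^ 5 := by
    unfold Psi5
    rw [normSq_mul, K02.nsq_u, normSq_ofReal]
    have : B5 (a * a * 1) / (a * a * 1) ^ 2 = a * B5 (a ^ 2) / a ^ 5 := by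
      rw [show a * a * 1 = a ^ 2 by ring]; field_simp
    rw [this, mul_pow]
    push_cast
    have ha' : (a : ℂ) ≠ 0 := by exact_mod_cast ha.ne'
    field_simp
  have hP2 : Psi5 ((b : ℂ) * exp (-(β : ℂ) * I))
      = ((b * B5 (b ^ 2) : ℝ) : ℂ) * exp (-(β : ℂ) * I) ^ 5 := by
    unfold Psi5
    rw [normSq_mul, K02.nsq_u', normSq_ofReal]
    have : B5 (b * b * 1) / (b * b * 1) ^ 2 = b * B5 (b ^ 2) / b ^ 5 := by
      rw [show b * b * 1 = b ^ 2 by ring]; field_simp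
    rw [this, mul_pow]
    push_cast
    have hb' : (b : ℂ) ≠ 0 := by exact_mod_cast hb.ne'
    field_simp
  have hP3 : Psi5 ((a : ℂ) * exp ((β : ℂ) * I) + (b : ℂ) * exp (-(β : ℂ) * I))
      = ((B5 (rr a b y) / rr a b y ^ 2 : ℝ) : ℂ)
        * ((a : ℂ) * exp ((β : ℂ) * I) + (b : ℂ) * exp (-(β : ℂ) * I)) ^ 5 := by
    unfold Psi5
    rw [normSq_third]
  have hZ : Z5 a b β * exp ((β : ℂ) * I) ^ 5
      = ((a * B5 (a ^ 2) : ℝ) : ℂ) * (⟨-y, Real.sin (2 * β)⟩ : ℂ) ^ 5 + ((b * B5 (b ^ 2) : ℝ) : ℂ)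
        - ((B5 (rr a b y) / rr a b y ^ 2 : ℝ) : ℂ)
          * ((a : ℂ) * (⟨-y, Real.sin (2 * β)⟩ : ℂ) + b) ^ 5 := by
    have hu := K02.u_sq β
    rw [← hy] at hu
    rw [← hu]
    unfold Z5
    rw [hP1, hP2, hP3]
    have hm := K02.u_mul β
    have h5 : exp (-(β : ℂ) * I) ^ 5 * exp ((β : ℂ) * I) ^ 5 = 1 := by
      rw [← mul_pow, mul_comm, hm, one_pow]
    have h6 : ((a : ℂ) * exp ((β : ℂ) * I) + (b : ℂ) * exp (-(β : ℂ) * I)) ^ 5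
        * exp ((β : ℂ) * I) ^ 5 = ((a : ℂ) * exp ((β : ℂ) * I) ^ 2 + b) ^ 5 := by
      rw [← mul_pow]
      congr 1
      linear_combination (b : ℂ) * hm
    linear_combination (((b * B5 (b ^ 2) : ℝ) : ℂ)) * h5
      - ((B5 (rr a b y) / rr a b y ^ 2 : ℝ) : ℂ) * h6
  have h1 : ‖Z5 a b β‖ ^ 2 = normSq (Z5 a b β * exp ((β : ℂ) * I) ^ 5) := by
    rw [normSq_mul, map_pow, K02.nsq_u, one_pow, mul_one, normSq_eq_norm_sq]
  rw [h1, hZ, K02.core 5 _ _ _ a b y (Real.sin (2 * β)) (rr a b y) hS rfl]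
  rw [K02.re5 (-y) _ 1 (by rw [← hS]; ring),
    K02.re5 (a - b * y) _ (rr a b y) (by unfold rr; nlinarith),
    K02.re5 (b - a * y) _ (rr a b y) (by unfold rr; nlinarith)]
  unfold Q5
  have hr' : rr a b y ≠ 0 := hr.ne'
  field_simp
  ring

theorem norm_Z7r_sq {a b β : ℝ} (ha : 0 < a) (hb : 0 < b)
    (hr : 0 < rr a b (- Real.cos (2 * β))) :
    ‖Z7r a b β‖ ^ 2 = Q7 a b (- Real.cos (2 * β)) := by
  set y := - Real.cos (2 * β) with hy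
  have hS : y ^ 2 + Real.sin (2 * β) ^ 2 = 1 := by
    have := Real.sin_sq_add_cos_sq (2 * β)
    rw [hy]; nlinarith
  have hP1 : Psi7r ((a : ℂ) * exp ((β : ℂ) * I)) = ((a * B7r (a ^ 2) : ℝ) : ℂ) * exp ((β : ℂ) * I) ^ 7 := by
    unfold Psi7r
    rw [normSq_mul, K02.nsq_u, normSq_ofReal]
    have : B7r (a * a * 1) / (a * a * 1) ^ 3 = a * B7r (a ^ 2) / a ^ 7 := by
      rw [show a * a * 1 = a ^ 2 by ring]; field_simp
    rw [this, mul_pow]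
    push_cast
    have ha' : (a : ℂ) ≠ 0 := by exact_mod_cast ha.ne'
    field_simp
  have hP2 : Psi7r ((b : ℂ) * exp (-(β : ℂ) * I))
      = ((b * B7r (b ^ 2) : ℝ) : ℂ) * exp (-(β : ℂ) * I) ^ 7 := by
    unfold Psi7r
    rw [normSq_mul, K02.nsq_u', normSq_ofReal]
    have : B7r (b * b * 1) / (b * b * 1) ^ 3 = b * B7r (b ^ 2) / b ^ 7 := by
      rw [show b * b * 1 = b ^ 2 by ring]; field_simp
    rw [this, mul_pow]
    push_cast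
    have hb' : (b : ℂ) ≠ 0 := by exact_mod_cast hb.ne'
    field_simp
  have hP3 : Psi7r ((a : ℂ) * exp ((β : ℂ) * I) + (b : ℂ) * exp (-(β : ℂ) * I))
      = ((B7r (rr a b y) / rr a b y ^ 3 : ℝ) : ℂ)
        * ((a : ℂ) * exp ((β : ℂ) * I) + (b : ℂ) * exp (-(β : ℂ) * I)) ^ 7 := by
    unfold Psi7r
    rw [normSq_third]
  have hZ : Z7r a b β * exp ((β : ℂ) * I) ^ 7
      = ((a * B7r (a ^ 2) : ℝ) : ℂ) * (⟨-y, Real.sin (2 * β)⟩ : ℂ) ^ 7 + ((b * B7r (b ^ 2) : ℝ) : ℂ)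
        - ((B7r (rr a b y) / rr a b y ^ 3 : ℝ) : ℂ)
          * ((a : ℂ) * (⟨-y, Real.sin (2 * β)⟩ : ℂ) + b) ^ 7 := by
    have hu := K02.u_sq β
    rw [← hy] at hu
    rw [← hu]
    unfold Z7r
    rw [hP1, hP2, hP3]
    have hm := K02.u_mul β
    have h5 : exp (-(β : ℂ) * I) ^ 7 * exp ((β : ℂ) * I) ^ 7 = 1 := by
      rw [← mul_pow, mul_comm, hm, one_pow]
    have h6 : ((a : ℂ) * exp ((β : ℂ) * I) + (b : ℂ) * exp (-(β : ℂ) * I)) ^ 7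
        * exp ((β : ℂ) * I) ^ 7 = ((a : ℂ) * exp ((β : ℂ) * I) ^ 2 + b) ^ 7 := by
      rw [← mul_pow]
      congr 1
      linear_combination (b : ℂ) * hm
    linear_combination (((b * B7r (b ^ 2) : ℝ) : ℂ)) * h5
      - ((B7r (rr a b y) / rr a b y ^ 3 : ℝ) : ℂ) * h6
  have h1 : ‖Z7r a b β‖ ^ 2 = normSq (Z7r a b β * exp ((β : ℂ) * I) ^ 7) := by
    rw [normSq_mul, map_pow, K02.nsq_u, one_pow, mul_one, normSq_eq_norm_sq]
  rw [h1, hZ, K02.core 7 _ _ _ a b y (Real.sin (2 * β)) (rr a b y) hS rfl]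
  rw [K02.re7 (-y) _ 1 (by rw [← hS]; ring),
    K02.re7 (a - b * y) _ (rr a b y) (by unfold rr; nlinarith),
    K02.re7 (b - a * y) _ (rr a b y) (by unfold rr; nlinarith)]
  unfold Q7
  have hr' : rr a b y ≠ 0 := hr.ne'
  field_simp
  ring

end Pool.Agent.LG
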