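import Pool.Agent.Lib.MP_8026b0_co.K01

set_option autoImplicit false

/-! Row K03: second derivatives of `Psi5`, `Psi7r` along curves. -/

namespace Pool.Agent.LG

open Complex

namespace K03

/-- the algebra of the norm -/
theorem alg (a b c s q p : ℝ) (v v1 : ℂ) (hs : s = normSq v)
    (hq : q = v.re * v1.re + v.im * v1.im) (hp : p = v.re * v1.im - v.im * v1.re) :
    s ^ 2 * normSq ((a : ℂ) * v ^ 2 + (b : ℂ) * (v * v1) + (c : ℂ) * v1 ^ 2) =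
      (a * s ^ 2 + b * s * q + c * (q ^ 2 - p ^ 2)) ^ 2 + (b * s * p + 2 * c * q * p) ^ 2 := by
  have h1 : (starRingEnd ℂ v) * v = (s : ℂ) := by
    rw [mul_comm, mul_conj, hs]
  have h2 : (starRingEnd ℂ v) * v1 = (q : ℂ) + (p : ℂ) * I := by
    apply Complex.ext
    · simp [hq]
    · simp [hp]
      ring
  have h3 : (starRingEnd ℂ v) ^ 2 * ((a : ℂ) * v ^ 2 + (b : ℂ) * (v * v1) + (c : ℂ) * v1 ^ 2) =
      ((a * s ^ 2 + b * s * q + c * (q ^ 2 - p ^ 2) : ℝ) : ℂ) +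
        ((b * s * p + 2 * c * q * p : ℝ) : ℂ) * I := by
    have : (starRingEnd ℂ v) ^ 2 * ((a : ℂ) * v ^ 2 + (b : ℂ) * (v * v1) + (c : ℂ) * v1 ^ 2) =
        (a : ℂ) * ((starRingEnd ℂ v) * v) ^ 2 +
          (b : ℂ) * (((starRingEnd ℂ v) * v) * ((starRingEnd ℂ v) * v1)) +
          (c : ℂ) * ((starRingEnd ℂ v) * v1) ^ 2 := by ring
    rw [this, h1, h2]
    push_cast
    linear_combination (-(c : ℂ) * p ^ 2) * (-I_sq)
  have h4 := congrArg normSq h3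
  rw [map_mul, map_pow, normSq_conj, ← hs, normSq_add_mul_I] at h4
  exact h4

theorem der_re {v : ℝ → ℂ} {w : ℂ} {t : ℝ} (h : HasDerivAt v w t) :
    HasDerivAt (fun t => (v t).re) w.re t := by
  have := reCLM.hasFDerivAt.comp_hasDerivAt t h
  exact this

theorem der_im {v : ℝ → ℂ} {w : ℂ} {t : ℝ} (h : HasDerivAt v w t) :
    HasDerivAt (fun t => (v t).im) w.im t := by
  have := imCLM.hasFDerivAt.comp_hasDerivAt t h
  exact this

/-- the generic second derivative -/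
theorem gen (j : ℕ) (B Bd Bdd : ℝ → ℝ) (hB : ∀ s, HasDerivAt B (Bd s) s)
    (hBd : ∀ s, HasDerivAt Bd (Bdd s) s) {v v1 : ℝ → ℂ} {S : Set ℝ} {κ K : ℝ} (hK : 0 ≤ K)
    (hv : ∀ t ∈ S, HasDerivAt v (v1 t) t)
    (hv1 : ∀ t ∈ S, HasDerivAt v1 (-(κ : ℂ) * v t) t)
    (h0 : ∀ t ∈ S, 0 < normSq (v t))
    (hb : ∀ t ∈ S, ∀ s q p : ℝ, s = normSq (v t) →
      q = (v t).re * (v1 t).re + (v t).im * (v1 t).im →
      p = (v t).re * (v1 t).im - (v t).im * (v1 t).re →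
      (q ^ 2 * (s * (6 * Bd s + 4 * s * Bdd s)) +
        p ^ 2 * (2 * s * Bd s - 4 * ((j : ℝ) + 1) * ((j : ℝ) + 2) * B s) -
        κ * s ^ 2 * (B s + 2 * s * Bd s)) ^ 2 +
        4 * q ^ 2 * p ^ 2 * (2 * (2 * (j : ℝ) + 3) * s * Bd s) ^ 2 ≤ K ^ 2 * s ^ 3) :
    D2 (fun t => ((B (normSq (v t)) / (normSq (v t)) ^ (j + 1) : ℝ) : ℂ) * v t ^ (2 * j + 3)) S K := by
  set β : ℝ → ℝ := fun s => B s / s ^ (j + 1) with hβ
  set β1 : ℝ → ℝ := fun s => (s * Bd s - ((j : ℝ) + 1) * B s) / s ^ (j + 2) with hβ1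
  set β2 : ℝ → ℝ := fun s => (s ^ 2 * Bdd s - 2 * ((j : ℝ) + 1) * s * Bd s +
    ((j : ℝ) + 1) * ((j : ℝ) + 2) * B s) / s ^ (j + 3) with hβ2
  have dβ : ∀ s : ℝ, 0 < s → HasDerivAt β (β1 s) s := by
    intro s hs
    have h := (hB s).div (hasDerivAt_pow (j + 1) s) (pow_ne_zero _ hs.ne')
    refine HasDerivAt.congr_deriv (f := β) h ?_
    rw [hβ1]
    simp only [Nat.add_sub_cancel]
    push_cast
    field_simp
    ring
  have dβ1 : ∀ s : ℝ, 0 < s → HasDerivAt β1 (β2 s) s := by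
    intro s hs
    have h := ((((hasDerivAt_id s).mul (hBd s)).sub ((hB s).const_mul ((j : ℝ) + 1)))).div
      (hasDerivAt_pow (j + 2) s) (pow_ne_zero _ hs.ne')
    refine HasDerivAt.congr_deriv (f := β1) h ?_
    rw [hβ2]
    simp only [Nat.add_succ_sub_one, id, Pi.sub_apply, Pi.mul_apply]
    push_cast
    field_simp
    ring
  set q : ℝ → ℝ := fun t => (v t).re * (v1 t).re + (v t).im * (v1 t).im with hq
  have ds : ∀ t ∈ S, HasDerivAt (fun t => normSq (v t)) (2 * q t) t := by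
    intro t ht
    have h1 := der_re (hv t ht)
    have h2 := der_im (hv t ht)
    have h3 := (h1.mul h1).add (h2.mul h2)
    refine HasDerivAt.congr_deriv (f := fun t => normSq (v t)) h3 ?_
    rw [hq]
    ring
  have dq : ∀ t ∈ S, HasDerivAt q (normSq (v1 t) - κ * normSq (v t)) t := by
    intro t ht
    have h1 := der_re (hv t ht)
    have h2 := der_im (hv t ht)
    have h3 := der_re (hv1 t ht)
    have h4 := der_im (hv1 t ht)
    have h5 := (h1.mul h3).add (h2.mul h4)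
    refine HasDerivAt.congr_deriv (f := q) h5 ?_
    simp only [normSq_apply, neg_mul, neg_re, neg_im, re_ofReal_mul, im_ofReal_mul]
    ring
  set m : ℕ := 2 * j + 3 with hm
  refine ⟨fun t => ((β1 (normSq (v t)) * (2 * q t) : ℝ) : ℂ) * v t ^ m +
      ((β (normSq (v t)) : ℝ) : ℂ) * ((m : ℂ) * v t ^ (2 * j + 2) * v1 t),
    fun t => ((β2 (normSq (v t)) * (2 * q t) * (2 * q t) +
        β1 (normSq (v t)) * (2 * (normSq (v1 t) - κ * normSq (v t))) : ℝ) : ℂ) * v t ^ m +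
      ((β1 (normSq (v t)) * (2 * q t) : ℝ) : ℂ) * ((m : ℂ) * v t ^ (2 * j + 2) * v1 t) +
      (((β1 (normSq (v t)) * (2 * q t) : ℝ) : ℂ) * ((m : ℂ) * v t ^ (2 * j + 2) * v1 t) +
      ((β (normSq (v t)) : ℝ) : ℂ) * ((m : ℂ) * (((2 * j + 2 : ℕ) : ℂ) * v t ^ (2 * j + 1) * v1 t) * v1 t +
        (m : ℂ) * v t ^ (2 * j + 2) * (-(κ : ℂ) * v t))), ?_, ?_, ?_⟩
  · intro t ht
    have e1 : HasDerivAt (fun t => β (normSq (v t))) (β1 (normSq (v t)) * (2 * q t)) t :=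
      HasDerivAt.comp (h₂ := β) (h := fun t => normSq (v t)) t (dβ _ (h0 t ht)) (ds t ht)
    have e2 : HasDerivAt (fun t => v t ^ m) ((m : ℂ) * v t ^ (2 * j + 2) * v1 t) t := (hv t ht).pow m
    exact e1.ofReal_comp.mul e2
  · intro t ht
    have e1 : HasDerivAt (fun t => β (normSq (v t))) (β1 (normSq (v t)) * (2 * q t)) t :=
      HasDerivAt.comp (h₂ := β) (h := fun t => normSq (v t)) t (dβ _ (h0 t ht)) (ds t ht)
    have e2 : HasDerivAt (fun t => v t ^ m) ((m : ℂ) * v t ^ (2 * j + 2) * v1 t) t := (hv t ht).pow m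
    have e3 : HasDerivAt (fun t => β1 (normSq (v t))) (β2 (normSq (v t)) * (2 * q t)) t :=
      HasDerivAt.comp (h₂ := β1) (h := fun t => normSq (v t)) t (dβ1 _ (h0 t ht)) (ds t ht)
    have e4 : HasDerivAt (fun t => v t ^ (2 * j + 2))
        (((2 * j + 2 : ℕ) : ℂ) * v t ^ (2 * j + 1) * v1 t) t := (hv t ht).pow (2 * j + 2)
    have e5 := e3.mul ((dq t ht).const_mul 2)
    have e6 := e5.ofReal_comp.mul e2
    have e7 := (e4.const_mul (m : ℂ)).mul (hv1 t ht)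
    have e8 := e1.ofReal_comp.mul e7
    exact e6.add e8
  · intro t ht
    have hs0 := h0 t ht
    obtain ⟨s, hs⟩ : ∃ s : ℝ, s = normSq (v t) := ⟨_, rfl⟩
    obtain ⟨p, hp⟩ : ∃ p : ℝ, p = (v t).re * (v1 t).im - (v t).im * (v1 t).re := ⟨_, rfl⟩
    obtain ⟨q', hq'⟩ : ∃ q' : ℝ, q' = (v t).re * (v1 t).re + (v t).im * (v1 t).im := ⟨_, rfl⟩
    have hqt : q t = q' := hq'.symm
    have hbt := hb t ht s q' p hs hq' hp
    have hn1 : normSq (v1 t) = (q' ^ 2 + p ^ 2) / s := by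
      rw [eq_div_iff (by rw [hs]; exact hs0.ne'), hs, hq', hp, normSq_apply, normSq_apply]
      ring
    rw [← hs] at hs0
    beta_reduce
    rw [hqt, hn1, ← hs]
    have hmm : (m : ℂ) = 2 * (j : ℂ) + 3 := by rw [hm]; push_cast; ring
    rw [hmm]
    -- the factorisation
    set a : ℝ := β2 s * (2 * q') * (2 * q') + β1 s * (2 * ((q' ^ 2 + p ^ 2) / s - κ * s)) -
      β s * (2 * j + 3) * κ with ha
    set b : ℝ := 2 * (β1 s * (2 * q') * (2 * j + 3)) with hb'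
    set c : ℝ := β s * ((2 * j + 3) * (2 * j + 2)) with hc
    have hfac : ((β2 s * (2 * q') * (2 * q') + β1 s * (2 * ((q' ^ 2 + p ^ 2) / s - κ * s)) : ℝ) : ℂ) * v t ^ m +
      ((β1 s * (2 * q') : ℝ) : ℂ) * ((2 * (j : ℂ) + 3) * v t ^ (2 * j + 2) * v1 t) +
      (((β1 s * (2 * q') : ℝ) : ℂ) * ((2 * (j : ℂ) + 3) * v t ^ (2 * j + 2) * v1 t) +
      ((β s : ℝ) : ℂ) * ((2 * (j : ℂ) + 3) * (((2 * j + 2 : ℕ) : ℂ) * v t ^ (2 * j + 1) * v1 t) * v1 t +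
        (2 * (j : ℂ) + 3) * v t ^ (2 * j + 2) * (-(κ : ℂ) * v t))) =
      v t ^ (2 * j + 1) * ((a : ℂ) * v t ^ 2 + (b : ℂ) * (v t * v1 t) + (c : ℂ) * v1 t ^ 2) := by
      rw [ha, hb', hc, hm]
      have e1 : v t ^ (2 * j + 3) = v t ^ (2 * j + 1) * v t ^ 2 := by rw [← pow_add]
      have e2 : v t ^ (2 * j + 2) = v t ^ (2 * j + 1) * v t := by rw [← pow_succ]
      rw [e1, e2]
      push_cast
      ring
    rw [hfac, norm_mul, norm_pow]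
    apply abs_le_of_sq_le_sq' _ hK |>.2
    rw [mul_pow, ← normSq_eq_norm_sq, ← pow_mul, mul_comm (2 * j + 1) 2, pow_mul,
      ← normSq_eq_norm_sq (v t), ← hs]
    have halg := alg a b c s q' p (v t) (v1 t) hs hq' hp
    -- the two squares
    have hX : a * s ^ 2 + b * s * q' + c * (q' ^ 2 - p ^ 2) =
        (q' ^ 2 * (s * (6 * Bd s + 4 * s * Bdd s)) +
        p ^ 2 * (2 * s * Bd s - 4 * ((j : ℝ) + 1) * ((j : ℝ) + 2) * B s) -
        κ * s ^ 2 * (B s + 2 * s * Bd s)) / s ^ (j + 1) := by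
      rw [ha, hb', hc, hβ, hβ1, hβ2]
      field_simp
      ring
    have hZ : b * s * p + 2 * c * q' * p = (2 * q' * p * (2 * (2 * (j : ℝ) + 3) * s * Bd s)) / s ^ (j + 1) := by
      rw [hb', hc, hβ, hβ1]
      field_simp
      ring
    rw [hX, hZ] at halg
    have hs2 : 0 < s ^ 2 := by positivity
    have hfin : s ^ 2 * (s ^ (2 * j + 1) *
        normSq ((a : ℂ) * v t ^ 2 + (b : ℂ) * (v t * v1 t) + (c : ℂ) * v1 t ^ 2)) ≤ s ^ 2 * K ^ 2 := by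
      have e3 : s ^ 2 * (s ^ (2 * j + 1) *
        normSq ((a : ℂ) * v t ^ 2 + (b : ℂ) * (v t * v1 t) + (c : ℂ) * v1 t ^ 2)) =
        s ^ (2 * j + 1) * (s ^ 2 *
        normSq ((a : ℂ) * v t ^ 2 + (b : ℂ) * (v t * v1 t) + (c : ℂ) * v1 t ^ 2)) := by ring
      rw [e3, halg]
      have e4 : s ^ (2 * j + 1) * (((q' ^ 2 * (s * (6 * Bd s + 4 * s * Bdd s)) +
        p ^ 2 * (2 * s * Bd s - 4 * ((j : ℝ) + 1) * ((j : ℝ) + 2) * B s) -
        κ * s ^ 2 * (B s + 2 * s * Bd s)) / s ^ (j + 1)) ^ 2 +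
        ((2 * q' * p * (2 * (2 * (j : ℝ) + 3) * s * Bd s)) / s ^ (j + 1)) ^ 2) =
        ((q' ^ 2 * (s * (6 * Bd s + 4 * s * Bdd s)) +
        p ^ 2 * (2 * s * Bd s - 4 * ((j : ℝ) + 1) * ((j : ℝ) + 2) * B s) -
        κ * s ^ 2 * (B s + 2 * s * Bd s)) ^ 2 +
        4 * q' ^ 2 * p ^ 2 * (2 * (2 * (j : ℝ) + 3) * s * Bd s) ^ 2) / s := by
        have e5 : s ^ (j + 1) * s ^ (j + 1) = s ^ (2 * j + 1) * s := by
          rw [← pow_add, ← pow_succ]; congr 1; ring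
        have e6 : (s ^ (j + 1)) ^ 2 = s ^ (2 * j + 1) * s := by rw [sq, e5]
        rw [div_pow, div_pow, e6]
        have : s ^ (2 * j + 1) ≠ 0 := pow_ne_zero _ hs0.ne'
        field_simp
        ring
      rw [e4, div_le_iff₀ hs0]
      calc _ ≤ K ^ 2 * s ^ 3 := hbt
        _ = s ^ 2 * K ^ 2 * s := by ring
    exact le_of_mul_le_mul_left hfin hs2

theorem ineq (A Bq C H s q p W κ M L : ℝ) (hs : 0 < s) (hM : 0 ≤ M) (hL : 0 ≤ L) (hκ : 0 ≤ κ)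
    (hW : 0 ≤ W) (hA : A ^ 2 + C ^ 2 ≤ M ^ 2 * s) (hB : Bq ^ 2 + C ^ 2 ≤ M ^ 2 * s)
    (hH : s * H ^ 2 ≤ L ^ 2) (hqp : q ^ 2 + p ^ 2 ≤ s * W) :
    (q ^ 2 * A + p ^ 2 * Bq - κ * s ^ 2 * H) ^ 2 + 4 * q ^ 2 * p ^ 2 * C ^ 2 ≤
      (M * W + L * κ) ^ 2 * s ^ 3 := by
  set X := q ^ 2 * A + p ^ 2 * Bq with hX
  have hq0 : 0 ≤ q ^ 2 := sq_nonneg q
  have hp0 : 0 ≤ p ^ 2 := sq_nonneg p
  have h1 : X ^ 2 ≤ (q ^ 2 + p ^ 2) * (q ^ 2 * A ^ 2 + p ^ 2 * Bq ^ 2) := by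
    have : (q ^ 2 + p ^ 2) * (q ^ 2 * A ^ 2 + p ^ 2 * Bq ^ 2) - X ^ 2 = q ^ 2 * p ^ 2 * (A - Bq) ^ 2 := by
      rw [hX]; ring
    have h : 0 ≤ q ^ 2 * p ^ 2 * (A - Bq) ^ 2 := by positivity
    linarith
  have h2 : q ^ 2 * A ^ 2 + p ^ 2 * Bq ^ 2 ≤ (q ^ 2 + p ^ 2) * (M ^ 2 * s - C ^ 2) := by
    have a1 : q ^ 2 * A ^ 2 ≤ q ^ 2 * (M ^ 2 * s - C ^ 2) :=
      mul_le_mul_of_nonneg_left (by linarith) hq0
    have a2 : p ^ 2 * Bq ^ 2 ≤ p ^ 2 * (M ^ 2 * s - C ^ 2) :=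
      mul_le_mul_of_nonneg_left (by linarith) hp0
    linarith
  have h3 : X ^ 2 ≤ (q ^ 2 + p ^ 2) * ((q ^ 2 + p ^ 2) * (M ^ 2 * s - C ^ 2)) :=
    h1.trans (mul_le_mul_of_nonneg_left h2 (by positivity))
  have h4 : 4 * q ^ 2 * p ^ 2 * C ^ 2 ≤ (q ^ 2 + p ^ 2) ^ 2 * C ^ 2 := by
    have : 4 * q ^ 2 * p ^ 2 ≤ (q ^ 2 + p ^ 2) ^ 2 := by
      have := sq_nonneg (q ^ 2 - p ^ 2)
      linarith
    exact mul_le_mul_of_nonneg_right this (sq_nonneg C)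
  have h5 : X ^ 2 + 4 * q ^ 2 * p ^ 2 * C ^ 2 ≤ (M * W) ^ 2 * s ^ 3 := by
    have a1 : X ^ 2 + 4 * q ^ 2 * p ^ 2 * C ^ 2 ≤ (q ^ 2 + p ^ 2) ^ 2 * (M ^ 2 * s) := by
      have e : (q ^ 2 + p ^ 2) * ((q ^ 2 + p ^ 2) * (M ^ 2 * s - C ^ 2)) + (q ^ 2 + p ^ 2) ^ 2 * C ^ 2 =
        (q ^ 2 + p ^ 2) ^ 2 * (M ^ 2 * s) := by ring
      linarith
    have a2 : (q ^ 2 + p ^ 2) ^ 2 ≤ (s * W) ^ 2 := pow_le_pow_left₀ (by positivity) hqp 2
    calc _ ≤ (q ^ 2 + p ^ 2) ^ 2 * (M ^ 2 * s) := a1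
      _ ≤ (s * W) ^ 2 * (M ^ 2 * s) := mul_le_mul_of_nonneg_right a2 (by positivity)
      _ = _ := by ring
  have h6 : X ^ 2 ≤ (M * W) ^ 2 * s ^ 3 := by
    have : 0 ≤ 4 * q ^ 2 * p ^ 2 * C ^ 2 := by positivity
    linarith
  have h7 : (s ^ 2 * H) ^ 2 ≤ L ^ 2 * s ^ 3 := by
    have : (s ^ 2 * H) ^ 2 = (s * H ^ 2) * s ^ 3 := by ring
    rw [this]
    exact mul_le_mul_of_nonneg_right hH (by positivity)
  have h8 : |X * (s ^ 2 * H)| ≤ M * W * L * s ^ 3 := by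
    apply abs_le_of_sq_le_sq _ (by positivity)
    calc (X * (s ^ 2 * H)) ^ 2 = X ^ 2 * (s ^ 2 * H) ^ 2 := by ring
      _ ≤ ((M * W) ^ 2 * s ^ 3) * (L ^ 2 * s ^ 3) :=
          mul_le_mul h6 h7 (sq_nonneg _) (by positivity)
      _ = (M * W * L * s ^ 3) ^ 2 := by ring
  have h9 := (abs_le.1 h8).1
  have h10 : κ * (-(X * (s ^ 2 * H))) ≤ κ * (M * W * L * s ^ 3) :=
    mul_le_mul_of_nonneg_left (by linarith) hκ
  have h11 : κ ^ 2 * (s ^ 2 * H) ^ 2 ≤ κ ^ 2 * (L ^ 2 * s ^ 3) :=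
    mul_le_mul_of_nonneg_left h7 (sq_nonneg κ)
  calc (X - κ * s ^ 2 * H) ^ 2 + 4 * q ^ 2 * p ^ 2 * C ^ 2
      = (X ^ 2 + 4 * q ^ 2 * p ^ 2 * C ^ 2) + 2 * (κ * (-(X * (s ^ 2 * H)))) +
          κ ^ 2 * (s ^ 2 * H) ^ 2 := by ring
    _ ≤ (M * W) ^ 2 * s ^ 3 + 2 * (κ * (M * W * L * s ^ 3)) + κ ^ 2 * (L ^ 2 * s ^ 3) := by
        linarith
    _ = _ := by ring

theorem B5_der (s : ℝ) : HasDerivAt B5 (B5d s) s := by
  have h1 : HasDerivAt (fun s : ℝ => s - 3) 1 s := (hasDerivAt_id s).sub_const 3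
  have h := (((((((hasDerivAt_const s (-500 : ℝ)).add (h1.const_mul 248)).add
    ((h1.pow 2).const_mul 990)).add ((h1.pow 3).const_mul 188)).sub
    ((h1.pow 4).const_mul 270)).sub ((h1.pow 5).const_mul 105))).div_const 2000
  refine HasDerivAt.congr_deriv (f := B5) h ?_
  unfold B5d
  norm_num
  ring

theorem B5d_der (s : ℝ) : HasDerivAt B5d (B5dd s) s := by
  have h1 : HasDerivAt (fun s : ℝ => s - 3) 1 s := (hasDerivAt_id s).sub_const 3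
  have h := ((((((hasDerivAt_const s (248 : ℝ)).add (h1.const_mul 1980)).add
    ((h1.pow 2).const_mul 564)).sub ((h1.pow 3).const_mul 1080)).sub
    ((h1.pow 4).const_mul 525))).div_const 2000
  refine HasDerivAt.congr_deriv (f := B5d) h ?_
  unfold B5dd
  norm_num
  ring

theorem B7_der (s : ℝ) : HasDerivAt B7r (B7d s) s := by
  have h1 : HasDerivAt (fun s : ℝ => s - 3) 1 s := (hasDerivAt_id s).sub_const 3
  have h := ((((((hasDerivAt_const s (500 : ℝ)).add (h1.const_mul 700)).sub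
    ((h1.pow 2).const_mul 540)).sub ((h1.pow 3).const_mul 184)).add
    ((h1.pow 4).const_mul 68))).div_const 2000
  refine HasDerivAt.congr_deriv (f := B7r) h ?_
  unfold B7d
  norm_num
  ring

theorem B7d_der (s : ℝ) : HasDerivAt B7d (B7dd s) s := by
  have h1 : HasDerivAt (fun s : ℝ => s - 3) 1 s := (hasDerivAt_id s).sub_const 3
  have h := (((((hasDerivAt_const s (700 : ℝ)).sub (h1.const_mul 1080)).sub
    ((h1.pow 2).const_mul 552)).add ((h1.pow 3).const_mul 272))).div_const 2000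
  refine HasDerivAt.congr_deriv (f := B7d) h ?_
  unfold B7dd
  norm_num
  ring

end K03

/-- along a curve `v` with `v'' = -κ v`, `0 ≤ κ` -/
theorem psi5_D2 {v v1 : ℝ → ℂ} {s : Set ℝ} {κ W : ℝ} (hκ : 0 ≤ κ)
    (hv : ∀ t ∈ s, HasDerivAt v (v1 t) t)
    (hv1 : ∀ t ∈ s, HasDerivAt v1 (-(κ : ℂ) * v t) t)
    (h1 : ∀ t ∈ s, 1 ≤ normSq (v t)) (h2 : ∀ t ∈ s, normSq (v t) ≤ 21 / 5)
    (hW : ∀ t ∈ s, normSq (v1 t) ≤ W) :
    D2 (fun t => Psi5 (v t)) s (90 * W + 23 / 2 * κ) := by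
  rcases s.eq_empty_or_nonempty with rfl | ⟨t0, ht0⟩
  · exact ⟨fun _ => 0, fun _ => 0, fun t ht => absurd ht (Set.notMem_empty t),
      fun t ht => absurd ht (Set.notMem_empty t), fun t ht => absurd ht (Set.notMem_empty t)⟩
  have hW0 : 0 ≤ W := (normSq_nonneg _).trans (hW t0 ht0)
  refine K03.gen 1 B5 B5d B5dd K03.B5_der K03.B5d_der (by positivity) hv hv1
    (fun t ht => lt_of_lt_of_le one_pos (h1 t ht)) ?_
  intro t ht r q p hr hq hp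
  have r1 : 1 ≤ r := by rw [hr]; exact h1 t ht
  have r2 : r ≤ 21 / 5 := by rw [hr]; exact h2 t ht
  have r0 : 0 < r := by linarith
  have hqp : q ^ 2 + p ^ 2 ≤ r * W := by
    have e : q ^ 2 + p ^ 2 = r * normSq (v1 t) := by
      rw [hr, hq, hp, normSq_apply, normSq_apply]; ring
    rw [e]
    exact mul_le_mul_of_nonneg_left (hW t ht) r0.le
  have ba := mul_le_mul_of_nonneg_right (bd5a r1 r2) r0.le
  have bb := mul_le_mul_of_nonneg_right (bd5b r1 r2) r0.le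
  have key := K03.ineq (r * (6 * B5d r + 4 * r * B5dd r))
    (2 * r * B5d r - 4 * (((1 : ℕ) : ℝ) + 1) * (((1 : ℕ) : ℝ) + 2) * B5 r)
    (2 * (2 * ((1 : ℕ) : ℝ) + 3) * r * B5d r) (B5 r + 2 * r * B5d r) r q p W κ 90 (23 / 2) r0
    (by norm_num) (by norm_num) hκ hW0 (by push_cast; linarith)
    (by
      push_cast
      have : ((-24 * B5 r + 2 * r * B5d r) ^ 2 / r + 100 * r * B5d r ^ 2) * r =
        (-24 * B5 r + 2 * r * B5d r) ^ 2 + 100 * r ^ 2 * B5d r ^ 2 := by field_simp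
      rw [this] at bb
      linarith) (bd5e r1 r2) hqp
  exact key

theorem psi7_D2 {v v1 : ℝ → ℂ} {s : Set ℝ} {κ W : ℝ} (hκ : 0 ≤ κ)
    (hv : ∀ t ∈ s, HasDerivAt v (v1 t) t)
    (hv1 : ∀ t ∈ s, HasDerivAt v1 (-(κ : ℂ) * v t) t)
    (h1 : ∀ t ∈ s, 1 ≤ normSq (v t)) (h2 : ∀ t ∈ s, normSq (v t) ≤ 21 / 5)
    (hW : ∀ t ∈ s, normSq (v1 t) ≤ W) :
    D2 (fun t => Psi7r (v t)) s (31 * W + 8 * κ) := by
  rcases s.eq_empty_or_nonempty with rfl | ⟨t0, ht0⟩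
  · exact ⟨fun _ => 0, fun _ => 0, fun t ht => absurd ht (Set.notMem_empty t),
      fun t ht => absurd ht (Set.notMem_empty t), fun t ht => absurd ht (Set.notMem_empty t)⟩
  have hW0 : 0 ≤ W := (normSq_nonneg _).trans (hW t0 ht0)
  refine K03.gen 2 B7r B7d B7dd K03.B7_der K03.B7d_der (by positivity) hv hv1
    (fun t ht => lt_of_lt_of_le one_pos (h1 t ht)) ?_
  intro t ht r q p hr hq hp
  have r1 : 1 ≤ r := by rw [hr]; exact h1 t ht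
  have r2 : r ≤ 21 / 5 := by rw [hr]; exact h2 t ht
  have r0 : 0 < r := by linarith
  have hqp : q ^ 2 + p ^ 2 ≤ r * W := by
    have e : q ^ 2 + p ^ 2 = r * normSq (v1 t) := by
      rw [hr, hq, hp, normSq_apply, normSq_apply]; ring
    rw [e]
    exact mul_le_mul_of_nonneg_left (hW t ht) r0.le
  have ba := mul_le_mul_of_nonneg_right (bd7a r1 r2) r0.le
  have bb := mul_le_mul_of_nonneg_right (bd7b r1 r2) r0.le
  have key := K03.ineq (r * (6 * B7d r + 4 * r * B7dd r))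
    (2 * r * B7d r - 4 * (((2 : ℕ) : ℝ) + 1) * (((2 : ℕ) : ℝ) + 2) * B7r r)
    (2 * (2 * ((2 : ℕ) : ℝ) + 3) * r * B7d r) (B7r r + 2 * r * B7d r) r q p W κ 31 8 r0
    (by norm_num) (by norm_num) hκ hW0 (by push_cast; linarith)
    (by
      push_cast
      have : ((-48 * B7r r + 2 * r * B7d r) ^ 2 / r + 196 * r * B7d r ^ 2) * r =
        (-48 * B7r r + 2 * r * B7d r) ^ 2 + 196 * r ^ 2 * B7d r ^ 2 := by field_simp
      rw [this] at bb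
      linarith) (bd7e r1 r2) hqp
  exact key

namespace K03

theorem rad_gen (j : ℕ) (B Bd Bdd : ℝ → ℝ) (hB : ∀ s, HasDerivAt B (Bd s) s)
    (hBd : ∀ s, HasDerivAt Bd (Bdd s) s) {e : ℂ} (he : ‖e‖ = 1) {K : ℝ} (hK : 0 ≤ K)
    (hb : ∀ s : ℝ, 1 ≤ s → s ≤ 4 → s * (6 * Bd s + 4 * s * Bdd s) ^ 2 ≤ K ^ 2) :
    D2 (fun t : ℝ => ((B (normSq ((t : ℂ) * e)) / (normSq ((t : ℂ) * e)) ^ (j + 1) : ℝ) : ℂ) *
      ((t : ℂ) * e) ^ (2 * j + 3)) (Set.Icc 1 2) K := by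
  have hn : e.re * e.re + e.im * e.im = 1 := by
    have h1 : normSq e = 1 := by rw [normSq_eq_norm_sq, he]; norm_num
    rwa [normSq_apply] at h1
  have hre : ∀ t : ℝ, ((t : ℂ) * e).re = t * e.re := fun t => re_ofReal_mul t e
  have him : ∀ t : ℝ, ((t : ℂ) * e).im = t * e.im := fun t => im_ofReal_mul t e
  have hsq : ∀ t : ℝ, normSq ((t : ℂ) * e) = t ^ 2 := by
    intro t
    rw [normSq_apply, hre, him]
    linear_combination t ^ 2 * hn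
  refine gen j B Bd Bdd hB hBd (v := fun t : ℝ => (t : ℂ) * e) (v1 := fun _ => e) (κ := 0) hK
    ?_ ?_ ?_ ?_
  · intro t _
    have h1 : HasDerivAt (fun t : ℝ => (t : ℂ)) ((1 : ℝ) : ℂ) t := (hasDerivAt_id t).ofReal_comp
    have h2 := h1.mul_const e
    simpa using h2
  · intro t _
    simpa using hasDerivAt_const t e
  · intro t ht
    rw [hsq]
    have := ht.1
    positivity
  · intro t ht s q p hs hq hp
    have ht1 := ht.1
    have ht2 := ht.2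
    rw [hsq] at hs
    rw [hre, him] at hq hp
    have hq1 : q = t := by rw [hq]; linear_combination t * hn
    have hp1 : p = 0 := by rw [hp]; ring
    have s1 : 1 ≤ s := by rw [hs]; nlinarith
    have s4 : s ≤ 4 := by rw [hs]; nlinarith
    have hqs : q ^ 2 = s := by rw [hq1, hs]
    have h0 := mul_le_mul_of_nonneg_right (hb s s1 s4) (by positivity : 0 ≤ s ^ 3)
    rw [hqs, hp1]
    calc _ = s * (6 * Bd s + 4 * s * Bdd s) ^ 2 * s ^ 3 := by ring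
      _ ≤ _ := h0

theorem ang_gen (j : ℕ) (B Bd Bdd : ℝ → ℝ) (hB : ∀ s, HasDerivAt B (Bd s) s)
    (hBd : ∀ s, HasDerivAt Bd (Bdd s) s) {a σ : ℝ} (h1 : 1 ≤ a) (h2 : a ≤ 2) (hσ : σ ^ 2 = 1)
    {K : ℝ} (hK : 0 ≤ K)
    (hb : ∀ s : ℝ, 1 ≤ s → s ≤ 4 → (2 * (j : ℝ) + 3) ^ 4 * (s * B s ^ 2) ≤ K ^ 2) :
    D2 (fun t : ℝ => ((B (normSq ((a : ℂ) * exp ((σ : ℂ) * (t : ℂ) * I))) /
      (normSq ((a : ℂ) * exp ((σ : ℂ) * (t : ℂ) * I))) ^ (j + 1) : ℝ) : ℂ) *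
      ((a : ℂ) * exp ((σ : ℂ) * (t : ℂ) * I)) ^ (2 * j + 3)) Set.univ K := by
  have hsq : ∀ t : ℝ, normSq ((a : ℂ) * exp ((σ : ℂ) * (t : ℂ) * I)) = a ^ 2 := by
    intro t
    rw [map_mul, normSq_ofReal, normSq_eq_norm_sq]
    have : (σ : ℂ) * (t : ℂ) * I = ((σ * t : ℝ) : ℂ) * I := by push_cast; ring
    rw [this, norm_exp_ofReal_mul_I]
    ring
  have hder : ∀ t : ℝ, HasDerivAt (fun t : ℝ => (a : ℂ) * exp ((σ : ℂ) * (t : ℂ) * I))
      ((σ : ℂ) * I * ((a : ℂ) * exp ((σ : ℂ) * (t : ℂ) * I))) t := by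
    intro t
    have h3 : HasDerivAt (fun t : ℝ => (t : ℂ)) ((1 : ℝ) : ℂ) t := (hasDerivAt_id t).ofReal_comp
    have h4 := (((h3.const_mul (σ : ℂ)).mul_const I).cexp).const_mul (a : ℂ)
    refine h4.congr_deriv ?_
    push_cast
    ring
  refine gen j B Bd Bdd hB hBd (v := fun t : ℝ => (a : ℂ) * exp ((σ : ℂ) * (t : ℂ) * I))
    (v1 := fun t : ℝ => (σ : ℂ) * I * ((a : ℂ) * exp ((σ : ℂ) * (t : ℂ) * I))) (κ := 1) hK
    (fun t _ => hder t) ?_ ?_ ?_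
  · intro t _
    have h3 := (hder t).const_mul ((σ : ℂ) * I)
    refine h3.congr_deriv ?_
    have h4 : (σ : ℂ) ^ 2 = 1 := by exact_mod_cast hσ
    push_cast
    linear_combination (σ : ℂ) ^ 2 * ((a : ℂ) * exp ((σ : ℂ) * (t : ℂ) * I)) * I_sq -
      ((a : ℂ) * exp ((σ : ℂ) * (t : ℂ) * I)) * h4
  · intro t _
    rw [hsq]
    positivity
  · intro t _ s q p hs hq hp
    set w : ℂ := (a : ℂ) * exp ((σ : ℂ) * (t : ℂ) * I) with hw
    have hre : ((σ : ℂ) * I * w).re = -σ * w.im := by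
      simp [mul_assoc]
    have him : ((σ : ℂ) * I * w).im = σ * w.re := by
      simp [mul_assoc]
    have hsw := hs
    rw [normSq_apply] at hsw
    rw [hsq] at hs
    rw [hre, him] at hq hp
    have hq0 : q = 0 := by rw [hq]; ring
    have hp0 : p = σ * s := by rw [hp, hsw]; ring
    have s1 : 1 ≤ s := by rw [hs]; nlinarith
    have s4 : s ≤ 4 := by rw [hs]; nlinarith
    have hps : p ^ 2 = s ^ 2 := by rw [hp0, mul_pow, hσ, one_mul]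
    have h0 := mul_le_mul_of_nonneg_right (hb s s1 s4) (by positivity : 0 ≤ s ^ 3)
    rw [hps, hq0]
    calc _ = (2 * (j : ℝ) + 3) ^ 4 * (s * B s ^ 2) * s ^ 3 := by ring
      _ ≤ _ := h0

end K03

/-- radial second derivative -/
theorem psi5_rad {e : ℂ} (he : ‖e‖ = 1) :
    D2 (fun t => Psi5 ((t : ℂ) * e)) (Set.Icc 1 2) 29 :=
  K03.rad_gen 1 B5 B5d B5dd K03.B5_der K03.B5d_der he (by norm_num) fun _ h1 h2 => bd5c h1 h2

theorem psi7_rad {e : ℂ} (he : ‖e‖ = 1) :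
    D2 (fun t => Psi7r ((t : ℂ) * e)) (Set.Icc 1 2) 27 :=
  K03.rad_gen 2 B7r B7d B7dd K03.B7_der K03.B7d_der he (by norm_num) fun _ h1 h2 => bd7c h1 h2

/-- angular second derivative (`σ = 1` or `σ = -1`) -/
theorem psi5_ang {a σ : ℝ} (h1 : 1 ≤ a) (h2 : a ≤ 2) (hσ : σ ^ 2 = 1) :
    D2 (fun t => Psi5 ((a : ℂ) * exp ((σ : ℂ) * (t : ℂ) * I))) Set.univ 14 :=
  K03.ang_gen 1 B5 B5d B5dd K03.B5_der K03.B5d_der h1 h2 hσ (by norm_num) fun s hs1 hs2 => by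
    have := bd5d hs1 hs2
    push_cast
    linarith

theorem psi7_ang {a σ : ℝ} (h1 : 1 ≤ a) (h2 : a ≤ 2) (hσ : σ ^ 2 = 1) :
    D2 (fun t => Psi7r ((a : ℂ) * exp ((σ : ℂ) * (t : ℂ) * I))) Set.univ 33 :=
  K03.ang_gen 2 B7r B7d B7dd K03.B7_der K03.B7d_der h1 h2 hσ (by norm_num) fun s hs1 hs2 => by
    have := bd7d hs1 hs2
    push_cast
    linarith

end Pool.Agent.LG
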