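import Pool.Agent.Lib.MP_8026b0_co.KReal

set_option autoImplicit false

/-! Row K04: linear interpolation of a complex function with bounded second derivative. -/

namespace Pool.Agent.LG

theorem K04.conv {f : ℝ → ℂ} {t0 t1 K : ℝ} (hf : D2 f (Set.Icc t0 t1) K) (u : ℂ)
    (hu : ‖u‖ = 1) :
    ConvexOn ℝ (Set.Icc t0 t1) (fun s => (u * f s).re + K / 2 * s ^ 2) := by
  obtain ⟨f1, f2, h1, h2, h3⟩ := hf
  have hsub : ∀ x ∈ interior (Set.Icc t0 t1), x ∈ Set.Icc t0 t1 := fun x hx =>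
    interior_subset hx
  have hd1 : ∀ x ∈ Set.Icc t0 t1, HasDerivAt (fun s => (u * f s).re + K / 2 * s ^ 2)
      ((u * f1 x).re + K * x) x := by
    intro x hx
    have ha : HasDerivAt (fun s => u * f s) (u * f1 x) x := (h1 x hx).const_mul u
    have hb : HasDerivAt (fun s => (u * f s).re) (u * f1 x).re x := by
      have := Complex.reCLM.hasFDerivAt.comp_hasDerivAt x ha
      simpa [Function.comp_def] using this
    have hc : HasDerivAt (fun s : ℝ => K / 2 * s ^ 2) (K * x) x := by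
      have h9 : K * x = K / 2 * ((2 : ℕ) * x ^ (2 - 1)) := by
        norm_num
        ring
      rw [h9]
      exact (hasDerivAt_pow 2 x).const_mul (K / 2)
    exact hb.add hc
  have hd2 : ∀ x ∈ Set.Icc t0 t1, HasDerivAt (fun s => (u * f1 s).re + K * s)
      ((u * f2 x).re + K) x := by
    intro x hx
    have ha : HasDerivAt (fun s => u * f1 s) (u * f2 x) x := (h2 x hx).const_mul u
    have hb : HasDerivAt (fun s => (u * f1 s).re) (u * f2 x).re x := by
      have := Complex.reCLM.hasFDerivAt.comp_hasDerivAt x ha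
      simpa [Function.comp_def] using this
    have hc : HasDerivAt (fun s : ℝ => K * s) K x := by
      have := (hasDerivAt_id x).const_mul K
      simpa using this
    exact hb.add hc
  refine convexOn_of_hasDerivWithinAt2_nonneg (convex_Icc t0 t1)
    (f' := fun s => (u * f1 s).re + K * s) (f'' := fun s => (u * f2 s).re + K)
    (fun x hx => (hd1 x hx).continuousAt.continuousWithinAt)
    (fun x hx => (hd1 x (hsub x hx)).hasDerivWithinAt)
    (fun x hx => (hd2 x (hsub x hx)).hasDerivWithinAt) ?_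
  intro x hx
  have h4 := h3 x (hsub x hx)
  have h5 : |(u * f2 x).re| ≤ ‖u * f2 x‖ := Complex.abs_re_le_norm _
  rw [norm_mul, hu, one_mul] at h5
  have h6 := (abs_le.mp h5).1
  show 0 ≤ (u * f2 x).re + K
  linarith

theorem interp_vec {f : ℝ → ℂ} {t0 t1 K : ℝ} (h01 : t0 < t1) (hf : D2 f (Set.Icc t0 t1) K)
    {t : ℝ} (ht : t ∈ Set.Icc t0 t1) :
    ‖f t - ((((t1 - t) / (t1 - t0) : ℝ) : ℂ) * f t0 + (((t - t0) / (t1 - t0) : ℝ) : ℂ) * f t1)‖
      ≤ K / 2 * ((t - t0) * (t1 - t)) := by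
  have hpos : 0 < t1 - t0 := by linarith
  have hK : 0 ≤ K := by
    obtain ⟨f1, f2, -, -, h3⟩ := hf
    exact (norm_nonneg _).trans (h3 t ht)
  obtain ⟨ht0, ht1⟩ := ht
  set a : ℝ := (t1 - t) / (t1 - t0) with ha
  set b : ℝ := (t - t0) / (t1 - t0) with hb
  have ha0 : 0 ≤ a := div_nonneg (by linarith) hpos.le
  have hb0 : 0 ≤ b := div_nonneg (by linarith) hpos.le
  have hab : a + b = 1 := by
    rw [ha, hb]; field_simp; ring
  have hcomb : a * t0 + b * t1 = t := by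
    rw [ha, hb]; field_simp; ring
  have hsq : a * t0 ^ 2 + b * t1 ^ 2 - t ^ 2 = (t - t0) * (t1 - t) := by
    have h1 : a * (t1 - t0) = t1 - t := by rw [ha]; field_simp
    have h2 : b * (t1 - t0) = t - t0 := by rw [hb]; field_simp
    have h3 : (t1 - t0) * (a * t0 ^ 2 + b * t1 ^ 2 - t ^ 2 - (t - t0) * (t1 - t)) = 0 := by
      linear_combination t0 ^ 2 * h1 + t1 ^ 2 * h2
    rcases mul_eq_zero.mp h3 with h | h
    · exact absurd h hpos.ne'
    · linarith
  set w : ℂ := f t - ((a : ℂ) * f t0 + (b : ℂ) * f t1) with hw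
  by_cases hw0 : w = 0
  · rw [hw0, norm_zero]
    have : 0 ≤ (t - t0) * (t1 - t) := mul_nonneg (by linarith) (by linarith)
    positivity
  have hwn : ‖w‖ ≠ 0 := by simpa using hw0
  set u : ℂ := (starRingEnd ℂ) w / (‖w‖ : ℂ) with hu
  have hu1 : ‖u‖ = 1 := by
    rw [hu, norm_div, RCLike.norm_conj, Complex.norm_real, norm_norm]
    exact div_self hwn
  have huw : (u * w).re = ‖w‖ := by
    have h1 : u * w = (‖w‖ : ℂ) := by
      rw [hu, div_mul_eq_mul_div, mul_comm ((starRingEnd ℂ) w) w, Complex.mul_conj,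
        Complex.normSq_eq_norm_sq]
      have : (‖w‖ : ℂ) ≠ 0 := by exact_mod_cast hwn
      push_cast
      field_simp
    rw [h1, Complex.ofReal_re]
  have hc := (K04.conv hf u hu1).2 (Set.left_mem_Icc.mpr h01.le) (Set.right_mem_Icc.mpr h01.le)
    ha0 hb0 hab
  simp only [smul_eq_mul] at hc
  rw [hcomb] at hc
  have hre : (u * w).re = (u * f t).re - (a * (u * f t0).re + b * (u * f t1).re) := by
    rw [hw]
    have : u * (f t - ((a : ℂ) * f t0 + (b : ℂ) * f t1))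
        = u * f t - ((a : ℂ) * (u * f t0) + (b : ℂ) * (u * f t1)) := by ring
    rw [this, Complex.sub_re, Complex.add_re, Complex.re_ofReal_mul, Complex.re_ofReal_mul]
  rw [huw] at hre
  rw [← hsq, hre]
  nlinarith [hc]

theorem interp {f : ℝ → ℂ} {t0 t1 K : ℝ} (h01 : t0 < t1) (hf : D2 f (Set.Icc t0 t1) K)
    {t : ℝ} (ht : t ∈ Set.Icc t0 t1) :
    ‖f t‖ ≤ (t1 - t) / (t1 - t0) * ‖f t0‖ + (t - t0) / (t1 - t0) * ‖f t1‖
      + K / 2 * ((t - t0) * (t1 - t)) := by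
  have h := interp_vec h01 hf ht
  have hpos : 0 < t1 - t0 := by linarith
  obtain ⟨ht0, ht1⟩ := ht
  have ha0 : 0 ≤ (t1 - t) / (t1 - t0) := div_nonneg (by linarith) hpos.le
  have hb0 : 0 ≤ (t - t0) / (t1 - t0) := div_nonneg (by linarith) hpos.le
  set a : ℝ := (t1 - t) / (t1 - t0)
  set b : ℝ := (t - t0) / (t1 - t0)
  have h1 : ‖(a : ℂ) * f t0 + (b : ℂ) * f t1‖ ≤ a * ‖f t0‖ + b * ‖f t1‖ := by
    refine (norm_add_le _ _).trans ?_
    rw [norm_mul, norm_mul, Complex.norm_real, Complex.norm_real, Real.norm_eq_abs,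
      Real.norm_eq_abs, abs_of_nonneg ha0, abs_of_nonneg hb0]
  have h2 : ‖f t‖ ≤ ‖f t - ((a : ℂ) * f t0 + (b : ℂ) * f t1)‖
      + ‖(a : ℂ) * f t0 + (b : ℂ) * f t1‖ := by
    have := norm_add_le (f t - ((a : ℂ) * f t0 + (b : ℂ) * f t1))
      ((a : ℂ) * f t0 + (b : ℂ) * f t1)
    rwa [sub_add_cancel] at this
  linarith

theorem D2.add {f g : ℝ → ℂ} {s : Set ℝ} {K L : ℝ} (hf : D2 f s K) (hg : D2 g s L) :
    D2 (fun t => f t + g t) s (K + L) := by
  obtain ⟨f1, f2, h1, h2, h3⟩ := hf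
  obtain ⟨g1, g2, k1, k2, k3⟩ := hg
  refine ⟨fun t => f1 t + g1 t, fun t => f2 t + g2 t, fun t ht => (h1 t ht).add (k1 t ht),
    fun t ht => (h2 t ht).add (k2 t ht), fun t ht => ?_⟩
  exact (norm_add_le _ _).trans (add_le_add (h3 t ht) (k3 t ht))

theorem D2.sub {f g : ℝ → ℂ} {s : Set ℝ} {K L : ℝ} (hf : D2 f s K) (hg : D2 g s L) :
    D2 (fun t => f t - g t) s (K + L) := by
  obtain ⟨f1, f2, h1, h2, h3⟩ := hf
  obtain ⟨g1, g2, k1, k2, k3⟩ := hg
  refine ⟨fun t => f1 t - g1 t, fun t => f2 t - g2 t, fun t ht => (h1 t ht).sub (k1 t ht),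
    fun t ht => (h2 t ht).sub (k2 t ht), fun t ht => ?_⟩
  exact (norm_sub_le _ _).trans (add_le_add (h3 t ht) (k3 t ht))

theorem D2.const (c : ℂ) (s : Set ℝ) : D2 (fun _ => c) s 0 := by
  refine ⟨fun _ => 0, fun _ => 0, fun t _ => hasDerivAt_const t c,
    fun t _ => hasDerivAt_const t 0, fun t _ => ?_⟩
  simp

theorem D2.mono {f : ℝ → ℂ} {s u : Set ℝ} {K L : ℝ} (hf : D2 f s K) (h : u ⊆ s) (hK : K ≤ L) :
    D2 f u L := by
  obtain ⟨f1, f2, h1, h2, h3⟩ := hf
  exact ⟨f1, f2, fun t ht => h1 t (h ht), fun t ht => h2 t (h ht),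
    fun t ht => (h3 t (h ht)).trans hK⟩

end Pool.Agent.LG
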