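import Pool.Agent.Lib.MP_8026b0_co.K03
import Pool.Agent.Lib.MP_8026b0_co.K04

set_option autoImplicit false

/-! Row K05: trilinear interpolation on a cell. -/

namespace Pool.Agent.LG

open Real

def lerp (s x y : ℝ) : ℝ := (1 - s) * x + s * y

/-- trilinear interpolation -/
def tri8 (Φ : ℝ → ℝ → ℝ → ℝ) (a0 a1 b0 b1 c0 c1 s t u : ℝ) : ℝ :=
  lerp u (lerp t (lerp s (Φ a0 b0 c0) (Φ a1 b0 c0)) (lerp s (Φ a0 b1 c0) (Φ a1 b1 c0)))
    (lerp t (lerp s (Φ a0 b0 c1) (Φ a1 b0 c1)) (lerp s (Φ a0 b1 c1) (Φ a1 b1 c1)))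

namespace K05

theorem lerp_mono {s x y x' y' : ℝ} (hs : s ∈ Set.Icc (0 : ℝ) 1) (hx : x ≤ x') (hy : y ≤ y') :
    lerp s x y ≤ lerp s x' y' := by
  unfold lerp
  have h1 := mul_le_mul_of_nonneg_left hx (sub_nonneg.2 hs.2)
  have h2 := mul_le_mul_of_nonneg_left hy hs.1
  linarith

theorem comb {Φ : ℝ → ℝ → ℝ → ℝ} {a0 a1 b0 b1 c0 c1 a b c s t u A B C : ℝ}
    (hs : s ∈ Set.Icc (0 : ℝ) 1) (ht : t ∈ Set.Icc (0 : ℝ) 1)
    (h1 : Φ a b c ≤ lerp s (Φ a0 b c) (Φ a1 b c) + A)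
    (h2 : ∀ a', (a' = a0 ∨ a' = a1) → Φ a' b c ≤ lerp t (Φ a' b0 c) (Φ a' b1 c) + B)
    (h3 : ∀ a' b', (a' = a0 ∨ a' = a1) → (b' = b0 ∨ b' = b1) →
      Φ a' b' c ≤ lerp u (Φ a' b' c0) (Φ a' b' c1) + C) :
    Φ a b c ≤ tri8 Φ a0 a1 b0 b1 c0 c1 s t u + A + B + C := by
  have e1 := lerp_mono hs (h2 a0 (Or.inl rfl)) (h2 a1 (Or.inr rfl))
  have e2 := lerp_mono hs
    (lerp_mono ht (h3 a0 b0 (Or.inl rfl) (Or.inl rfl)) (h3 a0 b1 (Or.inl rfl) (Or.inr rfl)))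
    (lerp_mono ht (h3 a1 b0 (Or.inr rfl) (Or.inl rfl)) (h3 a1 b1 (Or.inr rfl) (Or.inr rfl)))
  have e3 : lerp s (lerp t (Φ a0 b0 c) (Φ a0 b1 c) + B) (lerp t (Φ a1 b0 c) (Φ a1 b1 c) + B)
      = lerp s (lerp t (Φ a0 b0 c) (Φ a0 b1 c)) (lerp t (Φ a1 b0 c) (Φ a1 b1 c)) + B := by
    unfold lerp; ring
  have e4 : lerp s (lerp t (lerp u (Φ a0 b0 c0) (Φ a0 b0 c1) + C)
        (lerp u (Φ a0 b1 c0) (Φ a0 b1 c1) + C))
      (lerp t (lerp u (Φ a1 b0 c0) (Φ a1 b0 c1) + C) (lerp u (Φ a1 b1 c0) (Φ a1 b1 c1) + C))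
      = tri8 Φ a0 a1 b0 b1 c0 c1 s t u + C := by
    unfold tri8 lerp; ring
  rw [e3] at e1
  rw [e4] at e2
  linarith

theorem frac_mem {x0 x1 x : ℝ} (h : x0 < x1) (hx : x ∈ Set.Icc x0 x1) :
    (x - x0) / (x1 - x0) ∈ Set.Icc (0 : ℝ) 1 := by
  have h0 : 0 < x1 - x0 := sub_pos.2 h
  constructor
  · exact div_nonneg (sub_nonneg.2 hx.1) h0.le
  · rw [div_le_one h0]
    linarith [hx.2]

theorem one_sub_frac {x0 x1 x : ℝ} (h : x0 < x1) :
    1 - (x - x0) / (x1 - x0) = (x1 - x) / (x1 - x0) := by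
  have h0 : x1 - x0 ≠ 0 := (sub_pos.2 h).ne'
  field_simp
  ring

theorem self_lerp {x0 x1 x : ℝ} (h : x0 < x1) :
    x = (1 - (x - x0) / (x1 - x0)) * x0 + (x - x0) / (x1 - x0) * x1 := by
  have h0 : x1 - x0 ≠ 0 := (sub_pos.2 h).ne'
  field_simp
  ring

theorem ns (a b β : ℝ) :
    Complex.normSq ((a : ℂ) * Complex.exp ((β : ℂ) * Complex.I)
      + (b : ℂ) * Complex.exp (-(β : ℂ) * Complex.I)) = a ^ 2 + b ^ 2 + 2 * a * b * cos (2 * β) := by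
  have h1 : -(β : ℂ) = ((-β : ℝ) : ℂ) := by push_cast; ring
  rw [h1, Complex.normSq_apply]
  simp only [Complex.add_re, Complex.add_im, Complex.re_ofReal_mul, Complex.im_ofReal_mul,
    Complex.exp_ofReal_mul_I_re, Complex.exp_ofReal_mul_I_im, Real.cos_neg, Real.sin_neg]
  rw [Real.cos_two_mul]
  have h := Real.sin_sq_add_cos_sq β
  have h' : sin β ^ 2 = 1 - cos β ^ 2 := by linarith
  ring_nf
  rw [h']
  ring

theorem ns' (a b β : ℝ) :
    Complex.normSq ((a : ℂ) * (Complex.exp ((β : ℂ) * Complex.I) * Complex.I)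
      + (b : ℂ) * (Complex.exp (-(β : ℂ) * Complex.I) * (-Complex.I)))
      = a ^ 2 + b ^ 2 - 2 * a * b * cos (2 * β) := by
  have h1 : (a : ℂ) * (Complex.exp ((β : ℂ) * Complex.I) * Complex.I)
      + (b : ℂ) * (Complex.exp (-(β : ℂ) * Complex.I) * (-Complex.I))
      = ((a : ℂ) * Complex.exp ((β : ℂ) * Complex.I)
      + ((-b : ℝ) : ℂ) * Complex.exp (-(β : ℂ) * Complex.I)) * Complex.I := by
    push_cast; ring
  rw [h1, map_mul, ns, Complex.normSq_I]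
  ring

theorem cos_ge {c : ℝ} (h0 : π / 6 ≤ c) (h1 : c ≤ π / 3) : -(1 / 2) ≤ cos (2 * c) := by
  have h2 : cos (2 * (π / 3)) = -(1 / 2) := by
    rw [Real.cos_two_mul, Real.cos_pi_div_three]; norm_num
  rw [← h2]
  apply Real.cos_le_cos_of_nonneg_of_le_pi
  · have := Real.pi_pos; linarith
  · have := Real.pi_pos; linarith
  · linarith

theorem cos_le {c : ℝ} (h0 : π / 6 ≤ c) (h1 : c ≤ π / 3) : cos (2 * c) ≤ 1 / 2 := by
  have h2 : cos (2 * (π / 6)) = 1 / 2 := by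
    rw [show 2 * (π / 6) = π / 3 by ring, Real.cos_pi_div_three]
  rw [← h2]
  apply Real.cos_le_cos_of_nonneg_of_le_pi
  · have := Real.pi_pos; linarith
  · have := Real.pi_pos; linarith
  · linarith

theorem ns_ge {a b β : ℝ} (ha : 1 ≤ a) (hb : 1 ≤ b) (h : -(1 / 2) ≤ cos (2 * β)) :
    1 ≤ Complex.normSq ((a : ℂ) * Complex.exp ((β : ℂ) * Complex.I)
      + (b : ℂ) * Complex.exp (-(β : ℂ) * Complex.I)) := by
  rw [ns]
  have hab : 1 ≤ a * b := by nlinarith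
  nlinarith [sq_nonneg (a - b), mul_le_mul_of_nonneg_left h (by linarith : 0 ≤ a * b)]

theorem norm_e (β : ℝ) : ‖Complex.exp ((β : ℂ) * Complex.I)‖ = 1 :=
  Complex.norm_exp_ofReal_mul_I β

theorem norm_e' (β : ℝ) : ‖Complex.exp (-(β : ℂ) * Complex.I)‖ = 1 := by
  have h1 : -(β : ℂ) = ((-β : ℝ) : ℂ) := by push_cast; ring
  rw [h1]
  exact Complex.norm_exp_ofReal_mul_I (-β)

theorem der_lin (e w : ℂ) (t : ℝ) : HasDerivAt (fun t : ℝ => (t : ℂ) * e + w) e t := by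
  have h := ((hasDerivAt_id t).ofReal_comp.mul_const e).add_const w
  simpa using h

theorem der_e (t : ℝ) : HasDerivAt (fun t : ℝ => Complex.exp ((t : ℂ) * Complex.I))
    (Complex.exp ((t : ℂ) * Complex.I) * Complex.I) t := by
  have h := ((hasDerivAt_id t).ofReal_comp.mul_const Complex.I).cexp
  simpa using h

theorem der_e' (t : ℝ) : HasDerivAt (fun t : ℝ => Complex.exp (-(t : ℂ) * Complex.I))
    (Complex.exp (-(t : ℂ) * Complex.I) * (-Complex.I)) t := by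
  have h := ((hasDerivAt_id t).ofReal_comp.neg.mul_const Complex.I).cexp
  simpa using h

/-- the radial curves -/
theorem radA {Ψ : ℂ → ℂ} {R K M : ℝ}
    (hD : ∀ (v v1 : ℝ → ℂ) (s : Set ℝ) (κ W : ℝ), 0 ≤ κ → (∀ t ∈ s, HasDerivAt v (v1 t) t) →
      (∀ t ∈ s, HasDerivAt v1 (-(κ : ℂ) * v t) t) → (∀ t ∈ s, 1 ≤ Complex.normSq (v t)) →
      (∀ t ∈ s, Complex.normSq (v t) ≤ 21 / 5) → (∀ t ∈ s, Complex.normSq (v1 t) ≤ W) →
      D2 (fun t => Ψ (v t)) s (K * W + M * κ))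
    (hR : ∀ e : ℂ, ‖e‖ = 1 → D2 (fun t => Ψ ((t : ℂ) * e)) (Set.Icc 1 2) R)
    {e w : ℂ} (he : ‖e‖ = 1) {t0 t1 : ℝ} (h0 : 1 ≤ t0) (h1 : t1 ≤ 2)
    (hg : ∀ t ∈ Set.Icc t0 t1, 1 ≤ Complex.normSq ((t : ℂ) * e + w))
    (hl : ∀ t ∈ Set.Icc t0 t1, Complex.normSq ((t : ℂ) * e + w) ≤ 21 / 5) :
    D2 (fun t => Ψ ((t : ℂ) * e) + Ψ w - Ψ ((t : ℂ) * e + w)) (Set.Icc t0 t1) (R + K) := by
  have A1 : D2 (fun t => Ψ ((t : ℂ) * e)) (Set.Icc t0 t1) R :=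
    (hR e he).mono (Set.Icc_subset_Icc h0 h1) le_rfl
  have A2 : D2 (fun t => Ψ ((t : ℂ) * e + w)) (Set.Icc t0 t1) (K * 1 + M * 0) := by
    refine hD (fun t => (t : ℂ) * e + w) (fun _ => e) (Set.Icc t0 t1) 0 1 le_rfl
      (fun t _ => der_lin e w t) (fun t _ => ?_) hg hl (fun t _ => ?_)
    · have h := hasDerivAt_const t e
      simpa using h
    · rw [Complex.normSq_eq_norm_sq, he]; norm_num
  have A3 := (A1.add (D2.const (Ψ w) (Set.Icc t0 t1))).sub A2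
  exact A3.mono (subset_refl _) (by linarith)

/-- the angular curves -/
theorem angA {Ψ : ℂ → ℂ} {T K M : ℝ}
    (hD : ∀ (v v1 : ℝ → ℂ) (s : Set ℝ) (κ W : ℝ), 0 ≤ κ → (∀ t ∈ s, HasDerivAt v (v1 t) t) →
      (∀ t ∈ s, HasDerivAt v1 (-(κ : ℂ) * v t) t) → (∀ t ∈ s, 1 ≤ Complex.normSq (v t)) →
      (∀ t ∈ s, Complex.normSq (v t) ≤ 21 / 5) → (∀ t ∈ s, Complex.normSq (v1 t) ≤ W) →
      D2 (fun t => Ψ (v t)) s (K * W + M * κ))
    (hT : ∀ a σ : ℝ, 1 ≤ a → a ≤ 2 → σ ^ 2 = 1 →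
      D2 (fun t => Ψ ((a : ℂ) * Complex.exp ((σ : ℂ) * (t : ℂ) * Complex.I))) Set.univ T)
    {a b c0 c1 : ℝ} (ha : 1 ≤ a) (ha2 : a ≤ 2) (hb : 1 ≤ b) (hb2 : b ≤ 2) (hc0 : π / 6 ≤ c0)
    (hc1 : c1 ≤ π / 3)
    (hl : ∀ t ∈ Set.Icc c0 c1, rr a b (- cos (2 * t)) ≤ 21 / 5) :
    D2 (fun t => Ψ ((a : ℂ) * Complex.exp ((t : ℂ) * Complex.I))
      + Ψ ((b : ℂ) * Complex.exp (-(t : ℂ) * Complex.I))
      - Ψ ((a : ℂ) * Complex.exp ((t : ℂ) * Complex.I)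
        + (b : ℂ) * Complex.exp (-(t : ℂ) * Complex.I))) (Set.Icc c0 c1)
      (T + T + (K * 12 + M)) := by
  have A1 : D2 (fun t => Ψ ((a : ℂ) * Complex.exp ((t : ℂ) * Complex.I))) (Set.Icc c0 c1) T := by
    have h := (hT a 1 ha ha2 (by norm_num)).mono (Set.subset_univ (Set.Icc c0 c1)) le_rfl
    simpa using h
  have A2 : D2 (fun t => Ψ ((b : ℂ) * Complex.exp (-(t : ℂ) * Complex.I))) (Set.Icc c0 c1) T := by
    have h := (hT b (-1) hb hb2 (by norm_num)).mono (Set.subset_univ (Set.Icc c0 c1)) le_rfl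
    have e : (fun t : ℝ => Ψ ((b : ℂ) * Complex.exp (-(t : ℂ) * Complex.I)))
        = (fun t : ℝ => Ψ ((b : ℂ) * Complex.exp (((-1 : ℝ) : ℂ) * (t : ℂ) * Complex.I))) := by
      funext t
      congr 3
      push_cast; ring
    rw [e]
    exact h
  have A3 : D2 (fun t : ℝ => Ψ ((a : ℂ) * Complex.exp ((t : ℂ) * Complex.I)
        + (b : ℂ) * Complex.exp (-(t : ℂ) * Complex.I))) (Set.Icc c0 c1) (K * 12 + M * 1) := by
    refine hD (fun t : ℝ => (a : ℂ) * Complex.exp ((t : ℂ) * Complex.I)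
        + (b : ℂ) * Complex.exp (-(t : ℂ) * Complex.I))
      (fun t : ℝ => (a : ℂ) * (Complex.exp ((t : ℂ) * Complex.I) * Complex.I)
        + (b : ℂ) * (Complex.exp (-(t : ℂ) * Complex.I) * (-Complex.I)))
      (Set.Icc c0 c1) 1 12 zero_le_one (fun t _ => ?_) (fun t _ => ?_) (fun t ht => ?_)
      (fun t ht => ?_) (fun t ht => ?_)
    · exact ((der_e t).const_mul (a : ℂ)).add ((der_e' t).const_mul (b : ℂ))
    · have h := (((der_e t).mul_const Complex.I).const_mul (a : ℂ)).add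
        (((der_e' t).mul_const (-Complex.I)).const_mul (b : ℂ))
      refine h.congr_deriv ?_
      have hI : Complex.I * Complex.I = -1 := Complex.I_mul_I
      push_cast
      linear_combination ((a : ℂ) * Complex.exp ((t : ℂ) * Complex.I)
        + (b : ℂ) * Complex.exp (-(t : ℂ) * Complex.I)) * hI
    · exact ns_ge ha hb (cos_ge (hc0.trans ht.1) (ht.2.trans hc1))
    · have h := hl t ht
      rw [ns]
      unfold rr at h
      linarith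
    · rw [ns']
      have h1 := cos_ge (hc0.trans ht.1) (ht.2.trans hc1)
      have hab : 0 ≤ a * b := by nlinarith
      have h2 : -(a * b) ≤ 2 * a * b * cos (2 * t) := by
        nlinarith [mul_le_mul_of_nonneg_left h1 hab]
      nlinarith
  have A4 := (A1.add A2).sub A3
  exact A4.mono (subset_refl _) (by linarith)

theorem cc_pos : 0 ≤ cc := by
  unfold cc
  have h : Real.sqrt 3 ≤ 3 := by
    rw [Real.sqrt_le_left (by norm_num)]; norm_num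
  linarith

theorem cc_le : cc ≤ 2114 / 10000 := by
  unfold cc
  have h : (17317 : ℝ) / 10000 ≤ Real.sqrt 3 := by
    apply Real.le_sqrt_of_sq_le; norm_num
  linarith

/-- combine two interpolation bounds -/
theorem two {f g : ℝ → ℂ} {t0 t1 K L C : ℝ} (h01 : t0 < t1) (hf : D2 f (Set.Icc t0 t1) K)
    (hg : D2 g (Set.Icc t0 t1) L) (hKL : 0 ≤ K + L) (hC : 2114 / 10000 * (K + L) ≤ 2 * C)
    {t : ℝ} (ht : t ∈ Set.Icc t0 t1) :
    cc * (‖f t‖ + ‖g t‖) ≤ lerp ((t - t0) / (t1 - t0)) (cc * (‖f t0‖ + ‖g t0‖))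
      (cc * (‖f t1‖ + ‖g t1‖)) + C * ((t - t0) * (t1 - t)) := by
  have h1 := interp h01 hf ht
  have h2 := interp h01 hg ht
  have h3 : 0 ≤ (t - t0) * (t1 - t) :=
    mul_nonneg (sub_nonneg.2 ht.1) (sub_nonneg.2 ht.2)
  have h4 := mul_le_mul_of_nonneg_left (add_le_add h1 h2) cc_pos
  unfold lerp
  rw [one_sub_frac h01]
  have h5 : cc * (K + L) ≤ 2 * C :=
    (mul_le_mul_of_nonneg_right cc_le hKL).trans hC
  have h6 := mul_le_mul_of_nonneg_right h5 h3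
  nlinarith

end K05

open K05

theorem tri8_mono {Φ Ψ : ℝ → ℝ → ℝ → ℝ} {a0 a1 b0 b1 c0 c1 s t u : ℝ}
    (hs : s ∈ Set.Icc (0 : ℝ) 1) (ht : t ∈ Set.Icc (0 : ℝ) 1) (hu : u ∈ Set.Icc (0 : ℝ) 1)
    (h : ∀ a b c, (a = a0 ∨ a = a1) → (b = b0 ∨ b = b1) → (c = c0 ∨ c = c1) → Φ a b c ≤ Ψ a b c) :
    tri8 Φ a0 a1 b0 b1 c0 c1 s t u ≤ tri8 Ψ a0 a1 b0 b1 c0 c1 s t u := by
  unfold tri8
  refine lerp_mono hu (lerp_mono ht (lerp_mono hs ?_ ?_) (lerp_mono hs ?_ ?_))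
    (lerp_mono ht (lerp_mono hs ?_ ?_) (lerp_mono hs ?_ ?_)) <;> apply h <;> simp

/-- interpolation bound for the norms -/
theorem cell_interp {a0 a1 b0 b1 c0 c1 a b c : ℝ} (ha0 : 1 ≤ a0) (ha01 : a0 < a1) (ha1 : a1 ≤ 2)
    (hb0 : 1 ≤ b0) (hb01 : b0 < b1) (hb1 : b1 ≤ 2) (hc0 : π / 6 ≤ c0) (hc01 : c0 < c1)
    (hc1 : c1 ≤ π / 3)
    (hr : ∀ a' ∈ Set.Icc a0 a1, ∀ b' ∈ Set.Icc b0 b1, ∀ c' ∈ Set.Icc c0 c1,
      rr a' b' (- cos (2 * c')) ≤ 21 / 5)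
    (ha : a ∈ Set.Icc a0 a1) (hb : b ∈ Set.Icc b0 b1) (hc : c ∈ Set.Icc c0 c1) :
    cc * (‖Z5 a b c‖ + ‖Z7r a b c‖)
      ≤ tri8 (fun a b c => cc * (‖Z5 a b c‖ + ‖Z7r a b c‖)) a0 a1 b0 b1 c0 c1
          ((a - a0) / (a1 - a0)) ((b - b0) / (b1 - b0)) ((c - c0) / (c1 - c0))
        + 19 * ((a - a0) * (a1 - a)) + 19 * ((b - b0) * (b1 - b)) + 168 * ((c - c0) * (c1 - c)) := by
  have hc3 : π / 6 ≤ c := hc0.trans hc.1
  have hc4 : c ≤ π / 3 := hc.2.trans hc1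
  have hcos := cos_ge hc3 hc4
  have hD5 : ∀ (v v1 : ℝ → ℂ) (s : Set ℝ) (κ W : ℝ), 0 ≤ κ → (∀ t ∈ s, HasDerivAt v (v1 t) t) →
      (∀ t ∈ s, HasDerivAt v1 (-(κ : ℂ) * v t) t) → (∀ t ∈ s, 1 ≤ Complex.normSq (v t)) →
      (∀ t ∈ s, Complex.normSq (v t) ≤ 21 / 5) → (∀ t ∈ s, Complex.normSq (v1 t) ≤ W) →
      D2 (fun t => Psi5 (v t)) s (90 * W + 23 / 2 * κ) :=
    fun v v1 s κ W h1 h2 h3 h4 h5 h6 => psi5_D2 h1 h2 h3 h4 h5 h6
  have hD7 : ∀ (v v1 : ℝ → ℂ) (s : Set ℝ) (κ W : ℝ), 0 ≤ κ → (∀ t ∈ s, HasDerivAt v (v1 t) t) →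
      (∀ t ∈ s, HasDerivAt v1 (-(κ : ℂ) * v t) t) → (∀ t ∈ s, 1 ≤ Complex.normSq (v t)) →
      (∀ t ∈ s, Complex.normSq (v t) ≤ 21 / 5) → (∀ t ∈ s, Complex.normSq (v1 t) ≤ W) →
      D2 (fun t => Psi7r (v t)) s (31 * W + 8 * κ) :=
    fun v v1 s κ W h1 h2 h3 h4 h5 h6 => psi7_D2 h1 h2 h3 h4 h5 h6
  refine comb (Φ := fun a b c => cc * (‖Z5 a b c‖ + ‖Z7r a b c‖)) (frac_mem ha01 ha)
    (frac_mem hb01 hb) ?_ ?_ ?_
  · -- interpolation in the first variable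
    have hg : ∀ t ∈ Set.Icc a0 a1, 1 ≤ Complex.normSq ((t : ℂ) * Complex.exp ((c : ℂ) * Complex.I)
        + (b : ℂ) * Complex.exp (-(c : ℂ) * Complex.I)) :=
      fun t ht => ns_ge (ha0.trans ht.1) (hb0.trans hb.1) hcos
    have hl : ∀ t ∈ Set.Icc a0 a1, Complex.normSq ((t : ℂ) * Complex.exp ((c : ℂ) * Complex.I)
        + (b : ℂ) * Complex.exp (-(c : ℂ) * Complex.I)) ≤ 21 / 5 := by
      intro t ht
      have h := hr t ht b hb c hc
      rw [ns]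
      unfold rr at h
      linarith
    have F5 : D2 (fun t => Z5 t b c) (Set.Icc a0 a1) (29 + 90) :=
      radA (Ψ := Psi5) hD5 (fun e he => psi5_rad he) (norm_e c) ha0 ha1 hg hl
    have F7 : D2 (fun t => Z7r t b c) (Set.Icc a0 a1) (27 + 31) :=
      radA (Ψ := Psi7r) hD7 (fun e he => psi7_rad he) (norm_e c) ha0 ha1 hg hl
    exact two ha01 F5 F7 (by norm_num) (by norm_num) ha
  · -- second variable
    intro a' ha'
    have ha'' : a' ∈ Set.Icc a0 a1 := by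
      rcases ha' with h | h
      · rw [h]; exact ⟨le_rfl, ha01.le⟩
      · rw [h]; exact ⟨ha01.le, le_rfl⟩
    have hcomm : ∀ t : ℝ, (t : ℂ) * Complex.exp (-(c : ℂ) * Complex.I)
        + (a' : ℂ) * Complex.exp ((c : ℂ) * Complex.I)
        = (a' : ℂ) * Complex.exp ((c : ℂ) * Complex.I)
        + (t : ℂ) * Complex.exp (-(c : ℂ) * Complex.I) := fun t => add_comm _ _
    have hg : ∀ t ∈ Set.Icc b0 b1, 1 ≤ Complex.normSq ((t : ℂ) * Complex.exp (-(c : ℂ) * Complex.I)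
        + (a' : ℂ) * Complex.exp ((c : ℂ) * Complex.I)) := by
      intro t ht
      rw [hcomm]
      exact ns_ge (ha0.trans ha''.1) (hb0.trans ht.1) hcos
    have hl : ∀ t ∈ Set.Icc b0 b1, Complex.normSq ((t : ℂ) * Complex.exp (-(c : ℂ) * Complex.I)
        + (a' : ℂ) * Complex.exp ((c : ℂ) * Complex.I)) ≤ 21 / 5 := by
      intro t ht
      have h := hr a' ha'' t ht c hc
      rw [hcomm, ns]
      unfold rr at h
      linarith
    have F5 : D2 (fun t => Z5 a' t c) (Set.Icc b0 b1) (29 + 90) := by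
      have h := radA (Ψ := Psi5) hD5 (fun e he => psi5_rad he) (norm_e' c) hb0 hb1 hg hl
      have e : (fun t => Z5 a' t c) = (fun t : ℝ => Psi5 ((t : ℂ) * Complex.exp (-(c : ℂ) * Complex.I))
          + Psi5 ((a' : ℂ) * Complex.exp ((c : ℂ) * Complex.I))
          - Psi5 ((t : ℂ) * Complex.exp (-(c : ℂ) * Complex.I)
            + (a' : ℂ) * Complex.exp ((c : ℂ) * Complex.I))) := by
        funext t
        rw [hcomm]
        unfold Z5
        ring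
      rw [e]
      exact h
    have F7 : D2 (fun t => Z7r a' t c) (Set.Icc b0 b1) (27 + 31) := by
      have h := radA (Ψ := Psi7r) hD7 (fun e he => psi7_rad he) (norm_e' c) hb0 hb1 hg hl
      have e : (fun t => Z7r a' t c) = (fun t : ℝ => Psi7r ((t : ℂ) * Complex.exp (-(c : ℂ) * Complex.I))
          + Psi7r ((a' : ℂ) * Complex.exp ((c : ℂ) * Complex.I))
          - Psi7r ((t : ℂ) * Complex.exp (-(c : ℂ) * Complex.I)
            + (a' : ℂ) * Complex.exp ((c : ℂ) * Complex.I))) := by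
        funext t
        rw [hcomm]
        unfold Z7r
        ring
      rw [e]
      exact h
    exact two hb01 F5 F7 (by norm_num) (by norm_num) hb
  · -- third variable
    intro a' b' ha' hb'
    have ha'' : a' ∈ Set.Icc a0 a1 := by
      rcases ha' with h | h
      · rw [h]; exact ⟨le_rfl, ha01.le⟩
      · rw [h]; exact ⟨ha01.le, le_rfl⟩
    have hb'' : b' ∈ Set.Icc b0 b1 := by
      rcases hb' with h | h
      · rw [h]; exact ⟨le_rfl, hb01.le⟩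
      · rw [h]; exact ⟨hb01.le, le_rfl⟩
    have hl : ∀ t ∈ Set.Icc c0 c1, rr a' b' (- cos (2 * t)) ≤ 21 / 5 :=
      fun t ht => hr a' ha'' b' hb'' t ht
    have F5 : D2 (fun t => Z5 a' b' t) (Set.Icc c0 c1) (14 + 14 + (90 * 12 + 23 / 2)) :=
      angA (Ψ := Psi5) hD5 (fun a σ h1 h2 h3 => psi5_ang h1 h2 h3)
        (ha0.trans ha''.1) (ha''.2.trans ha1) (hb0.trans hb''.1) (hb''.2.trans hb1) hc0 hc1 hl
    have F7 : D2 (fun t => Z7r a' b' t) (Set.Icc c0 c1) (33 + 33 + (31 * 12 + 8)) :=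
      angA (Ψ := Psi7r) hD7 (fun a σ h1 h2 h3 => psi7_ang h1 h2 h3)
        (ha0.trans ha''.1) (ha''.2.trans ha1) (hb0.trans hb''.1) (hb''.2.trans hb1) hc0 hc1 hl
    exact two hc01 F5 F7 (by norm_num) (by norm_num) hc

namespace K05

/-- the lower bound version of `comb` -/
theorem comb' {Φ : ℝ → ℝ → ℝ → ℝ} {a0 a1 b0 b1 c0 c1 a b c s t u : ℝ}
    (hs : s ∈ Set.Icc (0 : ℝ) 1) (ht : t ∈ Set.Icc (0 : ℝ) 1)
    (h1 : lerp s (Φ a0 b c) (Φ a1 b c) ≤ Φ a b c)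
    (h2 : ∀ a', (a' = a0 ∨ a' = a1) → lerp t (Φ a' b0 c) (Φ a' b1 c) ≤ Φ a' b c)
    (h3 : ∀ a' b', (a' = a0 ∨ a' = a1) → (b' = b0 ∨ b' = b1) →
      lerp u (Φ a' b' c0) (Φ a' b' c1) ≤ Φ a' b' c) :
    tri8 Φ a0 a1 b0 b1 c0 c1 s t u ≤ Φ a b c := by
  have h := comb (Φ := fun a b c => - Φ a b c) (a0 := a0) (a1 := a1) (b0 := b0) (b1 := b1)
    (c0 := c0) (c1 := c1) (a := a) (b := b) (c := c) (s := s) (t := t) (u := u)
    (A := 0) (B := 0) (C := 0) hs ht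
    (by unfold lerp at h1 ⊢; linarith)
    (fun a' ha' => by have := h2 a' ha'; unfold lerp at this ⊢; linarith)
    (fun a' b' ha' hb' => by have := h3 a' b' ha' hb'; unfold lerp at this ⊢; linarith)
  have e : tri8 (fun a b c => - Φ a b c) a0 a1 b0 b1 c0 c1 s t u
      = - tri8 Φ a0 a1 b0 b1 c0 c1 s t u := by
    unfold tri8 lerp; ring
  linarith

theorem sin_conc {c0 c1 c : ℝ} (hc0 : 0 ≤ c0) (hc01 : c0 < c1) (hc1 : c1 ≤ π / 2)
    (hc : c ∈ Set.Icc c0 c1) :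
    lerp ((c - c0) / (c1 - c0)) (sin (2 * c0)) (sin (2 * c1)) ≤ sin (2 * c) := by
  have hf := frac_mem hc01 hc
  have hx : 2 * c0 ∈ Set.Icc 0 π := ⟨by linarith, by linarith⟩
  have hy : 2 * c1 ∈ Set.Icc 0 π := ⟨by linarith, by linarith⟩
  have hp : 0 ≤ 1 - (c - c0) / (c1 - c0) := by linarith [hf.2]
  have h := strictConcaveOn_sin_Icc.concaveOn.2 hx hy hp hf.1 (by ring)
  simp only [smul_eq_mul] at h
  have e : (1 - (c - c0) / (c1 - c0)) * (2 * c0) + (c - c0) / (c1 - c0) * (2 * c1) = 2 * c := by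
    have := self_lerp (x := c) hc01
    linarith
  rw [e] at h
  exact h

theorem cos_conc {c0 c1 c : ℝ} (hc0 : 0 ≤ c0) (hc01 : c0 < c1) (hc1 : c1 ≤ π / 4)
    (hc : c ∈ Set.Icc c0 c1) :
    lerp ((c - c0) / (c1 - c0)) (cos (2 * c0)) (cos (2 * c1)) ≤ cos (2 * c) := by
  have hf := frac_mem hc01 hc
  have hx : 2 * c0 ∈ Set.Icc (-(π / 2)) (π / 2) := ⟨by linarith [Real.pi_pos], by linarith⟩
  have hy : 2 * c1 ∈ Set.Icc (-(π / 2)) (π / 2) := ⟨by linarith [Real.pi_pos], by linarith⟩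
  have hp : 0 ≤ 1 - (c - c0) / (c1 - c0) := by linarith [hf.2]
  have h := strictConcaveOn_cos_Icc.concaveOn.2 hx hy hp hf.1 (by ring)
  simp only [smul_eq_mul] at h
  have e : (1 - (c - c0) / (c1 - c0)) * (2 * c0) + (c - c0) / (c1 - c0) * (2 * c1) = 2 * c := by
    have := self_lerp (x := c) hc01
    linarith
  rw [e] at h
  exact h

theorem cos_conv {c0 c1 c : ℝ} (hc0 : π / 4 ≤ c0) (hc01 : c0 < c1) (hc1 : c1 ≤ π / 2)
    (hc : c ∈ Set.Icc c0 c1) :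
    cos (2 * c) ≤ lerp ((c - c0) / (c1 - c0)) (cos (2 * c0)) (cos (2 * c1)) := by
  have hf := frac_mem hc01 hc
  have hx : π - 2 * c0 ∈ Set.Icc (-(π / 2)) (π / 2) := ⟨by linarith [Real.pi_pos], by linarith⟩
  have hy : π - 2 * c1 ∈ Set.Icc (-(π / 2)) (π / 2) := ⟨by linarith [Real.pi_pos], by linarith⟩
  have hp : 0 ≤ 1 - (c - c0) / (c1 - c0) := by linarith [hf.2]
  have h := strictConcaveOn_cos_Icc.concaveOn.2 hx hy hp hf.1 (by ring)
  simp only [smul_eq_mul] at h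
  have e : (1 - (c - c0) / (c1 - c0)) * (π - 2 * c0) + (c - c0) / (c1 - c0) * (π - 2 * c1)
      = π - 2 * c := by
    have := self_lerp (x := c) hc01
    linarith
  rw [e, Real.cos_pi_sub, Real.cos_pi_sub, Real.cos_pi_sub] at h
  unfold lerp
  linarith

end K05

/-- the excess is at least its interpolation -/
theorem ex_interp {a0 a1 b0 b1 c0 c1 a b c : ℝ} (ha0 : 0 ≤ a0) (ha01 : a0 < a1)
    (hb0 : 0 ≤ b0) (hb01 : b0 < b1) (hc0 : 0 ≤ c0) (hc01 : c0 < c1)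
    (hc1 : c1 ≤ π / 2)
    (ha : a ∈ Set.Icc a0 a1) (hb : b ∈ Set.Icc b0 b1) (hc : c ∈ Set.Icc c0 c1) :
    tri8 (fun a b c => a * b * sin (2 * c) / Real.sqrt 3 - 1 / 2) a0 a1 b0 b1 c0 c1
          ((a - a0) / (a1 - a0)) ((b - b0) / (b1 - b0)) ((c - c0) / (c1 - c0))
      ≤ a * b * sin (2 * c) / Real.sqrt 3 - 1 / 2 := by
  refine comb' (Φ := fun a b c => a * b * sin (2 * c) / Real.sqrt 3 - 1 / 2) (frac_mem ha01 ha)
    (frac_mem hb01 hb) ?_ ?_ ?_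
  · have e := self_lerp (x := a) ha01
    apply le_of_eq
    simp only [lerp]
    conv_rhs => rw [e]
    ring
  · intro a' _
    have e := self_lerp (x := b) hb01
    apply le_of_eq
    simp only [lerp]
    conv_rhs => rw [e]
    ring
  · intro a' b' ha' hb'
    have ha'' : 0 ≤ a' := by
      rcases ha' with h | h
      · rw [h]; exact ha0
      · rw [h]; linarith
    have hb'' : 0 ≤ b' := by
      rcases hb' with h | h
      · rw [h]; exact hb0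
      · rw [h]; linarith
    have h := sin_conc hc0 hc01 hc1 hc
    have h3 : 0 ≤ a' * b' / Real.sqrt 3 := by positivity
    have h4 := mul_le_mul_of_nonneg_left h h3
    simp only [lerp] at h4 ⊢
    have e1 : a' * b' * sin (2 * c) / Real.sqrt 3 = a' * b' / Real.sqrt 3 * sin (2 * c) := by ring
    rw [e1]
    refine le_trans (le_of_eq ?_) (sub_le_sub_right h4 _)
    ring

/-- penalty of zone 1 -/
theorem pen1_interp {a0 a1 b0 b1 c0 c1 a b c : ℝ} (ha01 : a0 < a1) (hb01 : b0 < b1)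
    (hc0 : π / 4 ≤ c0) (hc01 : c0 < c1) (hc1 : c1 ≤ π / 2)
    (ha : a ∈ Set.Icc a0 a1) (hb : b ∈ Set.Icc b0 b1) (hc : c ∈ Set.Icc c0 c1) :
    (1 / 2 + cos (2 * c)) / 5 ≤ tri8 (fun _ _ c => (1 / 2 + cos (2 * c)) / 5) a0 a1 b0 b1 c0 c1
          ((a - a0) / (a1 - a0)) ((b - b0) / (b1 - b0)) ((c - c0) / (c1 - c0)) := by
  have h := cos_conv hc0 hc01 hc1 hc
  have hh := comb (Φ := fun _ _ c => (1 / 2 + cos (2 * c)) / 5) (a := a) (b := b) (c := c)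
    (A := 0) (B := 0) (C := 0) (u := (c - c0) / (c1 - c0)) (c0 := c0) (c1 := c1)
    (frac_mem ha01 ha)
    (frac_mem hb01 hb) (a0 := a0) (a1 := a1) (b0 := b0) (b1 := b1)
    (by simp only [lerp]; linarith) (fun a' _ => by simp only [lerp]; linarith)
    (fun a' b' _ _ => by simp only [lerp] at h ⊢; linarith)
  simpa using hh

/-- penalty of zone 2 -/
theorem pen2_interp {a0 a1 b0 b1 c0 c1 a b c : ℝ} (ha01 : a0 < a1) (hb01 : b0 < b1)
    (hc0 : 0 ≤ c0) (hc01 : c0 < c1) (hc1 : c1 ≤ π / 4)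
    (ha : a ∈ Set.Icc a0 a1) (hb : b ∈ Set.Icc b0 b1) (hc : c ∈ Set.Icc c0 c1) :
    (1 / 2 - cos (2 * c)) / 10 + 6 / 100 * (b - 1)
      ≤ tri8 (fun _ b c => (1 / 2 - cos (2 * c)) / 10 + 6 / 100 * (b - 1)) a0 a1 b0 b1 c0 c1
          ((a - a0) / (a1 - a0)) ((b - b0) / (b1 - b0)) ((c - c0) / (c1 - c0)) := by
  have h := cos_conc hc0 hc01 hc1 hc
  have hh := comb (Φ := fun _ b c => (1 / 2 - cos (2 * c)) / 10 + 6 / 100 * (b - 1))
    (a := a) (b := b) (c := c)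
    (A := 0) (B := 0) (C := 0) (u := (c - c0) / (c1 - c0)) (c0 := c0) (c1 := c1)
    (frac_mem ha01 ha)
    (frac_mem hb01 hb) (a0 := a0) (a1 := a1) (b0 := b0) (b1 := b1)
    (by simp only [lerp]; linarith) (fun a' _ => by
      have e := self_lerp (x := b) hb01
      simp only [lerp]
      nlinarith)
    (fun a' b' _ _ => by simp only [lerp] at h ⊢; linarith)
  simpa using hh

end Pool.Agent.LG
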