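import Pool.Agent.Lib.MP_8026b0_co.K02

set_option autoImplicit false

/-! Row K07: the integers computed at a node are the numerators of `Q5`, `Q7`. -/

namespace Pool.Agent.LG

/-- `y = (2k-N)/(2N)` -/
noncomputable def ynode (N k : ℕ) : ℝ := (2 * (k : ℝ) - N) / (2 * N)

namespace K07

/-! ### the polynomials over a general ring -/

section Poly

variable {R : Type*} [CommRing R]

def bb5 (s d : R) : R :=
  ((((-105 * (s - 3 * d) - 270 * d) * (s - 3 * d) + 188 * d ^ 2) * (s - 3 * d) + 990 * d ^ 3)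
    * (s - 3 * d) + 248 * d ^ 4) * (s - 3 * d) - 500 * d ^ 5

def bb7 (s d : R) : R :=
  (((68 * (s - 3 * d) - 184 * d) * (s - 3 * d) - 540 * d ^ 2) * (s - 3 * d) + 700 * d ^ 3)
    * (s - 3 * d) + 500 * d ^ 4

def pt5 (w N : R) : R := w * (16 * w ^ 4 - 20 * w ^ 2 * N ^ 2 + 5 * N ^ 4)

def pt7 (w N : R) : R := w * (64 * w ^ 6 - 112 * w ^ 4 * N ^ 2 + 56 * w ^ 2 * N ^ 4 - 7 * N ^ 6)

def pn5 (N x z r g h a c e t : R) : R :=
  r ^ 2 * ((x ^ 2 * a ^ 2 + z ^ 2 * c ^ 2) * N ^ 11 + r * e ^ 2)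
    - 2 * x * z * a * c * t * r ^ 2 * N ^ 6
    - 2 * N ^ 3 * (x * a * e * g * (16 * g ^ 4 - 20 * g ^ 2 * r * N + 5 * r ^ 2 * N ^ 2)
      + z * c * e * h * (16 * h ^ 4 - 20 * h ^ 2 * r * N + 5 * r ^ 2 * N ^ 2))

def pn7 (N x z r g h a c e t : R) : R :=
  r ^ 3 * ((x ^ 2 * a ^ 2 + z ^ 2 * c ^ 2) * N ^ 9 + r * e ^ 2)
    - 2 * x * z * a * c * t * r ^ 3 * N ^ 2
    - 2 * N * (x * a * e * g * (64 * g ^ 6 - 112 * g ^ 4 * r * N + 56 * g ^ 2 * r ^ 2 * N ^ 2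
        - 7 * r ^ 3 * N ^ 3)
      + z * c * e * h * (64 * h ^ 6 - 112 * h ^ 4 * r * N + 56 * h ^ 2 * r ^ 2 * N ^ 2
        - 7 * r ^ 3 * N ^ 3))

def pr (N x z w : R) : R := N * (x ^ 2 + z ^ 2) - 2 * x * z * w

def pg (N x z w : R) : R := x * N - z * w

def P5 (N x z w : R) : R :=
  pn5 N x z (pr N x z w) (pg N x z w) (pg N z x w) (bb5 (x ^ 2) (N ^ 2)) (bb5 (z ^ 2) (N ^ 2))
    (bb5 (pr N x z w) (N ^ 3)) (pt5 w N)

def P7 (N x z w : R) : R :=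
  pn7 N x z (pr N x z w) (pg N x z w) (pg N z x w) (bb7 (x ^ 2) (N ^ 2)) (bb7 (z ^ 2) (N ^ 2))
    (bb7 (pr N x z w) (N ^ 3)) (pt7 w N)

theorem pr_cast (N x z w : ℤ) : ((pr N x z w : ℤ) : R) = pr (N : R) x z w := by
  unfold pr; push_cast; rfl

theorem P5_cast (N x z w : ℤ) : ((P5 N x z w : ℤ) : R) = P5 (N : R) x z w := by
  unfold P5 pn5 pr pg bb5 pt5; push_cast; rfl

theorem P7_cast (N x z w : ℤ) : ((P7 N x z w : ℤ) : R) = P7 (N : R) x z w := by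
  unfold P7 pn7 pr pg bb7 pt7; push_cast; rfl

end Poly

/-! ### casts to `ZMod MM` -/

theorem c_add (a b : ℕ) : ((Nat.add a b : ℕ) : ZMod MM) = a + b := by
  rw [Nat.add_eq]; push_cast; rfl

theorem c_mul (a b : ℕ) : ((Nat.mul a b : ℕ) : ZMod MM) = a * b := by
  rw [Nat.mul_eq]; push_cast; rfl

theorem c_mod (a : ℕ) : ((Nat.mod a MM : ℕ) : ZMod MM) = a :=
  ZMod.natCast_mod a MM

theorem c_sub (c : ℕ) (h : c ≤ MM) : ((Nat.sub MM c : ℕ) : ZMod MM) = -(c : ZMod MM) := by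
  rw [Nat.sub_eq, Nat.cast_sub h, ZMod.natCast_self, zero_sub]

theorem le_MM {c : ℕ} (h : c ≤ 1000000000000) : c ≤ MM := by
  refine h.trans ?_
  norm_num [MM]

theorem c_b5n (s d d2 d3 d4 d5 : ℕ) (hd : 3 * d ≤ 1000000000000) (h2 : (d2 : ZMod MM) = d ^ 2)
    (h3 : (d3 : ZMod MM) = d ^ 3) (h4 : (d4 : ZMod MM) = d ^ 4) (h5 : (d5 : ZMod MM) = d ^ 5) :
    ((b5n s d d2 d3 d4 d5 : ℕ) : ZMod MM) = bb5 (s : ZMod MM) d := by
  unfold b5n bb5
  simp only [c_add, c_mul, c_mod]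
  rw [c_sub _ (le_MM (show Nat.mul 3 d ≤ 1000000000000 from hd)), c_sub 105 (le_MM (by norm_num)),
    c_sub 270 (le_MM (by norm_num)), c_sub 500 (le_MM (by norm_num)), c_mul, h2, h3, h4, h5]
  push_cast
  ring

theorem c_b7n (s d d2 d3 d4 : ℕ) (hd : 3 * d ≤ 1000000000000) (h2 : (d2 : ZMod MM) = d ^ 2)
    (h3 : (d3 : ZMod MM) = d ^ 3) (h4 : (d4 : ZMod MM) = d ^ 4) :
    ((b7n s d d2 d3 d4 : ℕ) : ZMod MM) = bb7 (s : ZMod MM) d := by
  unfold b7n bb7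
  simp only [c_add, c_mul, c_mod]
  rw [c_sub _ (le_MM (show Nat.mul 3 d ≤ 1000000000000 from hd)), c_sub 184 (le_MM (by norm_num)),
    c_sub 540 (le_MM (by norm_num)), c_mul, h2, h3, h4]
  push_cast
  ring

theorem c_t5n (w N N2 : ℕ) (h2 : (N2 : ZMod MM) = N ^ 2) :
    ((t5n w N2 : ℕ) : ZMod MM) = pt5 (w : ZMod MM) N := by
  unfold t5n pt5
  simp only [c_add, c_mul, c_mod]
  rw [c_sub 20 (le_MM (by norm_num)), h2]
  push_cast
  ring

theorem c_t7n (w N N2 : ℕ) (h2 : (N2 : ZMod MM) = N ^ 2) :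
    ((t7n w N2 : ℕ) : ZMod MM) = pt7 (w : ZMod MM) N := by
  unfold t7n pt7
  simp only [c_add, c_mul, c_mod]
  rw [c_sub 112 (le_MM (by norm_num)), c_sub 7 (le_MM (by norm_num)), h2]
  push_cast
  ring

theorem c_num5 (N N2 x z r g h a c e t : ℕ) (h2 : (N2 : ZMod MM) = N ^ 2) :
    ((num5 N N2 x z r g h a c e t : ℕ) : ZMod MM) = pn5 (N : ZMod MM) x z r g h a c e t := by
  unfold num5 pn5
  simp only [c_add, c_mul, c_mod]
  rw [c_sub 2 (le_MM (by norm_num)), c_sub 20 (le_MM (by norm_num)), h2]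
  push_cast
  ring

theorem c_num7 (N N2 x z r g h a c e t : ℕ) (h2 : (N2 : ZMod MM) = N ^ 2) :
    ((num7 N N2 x z r g h a c e t : ℕ) : ZMod MM) = pn7 (N : ZMod MM) x z r g h a c e t := by
  unfold num7 pn7
  simp only [c_add, c_mul, c_mod]
  rw [c_sub 2 (le_MM (by norm_num)), c_sub 112 (le_MM (by norm_num)),
    c_sub 7 (le_MM (by norm_num)), h2]
  push_cast
  ring

theorem c_w (k M N : ℕ) (hM : N = 2 * M) (hN : N ≤ 1024) :
    ((Nat.mod (Nat.add k (Nat.sub MM (Nat.div N 2))) MM : ℕ) : ZMod MM) = (k : ZMod MM) - M := by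
  have h : Nat.div N 2 = M := by
    show N / 2 = M
    omega
  rw [c_mod, c_add, h, c_sub M (le_MM (by omega))]
  ring

theorem c_r (N x z k M : ℕ) (hM : N = 2 * M) (hN : N ≤ 1024) :
    ((nodeR N x z k : ℕ) : ZMod MM) = pr (N : ZMod MM) x z ((k : ZMod MM) - M) := by
  unfold nodeR pr
  rw [c_mod]
  simp only [c_add, c_mul]
  rw [c_mod, c_mul, c_w k M N hM hN, c_mul, c_sub 2 (le_MM (by norm_num))]
  push_cast
  ring

theorem c_nodeN5 (N x z k M : ℕ) (hM : N = 2 * M) (hN : N ≤ 1024) :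
    ((nodeN5 N x z k : ℕ) : ZMod MM) = P5 (N : ZMod MM) x z ((k : ZMod MM) - M) := by
  have hr := c_r N x z k M hM hN
  unfold nodeR at hr
  have hw := c_w k M N hM hN
  have hN2 : ((Nat.mul N N : ℕ) : ZMod MM) = (N : ZMod MM) ^ 2 := by rw [c_mul]; ring
  have hN3 : ((Nat.mul (Nat.mul N N) N : ℕ) : ZMod MM) = (N : ZMod MM) ^ 3 := by
    rw [c_mul, c_mul]; ring
  have b2 : Nat.mul N N ≤ 1024 * 1024 := Nat.mul_le_mul hN hN
  have b3 : Nat.mul (Nat.mul N N) N ≤ 1024 * 1024 * 1024 := Nat.mul_le_mul b2 hN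
  have hg : ((Nat.mod (Nat.add (Nat.mul x N) (Nat.mul (Nat.sub MM 1) (Nat.mod (Nat.mul z
      (Nat.mod (Nat.add k (Nat.sub MM (Nat.div N 2))) MM)) MM))) MM : ℕ) : ZMod MM) =
      pg (N : ZMod MM) x z ((k : ZMod MM) - M) := by
    rw [c_mod, c_add, c_mul, c_mul, c_mod, c_mul, hw, c_sub 1 (le_MM (by norm_num))]
    unfold pg; push_cast; ring
  have hh : ((Nat.mod (Nat.add (Nat.mul z N) (Nat.mul (Nat.sub MM 1) (Nat.mod (Nat.mul x
      (Nat.mod (Nat.add k (Nat.sub MM (Nat.div N 2))) MM)) MM))) MM : ℕ) : ZMod MM) =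
      pg (N : ZMod MM) z x ((k : ZMod MM) - M) := by
    rw [c_mod, c_add, c_mul, c_mul, c_mod, c_mul, hw, c_sub 1 (le_MM (by norm_num))]
    unfold pg; push_cast; ring
  have hxx : ((Nat.mul x x : ℕ) : ZMod MM) = (x : ZMod MM) ^ 2 := by rw [c_mul]; ring
  have hzz : ((Nat.mul z z : ℕ) : ZMod MM) = (z : ZMod MM) ^ 2 := by rw [c_mul]; ring
  unfold nodeN5 P5
  rw [c_num5 _ _ _ _ _ _ _ _ _ _ _ hN2, hr, hg, hh, c_mod, c_mod, c_mod]
  rw [c_b5n _ _ _ _ _ _ (by omega) (by rw [c_mul]; ring) (by rw [c_mul, c_mul]; ring)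
    (by rw [c_mul, c_mul, c_mul]; ring) (by rw [c_mul, c_mul, c_mul, c_mul]; ring)]
  rw [c_b5n _ _ _ _ _ _ (by omega) (by rw [c_mul]; ring) (by rw [c_mul, c_mul]; ring)
    (by rw [c_mul, c_mul, c_mul]; ring) (by rw [c_mul, c_mul, c_mul, c_mul]; ring)]
  rw [c_b5n _ _ _ _ _ _ (by omega) (by rw [c_mul]; ring) (by rw [c_mul, c_mul]; ring)
    (by rw [c_mul, c_mul, c_mul]; ring) (by rw [c_mul, c_mul, c_mul, c_mul]; ring)]
  rw [c_t5n _ N _ hN2, hr, hN3, hN2, hw, hxx, hzz]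

theorem c_nodeN7 (N x z k M : ℕ) (hM : N = 2 * M) (hN : N ≤ 1024) :
    ((nodeN7 N x z k : ℕ) : ZMod MM) = P7 (N : ZMod MM) x z ((k : ZMod MM) - M) := by
  have hr := c_r N x z k M hM hN
  unfold nodeR at hr
  have hw := c_w k M N hM hN
  have hN2 : ((Nat.mul N N : ℕ) : ZMod MM) = (N : ZMod MM) ^ 2 := by rw [c_mul]; ring
  have hN3 : ((Nat.mul (Nat.mul N N) N : ℕ) : ZMod MM) = (N : ZMod MM) ^ 3 := by
    rw [c_mul, c_mul]; ring
  have b2 : Nat.mul N N ≤ 1024 * 1024 := Nat.mul_le_mul hN hN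
  have b3 : Nat.mul (Nat.mul N N) N ≤ 1024 * 1024 * 1024 := Nat.mul_le_mul b2 hN
  have hg : ((Nat.mod (Nat.add (Nat.mul x N) (Nat.mul (Nat.sub MM 1) (Nat.mod (Nat.mul z
      (Nat.mod (Nat.add k (Nat.sub MM (Nat.div N 2))) MM)) MM))) MM : ℕ) : ZMod MM) =
      pg (N : ZMod MM) x z ((k : ZMod MM) - M) := by
    rw [c_mod, c_add, c_mul, c_mul, c_mod, c_mul, hw, c_sub 1 (le_MM (by norm_num))]
    unfold pg; push_cast; ring
  have hh : ((Nat.mod (Nat.add (Nat.mul z N) (Nat.mul (Nat.sub MM 1) (Nat.mod (Nat.mul x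
      (Nat.mod (Nat.add k (Nat.sub MM (Nat.div N 2))) MM)) MM))) MM : ℕ) : ZMod MM) =
      pg (N : ZMod MM) z x ((k : ZMod MM) - M) := by
    rw [c_mod, c_add, c_mul, c_mul, c_mod, c_mul, hw, c_sub 1 (le_MM (by norm_num))]
    unfold pg; push_cast; ring
  have hxx : ((Nat.mul x x : ℕ) : ZMod MM) = (x : ZMod MM) ^ 2 := by rw [c_mul]; ring
  have hzz : ((Nat.mul z z : ℕ) : ZMod MM) = (z : ZMod MM) ^ 2 := by rw [c_mul]; ring
  unfold nodeN7 P7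
  rw [c_num7 _ _ _ _ _ _ _ _ _ _ _ hN2, hr, hg, hh, c_mod, c_mod, c_mod]
  rw [c_b7n _ _ _ _ _ (by omega) (by rw [c_mul]; ring) (by rw [c_mul, c_mul]; ring)
    (by rw [c_mul, c_mul, c_mul]; ring)]
  rw [c_b7n _ _ _ _ _ (by omega) (by rw [c_mul]; ring) (by rw [c_mul, c_mul]; ring)
    (by rw [c_mul, c_mul, c_mul]; ring)]
  rw [c_b7n _ _ _ _ _ (by omega) (by rw [c_mul]; ring) (by rw [c_mul, c_mul]; ring)
    (by rw [c_mul, c_mul, c_mul]; ring)]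
  rw [c_t7n _ N _ hN2, hr, hN3, hN2, hw, hxx, hzz]

/-- reading off the value from the residue -/
theorem key (n : ℕ) (V : ℤ) (hn : n < MM) (h0 : 0 ≤ V) (h1 : V < MM)
    (h : (n : ZMod MM) = (V : ZMod MM)) : (n : ℤ) = V := by
  have h2 : (((n : ℕ) : ℤ) : ZMod MM) = (V : ZMod MM) := by push_cast; exact h
  rw [ZMod.intCast_eq_intCast_iff'] at h2
  rwa [Int.emod_eq_of_lt (by positivity) (by exact_mod_cast hn), Int.emod_eq_of_lt h0 h1] at h2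

/-! ### real values -/

theorem rr_bounds {A B y : ℝ} (hA : 1 ≤ A) (hA2 : A ≤ 2) (hB : 1 ≤ B) (hB2 : B ≤ 2)
    (hy : -(1 / 2) ≤ y) (hy2 : y ≤ 1 / 2) : 1 ≤ rr A B y ∧ rr A B y ≤ 12 := by
  unfold rr
  have hAB : 1 ≤ A * B := by nlinarith
  have hAB4 : A * B ≤ 4 := by nlinarith
  constructor
  · nlinarith [sq_nonneg (A - B), mul_nonneg (show (0:ℝ) ≤ A * B by linarith) (show 0 ≤ 1 / 2 - y by linarith)]
  · nlinarith [mul_nonneg (show (0:ℝ) ≤ A * B by linarith) (show 0 ≤ y + 1 / 2 by linarith)]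

theorem pr_real (N A B y : ℝ) : pr N (N * A) (N * B) (N * y) = N ^ 3 * rr A B y := by
  unfold pr rr; ring

theorem pg_real (N A B y : ℝ) : pg N (N * A) (N * B) (N * y) = N ^ 2 * (A - B * y) := by
  unfold pg; ring

theorem bb5_real2 (N A : ℝ) : bb5 ((N * A) ^ 2) (N ^ 2) = 2000 * N ^ 10 * B5 (A ^ 2) := by
  unfold bb5 B5; ring

theorem bb5_real3 (N ρ : ℝ) : bb5 (N ^ 3 * ρ) (N ^ 3) = 2000 * N ^ 15 * B5 ρ := by
  unfold bb5 B5; ring

theorem bb7_real2 (N A : ℝ) : bb7 ((N * A) ^ 2) (N ^ 2) = 2000 * N ^ 8 * B7r (A ^ 2) := by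
  unfold bb7 B7r; ring

theorem bb7_real3 (N ρ : ℝ) : bb7 (N ^ 3 * ρ) (N ^ 3) = 2000 * N ^ 12 * B7r ρ := by
  unfold bb7 B7r; ring

theorem P5_real {N A B y : ℝ} (hr : rr A B y ≠ 0) :
    P5 N (N * A) (N * B) (N * y) = 4000000 * N ^ 33 * (N ^ 3 * rr A B y) ^ 2 * Q5 A B y := by
  unfold P5 Q5
  rw [pr_real, pg_real, pg_real, bb5_real2, bb5_real2, bb5_real3]
  have ht : pt5 (N * y) N = N ^ 5 * (16 * y ^ 5 - 20 * y ^ 3 + 5 * y) := by unfold pt5; ring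
  rw [ht]
  generalize rr A B y = ρ at *
  generalize B5 ρ = e
  generalize B5 (A ^ 2) = a
  generalize B5 (B ^ 2) = c
  generalize 16 * y ^ 5 - 20 * y ^ 3 + 5 * y = t
  generalize A - B * y = G
  generalize B - A * y = H
  unfold pn5
  field_simp
  ring

theorem P7_real {N A B y : ℝ} (hr : rr A B y ≠ 0) :
    P7 N (N * A) (N * B) (N * y) = 4000000 * N ^ 27 * (N ^ 3 * rr A B y) ^ 3 * Q7 A B y := by
  unfold P7 Q7
  rw [pr_real, pg_real, pg_real, bb7_real2, bb7_real2, bb7_real3]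
  have ht : pt7 (N * y) N = N ^ 7 * (64 * y ^ 7 - 112 * y ^ 5 + 56 * y ^ 3 - 7 * y) := by
    unfold pt7; ring
  rw [ht]
  generalize rr A B y = ρ at *
  generalize B7r ρ = e
  generalize B7r (A ^ 2) = a
  generalize B7r (B ^ 2) = c
  generalize 64 * y ^ 7 - 112 * y ^ 5 + 56 * y ^ 3 - 7 * y = t
  generalize A - B * y = G
  generalize B - A * y = H
  unfold pn7
  field_simp
  ring

/-! ### bounds for `Q5`, `Q7` -/

theorem pow_bounds {t : ℝ} (ht : |t| ≤ 9) : |t| ≤ 9 ∧ |t ^ 2| ≤ 81 ∧ |t ^ 3| ≤ 729 ∧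
    |t ^ 4| ≤ 6561 ∧ |t ^ 5| ≤ 59049 := by
  have h : ∀ n : ℕ, |t ^ n| ≤ 9 ^ n := fun n => by
    rw [abs_pow]; exact pow_le_pow_left₀ (abs_nonneg _) ht n
  refine ⟨ht, ?_, ?_, ?_, ?_⟩
  · exact (h 2).trans (by norm_num)
  · exact (h 3).trans (by norm_num)
  · exact (h 4).trans (by norm_num)
  · exact (h 5).trans (by norm_num)

theorem B5_abs {p : ℝ} (h1 : 1 ≤ p) (h2 : p ≤ 12) : |B5 p| ≤ 10000 := by
  have ht : |p - 3| ≤ 9 := abs_le.2 ⟨by linarith, by linarith⟩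
  obtain ⟨a1, a2, a3, a4, a5⟩ := pow_bounds ht
  unfold B5
  rw [abs_le] at *
  constructor <;> linarith [a1.1, a1.2, a2.1, a2.2, a3.1, a3.2, a4.1, a4.2, a5.1, a5.2]

theorem B7r_abs {p : ℝ} (h1 : 1 ≤ p) (h2 : p ≤ 12) : |B7r p| ≤ 10000 := by
  have ht : |p - 3| ≤ 9 := abs_le.2 ⟨by linarith, by linarith⟩
  obtain ⟨a1, a2, a3, a4, -⟩ := pow_bounds ht
  unfold B7r
  rw [abs_le] at *
  constructor <;> linarith [a1.1, a1.2, a2.1, a2.2, a3.1, a3.2, a4.1, a4.2]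

theorem norm_Psi5_le {v : ℂ} (h1 : 1 ≤ Complex.normSq v) (h2 : Complex.normSq v ≤ 12) :
    ‖Psi5 v‖ ≤ 40000 := by
  have hs : Complex.normSq v = ‖v‖ ^ 2 := Complex.normSq_eq_norm_sq v
  have hv : 0 < ‖v‖ := by
    by_contra h
    have : ‖v‖ = 0 := le_antisymm (not_lt.1 h) (norm_nonneg _)
    rw [hs, this] at h1
    norm_num at h1
  have h3 : ‖Psi5 v‖ = |B5 (Complex.normSq v)| * ‖v‖ := by
    unfold Psi5
    rw [norm_mul, Complex.norm_real, Real.norm_eq_abs, norm_pow, abs_div,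
      abs_of_nonneg (sq_nonneg (Complex.normSq v)), hs]
    field_simp
  have h4 : ‖v‖ ≤ 4 := by
    by_contra h
    have := not_le.1 h
    nlinarith
  rw [h3]
  calc |B5 (Complex.normSq v)| * ‖v‖ ≤ 10000 * 4 :=
        mul_le_mul (B5_abs h1 h2) h4 hv.le (by norm_num)
    _ = 40000 := by norm_num

theorem norm_Psi7r_le {v : ℂ} (h1 : 1 ≤ Complex.normSq v) (h2 : Complex.normSq v ≤ 12) :
    ‖Psi7r v‖ ≤ 40000 := by
  have hs : Complex.normSq v = ‖v‖ ^ 2 := Complex.normSq_eq_norm_sq v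
  have hv : 0 < ‖v‖ := by
    by_contra h
    have : ‖v‖ = 0 := le_antisymm (not_lt.1 h) (norm_nonneg _)
    rw [hs, this] at h1
    norm_num at h1
  have h3 : ‖Psi7r v‖ = |B7r (Complex.normSq v)| * ‖v‖ := by
    unfold Psi7r
    rw [norm_mul, Complex.norm_real, Real.norm_eq_abs, norm_pow, abs_div,
      abs_of_nonneg (pow_nonneg (Complex.normSq_nonneg v) 3), hs]
    field_simp
  have h4 : ‖v‖ ≤ 4 := by
    by_contra h
    have := not_le.1 h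
    nlinarith
  rw [h3]
  calc |B7r (Complex.normSq v)| * ‖v‖ ≤ 10000 * 4 :=
        mul_le_mul (B7r_abs h1 h2) h4 hv.le (by norm_num)
    _ = 40000 := by norm_num

theorem normSq_1 {a β : ℝ} : Complex.normSq ((a : ℂ) * Complex.exp ((β : ℂ) * Complex.I)) = a ^ 2 := by
  rw [Complex.normSq_eq_norm_sq, norm_mul, Complex.norm_exp_ofReal_mul_I, mul_one,
    Complex.norm_real, Real.norm_eq_abs, sq_abs]

theorem normSq_2 {a β : ℝ} : Complex.normSq ((a : ℂ) * Complex.exp (-(β : ℂ) * Complex.I)) = a ^ 2 := by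
  have : (-(β : ℂ)) = ((-β : ℝ) : ℂ) := by push_cast; rfl
  rw [this]
  exact normSq_1

theorem Q_bounds {A B y : ℝ} (hA : 1 ≤ A) (hA2 : A ≤ 2) (hB : 1 ≤ B) (hB2 : B ≤ 2)
    (hy : -(1 / 2) ≤ y) (hy2 : y ≤ 1 / 2) :
    (0 ≤ Q5 A B y ∧ Q5 A B y ≤ 14400000000) ∧ (0 ≤ Q7 A B y ∧ Q7 A B y ≤ 14400000000) := by
  set β : ℝ := Real.arccos (-y) / 2 with hβ
  have hcos : - Real.cos (2 * β) = y := by
    rw [hβ, mul_div_cancel₀ _ (by norm_num : (2 : ℝ) ≠ 0), Real.cos_arccos (by linarith) (by linarith)]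
    ring
  obtain ⟨r1, r2⟩ := rr_bounds hA hA2 hB hB2 hy hy2
  have hrr : 0 < rr A B (- Real.cos (2 * β)) := by rw [hcos]; linarith
  have h5 := norm_Z5_sq (a := A) (b := B) (β := β) (by linarith) (by linarith) hrr
  have h7 := norm_Z7r_sq (a := A) (b := B) (β := β) (by linarith) (by linarith) hrr
  have h3 := normSq_third A B β
  rw [hcos] at h5 h7 h3
  have hA1 : 1 ≤ A ^ 2 := by nlinarith
  have hA12 : A ^ 2 ≤ 12 := by nlinarith
  have hB1 : 1 ≤ B ^ 2 := by nlinarith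
  have hB12 : B ^ 2 ≤ 12 := by nlinarith
  have n5 : ‖Z5 A B β‖ ≤ 120000 := by
    unfold Z5
    refine (norm_sub_le _ _).trans ?_
    have e1 := norm_add_le (Psi5 ((A : ℂ) * Complex.exp ((β : ℂ) * Complex.I)))
      (Psi5 ((B : ℂ) * Complex.exp (-(β : ℂ) * Complex.I)))
    have e2 := norm_Psi5_le (v := (A : ℂ) * Complex.exp ((β : ℂ) * Complex.I))
      (by rw [normSq_1]; exact hA1) (by rw [normSq_1]; exact hA12)
    have e3 := norm_Psi5_le (v := (B : ℂ) * Complex.exp (-(β : ℂ) * Complex.I))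
      (by rw [normSq_2]; exact hB1) (by rw [normSq_2]; exact hB12)
    have e4 := norm_Psi5_le (v := (A : ℂ) * Complex.exp ((β : ℂ) * Complex.I) +
      (B : ℂ) * Complex.exp (-(β : ℂ) * Complex.I)) (by rw [h3]; exact r1) (by rw [h3]; exact r2)
    linarith
  have n7 : ‖Z7r A B β‖ ≤ 120000 := by
    unfold Z7r
    refine (norm_sub_le _ _).trans ?_
    have e1 := norm_add_le (Psi7r ((A : ℂ) * Complex.exp ((β : ℂ) * Complex.I)))
      (Psi7r ((B : ℂ) * Complex.exp (-(β : ℂ) * Complex.I)))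
    have e2 := norm_Psi7r_le (v := (A : ℂ) * Complex.exp ((β : ℂ) * Complex.I))
      (by rw [normSq_1]; exact hA1) (by rw [normSq_1]; exact hA12)
    have e3 := norm_Psi7r_le (v := (B : ℂ) * Complex.exp (-(β : ℂ) * Complex.I))
      (by rw [normSq_2]; exact hB1) (by rw [normSq_2]; exact hB12)
    have e4 := norm_Psi7r_le (v := (A : ℂ) * Complex.exp ((β : ℂ) * Complex.I) +
      (B : ℂ) * Complex.exp (-(β : ℂ) * Complex.I)) (by rw [h3]; exact r1) (by rw [h3]; exact r2)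
    linarith
  have p5 := norm_nonneg (Z5 A B β)
  have p7 := norm_nonneg (Z7r A B β)
  refine ⟨⟨?_, ?_⟩, ⟨?_, ?_⟩⟩
  · rw [← h5]; positivity
  · rw [← h5]
    calc ‖Z5 A B β‖ ^ 2 ≤ 120000 ^ 2 := pow_le_pow_left₀ p5 n5 2
      _ = 14400000000 := by norm_num
  · rw [← h7]; positivity
  · rw [← h7]
    calc ‖Z7r A B β‖ ^ 2 ≤ 120000 ^ 2 := pow_le_pow_left₀ p7 n7 2
      _ = 14400000000 := by norm_num

/-- the set up at a node -/
theorem setup {N x z k : ℕ} (hN : 0 < N) (_hN2 : N ≤ 1024) (hev : Even N) (hx : N ≤ x)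
    (hx2 : x ≤ 2 * N) (hz : N ≤ z) (hz2 : z ≤ 2 * N) (hk : k ≤ N) :
    ∃ M : ℕ, N = 2 * M ∧ (N : ℝ) * ((x : ℝ) / N) = x ∧ (N : ℝ) * ((z : ℝ) / N) = z ∧
      (N : ℝ) * ynode N k = (k : ℝ) - M ∧ 1 ≤ (x : ℝ) / N ∧ (x : ℝ) / N ≤ 2 ∧
      1 ≤ (z : ℝ) / N ∧ (z : ℝ) / N ≤ 2 ∧ -(1 / 2) ≤ ynode N k ∧ ynode N k ≤ 1 / 2 := by
  obtain ⟨M, hM⟩ := hev
  have hN0 : (0 : ℝ) < N := by exact_mod_cast hN
  have hNM : (N : ℝ) = M + M := by exact_mod_cast hM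
  have hx' : (N : ℝ) ≤ x := by exact_mod_cast hx
  have hx2' : (x : ℝ) ≤ 2 * N := by exact_mod_cast hx2
  have hz' : (N : ℝ) ≤ z := by exact_mod_cast hz
  have hz2' : (z : ℝ) ≤ 2 * N := by exact_mod_cast hz2
  have hk' : (k : ℝ) ≤ N := by exact_mod_cast hk
  have hk0 : (0 : ℝ) ≤ k := by positivity
  refine ⟨M, by omega, ?_, ?_, ?_, ?_, ?_, ?_, ?_, ?_, ?_⟩
  · field_simp
  · field_simp
  · unfold ynode
    field_simp
    linarith
  · rw [le_div_iff₀ hN0]; linarith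
  · rw [div_le_iff₀ hN0]; linarith
  · rw [le_div_iff₀ hN0]; linarith
  · rw [div_le_iff₀ hN0]; linarith
  · unfold ynode; rw [le_div_iff₀ (by positivity)]; linarith
  · unfold ynode; rw [div_le_iff₀ (by positivity)]; linarith

theorem MM_real : (MM : ℝ) =
    13407807929942597099574024998205846127479365820592393377723561443721764030073546976801874298166903427690031858186486050853753882811946569946433649006084096 := by
  norm_num [MM]

theorem lt_MM_mod (a : ℕ) : Nat.mod a MM < MM := Nat.mod_lt _ (by norm_num [MM])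

theorem N_pow_le {N : ℕ} (hN2 : N ≤ 1024) (j : ℕ) : (N : ℝ) ^ j ≤ 1024 ^ j :=
  pow_le_pow_left₀ (by positivity) (by exact_mod_cast hN2) j

end K07

open K07 in
theorem nodeR_eq {N x z k : ℕ} (hN : 0 < N) (hN2 : N ≤ 1024) (hev : Even N) (hx : N ≤ x)
    (hx2 : x ≤ 2 * N) (hz : N ≤ z) (hz2 : z ≤ 2 * N) (hk : k ≤ N) :
    ((nodeR N x z k : ℕ) : ℝ) = (N : ℝ) ^ 3 * rr ((x : ℝ) / N) ((z : ℝ) / N) (ynode N k) := by
  obtain ⟨M, hM, eA, eB, ey, a1, a2, b1, b2, y1, y2⟩ := setup hN hN2 hev hx hx2 hz hz2 hk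
  obtain ⟨r1, r2⟩ := rr_bounds a1 a2 b1 b2 y1 y2
  have hV : ((pr (N : ℤ) x z (k - M) : ℤ) : ℝ) =
      (N : ℝ) ^ 3 * rr ((x : ℝ) / N) ((z : ℝ) / N) (ynode N k) := by
    rw [pr_cast, ← pr_real, eA, eB, ey]
    push_cast
    rfl
  have hN0 : (0 : ℝ) < N := by exact_mod_cast hN
  have h0 : 0 ≤ (pr (N : ℤ) x z (k - M) : ℤ) := by
    have : (0 : ℝ) ≤ ((pr (N : ℤ) x z (k - M) : ℤ) : ℝ) := by
      rw [hV]; positivity
    exact_mod_cast this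
  have h1 : (pr (N : ℤ) x z (k - M) : ℤ) < MM := by
    have : ((pr (N : ℤ) x z (k - M) : ℤ) : ℝ) < ((MM : ℤ) : ℝ) := by
      rw [hV]
      push_cast
      rw [MM_real]
      calc (N : ℝ) ^ 3 * rr ((x : ℝ) / N) ((z : ℝ) / N) (ynode N k) ≤ 1024 ^ 3 * 12 :=
            mul_le_mul (N_pow_le hN2 3) r2 (by linarith) (by positivity)
        _ < 13407807929942597099574024998205846127479365820592393377723561443721764030073546976801874298166903427690031858186486050853753882811946569946433649006084096 := by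
            norm_num
    exact_mod_cast this
  have hk := key (nodeR N x z k) _ (lt_MM_mod _) h0 h1 (by
    rw [c_r N x z k M hM hN2, pr_cast]
    push_cast
    rfl)
  rw [← hV, ← hk]
  push_cast
  rfl

open K07 in
theorem nodeN5_eq {N x z k : ℕ} (hN : 0 < N) (hN2 : N ≤ 1024) (hev : Even N) (hx : N ≤ x)
    (hx2 : x ≤ 2 * N) (hz : N ≤ z) (hz2 : z ≤ 2 * N) (hk : k ≤ N) :
    ((nodeN5 N x z k : ℕ) : ℝ) = 4000000 * (N : ℝ) ^ 33 * (nodeR N x z k : ℝ) ^ 2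
      * Q5 ((x : ℝ) / N) ((z : ℝ) / N) (ynode N k) := by
  rw [nodeR_eq hN hN2 hev hx hx2 hz hz2 hk]
  obtain ⟨M, hM, eA, eB, ey, a1, a2, b1, b2, y1, y2⟩ := setup hN hN2 hev hx hx2 hz hz2 hk
  obtain ⟨r1, r2⟩ := rr_bounds a1 a2 b1 b2 y1 y2
  obtain ⟨⟨q1, q2⟩, -⟩ := Q_bounds a1 a2 b1 b2 y1 y2
  have hr0 : rr ((x : ℝ) / N) ((z : ℝ) / N) (ynode N k) ≠ 0 := by linarith
  have hV : ((P5 (N : ℤ) x z (k - M) : ℤ) : ℝ) = 4000000 * (N : ℝ) ^ 33 *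
      ((N : ℝ) ^ 3 * rr ((x : ℝ) / N) ((z : ℝ) / N) (ynode N k)) ^ 2 *
      Q5 ((x : ℝ) / N) ((z : ℝ) / N) (ynode N k) := by
    rw [P5_cast, ← P5_real hr0, eA, eB, ey]
    push_cast
    rfl
  have hN0 : (0 : ℝ) < N := by exact_mod_cast hN
  have h0 : 0 ≤ (P5 (N : ℤ) x z (k - M) : ℤ) := by
    have : (0 : ℝ) ≤ ((P5 (N : ℤ) x z (k - M) : ℤ) : ℝ) := by
      rw [hV]; positivity
    exact_mod_cast this
  have h1 : (P5 (N : ℤ) x z (k - M) : ℤ) < MM := by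
    have : ((P5 (N : ℤ) x z (k - M) : ℤ) : ℝ) < ((MM : ℤ) : ℝ) := by
      rw [hV]
      push_cast
      rw [MM_real]
      have s1 : (N : ℝ) ^ 3 * rr ((x : ℝ) / N) ((z : ℝ) / N) (ynode N k) ≤ 1024 ^ 3 * 12 :=
        mul_le_mul (N_pow_le hN2 3) r2 (by linarith) (by positivity)
      have s2 := pow_le_pow_left₀ (show 0 ≤ (N : ℝ) ^ 3 *
        rr ((x : ℝ) / N) ((z : ℝ) / N) (ynode N k) by positivity) s1 2
      have s3 : 4000000 * (N : ℝ) ^ 33 ≤ 4000000 * 1024 ^ 33 :=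
        mul_le_mul_of_nonneg_left (N_pow_le hN2 33) (by norm_num)
      have s4 := mul_le_mul s3 s2 (by positivity) (by positivity)
      have s5 := mul_le_mul s4 q2 q1 (by positivity)
      refine lt_of_le_of_lt s5 ?_
      norm_num
    exact_mod_cast this
  have hk := key (nodeN5 N x z k) _ (lt_MM_mod _) h0 h1 (by
    rw [c_nodeN5 N x z k M hM hN2, P5_cast]
    push_cast
    rfl)
  rw [← hV, ← hk]
  push_cast
  rfl

open K07 in
theorem nodeN7_eq {N x z k : ℕ} (hN : 0 < N) (hN2 : N ≤ 1024) (hev : Even N) (hx : N ≤ x)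
    (hx2 : x ≤ 2 * N) (hz : N ≤ z) (hz2 : z ≤ 2 * N) (hk : k ≤ N) :
    ((nodeN7 N x z k : ℕ) : ℝ) = 4000000 * (N : ℝ) ^ 27 * (nodeR N x z k : ℝ) ^ 3
      * Q7 ((x : ℝ) / N) ((z : ℝ) / N) (ynode N k) := by
  rw [nodeR_eq hN hN2 hev hx hx2 hz hz2 hk]
  obtain ⟨M, hM, eA, eB, ey, a1, a2, b1, b2, y1, y2⟩ := setup hN hN2 hev hx hx2 hz hz2 hk
  obtain ⟨r1, r2⟩ := rr_bounds a1 a2 b1 b2 y1 y2
  obtain ⟨-, ⟨q1, q2⟩⟩ := Q_bounds a1 a2 b1 b2 y1 y2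
  have hr0 : rr ((x : ℝ) / N) ((z : ℝ) / N) (ynode N k) ≠ 0 := by linarith
  have hV : ((P7 (N : ℤ) x z (k - M) : ℤ) : ℝ) = 4000000 * (N : ℝ) ^ 27 *
      ((N : ℝ) ^ 3 * rr ((x : ℝ) / N) ((z : ℝ) / N) (ynode N k)) ^ 3 *
      Q7 ((x : ℝ) / N) ((z : ℝ) / N) (ynode N k) := by
    rw [P7_cast, ← P7_real hr0, eA, eB, ey]
    push_cast
    rfl
  have hN0 : (0 : ℝ) < N := by exact_mod_cast hN
  have h0 : 0 ≤ (P7 (N : ℤ) x z (k - M) : ℤ) := by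
    have : (0 : ℝ) ≤ ((P7 (N : ℤ) x z (k - M) : ℤ) : ℝ) := by
      rw [hV]; positivity
    exact_mod_cast this
  have h1 : (P7 (N : ℤ) x z (k - M) : ℤ) < MM := by
    have : ((P7 (N : ℤ) x z (k - M) : ℤ) : ℝ) < ((MM : ℤ) : ℝ) := by
      rw [hV]
      push_cast
      rw [MM_real]
      have s1 : (N : ℝ) ^ 3 * rr ((x : ℝ) / N) ((z : ℝ) / N) (ynode N k) ≤ 1024 ^ 3 * 12 :=
        mul_le_mul (N_pow_le hN2 3) r2 (by linarith) (by positivity)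
      have s2 := pow_le_pow_left₀ (show 0 ≤ (N : ℝ) ^ 3 *
        rr ((x : ℝ) / N) ((z : ℝ) / N) (ynode N k) by positivity) s1 3
      have s3 : 4000000 * (N : ℝ) ^ 27 ≤ 4000000 * 1024 ^ 27 :=
        mul_le_mul_of_nonneg_left (N_pow_le hN2 27) (by norm_num)
      have s4 := mul_le_mul s3 s2 (by positivity) (by positivity)
      have s5 := mul_le_mul s4 q2 q1 (by positivity)
      refine lt_of_le_of_lt s5 ?_
      norm_num
    exact_mod_cast this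
  have hk := key (nodeN7 N x z k) _ (lt_MM_mod _) h0 h1 (by
    rw [c_nodeN7 N x z k M hM hN2, P7_cast]
    push_cast
    rfl)
  rw [← hV, ← hk]
  push_cast
  rfl

end Pool.Agent.LG
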