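import Pool.Agent.Lib.MP_8026b0_co.K07

set_option autoImplicit false

/-! Row K08: soundness of the test at a node. -/

namespace Pool.Agent.LG

theorem K08_nstep (u m : ℕ) (hm : 0 < m) : u ≤ nstep u m ^ 2 := by
  have e : nstep u m = (m + u / m) / 2 + 1 := rfl
  have h1 : u < m * (u / m + 1) := Nat.lt_mul_div_succ u hm
  have h2 : m + u / m + 1 ≤ 2 * nstep u m := by
    rw [e]
    omega
  generalize nstep u m = s at h2
  generalize u / m = q at h1 h2
  have h3 : (m + q + 1) * (m + q + 1) ≤ 2 * s * (2 * s) := Nat.mul_le_mul h2 h2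
  zify at *
  nlinarith [sq_nonneg ((m : ℤ) - q - 1)]

theorem K08_nstep_pos (u m : ℕ) : 0 < nstep u m := Nat.succ_pos _

theorem K08_nst4 (u m : ℕ) : u ≤ nst4 u m ^ 2 :=
  K08_nstep u _ (K08_nstep_pos _ _)

theorem usq_sound (u : ℕ) : u ≤ usq u ^ 2 := K08_nst4 u _

theorem usq'_sound (u : ℕ) : u ≤ usq' u ^ 2 ∧ 0 < usq' u :=
  ⟨K08_nst4 u _, K08_nstep_pos _ _⟩

theorem K08_U (num den : ℕ) (hd : 0 < den) :
    (num : ℝ) / den ≤ ((usq (num / den + 1) : ℕ) : ℝ) ^ 2 := by
  have hd' : (0:ℝ) < den := by exact_mod_cast hd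
  have h1 : num < den * (num / den + 1) := Nat.lt_mul_div_succ num hd
  have h2 := usq_sound (num / den + 1)
  have h3 : num ≤ den * usq (num / den + 1) ^ 2 := h1.le.trans (Nat.mul_le_mul_left _ h2)
  rw [div_le_iff₀ hd', mul_comm]
  exact_mod_cast h3

theorem K08_V (num den : ℕ) (hd : 0 < den) :
    (((num / den) / usq' (num / den) : ℕ) : ℝ) ^ 2 ≤ (num : ℝ) / den := by
  have hd' : (0:ℝ) < den := by exact_mod_cast hd
  obtain ⟨h1, h2⟩ := usq'_sound (num / den)
  have h3 : num / den * den ≤ num := Nat.div_mul_le_self num den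
  generalize num / den = t at h1 h2 h3
  have h4 : t / usq' t * usq' t ≤ t := Nat.div_mul_le_self _ _
  generalize usq' t = w at h1 h2 h4
  have h5 : t / w ≤ w := by
    by_contra hc
    push Not at hc
    have : w * w < t / w * w := Nat.mul_lt_mul_of_pos_right hc h2
    have e : w ^ 2 = w * w := sq w
    omega
  have h6 : (t / w) ^ 2 ≤ t := by
    have : t / w * (t / w) ≤ t / w * w := Nat.mul_le_mul_left _ h5
    rw [sq]
    exact this.trans h4
  rw [le_div_iff₀ hd']
  have h7 : (t / w) ^ 2 * den ≤ num := (Nat.mul_le_mul_right _ h6).trans h3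
  exact_mod_cast h7

theorem K08_fin {N N2 N3 x z k n5 n7 r e4 e5 P : ℕ}
    (h : fin' N N2 N3 x z k n5 n7 r e4 e5 P = true) :
    2425 * (N2 * 1073741824) + 1073741824 * P + 5000 * (N2 *
      (usq (1152921504606846976 * 446582 * n5
        / (40000000000000 * (e5 * e5 * N3) * (r * r)) + 1)
      + usq (1152921504606846976 * 446582 * n7
        / (40000000000000 * (e4 * e5) * (r * r * r)) + 1))) ≤
    4850 * (N2 * ((1152921504606846976 * (x * x * (z * z)) * ((3 * N - 2 * k) * (N + 2 * k))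
      / (12 * (N3 * N3))) / usq' (1152921504606846976 * (x * x * (z * z)) *
        ((3 * N - 2 * k) * (N + 2 * k)) / (12 * (N3 * N3))))) :=
  Nat.le_of_ble_eq_true h

theorem K08_cc_nonneg : 0 ≤ cc := by
  unfold cc
  have h : Real.sqrt 3 ≤ 2 := by
    rw [Real.sqrt_le_left (by norm_num)]
    norm_num
  linarith

theorem K08_cc_sq : cc ^ 2 ≤ 446582 / 10000000 := by
  unfold cc
  have h1 : Real.sqrt 3 ^ 2 = 3 := Real.sq_sqrt (by norm_num)
  have h2 : (17320508 : ℝ) / 10000000 ≤ Real.sqrt 3 := by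
    apply Real.le_sqrt_of_sq_le
    norm_num
  nlinarith

theorem K08_Q (num den : ℕ) (hd : 0 < den) (Q : ℝ)
    (hQ : (num : ℝ) / den = 1152921504606846976 * (446582 / 10000000) * Q) :
    1073741824 * (cc * Real.sqrt Q) ≤ ((usq (num / den + 1) : ℕ) : ℝ) := by
  have hU := K08_U num den hd
  have h0 := K08_cc_nonneg
  have hs := Real.sqrt_nonneg Q
  rcases le_total Q 0 with h | h
  · rw [Real.sqrt_eq_zero_of_nonpos h]
    simp
  · have h1 : (1073741824 * (cc * Real.sqrt Q)) ^ 2 ≤ ((usq (num / den + 1) : ℕ) : ℝ) ^ 2 := by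
      refine le_trans ?_ hU
      rw [hQ, mul_pow, mul_pow, Real.sq_sqrt h]
      have := mul_le_mul_of_nonneg_right K08_cc_sq h
      nlinarith
    exact (pow_le_pow_iff_left₀ (by positivity) (by positivity) (by norm_num)).1 h1

theorem node_sound {N x z k P : ℕ} (hN : 0 < N) (hN2 : N ≤ 1024) (hev : Even N) (hx : N ≤ x)
    (hx2 : x ≤ 2 * N) (hz : N ≤ z) (hz2 : z ≤ 2 * N) (hk : k ≤ N)
    (h : node N x z k P = true) :
    cc * (Real.sqrt (Q5 ((x : ℝ) / N) ((z : ℝ) / N) (ynode N k))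
        + Real.sqrt (Q7 ((x : ℝ) / N) ((z : ℝ) / N) (ynode N k))) + (P : ℝ) / (5000 * (N : ℝ) ^ 2)
      ≤ 97 / 100 * ((x : ℝ) / N * ((z : ℝ) / N) * Real.sqrt (1 - ynode N k ^ 2) / Real.sqrt 3
          - 1 / 2) := by
  have hr := nodeR_eq hN hN2 hev hx hx2 hz hz2 hk
  have h5 := nodeN5_eq hN hN2 hev hx hx2 hz hz2 hk
  have h7 := nodeN7_eq hN hN2 hev hx hx2 hz hz2 hk
  rw [node_eq] at h
  have hf := K08_fin h
  clear h
  have hN' : (0:ℝ) < N := by exact_mod_cast hN
  have hxN : (1:ℝ) ≤ (x : ℝ) / N := by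
    rw [le_div_iff₀ hN', one_mul]
    exact_mod_cast hx
  have hzN : (1:ℝ) ≤ (z : ℝ) / N := by
    rw [le_div_iff₀ hN', one_mul]
    exact_mod_cast hz
  have hkN : (k : ℝ) ≤ N := by exact_mod_cast hk
  have hk0 : (0:ℝ) ≤ k := by positivity
  have hy1 : ynode N k ≤ 1/2 := by
    unfold ynode
    rw [div_le_iff₀ (by positivity)]
    linarith
  have hy2 : -(1/2) ≤ ynode N k := by
    unfold ynode
    rw [le_div_iff₀ (by positivity)]
    linarith
  have hrr : 0 < rr ((x : ℝ) / N) ((z : ℝ) / N) (ynode N k) := by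
    unfold rr
    have hab : 0 < ((x : ℝ) / N) * ((z : ℝ) / N) := by positivity
    have h1 : ((x : ℝ) / N) * ((z : ℝ) / N) * ynode N k ≤ ((x : ℝ) / N) * ((z : ℝ) / N) * (1/2) :=
      mul_le_mul_of_nonneg_left hy1 hab.le
    nlinarith [sq_nonneg ((x : ℝ) / N - (z : ℝ) / N)]
  have hrpos : (0:ℝ) < (nodeR N x z k : ℝ) := by
    rw [hr]
    positivity
  have hrpos' : 0 < nodeR N x z k := by exact_mod_cast hrpos
  generalize nodeR N x z k = r at *
  generalize nodeN5 N x z k = n5 at *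
  generalize nodeN7 N x z k = n7 at *
  have hd5 : 0 < 40000000000000 * (N * N * N * (N * N * N) * (N * N * N) * (N * N * N) * (N * N * N) *
      (N * N * N * (N * N * N) * (N * N * N) * (N * N * N) * (N * N * N)) * (N * N * N)) * (r * r) := by
    positivity
  have hd7 : 0 < 40000000000000 * (N * N * N * (N * N * N) * (N * N * N) * (N * N * N) *
      (N * N * N * (N * N * N) * (N * N * N) * (N * N * N) * (N * N * N))) * (r * r * r) := by
    positivity
  have hdt : 0 < 12 * (N * N * N * (N * N * N)) := by positivity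
  have e5 := K08_Q (1152921504606846976 * 446582 * n5) _ hd5
    (Q5 ((x : ℝ) / N) ((z : ℝ) / N) (ynode N k)) (by
      rw [div_eq_iff (by exact_mod_cast hd5.ne')]
      push_cast
      rw [h5]
      ring)
  have e7 := K08_Q (1152921504606846976 * 446582 * n7) _ hd7
    (Q7 ((x : ℝ) / N) ((z : ℝ) / N) (ynode N k)) (by
      rw [div_eq_iff (by exact_mod_cast hd7.ne')]
      push_cast
      rw [h7]
      ring)
  have et := K08_V (1152921504606846976 * (x * x * (z * z)) * ((3 * N - 2 * k) * (N + 2 * k)))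
    (12 * (N * N * N * (N * N * N))) hdt
  generalize usq (1152921504606846976 * 446582 * n5 / (40000000000000 * (N * N * N * (N * N * N) *
    (N * N * N) * (N * N * N) * (N * N * N) * (N * N * N * (N * N * N) * (N * N * N) * (N * N * N) *
      (N * N * N)) * (N * N * N)) * (r * r)) + 1) = U at hf e5
  generalize usq (1152921504606846976 * 446582 * n7 / (40000000000000 * (N * N * N * (N * N * N) *
    (N * N * N) * (N * N * N) * (N * N * N * (N * N * N) * (N * N * N) * (N * N * N) *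
      (N * N * N))) * (r * r * r)) + 1) = V at hf e7
  generalize hW : ((1152921504606846976 * (x * x * (z * z)) * ((3 * N - 2 * k) * (N + 2 * k)) /
    (12 * (N * N * N * (N * N * N)))) / usq' (1152921504606846976 * (x * x * (z * z)) *
      ((3 * N - 2 * k) * (N + 2 * k)) / (12 * (N * N * N * (N * N * N))))) = W at hf et
  clear hW
  have hX0 : 0 ≤ (x : ℝ) / N * ((z : ℝ) / N) * Real.sqrt (1 - ynode N k ^ 2) / Real.sqrt 3 := by
    positivity
  have hX2 : ((x : ℝ) / N * ((z : ℝ) / N) * Real.sqrt (1 - ynode N k ^ 2) / Real.sqrt 3) ^ 2 =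
      ((x : ℝ) / N * ((z : ℝ) / N)) ^ 2 * (1 - ynode N k ^ 2) / 3 := by
    rw [div_pow, mul_pow, Real.sq_sqrt, Real.sq_sqrt (by norm_num)]
    nlinarith
  have hcast : (((1152921504606846976 * (x * x * (z * z)) * ((3 * N - 2 * k) * (N + 2 * k)) : ℕ) : ℝ) /
      ((12 * (N * N * N * (N * N * N)) : ℕ) : ℝ)) =
      (1073741824 * ((x : ℝ) / N * ((z : ℝ) / N) * Real.sqrt (1 - ynode N k ^ 2) / Real.sqrt 3)) ^ 2 := by
    rw [mul_pow, hX2]
    unfold ynode
    push_cast [Nat.cast_sub (show 2 * k ≤ 3 * N by omega)]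
    field_simp
    ring
  rw [hcast] at et
  have hW : (W : ℝ) ≤ 1073741824 * ((x : ℝ) / N * ((z : ℝ) / N) *
      Real.sqrt (1 - ynode N k ^ 2) / Real.sqrt 3) :=
    (pow_le_pow_iff_left₀ (by positivity) (by positivity) (by norm_num)).1 et
  have hf' : (2425 * ((N * N : ℕ) * 1073741824) + 1073741824 * P + 5000 * ((N * N : ℕ) * (U + V)) : ℝ) ≤
      4850 * ((N * N : ℕ) * W) := by exact_mod_cast hf
  push_cast at hf'
  have hNN : (0:ℝ) < (N:ℝ) * N := by positivity
  generalize (x : ℝ) / N * ((z : ℝ) / N) * Real.sqrt (1 - ynode N k ^ 2) / Real.sqrt 3 = X at *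
  generalize Real.sqrt (Q5 ((x : ℝ) / N) ((z : ℝ) / N) (ynode N k)) = s5 at *
  generalize Real.sqrt (Q7 ((x : ℝ) / N) ((z : ℝ) / N) (ynode N k)) = s7 at *
  have m1 := mul_le_mul_of_nonneg_left (add_le_add e5 e7) hNN.le
  have m2 := mul_le_mul_of_nonneg_left hW hNN.le
  have key : (cc * (s5 + s7)) * (5000 * (N : ℝ) ^ 2) + P ≤
      97 / 100 * (X - 1 / 2) * (5000 * (N : ℝ) ^ 2) := by
    nlinarith
  have hden : (0:ℝ) < 5000 * (N : ℝ) ^ 2 := by positivity
  have key2 : cc * (s5 + s7) + P / (5000 * (N : ℝ) ^ 2) =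
      ((cc * (s5 + s7)) * (5000 * (N : ℝ) ^ 2) + P) / (5000 * (N : ℝ) ^ 2) := by
    field_simp
  rw [key2, div_le_iff₀ hden]
  exact key

end Pool.Agent.LG
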