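import Pool.Agent.Lib.MP_8026b0_co.K02
import Pool.Agent.Lib.MP_8026b0_co.K05
import Pool.Agent.Lib.MP_8026b0_co.K08
import Pool.Agent.Lib.MP_8026b0_co.K09

set_option autoImplicit false

/-! Row K10: soundness of `leaf`. -/

namespace Pool.Agent.LG

namespace K10

open Real

noncomputable section

def Phi (a b c : ℝ) : ℝ := cc * (‖Z5 a b c‖ + ‖Z7r a b c‖)

def X (a b c : ℝ) : ℝ := a * b * sin (2 * c) / Real.sqrt 3 - 1 / 2

/-- the angle with `-cos 2c = ynode N k` -/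
def cn (N k : ℕ) : ℝ := arccos (-(ynode N k)) / 2

theorem ynode_bounds {N k : ℕ} (hN : 0 < N) (hk : k ≤ N) :
    -(1 / 2) ≤ ynode N k ∧ ynode N k ≤ 1 / 2 := by
  have h1 : (0 : ℝ) < N := by exact_mod_cast hN
  have h2 : (k : ℝ) ≤ N := by exact_mod_cast hk
  have h3 : (0 : ℝ) ≤ k := by positivity
  unfold ynode
  constructor
  · rw [le_div_iff₀ (by positivity)]; linarith
  · rw [div_le_iff₀ (by positivity)]; linarith

theorem ynode_eq {N k : ℕ} (hN : 0 < N) : ynode N k = k / N - 1 / 2 := by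
  have h1 : (N : ℝ) ≠ 0 := by exact_mod_cast hN.ne'
  unfold ynode
  field_simp
  try ring

theorem ynode_succ {N k : ℕ} (hN : 0 < N) : ynode N (k + 1) = ynode N k + 1 / N := by
  rw [ynode_eq hN, ynode_eq hN]
  push_cast
  ring

theorem cos_cn {N k : ℕ} (hN : 0 < N) (hk : k ≤ N) : -cos (2 * cn N k) = ynode N k := by
  obtain ⟨h1, h2⟩ := ynode_bounds hN hk
  unfold cn
  rw [show 2 * (arccos (-(ynode N k)) / 2) = arccos (-(ynode N k)) by ring,
    cos_arccos (by linarith) (by linarith), neg_neg]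

theorem sin_cn (N k : ℕ) : sin (2 * cn N k) = Real.sqrt (1 - ynode N k ^ 2) := by
  unfold cn
  rw [show 2 * (arccos (-(ynode N k)) / 2) = arccos (-(ynode N k)) by ring, sin_arccos, neg_sq]

theorem cos_two_pi_div_three : cos (2 * (π / 3)) = -(1 / 2) := by
  rw [cos_two_mul, cos_pi_div_three]; norm_num

theorem cos_two_pi_div_six : cos (2 * (π / 6)) = 1 / 2 := by
  rw [show 2 * (π / 6) = π / 3 by ring, cos_pi_div_three]

/-- `c ↦ -cos 2c` is increasing on `[0, π/2]` -/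
theorem mono_c {c c' : ℝ} (h0 : 0 ≤ c) (h : c' ≤ π / 2) (hc : c < c') :
    -cos (2 * c) < -cos (2 * c') := by
  have := strictAntiOn_cos (show 2 * c ∈ Set.Icc 0 π from ⟨by linarith, by linarith⟩)
    (show 2 * c' ∈ Set.Icc 0 π from ⟨by linarith, by linarith⟩) (by linarith : 2 * c < 2 * c')
  linarith

theorem le_of_c {c c' : ℝ} (h0 : 0 ≤ c') (h : c ≤ π / 2) (hc : -cos (2 * c) ≤ -cos (2 * c')) :
    c ≤ c' := by
  by_contra hlt
  push Not at hlt
  exact absurd (mono_c h0 h hlt) (by linarith)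

theorem cn_mem {N k : ℕ} (hN : 0 < N) (hk : k ≤ N) : π / 6 ≤ cn N k ∧ cn N k ≤ π / 3 := by
  obtain ⟨h1, h2⟩ := ynode_bounds hN hk
  have hpi := pi_pos
  have h3 : 0 ≤ cn N k := by unfold cn; have := arccos_nonneg (-(ynode N k)); linarith
  have h4 : cn N k ≤ π / 2 := by unfold cn; have := arccos_le_pi (-(ynode N k)); linarith
  have h5 := cos_cn hN hk
  constructor
  · apply le_of_c h3 (by linarith)
    rw [h5, cos_two_pi_div_six]; linarith
  · apply le_of_c (by linarith) h4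
    rw [h5, cos_two_pi_div_three]; linarith

theorem cn_lt {N k : ℕ} (hN : 0 < N) (hk : k + 1 ≤ N) : cn N k < cn N (k + 1) := by
  by_contra hlt
  push Not at hlt
  have h1 := cos_cn hN (show k ≤ N by omega)
  have h2 := cos_cn hN hk
  have h3 := ynode_succ (k := k) hN
  have h4 : (0 : ℝ) < 1 / N := by
    have : (0 : ℝ) < N := by exact_mod_cast hN
    positivity
  have hpi := pi_pos
  have h5 := cn_mem hN hk
  have h6 := cn_mem hN (show k ≤ N by omega)
  have h7 := (strictAntiOn_cos.antitoneOn) (show 2 * cn N (k + 1) ∈ Set.Icc 0 π from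
    ⟨by linarith, by linarith⟩)
    (show 2 * cn N k ∈ Set.Icc 0 π from ⟨by linarith, by linarith⟩) (by linarith)
  linarith

/-- the width of the cell in the variable `c` -/
theorem cn_diff {N k : ℕ} (hN : 0 < N) (hk : k + 1 ≤ N) :
    3 * (N : ℝ) ^ 2 * (cn N (k + 1) - cn N k) ^ 2 ≤ 1 := by
  have hNr : (0 : ℝ) < N := by exact_mod_cast hN
  have hlt := cn_lt hN hk
  have h5 := cn_mem hN hk
  have h6 := cn_mem hN (show k ≤ N by omega)
  have hd : ∀ t : ℝ, HasDerivAt (fun t => -cos (2 * t)) (2 * sin (2 * t)) t := by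
    intro t
    have h1 : HasDerivAt (fun t : ℝ => 2 * t) 2 t := by
      simpa using (hasDerivAt_id t).const_mul 2
    have h2 := ((hasDerivAt_cos (2 * t)).comp t h1).neg
    have h3 : -(-sin (2 * t) * 2) = 2 * sin (2 * t) := by ring
    rw [← h3]
    exact h2
  obtain ⟨ξ, hξ, heq⟩ := exists_hasDerivAt_eq_slope (fun t => -cos (2 * t))
    (fun t => 2 * sin (2 * t)) hlt
    (fun t _ => (hd t).continuousAt.continuousWithinAt) (fun t _ => hd t)
  have h7 : -cos (2 * cn N (k + 1)) - -cos (2 * cn N k) = 1 / N := by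
    rw [cos_cn hN hk, cos_cn hN (show k ≤ N by omega), ynode_succ hN]; ring
  have hpi := pi_pos
  have hsin : Real.sqrt 3 / 2 ≤ sin (2 * ξ) := by
    obtain ⟨hξ1, hξ2⟩ := hξ
    have h8 : π / 3 ≤ 2 * ξ := by linarith
    have h9 : 2 * ξ ≤ 2 * (π / 3) := by linarith
    rcases le_total (2 * ξ) (π / 2) with h10 | h10
    · rw [← sin_pi_div_three]
      exact sin_le_sin_of_le_of_le_pi_div_two (by linarith) h10 h8
    · rw [← sin_pi_div_three, ← sin_pi_sub (2 * ξ)]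
      exact sin_le_sin_of_le_of_le_pi_div_two (by linarith) (by linarith) (by linarith)
  set d := cn N (k + 1) - cn N k with hddef
  have hdpos : 0 < d := by rw [hddef]; linarith
  simp only [h7] at heq
  rw [eq_div_iff hdpos.ne'] at heq
  have h11 : Real.sqrt 3 * d ≤ 1 / N := by
    rw [← heq]
    have : Real.sqrt 3 ≤ 2 * sin (2 * ξ) := by linarith
    exact mul_le_mul_of_nonneg_right this hdpos.le
  have h12 : Real.sqrt 3 * d * N ≤ 1 := by
    rw [le_div_iff₀ hNr] at h11; exact h11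
  have h13 : Real.sqrt 3 ^ 2 = 3 := Real.sq_sqrt (by norm_num)
  have h14 : 0 ≤ Real.sqrt 3 * d * N := by positivity
  have h15 : (Real.sqrt 3 * d * N) ^ 2 ≤ 1 := by nlinarith
  have h16 : (Real.sqrt 3 * d * N) ^ 2 = Real.sqrt 3 ^ 2 * (N : ℝ) ^ 2 * d ^ 2 := by ring
  rw [h16, h13] at h15
  exact h15

theorem rr_pos {a b y : ℝ} (ha : 0 < a) (hb : 0 < b) (hy : y ≤ 1 / 2) : 0 < rr a b y := by
  unfold rr
  have hab : 0 < a * b := mul_pos ha hb
  nlinarith [sq_nonneg (a - b), mul_le_mul_of_nonneg_left hy hab.le]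

theorem Phi_node {a b : ℝ} {N k : ℕ} (ha : 0 < a) (hb : 0 < b) (hN : 0 < N) (hk : k ≤ N) :
    Phi a b (cn N k) = cc * (Real.sqrt (Q5 a b (ynode N k)) + Real.sqrt (Q7 a b (ynode N k))) := by
  have h1 := cos_cn hN hk
  have h2 := rr_pos ha hb (ynode_bounds hN hk).2
  have h3 : 0 < rr a b (-cos (2 * cn N k)) := by rw [h1]; exact h2
  have h4 := norm_Z5_sq ha hb h3
  have h5 := norm_Z7r_sq ha hb h3
  rw [h1] at h4 h5
  unfold Phi
  rw [← h4, ← h5, Real.sqrt_sq (norm_nonneg _), Real.sqrt_sq (norm_nonneg _)]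

theorem node_le {N x z k P : ℕ} (hN : 0 < N) (hN2 : N ≤ 1024) (hev : Even N) (hx : N ≤ x)
    (hx2 : x ≤ 2 * N) (hz : N ≤ z) (hz2 : z ≤ 2 * N) (hk : k ≤ N)
    (h : node N x z k P = true) :
    Phi ((x : ℝ) / N) ((z : ℝ) / N) (cn N k) + (P : ℝ) / (5000 * (N : ℝ) ^ 2)
      ≤ 97 / 100 * X ((x : ℝ) / N) ((z : ℝ) / N) (cn N k) := by
  have hNr : (0 : ℝ) < N := by exact_mod_cast hN
  have hxr : (0 : ℝ) < x := by exact_mod_cast lt_of_lt_of_le hN hx
  have hzr : (0 : ℝ) < z := by exact_mod_cast lt_of_lt_of_le hN hz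
  have h1 := node_sound hN hN2 hev hx hx2 hz hz2 hk h
  rw [Phi_node (div_pos hxr hNr) (div_pos hzr hNr) hN hk]
  unfold X
  rw [sin_cn]
  exact h1

theorem tri8_add (Φ p e : ℝ → ℝ → ℝ → ℝ) (a0 a1 b0 b1 c0 c1 s t u : ℝ) :
    tri8 (fun a b c => Φ a b c + p a b c + e a b c) a0 a1 b0 b1 c0 c1 s t u
      = tri8 Φ a0 a1 b0 b1 c0 c1 s t u + tri8 p a0 a1 b0 b1 c0 c1 s t u
        + tri8 e a0 a1 b0 b1 c0 c1 s t u := by
  simp only [tri8, lerp]; ring

theorem tri8_smul (r : ℝ) (Φ : ℝ → ℝ → ℝ → ℝ) (a0 a1 b0 b1 c0 c1 s t u : ℝ) :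
    tri8 (fun a b c => r * Φ a b c) a0 a1 b0 b1 c0 c1 s t u
      = r * tri8 Φ a0 a1 b0 b1 c0 c1 s t u := by
  simp only [tri8, lerp]; ring

theorem tri8_const (r : ℝ) (a0 a1 b0 b1 c0 c1 s t u : ℝ) :
    tri8 (fun _ _ _ => r) a0 a1 b0 b1 c0 c1 s t u = r := by
  simp only [tri8, lerp]; ring

theorem tri8_sep (f g h : ℝ → ℝ) (a0 a1 b0 b1 c0 c1 s t u : ℝ) :
    tri8 (fun a b c => f a + g b + h c) a0 a1 b0 b1 c0 c1 s t u
      = lerp s (f a0) (f a1) + lerp t (g b0) (g b1) + lerp u (h c0) (h c1) := by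
  simp only [tri8, lerp]; ring

/-- the interpolation scheme on one cell -/
theorem cell_le {N x z k : ℕ} (hN : 0 < N) (hx : N ≤ x)
    (hx2 : x + 1 ≤ 2 * N) (hz : N ≤ z) (hz2 : z + 1 ≤ 2 * N) (hk : k + 1 ≤ N)
    (hg : guard' N x z k = true) {a b β : ℝ} (hβ : π / 6 ≤ β) (hβ2 : β ≤ π / 3)
    (hc : Cell N x z k a b (- cos (2 * β))) (p e : ℝ → ℝ → ℝ → ℝ)
    (hp : pen b (- cos (2 * β)) ≤ tri8 p ((x : ℝ) / N) (((x : ℝ) + 1) / N) ((z : ℝ) / N)
      (((z : ℝ) + 1) / N) (cn N k) (cn N (k + 1))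
      ((a - (x : ℝ) / N) / (((x : ℝ) + 1) / N - (x : ℝ) / N))
      ((b - (z : ℝ) / N) / (((z : ℝ) + 1) / N - (z : ℝ) / N))
      ((β - cn N k) / (cn N (k + 1) - cn N k)))
    (he : 19 * ((a - (x : ℝ) / N) * (((x : ℝ) + 1) / N - a))
        + 19 * ((b - (z : ℝ) / N) * (((z : ℝ) + 1) / N - b))
        + 168 * ((β - cn N k) * (cn N (k + 1) - β)) ≤ tri8 e ((x : ℝ) / N) (((x : ℝ) + 1) / N)
      ((z : ℝ) / N) (((z : ℝ) + 1) / N) (cn N k) (cn N (k + 1))
      ((a - (x : ℝ) / N) / (((x : ℝ) + 1) / N - (x : ℝ) / N))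
      ((b - (z : ℝ) / N) / (((z : ℝ) + 1) / N - (z : ℝ) / N))
      ((β - cn N k) / (cn N (k + 1) - cn N k)))
    (hn : ∀ a' b' c', (a' = (x : ℝ) / N ∨ a' = ((x : ℝ) + 1) / N) →
      (b' = (z : ℝ) / N ∨ b' = ((z : ℝ) + 1) / N) → (c' = cn N k ∨ c' = cn N (k + 1)) →
      Phi a' b' c' + p a' b' c' + e a' b' c' ≤ 97 / 100 * X a' b' c') : TriIneq a b β := by
  have hNr : (0 : ℝ) < N := by exact_mod_cast hN
  have hxr : (N : ℝ) ≤ x := by exact_mod_cast hx
  have hzr : (N : ℝ) ≤ z := by exact_mod_cast hz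
  have hxr2 : (x : ℝ) + 1 ≤ 2 * N := by exact_mod_cast hx2
  have hzr2 : (z : ℝ) + 1 ≤ 2 * N := by exact_mod_cast hz2
  have ha0 : 1 ≤ (x : ℝ) / N := by rw [le_div_iff₀ hNr]; linarith
  have hb0 : 1 ≤ (z : ℝ) / N := by rw [le_div_iff₀ hNr]; linarith
  have ha1 : ((x : ℝ) + 1) / N ≤ 2 := by rw [div_le_iff₀ hNr]; linarith
  have hb1 : ((z : ℝ) + 1) / N ≤ 2 := by rw [div_le_iff₀ hNr]; linarith
  have ha01 : (x : ℝ) / N < ((x : ℝ) + 1) / N := by
    apply div_lt_div_of_pos_right _ hNr; linarith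
  have hb01 : (z : ℝ) / N < ((z : ℝ) + 1) / N := by
    apply div_lt_div_of_pos_right _ hNr; linarith
  have hc01 := cn_lt hN hk
  have hk' : k ≤ N := by omega
  have hc0 := cn_mem hN hk'
  have hc1 := cn_mem hN hk
  have hpi := pi_pos
  obtain ⟨h1, h2, h3, h4, h5, h6⟩ := hc
  have hcos0 := cos_cn hN hk'
  have hcos1 := cos_cn hN hk
  have hβ0 : cn N k ≤ β := by
    apply le_of_c (by linarith) (by linarith)
    rw [hcos0]; exact h5
  have hβ1 : β ≤ cn N (k + 1) := by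
    apply le_of_c (by linarith) (by linarith)
    rw [hcos1]; exact h6
  have hrr : ∀ a' ∈ Set.Icc ((x : ℝ) / N) (((x : ℝ) + 1) / N),
      ∀ b' ∈ Set.Icc ((z : ℝ) / N) (((z : ℝ) + 1) / N), ∀ c' ∈ Set.Icc (cn N k) (cn N (k + 1)),
      rr a' b' (- cos (2 * c')) ≤ 21 / 5 := by
    intro a' ha' b' hb' c' hc'
    refine guard_sound hN hx hx2 hz hz2 hk hg (a := a') (b := b')
      ⟨ha'.1, ha'.2, hb'.1, hb'.2, ?_, ?_⟩
    · rw [← hcos0]
      rcases eq_or_lt_of_le hc'.1 with h | h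
      · rw [h]
      · exact (mono_c (by linarith) (by linarith [hc'.2]) h).le
    · rw [← hcos1]
      rcases eq_or_lt_of_le hc'.2 with h | h
      · rw [h]
      · exact (mono_c (by linarith [hc'.1]) (by linarith) h).le
  set s := (a - (x : ℝ) / N) / (((x : ℝ) + 1) / N - (x : ℝ) / N) with hs
  set t := (b - (z : ℝ) / N) / (((z : ℝ) + 1) / N - (z : ℝ) / N) with ht
  set u := (β - cn N k) / (cn N (k + 1) - cn N k) with hu
  have unit : ∀ {p q r : ℝ}, p < q → p ≤ r → r ≤ q → (r - p) / (q - p) ∈ Set.Icc (0 : ℝ) 1 := by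
    intro p q r hpq hpr hrq
    have h7 : 0 < q - p := by linarith
    constructor
    · apply div_nonneg <;> linarith
    · rw [div_le_one h7]; linarith
  have hsI : s ∈ Set.Icc (0 : ℝ) 1 := unit ha01 h1 h2
  have htI : t ∈ Set.Icc (0 : ℝ) 1 := unit hb01 h3 h4
  have huI : u ∈ Set.Icc (0 : ℝ) 1 := unit hc01 hβ0 hβ1
  have hA := cell_interp ha0 ha01 ha1 hb0 hb01 hb1 hc0.1 hc01 hc1.2 hrr ⟨h1, h2⟩ ⟨h3, h4⟩
    ⟨hβ0, hβ1⟩
  have hX := ex_interp (a := a) (b := b) (c := β) (by linarith : (0 : ℝ) ≤ (x : ℝ) / N) ha01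
    (by linarith : (0 : ℝ) ≤ (z : ℝ) / N) hb01 (by linarith : (0 : ℝ) ≤ cn N k) hc01
    (by linarith) ⟨h1, h2⟩ ⟨h3, h4⟩ ⟨hβ0, hβ1⟩
  have hM := tri8_mono (Φ := fun a b c => Phi a b c + p a b c + e a b c)
    (Ψ := fun a b c => 97 / 100 * X a b c) (a0 := (x : ℝ) / N) (a1 := ((x : ℝ) + 1) / N)
    (b0 := (z : ℝ) / N) (b1 := ((z : ℝ) + 1) / N) (c0 := cn N k) (c1 := cn N (k + 1))
    hsI htI huI (fun a' b' c' => hn a' b' c')
  rw [tri8_add, tri8_smul] at hM
  have hA' : cc * (‖Z5 a b β‖ + ‖Z7r a b β‖) ≤ tri8 Phi ((x : ℝ) / N) (((x : ℝ) + 1) / N)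
      ((z : ℝ) / N) (((z : ℝ) + 1) / N) (cn N k) (cn N (k + 1)) s t u
      + 19 * ((a - (x : ℝ) / N) * (((x : ℝ) + 1) / N - a))
        + 19 * ((b - (z : ℝ) / N) * (((z : ℝ) + 1) / N - b))
        + 168 * ((β - cn N k) * (cn N (k + 1) - β)) := hA
  have hX' : tri8 X ((x : ℝ) / N) (((x : ℝ) + 1) / N)
      ((z : ℝ) / N) (((z : ℝ) + 1) / N) (cn N k) (cn N (k + 1)) s t u
      ≤ a * b * sin (2 * β) / Real.sqrt 3 - 1 / 2 := hX
  unfold TriIneq
  linarith

/-- the test at a node, with separated penalty and error -/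
theorem node_le' {N x z k Pp E : ℕ} (hN : 0 < N) (hN2 : N ≤ 1024) (hev : Even N) (hx : N ≤ x)
    (hx2 : x ≤ 2 * N) (hz : N ≤ z) (hz2 : z ≤ 2 * N) (hk : k ≤ N)
    (h : node N x z k (Pp + E) = true) {xr zr pv ev : ℝ} (hxr : xr = (x : ℝ) / N)
    (hzr : zr = (z : ℝ) / N) (hpv : (Pp : ℝ) = pv * (5000 * (N : ℝ) ^ 2))
    (hev' : (E : ℝ) = ev * (5000 * (N : ℝ) ^ 2)) :
    Phi xr zr (cn N k) + pv + ev ≤ 97 / 100 * X xr zr (cn N k) := by
  have hNr : (0 : ℝ) < N := by exact_mod_cast hN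
  have h1 := node_le hN hN2 hev hx hx2 hz hz2 hk h
  have h2 : ((Pp + E : ℕ) : ℝ) / (5000 * (N : ℝ) ^ 2) = pv + ev := by
    push_cast
    rw [hpv, hev', ← add_mul, mul_div_assoc, div_self (by positivity), mul_one]
  rw [h2] at h1
  rw [hxr, hzr]
  linarith

theorem prod_le {p q w : ℝ} (h : p + q = w) : p * q ≤ w ^ 2 / 4 := by
  rw [← h]
  nlinarith [sq_nonneg (p - q)]

/-- the geometry of a cell -/
theorem cell_geo {N x z k : ℕ} (hN : 0 < N) (hk : k + 1 ≤ N) {a b β : ℝ}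
    (hβ : π / 6 ≤ β) (hβ2 : β ≤ π / 3) (hc : Cell N x z k a b (- cos (2 * β))) :
    cn N k ≤ β ∧ β ≤ cn N (k + 1) := by
  have hk' : k ≤ N := by omega
  have hc0 := cn_mem hN hk'
  have hc1 := cn_mem hN hk
  have hpi := pi_pos
  obtain ⟨h1, h2, h3, h4, h5, h6⟩ := hc
  constructor
  · apply le_of_c (by linarith) (by linarith)
    rw [cos_cn hN hk']; exact h5
  · apply le_of_c (by linarith) (by linarith)
    rw [cos_cn hN hk]; exact h6

theorem diff_inv {N x : ℕ} : ((x : ℝ) + 1) / N - (x : ℝ) / N = 1 / N := by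
  ring

/-- the constant error allowance -/
theorem err_const {N x z k : ℕ} (hN : 0 < N) (hk : k + 1 ≤ N) (a b β : ℝ) :
    19 * ((a - (x : ℝ) / N) * (((x : ℝ) + 1) / N - a))
        + 19 * ((b - (z : ℝ) / N) * (((z : ℝ) + 1) / N - b))
        + 168 * ((β - cn N k) * (cn N (k + 1) - β)) ≤ 47 / 2 * (1 / (N : ℝ)) ^ 2 := by
  have hNr : (0 : ℝ) < N := by exact_mod_cast hN
  have h1 := prod_le (p := a - (x : ℝ) / N) (q := ((x : ℝ) + 1) / N - a) (w := 1 / N)
    (by rw [← diff_inv (N := N) (x := x)]; ring)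
  have h2 := prod_le (p := b - (z : ℝ) / N) (q := ((z : ℝ) + 1) / N - b) (w := 1 / N)
    (by rw [← diff_inv (N := N) (x := z)]; ring)
  have h3 := prod_le (p := β - cn N k) (q := cn N (k + 1) - β) (w := cn N (k + 1) - cn N k)
    (by ring)
  have h4 := cn_diff hN hk
  have h5 : 3 * (cn N (k + 1) - cn N k) ^ 2 ≤ (1 / (N : ℝ)) ^ 2 := by
    rw [one_div, inv_pow, ← one_div, le_div_iff₀ (by positivity)]
    linarith
  linarith

/-- the relative error allowance -/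
theorem err_rel {N x z k : ℕ} (hN : 0 < N) (hk : k + 1 ≤ N) {a b β : ℝ}
    (hβ : π / 6 ≤ β) (hβ2 : β ≤ π / 3) (hc : Cell N x z k a b (- cos (2 * β))) :
    19 * ((a - (x : ℝ) / N) * (((x : ℝ) + 1) / N - a))
        + 19 * ((b - (z : ℝ) / N) * (((z : ℝ) + 1) / N - b))
        + 168 * ((β - cn N k) * (cn N (k + 1) - β)) ≤
      19 * (1 / (N : ℝ)) * (a - (x : ℝ) / N) + 19 * (1 / (N : ℝ)) * (b - (z : ℝ) / N)
        + 56 * (1 / (N : ℝ)) ^ 2 * ((cn N (k + 1) - β) / (cn N (k + 1) - cn N k)) ∧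
    19 * ((a - (x : ℝ) / N) * (((x : ℝ) + 1) / N - a))
        + 19 * ((b - (z : ℝ) / N) * (((z : ℝ) + 1) / N - b))
        + 168 * ((β - cn N k) * (cn N (k + 1) - β)) ≤
      19 * (1 / (N : ℝ)) * (a - (x : ℝ) / N) + 19 * (1 / (N : ℝ)) * (b - (z : ℝ) / N)
        + 56 * (1 / (N : ℝ)) ^ 2 * ((β - cn N k) / (cn N (k + 1) - cn N k)) := by
  have hNr : (0 : ℝ) < N := by exact_mod_cast hN
  obtain ⟨hβ0, hβ1⟩ := cell_geo hN hk hβ hβ2 hc
  obtain ⟨g1, g2, g3, g4, g5, g6⟩ := hc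
  have hd := cn_lt hN hk
  have h4 := cn_diff hN hk
  have h5 : 3 * (cn N (k + 1) - cn N k) ^ 2 ≤ (1 / (N : ℝ)) ^ 2 := by
    rw [one_div, inv_pow, ← one_div, le_div_iff₀ (by positivity)]
    linarith
  have hx' := diff_inv (N := N) (x := x)
  have hz' := diff_inv (N := N) (x := z)
  set d := cn N (k + 1) - cn N k with hdd
  set w := 1 / (N : ℝ) with hw
  have hdpos : 0 < d := by rw [hdd]; linarith
  have hwpos : 0 < w := by rw [hw]; positivity
  have h1 : (a - (x : ℝ) / N) * (((x : ℝ) + 1) / N - a) ≤ w * (a - (x : ℝ) / N) := by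
    rw [mul_comm w]
    apply mul_le_mul_of_nonneg_left _ (by linarith)
    linarith
  have h2 : (b - (z : ℝ) / N) * (((z : ℝ) + 1) / N - b) ≤ w * (b - (z : ℝ) / N) := by
    rw [mul_comm w]
    apply mul_le_mul_of_nonneg_left _ (by linarith)
    linarith
  have h3 : 3 * ((β - cn N k) * (cn N (k + 1) - β)) ≤ w ^ 2 * ((cn N (k + 1) - β) / d) := by
    rw [← mul_div_assoc, le_div_iff₀ hdpos]
    have h6 : 0 ≤ cn N (k + 1) - β := by linarith
    have h7 : 3 * ((β - cn N k) * d) ≤ w ^ 2 := by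
      have h8 : (β - cn N k) * d ≤ d * d :=
        mul_le_mul_of_nonneg_right (by rw [hdd]; linarith) hdpos.le
      nlinarith
    have h9 := mul_le_mul_of_nonneg_right h7 h6
    linarith
  have h3' : 3 * ((β - cn N k) * (cn N (k + 1) - β)) ≤ w ^ 2 * ((β - cn N k) / d) := by
    rw [← mul_div_assoc, le_div_iff₀ hdpos]
    have h6 : 0 ≤ β - cn N k := by linarith
    have h7 : 3 * ((cn N (k + 1) - β) * d) ≤ w ^ 2 := by
      have h8 : (cn N (k + 1) - β) * d ≤ d * d :=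
        mul_le_mul_of_nonneg_right (by rw [hdd]; linarith) hdpos.le
      nlinarith
    have h9 := mul_le_mul_of_nonneg_right h7 h6
    linarith
  constructor
  · linarith
  · linarith

theorem lerp_aff {p q r A B : ℝ} (hpq : p < q) (hA : A = 0) :
    lerp ((r - p) / (q - p)) A (B * (q - p)) = B * (r - p) := by
  have h1 : q - p ≠ 0 := by
    have : 0 < q - p := by linarith
    exact this.ne'
  unfold lerp
  rw [hA]
  field_simp
  try ring

theorem pen_le0 (b y : ℝ) : pen b y ≤ 7 / 625 := min_le_left _ _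

theorem pen_le2 (b y : ℝ) : pen b y ≤ (1 / 2 + y) / 10 + 6 / 100 * (b - 1) :=
  (min_le_right _ _).trans (min_le_left _ _)

theorem pen_le1 {b y : ℝ} (hb : b ≤ 23 / 20) : pen b y ≤ (1 / 2 - y) / 5 := by
  refine (min_le_right _ _).trans ((min_le_right _ _).trans ?_)
  rw [if_pos hb]

theorem Phi_zero1 : Phi 1 1 (π / 3) = 0 := by
  have hy : -cos (2 * (π / 3)) = 1 / 2 := by rw [cos_two_pi_div_three]; norm_num
  have h0 : 0 < rr 1 1 (-cos (2 * (π / 3))) := by rw [hy]; norm_num [rr]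
  have h1 := norm_Z5_sq one_pos one_pos h0
  have h2 := norm_Z7r_sq one_pos one_pos h0
  rw [hy] at h1 h2
  have h3 : Q5 1 1 (1 / 2) = 0 := by norm_num [Q5, rr, B5]
  have h4 : Q7 1 1 (1 / 2) = 0 := by norm_num [Q7, rr, B7r]
  rw [h3] at h1
  rw [h4] at h2
  unfold Phi
  rw [pow_eq_zero_iff (by norm_num)] at h1 h2
  rw [h1, h2]
  ring

theorem Phi_zero2 : Phi 1 1 (π / 6) = 0 := by
  have hy : -cos (2 * (π / 6)) = -(1 / 2) := by rw [cos_two_pi_div_six]
  have h0 : 0 < rr 1 1 (-cos (2 * (π / 6))) := by rw [hy]; norm_num [rr]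
  have h1 := norm_Z5_sq one_pos one_pos h0
  have h2 := norm_Z7r_sq one_pos one_pos h0
  rw [hy] at h1 h2
  have h3 : Q5 1 1 (-(1 / 2)) = 0 := by norm_num [Q5, rr, B5]
  have h4 : Q7 1 1 (-(1 / 2)) = 0 := by norm_num [Q7, rr, B7r]
  rw [h3] at h1
  rw [h4] at h2
  unfold Phi
  rw [pow_eq_zero_iff (by norm_num)] at h1 h2
  rw [h1, h2]
  ring

theorem X_zero1 : X 1 1 (π / 3) = 0 := by
  have h : Real.sqrt 3 ≠ 0 := by positivity
  unfold X
  rw [show 2 * (π / 3) = π - π / 3 by ring, sin_pi_sub, sin_pi_div_three]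
  field_simp
  try norm_num

theorem X_zero2 : X 1 1 (π / 6) = 0 := by
  have h : Real.sqrt 3 ≠ 0 := by positivity
  unfold X
  rw [show 2 * (π / 6) = π / 3 by ring, sin_pi_div_three]
  field_simp
  try norm_num

theorem cn_top {N : ℕ} (hN : 0 < N) : cn N N = π / 3 := by
  have hNr : (N : ℝ) ≠ 0 := by exact_mod_cast hN.ne'
  have h1 : ynode N N = 1 / 2 := by rw [ynode_eq hN, div_self hNr]; norm_num
  have h2 := cos_cn hN le_rfl
  have h3 := cn_mem hN (le_refl N)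
  have hpi := pi_pos
  rw [h1] at h2
  apply le_antisymm h3.2
  apply le_of_c (by linarith) (by linarith)
  rw [h2, cos_two_pi_div_three]
  norm_num

theorem cn_bot {N : ℕ} (hN : 0 < N) : cn N 0 = π / 6 := by
  have h1 : ynode N 0 = -(1 / 2) := by rw [ynode_eq hN]; norm_num
  have h2 := cos_cn hN (Nat.zero_le N)
  have h3 := cn_mem hN (Nat.zero_le N)
  have hpi := pi_pos
  rw [h1] at h2
  apply le_antisymm _ h3.1
  apply le_of_c (by linarith) (by linarith)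
  rw [h2, cos_two_pi_div_six]

/-- the simp set for the integer program -/
theorem decode (N z k : ℕ) : pen0 N = 56 * (N * N) ∧ pen1 N k = 1000 * (N * (N - k)) ∧
    pen2 N z k = 500 * (N * k) + 300 * (N * (z - N)) := ⟨rfl, rfl, rfl⟩

theorem pen1_cast {N k : ℕ} (hN : 0 < N) (hk : k ≤ N) :
    ((pen1 N k : ℕ) : ℝ) = (1 / 2 + cos (2 * cn N k)) / 5 * (5000 * (N : ℝ) ^ 2) := by
  have hNr : (N : ℝ) ≠ 0 := by exact_mod_cast hN.ne'
  have h1 := cos_cn hN hk
  have h2 : cos (2 * cn N k) = 1 / 2 - k / N := by rw [ynode_eq hN] at h1; linarith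
  rw [h2, (decode N 0 k).2.1]
  push_cast [Nat.cast_sub hk]
  field_simp
  try ring

theorem pen2_cast {N z k : ℕ} (hN : 0 < N) (hk : k ≤ N) (hz : N ≤ z) :
    ((pen2 N z k : ℕ) : ℝ) = ((1 / 2 - cos (2 * cn N k)) / 10 + 6 / 100 * ((z : ℝ) / N - 1))
      * (5000 * (N : ℝ) ^ 2) := by
  have hNr : (N : ℝ) ≠ 0 := by exact_mod_cast hN.ne'
  have h1 := cos_cn hN hk
  have h2 : cos (2 * cn N k) = 1 / 2 - k / N := by rw [ynode_eq hN] at h1; linarith
  rw [h2, (decode N z k).2.2]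
  push_cast [Nat.cast_sub hz]
  field_simp
  try ring

theorem pen0_cast {N : ℕ} : ((pen0 N : ℕ) : ℝ) = 7 / 625 * (5000 * (N : ℝ) ^ 2) := by
  rw [(decode N 0 0).1]
  push_cast
  ring

theorem e_cast {N E : ℕ} {r : ℝ} (hN : 0 < N) (h : (E : ℝ) = r * 5000) :
    (E : ℝ) = r * (1 / (N : ℝ)) ^ 2 * (5000 * (N : ℝ) ^ 2) := by
  have hNr : (N : ℝ) ≠ 0 := by exact_mod_cast hN.ne'
  rw [h]
  field_simp

end

end K10

section zones

open K10 Real

/-- the constant error as a function on the cell -/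
theorem K10.zone_const {N x z k : ℕ} (hN : 0 < N) (hx : N ≤ x)
    (hx2 : x + 1 ≤ 2 * N) (hz : N ≤ z) (hz2 : z + 1 ≤ 2 * N) (hk : k + 1 ≤ N)
    (hg : guard' N x z k = true) {a b β : ℝ} (hβ : π / 6 ≤ β) (hβ2 : β ≤ π / 3)
    (hc : Cell N x z k a b (- cos (2 * β))) (p : ℝ → ℝ → ℝ → ℝ)
    (hp : pen b (- cos (2 * β)) ≤ tri8 p ((x : ℝ) / N) (((x : ℝ) + 1) / N) ((z : ℝ) / N)
      (((z : ℝ) + 1) / N) (cn N k) (cn N (k + 1))
      ((a - (x : ℝ) / N) / (((x : ℝ) + 1) / N - (x : ℝ) / N))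
      ((b - (z : ℝ) / N) / (((z : ℝ) + 1) / N - (z : ℝ) / N))
      ((β - cn N k) / (cn N (k + 1) - cn N k)))
    (hn : ∀ a' b' c', (a' = (x : ℝ) / N ∨ a' = ((x : ℝ) + 1) / N) →
      (b' = (z : ℝ) / N ∨ b' = ((z : ℝ) + 1) / N) → (c' = cn N k ∨ c' = cn N (k + 1)) →
      Phi a' b' c' + p a' b' c' + 47 / 2 * (1 / (N : ℝ)) ^ 2 ≤ 97 / 100 * X a' b' c') :
    TriIneq a b β := by
  refine cell_le hN hx hx2 hz hz2 hk hg hβ hβ2 hc p (fun _ _ _ => 47 / 2 * (1 / (N : ℝ)) ^ 2)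
    hp ?_ hn
  rw [tri8_const]
  exact err_const hN hk a b β

theorem K10.zone0 {N x z k : ℕ} (hN : 0 < N) (hN2 : N ≤ 1024) (hev : Even N) (hx : N ≤ x)
    (hx2 : x + 1 ≤ 2 * N) (hz : N ≤ z) (hz2 : z + 1 ≤ 2 * N) (hk : k + 1 ≤ N)
    (hg : guard' N x z k = true) (h : leaf0 N x z k = true) {a b β : ℝ} (hβ : π / 6 ≤ β)
    (hβ2 : β ≤ π / 3) (hc : Cell N x z k a b (- cos (2 * β))) : TriIneq a b β := by
  unfold leaf0 at h
  simp only [Bool.and_eq_true, Nat.add_eq] at h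
  obtain ⟨n1, n2, n3, n4, n5, n6, n7, n8⟩ := h
  refine zone_const hN hx hx2 hz hz2 hk hg hβ hβ2 hc (fun _ _ _ => 7 / 625) ?_ ?_
  · rw [tri8_const]; exact pen_le0 _ _
  · have hE := e_cast (N := N) (E := 117500) (r := 47 / 2) hN (by norm_num)
    rintro a' b' c' (rfl | rfl) (rfl | rfl) (rfl | rfl)
    · exact node_le' hN hN2 hev hx (by omega) hz (by omega) (by omega) n1 rfl rfl pen0_cast hE
    · exact node_le' hN hN2 hev hx (by omega) hz (by omega) hk n5 rfl rfl pen0_cast hE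
    · exact node_le' hN hN2 hev hx (by omega) (by omega) hz2 (by omega) n3 rfl (by push_cast; rfl)
        pen0_cast hE
    · exact node_le' hN hN2 hev hx (by omega) (by omega) hz2 hk n7 rfl (by push_cast; rfl)
        pen0_cast hE
    · exact node_le' hN hN2 hev (by omega) hx2 hz (by omega) (by omega) n2 (by push_cast; rfl) rfl
        pen0_cast hE
    · exact node_le' hN hN2 hev (by omega) hx2 hz (by omega) hk n6 (by push_cast; rfl) rfl
        pen0_cast hE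
    · exact node_le' hN hN2 hev (by omega) hx2 (by omega) hz2 (by omega) n4 (by push_cast; rfl)
        (by push_cast; rfl) pen0_cast hE
    · exact node_le' hN hN2 hev (by omega) hx2 (by omega) hz2 hk n8 (by push_cast; rfl)
        (by push_cast; rfl) pen0_cast hE

theorem K10.pen_z1 {N x z k : ℕ} (hN : 0 < N) (hk : k + 1 ≤ N) (hk2 : 15 * N ≤ 16 * k)
    (hz8 : 8 * (z + 1) ≤ 9 * N) {a b β : ℝ} (hβ : π / 6 ≤ β) (hβ2 : β ≤ π / 3)
    (hc : Cell N x z k a b (- cos (2 * β))) :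
    pen b (- cos (2 * β)) ≤ tri8 (fun _ _ c => (1 / 2 + cos (2 * c)) / 5)
      ((x : ℝ) / N) (((x : ℝ) + 1) / N) ((z : ℝ) / N)
      (((z : ℝ) + 1) / N) (cn N k) (cn N (k + 1))
      ((a - (x : ℝ) / N) / (((x : ℝ) + 1) / N - (x : ℝ) / N))
      ((b - (z : ℝ) / N) / (((z : ℝ) + 1) / N - (z : ℝ) / N))
      ((β - cn N k) / (cn N (k + 1) - cn N k)) := by
  have hNr : (0 : ℝ) < N := by exact_mod_cast hN
  have hk' : k ≤ N := by omega
  have hc0 := cn_mem hN hk'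
  have hc1 := cn_mem hN hk
  have hpi := pi_pos
  obtain ⟨hb0, hb1⟩ := cell_geo hN hk hβ hβ2 hc
  obtain ⟨h1, h2, h3, h4, h5, h6⟩ := hc
  have hz9 : 8 * ((z : ℝ) + 1) ≤ 9 * N := by exact_mod_cast hz8
  have hk3 : 15 * (N : ℝ) ≤ 16 * k := by exact_mod_cast hk2
  have hb : b ≤ 23 / 20 := by
    refine h4.trans ?_
    rw [div_le_iff₀ hNr]
    linarith
  have hy : 0 ≤ ynode N k := by
    rw [ynode_eq hN]
    have : 15 / 16 ≤ (k : ℝ) / N := by rw [le_div_iff₀ hNr]; linarith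
    linarith
  have hc4 : π / 4 ≤ cn N k := by
    apply le_of_c (by linarith) (by linarith)
    rw [cos_cn hN hk', show 2 * (π / 4) = π / 2 by ring, cos_pi_div_two]
    linarith
  refine (pen_le1 hb).trans ?_
  have h7 := pen1_interp (a0 := (x : ℝ) / N) (a1 := ((x : ℝ) + 1) / N) (b0 := (z : ℝ) / N)
    (b1 := ((z : ℝ) + 1) / N) (c0 := cn N k) (c1 := cn N (k + 1)) (a := a) (b := b) (c := β)
    (by apply div_lt_div_of_pos_right _ hNr; linarith)
    (by apply div_lt_div_of_pos_right _ hNr; linarith) hc4 (cn_lt hN hk) (by linarith)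
    ⟨h1, h2⟩ ⟨h3, h4⟩ ⟨hb0, hb1⟩
  rw [sub_neg_eq_add]
  exact h7

theorem K10.pen_z2 {N x z k : ℕ} (hN : 0 < N) (hk : k + 1 ≤ N) (hk2 : 8 * (k + 1) ≤ N)
    {a b β : ℝ} (hβ : π / 6 ≤ β) (hβ2 : β ≤ π / 3)
    (hc : Cell N x z k a b (- cos (2 * β))) :
    pen b (- cos (2 * β)) ≤ tri8 (fun _ b c => (1 / 2 - cos (2 * c)) / 10 + 6 / 100 * (b - 1))
      ((x : ℝ) / N) (((x : ℝ) + 1) / N) ((z : ℝ) / N)
      (((z : ℝ) + 1) / N) (cn N k) (cn N (k + 1))
      ((a - (x : ℝ) / N) / (((x : ℝ) + 1) / N - (x : ℝ) / N))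
      ((b - (z : ℝ) / N) / (((z : ℝ) + 1) / N - (z : ℝ) / N))
      ((β - cn N k) / (cn N (k + 1) - cn N k)) := by
  have hNr : (0 : ℝ) < N := by exact_mod_cast hN
  have hk' : k ≤ N := by omega
  have hc0 := cn_mem hN hk'
  have hc1 := cn_mem hN hk
  have hpi := pi_pos
  obtain ⟨hb0, hb1⟩ := cell_geo hN hk hβ hβ2 hc
  obtain ⟨h1, h2, h3, h4, h5, h6⟩ := hc
  have hk3 : 8 * ((k : ℝ) + 1) ≤ N := by exact_mod_cast hk2
  have hy : ynode N (k + 1) ≤ 0 := by
    rw [ynode_eq hN]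
    have : ((k + 1 : ℕ) : ℝ) / N ≤ 1 / 8 := by
      rw [div_le_iff₀ hNr]; push_cast; linarith
    linarith
  have hc4 : cn N (k + 1) ≤ π / 4 := by
    apply le_of_c (by linarith) (by linarith)
    rw [cos_cn hN hk, show 2 * (π / 4) = π / 2 by ring, cos_pi_div_two]
    linarith
  refine (pen_le2 _ _).trans ?_
  have h7 := pen2_interp (a0 := (x : ℝ) / N) (a1 := ((x : ℝ) + 1) / N) (b0 := (z : ℝ) / N)
    (b1 := ((z : ℝ) + 1) / N) (c0 := cn N k) (c1 := cn N (k + 1)) (a := a) (b := b) (c := β)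
    (by apply div_lt_div_of_pos_right _ hNr; linarith)
    (by apply div_lt_div_of_pos_right _ hNr; linarith) (by linarith) (cn_lt hN hk) hc4
    ⟨h1, h2⟩ ⟨h3, h4⟩ ⟨hb0, hb1⟩
  rw [← sub_eq_add_neg]
  exact h7

theorem K10.zone1 {N x z k : ℕ} (hN : 0 < N) (hN2 : N ≤ 1024) (hev : Even N) (hx : N ≤ x)
    (hx2 : x + 1 ≤ 2 * N) (hz : N ≤ z) (hz2 : z + 1 ≤ 2 * N) (hk : k + 1 ≤ N)
    (hg : guard' N x z k = true) (hk2 : 15 * N ≤ 16 * k)
    (hz8 : 8 * (z + 1) ≤ 9 * N) (h : leaf1 N x z k = true) {a b β : ℝ} (hβ : π / 6 ≤ β)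
    (hβ2 : β ≤ π / 3) (hc : Cell N x z k a b (- cos (2 * β))) : TriIneq a b β := by
  unfold leaf1 at h
  simp only [Bool.and_eq_true, Nat.add_eq] at h
  obtain ⟨n1, n2, n3, n4, n5, n6, n7, n8⟩ := h
  have hk' : k ≤ N := by omega
  refine zone_const hN hx hx2 hz hz2 hk hg hβ hβ2 hc (fun _ _ c => (1 / 2 + cos (2 * c)) / 5)
    (pen_z1 hN hk hk2 hz8 hβ hβ2 hc) ?_
  have hE := e_cast (N := N) (E := 117500) (r := 47 / 2) hN (by norm_num)
  have p0 := pen1_cast hN hk'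
  have p1 := pen1_cast hN hk
  rintro a' b' c' (rfl | rfl) (rfl | rfl) (rfl | rfl)
  · exact node_le' hN hN2 hev hx (by omega) hz (by omega) (by omega) n1 rfl rfl p0 hE
  · exact node_le' hN hN2 hev hx (by omega) hz (by omega) hk n5 rfl rfl p1 hE
  · exact node_le' hN hN2 hev hx (by omega) (by omega) hz2 (by omega) n3 rfl (by push_cast; rfl)
      p0 hE
  · exact node_le' hN hN2 hev hx (by omega) (by omega) hz2 hk n7 rfl (by push_cast; rfl)
      p1 hE
  · exact node_le' hN hN2 hev (by omega) hx2 hz (by omega) (by omega) n2 (by push_cast; rfl) rfl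
      p0 hE
  · exact node_le' hN hN2 hev (by omega) hx2 hz (by omega) hk n6 (by push_cast; rfl) rfl
      p1 hE
  · exact node_le' hN hN2 hev (by omega) hx2 (by omega) hz2 (by omega) n4 (by push_cast; rfl)
      (by push_cast; rfl) p0 hE
  · exact node_le' hN hN2 hev (by omega) hx2 (by omega) hz2 hk n8 (by push_cast; rfl)
      (by push_cast; rfl) p1 hE

theorem K10.zone2 {N x z k : ℕ} (hN : 0 < N) (hN2 : N ≤ 1024) (hev : Even N) (hx : N ≤ x)
    (hx2 : x + 1 ≤ 2 * N) (hz : N ≤ z) (hz2 : z + 1 ≤ 2 * N) (hk : k + 1 ≤ N)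
    (hg : guard' N x z k = true) (hk2 : 8 * (k + 1) ≤ N) (h : leaf2 N x z k = true) {a b β : ℝ}
    (hβ : π / 6 ≤ β)
    (hβ2 : β ≤ π / 3) (hc : Cell N x z k a b (- cos (2 * β))) : TriIneq a b β := by
  unfold leaf2 at h
  simp only [Bool.and_eq_true, Nat.add_eq] at h
  obtain ⟨n1, n2, n3, n4, n5, n6, n7, n8⟩ := h
  have hk' : k ≤ N := by omega
  refine zone_const hN hx hx2 hz hz2 hk hg hβ hβ2 hc
    (fun _ b c => (1 / 2 - cos (2 * c)) / 10 + 6 / 100 * (b - 1))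
    (pen_z2 hN hk hk2 hβ hβ2 hc) ?_
  have hE := e_cast (N := N) (E := 117500) (r := 47 / 2) hN (by norm_num)
  have p00 := pen2_cast hN hk' hz
  have p01 := pen2_cast hN hk hz
  have p10 := pen2_cast hN hk' (show N ≤ z + 1 by omega)
  have p11 := pen2_cast hN hk (show N ≤ z + 1 by omega)
  push_cast at p10 p11
  rintro a' b' c' (rfl | rfl) (rfl | rfl) (rfl | rfl)
  · exact node_le' hN hN2 hev hx (by omega) hz (by omega) (by omega) n1 rfl rfl p00 hE
  · exact node_le' hN hN2 hev hx (by omega) hz (by omega) hk n5 rfl rfl p01 hE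
  · exact node_le' hN hN2 hev hx (by omega) (by omega) hz2 (by omega) n3 rfl (by push_cast; rfl)
      p10 hE
  · exact node_le' hN hN2 hev hx (by omega) (by omega) hz2 hk n7 rfl (by push_cast; rfl)
      p11 hE
  · exact node_le' hN hN2 hev (by omega) hx2 hz (by omega) (by omega) n2 (by push_cast; rfl) rfl
      p00 hE
  · exact node_le' hN hN2 hev (by omega) hx2 hz (by omega) hk n6 (by push_cast; rfl) rfl
      p01 hE
  · exact node_le' hN hN2 hev (by omega) hx2 (by omega) hz2 (by omega) n4 (by push_cast; rfl)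
      (by push_cast; rfl) p10 hE
  · exact node_le' hN hN2 hev (by omega) hx2 (by omega) hz2 hk n8 (by push_cast; rfl)
      (by push_cast; rfl) p11 hE

/-- the relative error allowances are affine -/
theorem K10.tri8_rel {N x z k : ℕ} (hN : 0 < N) (hk : k + 1 ≤ N) (a b β : ℝ) :
    tri8 (fun a b c => 19 * (1 / (N : ℝ)) * (a - (x : ℝ) / N)
        + 19 * (1 / (N : ℝ)) * (b - (z : ℝ) / N)
        + 56 * (1 / (N : ℝ)) ^ 2 * ((cn N (k + 1) - c) / (cn N (k + 1) - cn N k)))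
      ((x : ℝ) / N) (((x : ℝ) + 1) / N) ((z : ℝ) / N)
      (((z : ℝ) + 1) / N) (cn N k) (cn N (k + 1))
      ((a - (x : ℝ) / N) / (((x : ℝ) + 1) / N - (x : ℝ) / N))
      ((b - (z : ℝ) / N) / (((z : ℝ) + 1) / N - (z : ℝ) / N))
      ((β - cn N k) / (cn N (k + 1) - cn N k)) =
      19 * (1 / (N : ℝ)) * (a - (x : ℝ) / N) + 19 * (1 / (N : ℝ)) * (b - (z : ℝ) / N)
        + 56 * (1 / (N : ℝ)) ^ 2 * ((cn N (k + 1) - β) / (cn N (k + 1) - cn N k)) ∧
    tri8 (fun a b c => 19 * (1 / (N : ℝ)) * (a - (x : ℝ) / N)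
        + 19 * (1 / (N : ℝ)) * (b - (z : ℝ) / N)
        + 56 * (1 / (N : ℝ)) ^ 2 * ((c - cn N k) / (cn N (k + 1) - cn N k)))
      ((x : ℝ) / N) (((x : ℝ) + 1) / N) ((z : ℝ) / N)
      (((z : ℝ) + 1) / N) (cn N k) (cn N (k + 1))
      ((a - (x : ℝ) / N) / (((x : ℝ) + 1) / N - (x : ℝ) / N))
      ((b - (z : ℝ) / N) / (((z : ℝ) + 1) / N - (z : ℝ) / N))
      ((β - cn N k) / (cn N (k + 1) - cn N k)) =
      19 * (1 / (N : ℝ)) * (a - (x : ℝ) / N) + 19 * (1 / (N : ℝ)) * (b - (z : ℝ) / N)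
        + 56 * (1 / (N : ℝ)) ^ 2 * ((β - cn N k) / (cn N (k + 1) - cn N k)) := by
  have hNr : (0 : ℝ) < N := by exact_mod_cast hN
  have hd := cn_lt hN hk
  have ha01 : (x : ℝ) / N < ((x : ℝ) + 1) / N := by
    apply div_lt_div_of_pos_right _ hNr; linarith
  have hb01 : (z : ℝ) / N < ((z : ℝ) + 1) / N := by
    apply div_lt_div_of_pos_right _ hNr; linarith
  have h1 := lerp_aff (p := (x : ℝ) / N) (q := ((x : ℝ) + 1) / N) (r := a)
    (A := 19 * (1 / (N : ℝ)) * ((x : ℝ) / N - (x : ℝ) / N)) (B := 19 * (1 / (N : ℝ))) ha01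
    (by rw [sub_self, mul_zero])
  have h2 := lerp_aff (p := (z : ℝ) / N) (q := ((z : ℝ) + 1) / N) (r := b)
    (A := 19 * (1 / (N : ℝ)) * ((z : ℝ) / N - (z : ℝ) / N)) (B := 19 * (1 / (N : ℝ))) hb01
    (by rw [sub_self, mul_zero])
  have hdne : cn N (k + 1) - cn N k ≠ 0 := by
    have : 0 < cn N (k + 1) - cn N k := by linarith
    exact this.ne'
  constructor
  · rw [tri8_sep (fun a => 19 * (1 / (N : ℝ)) * (a - (x : ℝ) / N))
      (fun b => 19 * (1 / (N : ℝ)) * (b - (z : ℝ) / N))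
      (fun c => 56 * (1 / (N : ℝ)) ^ 2 * ((cn N (k + 1) - c) / (cn N (k + 1) - cn N k))),
      h1, h2]
    congr 1
    unfold lerp
    rw [sub_self, zero_div, div_self hdne]
    field_simp
    ring
  · rw [tri8_sep (fun a => 19 * (1 / (N : ℝ)) * (a - (x : ℝ) / N))
      (fun b => 19 * (1 / (N : ℝ)) * (b - (z : ℝ) / N))
      (fun c => 56 * (1 / (N : ℝ)) ^ 2 * ((c - cn N k) / (cn N (k + 1) - cn N k))),
      h1, h2]
    congr 1
    unfold lerp
    rw [sub_self, zero_div, div_self hdne]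
    field_simp
    ring

theorem K10.zonez1 {N x z k : ℕ} (hN : 0 < N) (hN2 : N ≤ 1024) (hev : Even N) (hx : N ≤ x)
    (hx2 : x + 1 ≤ 2 * N) (hz : N ≤ z) (hz2 : z + 1 ≤ 2 * N) (hk : k + 1 ≤ N)
    (hg : guard' N x z k = true) (hk2 : 15 * N ≤ 16 * k)
    (hz8 : 8 * (z + 1) ≤ 9 * N) (hxN : x = N) (hzN : z = N) (hkN : k + 1 = N)
    (h : leafz1 N x z k = true) {a b β : ℝ} (hβ : π / 6 ≤ β)
    (hβ2 : β ≤ π / 3) (hc : Cell N x z k a b (- cos (2 * β))) : TriIneq a b β := by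
  unfold leafz1 at h
  simp only [Bool.and_eq_true, Nat.add_eq] at h
  obtain ⟨n1, n2, n3, n4, n5, n6, n7⟩ := h
  have hk' : k ≤ N := by omega
  have hd := cn_lt hN hk
  have hdne : cn N (k + 1) - cn N k ≠ 0 := by
    have : 0 < cn N (k + 1) - cn N k := by linarith
    exact this.ne'
  refine cell_le hN hx hx2 hz hz2 hk hg hβ hβ2 hc (fun _ _ c => (1 / 2 + cos (2 * c)) / 5)
    (fun a b c => 19 * (1 / (N : ℝ)) * (a - (x : ℝ) / N)
        + 19 * (1 / (N : ℝ)) * (b - (z : ℝ) / N)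
        + 56 * (1 / (N : ℝ)) ^ 2 * ((cn N (k + 1) - c) / (cn N (k + 1) - cn N k)))
    (pen_z1 hN hk hk2 hz8 hβ hβ2 hc) ?_ ?_
  · rw [(tri8_rel hN hk a b β).1]
    exact (err_rel hN hk hβ hβ2 hc).1
  have E56 := e_cast (N := N) (E := 280000) (r := 56) hN (by norm_num)
  have E75 := e_cast (N := N) (E := 375000) (r := 75) hN (by norm_num)
  have E94 := e_cast (N := N) (E := 470000) (r := 94) hN (by norm_num)
  have E19 := e_cast (N := N) (E := 95000) (r := 19) hN (by norm_num)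
  have E38 := e_cast (N := N) (E := 190000) (r := 38) hN (by norm_num)
  have p0 := pen1_cast hN hk'
  have p1 := pen1_cast hN hk
  rintro a' b' c' (rfl | rfl) (rfl | rfl) (rfl | rfl)
  · have := node_le' hN hN2 hev hx (by omega) hz (by omega) (by omega) n1 rfl rfl p0 E56
    simp only [sub_self, div_self hdne]
    linarith
  · have hNr : (N : ℝ) ≠ 0 := by exact_mod_cast hN.ne'
    have hx1 : (x : ℝ) / N = 1 := by rw [hxN, div_self hNr]
    have hz1 : (z : ℝ) / N = 1 := by rw [hzN, div_self hNr]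
    simp only [sub_self, zero_div]
    rw [hx1, hz1, hkN, cn_top hN, Phi_zero1, X_zero1, cos_two_pi_div_three]
    norm_num
  · have := node_le' hN hN2 hev hx (by omega) (by omega) hz2 (by omega) n3 rfl
      (by push_cast; rfl) p0 E75
    simp only [sub_self, div_self hdne, diff_inv]
    linarith
  · have := node_le' hN hN2 hev hx (by omega) (by omega) hz2 hk n6 rfl (by push_cast; rfl)
      p1 E19
    simp only [sub_self, zero_div, diff_inv]
    linarith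
  · have := node_le' hN hN2 hev (by omega) hx2 hz (by omega) (by omega) n2 (by push_cast; rfl) rfl
      p0 E75
    simp only [sub_self, div_self hdne, diff_inv]
    linarith
  · have := node_le' hN hN2 hev (by omega) hx2 hz (by omega) hk n5 (by push_cast; rfl) rfl
      p1 E19
    simp only [sub_self, zero_div, diff_inv]
    linarith
  · have := node_le' hN hN2 hev (by omega) hx2 (by omega) hz2 (by omega) n4 (by push_cast; rfl)
      (by push_cast; rfl) p0 E94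
    simp only [div_self hdne, diff_inv]
    linarith
  · have := node_le' hN hN2 hev (by omega) hx2 (by omega) hz2 hk n7 (by push_cast; rfl)
      (by push_cast; rfl) p1 E38
    simp only [sub_self, zero_div, diff_inv]
    linarith

theorem K10.zonez2 {N x z k : ℕ} (hN : 0 < N) (hN2 : N ≤ 1024) (hev : Even N) (hx : N ≤ x)
    (hx2 : x + 1 ≤ 2 * N) (hz : N ≤ z) (hz2 : z + 1 ≤ 2 * N) (hk : k + 1 ≤ N)
    (hg : guard' N x z k = true) (hk2 : 8 * (k + 1) ≤ N) (hxN : x = N) (hzN : z = N)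
    (hkN : k = 0) (h : leafz2 N x z k = true) {a b β : ℝ} (hβ : π / 6 ≤ β)
    (hβ2 : β ≤ π / 3) (hc : Cell N x z k a b (- cos (2 * β))) : TriIneq a b β := by
  unfold leafz2 at h
  simp only [Bool.and_eq_true, Nat.add_eq] at h
  obtain ⟨n1, n2, n3, n4, n5, n6, n7⟩ := h
  have hk' : k ≤ N := by omega
  have hd := cn_lt hN hk
  have hdne : cn N (k + 1) - cn N k ≠ 0 := by
    have : 0 < cn N (k + 1) - cn N k := by linarith
    exact this.ne'
  refine cell_le hN hx hx2 hz hz2 hk hg hβ hβ2 hc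
    (fun _ b c => (1 / 2 - cos (2 * c)) / 10 + 6 / 100 * (b - 1))
    (fun a b c => 19 * (1 / (N : ℝ)) * (a - (x : ℝ) / N)
        + 19 * (1 / (N : ℝ)) * (b - (z : ℝ) / N)
        + 56 * (1 / (N : ℝ)) ^ 2 * ((c - cn N k) / (cn N (k + 1) - cn N k)))
    (pen_z2 hN hk hk2 hβ hβ2 hc) ?_ ?_
  · rw [(tri8_rel hN hk a b β).2]
    exact (err_rel hN hk hβ hβ2 hc).2
  have E56 := e_cast (N := N) (E := 280000) (r := 56) hN (by norm_num)
  have E75 := e_cast (N := N) (E := 375000) (r := 75) hN (by norm_num)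
  have E94 := e_cast (N := N) (E := 470000) (r := 94) hN (by norm_num)
  have E19 := e_cast (N := N) (E := 95000) (r := 19) hN (by norm_num)
  have E38 := e_cast (N := N) (E := 190000) (r := 38) hN (by norm_num)
  have p00 := pen2_cast hN hk' hz
  have p01 := pen2_cast hN hk hz
  have p10 := pen2_cast hN hk' (show N ≤ z + 1 by omega)
  have p11 := pen2_cast hN hk (show N ≤ z + 1 by omega)
  push_cast at p10 p11
  rintro a' b' c' (rfl | rfl) (rfl | rfl) (rfl | rfl)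
  · have hNr : (N : ℝ) ≠ 0 := by exact_mod_cast hN.ne'
    have hx1 : (x : ℝ) / N = 1 := by rw [hxN, div_self hNr]
    have hz1 : (z : ℝ) / N = 1 := by rw [hzN, div_self hNr]
    simp only [sub_self, zero_div]
    rw [hx1, hz1, hkN, cn_bot hN, Phi_zero2, X_zero2, cos_two_pi_div_six]
    norm_num
  · have := node_le' hN hN2 hev hx (by omega) hz (by omega) hk n4 rfl rfl p01 E56
    simp only [sub_self, div_self hdne]
    linarith
  · have := node_le' hN hN2 hev hx (by omega) (by omega) hz2 (by omega) n2 rfl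
      (by push_cast; rfl) p10 E19
    simp only [sub_self, zero_div, diff_inv]
    linarith
  · have := node_le' hN hN2 hev hx (by omega) (by omega) hz2 hk n6 rfl (by push_cast; rfl)
      p11 E75
    simp only [sub_self, div_self hdne, diff_inv]
    linarith
  · have := node_le' hN hN2 hev (by omega) hx2 hz (by omega) (by omega) n1 (by push_cast; rfl) rfl
      p00 E19
    simp only [sub_self, zero_div, diff_inv]
    linarith
  · have := node_le' hN hN2 hev (by omega) hx2 hz (by omega) hk n5 (by push_cast; rfl) rfl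
      p01 E75
    simp only [sub_self, div_self hdne, diff_inv]
    linarith
  · have := node_le' hN hN2 hev (by omega) hx2 (by omega) hz2 (by omega) n3 (by push_cast; rfl)
      (by push_cast; rfl) p10 E38
    simp only [sub_self, zero_div, diff_inv]
    linarith
  · have := node_le' hN hN2 hev (by omega) hx2 (by omega) hz2 hk n7 (by push_cast; rfl)
      (by push_cast; rfl) p11 E94
    simp only [div_self hdne, diff_inv]
    linarith

end zones

open K10 Real in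
theorem leaf_sound {N x z k : ℕ} (hN : 0 < N) (hN2 : N ≤ 1024) (hev : Even N) (hx : N ≤ x)
    (hx2 : x + 1 ≤ 2 * N) (hz : N ≤ z) (hz2 : z + 1 ≤ 2 * N) (hk : k + 1 ≤ N)
    (h : leaf N x z k = true) {a b β : ℝ} (hβ : Real.pi / 6 ≤ β) (hβ2 : β ≤ Real.pi / 3)
    (hc : Cell N x z k a b (- Real.cos (2 * β))) : TriIneq a b β := by
  unfold leaf at h
  rw [Bool.and_eq_true] at h
  obtain ⟨hg, h⟩ := h
  simp only [Bool.cond_eq_ite, Nat.ble_eq, Nat.beq_eq, Nat.mul_eq, Nat.add_eq,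
    Bool.and_eq_true] at h
  split_ifs at h with h1 h2 h3 h4
  · exact zonez1 hN hN2 hev hx hx2 hz hz2 hk hg h1.1 h1.2 h2.1 h2.2.1 h2.2.2 h hβ hβ2 hc
  · exact zone1 hN hN2 hev hx hx2 hz hz2 hk hg h1.1 h1.2 h hβ hβ2 hc
  · exact zonez2 hN hN2 hev hx hx2 hz hz2 hk hg h3 h4.1 h4.2.1 h4.2.2 h hβ hβ2 hc
  · exact zone2 hN hN2 hev hx hx2 hz hz2 hk hg h3 h hβ hβ2 hc
  · exact zone0 hN hN2 hev hx hx2 hz hz2 hk hg h hβ hβ2 hc

end Pool.Agent.LG
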