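import Mathlib

set_option autoImplicit false

/-! The integer program for the triangle inequality (kernel evaluation; raw `Nat` operations). -/

namespace Pool.Agent.LG


/-- the modulus `2^512`; negative numbers are represented modulo `MM` -/
def MM : ℕ := 13407807929942597099574024998205846127479365820592393377723561443721764030073546976801874298166903427690031858186486050853753882811946569946433649006084096

/-- `2000 d^5 B5(s/d)` modulo `MM` -/
def b5n (s d d2 d3 d4 d5 : ℕ) : ℕ :=
  let t := Nat.add s (Nat.sub MM (Nat.mul 3 d));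
  Nat.add
    (Nat.mul
      (Nat.mod
        (Nat.add
          (Nat.mul
            (Nat.mod
              (Nat.add
                (Nat.mul
                  (Nat.mod
                    (Nat.add
                      (Nat.mul (Nat.mod (Nat.add (Nat.mul (Nat.sub MM 105) t) (Nat.mul (Nat.sub MM 270) d)) MM) t)
                      (Nat.mul 188 d2))
                    MM)
                  t)
                (Nat.mul 990 d3))
              MM)
            t)
          (Nat.mul 248 d4))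
        MM)
      t)
    (Nat.mul (Nat.sub MM 500) d5)

/-- `2000 d^4 B7r(s/d)` modulo `MM` -/
def b7n (s d d2 d3 d4 : ℕ) : ℕ :=
  let t := Nat.add s (Nat.sub MM (Nat.mul 3 d));
  Nat.add
    (Nat.mul
      (Nat.mod
        (Nat.add
          (Nat.mul
            (Nat.mod
              (Nat.add (Nat.mul (Nat.mod (Nat.add (Nat.mul 68 t) (Nat.mul (Nat.sub MM 184) d)) MM) t)
                (Nat.mul (Nat.sub MM 540) d2))
              MM)
            t)
          (Nat.mul 700 d3))
        MM)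
      t)
    (Nat.mul 500 d4)

/-- `N^5 T5(w/N)` modulo `MM` -/
def t5n (w N2 : ℕ) : ℕ :=
  let w2 := Nat.mod (Nat.mul w w) MM;
  Nat.mod
    (Nat.mul w
      (Nat.mod
        (Nat.add (Nat.add (Nat.mul 16 (Nat.mul w2 w2)) (Nat.mul (Nat.sub MM 20) (Nat.mul w2 N2)))
          (Nat.mul 5 (Nat.mul N2 N2)))
        MM))
    MM

/-- `N^7 T7(w/N)` modulo `MM` -/
def t7n (w N2 : ℕ) : ℕ :=
  let w2 := Nat.mod (Nat.mul w w) MM;
  let w4 := Nat.mod (Nat.mul w2 w2) MM;
  let N4 := Nat.mul N2 N2;
  Nat.mod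
    (Nat.mul w
      (Nat.mod
        (Nat.add
          (Nat.add (Nat.add (Nat.mul 64 (Nat.mul w4 w2)) (Nat.mul (Nat.sub MM 112) (Nat.mul w4 N2)))
            (Nat.mul 56 (Nat.mul w2 N4)))
          (Nat.mul (Nat.sub MM 7) (Nat.mul N4 N2)))
        MM))
    MM

/-- numerator of `|Z5|^2` -/
def num5 (N N2 x z r g h a c e t : ℕ) : ℕ :=
  let r2 := Nat.mod (Nat.mul r r) MM;
  let N4 := Nat.mul N2 N2;
  let N11 := Nat.mul (Nat.mul (Nat.mul N4 N4) N2) N;
  let g2 := Nat.mod (Nat.mul g g) MM;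
  let h2 := Nat.mod (Nat.mul h h) MM;
  let rN := Nat.mul r N;
  let q := Nat.mul 5 (Nat.mul r2 N2);
  Nat.mod
    (Nat.add
      (Nat.add
        (Nat.mul r2
          (Nat.mod
            (Nat.add
              (Nat.mul
                (Nat.mod
                  (Nat.add (Nat.mul (Nat.mul x x) (Nat.mod (Nat.mul a a) MM))
                    (Nat.mul (Nat.mul z z) (Nat.mod (Nat.mul c c) MM)))
                  MM)
                N11)
              (Nat.mul r (Nat.mod (Nat.mul e e) MM)))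
            MM))
        (Nat.mul (Nat.sub MM 2)
          (Nat.mul
            (Nat.mod
              (Nat.mul (Nat.mod (Nat.mul (Nat.mul x z) (Nat.mod (Nat.mul a c) MM)) MM) (Nat.mod (Nat.mul t r2) MM)) MM)
            (Nat.mul N4 N2))))
      (Nat.mul (Nat.sub MM 2)
        (Nat.mul (Nat.mul N N2)
          (Nat.mod
            (Nat.add
              (Nat.mul (Nat.mod (Nat.mul x (Nat.mod (Nat.mul a e) MM)) MM)
                (Nat.mod
                  (Nat.mul g
                    (Nat.mod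
                      (Nat.add (Nat.add (Nat.mul 16 (Nat.mul g2 g2)) (Nat.mul (Nat.sub MM 20) (Nat.mul g2 rN))) q) MM))
                  MM))
              (Nat.mul (Nat.mod (Nat.mul z (Nat.mod (Nat.mul c e) MM)) MM)
                (Nat.mod
                  (Nat.mul h
                    (Nat.mod
                      (Nat.add (Nat.add (Nat.mul 16 (Nat.mul h2 h2)) (Nat.mul (Nat.sub MM 20) (Nat.mul h2 rN))) q) MM))
                  MM)))
            MM))))
    MM

/-- numerator of `|Z7|^2` -/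
def num7 (N N2 x z r g h a c e t : ℕ) : ℕ :=
  let r2 := Nat.mod (Nat.mul r r) MM;
  let r3 := Nat.mod (Nat.mul r2 r) MM;
  let N4 := Nat.mul N2 N2;
  let N9 := Nat.mul (Nat.mul N4 N4) N;
  let g2 := Nat.mod (Nat.mul g g) MM;
  let h2 := Nat.mod (Nat.mul h h) MM;
  let g4 := Nat.mod (Nat.mul g2 g2) MM;
  let h4 := Nat.mod (Nat.mul h2 h2) MM;
  let rN := Nat.mul r N;
  let q := Nat.mul 56 (Nat.mul r2 N2);
  let s := Nat.mul (Nat.sub MM 7) (Nat.mul r3 (Nat.mul N2 N));
  Nat.mod
    (Nat.add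
      (Nat.add
        (Nat.mul r3
          (Nat.mod
            (Nat.add
              (Nat.mul
                (Nat.mod
                  (Nat.add (Nat.mul (Nat.mul x x) (Nat.mod (Nat.mul a a) MM))
                    (Nat.mul (Nat.mul z z) (Nat.mod (Nat.mul c c) MM)))
                  MM)
                N9)
              (Nat.mul r (Nat.mod (Nat.mul e e) MM)))
            MM))
        (Nat.mul (Nat.sub MM 2)
          (Nat.mul
            (Nat.mod
              (Nat.mul (Nat.mod (Nat.mul (Nat.mul x z) (Nat.mod (Nat.mul a c) MM)) MM) (Nat.mod (Nat.mul t r3) MM)) MM)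
            N2)))
      (Nat.mul (Nat.sub MM 2)
        (Nat.mul N
          (Nat.mod
            (Nat.add
              (Nat.mul (Nat.mod (Nat.mul x (Nat.mod (Nat.mul a e) MM)) MM)
                (Nat.mod
                  (Nat.mul g
                    (Nat.mod
                      (Nat.add
                        (Nat.add (Nat.add (Nat.mul 64 (Nat.mul g4 g2)) (Nat.mul (Nat.sub MM 112) (Nat.mul g4 rN)))
                          (Nat.mul g2 q))
                        s)
                      MM))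
                  MM))
              (Nat.mul (Nat.mod (Nat.mul z (Nat.mod (Nat.mul c e) MM)) MM)
                (Nat.mod
                  (Nat.mul h
                    (Nat.mod
                      (Nat.add
                        (Nat.add (Nat.add (Nat.mul 64 (Nat.mul h4 h2)) (Nat.mul (Nat.sub MM 112) (Nat.mul h4 rN)))
                          (Nat.mul h2 q))
                        s)
                      MM))
                  MM)))
            MM))))
    MM

/-- one Newton step for the square root, rounded up -/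
def nstep (u m : ℕ) : ℕ :=
  Nat.add (Nat.div (Nat.add m (Nat.div u m)) 2) 1

def nst4 (u m : ℕ) : ℕ :=
  nstep u (nstep u (nstep u (nstep u m)))

/-- upper bound for the square root (small arguments) -/
def usq (u : ℕ) : ℕ :=
  nst4 u (nst4 u (nst4 u (nstep u (nstep u 67108864))))

/-- upper bound for the square root (arguments about `2^60`) -/
def usq' (u : ℕ) : ℕ :=
  nst4 u (nstep u (nstep u 1073741824))

/-- the final comparison at a node -/
def fin' (N N2 N3 x z k n5 n7 r e4 e5 P : ℕ) : Bool :=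
  have t :=
    Nat.div
      (Nat.mul (Nat.mul 1152921504606846976 (Nat.mul (Nat.mul x x) (Nat.mul z z)))
        (Nat.mul (Nat.sub (Nat.mul 3 N) (Nat.mul 2 k)) (Nat.add N (Nat.mul 2 k))))
      (Nat.mul 12 (Nat.mul N3 N3));
  Nat.ble
    (Nat.add (Nat.add (Nat.mul 2425 (Nat.mul N2 1073741824)) (Nat.mul 1073741824 P))
      (Nat.mul 5000
        (Nat.mul N2
          (Nat.add
            (usq
              (Nat.add
                (Nat.div (Nat.mul (Nat.mul 1152921504606846976 446582) n5)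
                  (Nat.mul (Nat.mul 40000000000000 (Nat.mul (Nat.mul e5 e5) N3)) (Nat.mul r r)))
                1))
            (usq
              (Nat.add
                (Nat.div (Nat.mul (Nat.mul 1152921504606846976 446582) n7)
                  (Nat.mul (Nat.mul 40000000000000 (Nat.mul e4 e5)) (Nat.mul (Nat.mul r r) r)))
                1))))))
    (Nat.mul 4850 (Nat.mul N2 (Nat.div t (usq' t))))

/-- the check at the node `a = x/N, b = z/N, y = (2k-N)/(2N)`; `P` is
`5000 N^2 pen + 625 E`, where `E/(8N^2)` is the error allowance -/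
def node (N x z k P : ℕ) : Bool :=
  let N2 := Nat.mul N N;
  let N3 := Nat.mul N2 N;
  let w := Nat.mod (Nat.add k (Nat.sub MM (Nat.div N 2))) MM;
  have r :=
    Nat.mod
      (Nat.add (Nat.mul N (Nat.add (Nat.mul x x) (Nat.mul z z)))
        (Nat.mul (Nat.sub MM 2) (Nat.mod (Nat.mul (Nat.mul x z) w) MM)))
      MM;
  let g := Nat.mod (Nat.add (Nat.mul x N) (Nat.mul (Nat.sub MM 1) (Nat.mod (Nat.mul z w) MM))) MM;
  let h := Nat.mod (Nat.add (Nat.mul z N) (Nat.mul (Nat.sub MM 1) (Nat.mod (Nat.mul x w) MM))) MM;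
  let d2 := Nat.mul N2 N2;
  let d3 := Nat.mul d2 N2;
  let d4 := Nat.mul d3 N2;
  let d5 := Nat.mul d4 N2;
  let e2 := Nat.mul N3 N3;
  let e3 := Nat.mul e2 N3;
  let e4 := Nat.mul e3 N3;
  let e5 := Nat.mul e4 N3;
  fin' N N2 N3 x z k
    (num5 N N2 x z r g h (Nat.mod (b5n (Nat.mul x x) N2 d2 d3 d4 d5) MM) (Nat.mod (b5n (Nat.mul z z) N2 d2 d3 d4 d5) MM)
      (Nat.mod (b5n r N3 e2 e3 e4 e5) MM) (t5n w N2))
    (num7 N N2 x z r g h (Nat.mod (b7n (Nat.mul x x) N2 d2 d3 d4) MM) (Nat.mod (b7n (Nat.mul z z) N2 d2 d3 d4) MM)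
      (Nat.mod (b7n r N3 e2 e3 e4) MM) (t7n w N2))
    r e4 e5 P

/-- the exact value `N^3 r` -/
def nodeR (N x z k : ℕ) : ℕ :=
  Nat.mod
    (Nat.add (Nat.mul N (Nat.add (Nat.mul x x) (Nat.mul z z)))
      (Nat.mul (Nat.sub MM 2) (Nat.mod (Nat.mul (Nat.mul x z) (Nat.mod (Nat.add k (Nat.sub MM (Nat.div N 2))) MM)) MM)))
    MM

def nodeN5 (N x z k : ℕ) : ℕ :=
  let N2 := Nat.mul N N;
  let N3 := Nat.mul N2 N;
  let w := Nat.mod (Nat.add k (Nat.sub MM (Nat.div N 2))) MM;
  have r :=
    Nat.mod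
      (Nat.add (Nat.mul N (Nat.add (Nat.mul x x) (Nat.mul z z)))
        (Nat.mul (Nat.sub MM 2) (Nat.mod (Nat.mul (Nat.mul x z) w) MM)))
      MM;
  let g := Nat.mod (Nat.add (Nat.mul x N) (Nat.mul (Nat.sub MM 1) (Nat.mod (Nat.mul z w) MM))) MM;
  let h := Nat.mod (Nat.add (Nat.mul z N) (Nat.mul (Nat.sub MM 1) (Nat.mod (Nat.mul x w) MM))) MM;
  let d2 := Nat.mul N2 N2;
  let d3 := Nat.mul d2 N2;
  let d4 := Nat.mul d3 N2;
  let d5 := Nat.mul d4 N2;
  let e2 := Nat.mul N3 N3;
  let e3 := Nat.mul e2 N3;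
  let e4 := Nat.mul e3 N3;
  let e5 := Nat.mul e4 N3;
  num5 N N2 x z r g h (Nat.mod (b5n (Nat.mul x x) N2 d2 d3 d4 d5) MM) (Nat.mod (b5n (Nat.mul z z) N2 d2 d3 d4 d5) MM)
    (Nat.mod (b5n r N3 e2 e3 e4 e5) MM) (t5n w N2)

def nodeN7 (N x z k : ℕ) : ℕ :=
  let N2 := Nat.mul N N;
  let N3 := Nat.mul N2 N;
  let w := Nat.mod (Nat.add k (Nat.sub MM (Nat.div N 2))) MM;
  have r :=
    Nat.mod
      (Nat.add (Nat.mul N (Nat.add (Nat.mul x x) (Nat.mul z z)))
        (Nat.mul (Nat.sub MM 2) (Nat.mod (Nat.mul (Nat.mul x z) w) MM)))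
      MM;
  let g := Nat.mod (Nat.add (Nat.mul x N) (Nat.mul (Nat.sub MM 1) (Nat.mod (Nat.mul z w) MM))) MM;
  let h := Nat.mod (Nat.add (Nat.mul z N) (Nat.mul (Nat.sub MM 1) (Nat.mod (Nat.mul x w) MM))) MM;
  let d2 := Nat.mul N2 N2;
  let d3 := Nat.mul d2 N2;
  let d4 := Nat.mul d3 N2;
  let e2 := Nat.mul N3 N3;
  let e3 := Nat.mul e2 N3;
  let e4 := Nat.mul e3 N3;
  num7 N N2 x z r g h (Nat.mod (b7n (Nat.mul x x) N2 d2 d3 d4) MM) (Nat.mod (b7n (Nat.mul z z) N2 d2 d3 d4) MM)
    (Nat.mod (b7n r N3 e2 e3 e4) MM) (t7n w N2)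

theorem node_eq (N x z k P : ℕ) : node N x z k P =
    fin' N (N * N) (N * N * N) x z k (nodeN5 N x z k) (nodeN7 N x z k) (nodeR N x z k)
      (N * N * N * (N * N * N) * (N * N * N) * (N * N * N))
      (N * N * N * (N * N * N) * (N * N * N) * (N * N * N) * (N * N * N)) P := rfl

/-- `5000 N^2 pen` in the three zones -/
def pen0 (N : ℕ) : ℕ :=
  Nat.mul 56 (Nat.mul N N)
def pen1 (N k : ℕ) : ℕ :=
  Nat.mul 1000 (Nat.mul N (Nat.sub N k))
def pen2 (N z k : ℕ) : ℕ :=
  Nat.add (Nat.mul 500 (Nat.mul N k)) (Nat.mul 300 (Nat.mul N (Nat.sub z N)))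

/-- one tangent test for the circumradius -/
def far' (N x z k P : ℕ) : Bool :=
  Nat.ble
    (Nat.add
      (Nat.add
        (Nat.add
          (Nat.add (Nat.mul (Nat.mul x z) P) (Nat.mul (Nat.mul 2 (Nat.mul N N)) (Nat.add (Nat.add (Nat.mul 2 k) 1) P)))
          (Nat.mul N (Nat.add (Nat.mul (Nat.add (Nat.mul 2 k) 1) (Nat.add (Nat.mul 2 k) 1)) (Nat.mul N N))))
        (Nat.mul 4 (Nat.mul (Nat.mul N N) N)))
      1)
    (Nat.add
      (Nat.add (Nat.add (Nat.mul N (Nat.add (Nat.mul x x) (Nat.mul z z))) (Nat.mul (Nat.mul x z) N))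
        (Nat.mul (Nat.mul 2 N) (Nat.add (Nat.mul (Nat.add (Nat.mul 2 k) 1) P) (Nat.mul N N))))
      (Nat.mul (Nat.mul 2 (Nat.mul N N)) (Nat.add (Nat.mul 2 k) 1)))

/-- the cell is outside of the domain -/
def skip (N x z k : ℕ) : Bool :=
  or (Nat.ble (Nat.add z 2) x)
    (or
      (and (Nat.ble N (Nat.mul 2 k))
        (Nat.ble (Nat.add (Nat.mul (Nat.add x 1) N) 1) (Nat.mul z (Nat.sub (Nat.mul 2 k) N))))
      (and (far' N x z k (Nat.mul 2 k)) (far' N x z k (Nat.add (Nat.mul 2 k) 2))))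

/-- on the cell the third side has square at most `4.2` -/
def guard' (N x z k : ℕ) : Bool :=
  cond (Nat.ble N (Nat.mul 2 k))
    (Nat.ble
      (Nat.mul 5 (Nat.mul N (Nat.add (Nat.mul (Nat.add x 1) (Nat.add x 1)) (Nat.mul (Nat.add z 1) (Nat.add z 1)))))
      (Nat.add (Nat.mul 21 (Nat.mul (Nat.mul N N) N)) (Nat.mul 5 (Nat.mul (Nat.mul x z) (Nat.sub (Nat.mul 2 k) N)))))
    (Nat.ble
      (Nat.mul 5
        (Nat.add (Nat.mul N (Nat.add (Nat.mul (Nat.add x 1) (Nat.add x 1)) (Nat.mul (Nat.add z 1) (Nat.add z 1))))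
          (Nat.mul (Nat.mul (Nat.add x 1) (Nat.add z 1)) (Nat.sub N (Nat.mul 2 k)))))
      (Nat.mul 21 (Nat.mul (Nat.mul N N) N)))

/-- the eight nodes of a cell in zone 0 -/
def leaf0 (N x z k : ℕ) : Bool :=
  and (node N x z k (Nat.add (pen0 N) 117500))
    (and (node N (Nat.add x 1) z k (Nat.add (pen0 N) 117500))
      (and (node N x (Nat.add z 1) k (Nat.add (pen0 N) 117500))
        (and (node N (Nat.add x 1) (Nat.add z 1) k (Nat.add (pen0 N) 117500))
          (and (node N x z (Nat.add k 1) (Nat.add (pen0 N) 117500))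
            (and (node N (Nat.add x 1) z (Nat.add k 1) (Nat.add (pen0 N) 117500))
              (and (node N x (Nat.add z 1) (Nat.add k 1) (Nat.add (pen0 N) 117500))
                (node N (Nat.add x 1) (Nat.add z 1) (Nat.add k 1) (Nat.add (pen0 N) 117500))))))))

/-- the eight nodes of a cell in zone 1 -/
def leaf1 (N x z k : ℕ) : Bool :=
  and (node N x z k (Nat.add (pen1 N k) 117500))
    (and (node N (Nat.add x 1) z k (Nat.add (pen1 N k) 117500))
      (and (node N x (Nat.add z 1) k (Nat.add (pen1 N k) 117500))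
        (and (node N (Nat.add x 1) (Nat.add z 1) k (Nat.add (pen1 N k) 117500))
          (and (node N x z (Nat.add k 1) (Nat.add (pen1 N (Nat.add k 1)) 117500))
            (and (node N (Nat.add x 1) z (Nat.add k 1) (Nat.add (pen1 N (Nat.add k 1)) 117500))
              (and (node N x (Nat.add z 1) (Nat.add k 1) (Nat.add (pen1 N (Nat.add k 1)) 117500))
                (node N (Nat.add x 1) (Nat.add z 1) (Nat.add k 1) (Nat.add (pen1 N (Nat.add k 1)) 117500))))))))

/-- the eight nodes of a cell in zone 2 -/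
def leaf2 (N x z k : ℕ) : Bool :=
  and (node N x z k (Nat.add (pen2 N z k) 117500))
    (and (node N (Nat.add x 1) z k (Nat.add (pen2 N z k) 117500))
      (and (node N x (Nat.add z 1) k (Nat.add (pen2 N (Nat.add z 1) k) 117500))
        (and (node N (Nat.add x 1) (Nat.add z 1) k (Nat.add (pen2 N (Nat.add z 1) k) 117500))
          (and (node N x z (Nat.add k 1) (Nat.add (pen2 N z (Nat.add k 1)) 117500))
            (and (node N (Nat.add x 1) z (Nat.add k 1) (Nat.add (pen2 N z (Nat.add k 1)) 117500))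
              (and (node N x (Nat.add z 1) (Nat.add k 1) (Nat.add (pen2 N (Nat.add z 1) (Nat.add k 1)) 117500))
                (node N (Nat.add x 1) (Nat.add z 1) (Nat.add k 1)
                  (Nat.add (pen2 N (Nat.add z 1) (Nat.add k 1)) 117500))))))))

/-- the cell at the unit equilateral triangle: `x = z = N`, `k = N - 1` (the node
`(N,N,N)` is not tested; relative error allowance) -/
def leafz1 (N x z k : ℕ) : Bool :=
  and (node N x z k (Nat.add (pen1 N k) 280000))
    (and (node N (Nat.add x 1) z k (Nat.add (pen1 N k) 375000))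
      (and (node N x (Nat.add z 1) k (Nat.add (pen1 N k) 375000))
        (and (node N (Nat.add x 1) (Nat.add z 1) k (Nat.add (pen1 N k) 470000))
          (and (node N (Nat.add x 1) z (Nat.add k 1) (Nat.add (pen1 N (Nat.add k 1)) 95000))
            (and (node N x (Nat.add z 1) (Nat.add k 1) (Nat.add (pen1 N (Nat.add k 1)) 95000))
              (node N (Nat.add x 1) (Nat.add z 1) (Nat.add k 1) (Nat.add (pen1 N (Nat.add k 1)) 190000)))))))

/-- the cell at the triangle with sides `1, 1, √3`: `x = z = N`, `k = 0` -/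
def leafz2 (N x z k : ℕ) : Bool :=
  and (node N (Nat.add x 1) z k (Nat.add (pen2 N z k) 95000))
    (and (node N x (Nat.add z 1) k (Nat.add (pen2 N (Nat.add z 1) k) 95000))
      (and (node N (Nat.add x 1) (Nat.add z 1) k (Nat.add (pen2 N (Nat.add z 1) k) 190000))
        (and (node N x z (Nat.add k 1) (Nat.add (pen2 N z (Nat.add k 1)) 280000))
          (and (node N (Nat.add x 1) z (Nat.add k 1) (Nat.add (pen2 N z (Nat.add k 1)) 375000))
            (and (node N x (Nat.add z 1) (Nat.add k 1) (Nat.add (pen2 N (Nat.add z 1) (Nat.add k 1)) 375000))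
              (node N (Nat.add x 1) (Nat.add z 1) (Nat.add k 1)
                (Nat.add (pen2 N (Nat.add z 1) (Nat.add k 1)) 470000)))))))

/-- a cell on which the inequality is verified at the nodes -/
def leaf (N x z k : ℕ) : Bool :=
  and (guard' N x z k)
    (cond (and (Nat.ble (Nat.mul 15 N) (Nat.mul 16 k)) (Nat.ble (Nat.mul 8 (Nat.add z 1)) (Nat.mul 9 N)))
      (cond (and (Nat.beq x N) (and (Nat.beq z N) (Nat.beq (Nat.add k 1) N))) (leafz1 N x z k) (leaf1 N x z k))
      (cond (Nat.ble (Nat.mul 8 (Nat.add k 1)) N)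
        (cond (and (Nat.beq x N) (and (Nat.beq z N) (Nat.beq k 0))) (leafz2 N x z k) (leaf2 N x z k)) (leaf0 N x z k)))

/-- recursive check of the cell `[x,x+1]/N × [z,z+1]/N × [2k-N,2k+2-N]/(2N)` -/
def chk : ℕ → ℕ → ℕ → ℕ → ℕ → Bool
  | 0, _, _, _, _ => false
  | n + 1, N, x, z, k =>
    or (skip N x z k) (or (leaf N x z k)
      (and (chk n (Nat.mul 2 N) (Nat.mul 2 x) (Nat.mul 2 z) (Nat.mul 2 k))
      (and (chk n (Nat.mul 2 N) (Nat.add (Nat.mul 2 x) 1) (Nat.mul 2 z) (Nat.mul 2 k))
      (and (chk n (Nat.mul 2 N) (Nat.mul 2 x) (Nat.add (Nat.mul 2 z) 1) (Nat.mul 2 k))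
      (and (chk n (Nat.mul 2 N) (Nat.add (Nat.mul 2 x) 1) (Nat.add (Nat.mul 2 z) 1) (Nat.mul 2 k))
      (and (chk n (Nat.mul 2 N) (Nat.mul 2 x) (Nat.mul 2 z) (Nat.add (Nat.mul 2 k) 1))
      (and (chk n (Nat.mul 2 N) (Nat.add (Nat.mul 2 x) 1) (Nat.mul 2 z) (Nat.add (Nat.mul 2 k) 1))
      (and (chk n (Nat.mul 2 N) (Nat.mul 2 x) (Nat.add (Nat.mul 2 z) 1) (Nat.add (Nat.mul 2 k) 1))
        (chk n (Nat.mul 2 N) (Nat.add (Nat.mul 2 x) 1) (Nat.add (Nat.mul 2 z) 1)
          (Nat.add (Nat.mul 2 k) 1))))))))))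

end Pool.Agent.LG
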