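import Pool.Agent.Lib.MP_8026b0_co.Basic
import Pool.Agent.Lib.MP_8026b0_co.KDef

set_option autoImplicit false

/-! Real functions of the calibration. -/

namespace Pool.Agent.LG

open Complex

noncomputable section

/-- the calibration constant -/
def cc : ℝ := (3 - Real.sqrt 3) / 6

/-- `t = p - 3`; `B5 1 = 1/4`, `B5 3 = -1/4` -/
def B5 (p : ℝ) : ℝ :=
  (-500 + 248 * (p - 3) + 990 * (p - 3) ^ 2 + 188 * (p - 3) ^ 3 - 270 * (p - 3) ^ 4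
    - 105 * (p - 3) ^ 5) / 2000

/-- rational approximation of `B7`; `B7r 1 = -1/4`, `B7r 3 = 1/4` -/
def B7r (p : ℝ) : ℝ :=
  (500 + 700 * (p - 3) - 540 * (p - 3) ^ 2 - 184 * (p - 3) ^ 3 + 68 * (p - 3) ^ 4) / 2000

/-- `0 < eps0 < 1/1000` -/
def eps0 : ℝ := 137 / 1000 - (5 - Real.sqrt 3) / 24

def B7 (p : ℝ) : ℝ := B7r p + eps0 * (p - 1) * (p - 3)

def Psi5 (v : ℂ) : ℂ := ((B5 (normSq v) / (normSq v) ^ 2 : ℝ) : ℂ) * v ^ 5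

def Psi7r (v : ℂ) : ℂ := ((B7r (normSq v) / (normSq v) ^ 3 : ℝ) : ℂ) * v ^ 7

def Psi7 (v : ℂ) : ℂ := ((B7 (normSq v) / (normSq v) ^ 3 : ℝ) : ℂ) * v ^ 7

/-- sum over the triangle with edge vectors `a e^{iβ}`, `b e^{-iβ}` and minus their sum -/
def Z5 (a b β : ℝ) : ℂ :=
  Psi5 ((a : ℂ) * exp ((β : ℂ) * I)) + Psi5 ((b : ℂ) * exp (-(β : ℂ) * I))
    - Psi5 ((a : ℂ) * exp ((β : ℂ) * I) + (b : ℂ) * exp (-(β : ℂ) * I))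

def Z7r (a b β : ℝ) : ℂ :=
  Psi7r ((a : ℂ) * exp ((β : ℂ) * I)) + Psi7r ((b : ℂ) * exp (-(β : ℂ) * I))
    - Psi7r ((a : ℂ) * exp ((β : ℂ) * I) + (b : ℂ) * exp (-(β : ℂ) * I))

/-- square of the third side -/
def rr (a b y : ℝ) : ℝ := a ^ 2 + b ^ 2 - 2 * a * b * y

def Q5 (a b y : ℝ) : ℝ :=
  a ^ 2 * B5 (a ^ 2) ^ 2 + b ^ 2 * B5 (b ^ 2) ^ 2 + rr a b y * B5 (rr a b y) ^ 2
    - 2 * a * b * B5 (a ^ 2) * B5 (b ^ 2) * (16 * y ^ 5 - 20 * y ^ 3 + 5 * y)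
    - 2 * a * B5 (a ^ 2) * B5 (rr a b y) * (a - b * y)
        * (16 * (a - b * y) ^ 4 - 20 * (a - b * y) ^ 2 * rr a b y + 5 * rr a b y ^ 2)
        / rr a b y ^ 2
    - 2 * b * B5 (b ^ 2) * B5 (rr a b y) * (b - a * y)
        * (16 * (b - a * y) ^ 4 - 20 * (b - a * y) ^ 2 * rr a b y + 5 * rr a b y ^ 2)
        / rr a b y ^ 2

def Q7 (a b y : ℝ) : ℝ :=
  a ^ 2 * B7r (a ^ 2) ^ 2 + b ^ 2 * B7r (b ^ 2) ^ 2 + rr a b y * B7r (rr a b y) ^ 2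
    - 2 * a * b * B7r (a ^ 2) * B7r (b ^ 2) * (64 * y ^ 7 - 112 * y ^ 5 + 56 * y ^ 3 - 7 * y)
    - 2 * a * B7r (a ^ 2) * B7r (rr a b y) * (a - b * y)
        * (64 * (a - b * y) ^ 6 - 112 * (a - b * y) ^ 4 * rr a b y
            + 56 * (a - b * y) ^ 2 * rr a b y ^ 2 - 7 * rr a b y ^ 3)
        / rr a b y ^ 3
    - 2 * b * B7r (b ^ 2) * B7r (rr a b y) * (b - a * y)
        * (64 * (b - a * y) ^ 6 - 112 * (b - a * y) ^ 4 * rr a b y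
            + 56 * (b - a * y) ^ 2 * rr a b y ^ 2 - 7 * rr a b y ^ 3)
        / rr a b y ^ 3

/-- the penalty: `b` middle side, `y` cosine of the largest angle -/
def pen (b y : ℝ) : ℝ :=
  min (7 / 625) (min ((1 / 2 + y) / 10 + 6 / 100 * (b - 1))
    (if b ≤ 23 / 20 then (1 / 2 - y) / 5 else 7 / 625))

/-- the triangle inequality in the coordinates `(a, b, β)`, `y = - cos 2β` -/
def TriIneq (a b β : ℝ) : Prop :=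
  cc * (‖Z5 a b β‖ + ‖Z7r a b β‖) + pen b (- Real.cos (2 * β))
    ≤ 97 / 100 * (a * b * Real.sin (2 * β) / Real.sqrt 3 - 1 / 2)

/-- twice differentiable on `s` with second derivative bounded by `K` -/
def D2 (f : ℝ → ℂ) (s : Set ℝ) (K : ℝ) : Prop :=
  ∃ f1 f2 : ℝ → ℂ, (∀ t ∈ s, HasDerivAt f (f1 t) t) ∧ (∀ t ∈ s, HasDerivAt f1 (f2 t) t) ∧
    ∀ t ∈ s, ‖f2 t‖ ≤ K

/-- derivatives of `B5`, `B7r` -/
def B5d (p : ℝ) : ℝ :=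
  (248 + 1980 * (p - 3) + 564 * (p - 3) ^ 2 - 1080 * (p - 3) ^ 3 - 525 * (p - 3) ^ 4) / 2000
def B5dd (p : ℝ) : ℝ :=
  (1980 + 1128 * (p - 3) - 3240 * (p - 3) ^ 2 - 2100 * (p - 3) ^ 3) / 2000
def B7d (p : ℝ) : ℝ :=
  (700 - 1080 * (p - 3) - 552 * (p - 3) ^ 2 + 272 * (p - 3) ^ 3) / 2000
def B7dd (p : ℝ) : ℝ :=
  (-1080 - 1104 * (p - 3) + 816 * (p - 3) ^ 2) / 2000

end

end Pool.Agent.LG
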