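import Mathlib

set_option autoImplicit false

/-! Row N01: products close to `n` with prescribed ratio. -/

namespace Pool.Agent.LG

/-- coprime `u, v` with `v / u` close to `t` and `u v` large -/
private theorem n01_uv {t ε M : ℝ} (ht : 0 < t) (hε : 0 < ε) :
    ∃ u v : ℕ, 0 < u ∧ 0 < v ∧ Nat.Coprime u v ∧ |(v : ℝ) / u - t| < ε ∧ M ≤ (u : ℝ) * v := by
  obtain ⟨N, hN⟩ := exists_nat_ge (max (max (1 / t) (1 / ε)) M)
  obtain ⟨p, hpN, hp⟩ := Nat.exists_infinite_primes (N + 2)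
  have hpR : (N : ℝ) + 2 ≤ p := by exact_mod_cast hpN
  have h1 : 1 / t ≤ N := ((le_max_left _ _).trans (le_max_left _ _)).trans hN
  have h2 : 1 / ε ≤ N := ((le_max_right _ _).trans (le_max_left _ _)).trans hN
  have h3 : M ≤ N := (le_max_right _ _).trans hN
  have hp0 : (0 : ℝ) < p := by
    have : (0 : ℝ) ≤ N := Nat.cast_nonneg N
    linarith
  have htp : 1 ≤ t * p := by
    have h4 : 1 / t ≤ p := by linarith
    rw [div_le_iff₀ ht] at h4
    linarith
  have hεp : 1 < ε * p := by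
    have h4 : 1 / ε < p := by linarith
    rw [div_lt_iff₀ hε] at h4
    linarith
  set f : ℕ := ⌊t * p⌋₊ with hf
  have hf1 : 1 ≤ f := Nat.le_floor (by exact_mod_cast htp)
  have hf2 : (f : ℝ) ≤ t * p := Nat.floor_le (by positivity)
  have hf3 : t * p < f + 1 := Nat.lt_floor_add_one _
  have hex : ∃ v : ℕ, (v = f ∨ v = f + 1) ∧ ¬ p ∣ v := by
    by_cases h : p ∣ f
    · refine ⟨f + 1, Or.inr rfl, fun h' => ?_⟩
      have h4 : p ∣ 1 := (Nat.dvd_add_right h).1 h'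
      exact hp.one_lt.ne' (Nat.dvd_one.1 h4)
    · exact ⟨f, Or.inl rfl, h⟩
  obtain ⟨v, hv, hpv⟩ := hex
  have hv1 : 1 ≤ v := by rcases hv with rfl | rfl <;> omega
  have hvR : |(v : ℝ) - t * p| ≤ 1 := by
    rcases hv with h | h
    · rw [h, abs_le]; constructor <;> linarith
    · rw [h, abs_le]; push_cast; constructor <;> linarith
  refine ⟨p, v, hp.pos, hv1, (Nat.Prime.coprime_iff_not_dvd hp).2 hpv, ?_, ?_⟩
  · have h5 : (v : ℝ) / p - t = ((v : ℝ) - t * p) / p := by field_simp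
    rw [h5, abs_div, abs_of_pos hp0, div_lt_iff₀ hp0]
    linarith
  · have h6 : (1 : ℝ) ≤ v := by exact_mod_cast hv1
    have h7 : (p : ℝ) * 1 ≤ p * v := mul_le_mul_of_nonneg_left h6 hp0.le
    linarith

/-- the integer construction -/
private theorem n01_int (u v : ℕ) (hu : 0 < u) (hv : 0 < v) (huv : Nat.Coprime u v) :
    ∃ S0 E C : ℕ, ∀ n : ℕ, u * v * S0 ^ 2 ≤ n → ∃ (k m s : ℕ), 0 < k ∧ 0 < m ∧
      n ≤ k * m ∧ k * m ≤ n + s + 2 * E ∧ u * v * s ^ 2 ≤ n ∧ n < u * v * (s + 1) ^ 2 ∧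
      |(k : ℝ) - v * s| ≤ C ∧ |(m : ℝ) - u * s| ≤ C := by
  obtain ⟨a, b, hab⟩ := Nat.isCoprime_iff_coprime.2 huv
  set Q : ℕ := u * v with hQ
  have hQpos : 0 < Q := Nat.mul_pos hu hv
  set W : ℕ := 2 * Q + 2 with hW
  set E : ℕ := (a * b).natAbs * W ^ 2 with hE
  set C : ℕ := (a.natAbs + b.natAbs) * W with hC
  refine ⟨Q + E + C + 1, E, C, ?_⟩
  intro n hn
  set s : ℕ := Nat.sqrt (n / Q) with hs
  have hsS : Q + E + C + 1 ≤ s := by
    rw [hs, Nat.le_sqrt', Nat.le_div_iff_mul_le hQpos]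
    calc (Q + E + C + 1) ^ 2 * Q = Q * (Q + E + C + 1) ^ 2 := by ring
      _ ≤ n := hn
  have hs1 : s ^ 2 ≤ n / Q := Nat.sqrt_le' _
  have hs2 : n / Q < (s + 1) ^ 2 := Nat.lt_succ_sqrt' _
  have hQs : Q * s ^ 2 ≤ n := by
    calc Q * s ^ 2 ≤ Q * (n / Q) := Nat.mul_le_mul_left _ hs1
      _ ≤ n := Nat.mul_div_le n Q
  have hQs' : n < Q * (s + 1) ^ 2 := by
    rw [Nat.div_lt_iff_lt_mul hQpos] at hs2
    calc n < (s + 1) ^ 2 * Q := hs2
      _ = Q * (s + 1) ^ 2 := by ring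
  obtain ⟨r, hr⟩ := Nat.exists_eq_add_of_le hQs
  have hrlt : r < 2 * Q * s + Q := by
    have h1 : Q * (s + 1) ^ 2 = Q * s ^ 2 + (2 * Q * s + Q) := by ring
    omega
  have hspos : 0 < s := by omega
  set w : ℕ := (r + E) / s + 1 with hw
  have hw1 : r + E < s * w := Nat.lt_mul_div_succ _ hspos
  have hw2 : s * w ≤ r + E + s := by
    rw [hw, Nat.mul_add, Nat.mul_one]
    exact Nat.add_le_add_right (Nat.mul_div_le _ _) _
  have hwW : w ≤ W := by
    have h1 : (r + E) / s < 2 * Q + 1 := by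
      rw [Nat.div_lt_iff_lt_mul hspos]
      calc r + E < 2 * Q * s + Q + E := by omega
        _ ≤ 2 * Q * s + s := by omega
        _ = (2 * Q + 1) * s := by ring
    omega
  have hawC : (a * w).natAbs ≤ C := by
    rw [Int.natAbs_mul, Int.natAbs_natCast, hC]
    calc a.natAbs * w ≤ (a.natAbs + b.natAbs) * w :=
          Nat.mul_le_mul_right _ (Nat.le_add_right _ _)
      _ ≤ (a.natAbs + b.natAbs) * W := Nat.mul_le_mul_left _ hwW
  have hbwC : (b * w).natAbs ≤ C := by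
    rw [Int.natAbs_mul, Int.natAbs_natCast, hC]
    calc b.natAbs * w ≤ (a.natAbs + b.natAbs) * w :=
          Nat.mul_le_mul_right _ (Nat.le_add_left _ _)
      _ ≤ (a.natAbs + b.natAbs) * W := Nat.mul_le_mul_left _ hwW
  have habE : (a * b * w ^ 2).natAbs ≤ E := by
    rw [Int.natAbs_mul, Int.natAbs_pow, Int.natAbs_natCast, hE]
    exact Nat.mul_le_mul_left _ (Nat.pow_le_pow_left hwW 2)
  have hvs : s ≤ v * s := Nat.le_mul_of_pos_left s hv
  have hus : s ≤ u * s := Nat.le_mul_of_pos_left s hu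
  have haw := Int.le_natAbs (a := -(a * w))
  have haw' := Int.le_natAbs (a := a * w)
  have hbw := Int.le_natAbs (a := -(b * w))
  have hbw' := Int.le_natAbs (a := b * w)
  have habw := Int.le_natAbs (a := -(a * b * w ^ 2))
  have habw' := Int.le_natAbs (a := a * b * w ^ 2)
  rw [Int.natAbs_neg] at haw hbw habw
  have hvsZ : (s : ℤ) ≤ v * s := by exact_mod_cast hvs
  have husZ : (s : ℤ) ≤ u * s := by exact_mod_cast hus
  have hCs : (C : ℤ) < s := by
    have : C < s := by omega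
    exact_mod_cast this
  have hawCZ : ((a * w).natAbs : ℤ) ≤ C := by exact_mod_cast hawC
  have hbwCZ : ((b * w).natAbs : ℤ) ≤ C := by exact_mod_cast hbwC
  have habEZ : ((a * b * w ^ 2).natAbs : ℤ) ≤ E := by exact_mod_cast habE
  have hk : 0 < (v : ℤ) * s + a * w := by linarith
  have hm : 0 < (u : ℤ) * s + b * w := by linarith
  have hprod : ((v : ℤ) * s + a * w) * ((u : ℤ) * s + b * w) = Q * s ^ 2 + s * w + a * b * w ^ 2 := by
    rw [hQ]
    push_cast
    linear_combination (s : ℤ) * w * hab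
  obtain ⟨k, hk'⟩ := Int.eq_ofNat_of_zero_le hk.le
  obtain ⟨m, hm'⟩ := Int.eq_ofNat_of_zero_le hm.le
  rw [hk'] at hk hprod
  rw [hm'] at hm hprod
  have hnZ : (n : ℤ) = Q * s ^ 2 + r := by exact_mod_cast hr
  have hw1Z : (r : ℤ) + E < s * w := by exact_mod_cast hw1
  have hw2Z : (s : ℤ) * w ≤ r + E + s := by exact_mod_cast hw2
  refine ⟨k, m, s, by exact_mod_cast hk, by exact_mod_cast hm, ?_, ?_, hQs, hQs', ?_, ?_⟩
  · have h1 : (n : ℤ) ≤ k * m := by
      have : (k : ℤ) * m = Q * s ^ 2 + s * w + a * b * w ^ 2 := hprod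
      linarith
    exact_mod_cast h1
  · have h1 : (k : ℤ) * m ≤ n + s + 2 * E := by
      have : (k : ℤ) * m = Q * s ^ 2 + s * w + a * b * w ^ 2 := hprod
      linarith
    exact_mod_cast h1
  · have h1 : ((v : ℝ) * s + a * w) = k := by exact_mod_cast hk'
    have h2 : (k : ℝ) - v * s = ((a * w : ℤ) : ℝ) := by push_cast; linarith
    rw [h2, ← Int.cast_abs, Int.abs_eq_natAbs]
    exact_mod_cast hawC
  · have h1 : ((u : ℝ) * s + b * w) = m := by exact_mod_cast hm'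
    have h2 : (m : ℝ) - u * s = ((b * w : ℤ) : ℝ) := by push_cast; linarith
    rw [h2, ← Int.cast_abs, Int.abs_eq_natAbs]
    exact_mod_cast hbwC

theorem exists_product {t δ : ℝ} (ht : 0 < t) (hδ : 0 < δ) :
    ∃ n0 : ℕ, ∀ n : ℕ, n0 ≤ n → ∃ k m : ℕ, 0 < k ∧ 0 < m ∧ n ≤ k * m ∧
      ((k * m : ℕ) : ℝ) ≤ n + δ * Real.sqrt n ∧
      |(k : ℝ) - Real.sqrt (t * n)| ≤ δ * Real.sqrt n ∧
      |(m : ℝ) - Real.sqrt (n / t)| ≤ δ * Real.sqrt n := by
  -- continuity of the square roots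
  have hc1 : ContinuousAt (fun x : ℝ => Real.sqrt x) t := Real.continuous_sqrt.continuousAt
  have hc2 : ContinuousAt (fun x : ℝ => Real.sqrt (1 / x)) t :=
    Real.continuous_sqrt.continuousAt.comp (continuousAt_const.div continuousAt_id ht.ne')
  obtain ⟨ε1, hε1, h1⟩ := Metric.continuousAt_iff.1 hc1 (δ / 2) (by positivity)
  obtain ⟨ε2, hε2, h2⟩ := Metric.continuousAt_iff.1 hc2 (δ / 2) (by positivity)
  obtain ⟨u, v, hu, hv, huv, hclose, hbig⟩ :=
    n01_uv (M := (4 / δ) ^ 2) ht (lt_min hε1 hε2)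
  have hd1 := h1 (x := (v : ℝ) / u) (by
    rw [Real.dist_eq]; exact lt_of_lt_of_le hclose (min_le_left _ _))
  have hd2 := h2 (x := (v : ℝ) / u) (by
    rw [Real.dist_eq]; exact lt_of_lt_of_le hclose (min_le_right _ _))
  rw [Real.dist_eq] at hd1 hd2
  obtain ⟨S0, E, C, hmain⟩ := n01_int u v hu hv huv
  obtain ⟨N1, hN1⟩ := exists_nat_ge (max (8 * E / δ) (2 * (u + v + C) / δ))
  refine ⟨u * v * S0 ^ 2 + N1 ^ 2, ?_⟩
  intro n hn
  obtain ⟨k, m, s, hk, hm, hkm1, hkm2, hs1, hs2, hks, hms⟩ := hmain n (by omega)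
  have hsq : (N1 : ℝ) ≤ Real.sqrt n := by
    apply Real.le_sqrt_of_sq_le
    have : N1 ^ 2 ≤ n := by omega
    exact_mod_cast this
  have hsqE : 8 * E / δ ≤ Real.sqrt n := ((le_max_left _ _).trans hN1).trans hsq
  have hsqC : 2 * (u + v + C) / δ ≤ Real.sqrt n := ((le_max_right _ _).trans hN1).trans hsq
  rw [div_le_iff₀ hδ] at hsqE hsqC
  have huR : (0 : ℝ) < u := by exact_mod_cast hu
  have hvR : (0 : ℝ) < v := by exact_mod_cast hv
  have hn0 : (0 : ℝ) ≤ n := Nat.cast_nonneg n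
  set y : ℝ := Real.sqrt (n / (u * v)) with hy
  have hs1R : (u : ℝ) * v * s ^ 2 ≤ n := by exact_mod_cast hs1
  have hs2R : (n : ℝ) < u * v * (s + 1) ^ 2 := by exact_mod_cast hs2
  have hys1 : (s : ℝ) ≤ y := by
    apply Real.le_sqrt_of_sq_le
    rw [le_div_iff₀ (by positivity)]
    linarith
  have hys2 : y ≤ s + 1 := by
    rw [hy, Real.sqrt_le_left (by positivity)]
    rw [div_le_iff₀ (by positivity)]
    linarith
  have hyn : y * Real.sqrt (u * v) = Real.sqrt n := by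
    rw [hy, ← Real.sqrt_mul (by positivity)]
    congr 1
    field_simp
  have hQbig : 4 / δ ≤ Real.sqrt (u * v) := Real.le_sqrt_of_sq_le hbig
  have hy0 : 0 ≤ y := Real.sqrt_nonneg _
  have hsδ : (s : ℝ) ≤ δ / 4 * Real.sqrt n := by
    have h3 : y * (4 / δ) ≤ Real.sqrt n := by
      rw [← hyn]
      exact mul_le_mul_of_nonneg_left hQbig hy0
    have h4 : y ≤ δ / 4 * Real.sqrt n := by
      calc y = δ / 4 * (y * (4 / δ)) := by field_simp
        _ ≤ δ / 4 * Real.sqrt n := mul_le_mul_of_nonneg_left h3 (by positivity)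
    linarith
  have hvy : (v : ℝ) * y = Real.sqrt (v / u) * Real.sqrt n := by
    rw [hy, ← Real.sqrt_mul (by positivity)]
    nth_rewrite 1 [← Real.sqrt_sq hvR.le]
    rw [← Real.sqrt_mul (by positivity)]
    congr 1
    field_simp
  have huy : (u : ℝ) * y = Real.sqrt (1 / (v / u)) * Real.sqrt n := by
    rw [hy, ← Real.sqrt_mul (by positivity)]
    nth_rewrite 1 [← Real.sqrt_sq huR.le]
    rw [← Real.sqrt_mul (by positivity)]
    congr 1
    field_simp
  have hsn : 0 ≤ Real.sqrt n := Real.sqrt_nonneg _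
  refine ⟨k, m, hk, hm, hkm1, ?_, ?_, ?_⟩
  · have h3 : ((k * m : ℕ) : ℝ) ≤ n + s + 2 * E := by exact_mod_cast hkm2
    linarith
  · have h3 : Real.sqrt (t * n) = Real.sqrt t * Real.sqrt n := Real.sqrt_mul ht.le _
    have h4 : |(v : ℝ) * y - Real.sqrt (t * n)| ≤ δ / 2 * Real.sqrt n := by
      rw [h3, hvy, ← sub_mul, abs_mul, abs_of_nonneg hsn]
      exact mul_le_mul_of_nonneg_right hd1.le hsn
    have h5 : |(v : ℝ) * s - v * y| ≤ v := by
      rw [← mul_sub, abs_mul, abs_of_pos hvR]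
      have h6 : |(s : ℝ) - y| ≤ 1 := by rw [abs_le]; constructor <;> linarith
      calc (v : ℝ) * |(s : ℝ) - y| ≤ v * 1 := mul_le_mul_of_nonneg_left h6 hvR.le
        _ = v := mul_one _
    have h7 : (k : ℝ) - Real.sqrt (t * n) =
        ((k : ℝ) - v * s) + (((v : ℝ) * s - v * y) + (v * y - Real.sqrt (t * n))) := by ring
    rw [h7]
    refine (abs_add_le _ _).trans ?_
    have h8 := abs_add_le ((v : ℝ) * s - v * y) (v * y - Real.sqrt (t * n))
    linarith
  · have h3 : Real.sqrt (n / t) = Real.sqrt (1 / t) * Real.sqrt n := by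
      rw [← Real.sqrt_mul (by positivity)]
      congr 1
      ring
    have h4 : |(u : ℝ) * y - Real.sqrt (n / t)| ≤ δ / 2 * Real.sqrt n := by
      rw [h3, huy, ← sub_mul, abs_mul, abs_of_nonneg hsn]
      exact mul_le_mul_of_nonneg_right hd2.le hsn
    have h5 : |(u : ℝ) * s - u * y| ≤ u := by
      rw [← mul_sub, abs_mul, abs_of_pos huR]
      have h6 : |(s : ℝ) - y| ≤ 1 := by rw [abs_le]; constructor <;> linarith
      calc (u : ℝ) * |(s : ℝ) - y| ≤ u * 1 := mul_le_mul_of_nonneg_left h6 huR.le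
        _ = u := mul_one _
    have h7 : (m : ℝ) - Real.sqrt (n / t) =
        ((m : ℝ) - u * s) + (((u : ℝ) * s - u * y) + (u * y - Real.sqrt (n / t))) := by ring
    rw [h7]
    refine (abs_add_le _ _).trans ?_
    have h8 := abs_add_le ((u : ℝ) * s - u * y) (u * y - Real.sqrt (n / t))
    linarith

end Pool.Agent.LG
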