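import Mathlib

set_option autoImplicit false

/-! Row N02: the hexagonal packing. -/

namespace Pool.Agent.LG

/-- the rectangle with sides `a`, `b` holds `n` unit discs (form of the frozen statement) -/
def Holds (n : ℕ) (a b : ℝ) : Prop :=
  ∃ x y : Fin n → ℝ, (∀ i, 1 ≤ x i ∧ x i ≤ a - 1 ∧ 1 ≤ y i ∧ y i ≤ b - 1) ∧
    ∀ i j, i ≠ j → 4 ≤ (x i - x j) ^ 2 + (y i - y j) ^ 2

namespace N02

theorem int_key (r r' c c' : ℤ) (h : r ≠ r' ∨ c ≠ c') :
    4 ≤ 3 * (r - r') ^ 2 + (2 * (c - c') + (r % 2 - r' % 2)) ^ 2 := by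
  by_cases hr : r = r'
  · subst hr
    have hc : c ≠ c' := by
      rcases h with h | h
      · exact absurd rfl h
      · exact h
    have h1 : (c - c') ≠ 0 := sub_ne_zero.mpr hc
    have h2 : 1 ≤ (c - c') ^ 2 := by
      have := sq_pos_of_ne_zero h1 (a := c - c')
      linarith
    nlinarith
  · have h1 : r - r' ≠ 0 := sub_ne_zero.mpr hr
    have h2 : 1 ≤ (r - r') ^ 2 := by
      have := sq_pos_of_ne_zero h1 (a := r - r')
      linarith
    by_cases h3 : 2 ≤ |r - r'|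
    · have h4 : 4 ≤ (r - r') ^ 2 := by
        rw [← sq_abs]; nlinarith
      nlinarith [sq_nonneg (2 * (c - c') + (r % 2 - r' % 2))]
    · have h5 : |r - r'| = 1 := by
        have := abs_pos.mpr h1
        omega
      have h6 : 2 * (c - c') + (r % 2 - r' % 2) ≠ 0 := by
        rcases (abs_eq (by norm_num : (0 : ℤ) ≤ 1)).mp h5 with h7 | h7 <;> omega
      have h7 : 1 ≤ (2 * (c - c') + (r % 2 - r' % 2)) ^ 2 := by
        have := sq_pos_of_ne_zero h6 (a := 2 * (c - c') + (r % 2 - r' % 2))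
        linarith
      linarith

end N02

theorem hex_holds {k m n : ℕ} (hk : 0 < k) (hm : 0 < m) (hn : n ≤ k * m) :
    Holds n (Real.sqrt 3 * ((k : ℝ) - 1) + 2) (2 * (m : ℝ) + 1) := by
  have hs : 0 ≤ Real.sqrt 3 := Real.sqrt_nonneg 3
  have hs3 : Real.sqrt 3 ^ 2 = 3 := Real.sq_sqrt (by norm_num)
  refine ⟨fun i => 1 + Real.sqrt 3 * ((i.val / m : ℕ) : ℝ),
    fun i => 1 + 2 * ((i.val % m : ℕ) : ℝ) + (((i.val / m) % 2 : ℕ) : ℝ), ?_, ?_⟩
  · intro i
    have hi : i.val < k * m := lt_of_lt_of_le i.isLt hn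
    have hr : i.val / m + 1 ≤ k := by
      have : i.val / m < k := by rw [Nat.div_lt_iff_lt_mul hm]; exact hi
      omega
    have hc : i.val % m + 1 ≤ m := Nat.mod_lt _ hm
    have hp : (i.val / m) % 2 ≤ 1 := by omega
    have hr' : ((i.val / m : ℕ) : ℝ) + 1 ≤ k := by exact_mod_cast hr
    have hc' : ((i.val % m : ℕ) : ℝ) + 1 ≤ m := by exact_mod_cast hc
    have hp' : (((i.val / m) % 2 : ℕ) : ℝ) ≤ 1 := by exact_mod_cast hp
    have h0 : (0 : ℝ) ≤ ((i.val / m : ℕ) : ℝ) := Nat.cast_nonneg _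
    have h1 : (0 : ℝ) ≤ ((i.val % m : ℕ) : ℝ) := Nat.cast_nonneg _
    have h2 : (0 : ℝ) ≤ (((i.val / m) % 2 : ℕ) : ℝ) := Nat.cast_nonneg _
    refine ⟨?_, ?_, ?_, ?_⟩
    · have := mul_nonneg hs h0
      linarith
    · have : Real.sqrt 3 * ((i.val / m : ℕ) : ℝ) ≤ Real.sqrt 3 * ((k : ℝ) - 1) :=
        mul_le_mul_of_nonneg_left (by linarith) hs
      linarith
    · linarith
    · linarith
  · intro i j hij
    have hne : (((i.val / m : ℕ) : ℤ) ≠ ((j.val / m : ℕ) : ℤ)) ∨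
        (((i.val % m : ℕ) : ℤ) ≠ ((j.val % m : ℕ) : ℤ)) := by
      by_contra hcon
      push Not at hcon
      apply hij
      apply Fin.ext
      have h1 : i.val / m = j.val / m := by exact_mod_cast hcon.1
      have h2 : i.val % m = j.val % m := by exact_mod_cast hcon.2
      rw [← Nat.div_add_mod i.val m, ← Nat.div_add_mod j.val m, h1, h2]
    have key := N02.int_key _ _ _ _ hne
    have key' : (4 : ℝ) ≤ 3 * (((i.val / m : ℕ) : ℝ) - ((j.val / m : ℕ) : ℝ)) ^ 2 +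
        (2 * (((i.val % m : ℕ) : ℝ) - ((j.val % m : ℕ) : ℝ)) +
          ((((i.val / m) % 2 : ℕ) : ℝ) - (((j.val / m) % 2 : ℕ) : ℝ))) ^ 2 := by
      exact_mod_cast key
    have e1 : (1 + Real.sqrt 3 * ((i.val / m : ℕ) : ℝ) - (1 + Real.sqrt 3 * ((j.val / m : ℕ) : ℝ))) ^ 2
        = 3 * (((i.val / m : ℕ) : ℝ) - ((j.val / m : ℕ) : ℝ)) ^ 2 := by
      calc _ = Real.sqrt 3 ^ 2 * (((i.val / m : ℕ) : ℝ) - ((j.val / m : ℕ) : ℝ)) ^ 2 := by ring
        _ = _ := by rw [hs3]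
    simp only
    rw [e1]
    refine key'.trans (le_of_eq ?_)
    ring

end Pool.Agent.LG
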