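import Pool.Agent.Lib.MP_8026b0_co.N01
import Pool.Agent.Lib.MP_8026b0_co.N03

set_option autoImplicit false

/-! Row N04: the deduction of the frozen statement from the two inequalities. -/

namespace Pool.Agent.LG

namespace N04

theorem r_facts : ∃ r : ℝ, r = Real.sqrt 3 ∧ r ^ 2 = 3 ∧ 1.73 < r ∧ r < 1.7325 := by
  refine ⟨Real.sqrt 3, rfl, Real.sq_sqrt (by norm_num), ?_, ?_⟩
  · exact Real.lt_sqrt_of_sq_lt (by norm_num)
  · rw [Real.sqrt_lt' (by norm_num)]
    norm_num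

/-- the area of the hexagonal example -/
theorem upper {D : ℝ} (hD : 0 < D) (hD1 : D ≤ 1) :
    ∃ n0 : ℕ, ∀ n : ℕ, n0 ≤ n → ∃ a' b' : ℝ, Holds n a' b' ∧
      a' * b' ≤ 2 * Real.sqrt 3 * n +
        2 * (Real.sqrt (2 * Real.sqrt 3) * Real.sqrt (2 - Real.sqrt 3)) * Real.sqrt n
        + 6 * D * Real.sqrt n + 1 := by
  obtain ⟨r, hr, r2, r3, r4⟩ := r_facts
  rw [← hr]
  set s : ℝ := 2 - r with hs
  have hs0 : 0 < s := by rw [hs]; linarith
  have hr0 : 0 < r := by linarith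
  obtain ⟨n0, hn0⟩ := exists_product (t := 2 * s / r) (δ := D) (by positivity) hD
  refine ⟨n0, fun n hn => ?_⟩
  obtain ⟨k, m, hk, hm, h1, h2, h3, h4⟩ := hn0 n hn
  refine ⟨_, _, hex_holds hk hm h1, ?_⟩
  rw [← hr]
  set S := Real.sqrt n with hS
  have hS0 : 0 ≤ S := Real.sqrt_nonneg _
  have hS2 : S ^ 2 = n := Real.sq_sqrt (Nat.cast_nonneg n)
  set ρ := Real.sqrt (2 * r) with hρ
  set σ := Real.sqrt s with hσ
  have hρ2 : ρ ^ 2 = 2 * r := Real.sq_sqrt (by positivity)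
  have hσ2 : σ ^ 2 = s := Real.sq_sqrt hs0.le
  have hρ0 : 0 ≤ ρ := Real.sqrt_nonneg _
  have hσ0 : 0 ≤ σ := Real.sqrt_nonneg _
  have e1 : r * Real.sqrt (2 * s / r * n) = ρ * σ * S := by
    have hn' : (0 : ℝ) ≤ 2 * s / r * n := by positivity
    refine (sq_eq_sq₀ (by positivity) (by positivity)).1 ?_
    rw [mul_pow, Real.sq_sqrt hn', mul_pow, mul_pow, hρ2, hσ2, hS2]
    field_simp
  have e2 : 2 * s * Real.sqrt (n / (2 * s / r)) = ρ * σ * S := by
    have hn' : (0 : ℝ) ≤ n / (2 * s / r) := by positivity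
    refine (sq_eq_sq₀ (by positivity) (by positivity)).1 ?_
    rw [mul_pow, Real.sq_sqrt hn', mul_pow (ρ * σ), mul_pow ρ, hρ2, hσ2, hS2]
    field_simp
  have h3' : (k : ℝ) ≤ Real.sqrt (2 * s / r * n) + D * S := by
    have := (abs_le.1 h3).2; linarith
  have h4' : (m : ℝ) ≤ Real.sqrt (n / (2 * s / r)) + D * S := by
    have := (abs_le.1 h4).2; linarith
  have h5 : r * (k : ℝ) ≤ ρ * σ * S + r * (D * S) := by
    calc r * (k : ℝ) ≤ r * (Real.sqrt (2 * s / r * n) + D * S) :=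
          mul_le_mul_of_nonneg_left h3' hr0.le
      _ = _ := by rw [mul_add, e1]
  have h6 : 2 * s * (m : ℝ) ≤ ρ * σ * S + 2 * s * (D * S) := by
    calc 2 * s * (m : ℝ) ≤ 2 * s * (Real.sqrt (n / (2 * s / r)) + D * S) :=
          mul_le_mul_of_nonneg_left h4' (by positivity)
      _ = _ := by rw [mul_add, e2]
  have h7 : 2 * r * ((k : ℝ) * m) ≤ 2 * r * (n + D * S) := by
    refine mul_le_mul_of_nonneg_left ?_ (by positivity)
    have := h2
    push_cast at this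
    exact this
  have hDS : 0 ≤ D * S := by positivity
  have h8 : (3 * r + 2 * s) * (D * S) ≤ 6 * (D * S) := by
    refine mul_le_mul_of_nonneg_right ?_ hDS
    rw [hs]; linarith
  have h9 : s ≤ 1 := by rw [hs]; linarith
  calc (r * ((k : ℝ) - 1) + 2) * (2 * (m : ℝ) + 1)
      = 2 * r * ((k : ℝ) * m) + r * k + 2 * s * m + s := by rw [hs]; ring
    _ ≤ 2 * r * (n + D * S) + (ρ * σ * S + r * (D * S)) + (ρ * σ * S + 2 * s * (D * S)) + 1 := by
        linarith
    _ = 2 * r * n + 2 * (ρ * σ) * S + (3 * r + 2 * s) * (D * S) + 1 := by ring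
    _ ≤ _ := by linarith

end N04

open N04 in
theorem limit_ratio (hM : MainIneq) (hO : OlerIneq) :
    ∀ ε : ℝ, 0 < ε → ∃ N : ℕ, ∀ n : ℕ, N ≤ n → ∀ a b : ℝ, a ≤ b → Holds n a b →
      (∀ a' b' : ℝ, Holds n a' b' → a * b ≤ a' * b') →
      |a / b - (2 - Real.sqrt 3)| < ε := by
  intro ε hε
  obtain ⟨C, hC0, hC⟩ := area_main hM
  have hol := area_oler hO
  set D : ℝ := min 1 (ε ^ 2 / 100) with hD
  have hD0 : 0 < D := lt_min one_pos (by positivity)
  have hD1 : D ≤ 1 := min_le_left _ _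
  have hD2 : D ≤ ε ^ 2 / 100 := min_le_right _ _
  obtain ⟨n0, hn0⟩ := upper hD0 hD1
  obtain ⟨r, hr, r2, r3, r4⟩ := r_facts
  rw [← hr] at hn0 hC hol ⊢
  set s : ℝ := 2 - r with hs
  have hs0 : 0 < s := by rw [hs]; linarith
  have hs1 : 0.2675 < s := by rw [hs]; linarith
  have hs2 : s < 0.27 := by rw [hs]; linarith
  have hr0 : 0 < r := by linarith
  -- the bound for sqrt n
  obtain ⟨M, hM⟩ : ∃ M : ℝ, 8 ≤ M ∧ 16 / ε ^ 2 ≤ M ∧ (112 * C / ε ^ 2) ^ 2 ≤ M :=
    ⟨max 8 (max (16 / ε ^ 2) ((112 * C / ε ^ 2) ^ 2)), le_max_left _ _,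
      (le_max_left _ _).trans (le_max_right _ _), (le_max_right _ _).trans (le_max_right _ _)⟩
  obtain ⟨M8, M16, MC⟩ := hM
  obtain ⟨N1, hN1⟩ := exists_nat_ge (M ^ 2 + 1)
  refine ⟨max n0 N1, fun n hn a b hab hh hmin => ?_⟩
  have hnn0 : n0 ≤ n := (le_max_left _ _).trans hn
  have hnN1 : (N1 : ℝ) ≤ n := by exact_mod_cast (le_max_right _ _).trans hn
  set S := Real.sqrt n with hS
  have hS2 : S ^ 2 = n := Real.sq_sqrt (Nat.cast_nonneg n)
  have hSM : M < S := Real.lt_sqrt_of_sq_lt (by linarith)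
  have hS8 : 8 ≤ S := by linarith
  have hS0 : 0 < S := by linarith
  have hnpos : 0 < n := by
    rcases Nat.eq_zero_or_pos n with h | h
    · exfalso
      rw [h] at hS2
      simp at hS2
      linarith
    · exact h
  obtain ⟨a', b', hh', hup⟩ := hn0 n hnn0
  set ρ := Real.sqrt (2 * r) with hρ
  set σ := Real.sqrt s with hσ
  have hρ2 : ρ ^ 2 = 2 * r := Real.sq_sqrt (by positivity)
  have hσ2 : σ ^ 2 = s := Real.sq_sqrt hs0.le
  have hρ0 : 0 ≤ ρ := Real.sqrt_nonneg _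
  have hσ0 : 0 ≤ σ := Real.sqrt_nonneg _
  have hρσ : ρ * σ ≤ 1 := by
    have : (ρ * σ) ^ 2 ≤ 1 := by
      rw [mul_pow, hρ2, hσ2, hs]
      have e : 2 * r * (2 - r) = 4 * r - 6 := by linear_combination (-2) * r2
      rw [e]; linarith
    exact (sq_le_one_iff₀ (mul_nonneg hρ0 hσ0)).1 this
  have hup2 : a * b ≤ 2 * r * n + 2 * (ρ * σ) * S + 6 * D * S + 1 := (hmin a' b' hh').trans hup
  obtain ⟨ha2, hb2⟩ := hh.two_le hnpos
  have ho := hol n hnpos a b hh
  have hm := hC n hnpos a b hab hh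
  -- step 2
  have hDS : D * S ≤ 1 * S := mul_le_mul_of_nonneg_right hD1 hS0.le
  have hρσS : ρ * σ * S ≤ 1 * S := mul_le_mul_of_nonneg_right hρσ hS0.le
  have h2 : s * (a + b) ≤ 11 * S := by linarith
  have hsab : 0.2675 * (a + b) ≤ s * (a + b) :=
    mul_le_mul_of_nonneg_right hs1.le (by linarith)
  have h2' : a + b ≤ 44 * S := by linarith
  -- step 3
  have h3 : Real.sqrt (a + b) ≤ 7 * Real.sqrt S := by
    rw [show (7 : ℝ) * Real.sqrt S = Real.sqrt (49 * S) by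
      rw [Real.sqrt_mul (by norm_num), show (49 : ℝ) = 7 ^ 2 by norm_num,
        Real.sqrt_sq (by norm_num)]]
    exact Real.sqrt_le_sqrt (by linarith)
  have h3' : C * Real.sqrt (a + b) ≤ 7 * C * Real.sqrt S := by
    calc C * Real.sqrt (a + b) ≤ C * (7 * Real.sqrt S) := mul_le_mul_of_nonneg_left h3 hC0
      _ = _ := by ring
  have h4 : a + s * b ≤ 2 * (ρ * σ) * S + 6 * D * S + 1 + 7 * C * Real.sqrt S := by linarith
  -- step 4
  have hrn : 3.46 * (n : ℝ) ≤ 2 * r * n :=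
    mul_le_mul_of_nonneg_right (by linarith) (Nat.cast_nonneg n)
  have hn1 : (1 : ℝ) ≤ n := by exact_mod_cast hnpos
  have h5 : S ^ 2 ≤ a * b := by
    rw [hS2]
    linarith
  have hbS : S ≤ b := by
    by_contra hc
    push Not at hc
    have g1 : a * b ≤ b * b := mul_le_mul_of_nonneg_right hab (by linarith)
    have g2 : b * b < S * S := mul_self_lt_mul_self (by linarith) hc
    rw [sq] at h5
    linarith
  have h6 : 2 * r * n ≤ a * b := by
    have : 8 ≤ a + b := by linarith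
    linarith
  -- roots
  set x := Real.sqrt a with hx
  set y := Real.sqrt b with hy
  have hx2 : x ^ 2 = a := Real.sq_sqrt (by linarith)
  have hy2 : y ^ 2 = b := Real.sq_sqrt (by linarith)
  have hx0 : 0 ≤ x := Real.sqrt_nonneg _
  have hy0 : 0 ≤ y := Real.sqrt_nonneg _
  have hxy : x ≤ y := Real.sqrt_le_sqrt hab
  have h7 : ρ * S ≤ x * y := by
    refine le_of_sq_le_sq ?_ (by positivity)
    rw [mul_pow, mul_pow, hρ2, hS2, hx2, hy2]
    exact h6
  have h8 : (x - σ * y) ^ 2 ≤ 6 * D * S + 1 + 7 * C * Real.sqrt S := by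
    have e : (x - σ * y) ^ 2 = a + s * b - 2 * σ * (x * y) := by
      rw [← hx2, ← hy2, ← hσ2]; ring
    rw [e]
    have := mul_le_mul_of_nonneg_left h7 hσ0
    linarith
  -- step 7
  have hb0 : 0 < b := by linarith
  have hsq : (a / b - s) ^ 2 * b ≤ 4 * (x - σ * y) ^ 2 := by
    have e : a / b - s = (x - σ * y) * (x + σ * y) / b := by
      rw [← hσ2]
      field_simp
      rw [← hx2, ← hy2]
      ring
    have hσ1 : σ ≤ 1 := by
      have : σ ^ 2 ≤ 1 := by rw [hσ2]; linarith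
      exact (sq_le_one_iff₀ hσ0).1 this
    have hle : x + σ * y ≤ 2 * y := by
      have := mul_le_mul_of_nonneg_right hσ1 hy0
      linarith
    have hle2 : (x + σ * y) ^ 2 ≤ 4 * b := by
      have := pow_le_pow_left₀ (by positivity) hle 2
      rw [mul_pow, hy2] at this
      linarith
    rw [e, div_pow, mul_pow]
    rw [div_mul_eq_mul_div, div_le_iff₀ (by positivity)]
    have := mul_le_mul_of_nonneg_left hle2 (mul_nonneg (sq_nonneg (x - σ * y)) hb0.le)
    calc (x - σ * y) ^ 2 * (x + σ * y) ^ 2 * b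
        = (x - σ * y) ^ 2 * b * (x + σ * y) ^ 2 := by ring
      _ ≤ (x - σ * y) ^ 2 * b * (4 * b) := this
      _ = 4 * (x - σ * y) ^ 2 * b ^ 2 := by ring
  have hfin : (a / b - s) ^ 2 * S < ε ^ 2 * S := by
    have g1 : (a / b - s) ^ 2 * S ≤ (a / b - s) ^ 2 * b :=
      mul_le_mul_of_nonneg_left hbS (sq_nonneg _)
    have g2 : 24 * D * S ≤ ε ^ 2 / 4 * S := by
      refine mul_le_mul_of_nonneg_right ?_ hS0.le
      linarith [sq_nonneg ε]
    have g3 : 4 ≤ ε ^ 2 / 4 * S := by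
      have : 16 / ε ^ 2 ≤ S := by linarith
      rw [div_le_iff₀ (by positivity)] at this
      linarith
    have g4 : 28 * C * Real.sqrt S ≤ ε ^ 2 / 4 * S := by
      have k1 : 112 * C / ε ^ 2 ≤ Real.sqrt S := by
        apply Real.le_sqrt_of_sq_le
        linarith
      rw [div_le_iff₀ (by positivity)] at k1
      have k2 : Real.sqrt S * Real.sqrt S = S := Real.mul_self_sqrt hS0.le
      have k3 := mul_le_mul_of_nonneg_right k1 (Real.sqrt_nonneg S)
      have k4 : Real.sqrt S * ε ^ 2 * Real.sqrt S = ε ^ 2 * S := by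
        calc Real.sqrt S * ε ^ 2 * Real.sqrt S = ε ^ 2 * (Real.sqrt S * Real.sqrt S) := by ring
          _ = ε ^ 2 * S := by rw [k2]
      linarith
    have g5 : 0 < ε ^ 2 / 4 * S := by positivity
    linarith
  have hfin2 : (a / b - s) ^ 2 < ε ^ 2 := lt_of_mul_lt_mul_right hfin hS0.le
  exact abs_lt_of_sq_lt_sq hfin2 hε.le

end Pool.Agent.LG
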