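import Pool.Agent.Lib.MP_8026b0_co.CDef

set_option autoImplicit false

/-! The wall function in polar coordinates: `x = l C`, `y = l S`, `C^2 + S^2 = 1`. -/

namespace Pool.Agent.LG

noncomputable section

/-- `cos 6θ`, `sin 6θ` as functions of `C = cos θ`, `S = sin θ` -/
def c6 (C : ℝ) : ℝ := 32 * C ^ 6 - 48 * C ^ 4 + 18 * C ^ 2 - 1
def s6 (C S : ℝ) : ℝ := 2 * S * C * (16 * C ^ 4 - 16 * C ^ 2 + 3)

def MP (l C S : ℝ) : ℝ :=
  S * (l * (1 - cc) / 2 + l ^ 2 * C / Real.sqrt 3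
    + cc * l * (B5 (l ^ 2) * (16 * C ^ 4 - 12 * C ^ 2 + 1)
        + B7 (l ^ 2) * (64 * C ^ 6 - 80 * C ^ 4 + 24 * C ^ 2 - 1))) - 1 / 2

end

end Pool.Agent.LG
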